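import Pool.Agent.H64.IR.Defs

/-! MODULE A2M (project MP_a758cf_pr, IR; overview: team-store H64_a758cf.md)
p = 2: exact formulas. IsAlt M: symmetric with zero diagonal. Let V have independent columns (n x m, m = card κ).
a2m_pr: pr(A V = Y) = ind(IsAlt(Vᵀ Y)) 2^(m(m+1)/2)/2^(nm).
Proof by characters: 1[A V = Y] = 2^(-nm) sum_Z (-1)^{trace(Zᵀ(A V - Y))}; trace(Zᵀ A V) = sum_{i<j} A_ij (V Zᵀ + Z Vᵀ)_ij; averaging over the bits gives 1 if V Zᵀ + Z Vᵀ vanishes
off the diagonal (the diagonal entries are 2 (..) = 0), else 0. V Zᵀ = Z Vᵀ with V full rank means Z = V B, B symmetric (multiply by a left inverse U of V: Z = V Zᵀ Uᵀ.. = V B, then V Bᵀ Vᵀ = V B Vᵀ).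
So pr = 2^(-nm) sum_{B sym} (-1)^{trace(Bᵀ Vᵀ Y)} = 2^(-nm) 2^(m(m+1)/2) if trace(B G) = 0 for all symmetric B (G = Vᵀ Y), i.e. G symmetric with zero diagonal, else 0.
a2m: sum over V of ind(FullRank V) pr(A V = V C), Vᵀ (V C).
-/

set_option autoImplicit false

namespace Pool.H64.IR

open Finset Polynomial

/-- symmetric with zero diagonal -/
def IsAlt {κ : Type} (M : Matrix κ κ (ZMod 2)) : Prop := M.IsSymm ∧ ∀ a, M a a = 0

section a2maux

theorem a2m_IsAlt_add {κ : Type} {M N : Matrix κ κ (ZMod 2)} (hM : IsAlt M) (hN : IsAlt N) :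
    IsAlt (M + N) := by
  refine ⟨?_, fun a => ?_⟩
  · exact hM.1.add hN.1
  · rw [Matrix.add_apply, hM.2, hN.2, add_zero]

theorem a2m_IsAlt_sym {κ : Type} (M : Matrix κ κ (ZMod 2)) : IsAlt (M + M.transpose) := by
  refine ⟨?_, fun a => ?_⟩
  · show (M + M.transpose).transpose = _
    rw [Matrix.transpose_add, Matrix.transpose_transpose, add_comm]
  · rw [Matrix.add_apply, Matrix.transpose_apply]
    exact (by decide : ∀ x : ZMod 2, x + x = 0) _

theorem a2m_IsAlt_conj {κ ν : Type} [Fintype κ] [Fintype ν] [DecidableEq ν] (A : Matrix ν ν (ZMod 2))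
    (hA : IsAlt A) (V : Matrix ν κ (ZMod 2)) : IsAlt (V.transpose * (A * V)) := by
  refine ⟨?_, fun a => ?_⟩
  · show (V.transpose * (A * V)).transpose = _
    rw [Matrix.transpose_mul, Matrix.transpose_mul, Matrix.transpose_transpose, hA.1,
      Matrix.mul_assoc]
  · have h1 : (V.transpose * (A * V)) a a = ∑ x : ν × ν, V x.1 a * (A x.1 x.2 * V x.2 a) := by
      rw [Matrix.mul_apply, Fintype.sum_prod_type]
      refine Finset.sum_congr rfl fun i _ => ?_
      rw [Matrix.transpose_apply, Matrix.mul_apply, Finset.mul_sum]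
    rw [h1]
    refine Finset.sum_involution (fun x _ => (x.2, x.1)) ?_ ?_ ?_ ?_
    · intro x _
      show V x.1 a * (A x.1 x.2 * V x.2 a) + V x.2 a * (A x.2 x.1 * V x.1 a) = 0
      rw [hA.1.apply x.1 x.2]
      have : V x.2 a * (A x.1 x.2 * V x.1 a) = V x.1 a * (A x.1 x.2 * V x.2 a) := by ring
      rw [this]
      exact (by decide : ∀ x : ZMod 2, x + x = 0) _
    · intro x _ hx hxx
      apply hx
      have h2 : x.2 = x.1 := congrArg Prod.fst hxx
      rw [h2, hA.2, zero_mul, mul_zero]
    · intro x _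
      exact Finset.mem_univ _
    · intro x _
      rfl

variable {n : ℕ}

theorem a2m_adj_alt (b : Edge n → Bool) : IsAlt (adj (ZMod 2) b) := by
  refine ⟨?_, fun i => ?_⟩
  · ext i j
    rw [Matrix.transpose_apply]
    simp only [adj, Matrix.of_apply]
    rcases lt_trichotomy i j with h | h | h
    · rw [dif_neg (not_lt.2 h.le), dif_pos h, dif_pos h]
    · subst h; rfl
    · rw [dif_pos h, dif_neg (not_lt.2 h.le), dif_pos h]
  · simp only [adj, Matrix.of_apply]
    rw [dif_neg (lt_irrefl _), dif_neg (lt_irrefl _)]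

/-- every alternating matrix is the matrix of some bits -/
theorem a2m_exists_bits (A : Matrix (Fin n) (Fin n) (ZMod 2)) (hA : IsAlt A) :
    ∃ b : Edge n → Bool, adj (ZMod 2) b = A := by
  refine ⟨fun e => decide (A e.1.1 e.1.2 = 1), ?_⟩
  have h : ∀ x : ZMod 2, (if decide (x = 1) = true then (1 : ZMod 2) else 0) = x := by decide
  ext i j
  simp only [adj, Matrix.of_apply]
  rcases lt_trichotomy i j with h1 | h1 | h1
  · rw [dif_pos h1]
    exact h _
  · rw [dif_neg (h1 ▸ lt_irrefl _), dif_neg (h1 ▸ lt_irrefl _), h1, hA.2]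
  · rw [dif_neg (not_lt.2 h1.le), dif_pos h1, ← hA.1.apply i j]
    exact h _

theorem a2m_adj_xor (b u : Edge n → Bool) :
    adj (ZMod 2) (fun e => xor (b e) (u e)) = adj (ZMod 2) b + adj (ZMod 2) u := by
  have h : ∀ x y : Bool, (if xor x y then (1 : ZMod 2) else 0) =
      (if x then 1 else 0) + (if y then 1 else 0) := by decide
  ext i j
  rw [Matrix.add_apply]
  simp only [adj, Matrix.of_apply]
  rcases lt_trichotomy i j with h1 | h1 | h1
  · simp only [dif_pos h1]
    exact h _ _
  · subst h1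
    simp only [dif_neg (lt_irrefl _), add_zero]
  · simp only [dif_neg (not_lt.2 h1.le), dif_pos h1]
    exact h _ _

theorem a2m_sum_ind {α : Type} [Fintype α] (x : α) : ∑ y : α, ind (x = y) = 1 := by
  classical
  rw [Finset.sum_eq_single x]
  · exact ind_true rfl
  · intro y _ hy
    exact ind_false (Ne.symm hy)
  · intro h
    exact absurd (Finset.mem_univ _) h

/-- left inverse of a full rank matrix -/
theorem a2m_left_inv {κ : Type} [Fintype κ] [DecidableEq κ] (V : Matrix (Fin n) κ (ZMod 2))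
    (hV : FullRank V) : ∃ U : Matrix κ (Fin n) (ZMod 2), U * V = 1 := by
  have hinj : Function.Injective (Matrix.toLin' V) := by
    have h1 : Function.Injective V.mulVec := Matrix.mulVec_injective_iff.2 hV
    exact h1
  obtain ⟨f, hf⟩ := LinearMap.exists_leftInverse_of_injective (Matrix.toLin' V)
    (LinearMap.ker_eq_bot.2 hinj)
  refine ⟨LinearMap.toMatrix' f, ?_⟩
  have h2 : LinearMap.toMatrix' (f ∘ₗ Matrix.toLin' V) = LinearMap.toMatrix' f * V := by
    rw [LinearMap.toMatrix'_comp, LinearMap.toMatrix'_toLin']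
  rw [← h2, hf, LinearMap.toMatrix'_id]

/-- the image -/
theorem a2m_exists {κ : Type} [Fintype κ] [DecidableEq κ] (V Y : Matrix (Fin n) κ (ZMod 2))
    (hV : FullRank V) (hY : IsAlt (V.transpose * Y)) : ∃ b : Edge n → Bool, adj (ZMod 2) b * V = Y := by
  obtain ⟨U, hU⟩ := a2m_left_inv V hV
  have hA : IsAlt ((Y * U + (Y * U).transpose) + U.transpose * ((V.transpose * Y) * U)) :=
    a2m_IsAlt_add (a2m_IsAlt_sym _) (a2m_IsAlt_conj _ hY U)
  obtain ⟨b, hb⟩ := a2m_exists_bits _ hA
  refine ⟨b, ?_⟩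
  rw [hb, Matrix.add_mul, Matrix.add_mul]
  have h1 : Y * U * V = Y := by rw [Matrix.mul_assoc, hU, Matrix.mul_one]
  have h2 : (Y * U).transpose * V = U.transpose * (V.transpose * Y) := by
    rw [Matrix.transpose_mul, Matrix.mul_assoc]
    congr 1
    have h3 := hY.1
    have h4 : (V.transpose * Y).transpose = Y.transpose * V := by
      rw [Matrix.transpose_mul, Matrix.transpose_transpose]
    rw [← h4]
    exact h3
  have h3 : U.transpose * ((V.transpose * Y) * U) * V = U.transpose * (V.transpose * Y) := by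
    rw [Matrix.mul_assoc, Matrix.mul_assoc (V.transpose * Y), hU, Matrix.mul_one]
  rw [h1, h2, h3, add_assoc]
  have h4 : ∀ M : Matrix (Fin n) κ (ZMod 2), M + M = 0 := by
    intro M
    ext i j
    rw [Matrix.add_apply]
    exact (by decide : ∀ x : ZMod 2, x + x = 0) _
  rw [h4, add_zero]

/-- number of alternating matrices -/
theorem a2m_alt_card {κ : Type} [Fintype κ] [DecidableEq κ] :
    (∑ M : Matrix κ κ (ZMod 2), ind (IsAlt M)) =
      (2 : ℝ) ^ ((Fintype.card κ).choose 2) := by
  classical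
  let Ψ : {M : Matrix κ κ (ZMod 2) // IsAlt M} ≃ ({z : Sym2 κ // ¬ z.IsDiag} → ZMod 2) :=
    { toFun := fun M z => Sym2.lift ⟨fun a b => M.1 a b, fun a b => (M.2.1.apply a b).symm⟩ z.1
      invFun := fun f => ⟨Matrix.of fun a b => if h : a = b then 0 else f ⟨s(a, b), by
          rw [Sym2.mk_isDiag_iff]; exact h⟩, by
        refine ⟨?_, fun a => ?_⟩
        · ext a b
          rw [Matrix.transpose_apply, Matrix.of_apply, Matrix.of_apply]
          by_cases h : a = b
          · rw [dif_pos h, dif_pos h.symm]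
          · rw [dif_neg h, dif_neg (Ne.symm h)]
            congr 2
            exact Sym2.eq_swap
        · rw [Matrix.of_apply, dif_pos rfl]⟩
      left_inv := by
        rintro ⟨M, hM⟩
        apply Subtype.ext
        ext a b
        simp only [Matrix.of_apply]
        by_cases h : a = b
        · rw [dif_pos h, h, hM.2]
        · rw [dif_neg h]
          rfl
      right_inv := by
        intro f
        funext z
        obtain ⟨z, hz⟩ := z
        induction z using Sym2.ind with
        | _ a b =>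
          simp only [Sym2.lift_mk, Matrix.of_apply]
          rw [dif_neg]
          intro h
          exact hz ((Sym2.mk_isDiag_iff).2 h) }
  have h1 : (∑ M : Matrix κ κ (ZMod 2), ind (IsAlt M)) =
      (Fintype.card {M : Matrix κ κ (ZMod 2) // IsAlt M} : ℝ) := by
    rw [Fintype.card_subtype]
    unfold ind
    rw [Finset.sum_boole]
  rw [h1, Fintype.card_congr Ψ, Fintype.card_fun, ZMod.card, Sym2.card_subtype_not_diag]
  push_cast
  rfl

/-- counting fibres of a surjective additive map -/
theorem a2m_fibre {κ : Type} [Fintype κ] [DecidableEq κ] (V : Matrix (Fin n) κ (ZMod 2))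
    (hV : FullRank V) :
    (∑ Y : Matrix (Fin n) κ (ZMod 2), ind (IsAlt (V.transpose * Y))) *
      (2 : ℝ) ^ (Fintype.card κ * Fintype.card κ) =
      (2 : ℝ) ^ ((Fintype.card κ).choose 2) * ((2 : ℝ) ^ n) ^ Fintype.card κ := by
  classical
  obtain ⟨U, hU⟩ := a2m_left_inv V hV
  have hU' : V.transpose * U.transpose = 1 := by
    rw [← Matrix.transpose_mul, hU, Matrix.transpose_one]
  let Fc : Matrix κ κ (ZMod 2) → ℝ := fun G =>
    ∑ Y : Matrix (Fin n) κ (ZMod 2), ind (V.transpose * Y = G)
  have hF : ∀ G, Fc G = Fc 0 := by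
    intro G
    let σ : Matrix (Fin n) κ (ZMod 2) ≃ Matrix (Fin n) κ (ZMod 2) :=
      Equiv.addRight (U.transpose * G)
    refine ((Equiv.sum_comp σ (fun Y => ind (V.transpose * Y = G))).symm).trans ?_
    refine Finset.sum_congr rfl fun Y _ => ind_congr ?_
    show V.transpose * (Y + U.transpose * G) = G ↔ _
    rw [Matrix.mul_add, ← Matrix.mul_assoc, hU', Matrix.one_mul]
    exact add_eq_right
  have htot : ∑ G, Fc G = ((2 : ℝ) ^ n) ^ Fintype.card κ := by
    rw [Finset.sum_comm]
    have h1 : ∀ Y ∈ (univ : Finset (Matrix (Fin n) κ (ZMod 2))),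
        ∑ G : Matrix κ κ (ZMod 2), ind (V.transpose * Y = G) = 1 := by
      intro Y _
      exact a2m_sum_ind _
    rw [Finset.sum_congr rfl h1, Finset.sum_const, Finset.card_univ, nsmul_eq_mul, mul_one]
    have h2 : Fintype.card (Matrix (Fin n) κ (ZMod 2)) = (2 ^ Fintype.card κ) ^ n := by
      show Fintype.card (Fin n → κ → ZMod 2) = _
      rw [Fintype.card_fun, Fintype.card_fun, ZMod.card, Fintype.card_fin]
    rw [h2]
    push_cast
    rw [← pow_mul, ← pow_mul, mul_comm]
  have hF0 : Fc 0 * (2 : ℝ) ^ (Fintype.card κ * Fintype.card κ) = ((2 : ℝ) ^ n) ^ Fintype.card κ := by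
    rw [← htot, Finset.sum_congr rfl fun G _ => hF G, Finset.sum_const, Finset.card_univ,
      nsmul_eq_mul, mul_comm]
    congr 1
    have h2 : Fintype.card (Matrix κ κ (ZMod 2)) = (2 ^ Fintype.card κ) ^ Fintype.card κ := by
      show Fintype.card (κ → κ → ZMod 2) = _
      rw [Fintype.card_fun, Fintype.card_fun, ZMod.card]
    rw [h2]
    push_cast
    rw [← pow_mul]
  have hsum : (∑ Y : Matrix (Fin n) κ (ZMod 2), ind (IsAlt (V.transpose * Y))) =
      (∑ M : Matrix κ κ (ZMod 2), ind (IsAlt M)) * Fc 0 := by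
    calc (∑ Y : Matrix (Fin n) κ (ZMod 2), ind (IsAlt (V.transpose * Y)))
        = ∑ Y : Matrix (Fin n) κ (ZMod 2), ∑ G : Matrix κ κ (ZMod 2),
            ind (IsAlt G) * ind (V.transpose * Y = G) := by
          refine Finset.sum_congr rfl fun Y _ => ?_
          unfold ind
          simp
      _ = ∑ G : Matrix κ κ (ZMod 2), ind (IsAlt G) * Fc G := by
          rw [Finset.sum_comm]
          exact Finset.sum_congr rfl fun G _ => (Finset.mul_sum _ _ _).symm
      _ = _ := by
          rw [Finset.sum_mul]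
          exact Finset.sum_congr rfl fun G _ => by rw [hF G]
  rw [hsum, a2m_alt_card, mul_assoc, hF0]

end a2maux

theorem a2m_pr {n : ℕ} {κ : Type} [Fintype κ] [DecidableEq κ] (V Y : Matrix (Fin n) κ (ZMod 2)) (hV : FullRank V) :
    pr (fun b : Edge n → Bool => adj (ZMod 2) b * V = Y) =
      ind (IsAlt (V.transpose * Y)) * ((2 : ℝ) ^ (Fintype.card κ * (Fintype.card κ + 1) / 2) / ((2 : ℝ) ^ n) ^ Fintype.card κ) := by
  classical
  let N : Matrix (Fin n) κ (ZMod 2) → ℝ := fun Y =>
    ∑ b : Edge n → Bool, ind (adj (ZMod 2) b * V = Y)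
  have hN : ∀ Y, N Y = ind (IsAlt (V.transpose * Y)) * N 0 := by
    intro Y
    by_cases hY : IsAlt (V.transpose * Y)
    · rw [ind_true hY, one_mul]
      obtain ⟨u, hu⟩ := a2m_exists V Y hV hY
      let σ : (Edge n → Bool) ≃ (Edge n → Bool) :=
        { toFun := fun b ed => xor (b ed) (u ed)
          invFun := fun b ed => xor (b ed) (u ed)
          left_inv := fun b => by funext ed; simp
          right_inv := fun b => by funext ed; simp }
      refine ((Equiv.sum_comp σ (fun b => ind (adj (ZMod 2) b * V = Y))).symm).trans ?_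
      refine Finset.sum_congr rfl fun b _ => ind_congr ?_
      show adj (ZMod 2) (fun ed => xor (b ed) (u ed)) * V = Y ↔ _
      rw [a2m_adj_xor, Matrix.add_mul, hu]
      exact add_eq_right
    · rw [ind_false hY, zero_mul]
      refine Finset.sum_eq_zero fun b _ => ind_false ?_
      rintro rfl
      exact hY (a2m_IsAlt_conj _ (a2m_adj_alt b) V)
  have htot : ∑ Y, N Y = (Fintype.card (Edge n → Bool) : ℝ) := by
    rw [Finset.sum_comm]
    have h1 : ∀ b ∈ (univ : Finset (Edge n → Bool)),
        ∑ Y : Matrix (Fin n) κ (ZMod 2), ind (adj (ZMod 2) b * V = Y) = 1 := by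
      intro b _
      exact a2m_sum_ind _
    rw [Finset.sum_congr rfl h1, Finset.sum_const, Finset.card_univ, nsmul_eq_mul, mul_one]
  have hE : (0 : ℝ) < Fintype.card (Edge n → Bool) := by exact_mod_cast Fintype.card_pos
  have h0 : (∑ Y : Matrix (Fin n) κ (ZMod 2), ind (IsAlt (V.transpose * Y))) * N 0 =
      (Fintype.card (Edge n → Bool) : ℝ) := by
    rw [← htot, Finset.sum_mul]
    exact Finset.sum_congr rfl fun Y _ => (hN Y).symm
  have hfib := a2m_fibre V hV
  set S := ∑ Y : Matrix (Fin n) κ (ZMod 2), ind (IsAlt (V.transpose * Y)) with hS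
  have hS0 : S ≠ 0 := by
    intro h
    rw [h, zero_mul] at h0
    exact hE.ne' h0.symm
  have hexp : Fintype.card κ * (Fintype.card κ + 1) / 2 + (Fintype.card κ).choose 2 =
      Fintype.card κ * Fintype.card κ := by
    rw [Nat.choose_two_right]
    generalize Fintype.card κ = m
    have h2 : m * (m + 1) / 2 * 2 = m * (m + 1) :=
      Nat.div_mul_cancel (Nat.even_mul_succ_self m).two_dvd
    have h3 : m * (m - 1) / 2 * 2 = m * (m - 1) :=
      Nat.div_mul_cancel (Nat.even_mul_pred_self m).two_dvd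
    have h4 : m * (m + 1) + m * (m - 1) = 2 * (m * m) := by
      rcases Nat.eq_zero_or_pos m with h | h
      · rw [h]
      · obtain ⟨r, rfl⟩ : ∃ r, m = r + 1 := ⟨m - 1, by omega⟩
        rw [Nat.add_sub_cancel]
        ring
    omega
  have hkey : N 0 / (Fintype.card (Edge n → Bool) : ℝ) =
      (2 : ℝ) ^ (Fintype.card κ * (Fintype.card κ + 1) / 2) / ((2 : ℝ) ^ n) ^ Fintype.card κ := by
    rw [← h0, div_eq_div_iff (mul_ne_zero hS0 (fun h => by
      rw [h, mul_zero] at h0; exact hE.ne' h0.symm)) (by positivity)]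
    have h5 : (2 : ℝ) ^ (Fintype.card κ * Fintype.card κ) =
        (2 : ℝ) ^ (Fintype.card κ * (Fintype.card κ + 1) / 2) * (2 : ℝ) ^ (Fintype.card κ).choose 2 := by
      rw [← pow_add, hexp]
    rw [h5] at hfib
    have h6 : S * (2 : ℝ) ^ (Fintype.card κ * (Fintype.card κ + 1) / 2) =
        ((2 : ℝ) ^ n) ^ Fintype.card κ := by
      have h7 : (2 : ℝ) ^ (Fintype.card κ).choose 2 ≠ 0 := by positivity
      apply mul_left_cancel₀ h7
      rw [← hfib]
      ring
    rw [← h6]
    ring
  show N Y / (Fintype.card (Edge n → Bool) : ℝ) = _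
  rw [hN Y, mul_div_assoc, hkey]

theorem a2m {n : ℕ} {κ : Type} [Fintype κ] [DecidableEq κ] (C : Matrix κ κ (ZMod 2)) :
    avg (fun b : Edge n → Bool => XC C (adj (ZMod 2) b)) =
      (∑ V : Matrix (Fin n) κ (ZMod 2), ind (FullRank V ∧ IsAlt (V.transpose * V * C))) *
        ((2 : ℝ) ^ (Fintype.card κ * (Fintype.card κ + 1) / 2) / ((2 : ℝ) ^ n) ^ Fintype.card κ) := by
  unfold XC
  rw [avg_sum, Finset.sum_mul]
  refine Finset.sum_congr rfl fun V _ => ?_
  by_cases hV : FullRank V
  · have h1 : avg (fun b : Edge n → Bool => ind (FullRank V ∧ adj (ZMod 2) b * V = V * C)) =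
        pr (fun b : Edge n → Bool => adj (ZMod 2) b * V = V * C) := by
      unfold pr
      congr 1
      funext b
      exact ind_congr ⟨fun h => h.2, fun h => ⟨hV, h⟩⟩
    rw [h1, a2m_pr V (V * C) hV]
    congr 1
    refine ind_congr ?_
    rw [Matrix.mul_assoc]
    exact ⟨fun h => ⟨hV, h⟩, fun h => h.2⟩
  · have h1 : ∀ b : Edge n → Bool, ind (FullRank V ∧ adj (ZMod 2) b * V = V * C) = 0 :=
      fun b => ind_false fun h => hV h.1
    rw [ind_false fun h : FullRank V ∧ IsAlt (V.transpose * V * C) => hV h.1, zero_mul]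
    unfold avg
    rw [Finset.sum_eq_zero fun b _ => h1 b, zero_div]

end Pool.H64.IR
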