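import Pool.Agent.H64.IR.A2M

/-! MODULE B2M (project MP_a758cf_pr, IR; overview: team-store H64_a758cf.md)
g monic irreducible over ZMod 2 of degree k >= 2, C = comp g. b2m: S symmetric, S C alternating imply S = 0. Proof: on column vectors F^k, C acts cyclically with minimal polynomial g (cyclic
vector: e_{k-1}... or use Cᵀ similar), so column space = K u0, K = F[C] a field with 2^k elements. beta(u,w) = uᵀ S w, C self-adjoint: beta(f(C)u0, h(C)u0) = l(fh), l(f) = u0ᵀ S f(C) u0.
IsAlt(S C): uᵀ S C u = 0 for all u: l(C f^2) = 0 for all f in K; squares fill K and C /= 0 is invertible in K, so l = 0 and S = 0.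
b2m_two: S on Fin k + Fin k symmetric, S C2 alternating with C2 = fromBlocks C 0 0 C: S11 = S22 = 0 and S12 C = Cᵀ S12; the number of S is at most 2^k (S12 determined by its first row as in HCM2);
and if S /= 0 then S12 is invertible (kernel of S12 is C-invariant, K^1 is a simple module), so det S /= 0; the diagonal of S is zero.
-/

set_option autoImplicit false

namespace Pool.H64.IR

open Finset Polynomial

section b2m

variable (g : (ZMod 2)[X]) (hk : 2 ≤ g.natDegree)

/-- the vector `f(C) e_0` -/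
noncomputable def b2m_v (f : (ZMod 2)[X]) : Fin g.natDegree → ZMod 2 :=
  (aeval (comp g) f).mulVec (Pi.single ⟨0, by omega⟩ 1)

theorem b2m_v_mul (f h : (ZMod 2)[X]) :
    b2m_v g hk (f * h) = (aeval (comp g) f).mulVec (b2m_v g hk h) := by
  unfold b2m_v
  rw [map_mul, Matrix.mulVec_mulVec]

theorem b2m_v_add (f h : (ZMod 2)[X]) :
    b2m_v g hk (f + h) = b2m_v g hk f + b2m_v g hk h := by
  unfold b2m_v
  rw [map_add, Matrix.add_mulVec]

theorem b2m_v_zero : b2m_v g hk 0 = 0 := by
  unfold b2m_v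
  rw [map_zero, Matrix.zero_mulVec]

theorem b2m_v_sum {α : Type} (s : Finset α) (f : α → (ZMod 2)[X]) :
    b2m_v g hk (∑ i ∈ s, f i) = ∑ i ∈ s, b2m_v g hk (f i) := by
  classical
  induction s using Finset.induction_on with
  | empty => simp [b2m_v_zero]
  | insert a s ha ih => rw [Finset.sum_insert ha, Finset.sum_insert ha, b2m_v_add, ih]

theorem b2m_v_C (c : ZMod 2) (f : (ZMod 2)[X]) : b2m_v g hk (C c * f) = c • b2m_v g hk f := by
  rw [b2m_v_mul, aeval_C, Algebra.algebraMap_eq_smul_one, Matrix.smul_mulVec, Matrix.one_mulVec]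

theorem b2m_v_pow (j : ℕ) (hj : j < g.natDegree) :
    b2m_v g hk (X ^ j) = Pi.single ⟨j, hj⟩ 1 := by
  induction j with
  | zero =>
    unfold b2m_v
    rw [pow_zero, map_one, Matrix.one_mulVec]
  | succ j ih =>
    rw [pow_succ', b2m_v_mul, ih (by omega), aeval_X, Matrix.mulVec_single_one]
    funext i
    change comp g i ⟨j, _⟩ = _
    unfold comp
    rw [Matrix.of_apply, if_neg (by change ¬ (j + 1 = _); omega)]
    rw [Pi.single_apply]
    by_cases h : i = ⟨j + 1, hj⟩
    · rw [if_pos h, if_pos (by rw [h])]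
    · rw [if_neg h, if_neg (fun h' => h (Fin.ext h'))]

theorem b2m_v_self (hg : g.Monic) : b2m_v g hk g = 0 := by
  have h0 : b2m_v g hk (X ^ g.natDegree + ∑ i ∈ range g.natDegree, C (g.coeff i) * X ^ i) = 0 := by
    rw [b2m_v_add, b2m_v_sum]
    have h1 : b2m_v g hk (X ^ g.natDegree) = fun i : Fin g.natDegree => - g.coeff i := by
      obtain ⟨m, hm⟩ : ∃ m, g.natDegree = m + 1 := ⟨g.natDegree - 1, by omega⟩
      have h2 : (X : (ZMod 2)[X]) ^ g.natDegree = X * X ^ m := by rw [hm, pow_succ']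
      rw [h2, b2m_v_mul, b2m_v_pow g hk m (by omega), aeval_X, Matrix.mulVec_single_one]
      funext i
      change comp g i ⟨m, _⟩ = _
      unfold comp
      rw [Matrix.of_apply, if_pos (by change m + 1 = _; omega)]
    rw [h1]
    funext i
    rw [Pi.add_apply, Finset.sum_apply, Finset.sum_eq_single (i : ℕ)]
    · rw [b2m_v_C, b2m_v_pow g hk i i.2, Pi.smul_apply, Pi.single_eq_same, smul_eq_mul, mul_one]
      simp
      exact CharTwo.add_self_eq_zero _
    · intro j hj hji
      rw [Finset.mem_range] at hj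
      rw [b2m_v_C, b2m_v_pow g hk j hj, Pi.smul_apply, Pi.single_eq_of_ne, smul_zero]
      intro h
      exact hji (by rw [h])
    · intro h
      exact absurd (Finset.mem_range.2 i.2) h
  rwa [← hg.as_sum] at h0

theorem b2m_v_dvd (hg : g.Monic) (f h : (ZMod 2)[X]) (hd : g ∣ f - h) :
    b2m_v g hk f = b2m_v g hk h := by
  obtain ⟨q, hq⟩ := hd
  have h1 : f = q * g + h := by rw [mul_comm, ← hq]; ring
  rw [h1, b2m_v_add, b2m_v_mul, b2m_v_self g hk hg, Matrix.mulVec_zero, zero_add]

theorem b2m_surj (u : Fin g.natDegree → ZMod 2) : ∃ f, b2m_v g hk f = u := by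
  refine ⟨∑ i : Fin g.natDegree, C (u i) * X ^ (i : ℕ), ?_⟩
  rw [b2m_v_sum]
  funext j
  rw [Finset.sum_apply, Finset.sum_eq_single j]
  · rw [b2m_v_C, b2m_v_pow g hk j j.2, Pi.smul_apply, Pi.single_eq_same, smul_eq_mul, mul_one]
  · intro i _ hij
    rw [b2m_v_C, b2m_v_pow g hk i i.2, Pi.smul_apply, Pi.single_eq_of_ne, smul_zero]
    intro h
    exact hij (Fin.ext (by rw [h]))
  · intro h
    exact absurd (Finset.mem_univ j) h

theorem b2m_adj {k : ℕ} (A S : Matrix (Fin k) (Fin k) (ZMod 2)) (h : S * A = A.transpose * S)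
    (f : (ZMod 2)[X]) : S * aeval A f = (aeval A f).transpose * S := by
  have hpow : ∀ n : ℕ, S * A ^ n = (A ^ n).transpose * S := by
    intro n
    induction n with
    | zero => simp
    | succ n ih =>
      rw [pow_succ, ← mul_assoc, ih, mul_assoc, h, ← mul_assoc, ← Matrix.transpose_mul, ← pow_succ',
        ← pow_succ]
  induction f using Polynomial.induction_on' with
  | add p q hp hq =>
    rw [map_add, mul_add, hp, hq, Matrix.transpose_add, add_mul]
  | monomial n a =>
    rw [aeval_monomial, Algebra.algebraMap_eq_smul_one, smul_mul_assoc, one_mul, mul_smul_comm, hpow,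
      Matrix.transpose_smul, smul_mul_assoc]

/-- the form -/
theorem b2m_form (S : Matrix (Fin g.natDegree) (Fin g.natDegree) (ZMod 2))
    (h : S * comp g = (comp g).transpose * S) (f f' : (ZMod 2)[X]) :
    dotProduct (b2m_v g hk f) (S.mulVec (b2m_v g hk f')) =
      dotProduct (Pi.single ⟨0, by omega⟩ 1) (S.mulVec (b2m_v g hk (f * f'))) := by
  have h1 := b2m_adj (comp g) S h f
  rw [b2m_v_mul, Matrix.mulVec_mulVec, h1, ← Matrix.mulVec_mulVec, Matrix.dotProduct_mulVec,
    Matrix.dotProduct_mulVec, Matrix.dotProduct_mulVec, Matrix.vecMul_transpose]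
  rfl

theorem b2m_quad {κ : Type} [Fintype κ] [DecidableEq κ] (M : Matrix κ κ (ZMod 2)) (hM : IsAlt M)
    (u : κ → ZMod 2) : dotProduct u (M.mulVec u) = 0 := by
  have h1 : dotProduct u (M.mulVec u) = ∑ x : κ × κ, u x.1 * (M x.1 x.2 * u x.2) := by
    rw [Fintype.sum_prod_type]
    simp only [dotProduct, Matrix.mulVec, Finset.mul_sum]
  rw [h1]
  refine Finset.sum_involution (fun x _ => (x.2, x.1)) ?_ ?_ ?_ ?_
  · rintro ⟨a, b⟩ _
    have hs : M b a = M a b := congrFun (congrFun hM.1 a) b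
    change u a * (M a b * u b) + u b * (M b a * u a) = 0
    rw [hs]
    have : u b * (M a b * u a) = u a * (M a b * u b) := by ring
    rw [this]
    exact CharTwo.add_self_eq_zero _
  · rintro ⟨a, b⟩ _ hne heq
    apply hne
    have hab : b = a := (Prod.ext_iff.1 heq).1
    subst hab
    change u b * (M b b * u b) = 0
    rw [hM.2 b]
    ring
  · intro _ _
    exact Finset.mem_univ _
  · intro _ _
    rfl

theorem b2m_field (hk : 2 ≤ g.natDegree) (hg : g.Monic) (hi : Irreducible g) (h : (ZMod 2)[X]) :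
    ∃ f : (ZMod 2)[X], g ∣ X * (f * f) - h := by
  have : Fact (Irreducible g) := ⟨hi⟩
  have : Module.Finite (ZMod 2) (AdjoinRoot g) := hg.finite_adjoinRoot
  have : Finite (AdjoinRoot g) := Module.finite_of_finite (ZMod 2)
  have : CharP (AdjoinRoot g) 2 :=
    charP_of_injective_algebraMap (algebraMap (ZMod 2) (AdjoinRoot g)).injective 2
  have hX : AdjoinRoot.mk g X ≠ 0 := by
    intro h0
    rw [AdjoinRoot.mk_eq_zero] at h0
    have h1 := Polynomial.natDegree_le_of_dvd h0 Polynomial.X_ne_zero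
    rw [Polynomial.natDegree_X] at h1
    omega
  obtain ⟨z, hz⟩ := surjective_frobenius (AdjoinRoot g) 2 (AdjoinRoot.mk g h * (AdjoinRoot.mk g X)⁻¹)
  obtain ⟨f, rfl⟩ := AdjoinRoot.mk_surjective z
  refine ⟨f, ?_⟩
  rw [← AdjoinRoot.mk_eq_zero, map_sub, map_mul, map_mul, sub_eq_zero]
  rw [frobenius_def] at hz
  rw [← sq, hz, mul_comm, mul_assoc, inv_mul_cancel₀ hX, mul_one]

theorem b2m_inv (hi : Irreducible g) (h : (ZMod 2)[X]) (hh : ¬ g ∣ h) (f : (ZMod 2)[X]) :
    ∃ q : (ZMod 2)[X], g ∣ q * h - f := by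
  have hcop : IsCoprime g h := (hi.coprime_iff_not_dvd).2 hh
  obtain ⟨a, b, hab⟩ := hcop
  refine ⟨f * b, -(f * a), ?_⟩
  have : f * b * h - f = f * (b * h) - f * (a * g + b * h) := by rw [hab]; ring
  rw [this]
  ring

end b2m

theorem b2m (g : (ZMod 2)[X]) (hg : g.Monic) (hi : Irreducible g) (hk : 2 ≤ g.natDegree)
    (S : Matrix (Fin g.natDegree) (Fin g.natDegree) (ZMod 2)) (hS : S.IsSymm) (h : IsAlt (S * comp g)) : S = 0 := by
  have hadj : S * comp g = (comp g).transpose * S := by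
    have h1 := h.1
    unfold Matrix.IsSymm at h1
    rw [Matrix.transpose_mul, hS] at h1
    exact h1.symm
  -- the linear form vanishes
  have hl : ∀ f : (ZMod 2)[X], dotProduct (Pi.single ⟨0, by omega⟩ 1) (S.mulVec (b2m_v g hk f)) = 0 := by
    intro f
    obtain ⟨q, hq⟩ := b2m_field g hk hg hi f
    rw [← b2m_v_dvd g hk hg _ _ hq]
    have h2 := b2m_quad (S * comp g) h (b2m_v g hk q)
    rw [← Matrix.mulVec_mulVec] at h2
    have h3 : (comp g).mulVec (b2m_v g hk q) = b2m_v g hk (X * q) := by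
      rw [b2m_v_mul, aeval_X]
    rw [h3, b2m_form g hk S hadj] at h2
    have h4 : q * (X * q) = X * (q * q) := by ring
    rwa [h4] at h2
  ext a b
  obtain ⟨f, hf⟩ := b2m_surj g hk (Pi.single a 1)
  obtain ⟨f', hf'⟩ := b2m_surj g hk (Pi.single b 1)
  have h5 := b2m_form g hk S hadj f f'
  rw [hl, hf, hf', Matrix.mulVec_single_one, single_one_dotProduct] at h5
  exact h5

theorem b2m_blocks (g : (ZMod 2)[X]) (hg : g.Monic) (hi : Irreducible g) (hk : 2 ≤ g.natDegree)
    (S : Matrix (Fin g.natDegree ⊕ Fin g.natDegree) (Fin g.natDegree ⊕ Fin g.natDegree) (ZMod 2)) (hS : S.IsSymm)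
    (h : IsAlt (S * Matrix.fromBlocks (comp g) 0 0 (comp g))) :
    ∃ T : Matrix (Fin g.natDegree) (Fin g.natDegree) (ZMod 2),
      S = Matrix.fromBlocks 0 T T.transpose 0 ∧ T * comp g = (comp g).transpose * T := by
  obtain ⟨A, B, C', D, rfl⟩ : ∃ A B C' D, S = Matrix.fromBlocks A B C' D :=
    ⟨_, _, _, _, (Matrix.fromBlocks_toBlocks S).symm⟩
  unfold Matrix.IsSymm at hS
  rw [Matrix.fromBlocks_transpose, Matrix.fromBlocks_inj] at hS
  obtain ⟨hA, hC, hB, hD⟩ := hS
  rw [Matrix.fromBlocks_multiply] at h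
  simp only [Matrix.mul_zero, add_zero, zero_add] at h
  obtain ⟨h1, h2⟩ := h
  unfold Matrix.IsSymm at h1
  rw [Matrix.fromBlocks_transpose, Matrix.fromBlocks_inj] at h1
  obtain ⟨h3, h4, h5, h6⟩ := h1
  have hA0 : A = 0 := b2m g hg hi hk A hA ⟨h3, fun a => h2 (Sum.inl a)⟩
  have hD0 : D = 0 := b2m g hg hi hk D hD ⟨h6, fun a => h2 (Sum.inr a)⟩
  refine ⟨B, ?_, ?_⟩
  · rw [hA0, hD0, hB]
  · rw [← h4, Matrix.transpose_mul, hC]

theorem b2m_count (g : (ZMod 2)[X]) (hg : g.Monic) (hi : Irreducible g) (hk : 2 ≤ g.natDegree) :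
    (∑ S : Matrix (Fin g.natDegree ⊕ Fin g.natDegree) (Fin g.natDegree ⊕ Fin g.natDegree) (ZMod 2),
      ind (S.IsSymm ∧ IsAlt (S * Matrix.fromBlocks (comp g) 0 0 (comp g)))) ≤ (2 : ℝ) ^ g.natDegree := by
  classical
  have h1 : (∑ S : Matrix (Fin g.natDegree ⊕ Fin g.natDegree) (Fin g.natDegree ⊕ Fin g.natDegree) (ZMod 2),
      ind (S.IsSymm ∧ IsAlt (S * Matrix.fromBlocks (comp g) 0 0 (comp g)))) =
      ((Finset.univ.filter fun S : Matrix (Fin g.natDegree ⊕ Fin g.natDegree)
        (Fin g.natDegree ⊕ Fin g.natDegree) (ZMod 2) =>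
        S.IsSymm ∧ IsAlt (S * Matrix.fromBlocks (comp g) 0 0 (comp g))).card : ℝ) := by
    rw [Finset.card_filter]
    push_cast
    refine Finset.sum_congr rfl fun S _ => ?_
    by_cases hP : S.IsSymm ∧ IsAlt (S * Matrix.fromBlocks (comp g) 0 0 (comp g))
    · rw [ind_true hP, if_pos hP]
    · rw [ind_false hP, if_neg hP]
  rw [h1]
  have h2 : (Finset.univ.filter fun S : Matrix (Fin g.natDegree ⊕ Fin g.natDegree)
        (Fin g.natDegree ⊕ Fin g.natDegree) (ZMod 2) =>
        S.IsSymm ∧ IsAlt (S * Matrix.fromBlocks (comp g) 0 0 (comp g))).card ≤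
      (Finset.univ : Finset (Fin g.natDegree → ZMod 2)).card := by
    refine Finset.card_le_card_of_injOn
      (fun S a => S (Sum.inl a) (Sum.inr ⟨0, by omega⟩)) (fun _ _ => Finset.mem_coe.2 (Finset.mem_univ _)) ?_
    intro S hS S' hS' heq
    rw [Finset.mem_coe, Finset.mem_filter] at hS hS'
    obtain ⟨T, hT, hTC⟩ := b2m_blocks g hg hi hk S hS.2.1 hS.2.2
    obtain ⟨T', hT', hTC'⟩ := b2m_blocks g hg hi hk S' hS'.2.1 hS'.2.2
    subst hT
    subst hT'
    have h3 : T.mulVec (Pi.single ⟨0, by omega⟩ 1) = T'.mulVec (Pi.single ⟨0, by omega⟩ 1) := by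
      rw [Matrix.mulVec_single_one, Matrix.mulVec_single_one]
      exact heq
    have h4 : ∀ f, T.mulVec (b2m_v g hk f) = T'.mulVec (b2m_v g hk f) := by
      intro f
      unfold b2m_v
      rw [Matrix.mulVec_mulVec, Matrix.mulVec_mulVec, b2m_adj _ _ hTC f, b2m_adj _ _ hTC' f,
        ← Matrix.mulVec_mulVec, ← Matrix.mulVec_mulVec, h3]
    have h5 : T = T' := by
      ext a b
      obtain ⟨f, hf⟩ := b2m_surj g hk (Pi.single b 1)
      have h6 := congrFun (h4 f) a
      rw [hf, Matrix.mulVec_single_one, Matrix.mulVec_single_one] at h6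
      exact h6
    rw [h5]
  have h7 : (Finset.univ : Finset (Fin g.natDegree → ZMod 2)).card = 2 ^ g.natDegree := by
    rw [Finset.card_univ, Fintype.card_fun, ZMod.card, Fintype.card_fin]
  rw [h7] at h2
  exact_mod_cast h2

theorem b2m_two (g : (ZMod 2)[X]) (hg : g.Monic) (hi : Irreducible g) (hk : 2 ≤ g.natDegree)
    (S : Matrix (Fin g.natDegree ⊕ Fin g.natDegree) (Fin g.natDegree ⊕ Fin g.natDegree) (ZMod 2)) (hS : S.IsSymm)
    (h : IsAlt (S * Matrix.fromBlocks (comp g) 0 0 (comp g))) : IsAlt S ∧ (S = 0 ∨ S.det ≠ 0) := by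
  classical
  obtain ⟨T, hT, hTC⟩ := b2m_blocks g hg hi hk S hS h
  subst hT
  refine ⟨⟨hS, ?_⟩, ?_⟩
  · rintro (a | a)
    · rfl
    · rfl
  · by_cases hT0 : T = 0
    · left
      rw [hT0, Matrix.transpose_zero, Matrix.fromBlocks_zero]
    · right
      have hdet : T.det ≠ 0 := by
        intro hd
        obtain ⟨u, hu, hTu⟩ := Matrix.exists_mulVec_eq_zero_iff.2 hd
        obtain ⟨f, rfl⟩ := b2m_surj g hk u
        have hgf : ¬ g ∣ f := by
          intro hd
          apply hu
          have := b2m_v_dvd g hk hg f 0 (by rwa [sub_zero])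
          rw [this, b2m_v_zero]
        apply hT0
        ext a b
        obtain ⟨f', hf'⟩ := b2m_surj g hk (Pi.single b 1)
        obtain ⟨q, hq⟩ := b2m_inv g hi f hgf f'
        have h1 := b2m_v_dvd g hk hg _ _ hq
        rw [b2m_v_mul, hf'] at h1
        have h2 : T.mulVec (Pi.single b 1) = 0 := by
          rw [← h1, Matrix.mulVec_mulVec, b2m_adj _ _ hTC q, ← Matrix.mulVec_mulVec, hTu,
            Matrix.mulVec_zero]
        have h3 := congrFun h2 a
        rw [Matrix.mulVec_single_one] at h3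
        exact h3
      intro hd
      obtain ⟨u, hu, hSu⟩ := Matrix.exists_mulVec_eq_zero_iff.2 hd
      apply hu
      have hdet' : T.transpose.det ≠ 0 := by rwa [Matrix.det_transpose]
      have h1 : T.mulVec (u ∘ Sum.inr) = 0 := by
        have h2 := congrArg (fun w => w ∘ Sum.inl) hSu
        beta_reduce at h2
        rw [Matrix.fromBlocks_mulVec] at h2
        simpa using h2
      have h3 : T.transpose.mulVec (u ∘ Sum.inl) = 0 := by
        have h2 := congrArg (fun w => w ∘ Sum.inr) hSu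
        beta_reduce at h2
        rw [Matrix.fromBlocks_mulVec] at h2
        simpa using h2
      have h4 := Matrix.eq_zero_of_mulVec_eq_zero hdet h1
      have h5 := Matrix.eq_zero_of_mulVec_eq_zero hdet' h3
      funext x
      rcases x with x | x
      · exact congrFun h5 x
      · exact congrFun h4 x

end Pool.H64.IR
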