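import Pool.Agent.H64.IR.Defs

/-! MODULE B3M (project MP_a758cf_pr, IR; overview: team-store H64_a758cf.md)
Isotropic frames over F_2. Iso n k = number of n x k matrices V with independent columns and Vᵀ V = 0. Note v.v = 1.v (1 = all-ones vector).
lower: given independent isotropic v_1..v_j (j < k, 2k <= n) the number of v with v.v_i = 0, 1.v = 0, v not in the span is 2^(n-j-1) - 2^j if 1 is not in the span and 2^(n-j) - 2^j otherwise.
prod_{j<k}(1 - 2^(2j+1-n)) >= 1 - sum 2^(2j+1-n) >= 1 - 4^k/2^n.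
upper: V with 1 not in W = col V: at most prod 2^(n-j-1) = 2^(nk)/2^(k(k+1)/2). V with 1 in W: there is u /= 0 with V u = 1; for each u (2^k choices) change basis so that the first column is 1; the others:
at most 2^(n-j), j = 1..k-1 (orthogonal to the j previous ones): total 2^k 2^(n(k-1)) / 2^(k(k-1)/2) = (4^k/2^n) 2^(nk)/2^(k(k+1)/2).
b3_nd: if S (m x m) is symmetric, zero diagonal, det S /= 0 then #{V full rank, VᵀV = S} <= 2^(nm)/2^(m(m+1)/2): 1 is never in the span of v_1..v_j for j < m (an element u of W with u.w = 1.w = w.w = 0 for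
all w in W, as the form on W is alternating, is in the radical = 0; so 1 not in W), so v_{j+1} satisfies j+1 independent linear conditions.
b3_iso_zero: if 4k > n... more precisely an isotropic subspace has dimension <= n/2: if n < 2 m there is no full rank V (n x m) with VᵀV = 0.
-/

set_option autoImplicit false

namespace Pool.H64.IR

open Finset Polynomial

noncomputable def Iso (n k : ℕ) : ℝ := ∑ V : Matrix (Fin n) (Fin k) (ZMod 2), ind (FullRank V ∧ V.transpose * V = 0)

theorem b3_sum_ind {α : Type} [Fintype α] (P : α → Prop) [DecidablePred P] :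
    ∑ a, ind (P a) = ((univ.filter P).card : ℝ) := by
  unfold ind
  rw [Finset.card_eq_sum_ones, Finset.sum_filter]
  push_cast
  refine Finset.sum_congr rfl fun a _ => ?_
  congr

theorem b3_fiber {n : ℕ} {ι : Type} [Fintype ι] (w : ι → Fin n → ZMod 2) (s t : ι → ZMod 2)
    (hs : ∃ x, ∀ i, w i ⬝ᵥ x = s i) (ht : ∃ x, ∀ i, w i ⬝ᵥ x = t i) :
    (∑ x : Fin n → ZMod 2, ind (∀ i, w i ⬝ᵥ x = s i)) = ∑ x : Fin n → ZMod 2, ind (∀ i, w i ⬝ᵥ x = t i) := by
  classical
  obtain ⟨x0, hx0⟩ := hs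
  obtain ⟨y0, hy0⟩ := ht
  refine Fintype.sum_equiv (Equiv.addRight (y0 - x0)) _ _ fun x => ind_congr (forall_congr' fun i => ?_)
  rw [Equiv.coe_addRight, dotProduct_add, dotProduct_sub, hx0, hy0]
  constructor
  · intro h; rw [h]; ring
  · intro h; linear_combination h

theorem b3_total {n : ℕ} {ι : Type} [Fintype ι] [DecidableEq ι] (w : ι → Fin n → ZMod 2) :
    ∑ s : ι → ZMod 2, (∑ x : Fin n → ZMod 2, ind (∀ i, w i ⬝ᵥ x = s i)) = (2 : ℝ) ^ n := by
  classical
  rw [Finset.sum_comm]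
  have h1 : ∀ x : Fin n → ZMod 2, ∑ s : ι → ZMod 2, ind (∀ i, w i ⬝ᵥ x = s i) = 1 := by
    intro x
    rw [Finset.sum_eq_single (fun i => w i ⬝ᵥ x)]
    · exact ind_true fun i => rfl
    · intro s _ hs
      refine ind_false fun h => hs ?_
      ext i
      exact (h i).symm
    · intro h
      exact absurd (Finset.mem_univ _) h
  simp_rw [h1]
  simp

theorem b3_count {n : ℕ} {ι : Type} [Fintype ι] (w : ι → Fin n → ZMod 2) (hw : LinearIndependent (ZMod 2) w)
    (s : ι → ZMod 2) :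
    (∑ x : Fin n → ZMod 2, ind (∀ i, w i ⬝ᵥ x = s i)) = (2 : ℝ) ^ n / 2 ^ (Fintype.card ι) := by
  classical
  have hsurj : Function.Surjective (Matrix.mulVecLin (Matrix.of w)) := by
    rw [← LinearMap.range_eq_top]
    apply Submodule.eq_top_of_finrank_eq
    have h1 : (Matrix.of w).rank = Fintype.card ι := LinearIndependent.rank_matrix hw
    rw [Matrix.rank] at h1
    rw [h1]
    simp
  have hex : ∀ t : ι → ZMod 2, ∃ x, ∀ i, w i ⬝ᵥ x = t i := by
    intro t
    obtain ⟨x, hx⟩ := hsurj t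
    exact ⟨x, fun i => congrFun hx i⟩
  have h2 := b3_total w
  have h3 : ∀ t : ι → ZMod 2, (∑ x : Fin n → ZMod 2, ind (∀ i, w i ⬝ᵥ x = t i)) =
      ∑ x : Fin n → ZMod 2, ind (∀ i, w i ⬝ᵥ x = s i) := fun t => b3_fiber w t s (hex t) (hex s)
  simp_rw [h3] at h2
  rw [Finset.sum_const, Finset.card_univ, Fintype.card_fun, ZMod.card, nsmul_eq_mul] at h2
  rw [eq_div_iff (by positivity), mul_comm]
  push_cast at h2
  exact h2

theorem b3_count_ge {n : ℕ} {ι : Type} [Fintype ι] (w : ι → Fin n → ZMod 2) :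
    (2 : ℝ) ^ n / 2 ^ (Fintype.card ι) ≤ ∑ x : Fin n → ZMod 2, ind (∀ i, w i ⬝ᵥ x = 0) := by
  classical
  have h2 := b3_total w
  have h3 : ∀ t : ι → ZMod 2, (∑ x : Fin n → ZMod 2, ind (∀ i, w i ⬝ᵥ x = t i)) ≤
      ∑ x : Fin n → ZMod 2, ind (∀ i, w i ⬝ᵥ x = 0) := by
    intro t
    by_cases h : ∃ x, ∀ i, w i ⬝ᵥ x = t i
    · exact (b3_fiber w t (fun _ => 0) h ⟨0, fun i => by simp⟩).le
    · push Not at h
      have h4 : ∀ x : Fin n → ZMod 2, ind (∀ i, w i ⬝ᵥ x = t i) = 0 := by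
        intro x
        refine ind_false fun h' => ?_
        obtain ⟨i, hi⟩ := h x
        exact hi (h' i)
      simp_rw [h4]
      rw [Finset.sum_const_zero]
      exact Finset.sum_nonneg fun x _ => ind_nonneg _
  have h5 := Finset.sum_le_sum fun (t : ι → ZMod 2) (_ : t ∈ univ) => h3 t
  rw [h2, Finset.sum_const, Finset.card_univ, Fintype.card_fun, ZMod.card, nsmul_eq_mul] at h5
  rw [div_le_iff₀ (by positivity), mul_comm]
  push_cast at h5
  exact h5

/-- number of vectors in a translate of the span of `k` vectors -/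
theorem b3_span_le {n k : ℕ} (v : Fin k → Fin n → ZMod 2) (u : Fin n → ZMod 2) :
    ∑ x : Fin n → ZMod 2, ind (x - u ∈ Submodule.span (ZMod 2) (Set.range v)) ≤ (2 : ℝ) ^ k := by
  classical
  rw [b3_sum_ind]
  have h1 : univ.filter (fun x : Fin n → ZMod 2 => x - u ∈ Submodule.span (ZMod 2) (Set.range v)) ⊆
      (univ : Finset (Fin k → ZMod 2)).image (fun c => ∑ i, c i • v i + u) := by
    intro x hx
    have h2 := (Finset.mem_filter.1 hx).2
    rw [Submodule.mem_span_range_iff_exists_fun] at h2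
    obtain ⟨c, hc⟩ := h2
    refine Finset.mem_image.2 ⟨c, Finset.mem_univ _, ?_⟩
    rw [hc]
    simp
  have h2 := (Finset.card_le_card h1).trans Finset.card_image_le
  rw [Finset.card_univ, Fintype.card_fun, ZMod.card, Fintype.card_fin] at h2
  exact_mod_cast h2

theorem b3_sum_cons {n k : ℕ} (f : (Fin (k + 1) → Fin n → ZMod 2) → ℝ) :
    ∑ v : Fin (k + 1) → Fin n → ZMod 2, f v =
      ∑ v : Fin k → Fin n → ZMod 2, ∑ x : Fin n → ZMod 2, f (Fin.cons x v) := by
  classical
  rw [← Fintype.sum_prod_type']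
  exact (Fintype.sum_equiv ((Equiv.prodComm _ _).trans (Fin.consEquiv (fun _ : Fin (k + 1) => Fin n → ZMod 2)))
    _ _ fun x => rfl).symm

theorem b3_self {n : ℕ} (x : Fin n → ZMod 2) : x ⬝ᵥ x = (1 : Fin n → ZMod 2) ⬝ᵥ x := by
  unfold dotProduct
  refine Finset.sum_congr rfl fun i _ => ?_
  have : ∀ a : ZMod 2, a * a = 1 * a := by decide
  exact this (x i)

/-- frames whose span does not contain the all-ones vector -/
noncomputable def b3_A (n k : ℕ) (S : Fin k → Fin k → ZMod 2) : ℝ :=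
  ∑ v : Fin k → Fin n → ZMod 2, ind (LinearIndependent (ZMod 2) v ∧
    (1 : Fin n → ZMod 2) ∉ Submodule.span (ZMod 2) (Set.range v) ∧ ∀ i j, v i ⬝ᵥ v j = S i j)

/-- isotropic frames whose span contains the all-ones vector -/
noncomputable def b3_B (n k : ℕ) : ℝ :=
  ∑ v : Fin k → Fin n → ZMod 2, ind (LinearIndependent (ZMod 2) v ∧
    (1 : Fin n → ZMod 2) ∈ Submodule.span (ZMod 2) (Set.range v) ∧ ∀ i j, v i ⬝ᵥ v j = 0)

theorem b3_tri (k : ℕ) : (k + 1) * (k + 1 + 1) / 2 = k * (k + 1) / 2 + (k + 1) := by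
  have : (k + 1) * (k + 1 + 1) = k * (k + 1) + (k + 1) * 2 := by ring
  rw [this, Nat.add_mul_div_right _ _ (by norm_num : 0 < 2)]

theorem b3_A_nonneg (n k : ℕ) (S : Fin k → Fin k → ZMod 2) : 0 ≤ b3_A n k S :=
  Finset.sum_nonneg fun _ _ => ind_nonneg _

theorem b3_A_le (n k : ℕ) (S : Fin k → Fin k → ZMod 2) :
    b3_A n k S ≤ ((2 : ℝ) ^ n) ^ k / (2 : ℝ) ^ (k * (k + 1) / 2) := by
  classical
  induction k with
  | zero =>
    unfold b3_A
    have : ∑ v : Fin 0 → Fin n → ZMod 2, ind (LinearIndependent (ZMod 2) v ∧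
        (1 : Fin n → ZMod 2) ∉ Submodule.span (ZMod 2) (Set.range v) ∧ ∀ i j, v i ⬝ᵥ v j = S i j) ≤
        ∑ v : Fin 0 → Fin n → ZMod 2, (1 : ℝ) := Finset.sum_le_sum fun v _ => ind_le_one _
    refine this.trans ?_
    simp
  | succ k ih =>
    unfold b3_A
    rw [b3_sum_cons]
    have h1 : ∀ v : Fin k → Fin n → ZMod 2,
        ∑ x : Fin n → ZMod 2, ind (LinearIndependent (ZMod 2) (Fin.cons x v : Fin (k + 1) → Fin n → ZMod 2) ∧
          (1 : Fin n → ZMod 2) ∉ Submodule.span (ZMod 2) (Set.range (Fin.cons x v : Fin (k + 1) → Fin n → ZMod 2)) ∧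
          ∀ i j, (Fin.cons x v : Fin (k + 1) → Fin n → ZMod 2) i ⬝ᵥ
            (Fin.cons x v : Fin (k + 1) → Fin n → ZMod 2) j = S i j) ≤
        ind (LinearIndependent (ZMod 2) v ∧ (1 : Fin n → ZMod 2) ∉ Submodule.span (ZMod 2) (Set.range v) ∧
          ∀ i j, v i ⬝ᵥ v j = S i.succ j.succ) * ((2 : ℝ) ^ n / 2 ^ (k + 1)) := by
      intro v
      by_cases hv : LinearIndependent (ZMod 2) v ∧ (1 : Fin n → ZMod 2) ∉ Submodule.span (ZMod 2) (Set.range v) ∧
          ∀ i j, v i ⬝ᵥ v j = S i.succ j.succ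
      · rw [ind_true hv, one_mul]
        have hli : LinearIndependent (ZMod 2) (Fin.cons 1 v : Fin (k + 1) → Fin n → ZMod 2) :=
          linearIndependent_finCons.2 ⟨hv.1, hv.2.1⟩
        have h2 := b3_count (Fin.cons 1 v : Fin (k + 1) → Fin n → ZMod 2) hli
          (Fin.cons (S 0 0) (fun i => S i.succ 0))
        rw [Fintype.card_fin] at h2
        rw [← h2]
        refine Finset.sum_le_sum fun x _ => ind_mono ?_
        rintro ⟨-, -, h⟩ i
        refine Fin.cases ?_ (fun i => ?_) i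
        · simp only [Fin.cons_zero]
          rw [← b3_self]
          simpa using h 0 0
        · simp only [Fin.cons_succ]
          simpa using h i.succ 0
      · rw [ind_false hv, zero_mul]
        refine (Finset.sum_eq_zero fun x _ => ind_false fun h => hv ⟨?_, ?_, ?_⟩).le
        · exact (linearIndependent_finCons.1 h.1).1
        · intro h'
          apply h.2.1
          rw [Fin.range_cons]
          exact Submodule.span_mono (Set.subset_insert _ _) h'
        · intro i j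
          simpa using h.2.2 i.succ j.succ
    have h2 := Finset.sum_le_sum fun (v : Fin k → Fin n → ZMod 2) (_ : v ∈ univ) => h1 v
    refine h2.trans ?_
    rw [← Finset.sum_mul]
    have h3 := ih (fun i j => S i.succ j.succ)
    unfold b3_A at h3
    refine (mul_le_mul_of_nonneg_right h3 (by positivity)).trans (le_of_eq ?_)
    rw [b3_tri, pow_succ ((2 : ℝ) ^ n), pow_add (2 : ℝ) (k * (k + 1) / 2)]
    field_simp

theorem b3_iso_eq (n k : ℕ) : Iso n k =
    ∑ v : Fin k → Fin n → ZMod 2, ind (LinearIndependent (ZMod 2) v ∧ ∀ i j, v i ⬝ᵥ v j = 0) := by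
  unfold Iso
  refine Fintype.sum_equiv (Matrix.transposeAddEquiv (Fin n) (Fin k) (ZMod 2)).toEquiv _ _ fun V => ind_congr ?_
  refine and_congr Iff.rfl ?_
  rw [← Matrix.ext_iff]
  exact Iff.rfl

theorem b3_iso_split (n k : ℕ) : Iso n k = b3_A n k 0 + b3_B n k := by
  rw [b3_iso_eq]
  unfold b3_A b3_B
  rw [← Finset.sum_add_distrib]
  refine Finset.sum_congr rfl fun v _ => ?_
  by_cases h : (1 : Fin n → ZMod 2) ∈ Submodule.span (ZMod 2) (Set.range v)
  · rw [ind_false (P := LinearIndependent (ZMod 2) v ∧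
      (1 : Fin n → ZMod 2) ∉ Submodule.span (ZMod 2) (Set.range v) ∧ ∀ i j, v i ⬝ᵥ v j = (0 : Fin k → Fin k → ZMod 2) i j)
      (fun h' => h'.2.1 h), zero_add]
    exact ind_congr ⟨fun h' => ⟨h'.1, h, h'.2⟩, fun h' => ⟨h'.1, h'.2.2⟩⟩
  · rw [ind_false (P := LinearIndependent (ZMod 2) v ∧
      (1 : Fin n → ZMod 2) ∈ Submodule.span (ZMod 2) (Set.range v) ∧ ∀ i j, v i ⬝ᵥ v j = 0)
      (fun h' => h h'.2.1), add_zero]
    exact ind_congr ⟨fun h' => ⟨h'.1, h, h'.2⟩, fun h' => ⟨h'.1, h'.2.2⟩⟩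

theorem b3_B_le (n k : ℕ) : b3_B n k ≤ (4 : ℝ) ^ k / (2 : ℝ) ^ n * (((2 : ℝ) ^ n) ^ k / (2 : ℝ) ^ (k * (k + 1) / 2)) := by
  classical
  induction k with
  | zero =>
    unfold b3_B
    rcases Nat.eq_zero_or_pos n with hn | hn
    · subst hn
      have : ∑ v : Fin 0 → Fin 0 → ZMod 2, ind (LinearIndependent (ZMod 2) v ∧
        (1 : Fin 0 → ZMod 2) ∈ Submodule.span (ZMod 2) (Set.range v) ∧ ∀ i j, v i ⬝ᵥ v j = 0) ≤
        ∑ v : Fin 0 → Fin 0 → ZMod 2, (1 : ℝ) := Finset.sum_le_sum fun v _ => ind_le_one _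
      refine this.trans ?_
      simp
    · have : ∑ v : Fin 0 → Fin n → ZMod 2, ind (LinearIndependent (ZMod 2) v ∧
        (1 : Fin n → ZMod 2) ∈ Submodule.span (ZMod 2) (Set.range v) ∧ ∀ i j, v i ⬝ᵥ v j = 0) = 0 := by
        refine Finset.sum_eq_zero fun v _ => ind_false ?_
        rintro ⟨-, h, -⟩
        rw [Set.range_eq_empty, Submodule.span_empty, Submodule.mem_bot] at h
        have := congrFun h ⟨0, hn⟩
        simp at this
      rw [this]
      positivity
  | succ k ih =>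
    unfold b3_B
    rw [b3_sum_cons]
    have h1 : ∀ v : Fin k → Fin n → ZMod 2,
        ∑ x : Fin n → ZMod 2, ind (LinearIndependent (ZMod 2) (Fin.cons x v : Fin (k + 1) → Fin n → ZMod 2) ∧
          (1 : Fin n → ZMod 2) ∈ Submodule.span (ZMod 2) (Set.range (Fin.cons x v : Fin (k + 1) → Fin n → ZMod 2)) ∧
          ∀ i j, (Fin.cons x v : Fin (k + 1) → Fin n → ZMod 2) i ⬝ᵥ
            (Fin.cons x v : Fin (k + 1) → Fin n → ZMod 2) j = 0) ≤
        ind (LinearIndependent (ZMod 2) v ∧ (1 : Fin n → ZMod 2) ∈ Submodule.span (ZMod 2) (Set.range v) ∧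
          ∀ i j, v i ⬝ᵥ v j = 0) * ((2 : ℝ) ^ n / 2 ^ k) +
        ind (LinearIndependent (ZMod 2) v ∧ (1 : Fin n → ZMod 2) ∉ Submodule.span (ZMod 2) (Set.range v) ∧
          ∀ i j, v i ⬝ᵥ v j = (0 : Fin k → Fin k → ZMod 2) i j) * (2 : ℝ) ^ k := by
      intro v
      have hp1 : (0 : ℝ) ≤ (2 : ℝ) ^ n / 2 ^ k := by positivity
      have hp2 : (0 : ℝ) ≤ (2 : ℝ) ^ k := by positivity
      by_cases hv : LinearIndependent (ZMod 2) v ∧ ∀ i j, v i ⬝ᵥ v j = 0
      swap
      · refine le_trans (Finset.sum_eq_zero fun x _ => ind_false fun h => hv ⟨?_, ?_⟩).le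
          (add_nonneg (mul_nonneg (ind_nonneg _) hp1) (mul_nonneg (ind_nonneg _) hp2))
        · exact (linearIndependent_finCons.1 h.1).1
        · intro i j
          simpa using h.2.2 i.succ j.succ
      by_cases h1v : (1 : Fin n → ZMod 2) ∈ Submodule.span (ZMod 2) (Set.range v)
      · have h2 := b3_count v hv.1 0
        rw [Fintype.card_fin] at h2
        rw [ind_true (P := LinearIndependent (ZMod 2) v ∧ (1 : Fin n → ZMod 2) ∈ Submodule.span (ZMod 2) (Set.range v) ∧
          ∀ i j, v i ⬝ᵥ v j = 0) ⟨hv.1, h1v, hv.2⟩, one_mul, ← h2]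
        refine le_trans (Finset.sum_le_sum fun x _ => ind_mono ?_)
          (le_add_of_nonneg_right (mul_nonneg (ind_nonneg _) hp2))
        rintro ⟨-, -, h⟩ i
        simpa using h i.succ 0
      · have h2 := b3_span_le v (1 : Fin n → ZMod 2)
        rw [ind_true (P := LinearIndependent (ZMod 2) v ∧ (1 : Fin n → ZMod 2) ∉ Submodule.span (ZMod 2) (Set.range v) ∧
          ∀ i j, v i ⬝ᵥ v j = (0 : Fin k → Fin k → ZMod 2) i j) ⟨hv.1, h1v, hv.2⟩, one_mul]
        refine le_trans (Finset.sum_le_sum fun x _ => ind_mono ?_)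
          (h2.trans (le_add_of_nonneg_left (mul_nonneg (ind_nonneg _) hp1)))
        rintro ⟨-, h, -⟩
        rw [Fin.range_cons, Submodule.mem_span_insert] at h
        obtain ⟨a, z, hz, h⟩ := h
        have hz2 : ∀ a : ZMod 2, a = 0 ∨ a = 1 := by decide
        have ha := hz2 a
        rcases ha with ha | ha
        · exfalso
          apply h1v
          rw [h, ha, zero_smul, zero_add]
          exact hz
        · rw [ha, one_smul] at h
          have h3 : x - 1 = - z := by rw [h]; ring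
          rw [h3]
          exact Submodule.neg_mem _ hz
    have h2 := Finset.sum_le_sum fun (v : Fin k → Fin n → ZMod 2) (_ : v ∈ univ) => h1 v
    refine h2.trans ?_
    rw [Finset.sum_add_distrib, ← Finset.sum_mul, ← Finset.sum_mul]
    have hA := b3_A_le n k 0
    unfold b3_A at hA
    unfold b3_B at ih
    have hp1 : (0 : ℝ) ≤ (2 : ℝ) ^ n / 2 ^ k := by positivity
    have hp2 : (0 : ℝ) ≤ (2 : ℝ) ^ k := by positivity
    refine (add_le_add (mul_le_mul_of_nonneg_right ih hp1) (mul_le_mul_of_nonneg_right hA hp2)).trans (le_of_eq ?_)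
    rw [b3_tri, pow_succ ((2 : ℝ) ^ n), pow_add (2 : ℝ) (k * (k + 1) / 2), pow_succ (4 : ℝ), pow_succ (2 : ℝ) k]
    have h4 : (4 : ℝ) ^ k = 2 ^ k * 2 ^ k := by
      rw [← mul_pow]; norm_num
    rw [h4]
    field_simp
    ring

theorem iso_lower (n k : ℕ) (hk : 2 * k ≤ n) :
    (1 - (4 : ℝ) ^ k / (2 : ℝ) ^ n) * (((2 : ℝ) ^ n) ^ k / (2 : ℝ) ^ (k * (k + 1) / 2)) ≤ Iso n k := by
  classical
  induction k with
  | zero =>
    rw [b3_iso_eq]
    have : ∑ v : Fin 0 → Fin n → ZMod 2, ind (LinearIndependent (ZMod 2) v ∧ ∀ i j, v i ⬝ᵥ v j = 0) = 1 := by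
      have h1 : ∀ v : Fin 0 → Fin n → ZMod 2, ind (LinearIndependent (ZMod 2) v ∧ ∀ i j, v i ⬝ᵥ v j = 0) = 1 := by
        intro v
        refine ind_true ⟨linearIndependent_empty_type, fun i => i.elim0⟩
      simp_rw [h1]
      simp
    rw [this]
    have h2 : (0 : ℝ) ≤ 1 / 2 ^ n := by positivity
    simp only [pow_zero, zero_mul, Nat.zero_div, div_one, mul_one]
    linarith
  | succ k ih =>
    have ih' := ih (by omega)
    rw [b3_iso_eq] at ih' ⊢
    rw [b3_sum_cons]
    have hkn : 2 * k + 1 ≤ n := by omega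
    have h1 : ∀ v : Fin k → Fin n → ZMod 2,
        ind (LinearIndependent (ZMod 2) v ∧ ∀ i j, v i ⬝ᵥ v j = 0) * ((2 : ℝ) ^ n / 2 ^ (k + 1) - 2 ^ k) ≤
        ∑ x : Fin n → ZMod 2, ind (LinearIndependent (ZMod 2) (Fin.cons x v : Fin (k + 1) → Fin n → ZMod 2) ∧
          ∀ i j, (Fin.cons x v : Fin (k + 1) → Fin n → ZMod 2) i ⬝ᵥ
            (Fin.cons x v : Fin (k + 1) → Fin n → ZMod 2) j = 0) := by
      intro v
      by_cases hv : LinearIndependent (ZMod 2) v ∧ ∀ i j, v i ⬝ᵥ v j = 0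
      · rw [ind_true hv, one_mul]
        have h2 := b3_count_ge (Fin.cons 1 v : Fin (k + 1) → Fin n → ZMod 2)
        rw [Fintype.card_fin] at h2
        have h3 := b3_span_le v (0 : Fin n → ZMod 2)
        have h4 : ∑ x : Fin n → ZMod 2, ind (∀ i, (Fin.cons 1 v : Fin (k + 1) → Fin n → ZMod 2) i ⬝ᵥ x = 0) ≤
          ∑ x : Fin n → ZMod 2, ind (LinearIndependent (ZMod 2) (Fin.cons x v : Fin (k + 1) → Fin n → ZMod 2) ∧
          ∀ i j, (Fin.cons x v : Fin (k + 1) → Fin n → ZMod 2) i ⬝ᵥ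
            (Fin.cons x v : Fin (k + 1) → Fin n → ZMod 2) j = 0) +
          ∑ x : Fin n → ZMod 2, ind (x - 0 ∈ Submodule.span (ZMod 2) (Set.range v)) := by
          rw [← Finset.sum_add_distrib]
          refine Finset.sum_le_sum fun x _ => (ind_mono ?_).trans (ind_or_le _ _)
          intro h
          by_cases hx : x ∈ Submodule.span (ZMod 2) (Set.range v)
          · right; simpa using hx
          · left
            refine ⟨linearIndependent_finCons.2 ⟨hv.1, hx⟩, ?_⟩
            have h0 : x ⬝ᵥ x = 0 := by rw [b3_self]; simpa using h 0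
            have hi : ∀ i, v i ⬝ᵥ x = 0 := fun i => by simpa using h i.succ
            intro i j
            refine Fin.cases ?_ (fun i => ?_) i
            · refine Fin.cases ?_ (fun j => ?_) j
              · simpa using h0
              · simp only [Fin.cons_zero, Fin.cons_succ]
                rw [dotProduct_comm]
                exact hi j
            · refine Fin.cases ?_ (fun j => ?_) j
              · simpa using hi i
              · simpa using hv.2 i j
        linarith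
      · rw [ind_false hv, zero_mul]
        exact Finset.sum_nonneg fun x _ => ind_nonneg _
    have h2 := Finset.sum_le_sum fun (v : Fin k → Fin n → ZMod 2) (_ : v ∈ univ) => h1 v
    refine le_trans ?_ h2
    rw [← Finset.sum_mul]
    have h3 : (2 : ℝ) ^ n / 2 ^ (k + 1) - 2 ^ k = (2 : ℝ) ^ n / 2 ^ (k + 1) * (1 - 2 * (4 : ℝ) ^ k / 2 ^ n) := by
      have h4 : (4 : ℝ) ^ k = 2 ^ k * 2 ^ k := by
        rw [← mul_pow]; norm_num
      rw [h4, pow_succ]
      field_simp
    have h5 : 2 * (4 : ℝ) ^ k / 2 ^ n ≤ 1 := by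
      rw [div_le_one (by positivity)]
      calc 2 * (4 : ℝ) ^ k = 2 ^ (2 * k + 1) := by
            rw [pow_succ, pow_mul]; norm_num; ring
        _ ≤ 2 ^ n := pow_le_pow_right₀ (by norm_num) hkn
    have h6 : (0 : ℝ) ≤ (2 : ℝ) ^ n / 2 ^ (k + 1) - 2 ^ k := by
      rw [h3]
      exact mul_nonneg (by positivity) (by linarith)
    refine le_trans ?_ (mul_le_mul_of_nonneg_right ih' h6)
    rw [h3, b3_tri, pow_succ ((2 : ℝ) ^ n), pow_add (2 : ℝ) (k * (k + 1) / 2)]
    set t : ℝ := (4 : ℝ) ^ k / 2 ^ n with ht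
    have ht0 : 0 ≤ t := by positivity
    have e1 : (4 : ℝ) ^ (k + 1) / 2 ^ n = 4 * t := by rw [ht, pow_succ]; ring
    have e2 : 2 * (4 : ℝ) ^ k / 2 ^ n = 2 * t := by rw [ht]; ring
    rw [e1, e2]
    set c : ℝ := ((2 : ℝ) ^ n) ^ k / 2 ^ (k * (k + 1) / 2) with hc
    have hc0 : 0 ≤ c := by positivity
    set d : ℝ := (2 : ℝ) ^ n / 2 ^ (k + 1) with hd
    have hd0 : 0 ≤ d := by positivity
    have e3 : ((2 : ℝ) ^ n) ^ k * 2 ^ n / (2 ^ (k * (k + 1) / 2) * 2 ^ (k + 1)) = c * d := by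
      rw [hc, hd, div_mul_div_comm]
    rw [e3]
    have e4 : (1 - 4 * t) ≤ (1 - t) * (1 - 2 * t) := by nlinarith [sq_nonneg t]
    calc (1 - 4 * t) * (c * d) ≤ ((1 - t) * (1 - 2 * t)) * (c * d) :=
          mul_le_mul_of_nonneg_right e4 (mul_nonneg hc0 hd0)
      _ = _ := by ring

theorem iso_upper (n k : ℕ) (hk : 2 * k ≤ n) :
    Iso n k ≤ (1 + (4 : ℝ) ^ k / (2 : ℝ) ^ n) * (((2 : ℝ) ^ n) ^ k / (2 : ℝ) ^ (k * (k + 1) / 2)) := by
  rw [b3_iso_split, add_mul, one_mul]
  exact add_le_add (b3_A_le n k 0) (b3_B_le n k)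

theorem b3_nd {n : ℕ} {κ : Type} [Fintype κ] [DecidableEq κ] (S : Matrix κ κ (ZMod 2)) (hS : S.IsSymm) (h0 : ∀ a, S a a = 0) (hd : S.det ≠ 0) :
    (∑ V : Matrix (Fin n) κ (ZMod 2), ind (FullRank V ∧ V.transpose * V = S)) ≤
      ((2 : ℝ) ^ n) ^ Fintype.card κ / (2 : ℝ) ^ (Fintype.card κ * (Fintype.card κ + 1) / 2) := by
  classical
  rcases Nat.eq_zero_or_pos n with hn | hn
  · subst hn
    rcases isEmpty_or_nonempty κ with hκ | ⟨⟨a⟩⟩
    · have h1 : (∑ V : Matrix (Fin 0) κ (ZMod 2), ind (FullRank V ∧ V.transpose * V = S)) ≤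
        ∑ V : Matrix (Fin 0) κ (ZMod 2), (1 : ℝ) := Finset.sum_le_sum fun V _ => ind_le_one _
      refine h1.trans ?_
      rw [Finset.sum_const, Finset.card_univ, Fintype.card_eq_zero (α := κ)]
      have : Fintype.card (Matrix (Fin 0) κ (ZMod 2)) = 1 := by
        rw [← Nat.card_eq_fintype_card]
        change Nat.card (Fin 0 → κ → ZMod 2) = 1
        simp
      rw [this]
      simp
    · refine le_trans (Finset.sum_eq_zero fun V _ => ind_false ?_).le (by positivity)
      rintro ⟨h, -⟩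
      have := h.ne_zero a
      apply this
      ext i
      exact i.elim0
  set e := Fintype.equivFin κ with he
  have hA := b3_A_le n (Fintype.card κ) (fun i j => S (e.symm i) (e.symm j))
  refine le_trans (b := ∑ v : Fin (Fintype.card κ) → Fin n → ZMod 2,
      ind (LinearIndependent (ZMod 2) v ∧ ∀ i j, v i ⬝ᵥ v j = S (e.symm i) (e.symm j))) (le_of_eq ?_) (le_trans ?_ hA)
  · refine Fintype.sum_equiv ((Matrix.transposeAddEquiv (Fin n) κ (ZMod 2)).toEquiv.trans
      (Equiv.arrowCongr e (Equiv.refl _))) _ _ fun V => ind_congr ?_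
    refine and_congr ?_ ?_
    · unfold FullRank
      exact (linearIndependent_equiv e.symm).symm
    · rw [← Matrix.ext_iff]
      constructor
      · intro h i j
        exact h (e.symm i) (e.symm j)
      · intro h i j
        have := h (e i) (e j)
        simp only [Equiv.symm_apply_apply] at this
        rw [← this]
        change _ = (fun l => V l (e.symm (e i))) ⬝ᵥ (fun l => V l (e.symm (e j)))
        simp only [Equiv.symm_apply_apply]
        rfl
  · unfold b3_A
    refine Finset.sum_le_sum fun v _ => ind_mono ?_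
    rintro ⟨h1, h2⟩
    refine ⟨h1, ?_, h2⟩
    intro hone
    rw [Submodule.mem_span_range_iff_exists_fun] at hone
    obtain ⟨c, hc⟩ := hone
    have h3 : ∀ a : κ, v (e a) ⬝ᵥ (1 : Fin n → ZMod 2) = 0 := by
      intro a
      rw [dotProduct_comm, ← b3_self, h2]
      simp [h0]
    have h4 : S.mulVec (fun a => c (e a)) = 0 := by
      ext a
      rw [Pi.zero_apply, ← h3 a, ← hc, dotProduct_sum]
      simp only [dotProduct_smul, h2, smul_eq_mul, Equiv.symm_apply_apply]
      rw [Matrix.mulVec, dotProduct]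
      refine Fintype.sum_equiv e _ _ fun b => ?_
      rw [Equiv.symm_apply_apply, mul_comm]
    have h5 := Matrix.eq_zero_of_mulVec_eq_zero hd h4
    have h6 : ∀ i, c i = 0 := by
      intro i
      have := congrFun h5 (e.symm i)
      simpa using this
    have h7 : (1 : Fin n → ZMod 2) = 0 := by
      rw [← hc]
      simp [h6]
    have := congrFun h7 ⟨0, hn⟩
    simp at this

theorem b3_iso_zero {n : ℕ} {κ : Type} [Fintype κ] [DecidableEq κ] (h : n < 2 * Fintype.card κ) (V : Matrix (Fin n) κ (ZMod 2))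
    (hV : FullRank V) : V.transpose * V ≠ 0 := by
  intro h0
  have h1 := Matrix.rank_add_rank_le_card_of_mul_eq_zero h0
  have h2 : V.transpose.rank = Fintype.card κ := LinearIndependent.rank_matrix (M := V.transpose) hV
  rw [Matrix.rank_transpose] at h1 h2
  rw [h2, Fintype.card_fin] at h1
  omega

end Pool.H64.IR
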