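import Pool.Agent.H64.IR.KER

/-! MODULE PRM1 (project MP_a758cf_pr, IR; overview: team-store H64_a758cf.md)
Primary decomposition: s a finite set of monic irreducible polynomials, f = prod s. The vectors with annihilator (f) are the sums of nonzero z_g in ker g(A), g in s
(unique decomposition, the ideals (g) are pairwise comaximal: f | h iff all g | h; z = sum z_g, h(A) z = 0 iff h(A) z_g = 0 for all g iff g | h for all g).
So X1 f A = prod_{g in s} (kerc g A - 1). (Induction on s: X1 (g f') A = X1 g A * X1 f' A for coprime g,f'; X1 g A = kerc g A - 1 for irreducible g.)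
-/

set_option autoImplicit false

namespace Pool.H64.IR

open Finset Polynomial

theorem prm1_card {n p : ℕ} [Fact p.Prime] (P : (Fin n → ZMod p) → Prop) :
    ∑ z : Fin n → ZMod p, ind (P z) = (Nat.card {z // P z} : ℝ) := by
  classical
  unfold ind
  rw [Finset.sum_boole, Nat.card_eq_fintype_card, Fintype.card_subtype]

theorem prm1_act {n p : ℕ} [Fact p.Prime] (A : Matrix (Fin n) (Fin n) (ZMod p))
    (a b : (ZMod p)[X]) (z : Fin n → ZMod p) :
    (aeval A (a * b)).mulVec z = (aeval A a).mulVec ((aeval A b).mulVec z) := by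
  rw [map_mul, Matrix.mulVec_mulVec]

theorem prm1_left {n p : ℕ} [Fact p.Prime] (A : Matrix (Fin n) (Fin n) (ZMod p))
    {f g a b : (ZMod p)[X]} (hg : g ≠ 0) (hab : a * f + b * g = 1) {z : Fin n → ZMod p}
    (hz : IsAnn A z (f * g)) : IsAnn A ((aeval A (b * g)).mulVec z) f := by
  intro h
  rw [← prm1_act, hz]
  have h1 : h * (b * g) = (h * b) * g := by ring
  rw [h1, mul_dvd_mul_iff_right hg]
  have h2 : IsCoprime f b := ⟨a, g, by rw [← hab]; ring⟩
  exact ⟨fun h3 => h2.dvd_of_dvd_mul_right h3, fun h3 => h3.mul_right b⟩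

theorem x1_mul {p : ℕ} [Fact p.Prime] {n : ℕ} (f g : (ZMod p)[X]) (hf : f.Monic) (hg : g.Monic) (h : IsCoprime f g)
    (A : Matrix (Fin n) (Fin n) (ZMod p)) : X1 (f * g) A = X1 f A * X1 g A := by
  have hfg := h
  obtain ⟨a, b, hab⟩ := h
  have hba : b * g + a * f = 1 := by rw [← hab]; ring
  unfold X1
  rw [prm1_card, prm1_card, prm1_card, ← Nat.cast_mul, ← Nat.card_prod]
  congr 1
  have hkill : ∀ {u : Fin n → ZMod p} {f : (ZMod p)[X]}, IsAnn A u f → ∀ c : (ZMod p)[X],
      (aeval A (c * f)).mulVec u = 0 := fun hu c => (hu _).2 (dvd_mul_left _ _)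
  have hone : ∀ z : Fin n → ZMod p, (aeval A (b * g)).mulVec z + (aeval A (a * f)).mulVec z = z := by
    intro z
    rw [← Matrix.add_mulVec, ← map_add, hba, map_one, Matrix.one_mulVec]
  refine Nat.card_congr
    { toFun := fun z => (⟨(aeval A (b * g)).mulVec z.1, prm1_left A hg.ne_zero hab z.2⟩,
        ⟨(aeval A (a * f)).mulVec z.1, prm1_left A hf.ne_zero hba (fun h => (z.2 h).trans (by rw [mul_comm f g]))⟩)
      invFun := fun q => ⟨q.1.1 + q.2.1, ?_⟩
      left_inv := ?_
      right_inv := ?_ }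
  · intro h
    rw [Matrix.mulVec_add]
    constructor
    · intro h1
      refine IsCoprime.mul_dvd hfg ?_ ?_
      · have h2 : (aeval A (g * h)).mulVec q.1.1 = 0 := by
          have h3 : (aeval A g).mulVec ((aeval A h).mulVec q.1.1 + (aeval A h).mulVec q.2.1) = 0 := by
            rw [h1, Matrix.mulVec_zero]
          rw [Matrix.mulVec_add, ← prm1_act, ← prm1_act] at h3
          have h4 : (aeval A (g * h)).mulVec q.2.1 = 0 := by
            rw [mul_comm]; exact hkill q.2.2 h
          rwa [h4, add_zero] at h3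
        exact hfg.dvd_of_dvd_mul_left ((q.1.2 _).1 h2)
      · have h2 : (aeval A (f * h)).mulVec q.2.1 = 0 := by
          have h3 : (aeval A f).mulVec ((aeval A h).mulVec q.1.1 + (aeval A h).mulVec q.2.1) = 0 := by
            rw [h1, Matrix.mulVec_zero]
          rw [Matrix.mulVec_add, ← prm1_act, ← prm1_act] at h3
          have h4 : (aeval A (f * h)).mulVec q.1.1 = 0 := by
            rw [mul_comm]; exact hkill q.1.2 h
          rwa [h4, zero_add] at h3
        exact hfg.symm.dvd_of_dvd_mul_left ((q.2.2 _).1 h2)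
    · intro h1
      rw [(q.1.2 h).2 (dvd_of_mul_right_dvd h1), (q.2.2 h).2 (dvd_of_mul_left_dvd h1), add_zero]
  · intro z
    exact Subtype.ext (hone z.1)
  · rintro ⟨u, v⟩
    have hu : (aeval A (a * f)).mulVec u.1 = 0 := hkill u.2 a
    have hv : (aeval A (b * g)).mulVec v.1 = 0 := hkill v.2 b
    have hu' := hone u.1
    rw [hu, add_zero] at hu'
    have hv' := hone v.1
    rw [hv, zero_add] at hv'
    refine Prod.ext (Subtype.ext ?_) (Subtype.ext ?_)
    · change (aeval A (b * g)).mulVec (u.1 + v.1) = u.1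
      rw [Matrix.mulVec_add, hv, add_zero, hu']
    · change (aeval A (a * f)).mulVec (u.1 + v.1) = v.1
      rw [Matrix.mulVec_add, hu, zero_add, hv']

theorem prm1_irr {p : ℕ} [Fact p.Prime] {n : ℕ} (g : (ZMod p)[X]) (hi : Irreducible g)
    (A : Matrix (Fin n) (Fin n) (ZMod p)) : X1 g A = kerc g A - 1 := by
  classical
  have h1 : ∀ z : Fin n → ZMod p, ind ((aeval A g).mulVec z = 0) =
      ind (IsAnn A z g) + (if z = 0 then (1 : ℝ) else 0) := by
    intro z
    by_cases hz : z = 0
    · have h2 : ¬ IsAnn A z g := by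
        intro h3
        have h4 := (h3 1).1 (by rw [hz, Matrix.mulVec_zero])
        exact hi.not_isUnit (isUnit_of_dvd_one h4)
      rw [ind_false h2, if_pos hz, ind_true (by rw [hz, Matrix.mulVec_zero]), zero_add]
    · rw [if_neg hz, add_zero]
      refine ind_congr ⟨fun h2 h => ⟨fun h3 => ?_, ?_⟩, fun h2 => (h2 g).2 dvd_rfl⟩
      · by_contra h4
        obtain ⟨a, b, hab⟩ := (hi.coprime_iff_not_dvd).2 h4
        apply hz
        have h5 : (aeval A (a * g + b * h)).mulVec z = z := by
          rw [hab, map_one, Matrix.one_mulVec]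
        rw [← h5, map_add, Matrix.add_mulVec, prm1_act, prm1_act, h2, h3, Matrix.mulVec_zero,
          Matrix.mulVec_zero, add_zero]
      · rintro ⟨c, rfl⟩
        rw [mul_comm, prm1_act, h2, Matrix.mulVec_zero]
  unfold X1 kerc
  rw [Finset.sum_congr rfl fun z _ => h1 z, Finset.sum_add_distrib]
  simp

theorem prm1_one {p : ℕ} [Fact p.Prime] {n : ℕ} (A : Matrix (Fin n) (Fin n) (ZMod p)) :
    X1 (1 : (ZMod p)[X]) A = 1 := by
  classical
  have h1 : ∀ z : Fin n → ZMod p, ind (IsAnn A z 1) = (if z = 0 then (1 : ℝ) else 0) := by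
    intro z
    by_cases hz : z = 0
    · rw [if_pos hz, ind_true]
      intro h
      rw [hz, Matrix.mulVec_zero]
      simp
    · rw [if_neg hz, ind_false]
      intro h
      apply hz
      have := (h 1).2 dvd_rfl
      rwa [map_one, Matrix.one_mulVec] at this
  unfold X1
  rw [Finset.sum_congr rfl fun z _ => h1 z]
  simp

theorem x1_prod {p : ℕ} [Fact p.Prime] {n : ℕ} (s : Finset (ZMod p)[X]) (hs : ∀ g ∈ s, g.Monic ∧ Irreducible g)
    (A : Matrix (Fin n) (Fin n) (ZMod p)) : X1 (∏ g ∈ s, g) A = ∏ g ∈ s, (kerc g A - 1) := by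
  classical
  induction s using Finset.induction_on with
  | empty => rw [Finset.prod_empty, Finset.prod_empty, prm1_one]
  | insert g s hgs ih =>
    have hg := hs g (Finset.mem_insert_self _ _)
    have hs' : ∀ f ∈ s, f.Monic ∧ Irreducible f := fun f hf => hs f (Finset.mem_insert_of_mem hf)
    rw [Finset.prod_insert hgs, Finset.prod_insert hgs, ← ih hs', ← prm1_irr g hg.2 A]
    refine x1_mul _ _ hg.1 (monic_prod_of_monic _ _ fun f hf => (hs' f hf).1) ?_ A
    refine IsCoprime.prod_right fun f hf => ?_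
    rw [hg.2.coprime_iff_not_dvd]
    intro hd
    have h1 : Associated g f := hg.2.associated_of_dvd (hs' f hf).2 hd
    have h2 := eq_of_monic_of_associated hg.1 (hs' f hf).1 h1
    exact hgs (h2 ▸ hf)

end Pool.H64.IR
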