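import Pool.Agent.H64.IR.CMP1
import Pool.Agent.H64.IR.PRM1

/-! MODULE CMP2 (project MP_a758cf_pr, IR; overview: team-store H64_a758cf.md)
Two blocks. s a finite set of monic irreducibles, g in s, f = prod s. Then XC (fromBlocks (comp f) 0 0 (comp g)) A = X1 f A * (kerc g A - q), q = p^(deg g).
Proof. V = [V1 V2] with V1 <-> z (as in CMP1), V2 <-> w, V full rank iff ann(z) = (f), ann(w) = (g) and the spans W_z = F[A]z, W_w = F[A] w meet in 0. Since
F[A] w is a simple F[X]-module (g irreducible), this says w in ker g(A), w not in W_z. For z with annihilator (f), W_z inf ker g(A) = F[A] (f/g)(A) z has q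
elements. So for each z the number of w is kerc g A - q.
-/

set_option autoImplicit false

namespace Pool.H64.IR

open Finset Polynomial

section cmp2
variable {p : ℕ} [Fact p.Prime] {n : ℕ}

/-- action of polynomials on vectors -/
noncomputable def cmp2_act (A : Matrix (Fin n) (Fin n) (ZMod p)) (h : (ZMod p)[X]) (z : Fin n → ZMod p) :
    Fin n → ZMod p := (Polynomial.aeval A h).mulVec z

lemma cmp2_act_mul (A : Matrix (Fin n) (Fin n) (ZMod p)) (h k : (ZMod p)[X]) (z : Fin n → ZMod p) :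
    cmp2_act A (h * k) z = cmp2_act A h (cmp2_act A k z) := by
  simp [cmp2_act, Matrix.mulVec_mulVec]

lemma cmp2_act_add (A : Matrix (Fin n) (Fin n) (ZMod p)) (h k : (ZMod p)[X]) (z : Fin n → ZMod p) :
    cmp2_act A (h + k) z = cmp2_act A h z + cmp2_act A k z := by
  simp [cmp2_act, Matrix.add_mulVec]

lemma cmp2_act_sub (A : Matrix (Fin n) (Fin n) (ZMod p)) (h k : (ZMod p)[X]) (z : Fin n → ZMod p) :
    cmp2_act A (h - k) z = cmp2_act A h z - cmp2_act A k z := by
  simp [cmp2_act, Matrix.sub_mulVec]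

lemma cmp2_act_one (A : Matrix (Fin n) (Fin n) (ZMod p)) (z : Fin n → ZMod p) :
    cmp2_act A 1 z = z := by
  simp [cmp2_act]

lemma cmp2_act_zero (A : Matrix (Fin n) (Fin n) (ZMod p)) (z : Fin n → ZMod p) :
    cmp2_act A 0 z = 0 := by
  simp [cmp2_act]

lemma cmp2_act_vzero (A : Matrix (Fin n) (Fin n) (ZMod p)) (h : (ZMod p)[X]) :
    cmp2_act A h (0 : Fin n → ZMod p) = 0 := by
  simp [cmp2_act]

/-- polynomial with given coefficients -/
noncomputable def cmp2_pol {k : ℕ} (c : Fin k → ZMod p) : (ZMod p)[X] := ∑ j : Fin k, C (c j) * X ^ (j : ℕ)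

lemma cmp2_pol_coeff {k : ℕ} (c : Fin k → ZMod p) (j : Fin k) : (cmp2_pol c).coeff j = c j := by
  unfold cmp2_pol
  rw [finsetSum_coeff]
  simp only [coeff_C_mul, coeff_X_pow]
  rw [Finset.sum_eq_single j]
  · simp
  · intro b _ hb
    rw [if_neg, mul_zero]
    intro h
    exact hb (Fin.ext h.symm)
  · intro h; exact absurd (Finset.mem_univ j) h

lemma cmp2_pol_degree {k : ℕ} (c : Fin k → ZMod p) : (cmp2_pol c).degree < k := by
  unfold cmp2_pol
  rw [← Polynomial.mem_degreeLT]
  refine Submodule.sum_mem _ fun j _ => ?_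
  rw [Polynomial.mem_degreeLT]
  exact lt_of_le_of_lt (degree_C_mul_X_pow_le _ _) (by exact_mod_cast j.2)

lemma cmp2_pol_exists {k : ℕ} (h : (ZMod p)[X]) (hd : h.degree < k) :
    ∃ c : Fin k → ZMod p, cmp2_pol c = h := by
  refine ⟨fun j => h.coeff j, ?_⟩
  ext m
  by_cases hm : m < k
  · exact cmp2_pol_coeff _ ⟨m, hm⟩
  · rw [coeff_eq_zero_of_degree_lt (lt_of_lt_of_le hd (by exact_mod_cast not_lt.1 hm)),
      coeff_eq_zero_of_degree_lt (lt_of_lt_of_le (cmp2_pol_degree _) (by exact_mod_cast not_lt.1 hm))]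

lemma cmp2_pol_zero {k : ℕ} (c : Fin k → ZMod p) (h : cmp2_pol c = 0) : c = 0 := by
  funext j
  rw [← cmp2_pol_coeff c j, h]
  simp

lemma cmp2_pol_inj {k : ℕ} (c d : Fin k → ZMod p) (h : cmp2_pol c = cmp2_pol d) : c = d := by
  funext j
  rw [← cmp2_pol_coeff c j, h, cmp2_pol_coeff]

lemma cmp2_act_pol {k : ℕ} (A : Matrix (Fin n) (Fin n) (ZMod p)) (c : Fin k → ZMod p) (z : Fin n → ZMod p) :
    cmp2_act A (cmp2_pol c) z = ∑ j : Fin k, c j • (A ^ (j : ℕ)).mulVec z := by
  unfold cmp2_act cmp2_pol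
  rw [map_sum, Matrix.sum_mulVec]
  refine Finset.sum_congr rfl fun j _ => ?_
  rw [map_mul, aeval_C, map_pow, aeval_X, Algebra.algebraMap_eq_smul_one, smul_mul_assoc, one_mul,
    Matrix.smul_mulVec]

/-- Krylov matrix -/
def cmp2_phi (A : Matrix (Fin n) (Fin n) (ZMod p)) (k : ℕ) (z : Fin n → ZMod p) : Matrix (Fin n) (Fin k) (ZMod p) :=
  Matrix.of fun i j => ((A ^ (j : ℕ)).mulVec z) i

lemma cmp2_comm (f : (ZMod p)[X]) (hf : f.Monic) (hk : 0 < f.natDegree)
    (A : Matrix (Fin n) (Fin n) (ZMod p)) (V : Matrix (Fin n) (Fin f.natDegree) (ZMod p)) :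
    A * V = V * comp f ↔ (V = cmp2_phi A f.natDegree (fun i => V i ⟨0, hk⟩) ∧
      cmp2_act A f (fun i => V i ⟨0, hk⟩) = 0) := by
  have hfs : f = cmp2_pol (fun j : Fin f.natDegree => f.coeff j) + X ^ f.natDegree := by
    ext m
    rw [coeff_add, coeff_X_pow]
    rcases lt_trichotomy m f.natDegree with h | h | h
    · rw [if_neg h.ne, add_zero]
      exact (cmp2_pol_coeff (fun j : Fin f.natDegree => f.coeff j) ⟨m, h⟩).symm
    · subst h
      rw [if_pos rfl, coeff_eq_zero_of_degree_lt (cmp2_pol_degree _), zero_add]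
      exact hf
    · rw [if_neg h.ne', add_zero, coeff_eq_zero_of_natDegree_lt h,
        coeff_eq_zero_of_degree_lt (lt_trans (cmp2_pol_degree _) (by exact_mod_cast h))]
  have hact : ∀ z : Fin n → ZMod p, cmp2_act A f z =
      (∑ j : Fin f.natDegree, f.coeff j • (A ^ (j : ℕ)).mulVec z) + (A ^ f.natDegree).mulVec z := by
    intro z
    conv_lhs => rw [hfs]
    rw [cmp2_act_add, cmp2_act_pol]
    congr 1
    simp [cmp2_act]
  have hlast : ∀ (W : Matrix (Fin n) (Fin f.natDegree) (ZMod p)) (i : Fin n) (j : Fin f.natDegree),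
      (j : ℕ) + 1 = f.natDegree → (W * comp f) i j = - ∑ m : Fin f.natDegree, f.coeff m * W i m := by
    intro W i j hj
    rw [Matrix.mul_apply, ← Finset.sum_neg_distrib]
    refine Finset.sum_congr rfl fun m _ => ?_
    simp only [comp, Matrix.of_apply]
    rw [if_pos hj]; ring
  have hmid : ∀ (W : Matrix (Fin n) (Fin f.natDegree) (ZMod p)) (i : Fin n) (j : Fin f.natDegree)
      (hj : (j : ℕ) + 1 < f.natDegree), (W * comp f) i j = W i ⟨j + 1, hj⟩ := by
    intro W i j hj
    rw [Matrix.mul_apply, Finset.sum_eq_single ⟨j + 1, hj⟩]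
    · simp only [comp, Matrix.of_apply]
      rw [if_neg hj.ne, if_pos trivial, mul_one]
    · intro b _ hb
      simp only [comp, Matrix.of_apply]
      rw [if_neg hj.ne, if_neg, mul_zero]
      intro h
      exact hb (Fin.ext h)
    · intro h; exact absurd (Finset.mem_univ _) h
  constructor
  · intro h
    have hcol : ∀ (m : ℕ) (hm : m < f.natDegree), (fun i => V i ⟨m, hm⟩) =
        (A ^ m).mulVec (fun i => V i ⟨0, hk⟩) := by
      intro m
      induction m with
      | zero => intro hm; simp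
      | succ m ih =>
        intro hm
        have hm' : m < f.natDegree := by omega
        rw [pow_succ', ← Matrix.mulVec_mulVec, ← ih hm']
        funext i
        have := congrFun (congrFun h i) ⟨m, hm'⟩
        rw [hmid V i ⟨m, hm'⟩ hm] at this
        rw [← this]
        rfl
    have hV : V = cmp2_phi A f.natDegree (fun i => V i ⟨0, hk⟩) := by
      ext i j
      exact congrFun (hcol j j.2) i
    refine ⟨hV, ?_⟩
    rw [hact]
    funext i
    have hj : f.natDegree - 1 < f.natDegree := by omega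
    have h1 := congrFun (congrFun h i) ⟨f.natDegree - 1, hj⟩
    rw [hlast V i _ (by simp; omega)] at h1
    have h2 : (A * V) i ⟨f.natDegree - 1, hj⟩ = ((A ^ f.natDegree).mulVec (fun i => V i ⟨0, hk⟩)) i := by
      have : A ^ f.natDegree = A * A ^ (f.natDegree - 1) := by
        rw [← pow_succ']; congr 1; omega
      rw [this, ← Matrix.mulVec_mulVec, ← hcol _ hj]
      rfl
    rw [h2] at h1
    simp only [Pi.add_apply, Finset.sum_apply, Pi.smul_apply, smul_eq_mul, Pi.zero_apply]
    rw [h1]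
    have h3 : ∀ m : Fin f.natDegree, ((A ^ (m : ℕ)).mulVec (fun i => V i ⟨0, hk⟩)) i = V i m := by
      intro m
      rw [← hcol m m.2]
    simp only [h3]
    ring
  · rintro ⟨hV, h0⟩
    have hcol : ∀ (m : ℕ) (hm : m < f.natDegree), (fun i => V i ⟨m, hm⟩) =
        (A ^ m).mulVec (fun i => V i ⟨0, hk⟩) := by
      intro m hm
      funext i
      exact congrFun (congrFun hV i) ⟨m, hm⟩
    have h2 : ∀ (i : Fin n) (j : Fin f.natDegree), (A * V) i j =
        ((A ^ ((j : ℕ) + 1)).mulVec (fun i => V i ⟨0, hk⟩)) i := by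
      intro i j
      rw [pow_succ', ← Matrix.mulVec_mulVec, ← hcol _ j.2]
      rfl
    ext i j
    rw [h2]
    by_cases hj : (j : ℕ) + 1 < f.natDegree
    · rw [hmid V i j hj, ← hcol _ hj]
    · have hj' : (j : ℕ) + 1 = f.natDegree := by have := j.2; omega
      rw [hlast V i j hj', hj']
      rw [hact] at h0
      have h4 := congrFun h0 i
      simp only [Pi.add_apply, Finset.sum_apply, Pi.smul_apply, smul_eq_mul, Pi.zero_apply] at h4
      have h3 : ∀ m : Fin f.natDegree, ((A ^ (m : ℕ)).mulVec (fun i => V i ⟨0, hk⟩)) i = V i m := by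
        intro m
        rw [← hcol m m.2]
      simp only [h3] at h4
      linear_combination h4

lemma cmp2_phi_zero (A : Matrix (Fin n) (Fin n) (ZMod p)) (k : ℕ) (hk : 0 < k) (z : Fin n → ZMod p) :
    (fun i => cmp2_phi A k z i ⟨0, hk⟩) = z := by
  funext i
  simp [cmp2_phi]

lemma cmp2_full (A : Matrix (Fin n) (Fin n) (ZMod p)) (k l : ℕ) (z w : Fin n → ZMod p) :
    FullRank (Matrix.fromCols (cmp2_phi A k z) (cmp2_phi A l w)) ↔
      ∀ (c : Fin k → ZMod p) (d : Fin l → ZMod p), cmp2_act A (cmp2_pol c) z + cmp2_act A (cmp2_pol d) w = 0 →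
        c = 0 ∧ d = 0 := by
  unfold FullRank
  rw [Fintype.linearIndependent_iff]
  have key : ∀ e : Fin k ⊕ Fin l → ZMod p, (∑ a, e a • (fun i : Fin n =>
      Matrix.fromCols (cmp2_phi A k z) (cmp2_phi A l w) i a)) =
      cmp2_act A (cmp2_pol (fun j => e (Sum.inl j))) z + cmp2_act A (cmp2_pol (fun j => e (Sum.inr j))) w := by
    intro e
    rw [Fintype.sum_sum_type, cmp2_act_pol, cmp2_act_pol]
    rfl
  constructor
  · intro h c d hcd
    have := h (Sum.elim c d) (by rw [key]; exact hcd)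
    exact ⟨funext fun j => this (Sum.inl j), funext fun j => this (Sum.inr j)⟩
  · intro h e he
    rw [key] at he
    obtain ⟨h1, h2⟩ := h _ _ he
    rintro (j | j)
    · exact congrFun h1 j
    · exact congrFun h2 j

/-- the cyclic subspace -/
def cmp2_W (A : Matrix (Fin n) (Fin n) (ZMod p)) (z w : Fin n → ZMod p) : Prop :=
  ∃ h : (ZMod p)[X], cmp2_act A h z = w

lemma cmp2_full_iff (A : Matrix (Fin n) (Fin n) (ZMod p)) (f g : (ZMod p)[X]) (hf : f.Monic) (hg : g.Monic)
    (hgi : Irreducible g) (hl : 0 < g.natDegree) (z w : Fin n → ZMod p)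
    (hz : cmp2_act A f z = 0) (hw : cmp2_act A g w = 0) :
    FullRank (Matrix.fromCols (cmp2_phi A f.natDegree z) (cmp2_phi A g.natDegree w)) ↔
      (IsAnn A z f ∧ ¬ cmp2_W A z w) := by
  rw [cmp2_full]
  have hmod : ∀ h : (ZMod p)[X], cmp2_act A h z = cmp2_act A (h %ₘ f) z := by
    intro h
    conv_lhs => rw [← modByMonic_add_div h f]
    rw [cmp2_act_add, mul_comm f, cmp2_act_mul, hz, cmp2_act_vzero, add_zero]
  have hdeg : ∀ h : (ZMod p)[X], (h %ₘ f).degree < (f.natDegree : ℕ) := by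
    intro h
    rw [← degree_eq_natDegree hf.ne_zero]
    exact degree_modByMonic_lt h hf
  constructor
  · intro H
    constructor
    · intro h
      constructor
      · intro h0
        change cmp2_act A h z = 0 at h0
        rw [hmod] at h0
        obtain ⟨c, hc⟩ := cmp2_pol_exists (k := f.natDegree) (h %ₘ f) (hdeg h)
        have := (H c 0 (by
          have hz0 : cmp2_pol (0 : Fin g.natDegree → ZMod p) = 0 := by simp [cmp2_pol]
          rw [hc, h0, hz0, cmp2_act_zero, add_zero])).1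
        rw [this] at hc
        have hz0 : cmp2_pol (0 : Fin f.natDegree → ZMod p) = 0 := by simp [cmp2_pol]
        rw [hz0] at hc
        exact (modByMonic_eq_zero_iff_dvd hf).1 hc.symm
      · rintro ⟨u, rfl⟩
        change cmp2_act A (f * u) z = 0
        rw [mul_comm, cmp2_act_mul, hz, cmp2_act_vzero]
    · rintro ⟨h, hh⟩
      rw [hmod] at hh
      obtain ⟨c, hc⟩ := cmp2_pol_exists (k := f.natDegree) (h %ₘ f) (hdeg h)
      obtain ⟨d, hd⟩ := cmp2_pol_exists (k := g.natDegree) (-1 : (ZMod p)[X]) (by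
        rw [degree_neg, degree_one]; exact_mod_cast hl)
      have := (H c d (by
        rw [hc, hd, hh, ← zero_sub (1 : (ZMod p)[X]), cmp2_act_sub, cmp2_act_zero, cmp2_act_one]; simp)).2
      rw [this] at hd
      have hz0 : cmp2_pol (0 : Fin g.natDegree → ZMod p) = 0 := by simp [cmp2_pol]
      rw [hz0] at hd
      exact one_ne_zero (neg_eq_zero.1 hd.symm)
  · rintro ⟨hann, hW⟩ c d hcd
    have hd : cmp2_pol d = 0 := by
      by_contra hne
      have hnd : ¬ g ∣ cmp2_pol d := by
        intro hdiv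
        have h1 := degree_le_of_dvd hdiv hne
        have h2 := cmp2_pol_degree d
        rw [degree_eq_natDegree hg.ne_zero] at h1
        exact absurd h2 (not_lt.2 h1)
      have hcop : IsCoprime g (cmp2_pol d) := (hgi.coprime_iff_not_dvd).2 hnd
      obtain ⟨u, v, huv⟩ := hcop
      apply hW
      refine ⟨-(v * cmp2_pol c), ?_⟩
      have h3 : cmp2_act A (u * g + v * cmp2_pol d) w = w := by rw [huv, cmp2_act_one]
      rw [cmp2_act_add, cmp2_act_mul, hw, cmp2_act_vzero, zero_add, cmp2_act_mul] at h3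
      have h4 : cmp2_act A (cmp2_pol d) w = - cmp2_act A (cmp2_pol c) z := by
        rw [add_comm] at hcd
        exact eq_neg_of_add_eq_zero_left hcd
      rw [← h3, h4, ← zero_sub (v * cmp2_pol c), cmp2_act_sub, cmp2_act_zero, cmp2_act_mul,
        ← zero_sub (cmp2_act A (cmp2_pol c) z)]
      simp only [cmp2_act, zero_sub, Matrix.mulVec_neg]
    rw [hd, cmp2_act_zero, add_zero] at hcd
    refine ⟨?_, cmp2_pol_zero d hd⟩
    have h5 : f ∣ cmp2_pol c := (hann _).1 hcd
    apply cmp2_pol_zero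
    by_contra hne
    have h1 := degree_le_of_dvd h5 hne
    have h2 := cmp2_pol_degree c
    rw [degree_eq_natDegree hf.ne_zero] at h1
    exact absurd h2 (not_lt.2 h1)

lemma cmp2_ann_zero {A : Matrix (Fin n) (Fin n) (ZMod p)} {f : (ZMod p)[X]} {z : Fin n → ZMod p}
    (h : IsAnn A z f) : cmp2_act A f z = 0 := (h f).2 dvd_rfl

lemma cmp2_sum_card {α : Type} [Fintype α] (P : α → Prop) [DecidablePred P] :
    ∑ a, ind (P a) = ((Finset.univ.filter P).card : ℝ) := by
  rw [Finset.card_filter]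
  push_cast
  refine Finset.sum_congr rfl fun a _ => ?_
  unfold ind
  by_cases h : P a <;> simp [h]

/-- the intersection with ker g has q elements -/
lemma cmp2_count (A : Matrix (Fin n) (Fin n) (ZMod p)) (f g f' : (ZMod p)[X]) (hg : g.Monic)
    (hfg : f = g * f') (hf : f.Monic) (z : Fin n → ZMod p) (hz : IsAnn A z f) :
    ∑ w : Fin n → ZMod p, ind (cmp2_act A g w = 0 ∧ cmp2_W A z w) = (p : ℝ) ^ g.natDegree := by
  classical
  rw [cmp2_sum_card]
  have hf0 : f' ≠ 0 := by
    rintro rfl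
    rw [mul_zero] at hfg
    exact hf.ne_zero hfg
  have hcard : (Finset.univ.filter (fun w : Fin n → ZMod p => cmp2_act A g w = 0 ∧ cmp2_W A z w)).card =
      (Finset.univ : Finset (Fin g.natDegree → ZMod p)).card := by
    symm
    apply Finset.card_bij (fun c _ => cmp2_act A (f' * cmp2_pol c) z)
    · intro c _
      rw [Finset.mem_filter]
      refine ⟨Finset.mem_univ _, ?_, ⟨_, rfl⟩⟩
      rw [← cmp2_act_mul, ← mul_assoc, ← hfg, mul_comm, cmp2_act_mul, cmp2_ann_zero hz, cmp2_act_vzero]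
    · intro c _ d _ hcd
      have h1 : cmp2_act A (f' * cmp2_pol c - f' * cmp2_pol d) z = 0 := by
        rw [cmp2_act_sub, hcd, sub_self]
      have h2 := (hz _).1 h1
      rw [← mul_sub, hfg, mul_comm g] at h2
      have h3 : g ∣ cmp2_pol c - cmp2_pol d := (mul_dvd_mul_iff_left hf0).1 h2
      apply cmp2_pol_inj
      by_contra hne
      have hne' := sub_ne_zero.2 hne
      have h4 := degree_le_of_dvd h3 hne'
      have h5 : (cmp2_pol c - cmp2_pol d).degree < (g.natDegree : ℕ) :=
        lt_of_le_of_lt (degree_sub_le _ _) (max_lt (cmp2_pol_degree c) (cmp2_pol_degree d))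
      rw [degree_eq_natDegree hg.ne_zero] at h4
      exact absurd h5 (not_lt.2 h4)
    · intro w hw
      rw [Finset.mem_filter] at hw
      obtain ⟨_, hw0, h, rfl⟩ := hw
      rw [← cmp2_act_mul] at hw0
      have h1 := (hz _).1 hw0
      rw [hfg] at h1
      obtain ⟨h'', rfl⟩ := (mul_dvd_mul_iff_left hg.ne_zero).1 h1
      obtain ⟨c, hc⟩ := cmp2_pol_exists (k := g.natDegree) (h'' %ₘ g) (by
        rw [← degree_eq_natDegree hg.ne_zero]
        exact degree_modByMonic_lt _ hg)
      refine ⟨c, Finset.mem_univ _, ?_⟩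
      rw [hc]
      conv_rhs => rw [← modByMonic_add_div h'' g]
      rw [mul_add, cmp2_act_add, ← mul_assoc f' g, mul_comm f' g, ← hfg, mul_comm f, cmp2_act_mul A _ f,
        cmp2_ann_zero hz, cmp2_act_vzero, add_zero]
  rw [hcard, Finset.card_univ, Fintype.card_fun, ZMod.card, Fintype.card_fin]
  push_cast
  rfl

lemma cmp2_main (A : Matrix (Fin n) (Fin n) (ZMod p)) (f g f' : (ZMod p)[X]) (hf : f.Monic) (hg : g.Monic)
    (hgi : Irreducible g) (hfg : f = g * f') :
    XC (Matrix.fromBlocks (comp f) 0 0 (comp g)) A = X1 f A * (kerc g A - (p : ℝ) ^ g.natDegree) := by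
  classical
  have hl : 0 < g.natDegree := hgi.natDegree_pos
  have hk : 0 < f.natDegree := by
    have hf0 : f' ≠ 0 := by
      rintro rfl
      rw [mul_zero] at hfg
      exact hf.ne_zero hfg
    rw [hfg, natDegree_mul hg.ne_zero hf0]
    omega
  -- the right side as a double sum
  have hR : X1 f A * (kerc g A - (p : ℝ) ^ g.natDegree) =
      ∑ x : (Fin n → ZMod p) × (Fin n → ZMod p),
        ind (IsAnn A x.1 f ∧ (cmp2_act A g x.2 = 0 ∧ ¬ cmp2_W A x.1 x.2)) := by
    unfold X1
    rw [Fintype.sum_prod_type, Finset.sum_mul]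
    refine Finset.sum_congr rfl fun z _ => ?_
    by_cases hz : IsAnn A z f
    · rw [ind_true hz, one_mul, ← cmp2_count A f g f' hg hfg hf z hz]
      unfold kerc
      rw [← Finset.sum_sub_distrib]
      refine Finset.sum_congr rfl fun w _ => ?_
      have e0 : ((Polynomial.aeval A g).mulVec w = 0) = (cmp2_act A g w = 0) := rfl
      simp only [e0]
      by_cases h1 : cmp2_act A g w = 0 <;> by_cases h2 : cmp2_W A z w <;> simp [ind, hz, h1, h2]
    · rw [ind_false hz, zero_mul]
      symm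
      refine Finset.sum_eq_zero fun w _ => ind_false ?_
      rintro ⟨h, _⟩
      exact hz h
  rw [hR]
  unfold XC
  rw [cmp2_sum_card, cmp2_sum_card]
  norm_cast
  symm
  apply Finset.card_bij (fun x _ => Matrix.fromCols (cmp2_phi A f.natDegree x.1) (cmp2_phi A g.natDegree x.2))
  · rintro ⟨z, w⟩ h
    rw [Finset.mem_filter] at h ⊢
    obtain ⟨_, h1, h2, h3⟩ := h
    refine ⟨Finset.mem_univ _, ?_, ?_⟩
    · exact (cmp2_full_iff A f g hf hg hgi hl z w (cmp2_ann_zero h1) h2).2 ⟨h1, h3⟩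
    · rw [Matrix.mul_fromCols, Matrix.fromCols_mul_fromBlocks, Matrix.mul_zero, Matrix.mul_zero, add_zero,
        zero_add]
      congr 1
      · rw [cmp2_comm f hf hk]
        rw [cmp2_phi_zero]
        exact ⟨rfl, cmp2_ann_zero h1⟩
      · rw [cmp2_comm g hg hl]
        rw [cmp2_phi_zero]
        exact ⟨rfl, h2⟩
  · rintro ⟨z, w⟩ _ ⟨z', w'⟩ _ he
    simp only [Matrix.fromCols_ext_iff] at he
    obtain ⟨h1, h2⟩ := he
    have e1 := cmp2_phi_zero A f.natDegree hk z
    have e2 := cmp2_phi_zero A g.natDegree hl w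
    rw [h1, cmp2_phi_zero] at e1
    rw [h2, cmp2_phi_zero] at e2
    rw [e1, e2]
  · intro V hV
    rw [Finset.mem_filter] at hV
    obtain ⟨_, hfull, hcomm⟩ := hV
    obtain ⟨V1, V2, rfl⟩ : ∃ V1 V2, V = Matrix.fromCols V1 V2 :=
      ⟨V.toCols₁, V.toCols₂, (Matrix.fromCols_toCols V).symm⟩
    rw [Matrix.mul_fromCols, Matrix.fromCols_mul_fromBlocks, Matrix.mul_zero, Matrix.mul_zero, add_zero,
      zero_add, Matrix.fromCols_ext_iff] at hcomm
    obtain ⟨hc1, hc2⟩ := hcomm
    rw [cmp2_comm f hf hk] at hc1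
    rw [cmp2_comm g hg hl] at hc2
    have hfull' := hfull
    rw [hc1.1, hc2.1, cmp2_full_iff A f g hf hg hgi hl _ _ hc1.2 hc2.2] at hfull'
    refine ⟨(fun i => V1 i ⟨0, hk⟩, fun i => V2 i ⟨0, hl⟩), ?_, ?_⟩
    · rw [Finset.mem_filter]
      exact ⟨Finset.mem_univ _, hfull'.1, hc2.2, hfull'.2⟩
    · simp only
      rw [← hc1.1, ← hc2.1]

end cmp2

theorem cmp2 {p : ℕ} [Fact p.Prime] {n : ℕ} (s : Finset (ZMod p)[X]) (hs : ∀ g ∈ s, g.Monic ∧ Irreducible g)
    (g : (ZMod p)[X]) (hg : g ∈ s) (A : Matrix (Fin n) (Fin n) (ZMod p)) :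
    XC (Matrix.fromBlocks (comp (∏ h ∈ s, h)) 0 0 (comp g)) A =
      X1 (∏ h ∈ s, h) A * (kerc g A - (p : ℝ) ^ g.natDegree) := by
  classical
  refine cmp2_main A (∏ h ∈ s, h) g (∏ h ∈ s.erase g, h) ?_ (hs g hg).1 (hs g hg).2
    (Finset.mul_prod_erase s _ hg).symm
  exact monic_prod_of_monic _ _ fun h hh => (hs h hh).1

end Pool.H64.IR
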