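import Pool.Agent.H64.IR.KER

/-! MODULE ZBM (project MP_a758cf_pr, IR; overview: team-store H64_a758cf.md)
ZZ g A = (kerc g A - 1)/(q-1), q = p^(deg g) >= 2. With kerc = q^m: m = 0: ZZ = 0 = BB. m = 1: ZZ = 1 = BB. m >= 2: BB = 1 <= ZZ and
ZZ - BB = ZZ - 1 <= ZZ (kerc - q)/(q (q-1)) because (kerc - q)/(q-1) = ZZ - 1 >= q.
-/

set_option autoImplicit false

namespace Pool.H64.IR

open Finset Polynomial

/-- number of lines (over the field F[X]/(g)) in ker g(A) -/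
noncomputable def ZZ {p : ℕ} [Fact p.Prime] {n : ℕ} (g : (ZMod p)[X]) (A : Matrix (Fin n) (Fin n) (ZMod p)) : ℝ :=
  (kerc g A - 1) / ((p : ℝ) ^ g.natDegree - 1)

private theorem zbm_q {p : ℕ} [Fact p.Prime] (g : (ZMod p)[X]) (hi : Irreducible g) :
    (2 : ℝ) ≤ (p : ℝ) ^ g.natDegree := by
  have h1 : (2 : ℝ) ≤ (p : ℝ) := by exact_mod_cast (Fact.out : p.Prime).two_le
  calc (2 : ℝ) ≤ (p : ℝ) := h1
    _ = (p : ℝ) ^ 1 := (pow_one _).symm
    _ ≤ (p : ℝ) ^ g.natDegree := pow_le_pow_right₀ (by linarith) hi.natDegree_pos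

theorem zz_nonneg {p : ℕ} [Fact p.Prime] {n : ℕ} (g : (ZMod p)[X]) (hg : g.Monic) (hi : Irreducible g)
    (A : Matrix (Fin n) (Fin n) (ZMod p)) : 0 ≤ ZZ g A := by
  obtain ⟨m, hm, -⟩ := ker_pow g hg hi A
  have hq := zbm_q g hi
  unfold ZZ
  rw [hm]
  have h1 : (1 : ℝ) ≤ ((p : ℝ) ^ g.natDegree) ^ m := one_le_pow₀ (by linarith)
  exact div_nonneg (by linarith) (by linarith)

theorem bb_le_zz {p : ℕ} [Fact p.Prime] {n : ℕ} (g : (ZMod p)[X]) (hg : g.Monic) (hi : Irreducible g)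
    (A : Matrix (Fin n) (Fin n) (ZMod p)) : BB g A ≤ ZZ g A := by
  obtain ⟨m, hm, hm0⟩ := ker_pow g hg hi A
  have hq := zbm_q g hi
  rcases Nat.eq_zero_or_pos m with h | h
  · have h1 : BB g A = 0 := ind_false (hm0.1 h)
    rw [h1]
    exact zz_nonneg g hg hi A
  · unfold ZZ
    rw [hm, le_div_iff₀ (by linarith)]
    have h1 : (p : ℝ) ^ g.natDegree ≤ ((p : ℝ) ^ g.natDegree) ^ m := by
      calc (p : ℝ) ^ g.natDegree = ((p : ℝ) ^ g.natDegree) ^ 1 := (pow_one _).symm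
        _ ≤ _ := pow_le_pow_right₀ (by linarith) h
    have h2 : BB g A ≤ 1 := ind_le_one _
    nlinarith

theorem zz_sub_bb {p : ℕ} [Fact p.Prime] {n : ℕ} (g : (ZMod p)[X]) (hg : g.Monic) (hi : Irreducible g)
    (A : Matrix (Fin n) (Fin n) (ZMod p)) :
    ZZ g A - BB g A ≤ ZZ g A * (kerc g A - (p : ℝ) ^ g.natDegree) / ((p : ℝ) ^ g.natDegree * ((p : ℝ) ^ g.natDegree - 1)) := by
  obtain ⟨m, hm, hm0⟩ := ker_pow g hg hi A
  have hq := zbm_q g hi
  rcases Nat.eq_zero_or_pos m with h | h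
  · have h1 : BB g A = 0 := ind_false (hm0.1 h)
    have h2 : ZZ g A = 0 := by
      unfold ZZ
      rw [hm, h, pow_zero, sub_self, zero_div]
    rw [h1, h2]
    simp
  · have h1 : BB g A = 1 := by
      refine ind_true ?_
      by_contra hnd
      exact absurd (hm0.2 hnd) h.ne'
    unfold ZZ
    rw [h1, hm]
    set q : ℝ := (p : ℝ) ^ g.natDegree with hqdef
    have hq1 : 0 < q - 1 := by linarith
    have hq0 : 0 < q := by linarith
    have e1 : (q ^ m - 1) / (q - 1) - 1 = (q ^ m - q) / (q - 1) := by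
      field_simp
      ring
    have e2 : (q ^ m - 1) / (q - 1) * (q ^ m - q) / (q * (q - 1)) =
        (q ^ m - q) / (q - 1) * ((q ^ m - 1) / (q * (q - 1))) := by
      field_simp
    rw [e1, e2]
    rcases Nat.lt_or_ge 1 m with h3 | h3
    · have h4 : q ^ 2 ≤ q ^ m := pow_le_pow_right₀ (by linarith) h3
      have h5 : 0 ≤ (q ^ m - q) / (q - 1) := div_nonneg (by nlinarith) hq1.le
      have h6 : 1 ≤ (q ^ m - 1) / (q * (q - 1)) := by
        rw [le_div_iff₀ (by positivity)]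
        nlinarith
      nlinarith
    · have h4 : m = 1 := by omega
      rw [h4, pow_one, sub_self, zero_div, zero_mul]

theorem zz_kerc_nonneg {p : ℕ} [Fact p.Prime] {n : ℕ} (g : (ZMod p)[X]) (hg : g.Monic) (hi : Irreducible g)
    (A : Matrix (Fin n) (Fin n) (ZMod p)) : 0 ≤ ZZ g A * (kerc g A - (p : ℝ) ^ g.natDegree) := by
  obtain ⟨m, hm, hm0⟩ := ker_pow g hg hi A
  have hq := zbm_q g hi
  rcases Nat.eq_zero_or_pos m with h | h
  · have h2 : ZZ g A = 0 := by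
      unfold ZZ
      rw [hm, h, pow_zero, sub_self, zero_div]
    rw [h2, zero_mul]
  · refine mul_nonneg (zz_nonneg g hg hi A) ?_
    have h1 : (p : ℝ) ^ g.natDegree ≤ ((p : ℝ) ^ g.natDegree) ^ m := by
      calc (p : ℝ) ^ g.natDegree = ((p : ℝ) ^ g.natDegree) ^ 1 := (pow_one _).symm
        _ ≤ _ := pow_le_pow_right₀ (by linarith) h
    rw [hm]
    linarith

end Pool.H64.IR
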