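import Pool.Agent.H64.IR.A2M
import Pool.Agent.H64.IR.B2M
import Pool.Agent.H64.IR.B3M
import Pool.Agent.H64.IR.CMP2
import Pool.Agent.H64.IR.ZBM

/-! MODULE B5M (project MP_a758cf_pr, IR; overview: team-store H64_a758cf.md)
g monic irreducible over ZMod 2 of degree k >= 2, q = 2^k, n < 4k.
b5_two: avg XC(fromBlocks (comp g) 0 0 (comp g)) <= q: by a2m it is (number of full rank V with IsAlt(VᵀV C2)) 2^(m(m+1)/2)/2^(nm), m = 2k; group by S = VᵀV (b2m_two): S = 0 impossible (b3_iso_zero, n < 2m = 4k),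
det S /= 0: b3_nd; number of S <= 2^k (b2m_count).
By cmp2 (s = {g}, prod = g) and x1_prod: XC = (kerc-1)(kerc-q); if kerc >= q^2 it is >= (q^2-1)(q^2-q): b5_pr2: pr(kerc >= q^2) <= q/((q^2-1)(q^2-q)) <= 2/q^3.
b5_lower: avg ZZ g = avg X1 g/(q-1) = Iso n k 2^(k(k+1)/2)/2^(nk)/(q-1) >= (3/4)/(q-1) (a2m, b2m [VᵀVC alternating iff VᵀV = 0], iso_lower, 2k+2 <= n); avg(ZZ - BB) <= avg(ZZ(kerc-q))/(q(q-1)) = avg XC2/(q(q-1)^2) <= 1/(q-1)^2.
So pr(g | charpoly) >= (3/4)/(q-1) - 1/(q-1)^2 >= 1/(2q) for q >= 16.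
-/

set_option autoImplicit false

namespace Pool.H64.IR

open Finset Polynomial

/-- the size of the blocks -/
theorem b5_card (k : ℕ) : Fintype.card (Fin k ⊕ Fin k) = 2 * k := by
  rw [Fintype.card_sum, Fintype.card_fin]; ring

theorem b5_avg2 {n : ℕ} (g : (ZMod 2)[X]) (hg : g.Monic) (hi : Irreducible g) (hk : 2 ≤ g.natDegree) (hn : n < 4 * g.natDegree) :
    avg (fun b : Edge n → Bool => XC (Matrix.fromBlocks (comp g) 0 0 (comp g)) (adj (ZMod 2) b)) ≤ (2 : ℝ) ^ g.natDegree := by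
  classical
  rw [a2m]
  set C2 : Matrix (Fin g.natDegree ⊕ Fin g.natDegree) (Fin g.natDegree ⊕ Fin g.natDegree) (ZMod 2) :=
    Matrix.fromBlocks (comp g) 0 0 (comp g) with hC2
  set m := Fintype.card (Fin g.natDegree ⊕ Fin g.natDegree) with hm
  have hm2 : m = 2 * g.natDegree := b5_card _
  set B : ℝ := ((2 : ℝ) ^ n) ^ m / (2 : ℝ) ^ (m * (m + 1) / 2) with hB
  have hB0 : 0 ≤ B := by positivity
  -- group by S
  have h1 : ∀ V : Matrix (Fin n) (Fin g.natDegree ⊕ Fin g.natDegree) (ZMod 2),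
      ind (FullRank V ∧ IsAlt (V.transpose * V * C2)) ≤
        ∑ S : Matrix (Fin g.natDegree ⊕ Fin g.natDegree) (Fin g.natDegree ⊕ Fin g.natDegree) (ZMod 2),
          ind (S.IsSymm ∧ IsAlt (S * C2)) * ind (FullRank V ∧ V.transpose * V = S) := by
    intro V
    by_cases h : FullRank V ∧ IsAlt (V.transpose * V * C2)
    · rw [ind_true h]
      have h2 : ind ((V.transpose * V).IsSymm ∧ IsAlt (V.transpose * V * C2)) *
          ind (FullRank V ∧ V.transpose * V = V.transpose * V) = 1 := by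
        have hs : (V.transpose * V).IsSymm := by
          rw [Matrix.IsSymm, Matrix.transpose_mul, Matrix.transpose_transpose]
        rw [ind_true ⟨hs, h.2⟩, ind_true ⟨h.1, rfl⟩, one_mul]
      rw [← h2]
      exact Finset.single_le_sum (f := fun S => ind (S.IsSymm ∧ IsAlt (S * C2)) *
        ind (FullRank V ∧ V.transpose * V = S)) (fun S _ => mul_nonneg (ind_nonneg _) (ind_nonneg _))
        (Finset.mem_univ (V.transpose * V))
    · rw [ind_false h]
      exact Finset.sum_nonneg (fun S _ => mul_nonneg (ind_nonneg _) (ind_nonneg _))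
  have h2 : ∀ S : Matrix (Fin g.natDegree ⊕ Fin g.natDegree) (Fin g.natDegree ⊕ Fin g.natDegree) (ZMod 2),
      ∑ V : Matrix (Fin n) (Fin g.natDegree ⊕ Fin g.natDegree) (ZMod 2),
        ind (S.IsSymm ∧ IsAlt (S * C2)) * ind (FullRank V ∧ V.transpose * V = S) ≤
      ind (S.IsSymm ∧ IsAlt (S * C2)) * B := by
    intro S
    rw [← Finset.mul_sum]
    by_cases h : S.IsSymm ∧ IsAlt (S * C2)
    · refine mul_le_mul_of_nonneg_left ?_ (ind_nonneg _)
      obtain ⟨ha, h0 | hd⟩ := b2m_two g hg hi hk S h.1 h.2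
      · refine le_trans (le_of_eq ?_) hB0
        refine Finset.sum_eq_zero (fun V _ => ind_false ?_)
        rintro ⟨hV, hS⟩
        exact b3_iso_zero (by rw [← hm, hm2]; omega) V hV (hS.trans h0)
      · exact b3_nd S h.1 ha.2 hd
    · rw [ind_false h, zero_mul, zero_mul]
  have h3 : (∑ V : Matrix (Fin n) (Fin g.natDegree ⊕ Fin g.natDegree) (ZMod 2),
      ind (FullRank V ∧ IsAlt (V.transpose * V * C2))) ≤ (2 : ℝ) ^ g.natDegree * B := by
    refine (Finset.sum_le_sum (fun V _ => h1 V)).trans ?_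
    rw [Finset.sum_comm]
    refine (Finset.sum_le_sum (fun S _ => h2 S)).trans ?_
    rw [← Finset.sum_mul]
    exact mul_le_mul_of_nonneg_right (b2m_count g hg hi hk) hB0
  have h4 : B * ((2 : ℝ) ^ (m * (m + 1) / 2) / ((2 : ℝ) ^ n) ^ m) = 1 := by
    rw [hB]
    field_simp
  calc _ ≤ ((2 : ℝ) ^ g.natDegree * B) * ((2 : ℝ) ^ (m * (m + 1) / 2) / ((2 : ℝ) ^ n) ^ m) :=
        mul_le_mul_of_nonneg_right h3 (by positivity)
    _ = (2 : ℝ) ^ g.natDegree := by rw [mul_assoc, h4, mul_one]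

theorem b5_x1 {n : ℕ} (g : (ZMod 2)[X]) (hg : g.Monic) (hi : Irreducible g)
    (A : Matrix (Fin n) (Fin n) (ZMod 2)) : X1 g A = kerc g A - 1 := by
  have h := x1_prod {g} (by
    intro h hh
    rw [Finset.mem_singleton] at hh
    rw [hh]; exact ⟨hg, hi⟩) A
  rw [Finset.prod_singleton, Finset.prod_singleton] at h
  exact h

theorem b5_xc {n : ℕ} (g : (ZMod 2)[X]) (hg : g.Monic) (hi : Irreducible g)
    (A : Matrix (Fin n) (Fin n) (ZMod 2)) :
    XC (Matrix.fromBlocks (comp g) 0 0 (comp g)) A = (kerc g A - 1) * (kerc g A - (2 : ℝ) ^ g.natDegree) := by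
  have h := cmp2 {g} (by
    intro h hh
    rw [Finset.mem_singleton] at hh
    rw [hh]; exact ⟨hg, hi⟩) g (Finset.mem_singleton_self g) A
  rw [Finset.prod_singleton, b5_x1 g hg hi] at h
  rw [h]
  norm_num

theorem b5_xc_nonneg {n : ℕ} {κ : Type} [Fintype κ] [DecidableEq κ] (C : Matrix κ κ (ZMod 2))
    (A : Matrix (Fin n) (Fin n) (ZMod 2)) : 0 ≤ XC C A :=
  Finset.sum_nonneg (fun _ _ => ind_nonneg _)

theorem b5_pr2 {n : ℕ} (g : (ZMod 2)[X]) (hg : g.Monic) (hi : Irreducible g) (hk : 2 ≤ g.natDegree) (hn : n < 4 * g.natDegree) :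
    pr (fun b : Edge n → Bool => ((2 : ℝ) ^ g.natDegree) ^ 2 ≤ kerc g (adj (ZMod 2) b)) ≤ 2 / ((2 : ℝ) ^ g.natDegree) ^ 3 := by
  set q : ℝ := (2 : ℝ) ^ g.natDegree with hq
  have hq4 : 4 ≤ q := by
    calc (4 : ℝ) = 2 ^ 2 := by norm_num
      _ ≤ q := pow_le_pow_right₀ (by norm_num) hk
  have hc : 0 < (q ^ 2 - 1) * (q ^ 2 - q) := by
    apply mul_pos <;> nlinarith
  refine (pr_markov _ (fun b : Edge n → Bool =>
    XC (Matrix.fromBlocks (comp g) 0 0 (comp g)) (adj (ZMod 2) b)) (fun b => b5_xc_nonneg _ _) _ hc ?_).trans ?_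
  · intro b hb
    rw [b5_xc g hg hi]
    rw [← hq]
    have h1 : 0 ≤ q ^ 2 - 1 := by nlinarith
    have h2 : 0 ≤ q ^ 2 - q := by nlinarith
    apply mul_le_mul <;> linarith
  · have h1 := b5_avg2 g hg hi hk hn
    rw [← hq] at h1
    rw [div_le_div_iff₀ hc (by positivity)]
    calc _ ≤ q * q ^ 3 := mul_le_mul_of_nonneg_right h1 (by positivity)
      _ ≤ 2 * ((q ^ 2 - 1) * (q ^ 2 - q)) := by
        have h2 : 0 ≤ q ^ 3 * (q - 4) := by
          apply mul_nonneg (by positivity); linarith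
        have h3 : 0 ≤ q ^ 2 * (q - 4) := by
          apply mul_nonneg (by positivity); linarith
        nlinarith

theorem b5_lower {n : ℕ} (g : (ZMod 2)[X]) (hg : g.Monic) (hi : Irreducible g) (hk : 4 ≤ g.natDegree) (hn : n < 4 * g.natDegree)
    (hn2 : 2 * g.natDegree + 2 ≤ n) :
    1 / (2 * (2 : ℝ) ^ g.natDegree) ≤ pr (fun b : Edge n → Bool => g ∣ (adj (ZMod 2) b).charpoly) := by
  have h20 : (((2 : ℕ) : ℝ)) = 2 := by norm_num
  set q : ℝ := (2 : ℝ) ^ g.natDegree with hq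
  have hq4 : 16 ≤ q := by
    calc (16 : ℝ) = 2 ^ 4 := by norm_num
      _ ≤ q := pow_le_pow_right₀ (by norm_num) hk
  -- first moment
  have h1 : 3 / 4 ≤ avg (fun b : Edge n → Bool => XC (comp g) (adj (ZMod 2) b)) := by
    rw [a2m]
    have e1 : (∑ V : Matrix (Fin n) (Fin g.natDegree) (ZMod 2), ind (FullRank V ∧ IsAlt (V.transpose * V * comp g))) =
        Iso n g.natDegree := by
      unfold Iso
      refine Finset.sum_congr rfl (fun V _ => ind_congr ?_)
      constructor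
      · rintro ⟨h, h'⟩
        refine ⟨h, b2m g hg hi (by omega) _ ?_ h'⟩
        rw [Matrix.IsSymm, Matrix.transpose_mul, Matrix.transpose_transpose]
      · rintro ⟨h, h'⟩
        refine ⟨h, ?_⟩
        rw [h', zero_mul]
        exact ⟨Matrix.transpose_zero, fun a => rfl⟩
    rw [e1, Fintype.card_fin]
    have e2 := iso_lower n g.natDegree (by omega)
    have e3 : (4 : ℝ) ^ g.natDegree / (2 : ℝ) ^ n ≤ 1 / 4 := by
      rw [div_le_div_iff₀ (by positivity) (by norm_num)]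
      calc (4 : ℝ) ^ g.natDegree * 4 = 2 ^ (2 * g.natDegree + 2) := by
            rw [pow_add, pow_mul]; norm_num
        _ ≤ 1 * 2 ^ n := by
            rw [one_mul]; exact pow_le_pow_right₀ (by norm_num) hn2
    calc (3 / 4 : ℝ) ≤ (1 - (4 : ℝ) ^ g.natDegree / (2 : ℝ) ^ n) := by linarith
      _ = (1 - (4 : ℝ) ^ g.natDegree / (2 : ℝ) ^ n) * (((2 : ℝ) ^ n) ^ g.natDegree / (2 : ℝ) ^ (g.natDegree * (g.natDegree + 1) / 2)) *
          ((2 : ℝ) ^ (g.natDegree * (g.natDegree + 1) / 2) / ((2 : ℝ) ^ n) ^ g.natDegree) := by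
            field_simp
      _ ≤ _ := mul_le_mul_of_nonneg_right e2 (by positivity)
  have h2 := b5_avg2 g hg hi (by omega) hn
  rw [← hq] at h2
  -- pointwise
  have h3 : ∀ b : Edge n → Bool, XC (comp g) (adj (ZMod 2) b) * (1 / (q - 1)) -
      XC (Matrix.fromBlocks (comp g) 0 0 (comp g)) (adj (ZMod 2) b) * (1 / (q * (q - 1) ^ 2)) ≤
        ind (g ∣ (adj (ZMod 2) b).charpoly) := by
    intro b
    have e1 := zz_sub_bb g hg hi (adj (ZMod 2) b)
    rw [cmp1 g hg, b5_x1 g hg hi, b5_xc g hg hi]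
    have e2 : BB g (adj (ZMod 2) b) = ind (g ∣ (adj (ZMod 2) b).charpoly) := rfl
    rw [← e2]
    unfold ZZ at e1
    rw [h20, ← hq] at e1
    rw [← hq]
    have hq1 : (0 : ℝ) < q - 1 := by linarith
    have e3 : (kerc g (adj (ZMod 2) b) - 1) / (q - 1) * (kerc g (adj (ZMod 2) b) - q) / (q * (q - 1)) =
        (kerc g (adj (ZMod 2) b) - 1) * (kerc g (adj (ZMod 2) b) - q) * (1 / (q * (q - 1) ^ 2)) := by
      field_simp
    rw [e3] at e1
    have e4 : (kerc g (adj (ZMod 2) b) - 1) / (q - 1) = (kerc g (adj (ZMod 2) b) - 1) * (1 / (q - 1)) := by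
      field_simp
    rw [e4] at e1
    linarith
  have h4 := avg_mono h3
  rw [avg_sub, avg_mul_const, avg_mul_const] at h4
  refine le_trans ?_ h4
  have hq1 : (0 : ℝ) < q - 1 := by linarith
  have h5 : 3 / 4 * (1 / (q - 1)) ≤ avg (fun b : Edge n → Bool => XC (comp g) (adj (ZMod 2) b)) * (1 / (q - 1)) :=
    mul_le_mul_of_nonneg_right h1 (by positivity)
  have h6 : avg (fun b : Edge n → Bool => XC (Matrix.fromBlocks (comp g) 0 0 (comp g)) (adj (ZMod 2) b)) * (1 / (q * (q - 1) ^ 2)) ≤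
      q * (1 / (q * (q - 1) ^ 2)) := mul_le_mul_of_nonneg_right h2 (by positivity)
  have h7 : 1 / (2 * q) ≤ 3 / 4 * (1 / (q - 1)) - q * (1 / (q * (q - 1) ^ 2)) := by
    have : 3 / 4 * (1 / (q - 1)) - q * (1 / (q * (q - 1) ^ 2)) - 1 / (2 * q) =
        (3 * q * (q - 1) - 4 * q - 2 * (q - 1) ^ 2) / (4 * q * (q - 1) ^ 2) := by
      field_simp
      ring
    have h8 : 0 ≤ (3 * q * (q - 1) - 4 * q - 2 * (q - 1) ^ 2) / (4 * q * (q - 1) ^ 2) := by
      apply div_nonneg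
      · nlinarith
      · positivity
    linarith
  linarith

end Pool.H64.IR
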