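import Pool.Agent.H64.IR.KER

/-! MODULE B7M (project MP_a758cf_pr, IR; overview: team-store H64_a758cf.md)
The mod 4 lemma. g monic irreducible over ZMod 2, k = deg g, K = AdjoinRoot g, x its root. R4 = AdjoinRoot g4, g4 in (ZMod 4)[X] a monic lift of g; the reduction R4 -> K is surjective with kernel 2 R4 and
y -> 2 y~ identifies K with 2 R4 (2 r = 0 iff r in 2 R4: R4 is free over ZMod 4).
If f1 f2 = charpoly over ℤ and g divides both mod 2: f1(x), f2(x) in 2 R4, so det(x - A) = charpoly(x) = 0 in R4. M = x - A over R4. If kerc g A = 2^k the eigenspace of A over K for x is one-dimensional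
(number of v in K^n with A v = x v equals kerc g A: z in ker g(A) <-> v; or: dim over K of eigenspace m, kerc = q^m), so M mod 2 has rank n-1 and adjugate(M) /= 0 mod 2: some column y = adj(M) e_j is nonzero
mod 2, and M y = det(M) e_j = 0. So A y = x y in R4^n, also for c~ y. Then x sum y_i^2 = sum_ij a_ij y_i y_j = 2 sum_{i<j} a_ij y_i y_j, where sum y_i^2 depends only on v = y mod 2
((y+2z)^2 = y^2 in R4), so (dividing by 2) sum_{i<j} a_ij v_i v_j = s(v) in K with s(v) determined by v: s(v) = the w in K with 2 w~ = x sum (lift v_i)^2 if it exists, 0 otherwise.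
(In the formal proof the ring is AdjoinRoot G, G a monic lift of g to the integers.)
-/

set_option autoImplicit false

namespace Pool.H64.IR

open Finset Polynomial

/-- bad splitting event: an integer factorization of the characteristic polynomial both factors of which are divisible by g mod 2 -/
def Bad4 {n : ℕ} (g : (ZMod 2)[X]) (b : Edge n → Bool) : Prop :=
  ∃ f1 f2 : ℤ[X], f1 * f2 = (adj ℤ b).charpoly ∧ g ∣ f1.map (Int.castRingHom (ZMod 2)) ∧ g ∣ f2.map (Int.castRingHom (ZMod 2))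

/-- sums over pairs -/
lemma b7m_pairs {n : ℕ} {R : Type} [AddCommMonoid R] (f : Fin n → Fin n → R) (hf : ∀ i, f i i = 0) :
    ∑ i, ∑ j, f i j = ∑ e : Edge n, (f e.1.1 e.1.2 + f e.1.2 e.1.1) := by
  have h1 : ∑ i, ∑ j, f i j = ∑ x : Fin n × Fin n, f x.1 x.2 := by
    rw [Fintype.sum_prod_type]
  have h2 : ∑ x : Fin n × Fin n, f x.1 x.2 =
      ∑ x ∈ univ.filter (fun x : Fin n × Fin n => x.1 < x.2), f x.1 x.2 +
      ∑ x ∈ univ.filter (fun x : Fin n × Fin n => ¬ x.1 < x.2), f x.1 x.2 :=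
    (Finset.sum_filter_add_sum_filter_not _ _ _).symm
  have h3 : ∑ x ∈ univ.filter (fun x : Fin n × Fin n => ¬ x.1 < x.2), f x.1 x.2 =
      ∑ x ∈ univ.filter (fun x : Fin n × Fin n => x.1 < x.2), f x.2 x.1 := by
    have h4 : ∑ x ∈ univ.filter (fun x : Fin n × Fin n => ¬ x.1 < x.2), f x.1 x.2 =
        ∑ x ∈ univ.filter (fun x : Fin n × Fin n => x.2 < x.1), f x.1 x.2 := by
      symm
      refine Finset.sum_subset ?_ ?_
      · intro x hx
        rw [Finset.mem_filter] at hx ⊢
        exact ⟨hx.1, not_lt.2 hx.2.le⟩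
      · intro x hx hx'
        rw [Finset.mem_filter] at hx hx'
        have h5 : x.1 = x.2 := by
          refine le_antisymm ?_ (not_lt.1 hx.2)
          by_contra h6
          exact hx' ⟨Finset.mem_univ _, not_le.1 h6⟩
        rw [h5]
        exact hf _
    rw [h4]
    refine Finset.sum_nbij' (fun x => (x.2, x.1)) (fun x => (x.2, x.1)) ?_ ?_ ?_ ?_ ?_
    · intro x hx
      rw [Finset.mem_filter] at hx ⊢
      exact ⟨Finset.mem_univ _, hx.2⟩
    · intro x hx
      rw [Finset.mem_filter] at hx ⊢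
      exact ⟨Finset.mem_univ _, hx.2⟩
    · intro x _; rfl
    · intro x _; rfl
    · intro x _; rfl
  have h5 : ∀ F : Fin n × Fin n → R, ∑ x ∈ univ.filter (fun x : Fin n × Fin n => x.1 < x.2), F x =
      ∑ e : Edge n, F e.1 := fun F =>
    Finset.sum_subtype _ (fun x => by simp) F
  rw [h1, h2, h3, h5, h5, ← Finset.sum_add_distrib]

lemma b7m_adj_lt {n : ℕ} {R : Type} [Zero R] [One R] (b : Edge n → Bool) (e : Edge n) :
    adj R b e.1.1 e.1.2 = if b e then 1 else 0 := by
  unfold adj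
  rw [Matrix.of_apply, dif_pos e.2]

lemma b7m_adj_gt {n : ℕ} {R : Type} [Zero R] [One R] (b : Edge n → Bool) (e : Edge n) :
    adj R b e.1.2 e.1.1 = if b e then 1 else 0 := by
  unfold adj
  rw [Matrix.of_apply, dif_neg (not_lt.2 e.2.le), dif_pos e.2]

lemma b7m_adj_self {n : ℕ} {R : Type} [Zero R] [One R] (b : Edge n → Bool) (i : Fin n) :
    adj R b i i = 0 := by
  unfold adj
  rw [Matrix.of_apply, dif_neg (lt_irrefl _), dif_neg (lt_irrefl _)]

lemma b7m_adj_map {n : ℕ} {R S : Type} [CommRing R] [CommRing S] (φ : R →+* S)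
    (b : Edge n → Bool) : (adj R b).map φ = adj S b := by
  ext i j
  rw [Matrix.map_apply]
  unfold adj
  rw [Matrix.of_apply, Matrix.of_apply]
  split_ifs <;> simp

/-- the abstract mod 4 argument -/
lemma b7m_abs {R K : Type} [CommRing R] [CommRing K] (π : R →+* K)
    (hker : ∀ r, π r = 0 → ∃ s, r = 2 * s) (htor : ∀ r : R, 2 * r = 0 → r = 0)
    (hπ2 : (2 : K) = 0) (x : R) (n : ℕ) :
    ∃ s : (Fin n → K) → K, ∀ (b : Edge n → Bool) (y t : Fin n → R),
      (∀ i, x * y i - ∑ j, adj R b i j * y j = 4 * t i) →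
      (∑ e : Edge n, if b e then π (y e.1.1) * π (y e.1.2) else 0) = s (fun i => π (y i)) := by
  classical
  have key : ∀ (y y' : Fin n → R) (w w' : R), (∀ i, π (y i) = π (y' i)) →
      x * ∑ i, y i ^ 2 = 2 * w → x * ∑ i, y' i ^ 2 = 2 * w' → π w = π w' := by
    intro y y' w w' h hw hw'
    have h1 : ∀ i, ∃ z, y' i - y i = 2 * z := fun i => hker _ (by rw [map_sub, h i, sub_self])
    choose z hz using h1
    have h2 : ∑ i, y' i ^ 2 = ∑ i, y i ^ 2 + 4 * ∑ i, (y i * z i + z i ^ 2) := by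
      rw [Finset.mul_sum, ← Finset.sum_add_distrib]
      refine Finset.sum_congr rfl fun i _ => ?_
      have : y' i = y i + 2 * z i := by rw [← hz i]; ring
      rw [this]; ring
    have h3 : 2 * (w' - w - 2 * (x * ∑ i, (y i * z i + z i ^ 2))) = 0 := by
      have h4 : 2 * w' = 2 * w + 4 * (x * ∑ i, (y i * z i + z i ^ 2)) := by
        rw [← hw', ← hw, h2]; ring
      rw [mul_sub, mul_sub, h4]; ring
    have h5 := htor _ h3
    have h6 : w' = w + 2 * (x * ∑ i, (y i * z i + z i ^ 2)) := by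
      rw [sub_sub, sub_eq_zero] at h5; exact h5
    rw [h6, map_add, map_mul, map_ofNat, hπ2, zero_mul, add_zero]
  refine ⟨fun v => if h : ∃ w : R, ∃ y : Fin n → R, (∀ i, π (y i) = v i) ∧
      x * ∑ i, y i ^ 2 = 2 * w then π h.choose else 0, fun b y t hy => ?_⟩
  have h1 : x * ∑ i, y i ^ 2 =
      2 * ((∑ e : Edge n, if b e then y e.1.1 * y e.1.2 else 0) + 2 * ∑ i, t i * y i) := by
    have h2 : ∑ i, y i * (x * y i - ∑ j, adj R b i j * y j) = ∑ i, y i * (4 * t i) :=
      Finset.sum_congr rfl fun i _ => by rw [hy i]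
    have h3 : ∑ i, y i * (x * y i - ∑ j, adj R b i j * y j) =
        x * ∑ i, y i ^ 2 - ∑ i, ∑ j, adj R b i j * y i * y j := by
      rw [Finset.mul_sum, ← Finset.sum_sub_distrib]
      refine Finset.sum_congr rfl fun i _ => ?_
      rw [mul_sub, Finset.mul_sum]
      congr 1
      · ring
      · exact Finset.sum_congr rfl fun j _ => by ring
    have h4 : ∑ i, ∑ j, adj R b i j * y i * y j =
        2 * ∑ e : Edge n, if b e then y e.1.1 * y e.1.2 else 0 := by
      rw [b7m_pairs (fun i j => adj R b i j * y i * y j) (fun i => by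
        rw [b7m_adj_self]; ring), Finset.mul_sum]
      refine Finset.sum_congr rfl fun e _ => ?_
      rw [b7m_adj_lt, b7m_adj_gt]
      split_ifs <;> ring
    have h5 : ∑ i, y i * (4 * t i) = 4 * ∑ i, t i * y i := by
      rw [Finset.mul_sum]
      exact Finset.sum_congr rfl fun i _ => by ring
    rw [h3, h4, h5] at h2
    linear_combination h2
  have h2 : ∃ w : R, ∃ y' : Fin n → R, (∀ i, π (y' i) = π (y i)) ∧
      x * ∑ i, y' i ^ 2 = 2 * w := ⟨_, y, fun i => rfl, h1⟩
  show _ = dite _ _ _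
  rw [dif_pos h2]
  obtain ⟨y', hy', hw'⟩ := h2.choose_spec
  rw [key y' y _ _ hy' hw' h1, map_add, map_mul, map_ofNat, hπ2, zero_mul, add_zero, map_sum]
  refine Finset.sum_congr rfl fun e _ => ?_
  split_ifs
  · rw [map_mul]
  · rw [map_zero]

/-- a square matrix over a finite field whose kernel has at most `card K` elements has a nonzero adjugate -/
lemma b7m_adjugate {K : Type} [Field K] [Finite K] {n : ℕ} (hn : 0 < n)
    (N : Matrix (Fin n) (Fin n) K) (hE : Nat.card {v : Fin n → K // N.mulVec v = 0} ≤ Nat.card K) :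
    N.adjugate ≠ 0 := by
  classical
  intro h0
  obtain ⟨L, L', D, hD⟩ := Matrix.Pivot.exists_list_transvec_mul_mul_list_transvec_eq_diagonal N
  set P := (L.map Matrix.TransvectionStruct.toMatrix).prod with hP
  set Q := (L'.map Matrix.TransvectionStruct.toMatrix).prod with hQ
  have hPdet : P.det = 1 := Matrix.TransvectionStruct.det_toMatrix_prod L
  have hQdet : Q.det = 1 := Matrix.TransvectionStruct.det_toMatrix_prod L'
  have h1 : (Matrix.diagonal D).adjugate = 0 := by
    rw [← hD, Matrix.adjugate_mul_distrib, Matrix.adjugate_mul_distrib, h0, zero_mul, mul_zero]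
  rw [Matrix.adjugate_diagonal] at h1
  have h2 : ∀ i, ∃ j, j ≠ i ∧ D j = 0 := by
    intro i
    have h3 : (Matrix.diagonal fun i => ∏ j ∈ Finset.univ.erase i, D j) i i = 0 := by rw [h1]; rfl
    rw [Matrix.diagonal_apply_eq, Finset.prod_eq_zero_iff] at h3
    obtain ⟨j, hj, hj0⟩ := h3
    exact ⟨j, Finset.ne_of_mem_erase hj, hj0⟩
  obtain ⟨j1, -, hj1⟩ := h2 ⟨0, hn⟩
  obtain ⟨j2, hj21, hj2⟩ := h2 j1
  have hQinj : ∀ w : Fin n → K, Q.mulVec w = 0 → w = 0 := fun w hw =>
    Matrix.eq_zero_of_mulVec_eq_zero (by rw [hQdet]; exact one_ne_zero) hw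
  have hPinj : ∀ w : Fin n → K, P.mulVec w = 0 → w = 0 := fun w hw =>
    Matrix.eq_zero_of_mulVec_eq_zero (by rw [hPdet]; exact one_ne_zero) hw
  let u : K × K → Fin n → K := fun c => Pi.single j1 c.1 + Pi.single j2 c.2
  have hu : ∀ c, (Matrix.diagonal D).mulVec (u c) = 0 := by
    intro c
    ext i
    rw [Matrix.mulVec_diagonal]
    by_cases h3 : i = j1
    · rw [h3, hj1, zero_mul]; rfl
    · by_cases h4 : i = j2
      · rw [h4, hj2, zero_mul]; rfl
      · simp [u, h3, h4]
  have hN : ∀ c, N.mulVec (Q.mulVec (u c)) = 0 := by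
    intro c
    refine hPinj _ ?_
    rw [Matrix.mulVec_mulVec, Matrix.mulVec_mulVec, hD]
    exact hu c
  have hinj : Function.Injective
      (fun c : K × K => (⟨Q.mulVec (u c), hN c⟩ : {v : Fin n → K // N.mulVec v = 0})) := by
    intro c c' h
    have h3 : Q.mulVec (u c) = Q.mulVec (u c') := congrArg Subtype.val h
    have h4 : u c - u c' = 0 := hQinj _ (by rw [Matrix.mulVec_sub, h3, sub_self])
    have h5 := congrFun h4 j1
    have h6 := congrFun h4 j2
    simp only [u, Pi.sub_apply, Pi.add_apply, Pi.single_eq_same, Pi.zero_apply,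
      Pi.single_eq_of_ne hj21, Pi.single_eq_of_ne hj21.symm, add_zero, zero_add, sub_eq_zero]
      at h5 h6
    exact Prod.ext h5 h6
  have hcard := Nat.card_le_card_of_injective _ hinj
  rw [Nat.card_prod] at hcard
  have h7 : 1 < Nat.card K := Finite.one_lt_card
  nlinarith

/-- eigenvectors over the field give vectors in the kernel of `g(A)` -/
lemma b7m_eig {n : ℕ} (g : (ZMod 2)[X]) (hg : g.Monic) (hi : Irreducible g)
    (A : Matrix (Fin n) (Fin n) (ZMod 2)) :
    (Nat.card {v : Fin n → AdjoinRoot g //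
      ∀ i, ∑ j, A i j • v j = AdjoinRoot.root g * v i} : ℝ) ≤ kerc g A := by
  classical
  have : Fact (Irreducible g) := ⟨hi⟩
  have hk : kerc g A = (Nat.card {z : Fin n → ZMod 2 // (Polynomial.aeval A g).mulVec z = 0} : ℝ) := by
    rw [Nat.card_eq_fintype_card, Fintype.card_subtype, Finset.card_filter, Nat.cast_sum]
    unfold kerc
    refine Finset.sum_congr rfl fun z _ => ?_
    by_cases h : (Polynomial.aeval A g).mulVec z = 0
    · rw [ind_true h, if_pos h, Nat.cast_one]
    · rw [ind_false h, if_neg h, Nat.cast_zero]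
  rw [hk]
  obtain ⟨φ, hφ⟩ : ∃ φ : Module.Dual (ZMod 2) (AdjoinRoot g), φ 1 ≠ 0 := by
    by_contra h
    push Not at h
    exact one_ne_zero ((Module.forall_dual_apply_eq_zero_iff (ZMod 2) (1 : AdjoinRoot g)).1 h)
  have step : ∀ (v : Fin n → AdjoinRoot g), (∀ i, ∑ j, A i j • v j = AdjoinRoot.root g * v i) →
      ∀ (m : ℕ), (A ^ m).mulVec (fun i => φ (v i)) =
        fun i => φ (AdjoinRoot.root g ^ m * v i) := by
    intro v hv m
    induction m with
    | zero => ext i; simp
    | succ m ih =>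
      rw [pow_succ', ← Matrix.mulVec_mulVec, ih]
      ext i
      show ∑ j, A i j * φ (AdjoinRoot.root g ^ m * v j) = φ (AdjoinRoot.root g ^ (m + 1) * v i)
      have h1 : AdjoinRoot.root g ^ (m + 1) * v i = ∑ j, A i j • (AdjoinRoot.root g ^ m * v j) := by
        rw [pow_succ, mul_assoc, ← hv i, Finset.mul_sum]
        refine Finset.sum_congr rfl fun j _ => ?_
        rw [mul_smul_comm]
      rw [h1, map_sum]
      refine Finset.sum_congr rfl fun j _ => ?_
      rw [map_smul, smul_eq_mul]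
  have step2 : ∀ (v : Fin n → AdjoinRoot g), (∀ i, ∑ j, A i j • v j = AdjoinRoot.root g * v i) →
      ∀ (f : (ZMod 2)[X]), (Polynomial.aeval A f).mulVec (fun i => φ (v i)) =
        fun i => φ (AdjoinRoot.mk g f * v i) := by
    intro v hv f
    induction f using Polynomial.induction_on' with
    | add p q hp hq =>
      rw [map_add, Matrix.add_mulVec, hp, hq]
      ext i
      rw [map_add, add_mul, map_add]; rfl
    | monomial m a =>
      rw [Polynomial.aeval_monomial, ← Polynomial.C_mul_X_pow_eq_monomial, map_mul, map_pow,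
        AdjoinRoot.mk_X, AdjoinRoot.mk_C, Algebra.algebraMap_eq_smul_one, smul_mul_assoc, one_mul,
        Matrix.smul_mulVec, step v hv m]
      ext i
      show a • φ (AdjoinRoot.root g ^ m * v i) = _
      rw [← map_smul]
      congr 1
      rw [mul_assoc, Algebra.smul_def]
      rfl
  refine Nat.cast_le.2 (Nat.card_le_card_of_injective
    (fun v => (⟨fun i => φ (v.1 i), ?_⟩ : {z : Fin n → ZMod 2 //
      (Polynomial.aeval A g).mulVec z = 0})) ?_)
  · rw [step2 v.1 v.2 g, AdjoinRoot.mk_self]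
    ext i
    simp
  · intro v v' h
    have h1 : ∀ i, φ (v.1 i) = φ (v'.1 i) := fun i => congrFun (congrArg Subtype.val h) i
    refine Subtype.ext (funext fun i => ?_)
    by_contra hne
    have hw : ∀ i, ∑ j, A i j • (v.1 j - v'.1 j) = AdjoinRoot.root g * (v.1 i - v'.1 i) := by
      intro i
      rw [mul_sub, ← v.2 i, ← v'.2 i, ← Finset.sum_sub_distrib]
      exact Finset.sum_congr rfl fun j _ => smul_sub _ _ _
    have h2 : (fun i => φ (v.1 i - v'.1 i)) = 0 := by
      ext i
      rw [map_sub, h1 i, sub_self]; rfl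
    obtain ⟨f, hf⟩ := AdjoinRoot.mk_surjective (v.1 i - v'.1 i)⁻¹
    have h3 := step2 _ hw f
    rw [h2, Matrix.mulVec_zero] at h3
    have h4 := congrFun h3 i
    rw [hf, inv_mul_cancel₀ (sub_ne_zero.2 hne)] at h4
    exact hφ h4.symm

/-- reduction of the integral model -/
lemma b7m_ring (g : (ZMod 2)[X]) (hg : g.Monic) :
    ∃ G : ℤ[X], G.Monic ∧ ∃ π : AdjoinRoot G →+* AdjoinRoot g,
      Function.Surjective π ∧ (∀ r, π r = 0 → ∃ s, r = 2 * s) ∧
      (∀ r : AdjoinRoot G, 2 * r = 0 → r = 0) ∧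
      (∀ F : ℤ[X], π (AdjoinRoot.mk G F) = AdjoinRoot.mk g (F.map (Int.castRingHom (ZMod 2)))) := by
  have hsurj : Function.Surjective (Int.castRingHom (ZMod 2)) := ZMod.intCast_surjective
  have hlift : ∀ f : (ZMod 2)[X], ∃ F : ℤ[X], F.map (Int.castRingHom (ZMod 2)) = f :=
    Polynomial.map_surjective _ hsurj
  have hev : ∀ F : ℤ[X], F.map (Int.castRingHom (ZMod 2)) = 0 → ∃ U : ℤ[X], F = 2 * U := by
    intro F hF
    have h1 : Polynomial.C (2 : ℤ) ∣ F := by
      rw [Polynomial.C_dvd_iff_dvd_coeff]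
      intro i
      have h2 := congrArg (fun p => p.coeff i) hF
      simp only [Polynomial.coeff_map, Polynomial.coeff_zero, eq_intCast] at h2
      exact (ZMod.intCast_zmod_eq_zero_iff_dvd _ 2).1 h2
    obtain ⟨U, hU⟩ := h1
    exact ⟨U, by rw [hU]; rfl⟩
  obtain ⟨G, hG1, -, hG2⟩ := Polynomial.lifts_and_natDegree_eq_and_monic
    (f := Int.castRingHom (ZMod 2)) (p := g) ((Polynomial.mem_lifts _ ).2 (hlift g)) hg
  have hroot : G.eval₂ ((AdjoinRoot.of g).comp (Int.castRingHom (ZMod 2))) (AdjoinRoot.root g) = 0 := by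
    rw [← Polynomial.eval₂_map, hG1]
    exact AdjoinRoot.eval₂_root g
  let π : AdjoinRoot G →+* AdjoinRoot g :=
    AdjoinRoot.lift ((AdjoinRoot.of g).comp (Int.castRingHom (ZMod 2))) (AdjoinRoot.root g) hroot
  have hπ : ∀ F : ℤ[X], π (AdjoinRoot.mk G F) =
      AdjoinRoot.mk g (F.map (Int.castRingHom (ZMod 2))) := by
    intro F
    show AdjoinRoot.lift _ _ hroot (AdjoinRoot.mk G F) = _
    rw [AdjoinRoot.lift_mk, ← Polynomial.eval₂_map]
    rw [← AdjoinRoot.aeval_eq, Polynomial.aeval_def, AdjoinRoot.algebraMap_eq]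
  refine ⟨G, hG2, π, ?_, ?_, ?_, hπ⟩
  · intro a
    obtain ⟨f, rfl⟩ := AdjoinRoot.mk_surjective a
    obtain ⟨F, rfl⟩ := hlift f
    exact ⟨AdjoinRoot.mk G F, hπ F⟩
  · intro r hr
    obtain ⟨F, rfl⟩ := AdjoinRoot.mk_surjective r
    rw [hπ, AdjoinRoot.mk_eq_zero] at hr
    obtain ⟨h, hh⟩ := hr
    obtain ⟨H, rfl⟩ := hlift h
    obtain ⟨U, hU⟩ := hev (F - G * H) (by
      rw [Polynomial.map_sub, Polynomial.map_mul, hG1, hh, sub_self])
    refine ⟨AdjoinRoot.mk G U, ?_⟩
    have h1 : F = G * H + 2 * U := by rw [← hU]; ring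
    rw [h1, map_add, map_mul, AdjoinRoot.mk_self, zero_mul, zero_add, map_mul, map_ofNat]
  · intro r hr
    obtain ⟨F, rfl⟩ := AdjoinRoot.mk_surjective r
    have h1 : AdjoinRoot.mk G (2 * F) = 0 := by rw [map_mul, map_ofNat]; exact hr
    rw [AdjoinRoot.mk_eq_zero] at h1
    obtain ⟨H, hH⟩ := h1
    have h2 : g * H.map (Int.castRingHom (ZMod 2)) = 0 := by
      rw [← hG1, ← Polynomial.map_mul, ← hH, Polynomial.map_mul]
      have : (2 : ℤ[X]).map (Int.castRingHom (ZMod 2)) = 0 := by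
        rw [Polynomial.map_ofNat]
        exact (CharTwo.two_eq_zero : (2 : (ZMod 2)[X]) = 0)
      rw [this, zero_mul]
    rcases mul_eq_zero.1 h2 with h3 | h3
    · exact absurd h3 hg.ne_zero
    · obtain ⟨U, hU⟩ := hev H h3
      rw [AdjoinRoot.mk_eq_zero]
      refine ⟨U, ?_⟩
      have h4 : (2 : ℤ[X]) * F = 2 * (G * U) := by rw [hH, hU]; ring
      exact mul_left_cancel₀ two_ne_zero h4

theorem b7m (n : ℕ) (g : (ZMod 2)[X]) (hg : g.Monic) (hi : Irreducible g) :
    ∃ s : (Fin n → AdjoinRoot g) → AdjoinRoot g, ∀ b : Edge n → Bool, Bad4 g b →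
      kerc g (adj (ZMod 2) b) = (2 : ℝ) ^ g.natDegree →
      ∃ v : Fin n → AdjoinRoot g, v ≠ 0 ∧ ∀ c : AdjoinRoot g, c ≠ 0 →
        (∀ i, ∑ j, (adj (ZMod 2) b i j) • (c * v j) = AdjoinRoot.root g * (c * v i)) ∧
        (∑ e : Edge n, if b e then (c * v e.1.1) * (c * v e.1.2) else 0) = s (fun i => c * v i) := by
  classical
  have : Fact (Irreducible g) := ⟨hi⟩
  obtain ⟨G, hG, π, hsurj, hker, htor, hπ⟩ := b7m_ring g hg
  have hπ2 : (2 : AdjoinRoot g) = 0 := by
    have : (2 : AdjoinRoot g) = AdjoinRoot.mk g 2 := (map_ofNat _ 2).symm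
    rw [this, (CharTwo.two_eq_zero : (2 : (ZMod 2)[X]) = 0), map_zero]
  obtain ⟨s, hs⟩ := b7m_abs π hker htor hπ2 (AdjoinRoot.root G) n
  refine ⟨s, fun b hbad hkerc => ?_⟩
  have hπroot : π (AdjoinRoot.root G) = AdjoinRoot.root g := by
    have := hπ X
    rw [Polynomial.map_X, AdjoinRoot.mk_X, AdjoinRoot.mk_X] at this
    exact this
  -- finiteness and cardinality of K
  have hfin : Module.Finite (ZMod 2) (AdjoinRoot g) := (AdjoinRoot.powerBasis hg.ne_zero).finite
  have : Finite (AdjoinRoot g) := Module.finite_of_finite (ZMod 2)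
  have hcardK : Nat.card (AdjoinRoot g) = 2 ^ g.natDegree := by
    rw [Module.natCard_eq_pow_finrank (K := ZMod 2), (AdjoinRoot.powerBasis hg.ne_zero).finrank,
      Nat.card_zmod, AdjoinRoot.powerBasis_dim]
  -- n > 0
  have hdeg : 0 < g.natDegree := hi.natDegree_pos
  have hn : 0 < n := by
    rcases Nat.eq_zero_or_pos n with h | h
    · exfalso
      subst h
      have h1 : kerc g (adj (ZMod 2) b) ≤ 1 := by
        unfold kerc
        rw [Fintype.sum_unique]
        exact ind_le_one _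
      have h2 : (2 : ℝ) ^ 1 ≤ 2 ^ g.natDegree := pow_le_pow_right₀ (by norm_num) hdeg
      rw [hkerc] at h1
      linarith
    · exact h
  -- the determinant
  obtain ⟨f1, f2, hf, ⟨q1, hq1⟩, ⟨q2, hq2⟩⟩ := hbad
  have hf1 : ∃ s, AdjoinRoot.mk G f1 = 2 * s := hker _ (by
    rw [hπ, hq1, map_mul, AdjoinRoot.mk_self, zero_mul])
  have hf2 : ∃ s, AdjoinRoot.mk G f2 = 2 * s := hker _ (by
    rw [hπ, hq2, map_mul, AdjoinRoot.mk_self, zero_mul])
  obtain ⟨s1, hs1⟩ := hf1
  obtain ⟨s2, hs2⟩ := hf2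
  set M : Matrix (Fin n) (Fin n) (AdjoinRoot G) :=
    Matrix.scalar (Fin n) (AdjoinRoot.root G) - adj (AdjoinRoot G) b with hM
  have hdet : M.det = 4 * (s1 * s2) := by
    rw [hM, ← Matrix.eval_charpoly, ← b7m_adj_map (algebraMap ℤ (AdjoinRoot G)) b,
      Matrix.charpoly_map, Polynomial.eval_map_algebraMap, ← hf, map_mul,
      AdjoinRoot.aeval_eq, AdjoinRoot.aeval_eq, hs1, hs2]
    ring
  have hMπ : M.map π = Matrix.scalar (Fin n) (AdjoinRoot.root g) - adj (AdjoinRoot g) b := by
    rw [hM, Matrix.map_sub _ (map_sub π), b7m_adj_map]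
    congr 1
    ext i j
    simp only [Matrix.scalar_apply, Matrix.map_apply, Matrix.diagonal_apply]
    split_ifs
    · exact hπroot
    · exact map_zero π
  -- eigenvectors
  have hNv : ∀ v : Fin n → AdjoinRoot g, (M.map π).mulVec v = 0 ↔
      ∀ i, ∑ j, (adj (ZMod 2) b i j) • v j = AdjoinRoot.root g * v i := by
    intro v
    rw [hMπ, Matrix.sub_mulVec, sub_eq_zero, funext_iff]
    refine forall_congr' fun i => ?_
    have h1 : (Matrix.scalar (Fin n) (AdjoinRoot.root g)).mulVec v i = AdjoinRoot.root g * v i := by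
      rw [Matrix.scalar_apply, Matrix.mulVec_diagonal]
    have h2 : (adj (AdjoinRoot g) b).mulVec v i = ∑ j, (adj (ZMod 2) b i j) • v j := by
      show ∑ j, adj (AdjoinRoot g) b i j * v j = _
      refine Finset.sum_congr rfl fun j _ => ?_
      rw [← b7m_adj_map (algebraMap (ZMod 2) (AdjoinRoot g)) b, Matrix.map_apply, Algebra.smul_def]
    rw [h1, h2]
    exact eq_comm
  have hE : Nat.card {v : Fin n → AdjoinRoot g // (M.map π).mulVec v = 0} ≤
      Nat.card (AdjoinRoot g) := by
    have h1 := b7m_eig g hg hi (adj (ZMod 2) b)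
    rw [hkerc] at h1
    have h2 : Nat.card {v : Fin n → AdjoinRoot g // (M.map π).mulVec v = 0} =
        Nat.card {v : Fin n → AdjoinRoot g //
          ∀ i, ∑ j, (adj (ZMod 2) b i j) • v j = AdjoinRoot.root g * v i} :=
      Nat.card_congr (Equiv.subtypeEquivRight hNv)
    rw [h2, hcardK]
    exact_mod_cast h1
  have hadj : (M.map π).adjugate ≠ 0 := b7m_adjugate hn _ hE
  obtain ⟨i0, j0, hij⟩ : ∃ i j, (M.map π).adjugate i j ≠ 0 := by
    by_contra h
    push Not at h
    exact hadj (by ext i j; exact h i j)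
  have hadjπ : ∀ i j, π (M.adjugate i j) = (M.map π).adjugate i j := by
    intro i j
    have := RingHom.map_adjugate π M
    rw [RingHom.mapMatrix_apply, RingHom.mapMatrix_apply] at this
    rw [← this, Matrix.map_apply]
  have hMy : ∀ i, AdjoinRoot.root G * M.adjugate i j0 -
      ∑ j, adj (AdjoinRoot G) b i j * M.adjugate j j0 =
      4 * (s1 * s2 * if i = j0 then 1 else 0) := by
    intro i
    have h1 := congrFun (congrFun (Matrix.mul_adjugate M) i) j0
    rw [hdet] at h1
    have h2 : (M * M.adjugate) i j0 = AdjoinRoot.root G * M.adjugate i j0 -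
        ∑ j, adj (AdjoinRoot G) b i j * M.adjugate j j0 := by
      conv_lhs => rw [hM]
      rw [Matrix.sub_mul, Matrix.sub_apply, Matrix.scalar_apply, Matrix.diagonal_mul]
      rfl
    rw [← h2, h1, Matrix.smul_apply, Matrix.one_apply, smul_eq_mul]
    ring
  refine ⟨fun i => π (M.adjugate i j0), ?_, fun c hc => ?_⟩
  · intro h
    have := congrFun h i0
    rw [hadjπ] at this
    exact hij this
  · obtain ⟨c', rfl⟩ := hsurj c
    have hy : ∀ i, AdjoinRoot.root G * (c' * M.adjugate i j0) -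
        ∑ j, adj (AdjoinRoot G) b i j * (c' * M.adjugate j j0) =
        4 * (c' * (s1 * s2 * if i = j0 then 1 else 0)) := by
      intro i
      have h1 := hMy i
      have h2 : ∑ j, adj (AdjoinRoot G) b i j * (c' * M.adjugate j j0) =
          c' * ∑ j, adj (AdjoinRoot G) b i j * M.adjugate j j0 := by
        rw [Finset.mul_sum]
        exact Finset.sum_congr rfl fun j _ => by ring
      rw [h2]
      linear_combination c' * h1
    have hsum := hs b (fun i => c' * M.adjugate i j0) _ hy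
    simp only [map_mul] at hsum
    refine ⟨?_, hsum⟩
    have h1 : (M.map π).mulVec (fun i => π c' * π (M.adjugate i j0)) = 0 := by
      ext i
      have h2 := congrArg π (hy i)
      have h3 : (4 : AdjoinRoot g) = 0 := by
        have : (4 : AdjoinRoot g) = 2 * 2 := by norm_num
        rw [this, hπ2, zero_mul]
      rw [map_mul, map_ofNat, h3, zero_mul, map_sub, map_sum, map_mul, hπroot, map_mul] at h2
      rw [hMπ, Matrix.sub_mulVec, Pi.sub_apply, Matrix.scalar_apply, Matrix.mulVec_diagonal]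
      refine Eq.trans ?_ h2
      congr 1
      show ∑ j, adj (AdjoinRoot g) b i j * (π c' * π (M.adjugate j j0)) = _
      refine Finset.sum_congr rfl fun j _ => ?_
      rw [map_mul, map_mul, ← b7m_adj_map π b, Matrix.map_apply]
    exact (hNv _).1 h1

end Pool.H64.IR
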