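import Pool.Agent.H64.IR.A2M
import Pool.Agent.H64.IR.B2M
import Pool.Agent.H64.IR.B7M

/-! MODULE B8M (project MP_a758cf_pr, IR; overview: team-store H64_a758cf.md)
Probability of the two conditions for fixed v /= 0 in K^n and s in K. Choose a basis e of K over F_2 and V i a = (e (v i)) a (n x k). A v = x v says A V = V C (C = matrix of multiplication by x), V has full rank
(a linear functional killing all v_i kills the F[x]-module generated, so it is 0). By characters of K^n x K:
pr = 2^(-nk-k) sum over (Z, lam) +-1 * E_b prod (-1)^{b_ij (z_i.V_j + z_j.V_i + Tr(lam v_i v_j))}, so pr <= 2^(-nk-k) #{(Z,lam) : z_i.V_j + z_j.V_i + Tr_lam(v_i v_j) = 0 for all i<j}, Z in F_2^{n x k}, lam in the dual of K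
(2^k functionals Tr_lam). For fixed lam the number of Z is 0 or 2^(k(k+1)/2) (Z = V B, B symmetric, as in A2M). If only lam = 0 is solvable: pr <= 2^(-nk-k) 2^(k(k+1)/2); always pr <= 2^(-nk) 2^(k(k+1)/2).
If some lam /= 0 is solvable then Exc V: put L_ab = Tr_lam(e_a e_b), T = V L Vᵀ + Z Vᵀ + V Zᵀ is zero off the diagonal, with diagonal t_i = Tr_lam(v_i^2) = (V d)_i, d_a = L_aa = Tr_lam(e_a^2), d /= 0 since the
squares e_a^2 span K; w = V d in col V, w /= 0. For y,y' with Vᵀ y = Vᵀ y' = 0: 0 = yᵀ T y' = sum w_i y_i y'_i; so w y is orthogonal to (col V)^perp, i.e. w y in col V.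
Moreover the probability is 0 unless Vᵀ V = 0: A V = V C implies Vᵀ V C = Vᵀ A V alternating, which implies VᵀV = 0 (argument of b2m in the basis e; take the power basis so that C = comp g up to transposition
conventions: V C with row vectors V_i = coordinates of v_i in 1,x,..,x^(k-1), x v_i has coordinates V_i C).
-/

set_option autoImplicit false
set_option linter.unusedSectionVars false
set_option linter.style.haveILetI false

namespace Pool.H64.IR

open Finset Polynomial

/-- exceptional matrices -/
def Exc {n k : ℕ} (V : Matrix (Fin n) (Fin k) (ZMod 2)) : Prop :=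
  ∃ w ∈ Submodule.span (ZMod 2) (Set.range fun a : Fin k => fun i : Fin n => V i a), w ≠ 0 ∧
    ∀ y : Fin n → ZMod 2, (∀ a : Fin k, ∑ i, V i a * y i = 0) →
      (fun i => w i * y i) ∈ Submodule.span (ZMod 2) (Set.range fun a : Fin k => fun i : Fin n => V i a)

section b8maux

variable {n : ℕ}

/-- symmetric matrix with zero diagonal and entries in the field -/
def b8mA (c : Edge n → ZMod 2) : Matrix (Fin n) (Fin n) (ZMod 2) :=
  Matrix.of fun i j =>
    if h : i < j then c ⟨(i, j), h⟩ else if h : j < i then c ⟨(j, i), h⟩ else 0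

/-- bits as elements of the field -/
def b8mz (b : Edge n → Bool) : Edge n → ZMod 2 := fun e => if b e then 1 else 0

theorem b8m_adj (b : Edge n → Bool) : adj (ZMod 2) b = b8mA (b8mz b) := by
  ext i j
  simp only [adj, b8mA, b8mz, Matrix.of_apply]

theorem b8mA_add (c c' : Edge n → ZMod 2) : b8mA (c + c') = b8mA c + b8mA c' := by
  ext i j
  simp only [b8mA, Matrix.of_apply, Matrix.add_apply, Pi.add_apply]
  split_ifs <;> simp

theorem b8mA_smul (t : ZMod 2) (c : Edge n → ZMod 2) : b8mA (t • c) = t • b8mA c := by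
  ext i j
  simp only [b8mA, Matrix.of_apply, Matrix.smul_apply, Pi.smul_apply]
  split_ifs <;> simp

theorem b8mA_symm (c : Edge n → ZMod 2) (i j : Fin n) : b8mA c i j = b8mA c j i := by
  simp only [b8mA, Matrix.of_apply]
  rcases lt_trichotomy i j with h | h | h
  · rw [dif_pos h, dif_neg (not_lt.2 h.le), dif_pos h]
  · subst h; rfl
  · rw [dif_neg (not_lt.2 h.le), dif_pos h, dif_pos h]

theorem b8mz_xor (b u : Edge n → Bool) : b8mz (fun e => xor (b e) (u e)) = b8mz b + b8mz u := by
  funext e
  have h : ∀ x y : Bool, (if xor x y then (1 : ZMod 2) else 0) =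
      (if x then 1 else 0) + (if y then 1 else 0) := by decide
  exact h (b e) (u e)

theorem b8mz_surj (c : Edge n → ZMod 2) : ∃ b : Edge n → Bool, b8mz b = c := by
  refine ⟨fun e => decide (c e = 1), ?_⟩
  funext e
  simp only [b8mz, decide_eq_true_eq]
  have : ∀ x : ZMod 2, (if x = 1 then (1 : ZMod 2) else 0) = x := by decide
  exact this (c e)

variable {K : Type} [Field K] [Algebra (ZMod 2) K]

/-- the linear map `c ↦ A_c V` -/
def b8mL1 {k : ℕ} (V : Matrix (Fin n) (Fin k) (ZMod 2)) :
    (Edge n → ZMod 2) →ₗ[ZMod 2] Matrix (Fin n) (Fin k) (ZMod 2) where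
  toFun c := b8mA c * V
  map_add' c c' := by rw [b8mA_add, Matrix.add_mul]
  map_smul' t c := by rw [b8mA_smul, Matrix.smul_mul]; rfl

/-- the linear map `c ↦ ∑ c_ij v_i v_j` -/
noncomputable def b8mL2 (v : Fin n → K) : (Edge n → ZMod 2) →ₗ[ZMod 2] K where
  toFun c := ∑ e : Edge n, c e • (v e.1.1 * v e.1.2)
  map_add' c c' := by
    rw [← Finset.sum_add_distrib]
    exact Finset.sum_congr rfl fun e _ => add_smul _ _ _
  map_smul' t c := by
    rw [RingHom.id_apply, Finset.smul_sum]
    exact Finset.sum_congr rfl fun e _ => by rw [Pi.smul_apply, smul_assoc]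

theorem b8mL2_bits (v : Fin n → K) (b : Edge n → Bool) :
    (∑ ed : Edge n, if b ed then v ed.1.1 * v ed.1.2 else 0) = b8mL2 v (b8mz b) := by
  show _ = ∑ e : Edge n, b8mz b e • (v e.1.1 * v e.1.2)
  refine Finset.sum_congr rfl fun e _ => ?_
  by_cases h : b e <;> simp [b8mz, h]

theorem b8m_single {k : ℕ} (V : Matrix (Fin n) (Fin k) (ZMod 2)) (i j : Fin n) (h : i < j) (q : Fin n)
    (a : Fin k) : b8mL1 V (Pi.single ⟨(i, j), h⟩ 1) q a =
      (if q = i then V j a else 0) + (if q = j then V i a else 0) := by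
  show (b8mA (Pi.single ⟨(i, j), h⟩ 1) * V) q a = _
  rw [Matrix.mul_apply]
  have hent : ∀ r : Fin n, b8mA (Pi.single (⟨(i, j), h⟩ : Edge n) (1 : ZMod 2)) q r =
      (if q = i ∧ r = j then 1 else 0) + (if q = j ∧ r = i then 1 else 0) := by
    intro r
    simp only [b8mA, Matrix.of_apply, Pi.single_apply, Subtype.mk.injEq, Prod.mk.injEq]
    rcases lt_trichotomy q r with h1 | h1 | h1
    · rw [dif_pos h1]
      have : ¬ (q = j ∧ r = i) := by
        rintro ⟨rfl, rfl⟩
        exact absurd h (not_lt.2 h1.le)
      rw [if_neg this, add_zero]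
    · rw [dif_neg (h1 ▸ lt_irrefl _), dif_neg (h1 ▸ lt_irrefl _)]
      have h2 : ¬ (q = i ∧ r = j) := by
        rintro ⟨rfl, rfl⟩
        exact absurd h (h1 ▸ lt_irrefl _)
      have h3 : ¬ (q = j ∧ r = i) := by
        rintro ⟨rfl, rfl⟩
        exact absurd h (h1 ▸ lt_irrefl _)
      rw [if_neg h2, if_neg h3, add_zero]
    · rw [dif_neg (not_lt.2 h1.le), dif_pos h1]
      have h2 : ¬ (q = i ∧ r = j) := by
        rintro ⟨rfl, rfl⟩
        exact absurd h (not_lt.2 h1.le)
      rw [if_neg h2, zero_add]
      refine if_congr ?_ rfl rfl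
      exact and_comm
  simp only [hent, add_mul, ite_mul, one_mul, zero_mul]
  rw [Finset.sum_add_distrib]
  congr 1
  · by_cases hq : q = i
    · simp [hq]
    · simp [hq]
  · by_cases hq : q = j
    · simp [hq]
    · simp [hq]

/-- surjectivity of the second map on the kernel of the first -/
theorem b8m_surj [Finite K] {k : ℕ} (e : K ≃ₗ[ZMod 2] (Fin k → ZMod 2)) (v : Fin n → K)
    (hfull : FullRank (Matrix.of fun (i : Fin n) (a : Fin k) => e (v i) a))
    (hexc : ¬ Exc (Matrix.of fun (i : Fin n) (a : Fin k) => e (v i) a)) (t : K) :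
    ∃ c : Edge n → ZMod 2, b8mL1 (Matrix.of fun (i : Fin n) (a : Fin k) => e (v i) a) c = 0 ∧
      b8mL2 v c = t := by
  haveI : CharP K 2 := charP_of_injective_algebraMap (algebraMap (ZMod 2) K).injective 2
  set V : Matrix (Fin n) (Fin k) (ZMod 2) := Matrix.of fun (i : Fin n) (a : Fin k) => e (v i) a
    with hV
  have hVapp : ∀ i a, V i a = e (v i) a := fun _ _ => rfl
  by_contra hno
  apply hexc
  have hW : (LinearMap.ker (b8mL1 V)).map (b8mL2 v) < ⊤ := by
    rw [lt_top_iff_ne_top]
    intro htop
    have : t ∈ (LinearMap.ker (b8mL1 V)).map (b8mL2 v) := by rw [htop]; exact Submodule.mem_top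
    obtain ⟨c, hc, hct⟩ := Submodule.mem_map.1 this
    exact hno ⟨c, hc, hct⟩
  obtain ⟨lam, hlam0, hlam⟩ := Submodule.exists_le_ker_of_lt_top _ hW
  have hann : lam ∘ₗ b8mL2 v ∈ (LinearMap.ker (b8mL1 V)).dualAnnihilator := by
    rw [Submodule.mem_dualAnnihilator]
    intro c hc
    have : b8mL2 v c ∈ (LinearMap.ker (b8mL1 V)).map (b8mL2 v) := Submodule.mem_map_of_mem hc
    exact hlam this
  rw [← LinearMap.range_dualMap_eq_dualAnnihilator_ker] at hann
  obtain ⟨ζ, hζ⟩ := hann
  have hζ' : ∀ c, ζ (b8mL1 V c) = lam (b8mL2 v c) := fun c => by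
    have := congrArg (fun f : Module.Dual (ZMod 2) (Edge n → ZMod 2) => f c) hζ
    exact this
  -- the matrix of ζ
  set Z : Fin n → Fin k → ZMod 2 := fun i a => ζ (Matrix.single i a 1) with hZ
  have hζM : ∀ M : Matrix (Fin n) (Fin k) (ZMod 2), ζ M = ∑ i, ∑ a, Z i a * M i a := by
    intro M
    conv_lhs => rw [Matrix.matrix_eq_sum_single M]
    rw [map_sum]
    refine Finset.sum_congr rfl fun i _ => ?_
    rw [map_sum]
    refine Finset.sum_congr rfl fun a _ => ?_
    have : Matrix.single i a (M i a) = (M i a) • Matrix.single i a (1 : ZMod 2) := by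
      rw [Matrix.smul_single, smul_eq_mul, mul_one]
    rw [this, map_smul, smul_eq_mul, mul_comm]
  have hlt : ∀ i j : Fin n, i < j → lam (v i * v j) = ∑ a, Z i a * V j a + ∑ a, Z j a * V i a := by
    intro i j h
    have h1 := hζ' (Pi.single ⟨(i, j), h⟩ 1)
    have h2 : b8mL2 v (Pi.single ⟨(i, j), h⟩ 1) = v i * v j := by
      show ∑ e : Edge n, (Pi.single (⟨(i, j), h⟩ : Edge n) (1 : ZMod 2) : Edge n → ZMod 2) e •
        (v e.1.1 * v e.1.2) = _
      rw [Finset.sum_eq_single (⟨(i, j), h⟩ : Edge n)]
      · simp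
      · intro b _ hb
        rw [Pi.single_eq_of_ne hb, zero_smul]
      · intro h3
        exact absurd (Finset.mem_univ _) h3
    rw [h2, hζM] at h1
    rw [← h1]
    have h3 : ∀ q, ∑ a, Z q a * b8mL1 V (Pi.single ⟨(i, j), h⟩ 1) q a =
        (if q = i then ∑ a, Z q a * V j a else 0) + (if q = j then ∑ a, Z q a * V i a else 0) := by
      intro q
      simp only [b8m_single, mul_add, Finset.sum_add_distrib]
      congr 1
      · by_cases hq : q = i <;> simp [hq]
      · by_cases hq : q = j <;> simp [hq]
    rw [Finset.sum_congr rfl fun q _ => h3 q, Finset.sum_add_distrib]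
    simp
  have hne : ∀ i j : Fin n, i ≠ j → lam (v i * v j) = ∑ a, Z i a * V j a + ∑ a, Z j a * V i a := by
    intro i j h
    rcases lt_or_gt_of_ne h with h1 | h1
    · exact hlt i j h1
    · rw [mul_comm (v i) (v j), hlt j i h1, add_comm]
  have htwo : ∀ x : ZMod 2, x + x = 0 := by decide
  -- the quadratic functional
  have hsq : ∀ c : ZMod 2, c * c = c := by decide
  let q : K →ₗ[ZMod 2] ZMod 2 :=
    { toFun := fun y => lam (y * y)
      map_add' := by
        intro x y
        have : (x + y) * (x + y) = x * x + y * y := by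
          have h2 : x * y + x * y = 0 := CharTwo.add_self_eq_zero _
          calc (x + y) * (x + y) = x * x + y * y + (x * y + x * y) := by ring
            _ = _ := by rw [h2, add_zero]
        rw [this, map_add]
      map_smul' := by
        intro c x
        rw [smul_mul_smul_comm, hsq, map_smul]
        rfl }
  have hq : ∀ y, q y = lam (y * y) := fun _ => rfl
  have hq0 : q ≠ 0 := by
    intro h
    apply hlam0
    ext y
    obtain ⟨r, hr⟩ := FiniteField.isSquare_of_char_two (F := K) (ringChar.eq K 2) y
    rw [hr, ← hq, h]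
    rfl
  have hdecomp : ∀ y : K, q y = ∑ a, e y a * q (e.symm (Pi.single a 1)) := by
    intro y
    have h1 : y = ∑ a, e y a • e.symm (Pi.single a 1) := by
      apply e.injective
      rw [map_sum]
      simp only [map_smul, LinearEquiv.apply_symm_apply]
      funext b
      simp [Finset.sum_apply, Pi.single_apply]
    conv_lhs => rw [h1]
    rw [map_sum]
    exact Finset.sum_congr rfl fun a _ => by rw [map_smul, smul_eq_mul]
  refine ⟨fun i => q (v i), ?_, ?_, ?_⟩
  · have h1 : (fun i => q (v i)) = ∑ a, q (e.symm (Pi.single a 1)) • (fun i : Fin n => V i a) := by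
      funext i
      rw [Finset.sum_apply, hdecomp]
      exact Finset.sum_congr rfl fun a _ => by rw [Pi.smul_apply, smul_eq_mul, mul_comm]; rfl
    rw [h1]
    exact Submodule.sum_mem _ fun a _ => Submodule.smul_mem _ _ (Submodule.subset_span ⟨a, rfl⟩)
  · intro h0
    apply hq0
    have h1 : ∑ a, q (e.symm (Pi.single a 1)) • (fun i : Fin n => V i a) = 0 := by
      funext i
      have h2 : q (v i) = 0 := congrFun h0 i
      rw [Finset.sum_apply]
      rw [hdecomp] at h2
      refine Eq.trans ?_ h2
      exact Finset.sum_congr rfl fun a _ => by rw [Pi.smul_apply, smul_eq_mul, mul_comm]; rfl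
    have h3 := Fintype.linearIndependent_iff.1 hfull _ h1
    ext y
    rw [hdecomp]
    simp [h3]
  · intro y hy
    have hsum0 : ∑ j, y j • v j = 0 := by
      apply e.injective
      rw [map_sum, map_zero]
      funext a
      simp only [map_smul, Finset.sum_apply, Pi.smul_apply, smul_eq_mul, Pi.zero_apply]
      refine Eq.trans ?_ (hy a)
      exact Finset.sum_congr rfl fun i _ => mul_comm _ _
    have hkey : ∀ i, q (v i) * y i = ∑ a, V i a * ∑ j, Z j a * y j := by
      intro i
      have hT : ∀ j, (lam (v i * v j) + (∑ a, Z i a * V j a + ∑ a, Z j a * V i a)) * y j =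
          if j = i then q (v i) * y i else 0 := by
        intro j
        by_cases hj : j = i
        · subst hj
          rw [if_pos rfl, htwo, add_zero, hq]
        · rw [if_neg hj, hne i j (Ne.symm hj), htwo, zero_mul]
      have h1 : ∑ j, (lam (v i * v j) + (∑ a, Z i a * V j a + ∑ a, Z j a * V i a)) * y j =
          q (v i) * y i := by
        rw [Finset.sum_congr rfl fun j _ => hT j]
        simp
      rw [← h1]
      simp only [add_mul, Finset.sum_add_distrib]
      have h2 : ∑ j, lam (v i * v j) * y j = 0 := by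
        have h3 : ∑ j, lam (v i * v j) * y j = lam (v i * ∑ j, y j • v j) := by
          rw [Finset.mul_sum, map_sum]
          exact Finset.sum_congr rfl fun j _ => by
            rw [mul_smul_comm, map_smul, smul_eq_mul, mul_comm]
        rw [h3, hsum0, mul_zero, map_zero]
      have h4 : ∑ j, (∑ a, Z i a * V j a) * y j = 0 := by
        simp only [Finset.sum_mul]
        rw [Finset.sum_comm]
        refine Finset.sum_eq_zero fun a _ => ?_
        have h5 : ∑ j, Z i a * V j a * y j = Z i a * ∑ j, V j a * y j := by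
          rw [Finset.mul_sum]
          exact Finset.sum_congr rfl fun j _ => mul_assoc _ _ _
        rw [h5, hy a, mul_zero]
      rw [h2, h4, zero_add, zero_add]
      simp only [Finset.sum_mul, Finset.mul_sum]
      rw [Finset.sum_comm]
      refine Finset.sum_congr rfl fun a _ => Finset.sum_congr rfl fun j _ => ?_
      ring
    have h6 : (fun i => q (v i) * y i) =
        ∑ a, (∑ j, Z j a * y j) • (fun i : Fin n => V i a) := by
      funext i
      rw [hkey, Finset.sum_apply]
      exact Finset.sum_congr rfl fun a _ => by rw [Pi.smul_apply, smul_eq_mul, mul_comm]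
    show (fun i => q (v i) * y i) ∈ _
    rw [h6]
    exact Submodule.sum_mem _ fun a _ => Submodule.smul_mem _ _ (Submodule.subset_span ⟨a, rfl⟩)

/-- the counting part -/
theorem b8m_count {k : ℕ} (e : K ≃ₗ[ZMod 2] (Fin k → ZMod 2)) (v : Fin n → K)
    (V : Matrix (Fin n) (Fin k) (ZMod 2))
    (hs : ∀ t : K, ∃ c : Edge n → ZMod 2, b8mL1 V c = 0 ∧ b8mL2 v c = t)
    (Y : Matrix (Fin n) (Fin k) (ZMod 2)) (s : K) :
    pr (fun b : Edge n → Bool => adj (ZMod 2) b * V = Y ∧ b8mL2 v (b8mz b) = s) ≤
      pr (fun b : Edge n → Bool => adj (ZMod 2) b * V = Y) * (1 / (2 : ℝ) ^ k) := by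
  haveI : CharP K 2 := charP_of_injective_algebraMap (algebraMap (ZMod 2) K).injective 2
  have hu : ∀ z : Fin k → ZMod 2, ∃ u : Edge n → Bool, b8mL1 V (b8mz u) = 0 ∧
      b8mL2 v (b8mz u) = e.symm z := by
    intro z
    obtain ⟨c, hc1, hc2⟩ := hs (e.symm z)
    obtain ⟨u, rfl⟩ := b8mz_surj c
    exact ⟨u, hc1, hc2⟩
  choose u hu1 hu2 using hu
  unfold pr avg
  rw [div_mul_eq_mul_div]
  refine div_le_div_of_nonneg_right ?_ (Nat.cast_nonneg _)
  rw [mul_one_div, le_div_iff₀ (by positivity)]
  let P : (Edge n → Bool) → Prop := fun b => adj (ZMod 2) b * V = Y ∧ b8mL2 v (b8mz b) = s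
  let Q : (Edge n → Bool) → Prop := fun b => adj (ZMod 2) b * V = Y
  have hshift : ∀ z : Fin k → ZMod 2, ∑ b : Edge n → Bool, ind (P b) =
      ∑ b : Edge n → Bool, ind (P (fun ed => xor (b ed) (u z ed))) := by
    intro z
    let σ : (Edge n → Bool) ≃ (Edge n → Bool) :=
      { toFun := fun b ed => xor (b ed) (u z ed)
        invFun := fun b ed => xor (b ed) (u z ed)
        left_inv := fun b => by funext ed; simp
        right_inv := fun b => by funext ed; simp }
    exact (Equiv.sum_comp σ (fun b => ind (P b))).symm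
  have hcard : ((2 : ℝ) ^ k) = ∑ z : Fin k → ZMod 2, (1 : ℝ) := by
    rw [Finset.sum_const, Finset.card_univ, nsmul_eq_mul, mul_one, Fintype.card_fun, Fintype.card_fin,
      ZMod.card]
    push_cast
    rfl
  show (∑ b : Edge n → Bool, ind (P b)) * (2 : ℝ) ^ k ≤ ∑ b : Edge n → Bool, ind (Q b)
  calc (∑ b : Edge n → Bool, ind (P b)) * (2 : ℝ) ^ k =
      ∑ z : Fin k → ZMod 2, ∑ b : Edge n → Bool, ind (P b) := by
        rw [hcard, Finset.mul_sum]
        exact Finset.sum_congr rfl fun z _ => mul_one _
    _ = ∑ z : Fin k → ZMod 2, ∑ b : Edge n → Bool, ind (P (fun ed => xor (b ed) (u z ed))) :=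
        Finset.sum_congr rfl fun z _ => hshift z
    _ = ∑ b : Edge n → Bool, ∑ z : Fin k → ZMod 2, ind (P (fun ed => xor (b ed) (u z ed))) :=
        Finset.sum_comm
    _ ≤ ∑ b : Edge n → Bool, ind (Q b) := by
        refine Finset.sum_le_sum fun b _ => ?_
        have hP : ∀ z, P (fun ed => xor (b ed) (u z ed)) → Q b ∧ z = e (s - b8mL2 v (b8mz b)) := by
          rintro z ⟨h1, h2⟩
          rw [b8m_adj, b8mz_xor, b8mA_add, Matrix.add_mul] at h1
          have h3 : b8mA (b8mz (u z)) * V = 0 := hu1 z
          rw [h3, add_zero, ← b8m_adj] at h1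
          refine ⟨h1, ?_⟩
          rw [b8mz_xor, map_add, hu2] at h2
          have h4 : e.symm z = s - b8mL2 v (b8mz b) := by
            rw [← h2]
            ring
          rw [← h4, LinearEquiv.apply_symm_apply]
        by_cases hQ : Q b
        · rw [ind_true hQ]
          refine (Finset.sum_le_sum (g := fun z => if z = e (s - b8mL2 v (b8mz b)) then (1 : ℝ) else 0)
            fun z _ => ?_).trans ?_
          · by_cases hz : P (fun ed => xor (b ed) (u z ed))
            · rw [if_pos (hP z hz).2]
              exact ind_le_one _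
            · rw [ind_false hz]
              split_ifs <;> norm_num
          · simp
        · rw [ind_false hQ]
          refine le_of_eq (Finset.sum_eq_zero fun z _ => ?_)
          exact ind_false fun hz => hQ (hP z hz).1

end b8maux

/-- the functional basis: `e v = (λ (x^a v))_a`; in this basis multiplication by the root acts on
row vectors by the companion matrix -/
theorem b8m_basis (g : (ZMod 2)[X]) (hg : g.Monic) (hi : Irreducible g) :
    ∃ e : AdjoinRoot g ≃ₗ[ZMod 2] (Fin g.natDegree → ZMod 2), ∀ (y : AdjoinRoot g) (a : Fin g.natDegree),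
      e (AdjoinRoot.root g * y) a = ∑ j, e y j * comp g j a := by
  haveI : Fact (Irreducible g) := ⟨hi⟩
  haveI hfin : Module.Finite (ZMod 2) (AdjoinRoot g) := (AdjoinRoot.powerBasis' hg).finite
  have hdim : Module.finrank (ZMod 2) (AdjoinRoot g) = g.natDegree := by
    rw [(AdjoinRoot.powerBasis' hg).finrank, AdjoinRoot.powerBasis'_dim]
  obtain ⟨lam, hlam⟩ : ∃ lam : AdjoinRoot g →ₗ[ZMod 2] ZMod 2, lam ≠ 0 := by
    obtain ⟨f, hf, -⟩ := Submodule.exists_le_ker_of_lt_top
      (⊥ : Submodule (ZMod 2) (AdjoinRoot g)) bot_lt_top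
    exact ⟨f, hf⟩
  let f : AdjoinRoot g →ₗ[ZMod 2] (Fin g.natDegree → ZMod 2) :=
    LinearMap.pi fun a => lam ∘ₗ LinearMap.mulLeft (ZMod 2) (AdjoinRoot.root g ^ (a : ℕ))
  have hf : ∀ y a, f y a = lam (AdjoinRoot.root g ^ (a : ℕ) * y) := fun _ _ => rfl
  -- reduction of `x^k`
  have hroot : ∀ y : AdjoinRoot g, AdjoinRoot.root g ^ g.natDegree * y =
      ∑ j : Fin g.natDegree, (-g.coeff j) • (AdjoinRoot.root g ^ (j : ℕ) * y) := by
    intro y
    have h1 : Polynomial.aeval (AdjoinRoot.root g) g = 0 := by
      rw [AdjoinRoot.aeval_eq, AdjoinRoot.mk_self]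
    rw [Polynomial.aeval_eq_sum_range, Finset.sum_range_succ, hg.coeff_natDegree, one_smul] at h1
    have h2 : AdjoinRoot.root g ^ g.natDegree =
        ∑ j ∈ Finset.range g.natDegree, (-g.coeff j) • AdjoinRoot.root g ^ j := by
      rw [eq_neg_of_add_eq_zero_right h1, ← Finset.sum_neg_distrib]
      exact Finset.sum_congr rfl fun j _ => (neg_smul _ _).symm
    rw [h2, Finset.sum_mul, Finset.sum_range]
    exact Finset.sum_congr rfl fun j _ => smul_mul_assoc _ _ _
  have hall : ∀ y : AdjoinRoot g, f y = 0 → ∀ m : ℕ, lam (AdjoinRoot.root g ^ m * y) = 0 := by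
    intro y hy m
    induction m using Nat.strong_induction_on with
    | _ m ih =>
      by_cases hm : m < g.natDegree
      · have := congrFun hy ⟨m, hm⟩
        rw [hf] at this
        exact this
      · have h1 : AdjoinRoot.root g ^ m * y =
            AdjoinRoot.root g ^ g.natDegree * (AdjoinRoot.root g ^ (m - g.natDegree) * y) := by
          rw [← mul_assoc, ← pow_add]
          congr 2
          omega
        rw [h1, hroot, map_sum]
        refine Finset.sum_eq_zero fun j _ => ?_
        rw [map_smul, ← mul_assoc, ← pow_add]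
        have h2 : (j : ℕ) + (m - g.natDegree) < m := by
          have := j.2
          omega
        rw [ih _ h2, smul_zero]
  have hinj : Function.Injective f := by
    rw [← LinearMap.ker_eq_bot, LinearMap.ker_eq_bot']
    intro y hy
    by_contra hy0
    apply hlam
    ext t
    have h1 : ∀ p : (ZMod 2)[X], lam (AdjoinRoot.mk g p * y) = 0 := by
      intro p
      induction p using Polynomial.induction_on' with
      | add p q hp hq => rw [map_add, add_mul, map_add, hp, hq, add_zero]
      | monomial m c =>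
        have h2 : AdjoinRoot.mk g (Polynomial.monomial m c) = c • AdjoinRoot.root g ^ m := by
          rw [← AdjoinRoot.aeval_eq, Polynomial.aeval_monomial, Algebra.smul_def]
        rw [h2, smul_mul_assoc, map_smul, hall y hy m, smul_zero]
    obtain ⟨p, hp⟩ := AdjoinRoot.mk_surjective (t * y⁻¹)
    have h3 := h1 p
    rw [hp, mul_assoc, inv_mul_cancel₀ hy0, mul_one] at h3
    rw [h3]
    rfl
  have hd2 : Module.finrank (ZMod 2) (AdjoinRoot g) =
      Module.finrank (ZMod 2) (Fin g.natDegree → ZMod 2) := by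
    rw [hdim, Module.finrank_fin_fun]
  refine ⟨LinearMap.linearEquivOfInjective f hinj hd2, ?_⟩
  intro y a
  rw [LinearMap.linearEquivOfInjective_apply]
  have happ : ∀ z, LinearMap.linearEquivOfInjective f hinj hd2 z = f z := fun z =>
    LinearMap.linearEquivOfInjective_apply hinj hd2 z
  simp only [happ]
  rw [hf, ← mul_assoc, ← pow_succ]
  by_cases ha : (a : ℕ) + 1 = g.natDegree
  · rw [ha, hroot, map_sum]
    refine Finset.sum_congr rfl fun j _ => ?_
    have : comp g j a = - g.coeff j := by
      simp only [comp, Matrix.of_apply, if_pos ha]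
    rw [map_smul, this, hf, smul_eq_mul, mul_comm]
  · have ha' : (a : ℕ) + 1 < g.natDegree := lt_of_le_of_ne a.2 ha
    rw [Finset.sum_eq_single (⟨(a : ℕ) + 1, ha'⟩ : Fin g.natDegree)]
    · have : comp g ⟨(a : ℕ) + 1, ha'⟩ a = 1 := by
        simp only [comp, Matrix.of_apply, if_neg ha, if_true]
      rw [this, mul_one, hf]
    · intro j _ hj
      have : comp g j a = 0 := by
        simp only [comp, Matrix.of_apply, if_neg ha]
        rw [if_neg]
        intro h
        exact hj (Fin.ext h)
      rw [this, mul_zero]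
    · intro h
      exact absurd (Finset.mem_univ _) h

theorem b8m (n : ℕ) (g : (ZMod 2)[X]) (hg : g.Monic) (hi : Irreducible g) (hk : 2 ≤ g.natDegree) :
    ∃ e : AdjoinRoot g ≃ₗ[ZMod 2] (Fin g.natDegree → ZMod 2), ∀ (v : Fin n → AdjoinRoot g) (s : AdjoinRoot g), v ≠ 0 →
      pr (fun b : Edge n → Bool => (∀ i, ∑ j, (adj (ZMod 2) b i j) • v j = AdjoinRoot.root g * v i) ∧
        (∑ ed : Edge n, if b ed then v ed.1.1 * v ed.1.2 else 0) = s) ≤
      ind (FullRank (Matrix.of fun (i : Fin n) (a : Fin g.natDegree) => e (v i) a) ∧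
        (Matrix.of fun (i : Fin n) (a : Fin g.natDegree) => e (v i) a).transpose *
          (Matrix.of fun (i : Fin n) (a : Fin g.natDegree) => e (v i) a) = 0) *
        ((2 : ℝ) ^ (g.natDegree * (g.natDegree + 1) / 2) / ((2 : ℝ) ^ n) ^ g.natDegree) *
        (1 / (2 : ℝ) ^ g.natDegree + ind (Exc (Matrix.of fun (i : Fin n) (a : Fin g.natDegree) => e (v i) a))) := by
  haveI : Fact (Irreducible g) := ⟨hi⟩
  haveI hfin : Module.Finite (ZMod 2) (AdjoinRoot g) := (AdjoinRoot.powerBasis' hg).finite
  haveI hfin2 : Finite (AdjoinRoot g) := Module.finite_of_finite (ZMod 2)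
  obtain ⟨e, he⟩ := b8m_basis g hg hi
  refine ⟨e, fun v s hv => ?_⟩
  set V : Matrix (Fin n) (Fin g.natDegree) (ZMod 2) :=
    Matrix.of fun (i : Fin n) (a : Fin g.natDegree) => e (v i) a with hV
  have hVapp : ∀ i a, V i a = e (v i) a := fun _ _ => rfl
  have hev : ∀ b : Edge n → Bool, (∀ i, ∑ j, (adj (ZMod 2) b i j) • v j = AdjoinRoot.root g * v i) →
      adj (ZMod 2) b * V = V * comp g := by
    intro b hb
    ext i a
    rw [Matrix.mul_apply, Matrix.mul_apply]
    have h1 := congrArg (fun y => e y a) (hb i)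
    simp only [map_sum, Finset.sum_apply, map_smul, Pi.smul_apply, smul_eq_mul] at h1
    rw [he] at h1
    exact h1
  have hD0 : (0 : ℝ) ≤ (2 : ℝ) ^ (g.natDegree * (g.natDegree + 1) / 2) / ((2 : ℝ) ^ n) ^ g.natDegree := by
    positivity
  by_cases hex : ∃ b : Edge n → Bool,
      (∀ i, ∑ j, (adj (ZMod 2) b i j) • v j = AdjoinRoot.root g * v i)
  · obtain ⟨b0, hb0⟩ := hex
    -- full rank
    have hfull : FullRank V := by
      unfold FullRank
      rw [Fintype.linearIndependent_iff]
      intro c hc
      let mu : AdjoinRoot g →ₗ[ZMod 2] ZMod 2 :=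
        { toFun := fun y => ∑ a, c a * e y a
          map_add' := by
            intro x y
            rw [← Finset.sum_add_distrib]
            exact Finset.sum_congr rfl fun a _ => by rw [map_add, Pi.add_apply, mul_add]
          map_smul' := by
            intro t x
            rw [RingHom.id_apply, Finset.smul_sum]
            exact Finset.sum_congr rfl fun a _ => by
              rw [map_smul, Pi.smul_apply, smul_eq_mul, smul_eq_mul]; ring }
      have hmu : ∀ y, mu y = ∑ a, c a * e y a := fun _ => rfl
      have hmv : ∀ i, mu (v i) = 0 := by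
        intro i
        have h1 := congrFun hc i
        rw [Finset.sum_apply] at h1
        rw [hmu]
        exact h1
      have hpow : ∀ m : ℕ, ∀ i, mu (AdjoinRoot.root g ^ m * v i) = 0 := by
        intro m
        induction m with
        | zero => intro i; rw [pow_zero, one_mul]; exact hmv i
        | succ m ih =>
          intro i
          rw [pow_succ, mul_assoc, ← hb0 i, Finset.mul_sum, map_sum]
          refine Finset.sum_eq_zero fun j _ => ?_
          rw [mul_smul_comm, map_smul, ih j, smul_zero]
      obtain ⟨i0, hi0⟩ : ∃ i, v i ≠ 0 := by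
        by_contra hno
        push Not at hno
        exact hv (funext hno)
      have hpoly : ∀ p : (ZMod 2)[X], mu (AdjoinRoot.mk g p * v i0) = 0 := by
        intro p
        induction p using Polynomial.induction_on' with
        | add p q hp hq => rw [map_add, add_mul, map_add, hp, hq, add_zero]
        | monomial m c =>
          have h2 : AdjoinRoot.mk g (Polynomial.monomial m c) = c • AdjoinRoot.root g ^ m := by
            rw [← AdjoinRoot.aeval_eq, Polynomial.aeval_monomial, Algebra.smul_def]
          rw [h2, smul_mul_assoc, map_smul, hpow, smul_zero]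
      have hmu0 : ∀ t, mu t = 0 := by
        intro t
        obtain ⟨p, hp⟩ := AdjoinRoot.mk_surjective (t * (v i0)⁻¹)
        have h3 := hpoly p
        rw [hp, mul_assoc, inv_mul_cancel₀ hi0, mul_one] at h3
        exact h3
      intro a
      have h4 := hmu0 (e.symm (Pi.single a 1))
      rw [hmu] at h4
      simpa [Pi.single_apply] using h4
    have hpr := a2m_pr (n := n) V (V * comp g) hfull
    rw [Fintype.card_fin] at hpr
    -- alternating
    have hpos : 0 < pr (fun b : Edge n → Bool => adj (ZMod 2) b * V = V * comp g) := by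
      unfold pr avg
      refine div_pos ?_ (by exact_mod_cast Fintype.card_pos)
      refine lt_of_lt_of_le zero_lt_one ?_
      calc (1 : ℝ) = ind (adj (ZMod 2) b0 * V = V * comp g) := (ind_true (hev b0 hb0)).symm
        _ ≤ _ := Finset.single_le_sum
          (f := fun b : Edge n → Bool => ind (adj (ZMod 2) b * V = V * comp g))
          (fun _ _ => ind_nonneg _) (Finset.mem_univ b0)
    have halt : IsAlt (V.transpose * (V * comp g)) := by
      by_contra hno
      rw [hpr, ind_false hno, zero_mul] at hpos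
      exact lt_irrefl _ hpos
    have hVV : V.transpose * V = 0 := by
      refine b2m g hg hi hk (V.transpose * V) ?_ ?_
      · show (V.transpose * V).transpose = _
        rw [Matrix.transpose_mul, Matrix.transpose_transpose]
      · rw [Matrix.mul_assoc]
        exact halt
    rw [ind_true ⟨hfull, hVV⟩, one_mul]
    rw [ind_true halt, one_mul] at hpr
    have hmono : pr (fun b : Edge n → Bool =>
        (∀ i, ∑ j, (adj (ZMod 2) b i j) • v j = AdjoinRoot.root g * v i) ∧
        (∑ ed : Edge n, if b ed then v ed.1.1 * v ed.1.2 else 0) = s) ≤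
        pr (fun b : Edge n → Bool => adj (ZMod 2) b * V = V * comp g ∧ b8mL2 v (b8mz b) = s) := by
      refine pr_mono fun b hb => ⟨hev b hb.1, ?_⟩
      rw [← b8mL2_bits]
      exact hb.2
    refine hmono.trans ?_
    by_cases hexc : Exc V
    · rw [ind_true hexc]
      refine (pr_mono (fun b (hb : adj (ZMod 2) b * V = V * comp g ∧ b8mL2 v (b8mz b) = s) => hb.1)).trans ?_
      rw [hpr]
      refine le_mul_of_one_le_right hD0 ?_
      have : (0 : ℝ) ≤ 1 / 2 ^ g.natDegree := by positivity
      linarith
    · rw [ind_false hexc, add_zero, ← hpr]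
      exact b8m_count e v V (b8m_surj e v hfull hexc) _ _
  · have hzero : pr (fun b : Edge n → Bool =>
        (∀ i, ∑ j, (adj (ZMod 2) b i j) • v j = AdjoinRoot.root g * v i) ∧
        (∑ ed : Edge n, if b ed then v ed.1.1 * v ed.1.2 else 0) = s) = 0 := by
      unfold pr avg
      rw [Finset.sum_eq_zero, zero_div]
      intro b _
      exact ind_false fun h => hex ⟨b, h.1⟩
    rw [hzero]
    refine mul_nonneg (mul_nonneg (ind_nonneg _) hD0) (add_nonneg (by positivity) (ind_nonneg _))

end Pool.H64.IR
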