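import Pool.Agent.H64.IR.B8M
import Pool.Agent.H64.IR.B3M

/-! MODULE B9M (project MP_a758cf_pr, IR; overview: team-store H64_a758cf.md)
Exceptional isotropic frames are rare: for 2k <= (1-d) n and n >= n0: Exc count <= eps 2^(nk)/2^(k(k+1)/2).
Let V be exceptional with w, s = supp w nonempty, W = col V, F^s = vectors supported on s. For y in W^perp: w y = y|_s in W, so proj_s(W^perp) <= U := W inf F^s. Since proj_s(W^perp) is the orthogonal of U inside
F^s, card s - dim U <= dim U, and U is isotropic: dim U <= card s/2. So card s = 2m, m = dim U >= 1 (m <= k).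
Count for fixed s, card s = 2m: pairs (V, Uc), Uc : k x m of full rank with all columns of V Uc in F^s: every such V has at least card GL_m(F_2) >= 2^(m^2)/4 of them (Matrix.card_GL_field; prod (1-2^-i) >= 1/4), and for
fixed Uc, extending Uc to an invertible matrix: at most prod_{j<m} 2^(2m-j) * prod_{j=m}^{k-1} 2^(n-j) frames (each new vector orthogonal to the previous ones). So the number of V is at most
4 * 2^(-m^2 + km + 2m^2 - m(m-1)/2 + n(k-m) - k(k-1)/2 + m(m-1)/2) = 4 * 2^(km + m^2 - nm + k) * 2^(nk)/2^(k(k+1)/2).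
Sum over s (at most n^(2m) sets) and m = 1..k: exponent m^2 - m(n-k) + k + 2 m log2 n is convex in m: m = 1 gives 1 - (n - 2k) + 2 log2 n, m = k gives -k(n-2k-1-2 log2 n); both <= 1 - d n + 2 log2 n for n large. Total <=
4 k 2^(1 - d n) n^2 <= eps.
-/

set_option autoImplicit false

namespace Pool.H64.IR

open Finset Polynomial

/-- the orthogonal complement for the dot product -/
def b9perp {n : ℕ} (S : Submodule (ZMod 2) (Fin n → ZMod 2)) : Submodule (ZMod 2) (Fin n → ZMod 2) :=
  S.dualAnnihilator.comap (dotProductEquiv (ZMod 2) (Fin n)).toLinearMap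

theorem mem_b9perp {n : ℕ} (S : Submodule (ZMod 2) (Fin n → ZMod 2)) (y : Fin n → ZMod 2) :
    y ∈ b9perp S ↔ ∀ x ∈ S, dotProduct x y = 0 := by
  unfold b9perp
  rw [Submodule.mem_comap, Submodule.mem_dualAnnihilator]
  refine forall_congr' fun x => forall_congr' fun _ => ?_
  simp [dotProduct_comm]

theorem finrank_b9perp {n : ℕ} (S : Submodule (ZMod 2) (Fin n → ZMod 2)) :
    Module.finrank (ZMod 2) S + Module.finrank (ZMod 2) (b9perp S) = n := by
  have h1 := Subspace.finrank_add_finrank_dualAnnihilator_eq S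
  rw [Module.finrank_fin_fun] at h1
  have h2 : Module.finrank (ZMod 2) (b9perp S) = Module.finrank (ZMod 2) S.dualAnnihilator := by
    unfold b9perp
    have h3 : S.dualAnnihilator.comap (dotProductEquiv (ZMod 2) (Fin n)).toLinearMap =
      S.dualAnnihilator.map (dotProductEquiv (ZMod 2) (Fin n)).symm.toLinearMap := by
      exact Submodule.comap_equiv_eq_map_symm _ _
    rw [h3]
    exact LinearEquiv.finrank_map_eq _ _
  rw [h2]
  exact h1

/-- vectors supported on `s` -/
def b9F {n : ℕ} (s : Finset (Fin n)) : Submodule (ZMod 2) (Fin n → ZMod 2) where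
  carrier := {x | ∀ i, i ∉ s → x i = 0}
  add_mem' := by
    intro x y hx hy i hi
    rw [Pi.add_apply, hx i hi, hy i hi, add_zero]
  zero_mem' := by intro i _; rfl
  smul_mem' := by
    intro c x hx i hi
    rw [Pi.smul_apply, hx i hi, smul_zero]

theorem mem_b9F {n : ℕ} (s : Finset (Fin n)) (x : Fin n → ZMod 2) :
    x ∈ b9F s ↔ ∀ i, i ∉ s → x i = 0 := Iff.rfl

theorem finrank_b9F {n : ℕ} (s : Finset (Fin n)) : Module.finrank (ZMod 2) (b9F s) = s.card := by
  classical
  let e : b9F s ≃ₗ[ZMod 2] (s → ZMod 2) :=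
    { toFun := fun x i => x.1 i.1
      map_add' := by intro x y; rfl
      map_smul' := by intro c x; rfl
      invFun := fun y => ⟨fun i => if h : i ∈ s then y ⟨i, h⟩ else 0, by
        intro i hi
        simp [hi]⟩
      left_inv := by
        intro x
        apply Subtype.ext
        funext i
        by_cases h : i ∈ s
        · simp [h]
        · simp only [h, dif_neg, not_false_eq_true]
          exact (x.2 i h).symm
      right_inv := by
        intro y
        funext i
        simp }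
  rw [e.finrank_eq, Module.finrank_fintype_fun_eq_card, Fintype.card_coe]

/-- multiplication by `w` -/
def b9mul {n : ℕ} (w : Fin n → ZMod 2) : (Fin n → ZMod 2) →ₗ[ZMod 2] (Fin n → ZMod 2) where
  toFun y := fun i => w i * y i
  map_add' := by intro x y; funext i; simp [mul_add]
  map_smul' := by
    intro c x
    funext i
    simp only [Pi.smul_apply, smul_eq_mul, RingHom.id_apply]
    ring

/-- structure of exceptional spaces: the support of `w` has at most `2 dim (W inf F^s)` elements -/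
theorem b9_struct {n : ℕ} (W : Submodule (ZMod 2) (Fin n → ZMod 2)) (w : Fin n → ZMod 2)
    (hw : ∀ y ∈ b9perp W, b9mul w y ∈ W) :
    (univ.filter fun i => w i ≠ 0).card ≤
      2 * Module.finrank (ZMod 2) (W ⊓ b9F (univ.filter fun i => w i ≠ 0) :
        Submodule (ZMod 2) (Fin n → ZMod 2)) := by
  classical
  set s := univ.filter fun i => w i ≠ 0 with hs
  -- image of the complement under multiplication by w
  have h1 : (b9perp W).map (b9mul w) ≤ W ⊓ b9F s := by
    rintro _ ⟨y, hy, rfl⟩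
    refine ⟨hw y hy, ?_⟩
    intro i hi
    have : w i = 0 := by
      by_contra h
      exact hi (by simp [hs, h])
    show w i * y i = 0
    rw [this, zero_mul]
  have h2 := Submodule.finrank_mono h1
  have h3 : Module.finrank (ZMod 2) ((b9perp W).map (b9mul w)) +
      Module.finrank (ZMod 2) (b9perp (W ⊔ b9F s)) = Module.finrank (ZMod 2) (b9perp W) := by
    have h4 := LinearMap.finrank_range_add_finrank_ker ((b9mul w).domRestrict (b9perp W))
    rw [LinearMap.range_domRestrict] at h4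
    rw [← h4]
    congr 1
    -- kernel
    have h5 : (LinearMap.ker ((b9mul w).domRestrict (b9perp W))).map (b9perp W).subtype =
        b9perp (W ⊔ b9F s) := by
      ext y
      rw [Submodule.mem_map, mem_b9perp]
      constructor
      · rintro ⟨z, hz, rfl⟩ x hx
        rw [LinearMap.mem_ker] at hz
        obtain ⟨a, ha, b, hb, rfl⟩ := Submodule.mem_sup.1 hx
        rw [add_dotProduct]
        have e1 : dotProduct a z.1 = 0 := (mem_b9perp W z.1).1 z.2 a ha
        have e2 : dotProduct b z.1 = 0 := by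
          refine Finset.sum_eq_zero fun i _ => ?_
          by_cases hi : i ∈ s
          · have e3 : w i * z.1 i = 0 := congrFun hz i
            have e4 : w i ≠ 0 := by simpa [hs] using hi
            rw [(mul_eq_zero.1 e3).resolve_left e4, mul_zero]
          · rw [hb i hi, zero_mul]
        simp only [Submodule.subtype_apply]
        rw [e1, e2, add_zero]
      · intro hy
        have hyW : y ∈ b9perp W := (mem_b9perp W y).2 fun x hx => hy x (Submodule.mem_sup_left hx)
        refine ⟨⟨y, hyW⟩, ?_, rfl⟩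
        rw [LinearMap.mem_ker]
        funext i
        show w i * y i = 0
        by_cases hi : i ∈ s
        · have e5 : (Pi.single i 1 : Fin n → ZMod 2) ∈ b9F s := by
            intro j hj
            rw [Pi.single_apply, if_neg]
            rintro rfl
            exact hj hi
          have e6 := hy _ (Submodule.mem_sup_right e5)
          rw [single_one_dotProduct] at e6
          rw [e6, mul_zero]
        · have : w i = 0 := by
            by_contra h
            exact hi (by simp [hs, h])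
          rw [this, zero_mul]
    rw [← h5]
    exact (Submodule.equivMapOfInjective _ (Submodule.injective_subtype _) _).finrank_eq.symm
  have h6 := finrank_b9perp (n := n) W
  have h7 := finrank_b9perp (n := n) (W ⊔ b9F s)
  have h8 := Submodule.finrank_sup_add_finrank_inf_eq W (b9F s)
  rw [finrank_b9F] at h8
  omega

theorem b9_sum_ind {α : Type} [Fintype α] (P : α → Prop) :
    ∑ a, ind (P a) = (Nat.card {a // P a} : ℝ) := by
  classical
  unfold ind
  rw [Finset.sum_boole, Nat.card_eq_fintype_card, Fintype.card_subtype]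

/-- number of solutions in a subspace of the orthogonality to independent vectors of the subspace
`b9F s` -/
theorem b9_perp_card {n j : ℕ} (s : Finset (Fin n)) (v : Fin j → Fin n → ZMod 2)
    (hv : LinearIndependent (ZMod 2) v) (hs : ∀ a, v a ∈ b9F s) :
    (∑ x : Fin n → ZMod 2, ind (x ∈ b9F s ∧ ∀ a, dotProduct (v a) x = 0)) ≤
      (2 : ℝ) ^ s.card / (2 : ℝ) ^ j := by
  classical
  -- the space of solutions
  set T : Submodule (ZMod 2) (Fin n → ZMod 2) := b9F s ⊓ b9perp (Submodule.span (ZMod 2) (Set.range v))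
    with hT
  have h1 : (∑ x : Fin n → ZMod 2, ind (x ∈ b9F s ∧ ∀ a, dotProduct (v a) x = 0)) =
      (2 : ℝ) ^ Module.finrank (ZMod 2) T := by
    have h2 : ∀ x : Fin n → ZMod 2, (x ∈ b9F s ∧ ∀ a, dotProduct (v a) x = 0) ↔ x ∈ T := by
      intro x
      rw [hT, Submodule.mem_inf, mem_b9perp]
      refine and_congr_right fun _ => ?_
      constructor
      · intro h y hy
        induction hy using Submodule.span_induction with
        | mem y hy =>
          obtain ⟨a, rfl⟩ := hy
          exact h a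
        | zero => exact zero_dotProduct _
        | add y z _ _ hy hz => rw [add_dotProduct, hy, hz, add_zero]
        | smul c y _ hy => rw [smul_dotProduct, hy, smul_zero]
      · intro h a
        exact h _ (Submodule.subset_span ⟨a, rfl⟩)
    simp_rw [ind_congr (h2 _)]
    unfold ind
    rw [Finset.sum_boole]
    have h4 : (Finset.univ.filter fun x : Fin n → ZMod 2 => x ∈ T).card = Fintype.card T := by
      rw [← Fintype.card_coe]
      exact Fintype.card_congr (Equiv.subtypeEquivRight (by simp))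
    rw [h4, Module.card_eq_pow_finrank (K := ZMod 2), ZMod.card]
    push_cast
    rfl
  rw [h1, le_div_iff₀ (by positivity), ← pow_add]
  refine pow_le_pow_right₀ (by norm_num) ?_
  -- dimension of T
  have h6 : b9F s = b9perp (b9F (univ \ s)) := by
    ext x
    rw [mem_b9perp, mem_b9F]
    constructor
    · intro h y hy
      refine Finset.sum_eq_zero fun i _ => ?_
      by_cases hi : i ∈ s
      · rw [hy i (by simp [hi]), zero_mul]
      · rw [h i hi, mul_zero]
    · intro h i hi
      have e5 : (Pi.single i 1 : Fin n → ZMod 2) ∈ b9F (univ \ s) := by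
        intro j hj
        rw [Pi.single_apply, if_neg]
        rintro rfl
        exact hj (by simp [hi])
      have e6 := h _ e5
      rwa [single_one_dotProduct] at e6
  have h7 : T = b9perp (b9F (univ \ s) ⊔ Submodule.span (ZMod 2) (Set.range v)) := by
    rw [hT, h6]
    ext x
    rw [Submodule.mem_inf, mem_b9perp, mem_b9perp, mem_b9perp]
    constructor
    · rintro ⟨ha, hb⟩ y hy
      obtain ⟨a, ha', b, hb', rfl⟩ := Submodule.mem_sup.1 hy
      rw [add_dotProduct, ha a ha', hb b hb', add_zero]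
    · intro h
      exact ⟨fun y hy => h y (Submodule.mem_sup_left hy), fun y hy => h y (Submodule.mem_sup_right hy)⟩
  have h8 := finrank_b9perp (n := n) (b9F (univ \ s) ⊔ Submodule.span (ZMod 2) (Set.range v))
  rw [← h7] at h8
  have h9 := Submodule.finrank_sup_add_finrank_inf_eq (b9F (univ \ s))
    (Submodule.span (ZMod 2) (Set.range v))
  have h10 : b9F (univ \ s) ⊓ Submodule.span (ZMod 2) (Set.range v) = ⊥ := by
    rw [eq_bot_iff]
    rintro x ⟨hx1, hx2⟩
    have hx3 : x ∈ b9F s := by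
      have : Submodule.span (ZMod 2) (Set.range v) ≤ b9F s := by
        rw [Submodule.span_le]
        rintro _ ⟨a, rfl⟩
        exact hs a
      exact this hx2
    rw [Submodule.mem_bot]
    funext i
    by_cases hi : i ∈ s
    · exact hx1 i (by simp [hi])
    · exact hx3 i hi
  rw [h10, finrank_bot, finrank_b9F, finrank_span_eq_card hv, Fintype.card_fin] at h9
  have h11 : (univ \ s).card = n - s.card := by
    rw [Finset.card_univ_sdiff, Fintype.card_fin]
  have h12 : s.card ≤ n := by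
    have := Finset.card_le_univ s
    rwa [Fintype.card_fin] at this
  omega

theorem b9_sum_snoc {X : Type} [Fintype X] {j : ℕ} (f : (Fin (j + 1) → X) → ℝ) :
    ∑ v, f v = ∑ v' : Fin j → X, ∑ x : X, f (Fin.snoc (α := fun _ => X) v' x) := by
  classical
  rw [← Equiv.sum_comp (Fin.snocEquiv (fun _ : Fin (j + 1) => X)), Fintype.sum_prod_type,
    Finset.sum_comm]
  rfl

theorem b9F_univ {n : ℕ} (x : Fin n → ZMod 2) : x ∈ b9F (univ : Finset (Fin n)) := by
  intro i hi
  exact absurd (Finset.mem_univ i) hi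

/-- counting isotropic independent tuples whose first `m` members are supported on `s` -/
theorem b9_seq (n m : ℕ) (s : Finset (Fin n)) (j : ℕ) :
    (∑ v : Fin j → Fin n → ZMod 2, ind (LinearIndependent (ZMod 2) v ∧
      (∀ a b, dotProduct (v a) (v b) = 0) ∧ ∀ a : Fin j, (a : ℕ) < m → v a ∈ b9F s)) ≤
      ∏ i ∈ Finset.range j, ((if i < m then (2 : ℝ) ^ s.card else (2 : ℝ) ^ n) / (2 : ℝ) ^ i) := by
  classical
  induction j with
  | zero =>
    simp only [Finset.range_zero, Finset.prod_empty]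
    calc (∑ v : Fin 0 → Fin n → ZMod 2, ind (LinearIndependent (ZMod 2) v ∧
      (∀ a b, dotProduct (v a) (v b) = 0) ∧ ∀ a : Fin 0, (a : ℕ) < m → v a ∈ b9F s))
        ≤ ∑ _v : Fin 0 → Fin n → ZMod 2, (1 : ℝ) := Finset.sum_le_sum fun v _ => ind_le_one _
      _ = 1 := by simp
  | succ j ih =>
    rw [b9_sum_snoc, Finset.prod_range_succ]
    refine le_trans ?_ (mul_le_mul_of_nonneg_right ih (by split_ifs <;> positivity))
    rw [Finset.sum_mul]
    refine Finset.sum_le_sum fun v _ => ?_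
    by_cases hv : LinearIndependent (ZMod 2) v ∧
      (∀ a b, dotProduct (v a) (v b) = 0) ∧ ∀ a : Fin j, (a : ℕ) < m → v a ∈ b9F s
    · rw [ind_true hv, one_mul]
      set s' : Finset (Fin n) := if j < m then s else univ with hs'
      have h1 : (if j < m then (2 : ℝ) ^ s.card else (2 : ℝ) ^ n) = (2 : ℝ) ^ s'.card := by
        rw [hs']
        split_ifs
        · rfl
        · rw [Finset.card_univ, Fintype.card_fin]
      rw [h1]
      have h2 : ∀ a, v a ∈ b9F s' := by
        intro a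
        rw [hs']
        split_ifs with h
        · exact hv.2.2 a (lt_trans a.2 h)
        · exact b9F_univ _
      refine le_trans (Finset.sum_le_sum fun x _ => ind_mono ?_) (b9_perp_card s' v hv.1 h2)
      intro h
      constructor
      · rw [hs']
        split_ifs with hj
        · have := h.2.2 (Fin.last j) (by simpa using hj)
          rwa [Fin.snoc_last] at this
        · exact b9F_univ _
      · intro a
        have := h.2.1 (Fin.castSucc a) (Fin.last j)
        rwa [Fin.snoc_castSucc, Fin.snoc_last] at this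
    · rw [ind_false hv, zero_mul]
      refine le_of_eq (Finset.sum_eq_zero fun x _ => ind_false fun h => hv ⟨?_, ?_, ?_⟩)
      · exact (linearIndependent_finSnoc.1 h.1).1
      · intro a b
        have := h.2.1 (Fin.castSucc a) (Fin.castSucc b)
        rwa [Fin.snoc_castSucc, Fin.snoc_castSucc] at this
      · intro a ha
        have := h.2.2 (Fin.castSucc a) (by simpa using ha)
        rwa [Fin.snoc_castSucc] at this

/-- extension of an independent family to an invertible change of basis -/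
theorem b9_extend {m k : ℕ} (hmk : m ≤ k) (c : Fin m → Fin k → ZMod 2)
    (hc : LinearIndependent (ZMod 2) c) :
    ∃ b : Module.Basis (Fin k) (ZMod 2) (Fin k → ZMod 2), ∀ a : Fin m, b (Fin.castLE hmk a) = c a := by
  classical
  obtain ⟨r, rfl⟩ := Nat.exists_eq_add_of_le hmk
  set B := Module.Basis.sumExtend hc with hB
  have hfin : Finite (Fin m ⊕ Module.Basis.sumExtendIndex hc) := Module.Finite.finite_basis B
  have hfin2 : Finite (Module.Basis.sumExtendIndex hc) :=
    Finite.of_injective (Sum.inr : _ → Fin m ⊕ Module.Basis.sumExtendIndex hc) Sum.inr_injective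
  let hft : Fintype (Module.Basis.sumExtendIndex hc) := Fintype.ofFinite _
  have hcard : Fintype.card (Module.Basis.sumExtendIndex hc) = r := by
    have h1 := Module.finrank_eq_nat_card_basis B
    rw [Module.finrank_fin_fun, Nat.card_sum, Nat.card_eq_fintype_card,
      Nat.card_eq_fintype_card, Fintype.card_fin] at h1
    omega
  refine ⟨B.reindex ((Equiv.sumCongr (Equiv.refl _) (Fintype.equivFinOfCardEq hcard)).trans
    finSumFinEquiv), fun a => ?_⟩
  rw [Module.Basis.reindex_apply]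
  have h3 : ((Equiv.sumCongr (Equiv.refl (Fin m)) (Fintype.equivFinOfCardEq hcard)).trans
    finSumFinEquiv).symm (Fin.castLE hmk a) = Sum.inl a := by
    rw [Equiv.symm_apply_eq]
    simp
    rfl
  rw [h3]
  rw [hB]
  simp only [Module.Basis.sumExtend, Module.Basis.reindex_apply, Module.Basis.coe_extend]
  rfl

/-- count for a fixed family of combinations supported on `s` -/
theorem b9_fixed {n m k : ℕ} (hmk : m ≤ k) (s : Finset (Fin n)) (c : Fin m → Fin k → ZMod 2)
    (hc : LinearIndependent (ZMod 2) c) :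
    (∑ v : Fin k → Fin n → ZMod 2, ind (LinearIndependent (ZMod 2) v ∧
      (∀ a b, dotProduct (v a) (v b) = 0) ∧
      ∀ a : Fin m, Fintype.linearCombination (ZMod 2) v (c a) ∈ b9F s)) ≤
      ∏ i ∈ Finset.range k, ((if i < m then (2 : ℝ) ^ s.card else (2 : ℝ) ^ n) / (2 : ℝ) ^ i) := by
  classical
  obtain ⟨B, hB⟩ := b9_extend hmk c hc
  let φ : (Fin k → Fin n → ZMod 2) → (Fin k → Fin n → ZMod 2) :=
    fun v a => Fintype.linearCombination (ZMod 2) v (B a)
  have hφ : Function.Injective φ := by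
    intro v v' h
    have h1 : Fintype.linearCombination (ZMod 2) v = Fintype.linearCombination (ZMod 2) v' :=
      B.ext fun a => congrFun h a
    funext b
    have h2 := LinearMap.congr_fun h1 (Pi.single b 1)
    simpa [Fintype.linearCombination_apply, Pi.single_apply, Finset.sum_ite_eq'] using h2
  let e : (Fin k → Fin n → ZMod 2) ≃ (Fin k → Fin n → ZMod 2) :=
    Equiv.ofBijective φ (Finite.injective_iff_bijective.1 hφ)
  refine le_trans ?_ ((Equiv.sum_comp e _).le.trans (b9_seq n m s k))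
  refine Finset.sum_le_sum fun v _ => ind_mono ?_
  rintro ⟨h1, h2, h3⟩
  refine ⟨?_, ?_, ?_⟩
  · have h4 : LinearIndependent (ZMod 2) (⇑(Fintype.linearCombination (ZMod 2) v) ∘ ⇑B) :=
      B.linearIndependent.map' _ (LinearMap.ker_eq_bot.2 h1.fintypeLinearCombination_injective)
    exact h4
  · intro a b
    show dotProduct (Fintype.linearCombination (ZMod 2) v (B a))
      (Fintype.linearCombination (ZMod 2) v (B b)) = 0
    rw [Fintype.linearCombination_apply, Fintype.linearCombination_apply, sum_dotProduct]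
    refine Finset.sum_eq_zero fun i _ => ?_
    rw [dotProduct_sum]
    refine Finset.sum_eq_zero fun l _ => ?_
    rw [smul_dotProduct, dotProduct_smul, h2 i l, smul_zero, smul_zero]
  · intro a ha
    have h4 := h3 ⟨a, ha⟩
    rw [← hB] at h4
    exact h4

/-- the number of independent `m`-tuples in a space of dimension at least `m` -/
theorem b9_gl (m : ℕ) : (2 : ℝ) ^ (m * m) / 4 ≤ ∏ i : Fin m, ((2 : ℝ) ^ m - (2 : ℝ) ^ (i : ℕ)) := by
  have h1 : ∀ m : ℕ, 1 ≤ m → 1 / 4 + 1 / (2 : ℝ) ^ (m + 1) ≤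
      ∏ i ∈ Finset.range m, (1 - 1 / (2 : ℝ) ^ (i + 1)) := by
    intro m hm
    induction m, hm using Nat.le_induction with
    | base => norm_num
    | succ m hm ih =>
      rw [Finset.prod_range_succ]
      have h2 : (0 : ℝ) < 1 / (2 : ℝ) ^ (m + 1) := by positivity
      have h3 : 1 / (2 : ℝ) ^ (m + 1) ≤ 1 / 4 := by
        have : (2 : ℝ) ^ 2 ≤ (2 : ℝ) ^ (m + 1) := pow_le_pow_right₀ (by norm_num) (by omega)
        calc 1 / (2 : ℝ) ^ (m + 1) ≤ 1 / (2 : ℝ) ^ 2 := one_div_le_one_div_of_le (by norm_num) this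
          _ = 1 / 4 := by norm_num
      have h4 : 1 / (2 : ℝ) ^ (m + 1 + 1) = (1 / (2 : ℝ) ^ (m + 1)) / 2 := by
        rw [pow_succ (2 : ℝ) (m + 1)]; field_simp
      rw [h4]
      set x := 1 / (2 : ℝ) ^ (m + 1) with hx
      have h5 : (1 / 4 + x) * (1 - x) ≤ (∏ i ∈ Finset.range m, (1 - 1 / (2 : ℝ) ^ (i + 1))) * (1 - x) :=
        mul_le_mul_of_nonneg_right ih (by linarith)
      refine le_trans ?_ h5
      nlinarith
  have h2 : ∏ i : Fin m, ((2 : ℝ) ^ m - (2 : ℝ) ^ (i : ℕ)) =
      (2 : ℝ) ^ (m * m) * ∏ i ∈ Finset.range m, (1 - 1 / (2 : ℝ) ^ (i + 1)) := by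
    rw [Fin.prod_univ_eq_prod_range (fun i => (2 : ℝ) ^ m - (2 : ℝ) ^ i) m,
      ← Finset.prod_range_reflect (fun i => (1 - 1 / (2 : ℝ) ^ (i + 1))) m]
    have h3 : (2 : ℝ) ^ (m * m) = ∏ _i ∈ Finset.range m, (2 : ℝ) ^ m := by
      rw [Finset.prod_const, Finset.card_range, ← pow_mul]
    rw [h3, ← Finset.prod_mul_distrib]
    refine Finset.prod_congr rfl fun i hi => ?_
    have hi' := Finset.mem_range.1 hi
    have h4 : m - 1 - i + 1 = m - i := by omega
    rw [h4]
    have h5 : (2 : ℝ) ^ m = (2 : ℝ) ^ i * (2 : ℝ) ^ (m - i) := by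
      rw [← pow_add]; congr 1; omega
    rw [h5]
    field_simp
  rw [h2]
  rcases Nat.eq_zero_or_pos m with hm | hm
  · subst hm; norm_num
  · have h3 := h1 m hm
    have h4 : (0 : ℝ) < 1 / (2 : ℝ) ^ (m + 1) := by positivity
    have h5 : (0 : ℝ) < (2 : ℝ) ^ (m * m) := by positivity
    rw [div_eq_mul_one_div]
    exact mul_le_mul_of_nonneg_left (by linarith) h5.le

/-- many families of combinations -/
theorem b9_many {n m k : ℕ} (s : Finset (Fin n)) (v : Fin k → Fin n → ZMod 2)
    (hv : LinearIndependent (ZMod 2) v)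
    (hm : m ≤ Module.finrank (ZMod 2) (Submodule.span (ZMod 2) (Set.range v) ⊓ b9F s :
        Submodule (ZMod 2) (Fin n → ZMod 2))) :
    (2 : ℝ) ^ (m * m) / 4 ≤ ∑ c : Fin m → Fin k → ZMod 2, ind (LinearIndependent (ZMod 2) c ∧
      ∀ a : Fin m, Fintype.linearCombination (ZMod 2) v (c a) ∈ b9F s) := by
  classical
  set L := Fintype.linearCombination (ZMod 2) v with hL
  have hinj : Function.Injective L := hv.fintypeLinearCombination_injective
  set C : Submodule (ZMod 2) (Fin k → ZMod 2) := (b9F s).comap L with hC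
  have hr : LinearMap.range L = Submodule.span (ZMod 2) (Set.range v) :=
    Fintype.range_linearCombination _ v
  have h1 : Module.finrank (ZMod 2) C = Module.finrank (ZMod 2)
      (Submodule.span (ZMod 2) (Set.range v) ⊓ b9F s : Submodule (ZMod 2) (Fin n → ZMod 2)) := by
    rw [← hr, ← Submodule.map_comap_eq]
    exact (Submodule.equivMapOfInjective L hinj C).finrank_eq
  rw [← h1] at hm
  refine (b9_gl m).trans ?_
  have h2 := card_linearIndependent (K := ZMod 2) (V := C) hm
  rw [ZMod.card] at h2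
  have h3 : (∑ c : Fin m → Fin k → ZMod 2, ind (LinearIndependent (ZMod 2) c ∧
      ∀ a : Fin m, L (c a) ∈ b9F s)) =
      (Nat.card {c : Fin m → Fin k → ZMod 2 // LinearIndependent (ZMod 2) c ∧
      ∀ a : Fin m, L (c a) ∈ b9F s} : ℝ) := b9_sum_ind _
  rw [h3]
  have h4 : Nat.card { t : Fin m → C // LinearIndependent (ZMod 2) t } ≤
      Nat.card {c : Fin m → Fin k → ZMod 2 // LinearIndependent (ZMod 2) c ∧
      ∀ a : Fin m, L (c a) ∈ b9F s} := by
    refine Nat.card_le_card_of_injective (fun t => ⟨fun a => (t.1 a).1, ?_, fun a => (t.1 a).2⟩) ?_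
    · exact t.2.map' C.subtype (Submodule.ker_subtype C)
    · intro t t' h
      apply Subtype.ext
      funext a
      apply Subtype.ext
      have := congrArg Subtype.val h
      exact congrFun this a
  refine le_trans ?_ (Nat.cast_le.2 h4)
  rw [h2]
  push_cast
  refine Finset.prod_le_prod ?_ ?_
  · intro i _
    have : (2 : ℝ) ^ (i : ℕ) ≤ (2 : ℝ) ^ m := pow_le_pow_right₀ (by norm_num) i.2.le
    linarith
  · intro i _
    have h5 : (2 : ℕ) ^ (i : ℕ) ≤ 2 ^ Module.finrank (ZMod 2) C :=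
      pow_le_pow_right₀ (by norm_num) (i.2.le.trans hm)
    rw [Nat.cast_sub h5]
    push_cast
    have : (2 : ℝ) ^ m ≤ (2 : ℝ) ^ Module.finrank (ZMod 2) C := pow_le_pow_right₀ (by norm_num) hm
    linarith

theorem b9_prod (X Y : ℝ) (m k : ℕ) (hmk : m ≤ k) :
    ∏ i ∈ Finset.range k, ((if i < m then X else Y) / (2 : ℝ) ^ i) =
      X ^ m * Y ^ (k - m) / (2 : ℝ) ^ (k * (k - 1) / 2) := by
  rw [Finset.prod_div_distrib, Finset.prod_pow_eq_pow_sum, Finset.sum_range_id]
  congr 1
  obtain ⟨r, rfl⟩ := Nat.exists_eq_add_of_le hmk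
  rw [Finset.prod_range_add, Nat.add_sub_cancel_left]
  congr 1
  · rw [Finset.prod_congr rfl (fun i hi => if_pos (Finset.mem_range.1 hi)), Finset.prod_const,
      Finset.card_range]
  · rw [Finset.prod_congr rfl (fun i _ => if_neg (by omega)), Finset.prod_const,
      Finset.card_range]

/-- double counting for a fixed support -/
theorem b9_level {n m k : ℕ} (hm : 1 ≤ m) (hmk : m ≤ k) (s : Finset (Fin n))
    (hs : s.card ≤ 2 * m) :
    (∑ v : Fin k → Fin n → ZMod 2, ind (LinearIndependent (ZMod 2) v ∧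
      (∀ a b, dotProduct (v a) (v b) = 0) ∧
      m ≤ Module.finrank (ZMod 2) (Submodule.span (ZMod 2) (Set.range v) ⊓ b9F s :
        Submodule (ZMod 2) (Fin n → ZMod 2)))) ≤
      4 * ((2 : ℝ) ^ (2 * k + 1) / (2 : ℝ) ^ n) ^ m * (((2 : ℝ) ^ n) ^ k / (2 : ℝ) ^ (k * (k + 1) / 2)) := by
  classical
  set A := ∑ v : Fin k → Fin n → ZMod 2, ind (LinearIndependent (ZMod 2) v ∧
      (∀ a b, dotProduct (v a) (v b) = 0) ∧
      m ≤ Module.finrank (ZMod 2) (Submodule.span (ZMod 2) (Set.range v) ⊓ b9F s :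
        Submodule (ZMod 2) (Fin n → ZMod 2))) with hA
  set Nmax : ℝ := ∏ i ∈ Finset.range k,
    ((if i < m then (2 : ℝ) ^ s.card else (2 : ℝ) ^ n) / (2 : ℝ) ^ i) with hN
  have hN0 : 0 ≤ Nmax := Finset.prod_nonneg fun i _ => by split_ifs <;> positivity
  have h1 : A * ((2 : ℝ) ^ (m * m) / 4) ≤ (2 : ℝ) ^ (k * m) * Nmax := by
    have h2 : A * ((2 : ℝ) ^ (m * m) / 4) ≤ ∑ v : Fin k → Fin n → ZMod 2,
        ∑ c : Fin m → Fin k → ZMod 2, ind (LinearIndependent (ZMod 2) c) *
          ind (LinearIndependent (ZMod 2) v ∧ (∀ a b, dotProduct (v a) (v b) = 0) ∧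
            ∀ a : Fin m, Fintype.linearCombination (ZMod 2) v (c a) ∈ b9F s) := by
      rw [hA, Finset.sum_mul]
      refine Finset.sum_le_sum fun v _ => ?_
      by_cases hv : LinearIndependent (ZMod 2) v ∧
        (∀ a b, dotProduct (v a) (v b) = 0) ∧
        m ≤ Module.finrank (ZMod 2) (Submodule.span (ZMod 2) (Set.range v) ⊓ b9F s :
        Submodule (ZMod 2) (Fin n → ZMod 2))
      · rw [ind_true hv, one_mul]
        refine (b9_many s v hv.1 hv.2.2).trans (Finset.sum_le_sum fun c _ => ?_)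
        rw [ind_and]
        refine mul_le_mul_of_nonneg_left (ind_mono fun h => ⟨hv.1, hv.2.1, h⟩) (ind_nonneg _)
      · rw [ind_false hv, zero_mul]
        exact Finset.sum_nonneg fun c _ => mul_nonneg (ind_nonneg _) (ind_nonneg _)
    refine h2.trans ?_
    rw [Finset.sum_comm]
    have h3 : ∀ c : Fin m → Fin k → ZMod 2, ∑ v : Fin k → Fin n → ZMod 2,
        ind (LinearIndependent (ZMod 2) c) *
          ind (LinearIndependent (ZMod 2) v ∧ (∀ a b, dotProduct (v a) (v b) = 0) ∧
            ∀ a : Fin m, Fintype.linearCombination (ZMod 2) v (c a) ∈ b9F s) ≤ Nmax := by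
      intro c
      rw [← Finset.mul_sum]
      by_cases hc : LinearIndependent (ZMod 2) c
      · rw [ind_true hc, one_mul]
        exact b9_fixed hmk s c hc
      · rw [ind_false hc, zero_mul]
        exact hN0
    refine (Finset.sum_le_sum fun c _ => h3 c).trans ?_
    rw [Finset.sum_const, nsmul_eq_mul]
    have h4 : ((Finset.univ : Finset (Fin m → Fin k → ZMod 2)).card : ℝ) = (2 : ℝ) ^ (k * m) := by
      simp [ZMod.card, pow_mul]
    rw [h4]
  rw [hN, b9_prod _ _ _ _ hmk] at h1
  have h5 : ((2 : ℝ) ^ s.card) ^ m ≤ ((2 : ℝ) ^ (2 * m)) ^ m :=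
    pow_le_pow_left₀ (by positivity) (pow_le_pow_right₀ (by norm_num) hs) _
  have hK : k * (k + 1) / 2 = k * (k - 1) / 2 + k := by
    have h6 : k * (k + 1) = k * (k - 1) + k * 2 := by
      obtain ⟨r, rfl⟩ := Nat.exists_eq_add_of_le (hm.trans hmk)
      rw [Nat.add_sub_cancel_left]
      ring
    rw [h6, Nat.add_mul_div_right _ _ (by norm_num)]
  set K := k * (k - 1) / 2 with hKdef
  rw [hK]
  -- the exponents
  have h7 : k * m + (2 * m) * m + k ≤ (2 * k + 1) * m + m * m := by
    obtain ⟨u, rfl⟩ := Nat.exists_eq_add_of_le hm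
    obtain ⟨w, rfl⟩ := Nat.exists_eq_add_of_le hmk
    ring_nf
    nlinarith [Nat.zero_le (u * w)]
  have h8 : (2 : ℝ) ^ (k * m) * ((2 : ℝ) ^ (2 * m)) ^ m * (2 : ℝ) ^ k ≤
      ((2 : ℝ) ^ (2 * k + 1)) ^ m * (2 : ℝ) ^ (m * m) := by
    rw [← pow_mul, ← pow_mul, ← pow_add, ← pow_add, ← pow_add]
    exact pow_le_pow_right₀ (by norm_num) h7
  have hsplit : ((2 : ℝ) ^ n) ^ k = ((2 : ℝ) ^ n) ^ (k - m) * ((2 : ℝ) ^ n) ^ m := by
    rw [← pow_add]; congr 1; omega
  have hmm : (0 : ℝ) < (2 : ℝ) ^ (m * m) := by positivity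
  have h9 : A ≤ 4 * ((2 : ℝ) ^ (k * m) * (((2 : ℝ) ^ (2 * m)) ^ m * ((2 : ℝ) ^ n) ^ (k - m) / (2 : ℝ) ^ K))
      / (2 : ℝ) ^ (m * m) := by
    rw [le_div_iff₀ hmm]
    have h10 : (2 : ℝ) ^ (k * m) * (((2 : ℝ) ^ s.card) ^ m * ((2 : ℝ) ^ n) ^ (k - m) / (2 : ℝ) ^ K) ≤
        (2 : ℝ) ^ (k * m) * (((2 : ℝ) ^ (2 * m)) ^ m * ((2 : ℝ) ^ n) ^ (k - m) / (2 : ℝ) ^ K) := by
      gcongr
    linarith
  refine h9.trans ?_
  rw [hsplit, div_pow, pow_add (2 : ℝ) K k]
  rw [div_le_iff₀ hmm]
  have hKp : (0 : ℝ) < (2 : ℝ) ^ K := by positivity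
  have hk0 : (0 : ℝ) < (2 : ℝ) ^ k := by positivity
  have hnm : (0 : ℝ) < ((2 : ℝ) ^ n) ^ m := by positivity
  have e1 : 4 * (((2 : ℝ) ^ (2 * k + 1)) ^ m / ((2 : ℝ) ^ n) ^ m) *
      (((2 : ℝ) ^ n) ^ (k - m) * ((2 : ℝ) ^ n) ^ m / ((2 : ℝ) ^ K * (2 : ℝ) ^ k)) * (2 : ℝ) ^ (m * m) =
      4 * (((2 : ℝ) ^ n) ^ (k - m) / (2 : ℝ) ^ K) * ((((2 : ℝ) ^ (2 * k + 1)) ^ m * (2 : ℝ) ^ (m * m)) / (2 : ℝ) ^ k) := by
    field_simp
  have e2 : 4 * ((2 : ℝ) ^ (k * m) * (((2 : ℝ) ^ (2 * m)) ^ m * ((2 : ℝ) ^ n) ^ (k - m) / (2 : ℝ) ^ K)) =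
      4 * (((2 : ℝ) ^ n) ^ (k - m) / (2 : ℝ) ^ K) * ((2 : ℝ) ^ (k * m) * ((2 : ℝ) ^ (2 * m)) ^ m) := by
    ring
  rw [e1, e2]
  refine mul_le_mul_of_nonneg_left ?_ (by positivity)
  rw [le_div_iff₀ hk0]
  exact h8

/-- every nonempty finset with at most `r` elements is the image of `Fin r` -/
theorem b9_image {n r : ℕ} (s : Finset (Fin n)) (hs : s.Nonempty) (hr : s.card ≤ r) :
    ∃ f : Fin r → Fin n, (Finset.univ.image f) = s := by
  classical
  obtain ⟨x0, hx0⟩ := hs
  let e := s.equivFin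
  refine ⟨fun i => if h : (i : ℕ) < s.card then (e.symm ⟨i, h⟩).1 else x0, ?_⟩
  ext x
  rw [Finset.mem_image]
  constructor
  · rintro ⟨i, _, rfl⟩
    by_cases h : (i : ℕ) < s.card
    · simp only [h, dif_pos]
      exact (e.symm ⟨i, h⟩).2
    · simp only [h, dif_neg, not_false_eq_true]
      exact hx0
  · intro hx
    refine ⟨⟨e ⟨x, hx⟩, (e ⟨x, hx⟩).2.trans_le hr⟩, Finset.mem_univ _, ?_⟩
    have h : ((e ⟨x, hx⟩ : Fin s.card) : ℕ) < s.card := (e ⟨x, hx⟩).2
    simp only [h, dif_pos]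
    simp

theorem b9_total {n k : ℕ} :
    (∑ V : Matrix (Fin n) (Fin k) (ZMod 2), ind (FullRank V ∧ V.transpose * V = 0 ∧ Exc V)) ≤
      ∑ m ∈ Finset.Icc 1 k, ((n : ℝ) ^ 2) ^ m * (4 * ((2 : ℝ) ^ (2 * k + 1) / (2 : ℝ) ^ n) ^ m *
        (((2 : ℝ) ^ n) ^ k / (2 : ℝ) ^ (k * (k + 1) / 2))) := by
  classical
  let e : (Fin k → Fin n → ZMod 2) ≃ Matrix (Fin n) (Fin k) (ZMod 2) :=
    { toFun := fun v => Matrix.of fun i a => v a i
      invFun := fun V a i => V i a
      left_inv := fun v => rfl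
      right_inv := fun V => rfl }
  rw [← Equiv.sum_comp e]
  have h1 : ∀ v : Fin k → Fin n → ZMod 2,
      ind (FullRank (e v) ∧ (e v).transpose * (e v) = 0 ∧ Exc (e v)) ≤
      ∑ m ∈ Finset.Icc 1 k, ∑ f : Fin (2 * m) → Fin n, ind (LinearIndependent (ZMod 2) v ∧
      (∀ a b, dotProduct (v a) (v b) = 0) ∧
      m ≤ Module.finrank (ZMod 2) (Submodule.span (ZMod 2) (Set.range v) ⊓
        b9F (Finset.univ.image f) : Submodule (ZMod 2) (Fin n → ZMod 2))) := by
    intro v
    by_cases hv : FullRank (e v) ∧ (e v).transpose * (e v) = 0 ∧ Exc (e v)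
    · rw [ind_true hv]
      obtain ⟨hv1, hv2, w, hw1, hw2, hw3⟩ := hv
      have hli : LinearIndependent (ZMod 2) v := hv1
      set W := Submodule.span (ZMod 2) (Set.range v) with hW
      have hw1' : w ∈ W := hw1
      set s := univ.filter fun i => w i ≠ 0 with hs
      set m := Module.finrank (ZMod 2) (W ⊓ b9F s : Submodule (ZMod 2) (Fin n → ZMod 2)) with hm
      have h2 : s.card ≤ 2 * m := by
        refine b9_struct W w fun y hy => ?_
        refine hw3 y fun a => ?_
        have := (mem_b9perp W y).1 hy (v a) (Submodule.subset_span ⟨a, rfl⟩)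
        exact this
      have hsne : s.Nonempty := by
        obtain ⟨i, hi⟩ := Function.ne_iff.1 hw2
        exact ⟨i, by simpa [hs] using hi⟩
      have hm1 : 1 ≤ m := by
        have := Finset.card_pos.2 hsne
        omega
      have hmk : m ≤ k := by
        have h3 : m ≤ Module.finrank (ZMod 2) W := Submodule.finrank_mono inf_le_left
        rwa [hW, finrank_span_eq_card hli, Fintype.card_fin] at h3
      obtain ⟨f, hf⟩ := b9_image s hsne h2
      refine le_trans ?_ (Finset.single_le_sum (f := fun m => ∑ f : Fin (2 * m) → Fin n,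
        ind (LinearIndependent (ZMod 2) v ∧
      (∀ a b, dotProduct (v a) (v b) = 0) ∧
      m ≤ Module.finrank (ZMod 2) (W ⊓
        b9F (Finset.univ.image f) : Submodule (ZMod 2) (Fin n → ZMod 2))))
        (fun m _ => Finset.sum_nonneg fun f _ => ind_nonneg _) (Finset.mem_Icc.2 ⟨hm1, hmk⟩))
      refine le_trans ?_ (Finset.single_le_sum (f := fun f : Fin (2 * m) → Fin n =>
        ind (LinearIndependent (ZMod 2) v ∧
      (∀ a b, dotProduct (v a) (v b) = 0) ∧
      m ≤ Module.finrank (ZMod 2) (W ⊓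
        b9F (Finset.univ.image f) : Submodule (ZMod 2) (Fin n → ZMod 2))))
        (fun f _ => ind_nonneg _) (Finset.mem_univ f))
      have h4 : LinearIndependent (ZMod 2) v ∧
        (∀ a b, dotProduct (v a) (v b) = 0) ∧
        m ≤ Module.finrank (ZMod 2) (W ⊓
        b9F (Finset.univ.image f) : Submodule (ZMod 2) (Fin n → ZMod 2)) := by
        refine ⟨hli, fun a b => ?_, ?_⟩
        · have := congrFun (congrFun hv2 a) b
          exact this
        · rw [hf]
      rw [ind_true h4]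
    · rw [ind_false hv]
      exact Finset.sum_nonneg fun m _ => Finset.sum_nonneg fun f _ => ind_nonneg _
  refine (Finset.sum_le_sum fun v _ => h1 v).trans ?_
  rw [Finset.sum_comm]
  refine Finset.sum_le_sum fun m hm => ?_
  obtain ⟨hm1, hmk⟩ := Finset.mem_Icc.1 hm
  rw [Finset.sum_comm]
  have h5 : ∀ f : Fin (2 * m) → Fin n, ∑ v : Fin k → Fin n → ZMod 2,
      ind (LinearIndependent (ZMod 2) v ∧
      (∀ a b, dotProduct (v a) (v b) = 0) ∧
      m ≤ Module.finrank (ZMod 2) (Submodule.span (ZMod 2) (Set.range v) ⊓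
        b9F (Finset.univ.image f) : Submodule (ZMod 2) (Fin n → ZMod 2))) ≤
      4 * ((2 : ℝ) ^ (2 * k + 1) / (2 : ℝ) ^ n) ^ m *
        (((2 : ℝ) ^ n) ^ k / (2 : ℝ) ^ (k * (k + 1) / 2)) := by
    intro f
    refine b9_level hm1 hmk _ ?_
    refine Finset.card_image_le.trans ?_
    rw [Finset.card_univ, Fintype.card_fin]
  refine (Finset.sum_le_sum fun f _ => h5 f).trans ?_
  rw [Finset.sum_const, nsmul_eq_mul]
  refine le_of_eq ?_
  congr 1
  rw [Finset.card_univ, Fintype.card_fun, Fintype.card_fin, Fintype.card_fin, pow_mul]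
  push_cast
  rfl

theorem b9m (d e : ℝ) (hd : 0 < d) (he : 0 < e) : ∃ n0 : ℕ, ∀ n k : ℕ, n0 ≤ n → (2 * k : ℝ) ≤ (1 - d) * n →
    (∑ V : Matrix (Fin n) (Fin k) (ZMod 2), ind (FullRank V ∧ V.transpose * V = 0 ∧ Exc V)) ≤
      e * (((2 : ℝ) ^ n) ^ k / (2 : ℝ) ^ (k * (k + 1) / 2)) := by
  set r : ℝ := (2 : ℝ) ^ (-d) with hr
  have hr0 : 0 < r := Real.rpow_pos_of_pos (by norm_num) _
  have hr1 : r < 1 := Real.rpow_lt_one_of_one_lt_of_neg (by norm_num) (by linarith)
  have hlim := tendsto_pow_const_mul_const_pow_of_abs_lt_one 3 (r := r)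
    (by rw [abs_of_pos hr0]; exact hr1)
  have hmin : (0 : ℝ) < min (e / 8) (1 / 8) := by positivity
  obtain ⟨n0, hn0⟩ := Filter.eventually_atTop.1 (hlim.eventually_lt_const hmin)
  refine ⟨n0 + 1, fun n k hn hk => ?_⟩
  have h1 : (n : ℝ) ^ 3 * r ^ n < min (e / 8) (1 / 8) := hn0 n (by omega)
  have hn1 : (1 : ℝ) ≤ n := by exact_mod_cast (by omega : 1 ≤ n)
  have hkn : (k : ℝ) ≤ n := by
    have : (1 - d) * (n : ℝ) ≤ n := by nlinarith
    have hk0 : (0 : ℝ) ≤ k := Nat.cast_nonneg k
    linarith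
  -- the ratio
  have h2 : (2 : ℝ) ^ (2 * k + 1) / (2 : ℝ) ^ n ≤ 2 * r ^ n := by
    rw [div_le_iff₀ (by positivity), pow_succ]
    have e1 : (2 : ℝ) ^ (2 * k) = (2 : ℝ) ^ ((2 * k : ℝ)) := by
      rw [← Real.rpow_natCast]; push_cast; rfl
    have e2 : r ^ n * (2 : ℝ) ^ n = (2 : ℝ) ^ ((1 - d) * (n : ℝ)) := by
      rw [hr, ← Real.rpow_natCast, ← Real.rpow_natCast, ← Real.rpow_mul (by norm_num),
        ← Real.rpow_add (by norm_num)]
      congr 1
      ring
    have e3 : (2 : ℝ) ^ (2 * k) ≤ r ^ n * (2 : ℝ) ^ n := by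
      rw [e1, e2]
      exact Real.rpow_le_rpow_of_exponent_le (by norm_num) hk
    linarith
  set M := ((2 : ℝ) ^ n) ^ k / (2 : ℝ) ^ (k * (k + 1) / 2) with hM
  have hM0 : 0 ≤ M := by positivity
  refine b9_total.trans ?_
  have hrn : 0 < r ^ n := pow_pos hr0 n
  set x := (n : ℝ) ^ 2 * (2 * r ^ n) with hx
  have hx0 : 0 ≤ x := by positivity
  have hn23 : (n : ℝ) ^ 2 ≤ (n : ℝ) ^ 3 := pow_le_pow_right₀ hn1 (by norm_num)
  have hx1 : x ≤ 1 := by
    have h3 : (n : ℝ) ^ 3 * r ^ n < 1 / 8 := lt_of_lt_of_le h1 (min_le_right _ _)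
    have h4 : (n : ℝ) ^ 2 * r ^ n ≤ (n : ℝ) ^ 3 * r ^ n := mul_le_mul_of_nonneg_right hn23 hrn.le
    rw [hx]
    linarith
  have h3 : ∀ m ∈ Finset.Icc 1 k, ((n : ℝ) ^ 2) ^ m * (4 * ((2 : ℝ) ^ (2 * k + 1) / (2 : ℝ) ^ n) ^ m * M) ≤
      4 * x * M := by
    intro m hm
    have hm1 := (Finset.mem_Icc.1 hm).1
    have h4 : ((n : ℝ) ^ 2) ^ m * ((2 : ℝ) ^ (2 * k + 1) / (2 : ℝ) ^ n) ^ m ≤ x := by
      rw [← mul_pow]
      calc ((n : ℝ) ^ 2 * ((2 : ℝ) ^ (2 * k + 1) / (2 : ℝ) ^ n)) ^ m ≤ x ^ m := by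
            refine pow_le_pow_left₀ (by positivity) ?_ m
            rw [hx]
            exact mul_le_mul_of_nonneg_left h2 (by positivity)
        _ ≤ x ^ 1 := pow_le_pow_of_le_one hx0 hx1 hm1
        _ = x := pow_one x
    calc ((n : ℝ) ^ 2) ^ m * (4 * ((2 : ℝ) ^ (2 * k + 1) / (2 : ℝ) ^ n) ^ m * M)
        = 4 * (((n : ℝ) ^ 2) ^ m * ((2 : ℝ) ^ (2 * k + 1) / (2 : ℝ) ^ n) ^ m) * M := by ring
      _ ≤ 4 * x * M := by gcongr
  refine (Finset.sum_le_sum h3).trans ?_
  rw [Finset.sum_const, Nat.card_Icc, Nat.add_sub_cancel, nsmul_eq_mul]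
  have h5 : (k : ℝ) * (4 * x * M) ≤ n * (4 * x * M) :=
    mul_le_mul_of_nonneg_right hkn (by positivity)
  refine h5.trans ?_
  have h6 : (n : ℝ) * (4 * x) ≤ e := by
    have h7 : (n : ℝ) ^ 3 * r ^ n < e / 8 := lt_of_lt_of_le h1 (min_le_left _ _)
    rw [hx]
    have : (n : ℝ) * (4 * ((n : ℝ) ^ 2 * (2 * r ^ n))) = 8 * ((n : ℝ) ^ 3 * r ^ n) := by ring
    rw [this]
    linarith
  calc (n : ℝ) * (4 * x * M) = (n * (4 * x)) * M := by ring
    _ ≤ e * M := mul_le_mul_of_nonneg_right h6 hM0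

end Pool.H64.IR
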