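import Pool.Agent.H64.IR.Defs

/-! MODULE BNF (project MP_a758cf_pr, IR; overview: team-store H64_a758cf.md)
Bonferroni inequalities for products: s finite, x_a in [0,1], J even:
prod_{a in s} (1 - x_a) <= T_J := sum_{G subset s, card G <= J} (-1)^(card G) prod_{a in G} x_a <= prod (1 - x_a) + (sum x_a)^(J+1)/(J+1)!;
J odd: T_J <= prod (1-x_a) and prod(1-x_a) - (sum x_a)^(J+1)/(J+1)! <= T_J.
Proof: induction on s for the one-sided inequalities (for s insert a: T_J(s') = T_J(s) - x_a T_{J-1}(s); with R_J = (-1)^J (T_J - prod(1-x)) >= 0: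
R_J(s') = (1 - x_a) R_J(s)+ x_a (R_J(s) + R_{J-1}(s)) and T_J - T_{J-1} = (-1)^J e_J(x) so R_J + R_{J-1} = e_J >= 0), then R_J <= R_J + R_{J+1} = e_{J+1}(x) <= (sum x)^(J+1)/(J+1)!.
esymm bound: e_j(x) <= (sum x)^j/j! for x >= 0 (Finset.sum over powersetCard; e.g. via prod/multinomial or induction).
-/

set_option autoImplicit false

namespace Pool.H64.IR

open Finset Polynomial

theorem bnf_aux_pow (S x : ℝ) (hS : 0 ≤ S) (hx : 0 ≤ x) (j : ℕ) :
    S ^ (j + 1) + (j + 1) * S ^ j * x ≤ (S + x) ^ (j + 1) := by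
  induction j with
  | zero => simp
  | succ j ih =>
    have h1 : (S + x) * (S ^ (j + 1) + (j + 1) * S ^ j * x) ≤ (S + x) * (S + x) ^ (j + 1) :=
      mul_le_mul_of_nonneg_left ih (by positivity)
    have h2 : 0 ≤ ((j : ℝ) + 1) * S ^ j * x * x := by positivity
    push_cast
    calc S ^ (j + 1 + 1) + ((j : ℝ) + 1 + 1) * S ^ (j + 1) * x
        ≤ (S + x) * (S ^ (j + 1) + (j + 1) * S ^ j * x) := by
          have : (S + x) * (S ^ (j + 1) + (j + 1) * S ^ j * x) =
            S ^ (j + 1 + 1) + ((j : ℝ) + 1 + 1) * S ^ (j + 1) * x + ((j : ℝ) + 1) * S ^ j * x * x := by ring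
          rw [this]
          linarith
      _ ≤ (S + x) * (S + x) ^ (j + 1) := h1
      _ = (S + x) ^ (j + 1 + 1) := by ring

theorem bnf_esymm_insert {α : Type} [DecidableEq α] (s : Finset α) (a : α) (ha : a ∉ s) (x : α → ℝ) (j : ℕ) :
    ∑ G ∈ (insert a s).powersetCard (j + 1), ∏ b ∈ G, x b =
      ∑ G ∈ s.powersetCard (j + 1), ∏ b ∈ G, x b + x a * ∑ G ∈ s.powersetCard j, ∏ b ∈ G, x b := by
  rw [Finset.powersetCard_succ_insert ha, Finset.sum_union]
  · congr 1
    rw [Finset.sum_image, Finset.mul_sum]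
    · refine Finset.sum_congr rfl fun G hG => ?_
      rw [Finset.prod_insert]
      intro h
      exact ha ((Finset.mem_powersetCard.1 hG).1 h)
    · intro G hG G' hG' h
      have h1 : a ∉ G := fun h => ha ((Finset.mem_powersetCard.1 hG).1 h)
      have h2 : a ∉ G' := fun h => ha ((Finset.mem_powersetCard.1 hG').1 h)
      have h3 := congrArg (fun t => Finset.erase t a) h
      simpa [Finset.erase_insert h1, Finset.erase_insert h2] using h3
  · rw [Finset.disjoint_left]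
    intro G hG hG'
    obtain ⟨G', -, rfl⟩ := Finset.mem_image.1 hG'
    exact ha ((Finset.mem_powersetCard.1 hG).1 (Finset.mem_insert_self a G'))

theorem esymm_le {α : Type} [DecidableEq α] (s : Finset α) (x : α → ℝ) (hx : ∀ a ∈ s, 0 ≤ x a) (j : ℕ) :
    ∑ G ∈ s.powersetCard j, ∏ a ∈ G, x a ≤ (∑ a ∈ s, x a) ^ j / (Nat.factorial j) := by
  induction s using Finset.induction_on generalizing j with
  | empty =>
    cases j with
    | zero => simp
    | succ j =>
      have h0 : (∅ : Finset α).powersetCard (j + 1) = ∅ := by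
        rw [Finset.powersetCard_eq_empty]; simp
      rw [h0]
      simp
  | insert a s ha ih =>
    have hx' : ∀ b ∈ s, 0 ≤ x b := fun b hb => hx b (Finset.mem_insert_of_mem hb)
    have hxa : 0 ≤ x a := hx a (Finset.mem_insert_self a s)
    have hS : 0 ≤ ∑ b ∈ s, x b := Finset.sum_nonneg hx'
    cases j with
    | zero => simp
    | succ j =>
      rw [bnf_esymm_insert s a ha x j, Finset.sum_insert ha]
      have h1 := ih hx' (j + 1)
      have h2 := ih hx' j
      have h3 := bnf_aux_pow (∑ b ∈ s, x b) (x a) hS hxa j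
      have h4 : (0 : ℝ) < (Nat.factorial (j + 1) : ℝ) := by exact_mod_cast Nat.factorial_pos _
      have h5 : (0 : ℝ) < (Nat.factorial j : ℝ) := by exact_mod_cast Nat.factorial_pos _
      calc ∑ G ∈ s.powersetCard (j + 1), ∏ b ∈ G, x b + x a * ∑ G ∈ s.powersetCard j, ∏ b ∈ G, x b
          ≤ (∑ b ∈ s, x b) ^ (j + 1) / (Nat.factorial (j + 1)) + x a * ((∑ b ∈ s, x b) ^ j / (Nat.factorial j)) :=
            add_le_add h1 (mul_le_mul_of_nonneg_left h2 hxa)
        _ = ((∑ b ∈ s, x b) ^ (j + 1) + ((j : ℝ) + 1) * (∑ b ∈ s, x b) ^ j * x a) / (Nat.factorial (j + 1)) := by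
            rw [Nat.factorial_succ]
            push_cast
            field_simp
        _ ≤ (∑ b ∈ s, x b + x a) ^ (j + 1) / (Nat.factorial (j + 1)) :=
            div_le_div_of_nonneg_right h3 h4.le
        _ = _ := by rw [add_comm]

/-- truncated alternating sum -/
noncomputable def bnf_T {α : Type} [DecidableEq α] (s : Finset α) (x : α → ℝ) (J : ℕ) : ℝ :=
  ∑ G ∈ s.powerset.filter (fun G => G.card ≤ J), (-1 : ℝ) ^ G.card * ∏ a ∈ G, x a

theorem bnf_T_succ {α : Type} [DecidableEq α] (s : Finset α) (x : α → ℝ) (J : ℕ) :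
    bnf_T s x (J + 1) = bnf_T s x J + (-1) ^ (J + 1) * ∑ G ∈ s.powersetCard (J + 1), ∏ a ∈ G, x a := by
  unfold bnf_T
  have h1 : s.powerset.filter (fun G => G.card ≤ J + 1) =
      s.powerset.filter (fun G => G.card ≤ J) ∪ s.powersetCard (J + 1) := by
    ext G
    simp only [Finset.mem_filter, Finset.mem_powerset, Finset.mem_union, Finset.mem_powersetCard]
    constructor
    · rintro ⟨h1, h2⟩
      rcases Nat.lt_or_ge J G.card with h | h
      · exact Or.inr ⟨h1, by omega⟩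
      · exact Or.inl ⟨h1, h⟩
    · rintro (⟨h1, h2⟩ | ⟨h1, h2⟩)
      · exact ⟨h1, by omega⟩
      · exact ⟨h1, by omega⟩
  rw [h1, Finset.sum_union]
  · congr 1
    rw [Finset.mul_sum]
    refine Finset.sum_congr rfl fun G hG => ?_
    rw [(Finset.mem_powersetCard.1 hG).2]
  · rw [Finset.disjoint_left]
    intro G hG hG'
    have h2 := (Finset.mem_filter.1 hG).2
    have h3 := (Finset.mem_powersetCard.1 hG').2
    omega

theorem bnf_T_zero {α : Type} [DecidableEq α] (s : Finset α) (x : α → ℝ) : bnf_T s x 0 = 1 := by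
  unfold bnf_T
  have h1 : s.powerset.filter (fun G => G.card ≤ 0) = {∅} := by
    ext G
    simp only [Finset.mem_filter, Finset.mem_powerset, Finset.mem_singleton, Nat.le_zero,
      Finset.card_eq_zero]
    constructor
    · exact fun h => h.2
    · intro h
      subst h
      exact ⟨Finset.empty_subset _, rfl⟩
  rw [h1]
  simp

theorem bnf_T_insert {α : Type} [DecidableEq α] (s : Finset α) (a : α) (ha : a ∉ s) (x : α → ℝ) (J : ℕ) :
    bnf_T (insert a s) x (J + 1) = bnf_T s x (J + 1) - x a * bnf_T s x J := by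
  induction J with
  | zero =>
    rw [bnf_T_succ, bnf_T_succ, bnf_T_zero, bnf_T_zero, bnf_esymm_insert s a ha x 0]
    simp
    ring
  | succ J ih =>
    rw [bnf_T_succ, ih, bnf_T_succ s x (J + 1), bnf_T_succ s x J, bnf_esymm_insert s a ha x (J + 1)]
    ring

/-- signed remainder is nonnegative -/
theorem bnf_R_nonneg {α : Type} [DecidableEq α] (s : Finset α) (x : α → ℝ) (hx : ∀ a ∈ s, 0 ≤ x a ∧ x a ≤ 1) (J : ℕ) :
    0 ≤ (-1) ^ J * (bnf_T s x J - ∏ a ∈ s, (1 - x a)) := by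
  induction s using Finset.induction_on generalizing J with
  | empty =>
    have : bnf_T (∅ : Finset α) x J = 1 := by
      induction J with
      | zero => exact bnf_T_zero _ _
      | succ J ih =>
        have h0 : (∅ : Finset α).powersetCard (J + 1) = ∅ := by
          rw [Finset.powersetCard_eq_empty]; simp
        rw [bnf_T_succ, ih, h0]
        simp
    rw [this]
    simp
  | insert a s ha ih =>
    have hx' : ∀ b ∈ s, 0 ≤ x b ∧ x b ≤ 1 := fun b hb => hx b (Finset.mem_insert_of_mem hb)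
    have hxa := hx a (Finset.mem_insert_self a s)
    cases J with
    | zero =>
      rw [bnf_T_zero, pow_zero, one_mul, sub_nonneg]
      refine Finset.prod_le_one (fun b hb => ?_) (fun b hb => ?_)
      · have := hx b hb; linarith [this.2]
      · have := hx b hb; linarith [this.1]
    | succ J =>
      rw [bnf_T_insert s a ha, Finset.prod_insert ha]
      have h1 := ih hx' (J + 1)
      have h2 := mul_nonneg hxa.1 (ih hx' J)
      have h3 : (-1 : ℝ) ^ (J + 1) * (bnf_T s x (J + 1) - x a * bnf_T s x J - (1 - x a) * ∏ b ∈ s, (1 - x b)) =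
        (-1 : ℝ) ^ (J + 1) * (bnf_T s x (J + 1) - ∏ b ∈ s, (1 - x b)) +
          x a * ((-1) ^ J * (bnf_T s x J - ∏ b ∈ s, (1 - x b))) := by
        rw [pow_succ]; ring
      rw [h3]
      linarith

theorem bnf_R_le {α : Type} [DecidableEq α] (s : Finset α) (x : α → ℝ) (hx : ∀ a ∈ s, 0 ≤ x a ∧ x a ≤ 1) (J : ℕ) :
    (-1) ^ J * (bnf_T s x J - ∏ a ∈ s, (1 - x a)) ≤ (∑ a ∈ s, x a) ^ (J + 1) / (Nat.factorial (J + 1)) := by
  have h1 := bnf_R_nonneg s x hx (J + 1)
  have h2 := esymm_le s x (fun a ha => (hx a ha).1) (J + 1)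
  rw [bnf_T_succ] at h1
  have h3 : (-1 : ℝ) ^ (J + 1) * (bnf_T s x J + (-1) ^ (J + 1) * ∑ G ∈ s.powersetCard (J + 1), ∏ a ∈ G, x a -
      ∏ a ∈ s, (1 - x a)) = ∑ G ∈ s.powersetCard (J + 1), ∏ a ∈ G, x a -
        (-1) ^ J * (bnf_T s x J - ∏ a ∈ s, (1 - x a)) := by
    have h4 : (-1 : ℝ) ^ (J + 1) * (-1) ^ (J + 1) = 1 := by
      rw [← mul_pow]; simp
    have h5 : (-1 : ℝ) ^ (J + 1) = - (-1) ^ J := by rw [pow_succ]; ring
    rw [mul_sub, mul_add, ← mul_assoc, h4, h5]
    ring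
  rw [h3] at h1
  linarith

theorem bnf_even_lower {α : Type} [DecidableEq α] (s : Finset α) (x : α → ℝ) (hx : ∀ a ∈ s, 0 ≤ x a ∧ x a ≤ 1) (J : ℕ) (hJ : Even J) :
    ∏ a ∈ s, (1 - x a) ≤ ∑ G ∈ s.powerset.filter (fun G => G.card ≤ J), (-1 : ℝ) ^ G.card * ∏ a ∈ G, x a := by
  have h := bnf_R_nonneg s x hx J
  rw [hJ.neg_one_pow, one_mul] at h
  unfold bnf_T at h
  linarith

theorem bnf_even_upper {α : Type} [DecidableEq α] (s : Finset α) (x : α → ℝ) (hx : ∀ a ∈ s, 0 ≤ x a ∧ x a ≤ 1) (J : ℕ) (hJ : Even J) :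
    ∑ G ∈ s.powerset.filter (fun G => G.card ≤ J), (-1 : ℝ) ^ G.card * ∏ a ∈ G, x a ≤
      ∏ a ∈ s, (1 - x a) + (∑ a ∈ s, x a) ^ (J + 1) / (Nat.factorial (J + 1)) := by
  have h := bnf_R_le s x hx J
  rw [hJ.neg_one_pow, one_mul] at h
  unfold bnf_T at h
  linarith

theorem bnf_odd_upper {α : Type} [DecidableEq α] (s : Finset α) (x : α → ℝ) (hx : ∀ a ∈ s, 0 ≤ x a ∧ x a ≤ 1) (J : ℕ) (hJ : Odd J) :
    ∑ G ∈ s.powerset.filter (fun G => G.card ≤ J), (-1 : ℝ) ^ G.card * ∏ a ∈ G, x a ≤ ∏ a ∈ s, (1 - x a) := by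
  have h := bnf_R_nonneg s x hx J
  rw [hJ.neg_one_pow] at h
  unfold bnf_T at h
  linarith

theorem bnf_odd_lower {α : Type} [DecidableEq α] (s : Finset α) (x : α → ℝ) (hx : ∀ a ∈ s, 0 ≤ x a ∧ x a ≤ 1) (J : ℕ) (hJ : Odd J) :
    ∏ a ∈ s, (1 - x a) - (∑ a ∈ s, x a) ^ (J + 1) / (Nat.factorial (J + 1)) ≤
      ∑ G ∈ s.powerset.filter (fun G => G.card ≤ J), (-1 : ℝ) ^ G.card * ∏ a ∈ G, x a := by
  have h := bnf_R_le s x hx J
  rw [hJ.neg_one_pow] at h
  unfold bnf_T at h
  linarith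

end Pool.H64.IR
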