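import Pool.Agent.H64.IR.Defs

/-! MODULE BRG (project MP_a758cf_pr, IR; overview: team-store H64_a758cf.md)
Simple graphs on Fin n correspond to bits on the pairs i < j; adjacency matrix = adj. And the reduction: a rational divisor of the characteristic polynomial gives monic divisors of the same
degree modulo every prime (Gauss lemma: IsIntegrallyClosed.eq_map_mul_C_of_dvd or Polynomial.IsPrimitive...; charpoly of adj over ℚ, ZMod p is the image of the charpoly over ℤ:
Matrix.charpoly_map; the monic integer factor stays monic of the same degree mod p).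
-/

set_option autoImplicit false

namespace Pool.H64.IR

open Finset Polynomial

/-- the graph given by the bits -/
def BRG_graph {n : ℕ} (b : Edge n → Bool) : SimpleGraph (Fin n) where
  Adj i j := (∃ h : i < j, b ⟨(i, j), h⟩ = true) ∨ (∃ h : j < i, b ⟨(j, i), h⟩ = true)
  symm := ⟨fun i j h => Or.symm h⟩
  loopless := ⟨fun i h => by
    rcases h with ⟨h, -⟩ | ⟨h, -⟩ <;> exact lt_irrefl _ h⟩

theorem brg (n : ℕ) : ∃ e : (Edge n → Bool) ≃ SimpleGraph (Fin n), ∀ (b : Edge n → Bool) (R : Type) [Zero R] [One R]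
    [DecidableRel (e b).Adj], (e b).adjMatrix R = adj R b := by
  classical
  refine ⟨{ toFun := BRG_graph
            invFun := fun G e => decide (G.Adj e.1.1 e.1.2)
            left_inv := ?_
            right_inv := ?_ }, ?_⟩
  · intro b
    funext e
    obtain ⟨⟨i, j⟩, h⟩ := e
    have h' : i < j := h
    have h2 : ¬ j < i := not_lt.2 h'.le
    have h3 : (BRG_graph b).Adj i j ↔ b ⟨(i, j), h'⟩ = true := by
      constructor
      · rintro (⟨_, h4⟩ | ⟨h4, -⟩)
        · exact h4
        · exact absurd h4 h2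
      · intro h4; exact Or.inl ⟨h', h4⟩
    show decide ((BRG_graph b).Adj i j) = _
    by_cases h4 : b ⟨(i, j), h'⟩ = true
    · exact (decide_eq_true (h3.2 h4)).trans h4.symm
    · exact (decide_eq_false (fun h5 => h4 (h3.1 h5))).trans (Bool.eq_false_iff.2 h4).symm
  · intro G
    ext i j
    show ((∃ h : i < j, decide (G.Adj i j) = true) ∨ (∃ h : j < i, decide (G.Adj j i) = true)) ↔ G.Adj i j
    constructor
    · rintro (⟨_, h⟩ | ⟨_, h⟩)
      · exact of_decide_eq_true h
      · exact (of_decide_eq_true h).symm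
    · intro h
      rcases lt_trichotomy i j with h1 | h1 | h1
      · exact Or.inl ⟨h1, decide_eq_true h⟩
      · subst h1; exact absurd h (G.irrefl)
      · exact Or.inr ⟨h1, decide_eq_true h.symm⟩
  · intro b R _ _ _
    ext i j
    rw [SimpleGraph.adjMatrix_apply]
    have hR : adj R b i j = if h : i < j then (if b ⟨(i, j), h⟩ then 1 else 0) else if h : j < i then (if b ⟨(j, i), h⟩ then 1 else 0) else 0 := rfl
    rw [hR]
    by_cases h1 : i < j
    · have h2 : ¬ j < i := not_lt.2 h1.le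
      rw [dif_pos h1]
      refine if_congr ?_ rfl rfl
      show ((∃ h : i < j, b ⟨(i, j), h⟩ = true) ∨ (∃ h : j < i, b ⟨(j, i), h⟩ = true)) ↔ _
      constructor
      · rintro (⟨_, h4⟩ | ⟨h4, -⟩)
        · exact h4
        · exact absurd h4 h2
      · intro h4; exact Or.inl ⟨h1, h4⟩
    · rw [dif_neg h1]
      by_cases h2 : j < i
      · rw [dif_pos h2]
        refine if_congr ?_ rfl rfl
        show ((∃ h : i < j, b ⟨(i, j), h⟩ = true) ∨ (∃ h : j < i, b ⟨(j, i), h⟩ = true)) ↔ _
        constructor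
        · rintro (⟨h4, _⟩ | ⟨_, h4⟩)
          · exact absurd h4 h1
          · exact h4
        · intro h4; exact Or.inr ⟨h2, h4⟩
      · rw [dif_neg h2, if_neg]
        rintro (⟨h4, -⟩ | ⟨h4, -⟩)
        · exact h1 h4
        · exact h2 h4

lemma BRG_map {n : ℕ} (b : Edge n → Bool) (R : Type) [CommRing R] :
    (adj ℤ b).charpoly.map (Int.castRingHom R) = (adj R b).charpoly := by
  rw [← Matrix.charpoly_map]
  congr 1
  ext i j
  show (Int.castRingHom R) (if h : i < j then (if b ⟨(i, j), h⟩ then 1 else 0) else if h : j < i then (if b ⟨(j, i), h⟩ then 1 else 0) else 0) =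
    if h : i < j then (if b ⟨(i, j), h⟩ then 1 else 0) else if h : j < i then (if b ⟨(j, i), h⟩ then 1 else 0) else 0
  split_ifs <;> simp

theorem red_int {n : ℕ} (b : Edge n → Bool) (g : ℚ[X]) (hg : g ∣ (adj ℚ b).charpoly) :
    ∃ f : ℤ[X], f.Monic ∧ f.natDegree = g.natDegree ∧ f ∣ (adj ℤ b).charpoly := by
  have hmon : (adj ℤ b).charpoly.Monic := Matrix.charpoly_monic _
  have hg0 : g ≠ 0 := ne_zero_of_dvd_ne_zero (Matrix.charpoly_monic _).ne_zero hg
  have h1 : (adj ℤ b).charpoly.map (algebraMap ℤ ℚ) = (adj ℚ b).charpoly := BRG_map b ℚ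
  rw [← h1] at hg
  obtain ⟨f, hf⟩ := IsIntegrallyClosed.eq_map_mul_C_of_dvd ℚ hmon hg
  have hfm : f.Monic := by
    have h2 : (f.map (algebraMap ℤ ℚ)).leadingCoeff * g.leadingCoeff = g.leadingCoeff := by
      conv_rhs => rw [← hf]
      rw [Polynomial.leadingCoeff_mul, Polynomial.leadingCoeff_C]
    have h3 : (f.map (algebraMap ℤ ℚ)).leadingCoeff = 1 := by
      have h4 : g.leadingCoeff ≠ 0 := Polynomial.leadingCoeff_ne_zero.2 hg0
      exact mul_right_cancel₀ h4 (by rw [h2, one_mul])
    rw [Polynomial.leadingCoeff_map_of_injective (RingHom.injective_int (algebraMap ℤ ℚ))] at h3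
    have : ((f.leadingCoeff : ℤ) : ℚ) = 1 := h3
    exact_mod_cast this
  refine ⟨f, hfm, ?_, ?_⟩
  · rw [← hf, Polynomial.natDegree_mul_C (Polynomial.leadingCoeff_ne_zero.2 hg0)]
    rw [Polynomial.natDegree_map_eq_of_injective (RingHom.injective_int (algebraMap ℤ ℚ))]
  · -- f divides
    have h5 : f.map (algebraMap ℤ ℚ) ∣ (adj ℤ b).charpoly.map (algebraMap ℤ ℚ) := by
      refine dvd_trans ?_ hg
      exact ⟨C g.leadingCoeff, hf.symm⟩
    exact (Polynomial.map_dvd_map _ (RingHom.injective_int (algebraMap ℤ ℚ)) hfm).1 h5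

theorem red {n : ℕ} (b : Edge n → Bool) (g : ℚ[X]) (hg : g ∣ (adj ℚ b).charpoly) (p : ℕ) [Fact p.Prime] :
    ∃ f : (ZMod p)[X], f.Monic ∧ f.natDegree = g.natDegree ∧ f ∣ (adj (ZMod p) b).charpoly := by
  obtain ⟨f, hf1, hf2, hf3⟩ := red_int b g hg
  refine ⟨f.map (Int.castRingHom (ZMod p)), hf1.map _, ?_, ?_⟩
  · rw [hf1.natDegree_map, hf2]
  · rw [← BRG_map b (ZMod p)]
    exact Polynomial.map_dvd _ hf3

end Pool.H64.IR
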