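import Pool.Agent.H64.IR.B9M

/-! MODULE BTM (project MP_a758cf_pr, IR; overview: team-store H64_a758cf.md)
pr(Bad4 g and kerc g = q) <= e/q. By b7m the event implies that at least q-1 vectors v /= 0 satisfy the two conditions, so pr <= (1/(q-1)) sum_{v /= 0} pr(two conditions with s = s(v)) and by b8m (v <-> V bijection through e)
<= (1/(q-1)) (2^(k(k+1)/2)/2^(nk)) (Iso n k/2^k + number of exceptional isotropic frames) <= (1/(q-1)) (2/2^k + e') (iso_upper, b9m), k >= n/4.
-/

set_option autoImplicit false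

namespace Pool.H64.IR

open Finset Polynomial

theorem btm (d e : ℝ) (hd : 0 < d) (he : 0 < e) : ∃ n0 : ℕ, ∀ n : ℕ, n0 ≤ n → ∀ g : (ZMod 2)[X], g.Monic → Irreducible g →
    (2 * g.natDegree : ℝ) ≤ (1 - d) * n → n ≤ 4 * g.natDegree →
    pr (fun b : Edge n → Bool => Bad4 g b ∧ kerc g (adj (ZMod 2) b) = (2 : ℝ) ^ g.natDegree) ≤ e / (2 : ℝ) ^ g.natDegree := by
  classical
  obtain ⟨n1, hn1⟩ := b9m d (e / 2) hd (by positivity)
  obtain ⟨k0, hk0⟩ : ∃ k0 : ℕ, 4 / e + 2 < (2 : ℝ) ^ k0 := pow_unbounded_of_one_lt _ one_lt_two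
  refine ⟨max n1 (max 8 (4 * k0)), fun n hn g hg hi h2k h4k => ?_⟩
  have hn1' : n1 ≤ n := le_trans (le_max_left _ _) hn
  have hn8 : 8 ≤ n := le_trans (le_trans (le_max_left _ _) (le_max_right _ _)) hn
  have hnk0 : 4 * k0 ≤ n := le_trans (le_trans (le_max_right _ _) (le_max_right _ _)) hn
  have hk2 : 2 ≤ g.natDegree := by omega
  have hkk : k0 ≤ g.natDegree := by omega
  have h2kn : 2 * g.natDegree ≤ n := by
    have h1 : (2 * g.natDegree : ℝ) ≤ n := by
      have : (0 : ℝ) ≤ n := Nat.cast_nonneg _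
      nlinarith
    exact_mod_cast h1
  have hexc := hn1 n g.natDegree hn1' h2k
  have hiso := iso_upper n g.natDegree h2kn
  have : Fact (Irreducible g) := ⟨hi⟩
  have hfin : Module.Finite (ZMod 2) (AdjoinRoot g) := (AdjoinRoot.powerBasis' hg).finite
  have hfin2 : Finite (AdjoinRoot g) := Module.finite_of_finite (ZMod 2)
  let _ : Fintype (AdjoinRoot g) := Fintype.ofFinite _
  obtain ⟨s, hs⟩ := b7m n g hg hi
  obtain ⟨f, hf⟩ := b8m n g hg hi hk2
  have hcard : (Fintype.card (AdjoinRoot g) : ℝ) = (2 : ℝ) ^ g.natDegree := by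
    rw [Fintype.card_congr f.toEquiv, Fintype.card_fun, ZMod.card, Fintype.card_fin]
    push_cast
    rfl
  set q : ℝ := (2 : ℝ) ^ g.natDegree with hq
  have hq1 : 4 / e + 2 < q := lt_of_lt_of_le hk0 (pow_le_pow_right₀ (by norm_num) hkk)
  have hq2 : 2 < q := by
    have : 0 < 4 / e := by positivity
    linarith
  have hqpos : 0 < q := by linarith
  set c : ℝ := ((2 : ℝ) ^ n) ^ g.natDegree / (2 : ℝ) ^ (g.natDegree * (g.natDegree + 1) / 2) with hc
  have hcpos : 0 < c := by positivity
  -- the conditions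
  let P : (Fin n → AdjoinRoot g) → (Edge n → Bool) → Prop := fun v b =>
    (∀ i, ∑ j, (adj (ZMod 2) b i j) • v j = AdjoinRoot.root g * v i) ∧
        (∑ ed : Edge n, if b ed then v ed.1.1 * v ed.1.2 else 0) = s v
  -- many vectors
  have h1 : ∀ b : Edge n → Bool, ind (Bad4 g b ∧ kerc g (adj (ZMod 2) b) = (2 : ℝ) ^ g.natDegree) * (q - 1) ≤
      ∑ v ∈ univ.erase (0 : Fin n → AdjoinRoot g), ind (P v b) := by
    intro b
    by_cases hb : Bad4 g b ∧ kerc g (adj (ZMod 2) b) = (2 : ℝ) ^ g.natDegree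
    swap
    · rw [ind_false hb, zero_mul]
      exact Finset.sum_nonneg fun _ _ => ind_nonneg _
    rw [ind_true hb, one_mul]
    obtain ⟨v, hv0, hv⟩ := hs b hb.1 hb.2
    obtain ⟨i0, hi0⟩ : ∃ i, v i ≠ 0 := by
      by_contra hno
      push Not at hno
      exact hv0 (funext hno)
    have hinj : Function.Injective (fun c : AdjoinRoot g => (fun i => c * v i : Fin n → AdjoinRoot g)) := by
      intro x y hxy
      have := congrFun hxy i0
      exact mul_right_cancel₀ hi0 this
    have hsub : (univ.erase (0 : AdjoinRoot g)).image (fun c => (fun i => c * v i : Fin n → AdjoinRoot g)) ⊆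
        univ.erase (0 : Fin n → AdjoinRoot g) := by
      intro w hw
      obtain ⟨x, hx, rfl⟩ := Finset.mem_image.1 hw
      refine Finset.mem_erase.2 ⟨?_, Finset.mem_univ _⟩
      intro h0
      have := congrFun h0 i0
      rcases mul_eq_zero.1 this with h | h
      · exact (Finset.mem_erase.1 hx).1 h
      · exact hi0 h
    calc q - 1 = ∑ x ∈ univ.erase (0 : AdjoinRoot g), (1 : ℝ) := by
          rw [Finset.sum_const, Finset.card_erase_of_mem (Finset.mem_univ _), Finset.card_univ, nsmul_eq_mul,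
            mul_one, Nat.cast_sub (Fintype.card_pos), hcard]
          simp
      _ = ∑ x ∈ univ.erase (0 : AdjoinRoot g), ind (P (fun i => x * v i) b) := by
          refine Finset.sum_congr rfl fun x hx => (ind_true ?_).symm
          exact hv x (Finset.mem_erase.1 hx).1
      _ = ∑ w ∈ (univ.erase (0 : AdjoinRoot g)).image (fun c => (fun i => c * v i : Fin n → AdjoinRoot g)),
            ind (P w b) := by
          rw [Finset.sum_image (fun x _ y _ h => hinj h)]
      _ ≤ _ := Finset.sum_le_sum_of_subset_of_nonneg hsub fun _ _ _ => ind_nonneg _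
  have h2 : pr (fun b : Edge n → Bool => Bad4 g b ∧ kerc g (adj (ZMod 2) b) = (2 : ℝ) ^ g.natDegree) * (q - 1) ≤
      ∑ v ∈ univ.erase (0 : Fin n → AdjoinRoot g), pr (P v) := by
    unfold pr
    rw [← avg_mul_const, ← avg_sum]
    exact avg_mono h1
  -- the matrix of v
  let σ : (Fin n → AdjoinRoot g) ≃ Matrix (Fin n) (Fin g.natDegree) (ZMod 2) :=
    Equiv.arrowCongr (Equiv.refl _) f.toEquiv
  have h3 : ∑ v ∈ univ.erase (0 : Fin n → AdjoinRoot g), pr (P v) ≤
      ∑ V : Matrix (Fin n) (Fin g.natDegree) (ZMod 2),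
        (ind (FullRank V ∧ V.transpose * V = 0) * (1 / c) * (1 / q + ind (Exc V))) := by
    rw [← Equiv.sum_comp σ]
    refine le_trans (Finset.sum_le_sum fun v hv => ?_)
      (Finset.sum_le_sum_of_subset_of_nonneg (Finset.subset_univ _) fun v _ _ => ?_)
    · have h4 := hf v (s v) (Finset.mem_erase.1 hv).1
      refine h4.trans (le_of_eq ?_)
      rw [hc, one_div_div]
      rfl
    · have h5 := ind_nonneg (FullRank (σ v) ∧ (σ v).transpose * (σ v) = 0)
      have h6 := ind_nonneg (Exc (σ v))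
      positivity
  have h4 : ∑ V : Matrix (Fin n) (Fin g.natDegree) (ZMod 2),
        (ind (FullRank V ∧ V.transpose * V = 0) * (1 / c) * (1 / q + ind (Exc V))) =
      (1 / c) * (Iso n g.natDegree / q + ∑ V : Matrix (Fin n) (Fin g.natDegree) (ZMod 2),
        ind (FullRank V ∧ V.transpose * V = 0 ∧ Exc V)) := by
    unfold Iso
    rw [Finset.sum_div, ← Finset.sum_add_distrib, Finset.mul_sum]
    refine Finset.sum_congr rfl fun V _ => ?_
    have : ind (FullRank V ∧ V.transpose * V = 0 ∧ Exc V) =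
        ind (FullRank V ∧ V.transpose * V = 0) * ind (Exc V) := by
      rw [← ind_and]
      exact ind_congr and_assoc.symm
    rw [this]
    ring
  have h5 : Iso n g.natDegree ≤ 2 * c := by
    refine hiso.trans (mul_le_mul_of_nonneg_right ?_ hcpos.le)
    have : (4 : ℝ) ^ g.natDegree / 2 ^ n ≤ 1 := by
      rw [div_le_one (by positivity)]
      calc (4 : ℝ) ^ g.natDegree = 2 ^ (2 * g.natDegree) := by
            rw [pow_mul]; norm_num
        _ ≤ 2 ^ n := pow_le_pow_right₀ (by norm_num) h2kn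
    linarith
  have h6 : pr (fun b : Edge n → Bool => Bad4 g b ∧ kerc g (adj (ZMod 2) b) = (2 : ℝ) ^ g.natDegree) * (q - 1) ≤
      2 / q + e / 2 := by
    refine h2.trans (h3.trans ?_)
    rw [h4]
    have h7 : Iso n g.natDegree / q + ∑ V : Matrix (Fin n) (Fin g.natDegree) (ZMod 2),
        ind (FullRank V ∧ V.transpose * V = 0 ∧ Exc V) ≤ 2 * c / q + e / 2 * c :=
      add_le_add (div_le_div_of_nonneg_right h5 hqpos.le) hexc
    refine (mul_le_mul_of_nonneg_left h7 (by positivity)).trans (le_of_eq ?_)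
    field_simp
  have hq11 : 0 < q - 1 := by linarith
  have h8 : pr (fun b : Edge n → Bool => Bad4 g b ∧ kerc g (adj (ZMod 2) b) = (2 : ℝ) ^ g.natDegree) ≤
      (2 / q + e / 2) / (q - 1) := by
    rw [le_div_iff₀ hq11]
    exact h6
  refine h8.trans ?_
  rw [div_le_div_iff₀ hq11 hqpos]
  have h9 : (2 / q + e / 2) * q = 2 + e / 2 * q := by field_simp
  rw [h9]
  have h10 : 4 + 2 * e < e * q := by
    have := mul_lt_mul_of_pos_left hq1 he
    have h11 : e * (4 / e + 2) = 4 + 2 * e := by field_simp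
    linarith
  linarith

end Pool.H64.IR
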