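import Pool.Agent.H64.IR.Defs

/-! MODULE CMP1 (project MP_a758cf_pr, IR; overview: team-store H64_a758cf.md)
XC (comp f) A = X1 f A for monic f (degree k, also k = 0).
V = V (comp f) relation: column j+1 of V is A times column j (j+1 < k), and A v_{k-1} = - sum_i f_i v_i, so with z = column 0: v_j = A^j z and
f(A) z = 0; full rank says z, Az, .., A^{k-1} z independent, i.e. no nonzero polynomial of degree < k kills z; together with f(A) z = 0, f monic:
g(A) z = 0 iff f | g (divide g by f). Bijection V <-> z. (For k = 0: f = 1, V is the empty matrix, z = 0 is the only vector with annihilator (1).)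
-/

set_option autoImplicit false

namespace Pool.H64.IR

open Finset Polynomial

private lemma cmp1_aeval {F : Type} [Field F] {n : ℕ} (A : Matrix (Fin n) (Fin n) F)
    (z : Fin n → F) (g : F[X]) (N : ℕ) (hN : ∀ i, N ≤ i → g.coeff i = 0) :
    (Polynomial.aeval A g).mulVec z = ∑ c : Fin N, g.coeff c • (A ^ (c : ℕ)).mulVec z := by
  have h1 : Polynomial.aeval A g = ∑ c ∈ Finset.range N, g.coeff c • A ^ c := by
    rw [Polynomial.aeval_def, Polynomial.eval₂_eq_sum, Polynomial.sum_over_range' _ _ (max N (g.natDegree + 1))]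
    · rw [← Finset.sum_subset (Finset.range_subset_range.2 (le_max_left N (g.natDegree + 1)))]
      · refine Finset.sum_congr rfl fun c _ => ?_
        rw [Algebra.smul_def]
      · intro x _ hx
        rw [Finset.mem_range, not_lt] at hx
        rw [hN x hx, map_zero, zero_mul]
    · exact lt_of_lt_of_le (Nat.lt_succ_self _) (le_max_right _ _)
    · intro i
      rw [map_zero, zero_mul]
  rw [h1, Finset.sum_range, Matrix.sum_mulVec]
  refine Finset.sum_congr rfl fun c _ => ?_
  rw [Matrix.smul_mulVec]

/-- linear independence of `z, A z, .., A^(k-1) z` -/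
private lemma cmp1_li {F : Type} [Field F] {n k : ℕ} (A : Matrix (Fin n) (Fin n) F) (z : Fin n → F)
    (f : F[X]) (hk : f.natDegree = k) (hf : f.Monic) (hfz : (Polynomial.aeval A f).mulVec z = 0) :
    (∀ g : F[X], (Polynomial.aeval A g).mulVec z = 0 ↔ f ∣ g) ↔
      LinearIndependent F (fun a : Fin k => (A ^ (a : ℕ)).mulVec z) := by
  classical
  rw [Fintype.linearIndependent_iff]
  constructor
  · intro h c hc
    set g : F[X] := ∑ a : Fin k, Polynomial.monomial (a : ℕ) (c a) with hg
    have hcoeff : ∀ a : Fin k, g.coeff a = c a := by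
      intro a
      rw [hg, Polynomial.finset_sum_coeff, Finset.sum_eq_single a]
      · rw [Polynomial.coeff_monomial, if_pos rfl]
      · intro b _ hb
        rw [Polynomial.coeff_monomial, if_neg]
        intro h
        exact hb (Fin.ext h)
      · intro h
        exact absurd (Finset.mem_univ _) h
    have hcoeff' : ∀ i, k ≤ i → g.coeff i = 0 := by
      intro i hi
      rw [hg, Polynomial.finset_sum_coeff]
      refine Finset.sum_eq_zero fun b _ => ?_
      rw [Polynomial.coeff_monomial, if_neg]
      have := b.2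
      omega
    have h1 : (Polynomial.aeval A g).mulVec z = 0 := by
      rw [cmp1_aeval A z g k hcoeff', ← hc]
      refine Finset.sum_congr rfl fun a _ => ?_
      rw [hcoeff]
    have h2 := (h g).1 h1
    have h3 : g = 0 := by
      refine Polynomial.eq_zero_of_dvd_of_degree_lt h2 ?_
      rw [Polynomial.degree_eq_natDegree hf.ne_zero, hk]
      exact (Polynomial.degree_lt_iff_coeff_zero g k).2 hcoeff'
    intro a
    rw [← hcoeff a, h3, Polynomial.coeff_zero]
  · intro h g
    constructor
    · intro hgz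
      have h1 : (Polynomial.aeval A (g %ₘ f)).mulVec z = 0 := by
        have h2 : g = f * (g /ₘ f) + g %ₘ f := by
          rw [add_comm]
          exact (Polynomial.modByMonic_add_div g f).symm
        have h3 : (Polynomial.aeval A (f * (g /ₘ f))).mulVec z = 0 := by
          rw [mul_comm, map_mul, ← Matrix.mulVec_mulVec, hfz, Matrix.mulVec_zero]
        rw [h2, map_add, Matrix.add_mulVec, h3, zero_add] at hgz
        exact hgz
      have hdeg : ∀ i, k ≤ i → (g %ₘ f).coeff i = 0 := by
        have h4 := Polynomial.degree_modByMonic_lt g hf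
        rw [Polynomial.degree_eq_natDegree hf.ne_zero, hk] at h4
        exact (Polynomial.degree_lt_iff_coeff_zero _ k).1 h4
      rw [cmp1_aeval A z _ k hdeg] at h1
      have h5 := h _ h1
      rw [← Polynomial.modByMonic_eq_zero_iff_dvd hf]
      ext i
      rw [Polynomial.coeff_zero]
      rcases Nat.lt_or_ge i k with h6 | h6
      · exact h5 ⟨i, h6⟩
      · exact hdeg i h6
    · rintro ⟨g, rfl⟩
      rw [mul_comm, map_mul, ← Matrix.mulVec_mulVec, hfz, Matrix.mulVec_zero]

private lemma cmp1_as_sum {F : Type} [Field F] {n k : ℕ} (A : Matrix (Fin n) (Fin n) F) (z : Fin n → F)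
    (f : F[X]) (hk : f.natDegree = k) (hf : f.Monic) :
    (Polynomial.aeval A f).mulVec z =
      (A ^ k).mulVec z + ∑ c : Fin k, f.coeff c • (A ^ (c : ℕ)).mulVec z := by
  rw [cmp1_aeval A z f (k + 1), Fin.sum_univ_castSucc, add_comm]
  · congr 1
    rw [Fin.val_last]
    have h1 : f.coeff k = 1 := by rw [← hk]; exact hf.coeff_natDegree
    rw [h1, one_smul]
  · intro i hi
    exact Polynomial.coeff_eq_zero_of_natDegree_lt (by omega)

/-- the relation `A V = V C` column by column -/
private lemma cmp1_rel {F : Type} [Field F] {n k : ℕ} (A : Matrix (Fin n) (Fin n) F)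
    (f : F[X]) (C : Matrix (Fin k) (Fin k) F)
    (hC : ∀ i j : Fin k, C i j = if (j : ℕ) + 1 = k then - f.coeff i else if (i : ℕ) = j + 1 then 1 else 0)
    (V : Matrix (Fin n) (Fin k) F) :
    (A * V = V * C) ↔ (∀ (j : ℕ) (hj : j + 1 < k),
        A.mulVec (fun i => V i ⟨j, by omega⟩) = fun i => V i ⟨j + 1, hj⟩) ∧
      (∀ (j : ℕ) (hj : j + 1 = k), A.mulVec (fun i => V i ⟨j, by omega⟩) =
        - ∑ c : Fin k, f.coeff c • fun i => V i c) := by
  have hcol1 : ∀ (j : ℕ) (hj : j + 1 < k) (i : Fin n), (V * C) i ⟨j, by omega⟩ = V i ⟨j + 1, hj⟩ := by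
    intro j hj i
    rw [Matrix.mul_apply, Finset.sum_eq_single (⟨j + 1, hj⟩ : Fin k)]
    · rw [hC, if_neg (by simpa using hj.ne), if_pos rfl, mul_one]
    · intro c _ hc
      rw [hC, if_neg (by simpa using hj.ne), if_neg, mul_zero]
      intro h
      exact hc (Fin.ext h)
    · intro h
      exact absurd (Finset.mem_univ _) h
  have hcol2 : ∀ (j : ℕ) (hj : j + 1 = k) (i : Fin n), (V * C) i ⟨j, by omega⟩ =
      (- ∑ c : Fin k, f.coeff c • fun i => V i c) i := by
    intro j hj i
    rw [Matrix.mul_apply, Pi.neg_apply, Finset.sum_apply, ← Finset.sum_neg_distrib]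
    refine Finset.sum_congr rfl fun c _ => ?_
    rw [hC, if_pos (by simpa using hj), Pi.smul_apply, smul_eq_mul]
    ring
  constructor
  · intro h
    constructor
    · intro j hj
      ext i
      rw [← hcol1 j hj i, ← h]
      rfl
    · intro j hj
      ext i
      rw [← hcol2 j hj i, ← h]
      rfl
  · rintro ⟨h1, h2⟩
    ext i j
    obtain ⟨j, hj⟩ := j
    rcases Nat.lt_or_ge (j + 1) k with h3 | h3
    · rw [hcol1 j h3 i]
      exact congrFun (h1 j h3) i
    · have h4 : j + 1 = k := by omega
      rw [hcol2 j h4 i]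
      exact congrFun (h2 j h4) i

private lemma cmp1_gen {F : Type} [Field F] [Fintype F] {n k : ℕ} (A : Matrix (Fin n) (Fin n) F)
    (f : F[X]) (hk : f.natDegree = k) (hf : f.Monic) (C : Matrix (Fin k) (Fin k) F)
    (hC : ∀ i j : Fin k, C i j = if (j : ℕ) + 1 = k then - f.coeff i else if (i : ℕ) = j + 1 then 1 else 0) :
    Nat.card {z : Fin n → F // ∀ g : F[X], (Polynomial.aeval A g).mulVec z = 0 ↔ f ∣ g} =
    Nat.card {V : Matrix (Fin n) (Fin k) F //
      LinearIndependent F (fun a : Fin k => fun i : Fin n => V i a) ∧ A * V = V * C} := by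
  classical
  have hz0 : ∀ z : {z : Fin n → F // ∀ g : F[X], (Polynomial.aeval A g).mulVec z = 0 ↔ f ∣ g},
      (Polynomial.aeval A f).mulVec z.1 = 0 := fun z => (z.2 f).2 dvd_rfl
  refine Nat.card_eq_of_bijective (fun z => ⟨Matrix.of fun i a => (A ^ (a : ℕ)).mulVec z.1 i, ?_, ?_⟩) ⟨?_, ?_⟩
  · exact (cmp1_li A z.1 f hk hf (hz0 z)).1 z.2
  · refine (cmp1_rel A f C hC _).2 ?_
    constructor
    · intro j hj
      change A.mulVec ((A ^ j).mulVec z.1) = (A ^ (j + 1)).mulVec z.1
      rw [Matrix.mulVec_mulVec, pow_succ']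
    · intro j hj
      change A.mulVec ((A ^ j).mulVec z.1) = - ∑ c : Fin k, f.coeff c • (A ^ (c : ℕ)).mulVec z.1
      rw [Matrix.mulVec_mulVec, ← pow_succ', hj]
      have h1 := hz0 z
      rw [cmp1_as_sum A z.1 f hk hf] at h1
      exact eq_neg_of_add_eq_zero_left h1
  · intro z w h
    have h1 : ∀ (i : Fin n) (a : Fin k), (A ^ (a : ℕ)).mulVec z.1 i = (A ^ (a : ℕ)).mulVec w.1 i := by
      intro i a
      exact congrFun (congrFun (congrArg Subtype.val h) i) a
    rcases Nat.eq_zero_or_pos k with h0 | h0
    · have hf1 : f = 1 := by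
        rw [← hf.natDegree_eq_zero, hk, h0]
      have h2 : ∀ z : {z : Fin n → F // ∀ g : F[X], (Polynomial.aeval A g).mulVec z = 0 ↔ f ∣ g},
          z.1 = 0 := by
        intro z
        have h3 := (z.2 1).2 (by rw [hf1])
        rw [map_one, Matrix.one_mulVec] at h3
        exact h3
      apply Subtype.ext
      rw [h2 z, h2 w]
    · apply Subtype.ext
      ext i
      have h2 := h1 i ⟨0, h0⟩
      simpa using h2
  · rintro ⟨V, hV1, hV2⟩
    rw [cmp1_rel A f C hC] at hV2
    obtain ⟨hr1, hr2⟩ := hV2
    rcases Nat.eq_zero_or_pos k with h0 | h0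
    · have hf1 : f = 1 := by
        rw [← hf.natDegree_eq_zero, hk, h0]
      refine ⟨⟨0, ?_⟩, ?_⟩
      · intro g
        rw [Matrix.mulVec_zero, hf1]
        simp
      · apply Subtype.ext
        ext i a
        have := a.2
        omega
    · set z : Fin n → F := fun i => V i ⟨0, h0⟩ with hz
      have hcol : ∀ (a : ℕ) (ha : a < k), (A ^ a).mulVec z = fun i => V i ⟨a, ha⟩ := by
        intro a
        induction a with
        | zero => intro ha; rw [pow_zero, Matrix.one_mulVec]
        | succ a ih =>
          intro ha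
          rw [pow_succ', ← Matrix.mulVec_mulVec, ih (by omega), hr1 a ha]
      have hfz : (Polynomial.aeval A f).mulVec z = 0 := by
        rw [cmp1_as_sum A z f hk hf]
        obtain ⟨j, rfl⟩ : ∃ j, k = j + 1 := ⟨k - 1, by omega⟩
        rw [pow_succ', ← Matrix.mulVec_mulVec, hcol j (by omega), hr2 j rfl, neg_add_eq_zero]
        refine Finset.sum_congr rfl fun c _ => ?_
        rw [hcol c.1 c.2]
      have hli : LinearIndependent F (fun a : Fin k => (A ^ (a : ℕ)).mulVec z) := by
        have h1 : (fun a : Fin k => (A ^ (a : ℕ)).mulVec z) = fun a : Fin k => fun i => V i a := by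
          ext a i
          rw [hcol a.1 a.2]
        rw [h1]
        exact hV1
      refine ⟨⟨z, (cmp1_li A z f hk hf hfz).2 hli⟩, ?_⟩
      apply Subtype.ext
      ext i a
      exact congrFun (hcol a.1 a.2) i

theorem cmp1 {p : ℕ} [Fact p.Prime] {n : ℕ} (f : (ZMod p)[X]) (hf : f.Monic) (A : Matrix (Fin n) (Fin n) (ZMod p)) :
    XC (comp f) A = X1 f A := by
  classical
  have h := cmp1_gen A f rfl hf (comp f) (by
    intro i j
    unfold comp
    rw [Matrix.of_apply])
  have h1 : XC (comp f) A = ∑ V : Matrix (Fin n) (Fin f.natDegree) (ZMod p),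
      (if (LinearIndependent (ZMod p) (fun a : Fin f.natDegree => fun i : Fin n => V i a) ∧
        A * V = V * comp f) then (1 : ℝ) else 0) := by
    unfold XC FullRank
    refine Finset.sum_congr rfl fun S _ => ?_
    split_ifs with h2
    · exact ind_true h2
    · exact ind_false h2
  have h2 : X1 f A = ∑ z : Fin n → ZMod p,
      (if (∀ g : (ZMod p)[X], (Polynomial.aeval A g).mulVec z = 0 ↔ f ∣ g) then (1 : ℝ) else 0) := by
    unfold X1 IsAnn
    refine Finset.sum_congr rfl fun S _ => ?_
    split_ifs with h2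
    · exact ind_true h2
    · exact ind_false h2
  rw [h1, h2, Finset.sum_boole, Finset.sum_boole]
  rw [Nat.card_eq_fintype_card, Fintype.card_subtype, Nat.card_eq_fintype_card,
    Fintype.card_subtype] at h
  exact_mod_cast h.symm

end Pool.H64.IR
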