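import Pool.Agent.H64.IR.Defs

/-! MODULE COLS (project MP_a758cf_pr, IR; overview: team-store H64_a758cf.md)
Weighted count of column blocks. C0 a subspace of F^L (given as the column space of P : L x L), Q : L x H matrix with rank [P Q] - rank P = a
(fromCols P Q). Weight c1^(number of nonzero entries of Q), 0 < c1 < 1. Then
sum_Q ind(rank (fromCols P Q) = rank P + a) c1^nnz(Q) <= (card H)^a * ((1 + (q-1) c1)^(card L))^a * (q^(rank P + a))^(card H).
Proof: choose a columns h_1..h_a in H (injection Fin a -> H, at most (card H)^a) which together with the columns of P generate all columns; the entries of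
these a columns are free with weight: sum over one column of c1^nnz = (1+(q-1)c1)^(card L); every other column lies in the span of dimension
rank P + a, q^(rank P + a) choices each, weight <= 1. (Injectivity: Q is determined by the choice of columns, their entries, and the other columns.)
-/

set_option autoImplicit false

namespace Pool.H64.IR

open Finset Polynomial

/-- choice of generating columns -/
theorem cols_choice {F E H : Type} [Field F] [AddCommGroup E] [Module F E] [FiniteDimensional F E]
    (v : H → E) (a : ℕ) : ∀ (W0 : Submodule F E),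
      Module.finrank F (W0 ⊔ Submodule.span F (Set.range v) : Submodule F E) = Module.finrank F W0 + a →
      ∃ s : Fin a → H, Function.Injective s ∧ (∀ i, v (s i) ∉ W0) ∧
        ∀ h, v h ∈ W0 ⊔ Submodule.span F (Set.range (fun i => v (s i))) := by
  induction a with
  | zero =>
    intro W0 h0
    refine ⟨fun i => i.elim0, fun i => i.elim0, fun i => i.elim0, fun h => ?_⟩
    have h1 : W0 = W0 ⊔ Submodule.span F (Set.range v) :=
      Submodule.eq_of_le_of_finrank_le le_sup_left (by rw [h0, Nat.add_zero])
    have h2 : v h ∈ W0 := by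
      rw [h1]
      exact (le_sup_right : _ ≤ W0 ⊔ Submodule.span F (Set.range v)) (Submodule.subset_span ⟨h, rfl⟩)
    exact (le_sup_left : W0 ≤ _) h2
  | succ a ih =>
    intro W0 h0
    obtain ⟨h1, hh1⟩ : ∃ h, v h ∉ W0 := by
      by_contra hcon
      push Not at hcon
      have h2 : W0 ⊔ Submodule.span F (Set.range v) = W0 := by
        rw [sup_eq_left, Submodule.span_le]
        rintro _ ⟨h, rfl⟩
        exact hcon h
      rw [h2] at h0
      omega
    set W1 : Submodule F E := W0 ⊔ Submodule.span F {v h1} with hW1
    have hv1 : v h1 ∈ W1 := (le_sup_right : _ ≤ W1) (Submodule.mem_span_singleton_self _)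
    have hle : W0 ≤ W1 := le_sup_left
    have hlt : W0 < W1 := lt_of_le_of_ne hle (fun h => hh1 (h ▸ hv1))
    have hf1 : Module.finrank F W1 = Module.finrank F W0 + 1 := by
      have e1 := Submodule.finrank_lt_finrank_of_lt hlt
      have e2 : Module.finrank F W1 ≤ Module.finrank F W0 + 1 := by
        refine (Submodule.finrank_add_le_finrank_add_finrank _ _).trans ?_
        exact Nat.add_le_add_left (finrank_span_singleton (fun h => hh1 (by rw [h]; exact W0.zero_mem))).le _
      omega
    have hsup : W1 ⊔ Submodule.span F (Set.range v) = W0 ⊔ Submodule.span F (Set.range v) := by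
      rw [hW1, sup_assoc]
      congr 1
      rw [sup_eq_right, Submodule.span_le, Set.singleton_subset_iff]
      exact Submodule.subset_span ⟨h1, rfl⟩
    obtain ⟨s, hs1, hs2, hs3⟩ := ih W1 (by rw [hsup, h0, hf1]; ring)
    refine ⟨Fin.cons h1 s, ?_, ?_, ?_⟩
    · rw [Fin.cons_injective_iff]
      refine ⟨?_, hs1⟩
      rintro ⟨i, hi⟩
      exact hs2 i (hi ▸ hv1)
    · intro i
      refine Fin.cases ?_ (fun j => ?_) i
      · simpa using hh1
      · simp only [Fin.cons_succ]
        exact fun h => hs2 j (hle h)
    · intro h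
      refine (?_ : W1 ⊔ Submodule.span F (Set.range (fun i => v (s i))) ≤ _) (hs3 h)
      rw [hW1, sup_assoc]
      refine sup_le_sup_left ?_ _
      rw [sup_le_iff, Submodule.span_le, Submodule.span_le]
      constructor
      · rw [Set.singleton_subset_iff]
        exact Submodule.subset_span ⟨0, by simp⟩
      · rintro _ ⟨i, rfl⟩
        exact Submodule.subset_span ⟨i.succ, by simp⟩

theorem cols_sum_ind {α : Type} [Fintype α] (P : α → Prop) :
    ∑ a, ind (P a) = (Nat.card {a // P a} : ℝ) := by
  classical
  unfold ind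
  rw [Finset.sum_boole, Nat.card_eq_fintype_card, Fintype.card_subtype]

theorem cols_count_W {F : Type} [Field F] [Fintype F] {L H : Type} [Fintype L] [DecidableEq L]
    [Fintype H] [DecidableEq H] [DecidableEq F] (W : Submodule F (L → F)) :
    ∑ Q : Matrix L H F, ind (∀ h, Q.col h ∈ W) =
      ((Fintype.card F : ℝ) ^ (Module.finrank F W)) ^ Fintype.card H := by
  classical
  have e : {Q : Matrix L H F // ∀ h, Q.col h ∈ W} ≃ (H → W) :=
    { toFun := fun Q h => ⟨Q.1.col h, Q.2 h⟩
      invFun := fun f => ⟨Matrix.of fun l h => (f h).1 l, fun h => (f h).2⟩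
      left_inv := fun Q => rfl
      right_inv := fun f => rfl }
  rw [cols_sum_ind (fun Q : Matrix L H F => ∀ h, Q.col h ∈ W), Nat.card_congr e,
    Nat.card_fun, Module.natCard_eq_pow_finrank (K := F) (V := W), Nat.card_eq_fintype_card,
    Nat.card_eq_fintype_card]
  push_cast
  rfl

theorem cols_weight {F : Type} [Field F] [Fintype F] [DecidableEq F] {L : Type} [Fintype L] [DecidableEq L]
    (c1 : ℝ) :
    ∑ v : L → F, c1 ^ (univ.filter fun l : L => v l ≠ 0).card =
      (1 + ((Fintype.card F : ℝ) - 1) * c1) ^ Fintype.card L := by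
  have h1 : ∀ v : L → F, c1 ^ (univ.filter fun l : L => v l ≠ 0).card =
      ∏ l : L, (if v l ≠ 0 then c1 else 1) := by
    intro v
    rw [Finset.prod_ite, Finset.prod_const, Finset.prod_const_one, mul_one]
  simp only [h1]
  have h2 := (Finset.prod_univ_sum (fun _ : L => (univ : Finset F))
    (fun _ x => if x ≠ 0 then c1 else (1 : ℝ))).symm
  rw [Fintype.piFinset_univ] at h2
  rw [h2, Finset.prod_const, Finset.card_univ]
  congr 1
  have h3 : ∀ x : F, (if x ≠ 0 then c1 else (1 : ℝ)) = c1 + (if x = 0 then 1 - c1 else 0) := by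
    intro x
    by_cases hx : x = 0 <;> simp [hx]
  simp only [h3]
  rw [Finset.sum_add_distrib, Finset.sum_const, Finset.sum_ite_eq' univ (0 : F), Finset.card_univ]
  simp
  ring

theorem cols_count {F : Type} [Field F] [Fintype F] [DecidableEq F] {L H : Type} [Fintype L] [DecidableEq L] [Fintype H] [DecidableEq H]
    (c1 : ℝ) (h0 : 0 < c1) (h1 : c1 < 1) (P : Matrix L L F) (a : ℕ) :
    (∑ Q : Matrix L H F, ind ((Matrix.fromCols P Q).rank = P.rank + a) *
        c1 ^ (univ.filter fun x : L × H => Q x.1 x.2 ≠ 0).card) ≤
      (Fintype.card H : ℝ) ^ a * ((1 + ((Fintype.card F : ℝ) - 1) * c1) ^ Fintype.card L) ^ a *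
        ((Fintype.card F : ℝ) ^ (P.rank + a)) ^ Fintype.card H := by
  classical
  set W0 : Submodule F (L → F) := Submodule.span F (Set.range P.col) with hW0
  have hP : P.rank = Module.finrank F W0 := P.rank_eq_finrank_span_cols
  have hPQ : ∀ Q : Matrix L H F, (Matrix.fromCols P Q).rank =
      Module.finrank F (W0 ⊔ Submodule.span F (Set.range Q.col) : Submodule F (L → F)) := by
    intro Q
    rw [Matrix.rank_eq_finrank_span_cols]
    have : Set.range (Matrix.fromCols P Q).col = Set.range P.col ∪ Set.range Q.col := by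
      ext v
      constructor
      · rintro ⟨(i | i), rfl⟩
        · left; exact ⟨i, rfl⟩
        · right; exact ⟨i, rfl⟩
      · rintro (⟨i, rfl⟩ | ⟨i, rfl⟩)
        · exact ⟨Sum.inl i, rfl⟩
        · exact ⟨Sum.inr i, rfl⟩
    rw [this, Submodule.span_union]
  set W : (Fin a → L → F) → Submodule F (L → F) := fun U => W0 ⊔ Submodule.span F (Set.range U) with hW
  have hWr : ∀ U, Module.finrank F (W U) ≤ P.rank + a := by
    intro U
    rw [hP]
    refine (Submodule.finrank_add_le_finrank_add_finrank _ _).trans (Nat.add_le_add_left ?_ _)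
    have := finrank_range_le_card (R := F) U
    rw [Fintype.card_fin] at this
    exact this
  set wt1 : (L → F) → ℝ := fun v => c1 ^ (univ.filter fun l : L => v l ≠ 0).card with hwt1
  have hwt0 : ∀ v, 0 ≤ wt1 v := fun v => by positivity
  -- the main pointwise estimate
  have key : ∀ Q : Matrix L H F, ind ((Matrix.fromCols P Q).rank = P.rank + a) *
        c1 ^ (univ.filter fun x : L × H => Q x.1 x.2 ≠ 0).card ≤
      ∑ U : Fin a → L → F, ind (∀ h, Q.col h ∈ W U) * ∏ i, wt1 (U i) := by
    intro Q
    have hnn : ∀ U : Fin a → L → F, 0 ≤ ind (∀ h, Q.col h ∈ W U) * ∏ i, wt1 (U i) :=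
      fun U => mul_nonneg (ind_nonneg _) (Finset.prod_nonneg (fun i _ => hwt0 _))
    by_cases h : (Matrix.fromCols P Q).rank = P.rank + a
    · rw [ind_true h, one_mul]
      rw [hPQ, hP] at h
      obtain ⟨s, hs1, -, hs3⟩ := cols_choice Q.col a W0 h
      refine le_trans ?_ (Finset.single_le_sum (fun U _ => hnn U)
        (Finset.mem_univ (fun i => Q.col (s i))))
      rw [ind_true (fun h => hs3 h), one_mul]
      simp only [hwt1]
      rw [Finset.prod_pow_eq_pow_sum]
      refine pow_le_pow_of_le_one h0.le h1.le ?_
      have e1 : ∑ i, (univ.filter fun l : L => Q.col (s i) l ≠ 0).card =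
          ((univ : Finset (Fin a)).biUnion (fun i => (univ.filter fun l : L => Q.col (s i) l ≠ 0).image
            (fun l => (l, s i)))).card := by
        rw [Finset.card_biUnion]
        · refine Finset.sum_congr rfl (fun i _ => ?_)
          rw [Finset.card_image_of_injective]
          intro l l' hll
          exact (Prod.mk.inj hll).1
        · intro i _ j _ hij
          refine Finset.disjoint_left.2 ?_
          intro x hx hx'
          rw [Finset.mem_image] at hx hx'
          obtain ⟨l, _, rfl⟩ := hx
          obtain ⟨l', _, hl'⟩ := hx'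
          exact hij (hs1 (Prod.mk.inj hl').2.symm)
      rw [e1]
      refine Finset.card_le_card ?_
      intro x hx
      rw [Finset.mem_biUnion] at hx
      obtain ⟨i, _, hi⟩ := hx
      rw [Finset.mem_image] at hi
      obtain ⟨l, hl, rfl⟩ := hi
      rw [Finset.mem_filter] at hl ⊢
      exact ⟨Finset.mem_univ _, hl.2⟩
    · rw [ind_false h, zero_mul]
      exact Finset.sum_nonneg (fun U _ => hnn U)
  have hq1 : (1 : ℝ) ≤ Fintype.card F := by
    exact_mod_cast Fintype.card_pos
  have hX : (0 : ℝ) ≤ 1 + ((Fintype.card F : ℝ) - 1) * c1 := by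
    have : 0 ≤ ((Fintype.card F : ℝ) - 1) * c1 := mul_nonneg (by linarith) h0.le
    linarith
  have main : (∑ Q : Matrix L H F, ind ((Matrix.fromCols P Q).rank = P.rank + a) *
        c1 ^ (univ.filter fun x : L × H => Q x.1 x.2 ≠ 0).card) ≤
      ((1 + ((Fintype.card F : ℝ) - 1) * c1) ^ Fintype.card L) ^ a *
        ((Fintype.card F : ℝ) ^ (P.rank + a)) ^ Fintype.card H := by
    refine (Finset.sum_le_sum (fun Q _ => key Q)).trans ?_
    rw [Finset.sum_comm]
    have e2 : ∀ U : Fin a → L → F, ∑ Q : Matrix L H F, ind (∀ h, Q.col h ∈ W U) * ∏ i, wt1 (U i) ≤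
        (∏ i, wt1 (U i)) * ((Fintype.card F : ℝ) ^ (P.rank + a)) ^ Fintype.card H := by
      intro U
      rw [← Finset.sum_mul, cols_count_W, mul_comm]
      refine mul_le_mul_of_nonneg_left ?_ (Finset.prod_nonneg (fun i _ => hwt0 _))
      exact pow_le_pow_left₀ (by positivity) (pow_le_pow_right₀ hq1 (hWr U)) _
    refine (Finset.sum_le_sum (fun U _ => e2 U)).trans ?_
    rw [← Finset.sum_mul, ← cols_weight (F := F) (L := L) c1, Fintype.sum_pow]
  rcases Nat.eq_zero_or_pos (Fintype.card H) with hH | hH
  · rcases Nat.eq_zero_or_pos a with ha | ha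
    · subst ha
      simpa using main
    · -- no columns: the left side vanishes
      have hE : IsEmpty H := Fintype.card_eq_zero_iff.1 hH
      have : ∀ Q : Matrix L H F, ind ((Matrix.fromCols P Q).rank = P.rank + a) *
        c1 ^ (univ.filter fun x : L × H => Q x.1 x.2 ≠ 0).card = 0 := by
        intro Q
        rw [ind_false, zero_mul]
        rw [hPQ, hP, Set.range_eq_empty, Submodule.span_empty, sup_bot_eq]
        omega
      rw [Finset.sum_congr rfl (fun Q _ => this Q), Finset.sum_const_zero]
      positivity
  · refine main.trans ?_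
    rw [mul_assoc]
    refine le_mul_of_one_le_left (by positivity) ?_
    exact one_le_pow₀ (by exact_mod_cast hH)

end Pool.H64.IR
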