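import Pool.Agent.H64.IR.POL
import Pool.Agent.H64.IR.BNF

/-! MODULE DET (project MP_a758cf_pr, IR; overview: team-store H64_a758cf.md)
The deterministic sieve inequality. Q = RR p K y, functionals of x : polynomials -> R.
If charpoly A has a monic divisor f of degree k: write f = f_s f_r (f_s the product of the prime factors of degree <= K). Either deg f_s >= D (first bad event, S = f_s), or
f_r has degree in [k-D, k], prime factors of degree in (K,k]; either some of them has multiplicity >= 2 (second bad event) or f_r = prod s, s in FF, BB g = 1 for g in s. Let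
omega = #{g in Q : g | charpoly A}. If omega > M then OmF >= binom(omega,J')/binom(M,J') >= 1. If omega <= M: every term of PhiF is >= 0 because by bnf_even_lower (x_g = BB g/2 in [0,1])
the inner sum is >= prod_{g in Q \ s} (1 - BB g/2) >= 0; the term of s is >= 2^M 2^(-card(s inf Q)) 2^(-#{g in Q \ s, BB g = 1}) = 2^(M-omega) >= 1.
-/

set_option autoImplicit false

namespace Pool.H64.IR

open Finset Polynomial

/-- charpoly of A has a monic divisor of degree k -/
def HasDeg {p n : ℕ} [Fact p.Prime] (k : ℕ) (A : Matrix (Fin n) (Fin n) (ZMod p)) : Prop :=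
  ∃ f : (ZMod p)[X], f.Monic ∧ f.natDegree = k ∧ f ∣ A.charpoly

/-- charpoly of A has a monic K-smooth divisor of degree at least D -/
def BadS {p n : ℕ} [Fact p.Prime] (K D : ℕ) (A : Matrix (Fin n) (Fin n) (ZMod p)) : Prop :=
  ∃ S : (ZMod p)[X], S.Monic ∧ (∀ g : (ZMod p)[X], Irreducible g → g ∣ S → g.natDegree ≤ K) ∧ D ≤ S.natDegree ∧ S ∣ A.charpoly

open Classical in
noncomputable def FF (p K k D : ℕ) [Fact p.Prime] : Finset (Finset (ZMod p)[X]) :=
  (RR p K k).powerset.filter fun s => k ≤ (∑ g ∈ s, g.natDegree) + D ∧ ∑ g ∈ s, g.natDegree ≤ k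

open Classical in
noncomputable def PhiF (p K y k D M J : ℕ) [Fact p.Prime] (u : ℝ) (x : (ZMod p)[X] → ℝ) : ℝ :=
  ∑ s ∈ FF p K k D, ((1 / 2 : ℝ) ^ (s.filter fun g => g.natDegree ≤ y).card * 2 ^ M) * (∏ g ∈ s, x g) *
    ∑ G ∈ ((RR p K y) \ s).powerset.filter (fun G => G.card ≤ J), u ^ G.card * ∏ g ∈ G, x g

open Classical in
noncomputable def OmF (p K y M J' : ℕ) [Fact p.Prime] (x : (ZMod p)[X] → ℝ) : ℝ :=
  (∑ G ∈ (RR p K y).powersetCard J', ∏ g ∈ G, x g) / (Nat.choose M J' : ℝ)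

theorem det_BB_cases {p n : ℕ} [Fact p.Prime] (g : (ZMod p)[X]) (A : Matrix (Fin n) (Fin n) (ZMod p)) :
    BB g A = 0 ∨ BB g A = 1 := by
  by_cases h : g ∣ A.charpoly
  · right; exact ind_true h
  · left; exact ind_false h

theorem det_half {α : Type} (T : Finset α) (x : α → ℝ) (G : Finset α) :
    (-1 / 2 : ℝ) ^ G.card * ∏ a ∈ G, x a = (-1 : ℝ) ^ G.card * ∏ a ∈ G, (x a / 2) := by
  rw [Finset.prod_div_distrib, Finset.prod_const, div_pow]
  ring

theorem det_inner {α : Type} (T : Finset α) (x : α → ℝ) (hx : ∀ a ∈ T, x a = 0 ∨ x a = 1) (J : ℕ)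
    (hJ : Even J) : ∏ a ∈ T, (1 - x a / 2) ≤
      ∑ G ∈ T.powerset.filter (fun G => G.card ≤ J), (-1 / 2 : ℝ) ^ G.card * ∏ a ∈ G, x a := by
  classical
  have h := bnf_even_lower T (fun a => x a / 2) (fun a ha => by
    rcases hx a ha with h | h <;> rw [h] <;> norm_num) J hJ
  refine h.trans (le_of_eq ?_)
  exact Finset.sum_congr rfl fun G _ => (det_half T x G).symm

theorem det_prod_nonneg {α : Type} (T : Finset α) (x : α → ℝ) (hx : ∀ a ∈ T, x a = 0 ∨ x a = 1) :
    0 ≤ ∏ a ∈ T, (1 - x a / 2) := by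
  refine Finset.prod_nonneg fun a ha => ?_
  rcases hx a ha with h | h <;> rw [h] <;> norm_num

open Classical in
theorem det_prod_eq {α : Type} (T : Finset α) (P : α → Prop) (x : α → ℝ)
    (hx : ∀ a ∈ T, x a = ind (P a)) :
    ∏ a ∈ T, (1 - x a / 2) = (1 / 2 : ℝ) ^ (T.filter P).card := by
  have h1 : ∏ a ∈ T, (1 - x a / 2) = ∏ a ∈ T, (if P a then (1 / 2 : ℝ) else 1) := by
    refine Finset.prod_congr rfl fun a ha => ?_
    rw [hx a ha]
    by_cases h : P a
    · rw [ind_true h, if_pos h]; norm_num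
    · rw [ind_false h, if_neg h]; norm_num
  rw [h1, Finset.prod_ite, Finset.prod_const, Finset.prod_const_one, mul_one]

theorem phi_nonneg {p n : ℕ} [Fact p.Prime] (K y k D M J : ℕ) (hJ : Even J) (A : Matrix (Fin n) (Fin n) (ZMod p)) :
    0 ≤ PhiF p K y k D M J (-1 / 2) (fun g => BB g A) := by
  unfold PhiF
  refine Finset.sum_nonneg fun s _ => ?_
  refine mul_nonneg (mul_nonneg (mul_nonneg (by positivity) (by positivity)) ?_) ?_
  · exact Finset.prod_nonneg fun g _ => ind_nonneg _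
  · refine le_trans ?_ (det_inner _ (fun g => BB g A) (fun g _ => det_BB_cases g A) J hJ)
    exact det_prod_nonneg _ _ (fun g _ => det_BB_cases g A)

theorem om_nonneg {p n : ℕ} [Fact p.Prime] (K y M J' : ℕ) (A : Matrix (Fin n) (Fin n) (ZMod p)) :
    0 ≤ OmF p K y M J' (fun g => BB g A) := by
  unfold OmF
  refine div_nonneg (Finset.sum_nonneg fun G _ => ?_) (Nat.cast_nonneg _)
  exact Finset.prod_nonneg fun g _ => ind_nonneg _

open Classical in
theorem det_factor {p : ℕ} [Fact p.Prime] {f : (ZMod p)[X]} (hf : f.Monic) (K : ℕ) :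
    ∃ (S : (ZMod p)[X]) (m : Multiset (ZMod p)[X]), f = S * m.prod ∧ S.Monic ∧
      (∀ g : (ZMod p)[X], Irreducible g → g ∣ S → g.natDegree ≤ K) ∧
      (∀ g ∈ m, g.Monic ∧ Irreducible g ∧ K < g.natDegree) := by
  obtain ⟨ms, hms⟩ : ∃ ms : Multiset (ZMod p)[X], ms = UniqueFactorizationMonoid.normalizedFactors f := ⟨_, rfl⟩
  have hmem : ∀ g ∈ ms, Irreducible g ∧ g.Monic := by
    intro g hg
    rw [hms, Polynomial.mem_normalizedFactors_iff hf.ne_zero] at hg
    exact ⟨hg.1, hg.2.1⟩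
  have hprod : ms.prod = f := by
    have h := Polynomial.leadingCoeff_mul_prod_normalizedFactors f
    rw [hf.leadingCoeff, C_1, one_mul] at h
    rw [hms]; exact h
  refine ⟨(ms.filter fun g => g.natDegree ≤ K).prod, ms.filter fun g => ¬ g.natDegree ≤ K, ?_, ?_, ?_, ?_⟩
  · rw [← Multiset.prod_add, Multiset.filter_add_not, hprod]
  · have h := Polynomial.monic_multiset_prod_of_monic (ms.filter fun g => g.natDegree ≤ K) id
      (fun g hg => (hmem g (Multiset.mem_of_mem_filter hg)).2)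
    rwa [Multiset.map_id] at h
  · intro g hg hgS
    obtain ⟨a, ha, hga⟩ := (hg.prime).exists_mem_multiset_dvd hgS
    rw [Multiset.mem_filter] at ha
    exact (Polynomial.natDegree_le_of_dvd hga (hmem a ha.1).2.ne_zero).trans ha.2
  · intro g hg
    rw [Multiset.mem_filter] at hg
    exact ⟨(hmem g hg.1).2, (hmem g hg.1).1, lt_of_not_ge hg.2⟩

theorem det_om {p n : ℕ} [Fact p.Prime] (K y M J' : ℕ) (hJ' : J' ≤ M)
    (A : Matrix (Fin n) (Fin n) (ZMod p)) (O : Finset (ZMod p)[X])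
    (hO : ∀ g, g ∈ O ↔ g ∈ RR p K y ∧ g ∣ A.charpoly) (hM : M ≤ O.card) :
    1 ≤ OmF p K y M J' (fun g => BB g A) := by
  classical
  unfold OmF
  have hc : (0 : ℝ) < (Nat.choose M J' : ℝ) := by exact_mod_cast Nat.choose_pos hJ'
  rw [one_le_div hc]
  have h1 : ((O.powersetCard J').card : ℝ) ≤ ∑ G ∈ (RR p K y).powersetCard J', ∏ g ∈ G, BB g A := by
    have h2 : O.powersetCard J' ⊆ (RR p K y).powersetCard J' :=
      Finset.powersetCard_mono (fun g hg => ((hO g).1 hg).1)
    have h3 : ((O.powersetCard J').card : ℝ) = ∑ G ∈ O.powersetCard J', ∏ g ∈ G, BB g A := by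
      rw [Finset.card_eq_sum_ones, Nat.cast_sum, Nat.cast_one]
      refine Finset.sum_congr rfl fun G hG => ?_
      rw [Finset.mem_powersetCard] at hG
      symm
      refine Finset.prod_eq_one fun g hg => ?_
      exact ind_true ((hO g).1 (hG.1 hg)).2
    rw [h3]
    exact Finset.sum_le_sum_of_subset_of_nonneg h2 (fun G _ _ => Finset.prod_nonneg fun g _ => ind_nonneg _)
  refine le_trans ?_ h1
  rw [Finset.card_powersetCard]
  exact_mod_cast Nat.choose_le_choose J' hM

open Classical in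
theorem det_phi {p n : ℕ} [Fact p.Prime] (K y k D M J : ℕ) (hyk : y ≤ k) (hJ : Even J)
    (A : Matrix (Fin n) (Fin n) (ZMod p)) (O : Finset (ZMod p)[X])
    (hO : ∀ g, g ∈ O ↔ g ∈ RR p K y ∧ g ∣ A.charpoly) (hM : O.card ≤ M)
    (s : Finset (ZMod p)[X]) (hs : s ∈ FF p K k D) (hdvd : ∀ g ∈ s, g ∣ A.charpoly) :
    1 ≤ PhiF p K y k D M J (-1 / 2) (fun g => BB g A) := by
  have hsR : ∀ g ∈ s, g ∈ RR p K k := by
    intro g hg
    unfold FF at hs
    rw [Finset.mem_filter, Finset.mem_powerset] at hs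
    exact hs.1 hg
  have h0 : ∀ t ∈ FF p K k D, 0 ≤ ((1 / 2 : ℝ) ^ (t.filter fun g => g.natDegree ≤ y).card * 2 ^ M) *
      (∏ g ∈ t, BB g A) * ∑ G ∈ ((RR p K y) \ t).powerset.filter (fun G => G.card ≤ J),
        (-1 / 2 : ℝ) ^ G.card * ∏ g ∈ G, BB g A := by
    intro t _
    refine mul_nonneg (mul_nonneg (mul_nonneg (by positivity) (by positivity)) ?_) ?_
    · exact Finset.prod_nonneg fun g _ => ind_nonneg _
    · refine le_trans ?_ (det_inner _ (fun g => BB g A) (fun g _ => det_BB_cases g A) J hJ)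
      exact det_prod_nonneg _ _ (fun g _ => det_BB_cases g A)
  have h1 := Finset.single_le_sum h0 hs
  unfold PhiF
  refine le_trans ?_ h1
  have h2 : ∏ g ∈ s, BB g A = 1 := Finset.prod_eq_one fun g hg => ind_true (hdvd g hg)
  have h3 := det_inner ((RR p K y) \ s) (fun g => BB g A) (fun g _ => det_BB_cases g A) J hJ
  rw [det_prod_eq ((RR p K y) \ s) (fun g => g ∣ A.charpoly) (fun g => BB g A) (fun g _ => rfl)] at h3
  rw [h2, mul_one]
  have h4 : (s.filter fun g => g.natDegree ≤ y).card +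
      (((RR p K y) \ s).filter fun g => g ∣ A.charpoly).card ≤ M := by
    refine le_trans ?_ hM
    rw [← Finset.card_union_of_disjoint]
    · apply Finset.card_le_card
      intro g hg
      rw [Finset.mem_union, Finset.mem_filter, Finset.mem_filter, Finset.mem_sdiff] at hg
      rw [hO]
      rcases hg with hg | hg
      · refine ⟨?_, hdvd g hg.1⟩
        have h5 := (mem_rr g).1 (hsR g hg.1)
        exact (mem_rr g).2 ⟨h5.1, h5.2.1, h5.2.2.1, hg.2⟩
      · exact ⟨hg.1.1, hg.2⟩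
    · rw [Finset.disjoint_left]
      intro g hg hg'
      rw [Finset.mem_filter] at hg
      rw [Finset.mem_filter, Finset.mem_sdiff] at hg'
      exact hg'.1.2 hg.1
  have h5 : (1 : ℝ) ≤ (1 / 2 : ℝ) ^ (s.filter fun g => g.natDegree ≤ y).card * 2 ^ M *
      (1 / 2 : ℝ) ^ (((RR p K y) \ s).filter fun g => g ∣ A.charpoly).card := by
    have h6 : (1 / 2 : ℝ) ^ M ≤ (1 / 2 : ℝ) ^ (s.filter fun g => g.natDegree ≤ y).card *
        (1 / 2 : ℝ) ^ (((RR p K y) \ s).filter fun g => g ∣ A.charpoly).card := by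
      rw [← pow_add]
      exact pow_le_pow_of_le_one (by norm_num) (by norm_num) h4
    have h7 : (1 / 2 : ℝ) ^ M * 2 ^ M = 1 := by
      rw [← mul_pow]; norm_num
    calc (1 : ℝ) = (1 / 2 : ℝ) ^ M * 2 ^ M := h7.symm
      _ ≤ ((1 / 2 : ℝ) ^ (s.filter fun g => g.natDegree ≤ y).card *
        (1 / 2 : ℝ) ^ (((RR p K y) \ s).filter fun g => g ∣ A.charpoly).card) * 2 ^ M :=
          mul_le_mul_of_nonneg_right h6 (by positivity)
      _ = _ := by ring
  refine h5.trans ?_
  exact mul_le_mul_of_nonneg_left h3 (by positivity)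

theorem det_sieve {p n : ℕ} [Fact p.Prime] (K y k D M J J' : ℕ) (hy : K ≤ y) (hyk : y ≤ k) (hJ : Even J) (hJ' : J' ≤ M)
    (A : Matrix (Fin n) (Fin n) (ZMod p)) :
    ind (HasDeg k A) ≤ ind (BadS K D A) + ind (∃ g ∈ RR p K k, g ^ 2 ∣ A.charpoly) +
      (PhiF p K y k D M J (-1 / 2) (fun g => BB g A) + OmF p K y M J' (fun g => BB g A)) := by
  classical
  have hphi := phi_nonneg K y k D M J hJ A
  have hom := om_nonneg K y M J' A
  have hb1 := ind_nonneg (BadS K D A)
  have hb2 := ind_nonneg (∃ g ∈ RR p K k, g ^ 2 ∣ A.charpoly)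
  by_cases hH : HasDeg k A
  swap
  · rw [ind_false hH]; linarith
  rw [ind_true hH]
  obtain ⟨f, hf, hfk, hfA⟩ := hH
  obtain ⟨S, m, hfS, hS, hSK, hm⟩ := det_factor hf K
  have hmprod : m.prod.Monic := by
    have h := Polynomial.monic_multiset_prod_of_monic m id (fun g hg => (hm g hg).1)
    rwa [Multiset.map_id] at h
  have hdeg : k = S.natDegree + m.prod.natDegree := by
    rw [← hfk, hfS, hS.natDegree_mul hmprod]
  have hSf : S ∣ A.charpoly := (Dvd.intro _ hfS.symm).trans hfA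
  have hmf : m.prod ∣ f := Dvd.intro_left _ hfS.symm
  by_cases hD : D ≤ S.natDegree
  · rw [ind_true (P := BadS K D A) ⟨S, hS, hSK, hD, hSf⟩]; linarith
  push Not at hD
  have hmR : ∀ g ∈ m, g ∈ RR p K k := by
    intro g hg
    obtain ⟨h1, h2, h3⟩ := hm g hg
    refine (mem_rr g).2 ⟨h1, h2, h3, ?_⟩
    have h4 : g ∣ f := (Multiset.dvd_prod hg).trans hmf
    rw [← hfk]
    exact Polynomial.natDegree_le_of_dvd h4 hf.ne_zero
  by_cases hnd : m.Nodup
  swap
  · rw [Multiset.nodup_iff_le] at hnd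
    push Not at hnd
    obtain ⟨g, hg⟩ := hnd
    have hgm : g ∈ m := Multiset.mem_of_le hg (by simp)
    have hg2 : g ^ 2 ∣ A.charpoly := by
      have h1 : (g ::ₘ g ::ₘ 0).prod ∣ m.prod := Multiset.prod_dvd_prod_of_le hg
      have h2 : (g ::ₘ g ::ₘ 0).prod = g ^ 2 := by simp [sq]
      rw [h2] at h1
      exact (h1.trans hmf).trans hfA
    rw [ind_true (P := ∃ g ∈ RR p K k, g ^ 2 ∣ A.charpoly) ⟨g, hmR g hgm, hg2⟩]
    linarith
  -- square free case
  obtain ⟨s, hs⟩ : ∃ s : Finset (ZMod p)[X], s.val = m := ⟨⟨m, hnd⟩, rfl⟩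
  have hsm : ∀ g, g ∈ s ↔ g ∈ m := by
    intro g
    rw [← hs]
    exact Iff.rfl
  have hsum : ∑ g ∈ s, g.natDegree = m.prod.natDegree := by
    have h := Polynomial.natDegree_multiset_prod_of_monic m (fun g hg => (hm g hg).1)
    rw [h, ← hs]
    rfl
  have hsF : s ∈ FF p K k D := by
    unfold FF
    rw [Finset.mem_filter, Finset.mem_powerset]
    refine ⟨fun g hg => hmR g ((hsm g).1 hg), ?_, ?_⟩
    · rw [hsum]; omega
    · rw [hsum]; omega
  have hdvd : ∀ g ∈ s, g ∣ A.charpoly := fun g hg =>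
    ((Multiset.dvd_prod ((hsm g).1 hg)).trans hmf).trans hfA
  obtain ⟨O, hO⟩ : ∃ O : Finset (ZMod p)[X], ∀ g, g ∈ O ↔ g ∈ RR p K y ∧ g ∣ A.charpoly :=
    ⟨(RR p K y).filter fun g => g ∣ A.charpoly, fun g => by rw [Finset.mem_filter]⟩
  rcases le_total M O.card with hMO | hMO
  · have := det_om K y M J' hJ' A O hO hMO
    linarith
  · have := det_phi K y k D M J hyk hJ A O hO hMO s hsF hdvd
    linarith

end Pool.H64.IR
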