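import Pool.Agent.H64.IR.Defs

/-! MODULE EBX (project MP_a758cf_pr, IR; overview: team-store H64_a758cf.md)
ebx: expectation over the bits factors over the edges (Finset.prod_univ_sum with Bool-valued functions, or induction):
sum_b prod_i e_i(sum_{e} b_e M_i(e)) = sum_b prod_e prod_i e_i(b_e M_i(e)) = prod_e (1 + prod_i e_i(M_i(e))); card (Edge n -> Bool) = 2^card (Edge n).
tr_adj: for A = adj b (zero diagonal, symmetric): trace(Yᵀ (A V)) = sum_{i,j} A_ij (sum_a Y_ia V_ja) = sum_{i<j} A_ij ((V Yᵀ)_ij + (Y Vᵀ)_ij)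
(pair (i,j) and (j,i); (V Yᵀ)_ij = sum_a V_ia Y_ja, (Y Vᵀ)_ij = sum_a Y_ia V_ja).
-/

set_option autoImplicit false

namespace Pool.H64.IR

open Finset Polynomial

theorem ebx_map_sum {α A : Type} [AddCommMonoid A] (ψ : AddChar A ℂ) (s : Finset α) (f : α → A) :
    ψ (∑ e ∈ s, f e) = ∏ e ∈ s, ψ (f e) := by
  classical
  induction s using Finset.induction_on with
  | empty => simp
  | insert a s ha ih => rw [Finset.sum_insert ha, Finset.prod_insert ha, AddChar.map_add_eq_mul, ih]

theorem ebx {ι : Type} [Fintype ι] (p : ι → ℕ) [∀ i, Fact (p i).Prime] (n : ℕ)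
    (M : ∀ i, Matrix (Fin n) (Fin n) (ZMod (p i))) :
    (∑ b : Edge n → Bool, ∏ i, ZMod.stdAddChar (∑ e : Edge n, if b e then M i e.1.1 e.1.2 else 0)) /
        (Fintype.card (Edge n → Bool) : ℂ) =
      ∏ e : Edge n, ((1 + ∏ i, (ZMod.stdAddChar (M i e.1.1 e.1.2) : ℂ)) / 2) := by
  classical
  have h1 : ∀ b : Edge n → Bool,
      ∏ i, (ZMod.stdAddChar (∑ e : Edge n, if b e then M i e.1.1 e.1.2 else 0) : ℂ) =
      ∏ e : Edge n, (if b e = true then ∏ i, (ZMod.stdAddChar (M i e.1.1 e.1.2) : ℂ) else 1) := by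
    intro b
    have h2 : ∀ i, (ZMod.stdAddChar (∑ e : Edge n, if b e then M i e.1.1 e.1.2 else 0) : ℂ) =
        ∏ e : Edge n, (ZMod.stdAddChar (if b e then M i e.1.1 e.1.2 else 0) : ℂ) :=
      fun i => ebx_map_sum _ _ _
    simp_rw [h2]
    rw [Finset.prod_comm]
    refine Finset.prod_congr rfl fun e _ => ?_
    by_cases h : b e = true
    · simp [h]
    · simp [h]
  simp_rw [h1]
  have h3 := (Fintype.prod_sum (fun (e : Edge n) (c : Bool) =>
    (if c = true then ∏ i, (ZMod.stdAddChar (M i e.1.1 e.1.2) : ℂ) else 1))).symm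
  rw [h3, Finset.prod_div_distrib, Finset.prod_const, Finset.card_univ]
  congr 1
  · refine Finset.prod_congr rfl fun e _ => ?_
    simp [add_comm]
  · rw [Fintype.card_fun, Fintype.card_bool]
    push_cast
    rfl

theorem tr_adj {p : ℕ} [Fact p.Prime] {n k : ℕ} (b : Edge n → Bool) (V Y : Matrix (Fin n) (Fin k) (ZMod p)) :
    Matrix.trace (Y.transpose * (adj (ZMod p) b * V)) =
      ∑ e : Edge n, if b e then (V * Y.transpose + Y * V.transpose) e.1.1 e.1.2 else 0 := by
  classical
  set F : Fin n × Fin n → ZMod p := fun x => if h : x.1 < x.2 then (if b ⟨x, h⟩ then 1 else 0) else 0 with hF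
  set G : Matrix (Fin n) (Fin n) (ZMod p) := Y * V.transpose with hG
  have hadj : ∀ i j, adj (ZMod p) b i j = F (i, j) + F (j, i) := by
    intro i j
    rw [hF]
    unfold adj
    simp only [Matrix.of_apply]
    rcases lt_trichotomy i j with h | h | h
    · rw [dif_pos h, dif_pos h, dif_neg (not_lt.2 h.le), add_zero]
    · subst h
      simp
    · rw [dif_neg (not_lt.2 h.le), dif_pos h, dif_neg (not_lt.2 h.le), zero_add]
  have hVY : ∀ i j, (V * Y.transpose) i j = G j i := by
    intro i j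
    rw [hG, Matrix.mul_apply, Matrix.mul_apply]
    refine Finset.sum_congr rfl fun a _ => ?_
    rw [Matrix.transpose_apply, Matrix.transpose_apply, mul_comm]
  have hR : (∑ e : Edge n, if b e then (V * Y.transpose + Y * V.transpose) e.1.1 e.1.2 else 0) =
      ∑ x : Fin n × Fin n, F x * (G x.2 x.1 + G x.1 x.2) := by
    have h1 : ∑ x : Fin n × Fin n, F x * (G x.2 x.1 + G x.1 x.2) =
        ∑ x ∈ univ.filter (fun x : Fin n × Fin n => x.1 < x.2), F x * (G x.2 x.1 + G x.1 x.2) := by
      rw [Finset.sum_filter]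
      refine Finset.sum_congr rfl fun x _ => ?_
      split_ifs with h
      · rfl
      · rw [hF]
        simp only
        rw [dif_neg h, zero_mul]
    rw [h1, Finset.sum_subtype (univ.filter (fun x : Fin n × Fin n => x.1 < x.2)) (p := fun x => x.1 < x.2)
      (fun x => by simp)]
    refine Finset.sum_congr rfl fun e _ => ?_
    rw [hF]
    simp only
    rw [dif_pos e.2, Matrix.add_apply, hVY]
    by_cases h : b e = true
    · simp [h, hG]
    · simp [h]
  rw [hR]
  have hL : Matrix.trace (Y.transpose * (adj (ZMod p) b * V)) =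
      ∑ x : Fin n × Fin n, (F x + F x.swap) * G x.1 x.2 := by
    rw [← Matrix.mul_assoc, Matrix.trace_mul_comm, ← Matrix.mul_assoc, Matrix.trace_mul_comm, Matrix.trace,
      Fintype.sum_prod_type]
    refine Finset.sum_congr rfl fun i _ => ?_
    rw [Matrix.diag_apply, Matrix.mul_apply]
    refine Finset.sum_congr rfl fun j _ => ?_
    rw [hVY, hadj]
    simp only [Prod.swap_prod_mk]
  rw [hL]
  simp only [add_mul, mul_add, Finset.sum_add_distrib]
  rw [add_comm]
  congr 1
  exact Equiv.sum_comp (Equiv.prodComm (Fin n) (Fin n)) (fun x => F x * G x.2 x.1)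

end Pool.H64.IR
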