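import Pool.Agent.H64.IR.REE

/-! MODULE EXPU (project MP_a758cf_pr, IR; overview: team-store H64_a758cf.md)
Linear combinations. For each i a finite index type τ i, coefficients co i t and finite sets H i t of monic irreducibles with total degree <= theta n. If for every choice t of indices
2 sum_i sum_{g in H i (t i)} beta g + exp(-c n) <= eta then
|avg prod_i sum_t co i t prod_{g in H i t} BB g (adj b) - prod_i sum_t co i t prod beta g| <= eta prod_i sum_t |co i t| prod beta g.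
Proof: expand the products over i (Finset.prod_univ_sum / Fintype.piFinset), apply ree to each family.
-/

set_option autoImplicit false

namespace Pool.H64.IR

open Finset Polynomial

theorem expu {ι : Type} [Fintype ι] [DecidableEq ι] (p : ι → ℕ) [∀ i, Fact (p i).Prime] (hp : ∀ i, p i ≠ 2) (hinj : Function.Injective p) :
    ∃ theta : ℝ, 0 < theta ∧ ∃ c : ℝ, 0 < c ∧ ∃ n0 : ℕ, ∀ n : ℕ, n0 ≤ n →
      ∀ (τ : ι → Type) [∀ i, Fintype (τ i)] (co : ∀ i, τ i → ℝ) (H : ∀ i, τ i → Finset (ZMod (p i))[X]) (eta : ℝ),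
      (∀ i t, ∀ g ∈ H i t, g.Monic ∧ Irreducible g) →
      (∀ i t, ((∑ g ∈ H i t, g.natDegree : ℕ) : ℝ) ≤ theta * n) →
      (∀ t : ∀ i, τ i, 2 * (∑ i, ∑ g ∈ H i (t i), beta g) + Real.exp (-c * n) ≤ eta) →
      |avg (fun b : Edge n → Bool => ∏ i, ∑ t, co i t * ∏ g ∈ H i t, BB g (adj (ZMod (p i)) b)) -
          ∏ i, ∑ t, co i t * ∏ g ∈ H i t, beta g| ≤
        eta * ∏ i, ∑ t, |co i t| * ∏ g ∈ H i t, beta g := by
  classical
  obtain ⟨theta, hth, c, hc, n0, hree⟩ := ree p hp hinj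
  refine ⟨theta, hth, c, hc, n0, ?_⟩
  intro n hn τ _ co H eta hH1 hH2 hH3
  -- beta is nonneg
  have hbeta : ∀ i t, ∀ g ∈ H i t, 0 ≤ beta g := by
    intro i t g hg
    unfold beta
    apply div_nonneg zero_le_one
    have h1 : (1 : ℝ) ≤ ((p i : ℕ) : ℝ) ^ g.natDegree := by
      apply one_le_pow₀
      exact_mod_cast (Fact.out : (p i).Prime).one_lt.le
    linarith
  -- expansion
  have hexp : ∀ (F : ∀ i, τ i → ℝ), ∏ i, ∑ t, F i t = ∑ t : (∀ i, τ i), ∏ i, F i (t i) := by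
    intro F
    rw [Finset.prod_univ_sum]
    rw [Fintype.piFinset_univ]
  rw [hexp (fun i t => co i t * ∏ g ∈ H i t, beta g), hexp (fun i t => |co i t| * ∏ g ∈ H i t, beta g)]
  have h1 : (fun b : Edge n → Bool => ∏ i, ∑ t, co i t * ∏ g ∈ H i t, BB g (adj (ZMod (p i)) b)) =
      fun b : Edge n → Bool => ∑ t : (∀ i, τ i), (∏ i, co i (t i)) * ∏ i, ∏ g ∈ H i (t i), BB g (adj (ZMod (p i)) b) := by
    funext b
    rw [hexp (fun i t => co i t * ∏ g ∈ H i t, BB g (adj (ZMod (p i)) b))]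
    refine Finset.sum_congr rfl fun t _ => ?_
    rw [Finset.prod_mul_distrib]
  rw [h1]
  have h2 : avg (fun b : Edge n → Bool => ∑ t : (∀ i, τ i), (∏ i, co i (t i)) * ∏ i, ∏ g ∈ H i (t i), BB g (adj (ZMod (p i)) b)) =
      ∑ t : (∀ i, τ i), (∏ i, co i (t i)) * avg (fun b : Edge n → Bool => ∏ i, ∏ g ∈ H i (t i), BB g (adj (ZMod (p i)) b)) := by
    rw [avg_sum]
    refine Finset.sum_congr rfl fun t _ => ?_
    rw [avg_const_mul]
  rw [h2, ← Finset.sum_sub_distrib]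
  refine (Finset.abs_sum_le_sum_abs _ _).trans ?_
  rw [Finset.mul_sum]
  refine Finset.sum_le_sum fun t _ => ?_
  rw [Finset.prod_mul_distrib, ← mul_sub, abs_mul, Finset.abs_prod]
  have h3 := hree n hn (fun i => H i (t i)) (fun i => hH1 i (t i)) (fun i => hH2 i (t i))
  have h4 : 0 ≤ ∏ i, ∏ g ∈ H i (t i), beta g :=
    Finset.prod_nonneg fun i _ => Finset.prod_nonneg fun g hg => hbeta i (t i) g hg
  have h5 := h3.trans (mul_le_mul_of_nonneg_right (hH3 t) h4)
  have h6 : 0 ≤ ∏ i, |co i (t i)| := Finset.prod_nonneg fun i _ => abs_nonneg _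
  rw [Finset.prod_mul_distrib]
  calc (∏ i, |co i (t i)|) * |avg (fun b : Edge n → Bool => ∏ i, ∏ g ∈ H i (t i), BB g (adj (ZMod (p i)) b)) - ∏ i, ∏ g ∈ H i (t i), beta g|
      ≤ (∏ i, |co i (t i)|) * (eta * ∏ i, ∏ g ∈ H i (t i), beta g) := mul_le_mul_of_nonneg_left h5 h6
    _ = eta * ((∏ i, |co i (t i)|) * ∏ i, ∏ g ∈ H i (t i), beta g) := by ring

end Pool.H64.IR
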