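import Pool.Agent.H64.IR.BRG

/-! MODULE FIN (project MP_a758cf_pr, IR): probabilities over the bits are fractions of graphs. -/

set_option autoImplicit false

namespace Pool.H64.IR

open Finset Polynomial
open scoped Classical in
/-- The fraction of graphs with a property of the rational characteristic polynomial is the probability over the bits. -/
theorem fin_card (n : ℕ) (P : ℚ[X] → Prop) :
    (Nat.card {G : SimpleGraph (Fin n) // P (G.adjMatrix ℚ).charpoly} : ℝ) / (Nat.card (SimpleGraph (Fin n)) : ℝ) =
      pr (fun b : Edge n → Bool => P (adj ℚ b).charpoly) := by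
  obtain ⟨e, he⟩ := brg n
  rw [pr_eq_card]
  have h1 : Nat.card (SimpleGraph (Fin n)) = Nat.card (Edge n → Bool) := Nat.card_congr e.symm
  have h2 : Nat.card {G : SimpleGraph (Fin n) // P (G.adjMatrix ℚ).charpoly} =
      Nat.card {b : Edge n → Bool // P (adj ℚ b).charpoly} := by
    symm
    refine Nat.card_congr (e.subtypeEquiv ?_)
    intro b
    rw [he b ℚ]
  rw [h1, h2]

end Pool.H64.IR
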