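import Pool.Agent.H64.IR.Defs

/-! MODULE FOU (project MP_a758cf_pr, IR; overview: team-store H64_a758cf.md)
Fix V : Matrix (Fin n) (Fin k) (ZMod p) of full rank, p odd prime. For a matrix M put
TT V C M = sum over Y (n x k) with V Yᵀ + Y Vᵀ = M of e(- trace(Yᵀ V C)).
fou_zero: {Y : V Yᵀ + Y Vᵀ = 0} = {V B : B + Bᵀ = 0}, B |-> V B injective. (Choose a left inverse U of V, U V = 1; from V Yᵀ = - Y Vᵀ multiply on
the right by Uᵀ: Y = - V (Yᵀ Uᵀ) = V B; then V (Bᵀ + B) Vᵀ = 0 gives B + Bᵀ = 0.) So the sum is sum_{B skew} e(- trace(Bᵀ G)), G = Vᵀ V C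
(trace((V B)ᵀ V C) = trace(Bᵀ Vᵀ V C)). For p odd a skew B has zero diagonal and is determined freely by the entries above the diagonal: number
p^(k(k-1)/2), and trace(Bᵀ G) = sum_{a<b} B_ab (G_ab - G_ba) is a nonzero linear form unless G is symmetric, so the sum is
p^(k(k-1)/2) if G symmetric and 0 otherwise.
fou_norm: if Y0 is one solution of V Y0ᵀ + Y0 Vᵀ = M then Y |-> Y + Y0 gives TT V C M = e(-trace(Y0ᵀ V C)) TT V C 0; if none, TT = 0.
-/

set_option autoImplicit false

namespace Pool.H64.IR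

open Finset Polynomial

/-- the exponential sum over the solutions `Y` of `V Yᵀ + Y Vᵀ = M` -/
noncomputable def TT {p : ℕ} [Fact p.Prime] {n k : ℕ} (V : Matrix (Fin n) (Fin k) (ZMod p))
    (C : Matrix (Fin k) (Fin k) (ZMod p)) (M : Matrix (Fin n) (Fin n) (ZMod p)) : ℂ :=
  ∑ Y : Matrix (Fin n) (Fin k) (ZMod p), ((ind (V * Y.transpose + Y * V.transpose = M) : ℝ) : ℂ) *
    ZMod.stdAddChar (- Matrix.trace (Y.transpose * V * C))

theorem fou_leftInv {p : ℕ} [Fact p.Prime] {n k : ℕ} (V : Matrix (Fin n) (Fin k) (ZMod p))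
    (hV : FullRank V) : ∃ U : Matrix (Fin k) (Fin n) (ZMod p), U * V = 1 := by
  have h1 : Function.Injective V.mulVec := Matrix.mulVec_injective_iff.2 hV
  have h2 : LinearMap.ker (Matrix.toLin' V) = ⊥ := LinearMap.ker_eq_bot.2 (by
    intro x y hxy
    exact h1 (by simpa [Matrix.toLin'_apply] using hxy))
  obtain ⟨g, hg⟩ := (Matrix.toLin' V).exists_leftInverse_of_injective h2
  refine ⟨LinearMap.toMatrix' g, ?_⟩
  have h3 : LinearMap.toMatrix' (g ∘ₗ Matrix.toLin' V) = 1 := by
    rw [hg, LinearMap.toMatrix'_id]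
  rwa [LinearMap.toMatrix'_comp, LinearMap.toMatrix'_toLin'] at h3

theorem fou_card (k : ℕ) : Fintype.card (Edge k) = k * (k - 1) / 2 := by
  rw [← Finset.sum_range_id, ← Fin.sum_univ_eq_sum_range (fun i => i) k]
  have e : Edge k ≃ Σ j : Fin k, {i : Fin k // i < j} :=
    { toFun := fun e => ⟨e.1.2, e.1.1, e.2⟩
      invFun := fun s => ⟨(s.2.1, s.1), s.2.2⟩
      left_inv := fun _ => rfl
      right_inv := fun _ => rfl }
  rw [Fintype.card_congr e, Fintype.card_sigma]
  refine Finset.sum_congr rfl fun j _ => ?_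
  rw [Fintype.card_subtype, ← Fin.card_Iio j]
  congr 1
  ext i
  simp

/-- the skew matrix with given entries above the diagonal -/
def fouSk {p : ℕ} {k : ℕ} (w : Edge k → ZMod p) : Matrix (Fin k) (Fin k) (ZMod p) :=
  Matrix.of fun i j =>
    if h : i < j then w ⟨(i, j), h⟩ else if h : j < i then - w ⟨(j, i), h⟩ else 0

theorem fouSk_skew {p : ℕ} {k : ℕ} (w : Edge k → ZMod p) : fouSk w + (fouSk w).transpose = 0 := by
  ext i j
  simp only [fouSk, Matrix.add_apply, Matrix.transpose_apply, Matrix.of_apply, Matrix.zero_apply]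
  rcases lt_trichotomy i j with h | h | h
  · rw [dif_pos h, dif_neg (not_lt.2 h.le), dif_pos h, add_neg_cancel]
  · subst h
    simp
  · rw [dif_neg (not_lt.2 h.le), dif_pos h, dif_pos h, neg_add_cancel]

theorem fouSk_inj {p : ℕ} {k : ℕ} : Function.Injective (fouSk (p := p) (k := k)) := by
  intro w w' h
  funext ⟨⟨i, j⟩, hij⟩
  have h1 := congrFun (congrFun h i) j
  simp only [fouSk, Matrix.of_apply] at h1
  have hij' : i < j := hij
  rwa [dif_pos hij', dif_pos hij'] at h1

theorem fouSk_surj {p : ℕ} [Fact p.Prime] (hp : p ≠ 2) {k : ℕ} (B : Matrix (Fin k) (Fin k) (ZMod p))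
    (hB : B + B.transpose = 0) : ∃ w, fouSk w = B := by
  have h2 : (2 : ZMod p) ≠ 0 := by
    intro h
    have h3 : ((2 : ℕ) : ZMod p) = 0 := by exact_mod_cast h
    rw [ZMod.natCast_eq_zero_iff] at h3
    exact hp ((Nat.prime_dvd_prime_iff_eq (Fact.out) Nat.prime_two).1 h3)
  refine ⟨fun e => B e.1.1 e.1.2, ?_⟩
  ext i j
  simp only [fouSk, Matrix.of_apply]
  have h1 : B i j + B j i = 0 := by
    have := congrFun (congrFun hB i) j
    simpa using this
  rcases lt_trichotomy i j with h | h | h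
  · rw [dif_pos h]
  · subst h
    rw [dif_neg (lt_irrefl _), dif_neg (lt_irrefl _)]
    have h3 : (2 : ZMod p) * B i i = 0 := by rw [two_mul]; exact h1
    exact ((mul_eq_zero.1 h3).resolve_left h2).symm
  · rw [dif_neg (not_lt.2 h.le), dif_pos h]
    exact (eq_neg_of_add_eq_zero_left h1).symm

theorem fouSk_trace {p : ℕ} {k : ℕ} (w : Edge k → ZMod p) (G : Matrix (Fin k) (Fin k) (ZMod p)) :
    Matrix.trace ((fouSk w).transpose * G) =
      ∑ e : Edge k, w e * (G e.1.1 e.1.2 - G e.1.2 e.1.1) := by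
  have h1 : Matrix.trace ((fouSk w).transpose * G) =
      ∑ q : Fin k × Fin k, fouSk w q.1 q.2 * G q.1 q.2 := by
    rw [Matrix.trace, Fintype.sum_prod_type_right]
    refine Finset.sum_congr rfl fun j _ => ?_
    rw [Matrix.diag_apply, Matrix.mul_apply]
    rfl
  have h2 : ∑ q : Fin k × Fin k, fouSk w q.1 q.2 * G q.1 q.2 =
      ∑ q ∈ univ.filter (fun q : Fin k × Fin k => q.1 < q.2), fouSk w q.1 q.2 * G q.1 q.2 +
      ∑ q ∈ univ.filter (fun q : Fin k × Fin k => q.2 < q.1), fouSk w q.1 q.2 * G q.1 q.2 := by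
    rw [← Finset.sum_filter_add_sum_filter_not univ (fun q : Fin k × Fin k => q.1 < q.2)]
    congr 1
    symm
    refine Finset.sum_subset ?_ ?_
    · intro q hq
      simp only [Finset.mem_filter, Finset.mem_univ, true_and] at hq ⊢
      exact not_lt.2 hq.le
    · intro q hq hq'
      simp only [Finset.mem_filter, Finset.mem_univ, true_and] at hq hq'
      simp only [fouSk, Matrix.of_apply]
      rw [dif_neg hq, dif_neg hq', zero_mul]
  have h3 : ∑ q ∈ univ.filter (fun q : Fin k × Fin k => q.1 < q.2), fouSk w q.1 q.2 * G q.1 q.2 =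
      ∑ e : Edge k, w e * G e.1.1 e.1.2 := by
    rw [Finset.sum_subtype _ (p := fun q : Fin k × Fin k => q.1 < q.2) (fun q => by simp)]
    refine Finset.sum_congr rfl fun e _ => ?_
    have h4 : fouSk w e.1.1 e.1.2 = w e := by
      simp only [fouSk, Matrix.of_apply]
      rw [dif_pos e.2]
    rw [h4]
  have h5 : ∑ q ∈ univ.filter (fun q : Fin k × Fin k => q.2 < q.1), fouSk w q.1 q.2 * G q.1 q.2 =
      ∑ e : Edge k, - (w e * G e.1.2 e.1.1) := by
    have h6 : ∑ q ∈ univ.filter (fun q : Fin k × Fin k => q.2 < q.1), fouSk w q.1 q.2 * G q.1 q.2 =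
        ∑ q ∈ univ.filter (fun q : Fin k × Fin k => q.1 < q.2), fouSk w q.2 q.1 * G q.2 q.1 := by
      refine Finset.sum_nbij' Prod.swap Prod.swap ?_ ?_ ?_ ?_ ?_
      · intro q hq
        simpa using hq
      · intro q hq
        simpa using hq
      · intro q _; exact Prod.swap_swap q
      · intro q _; exact Prod.swap_swap q
      · intro q _; rfl
    rw [h6, Finset.sum_subtype _ (p := fun q : Fin k × Fin k => q.1 < q.2) (fun q => by simp)]
    refine Finset.sum_congr rfl fun e _ => ?_
    have h4 : fouSk w e.1.2 e.1.1 = - w e := by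
      have he : e.1.1 < e.1.2 := e.2
      simp only [fouSk, Matrix.of_apply]
      rw [dif_neg (not_lt.2 he.le), dif_pos he]
    rw [h4, neg_mul]
  rw [h1, h2, h3, h5, ← Finset.sum_add_distrib]
  refine Finset.sum_congr rfl fun e _ => ?_
  ring

theorem fou_char {p : ℕ} [Fact p.Prime] {ι : Type*} (s : Finset ι) (f : ι → ZMod p) :
    (ZMod.stdAddChar (∑ i ∈ s, f i) : ℂ) = ∏ i ∈ s, ZMod.stdAddChar (f i) := by
  classical
  induction s using Finset.induction_on with
  | empty => simp
  | insert a s ha ih => rw [Finset.sum_insert ha, Finset.prod_insert ha, AddChar.map_add_eq_mul, ih]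

theorem fouSk_sum {p : ℕ} [Fact p.Prime] {k : ℕ} (G : Matrix (Fin k) (Fin k) (ZMod p)) :
    ∑ w : Edge k → ZMod p, ZMod.stdAddChar (- Matrix.trace ((fouSk w).transpose * G)) =
      (((p : ℝ) ^ (k * (k - 1) / 2) * ind (G.IsSymm) : ℝ) : ℂ) := by
  have h1 : ∀ w : Edge k → ZMod p, (ZMod.stdAddChar (- Matrix.trace ((fouSk w).transpose * G)) : ℂ) =
      ∏ e : Edge k, ZMod.stdAddChar (w e * (G e.1.2 e.1.1 - G e.1.1 e.1.2)) := by
    intro w
    rw [fouSk_trace, ← Finset.sum_neg_distrib, fou_char]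
    refine Finset.prod_congr rfl fun e _ => ?_
    congr 1
    ring
  rw [Finset.sum_congr rfl fun w _ => h1 w]
  have h2 := Finset.prod_univ_sum (fun _ => (univ : Finset (ZMod p)))
    (fun (e : Edge k) (t : ZMod p) =>
      (ZMod.stdAddChar (t * (G e.1.2 e.1.1 - G e.1.1 e.1.2)) : ℂ))
  rw [Fintype.piFinset_univ] at h2
  rw [← h2]
  have h3 : ∀ e : Edge k, ∑ t : ZMod p,
      (ZMod.stdAddChar (t * (G e.1.2 e.1.1 - G e.1.1 e.1.2)) : ℂ) =
      if G e.1.2 e.1.1 - G e.1.1 e.1.2 = 0 then (p : ℂ) else 0 := by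
    intro e
    rw [AddChar.sum_mulShift _ (ZMod.isPrimitive_stdAddChar p), ZMod.card]
    split_ifs <;> simp
  rw [Finset.prod_congr rfl fun e _ => h3 e, Finset.prod_ite_zero, Finset.prod_const,
    Finset.card_univ, fou_card]
  by_cases hG : G.IsSymm
  · rw [ind_true hG, if_pos, mul_one]
    · push_cast; rfl
    · intro e _
      rw [hG.apply, sub_self]
  · rw [ind_false hG, if_neg, mul_zero, Complex.ofReal_zero]
    intro h4
    apply hG
    ext i j
    rw [Matrix.transpose_apply]
    rcases lt_trichotomy i j with h | h | h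
    · exact sub_eq_zero.1 (h4 ⟨(i, j), h⟩ (Finset.mem_univ _))
    · rw [h]
    · exact (sub_eq_zero.1 (h4 ⟨(j, i), h⟩ (Finset.mem_univ _))).symm

theorem fou_zero {p : ℕ} [Fact p.Prime] (hp : p ≠ 2) {n k : ℕ} (V : Matrix (Fin n) (Fin k) (ZMod p))
    (hV : FullRank V) (C : Matrix (Fin k) (Fin k) (ZMod p)) :
    TT V C 0 = (((p : ℝ) ^ (k * (k - 1) / 2) * ind ((V.transpose * V * C).IsSymm) : ℝ) : ℂ) := by
  classical
  obtain ⟨U, hU⟩ := fou_leftInv V hV
  have hU' : V.transpose * U.transpose = 1 := by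
    rw [← Matrix.transpose_mul, hU, Matrix.transpose_one]
  rw [← fouSk_sum, TT]
  have h1 : ∀ Y : Matrix (Fin n) (Fin k) (ZMod p),
      ((ind (V * Y.transpose + Y * V.transpose = 0) : ℝ) : ℂ) *
        ZMod.stdAddChar (- Matrix.trace (Y.transpose * V * C)) =
      if V * Y.transpose + Y * V.transpose = 0 then
        (ZMod.stdAddChar (- Matrix.trace (Y.transpose * V * C)) : ℂ) else 0 := by
    intro Y
    by_cases h : V * Y.transpose + Y * V.transpose = 0
    · rw [ind_true h, if_pos h, Complex.ofReal_one, one_mul]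
    · rw [ind_false h, if_neg h, Complex.ofReal_zero, zero_mul]
  rw [Finset.sum_congr rfl fun Y _ => h1 Y, ← Finset.sum_filter]
  symm
  refine Finset.sum_bij (fun w _ => V * fouSk w) ?_ ?_ ?_ ?_
  · intro w _
    rw [Finset.mem_filter]
    refine ⟨Finset.mem_univ _, ?_⟩
    have h2 := fouSk_skew w
    calc V * (V * fouSk w).transpose + V * fouSk w * V.transpose
        = V * (fouSk w + (fouSk w).transpose) * V.transpose := by
          rw [Matrix.transpose_mul, Matrix.mul_add, Matrix.add_mul, add_comm, Matrix.mul_assoc V _ _]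
          simp only [Matrix.mul_assoc]
      _ = 0 := by rw [h2, Matrix.mul_zero, Matrix.zero_mul]
  · intro w _ w' _ h
    apply fouSk_inj
    have h2 : U * (V * fouSk w) = U * (V * fouSk w') := by rw [h]
    rwa [← Matrix.mul_assoc, ← Matrix.mul_assoc, hU, Matrix.one_mul, Matrix.one_mul] at h2
  · intro Y hY
    rw [Finset.mem_filter] at hY
    have h2 := hY.2
    have h3 : Y = V * (- (Y.transpose * U.transpose)) := by
      have h4 : (V * Y.transpose + Y * V.transpose) * U.transpose = 0 := by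
        rw [h2, Matrix.zero_mul]
      rw [Matrix.add_mul, Matrix.mul_assoc Y, hU', Matrix.mul_one, Matrix.mul_assoc] at h4
      rw [Matrix.mul_neg]
      exact eq_neg_of_add_eq_zero_right h4
    set B := - (Y.transpose * U.transpose) with hB
    have h5 : V * (B.transpose + B) * V.transpose = 0 := by
      rw [Matrix.mul_add, Matrix.add_mul, Matrix.mul_assoc V, ← Matrix.transpose_mul, ← h3]
      exact h2
    have h6 : B.transpose + B = 0 := by
      have h7 : U * (V * (B.transpose + B) * V.transpose) * U.transpose = 0 := by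
        rw [h5, Matrix.mul_zero, Matrix.zero_mul]
      rwa [← Matrix.mul_assoc, ← Matrix.mul_assoc, hU, Matrix.one_mul, Matrix.mul_assoc, hU',
        Matrix.mul_one] at h7
    obtain ⟨w, hw⟩ := fouSk_surj hp B (by rw [add_comm]; exact h6)
    exact ⟨w, Finset.mem_univ _, by rw [hw]; exact h3.symm⟩
  · intro w _
    rw [Matrix.transpose_mul]
    simp only [Matrix.mul_assoc]

theorem fou_norm {p : ℕ} [Fact p.Prime] (hp : p ≠ 2) {n k : ℕ} (V : Matrix (Fin n) (Fin k) (ZMod p))
    (hV : FullRank V) (C : Matrix (Fin k) (Fin k) (ZMod p)) (M : Matrix (Fin n) (Fin n) (ZMod p)) :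
    ‖TT V C M‖ ≤ (p : ℝ) ^ (k * (k - 1) / 2) *
      ind ((V.transpose * V * C).IsSymm ∧ ∃ Y : Matrix (Fin n) (Fin k) (ZMod p), V * Y.transpose + Y * V.transpose = M) := by
  by_cases h : ∃ Y : Matrix (Fin n) (Fin k) (ZMod p), V * Y.transpose + Y * V.transpose = M
  · obtain ⟨Y0, hY0⟩ := h
    have h1 : TT V C M = ZMod.stdAddChar (- Matrix.trace (Y0.transpose * V * C)) * TT V C 0 := by
      rw [TT, TT, Finset.mul_sum, ← Equiv.sum_comp (Equiv.addRight Y0)]
      refine Finset.sum_congr rfl fun Y _ => ?_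
      have h2 : (V * ((Equiv.addRight Y0) Y).transpose + ((Equiv.addRight Y0) Y) * V.transpose = M) ↔
          (V * Y.transpose + Y * V.transpose = 0) := by
        rw [Equiv.coe_addRight, Matrix.transpose_add, Matrix.mul_add, Matrix.add_mul, ← hY0]
        constructor
        · intro h3
          have h4 : (V * Y.transpose + V * Y0.transpose + (Y * V.transpose + Y0 * V.transpose)) -
            (V * Y0.transpose + Y0 * V.transpose) = 0 := sub_eq_zero.2 h3
          rw [← h4]
          abel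
        · intro h3
          have h4 : (V * Y.transpose + V * Y0.transpose + (Y * V.transpose + Y0 * V.transpose)) =
            (V * Y.transpose + Y * V.transpose) + (V * Y0.transpose + Y0 * V.transpose) := by abel
          rw [h4, h3, zero_add]
      have h3 : - Matrix.trace (((Equiv.addRight Y0) Y).transpose * V * C) =
          - Matrix.trace (Y0.transpose * V * C) + - Matrix.trace (Y.transpose * V * C) := by
        rw [Equiv.coe_addRight, Matrix.transpose_add, Matrix.add_mul, Matrix.add_mul,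
          Matrix.trace_add]
        ring
      rw [ind_congr h2, h3, AddChar.map_add_eq_mul]
      ring
    rw [h1, norm_mul, fou_zero hp V hV C, Complex.norm_real, Real.norm_of_nonneg
      (mul_nonneg (by positivity) (ind_nonneg _))]
    have h5 : ‖(ZMod.stdAddChar (- Matrix.trace (Y0.transpose * V * C)) : ℂ)‖ = 1 := by
      simp
    rw [h5, one_mul]
    refine mul_le_mul_of_nonneg_left ?_ (by positivity)
    exact ind_mono fun h6 => ⟨h6, Y0, hY0⟩
  · have h1 : TT V C M = 0 := by
      rw [TT]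
      refine Finset.sum_eq_zero fun Y _ => ?_
      rw [ind_false (fun h2 => h ⟨Y, h2⟩), Complex.ofReal_zero, zero_mul]
    rw [h1, norm_zero]
    exact mul_nonneg (by positivity) (ind_nonneg _)

end Pool.H64.IR
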