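import Pool.Agent.H64.IR.GS

/-! MODULE G1 (project MP_a758cf_pr, IR; overview: team-store H64_a758cf.md)
One step of the Gram count. w_1..w_j linearly independent in F^n (F = ZMod p), s in F^j, t in F, 2 j <= n.
N = #{v : v.w_a = s_a for all a, v.v = t, v not in span w} satisfies |N - p^n/p^(j+1)| <= 2 sqrt(p)^n.
Proof. N' = #{v : v.w_a = s_a, v.v = t} = p^-(j+1) sum_{t0 in F} sum_{c in F^j} sum_v e(t0 (v.v - t) + sum_a c_a (v.w_a - s_a)).
Terms with t0 = 0 sum to p^-(j+1) * p^j * #{v : v.w_a = s_a} * ... = p^-(j+1) p^n (only c = 0 survives because sum_a c_a w_a /= 0 for c /= 0,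
so sum_v e(v . sum_a c_a w_a) = 0). Terms with t0 /= 0: absolute value sqrt(p)^n each (gs_vec), there are (p-1) p^j of them, total
<= p^-(j+1) (p-1) p^j sqrt(p)^n <= sqrt(p)^n. Finally the v in span w are at most p^j <= sqrt(p)^n many (2 j <= n).
LinearIndependent (Fin.snoc w v) iff w independent and v not in span (range w): linearIndependent_fin_snoc.
-/

set_option autoImplicit false

namespace Pool.H64.IR

open Finset Polynomial

/-- orthogonality for one variable -/
theorem g1_orth {p : ℕ} [Fact p.Prime] (b : ZMod p) :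
    ∑ x : ZMod p, (ZMod.stdAddChar (x * b) : ℂ) = (p : ℂ) * ((ind (b = 0) : ℝ) : ℂ) := by
  classical
  rw [AddChar.sum_mulShift b (ZMod.isPrimitive_stdAddChar p)]
  by_cases h : b = 0
  · rw [ind_true h, if_pos h, ZMod.card]; simp
  · rw [ind_false h, if_neg h]; simp

/-- orthogonality for several variables -/
theorem g1_orth_vec {p : ℕ} [Fact p.Prime] {ι : Type} [Fintype ι] [DecidableEq ι] (b : ι → ZMod p) :
    ∑ c : ι → ZMod p, (ZMod.stdAddChar (∑ a, c a * b a) : ℂ) =
      (p : ℂ) ^ Fintype.card ι * ((ind (∀ a, b a = 0) : ℝ) : ℂ) := by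
  classical
  have h1 : ∀ c : ι → ZMod p, (ZMod.stdAddChar (∑ a, c a * b a) : ℂ) =
      ∏ a, ZMod.stdAddChar (c a * b a) := fun c => addChar_sum _ _ _
  simp_rw [h1]
  have h2 := (Finset.prod_univ_sum (fun _ : ι => (Finset.univ : Finset (ZMod p)))
    (fun (a : ι) (x : ZMod p) => (ZMod.stdAddChar (x * b a) : ℂ))).symm
  rw [Fintype.piFinset_univ] at h2
  rw [h2]
  simp_rw [g1_orth]
  rw [Finset.prod_mul_distrib, Finset.prod_const, Finset.card_univ]
  congr 1
  by_cases h : ∀ a, b a = 0
  · rw [ind_true h]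
    rw [Finset.prod_congr rfl (fun a _ => by rw [ind_true (h a)])]
    simp
  · rw [ind_false h]
    obtain ⟨a, ha⟩ := not_forall.1 h
    rw [Finset.prod_eq_zero (Finset.mem_univ a)]
    · simp
    · rw [ind_false ha]; simp

/-- the Gram count without the condition of independence -/
theorem g1_count {p : ℕ} [Fact p.Prime] (hp : p ≠ 2) (n j : ℕ) (w : Fin j → Fin n → ZMod p)
    (hw : LinearIndependent (ZMod p) w) (s : Fin j → ZMod p) (t : ZMod p) :
    |(∑ v : Fin n → ZMod p, ind ((∀ a, dotProduct (w a) v = s a) ∧ dotProduct v v = t)) -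
        (p : ℝ) ^ n / (p : ℝ) ^ (j + 1)| ≤ Real.sqrt p ^ n := by
  classical
  have hp0 : 0 < p := (Fact.out : p.Prime).pos
  have hpR : (0 : ℝ) < p := by exact_mod_cast hp0
  set e : AddChar (ZMod p) ℂ := ZMod.stdAddChar with he
  set N : ℝ := ∑ v : Fin n → ZMod p, ind ((∀ a, dotProduct (w a) v = s a) ∧ dotProduct v v = t)
    with hN
  set T : ZMod p → (Fin j → ZMod p) → ℂ := fun t0 c =>
    ∑ v : Fin n → ZMod p, e (t0 * (dotProduct v v - t) + ∑ a, c a * (dotProduct (w a) v - s a))
    with hT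
  have hsum : ∑ t0 : ZMod p, ∑ c : Fin j → ZMod p, T t0 c = (p : ℂ) ^ (j + 1) * (N : ℂ) := by
    have h1 : ∀ v : Fin n → ZMod p, ∑ t0 : ZMod p, ∑ c : Fin j → ZMod p,
        e (t0 * (dotProduct v v - t) + ∑ a, c a * (dotProduct (w a) v - s a)) =
        (p : ℂ) ^ (j + 1) *
          ((ind ((∀ a, dotProduct (w a) v = s a) ∧ dotProduct v v = t) : ℝ) : ℂ) := by
      intro v
      simp_rw [AddChar.map_add_eq_mul, ← Finset.mul_sum, ← Finset.sum_mul]
      rw [he, g1_orth, g1_orth_vec, Fintype.card_fin, ind_and]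
      have e1 : ind (dotProduct v v - t = 0) = ind (dotProduct v v = t) := ind_congr sub_eq_zero
      have e2 : ind (∀ a, dotProduct (w a) v - s a = 0) = ind (∀ a, dotProduct (w a) v = s a) :=
        ind_congr (forall_congr' fun a => sub_eq_zero)
      rw [e1, e2]
      push_cast
      ring
    simp only [hT]
    rw [Finset.sum_congr rfl (fun t0 _ => Finset.sum_comm), Finset.sum_comm, hN]
    push_cast
    rw [Finset.mul_sum]
    exact Finset.sum_congr rfl fun v _ => h1 v
  have hT0 : ∀ c : Fin j → ZMod p, T 0 c = if c = 0 then (p : ℂ) ^ n else 0 := by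
    intro c
    simp only [hT]
    by_cases hc : c = 0
    · rw [if_pos hc, hc]
      simp [ZMod.card]
    · rw [if_neg hc]
      have h1 : ∀ v : Fin n → ZMod p, e (0 * (dotProduct v v - t) +
          ∑ a, c a * (dotProduct (w a) v - s a)) =
          e (∑ i, v i * (∑ a, c a * w a i)) * e (-∑ a, c a * s a) := by
        intro v
        rw [← AddChar.map_add_eq_mul]
        congr 1
        have h5 : ∑ i, v i * (∑ a, c a * w a i) = ∑ a, c a * dotProduct (w a) v := by
          simp only [dotProduct, Finset.mul_sum]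
          rw [Finset.sum_comm]
          refine Finset.sum_congr rfl fun a _ => Finset.sum_congr rfl fun i _ => ?_
          ring
        rw [h5]
        simp only [mul_sub, Finset.sum_sub_distrib]
        ring
      simp_rw [h1]
      rw [← Finset.sum_mul, he, g1_orth_vec]
      have h2 : ¬ ∀ i : Fin n, (∑ a, c a * w a i) = 0 := by
        intro h
        apply hc
        have h3 := Fintype.linearIndependent_iff.1 hw c (by
          funext i
          simpa [Finset.sum_apply] using h i)
        funext a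
        exact h3 a
      rw [ind_false h2]
      simp
  have hT1 : ∀ t0 : ZMod p, t0 ≠ 0 → ∀ c : Fin j → ZMod p, ‖T t0 c‖ = Real.sqrt p ^ n := by
    intro t0 ht0 c
    simp only [hT]
    have h1 : ∀ v : Fin n → ZMod p, e (t0 * (dotProduct v v - t) +
          ∑ a, c a * (dotProduct (w a) v - s a)) =
          e (t0 * dotProduct v v + dotProduct (fun i => ∑ a, c a * w a i) v) *
            e (-(t0 * t) - ∑ a, c a * s a) := by
      intro v
      rw [← AddChar.map_add_eq_mul]
      congr 1
      have : dotProduct (fun i => ∑ a, c a * w a i) v = ∑ a, c a * dotProduct (w a) v := by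
        simp only [dotProduct, Finset.mul_sum, Finset.sum_mul]
        rw [Finset.sum_comm]
        refine Finset.sum_congr rfl fun i _ => Finset.sum_congr rfl fun a _ => ?_
        ring
      rw [this]
      simp only [mul_sub, Finset.sum_sub_distrib]
      ring
    simp_rw [h1]
    rw [← Finset.sum_mul, norm_mul, he, gs_vec hp n t0 _ ht0, AddChar.norm_apply, mul_one]
  have hsplit : (p : ℂ) ^ (j + 1) * (N : ℂ) - (p : ℂ) ^ n =
      ∑ t0 ∈ Finset.univ.erase (0 : ZMod p), ∑ c : Fin j → ZMod p, T t0 c := by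
    rw [← hsum, ← Finset.add_sum_erase _ _ (Finset.mem_univ (0 : ZMod p))]
    have : ∑ c : Fin j → ZMod p, T 0 c = (p : ℂ) ^ n := by
      simp_rw [hT0]
      rw [Finset.sum_ite_eq' Finset.univ (0 : Fin j → ZMod p)]
      simp
    rw [this]
    ring
  have hbound : ‖(p : ℂ) ^ (j + 1) * (N : ℂ) - (p : ℂ) ^ n‖ ≤ (p : ℝ) ^ (j + 1) * Real.sqrt p ^ n := by
    rw [hsplit]
    refine (norm_sum_le _ _).trans ?_
    have h1 : ∀ t0 ∈ Finset.univ.erase (0 : ZMod p), ‖∑ c : Fin j → ZMod p, T t0 c‖ ≤
        (p : ℝ) ^ j * Real.sqrt p ^ n := by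
      intro t0 ht0
      refine (norm_sum_le _ _).trans ?_
      rw [Finset.sum_congr rfl (fun c _ => hT1 t0 (Finset.ne_of_mem_erase ht0) c)]
      simp [ZMod.card]
    refine (Finset.sum_le_sum h1).trans ?_
    rw [Finset.sum_const, nsmul_eq_mul]
    have h2 : ((Finset.univ.erase (0 : ZMod p)).card : ℝ) ≤ p := by
      have : (Finset.univ.erase (0 : ZMod p)).card ≤ p := by
        rw [Finset.card_erase_of_mem (Finset.mem_univ _), Finset.card_univ, ZMod.card]
        omega
      exact_mod_cast this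
    calc ((Finset.univ.erase (0 : ZMod p)).card : ℝ) * ((p : ℝ) ^ j * Real.sqrt p ^ n)
        ≤ p * ((p : ℝ) ^ j * Real.sqrt p ^ n) := by
          refine mul_le_mul_of_nonneg_right h2 ?_
          positivity
      _ = _ := by ring
  have hreal : |(p : ℝ) ^ (j + 1) * N - (p : ℝ) ^ n| ≤ (p : ℝ) ^ (j + 1) * Real.sqrt p ^ n := by
    have : ‖(p : ℂ) ^ (j + 1) * (N : ℂ) - (p : ℂ) ^ n‖ = |(p : ℝ) ^ (j + 1) * N - (p : ℝ) ^ n| := by
      rw [← Complex.ofReal_natCast, ← Complex.ofReal_pow, ← Complex.ofReal_pow, ← Complex.ofReal_mul,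
        ← Complex.ofReal_sub, Complex.norm_real, Real.norm_eq_abs]
    rw [← this]
    exact hbound
  have hpj : (0 : ℝ) < (p : ℝ) ^ (j + 1) := pow_pos hpR _
  have heq : N - (p : ℝ) ^ n / (p : ℝ) ^ (j + 1) =
      ((p : ℝ) ^ (j + 1) * N - (p : ℝ) ^ n) / (p : ℝ) ^ (j + 1) := by
    field_simp
  rw [heq, abs_div, abs_of_pos hpj, div_le_iff₀ hpj]
  calc _ ≤ _ := hreal
    _ = _ := mul_comm _ _

theorem g1_step {p : ℕ} [Fact p.Prime] (hp : p ≠ 2) (n j : ℕ) (hj : 2 * j ≤ n) (w : Fin j → Fin n → ZMod p)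
    (hw : LinearIndependent (ZMod p) w) (s : Fin j → ZMod p) (t : ZMod p) :
    |(∑ v : Fin n → ZMod p, ind (LinearIndependent (ZMod p) (Fin.snoc (α := fun _ => Fin n → ZMod p) w v) ∧
        (∀ a, dotProduct (w a) v = s a) ∧ dotProduct v v = t)) - (p : ℝ) ^ n / (p : ℝ) ^ (j + 1)|
      ≤ 2 * Real.sqrt p ^ n := by
  classical
  have hp0 : 0 < p := (Fact.out : p.Prime).pos
  have hpR : (1 : ℝ) ≤ p := by exact_mod_cast hp0
  have h1 := g1_count hp n j w hw s t
  set N1 : ℝ := ∑ v : Fin n → ZMod p, ind ((∀ a, dotProduct (w a) v = s a) ∧ dotProduct v v = t)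
    with hN1
  set N0 : ℝ := ∑ v : Fin n → ZMod p, ind (LinearIndependent (ZMod p)
      (Fin.snoc (α := fun _ => Fin n → ZMod p) w v) ∧
        (∀ a, dotProduct (w a) v = s a) ∧ dotProduct v v = t) with hN0
  have hle : N0 ≤ N1 := Finset.sum_le_sum fun v _ => ind_mono fun h => h.2
  have hge : N1 - N0 ≤ Real.sqrt p ^ n := by
    have h2 : N1 - N0 ≤ ∑ v : Fin n → ZMod p, ind (v ∈ Submodule.span (ZMod p) (Set.range w)) := by
      rw [hN1, hN0, ← Finset.sum_sub_distrib]
      refine Finset.sum_le_sum fun v _ => ?_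
      by_cases hv : v ∈ Submodule.span (ZMod p) (Set.range w)
      · rw [ind_true hv]
        have a1 := ind_le_one ((∀ a, dotProduct (w a) v = s a) ∧ dotProduct v v = t)
        have a2 := ind_nonneg (LinearIndependent (ZMod p)
          (Fin.snoc (α := fun _ => Fin n → ZMod p) w v) ∧
          (∀ a, dotProduct (w a) v = s a) ∧ dotProduct v v = t)
        linarith
      · have h3 : LinearIndependent (ZMod p) (Fin.snoc (α := fun _ => Fin n → ZMod p) w v) :=
          linearIndependent_finSnoc.2 ⟨hw, hv⟩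
        have h4 : ind (LinearIndependent (ZMod p) (Fin.snoc (α := fun _ => Fin n → ZMod p) w v) ∧
          (∀ a, dotProduct (w a) v = s a) ∧ dotProduct v v = t) =
          ind ((∀ a, dotProduct (w a) v = s a) ∧ dotProduct v v = t) :=
          ind_congr ⟨fun h => h.2, fun h => ⟨h3, h⟩⟩
        rw [h4, sub_self]
        exact ind_nonneg _
    refine h2.trans ?_
    have h3 : (∑ v : Fin n → ZMod p, ind (v ∈ Submodule.span (ZMod p) (Set.range w))) =
        (p : ℝ) ^ j := by
      unfold ind
      rw [Finset.sum_boole]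
      have h4 : (Finset.univ.filter fun v : Fin n → ZMod p =>
          v ∈ Submodule.span (ZMod p) (Set.range w)).card =
          Fintype.card (Submodule.span (ZMod p) (Set.range w)) := by
        rw [← Fintype.card_coe]
        exact Fintype.card_congr (Equiv.subtypeEquivRight (by simp))
      rw [h4, Module.card_eq_pow_finrank (K := ZMod p), ZMod.card, finrank_span_eq_card hw,
        Fintype.card_fin]
      push_cast
      rfl
    rw [h3]
    have h5 : (p : ℝ) ^ j = Real.sqrt p ^ (2 * j) := by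
      rw [pow_mul, Real.sq_sqrt (by positivity)]
    rw [h5]
    exact pow_le_pow_right₀ (by rw [Real.one_le_sqrt]; exact hpR) hj
  rw [abs_le] at h1 ⊢
  have hs : 0 ≤ Real.sqrt p ^ n := by positivity
  constructor <;> linarith [h1.1, h1.2]

end Pool.H64.IR
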