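import Pool.Agent.H64.IR.G1

/-! MODULE G3 (project MP_a758cf_pr, IR; overview: team-store H64_a758cf.md)
Counting linearly independent k-tuples of vectors with prescribed Gram matrix, by induction with g1_step
(Fin.snoc: Fin (k+1) -> X is equivalent to (Fin k -> X) x X, Fin.snocEquiv or Fin.consEquiv-like sums: Fin.snocEquiv, Fintype.sum_equiv,
Fintype.sum_prod_type). eps p n k = 2 sqrt(p)^n p^k / p^n. For j < k: p^n/p^(j+1) + 2 sqrt(p)^n <= (1+eps) p^n/p^(j+1) and
p^n/p^(j+1) - 2 sqrt(p)^n >= (1-eps) p^n/p^(j+1).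
g3_upper: the first s vectors are only required to lie in U (at most card U choices each), the others satisfy the Gram conditions with the
previous ones: the factor for the vector number j (s <= j < k) is (1+eps) p^n/p^(j+1); product over j=s..k-1 of p^n/p^(j+1) is
p^(n(k-s)) p^(s(s+1)/2)/p^(k(k+1)/2). (Induct on k with s fixed; for k = s bound by card U ^ s.)
g3_lower: same for all k vectors, lower bound, needs S symmetric.
-/

set_option autoImplicit false

namespace Pool.H64.IR

open Finset Polynomial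

noncomputable def eps (p n k : ℕ) : ℝ := 2 * Real.sqrt p ^ n * (p : ℝ) ^ k / (p : ℝ) ^ n

lemma eps_nonneg (p n k : ℕ) : 0 ≤ eps p n k := by unfold eps; positivity

lemma g3_sum_snoc {X : Type} [Fintype X] (m : ℕ) (f : (Fin (m + 1) → X) → ℝ) :
    ∑ v : Fin (m + 1) → X, f v =
      ∑ v : Fin m → X, ∑ x : X, f (Fin.snoc (α := fun _ => X) v x) := by
  rw [← (Fin.snocEquiv (fun _ : Fin (m + 1) => X)).sum_comp f, Fintype.sum_prod_type,
    Finset.sum_comm]
  rfl

lemma g3_li_castSucc {p : ℕ} [Fact p.Prime] {n m : ℕ} {v : Fin m → Fin n → ZMod p}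
    {x : Fin n → ZMod p}
    (h : LinearIndependent (ZMod p) (Fin.snoc (α := fun _ => Fin n → ZMod p) v x)) :
    LinearIndependent (ZMod p) v := by
  have h1 := h.comp Fin.castSucc (Fin.castSucc_injective m)
  have h2 : (Fin.snoc (α := fun _ => Fin n → ZMod p) v x) ∘ Fin.castSucc = v := by
    funext a
    simp
  rwa [h2] at h1

/-- the real estimates for one step -/
lemma g3_step_up {p : ℕ} [Fact p.Prime] {n k m : ℕ} (hm : m < k) :
    (p : ℝ) ^ n / (p : ℝ) ^ (m + 1) + 2 * Real.sqrt p ^ n ≤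
      (1 + eps p n k) * ((p : ℝ) ^ n / (p : ℝ) ^ (m + 1)) := by
  have hp1 : (1 : ℝ) ≤ (p : ℝ) := by exact_mod_cast (Fact.out : p.Prime).one_le
  have hp0 : (0 : ℝ) < (p : ℝ) := by linarith
  have h1 : eps p n k * ((p : ℝ) ^ n / (p : ℝ) ^ (m + 1)) =
      2 * Real.sqrt p ^ n * (p : ℝ) ^ (k - (m + 1)) := by
    unfold eps
    have h2 : (p : ℝ) ^ k = (p : ℝ) ^ (k - (m + 1)) * (p : ℝ) ^ (m + 1) := by
      rw [← pow_add]
      congr 1
      omega
    rw [h2]
    field_simp
  have h3 : (1 : ℝ) ≤ (p : ℝ) ^ (k - (m + 1)) := one_le_pow₀ hp1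
  have h4 : 0 ≤ 2 * Real.sqrt p ^ n := by positivity
  rw [add_mul, one_mul, h1]
  nlinarith

lemma g3_step_lo {p : ℕ} [Fact p.Prime] {n k m : ℕ} (hm : m < k) :
    (1 - eps p n k) * ((p : ℝ) ^ n / (p : ℝ) ^ (m + 1)) ≤
      (p : ℝ) ^ n / (p : ℝ) ^ (m + 1) - 2 * Real.sqrt p ^ n := by
  have h := g3_step_up (p := p) (n := n) hm
  have h1 : (1 - eps p n k) * ((p : ℝ) ^ n / (p : ℝ) ^ (m + 1)) =
      2 * ((p : ℝ) ^ n / (p : ℝ) ^ (m + 1)) -
        (1 + eps p n k) * ((p : ℝ) ^ n / (p : ℝ) ^ (m + 1)) := by ring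
  rw [h1]
  linarith

lemma g3_exp (m : ℕ) : (m + 1) * (m + 1 + 1) / 2 = m * (m + 1) / 2 + (m + 1) := by
  have h : (m + 1) * (m + 1 + 1) = m * (m + 1) + 2 * (m + 1) := by ring
  rw [h, Nat.add_mul_div_left _ _ (by norm_num)]

theorem g3_upper_aux {p : ℕ} [Fact p.Prime] (hp : p ≠ 2) (n k s : ℕ) (hk : 4 * k ≤ n)
    (U : Submodule (ZMod p) (Fin n → ZMod p)) (m : ℕ) (hsm : s ≤ m) : m ≤ k →
    ∀ S : Matrix (Fin m) (Fin m) (ZMod p),
    (∑ v : Fin m → Fin n → ZMod p, ind (LinearIndependent (ZMod p) v ∧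
        (∀ a b, dotProduct (v a) (v b) = S a b) ∧ ∀ a : Fin m, (a : ℕ) < s → v a ∈ U)) ≤
      (Nat.card U : ℝ) ^ s * (1 + eps p n k) ^ m * ((p : ℝ) ^ n) ^ (m - s) *
        (p : ℝ) ^ (s * (s + 1) / 2) / (p : ℝ) ^ (m * (m + 1) / 2) := by
  have hp0 : (0 : ℝ) < (p : ℝ) := by exact_mod_cast (Fact.out : p.Prime).pos
  have he := eps_nonneg p n k
  induction m, hsm using Nat.le_induction with
  | base =>
    intro _ S
    rw [Nat.sub_self, pow_zero, mul_one, mul_div_assoc, div_self (by positivity), mul_one]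
    have h1 : (∑ v : Fin s → Fin n → ZMod p, ind (LinearIndependent (ZMod p) v ∧
        (∀ a b, dotProduct (v a) (v b) = S a b) ∧ ∀ a : Fin s, (a : ℕ) < s → v a ∈ U)) ≤
        ∑ v : Fin s → Fin n → ZMod p, ind (∀ a : Fin s, v a ∈ U) :=
      Finset.sum_le_sum fun v _ => ind_mono fun h a => h.2.2 a a.2
    have h2 : (∑ v : Fin s → Fin n → ZMod p, ind (∀ a : Fin s, v a ∈ U)) =
        (Nat.card U : ℝ) ^ s := by
      classical
      have h3 : (Finset.univ.filter fun v : Fin s → Fin n → ZMod p => ∀ a, v a ∈ U) =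
          Fintype.piFinset fun _ : Fin s => Finset.univ.filter fun x : Fin n → ZMod p => x ∈ U := by
        ext v
        simp
      have h4 : (Finset.univ.filter fun x : Fin n → ZMod p => x ∈ U).card = Nat.card U := by
        rw [Nat.card_eq_fintype_card, Fintype.card_subtype]
      have h5 : (Finset.univ.filter fun v : Fin s → Fin n → ZMod p => ∀ a, v a ∈ U).card =
          Nat.card U ^ s := by
        rw [h3, Fintype.card_piFinset, Finset.prod_const, h4, Finset.card_univ, Fintype.card_fin]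
      have h6 : (∑ v : Fin s → Fin n → ZMod p, ind (∀ a : Fin s, v a ∈ U)) =
          ∑ v ∈ Finset.univ.filter (fun v : Fin s → Fin n → ZMod p => ∀ a, v a ∈ U), (1 : ℝ) := by
        rw [Finset.sum_filter]
        refine Finset.sum_congr rfl fun v _ => ?_
        by_cases h : ∀ a, v a ∈ U
        · rw [ind_true h, if_pos h]
        · rw [ind_false h, if_neg h]
      rw [h6, Finset.sum_const, h5, nsmul_eq_mul, mul_one]
      push_cast
      rfl
    refine h1.trans (h2.le.trans ?_)
    have h7 : (1 : ℝ) ≤ (1 + eps p n k) ^ s := one_le_pow₀ (by linarith)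
    have h8 : (0 : ℝ) ≤ (Nat.card U : ℝ) ^ s := by positivity
    nlinarith
  | succ m hsm ih =>
    intro hmk S
    have ih' := ih (by omega) (S.submatrix Fin.castSucc Fin.castSucc)
    rw [g3_sum_snoc]
    have hstep : ∀ v : Fin m → Fin n → ZMod p,
        (∑ x : Fin n → ZMod p, ind (LinearIndependent (ZMod p)
            (Fin.snoc (α := fun _ => Fin n → ZMod p) v x) ∧
          (∀ a b, dotProduct (Fin.snoc (α := fun _ => Fin n → ZMod p) v x a)
            (Fin.snoc (α := fun _ => Fin n → ZMod p) v x b) = S a b) ∧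
          ∀ a : Fin (m + 1), (a : ℕ) < s → Fin.snoc (α := fun _ => Fin n → ZMod p) v x a ∈ U)) ≤
        ind (LinearIndependent (ZMod p) v ∧ (∀ a b, dotProduct (v a) (v b) =
          S.submatrix Fin.castSucc Fin.castSucc a b) ∧ ∀ a : Fin m, (a : ℕ) < s → v a ∈ U) *
          ((1 + eps p n k) * ((p : ℝ) ^ n / (p : ℝ) ^ (m + 1))) := by
      intro v
      by_cases hv : LinearIndependent (ZMod p) v ∧ (∀ a b, dotProduct (v a) (v b) =
          S.submatrix Fin.castSucc Fin.castSucc a b) ∧ ∀ a : Fin m, (a : ℕ) < s → v a ∈ U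
      · rw [ind_true hv, one_mul]
        have h1 := g1_step hp n m (by omega) v hv.1 (fun a => S (Fin.castSucc a) (Fin.last m))
          (S (Fin.last m) (Fin.last m))
        have h2 := (abs_le.1 h1).2
        have h3 : (∑ x : Fin n → ZMod p, ind (LinearIndependent (ZMod p)
            (Fin.snoc (α := fun _ => Fin n → ZMod p) v x) ∧
          (∀ a b, dotProduct (Fin.snoc (α := fun _ => Fin n → ZMod p) v x a)
            (Fin.snoc (α := fun _ => Fin n → ZMod p) v x b) = S a b) ∧
          ∀ a : Fin (m + 1), (a : ℕ) < s → Fin.snoc (α := fun _ => Fin n → ZMod p) v x a ∈ U)) ≤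
          ∑ x : Fin n → ZMod p, ind (LinearIndependent (ZMod p)
            (Fin.snoc (α := fun _ => Fin n → ZMod p) v x) ∧
            (∀ a, dotProduct (v a) x = S (Fin.castSucc a) (Fin.last m)) ∧
            dotProduct x x = S (Fin.last m) (Fin.last m)) := by
          refine Finset.sum_le_sum fun x _ => ind_mono fun h => ⟨h.1, fun a => ?_, ?_⟩
          · have := h.2.1 (Fin.castSucc a) (Fin.last m)
            simpa using this
          · have := h.2.1 (Fin.last m) (Fin.last m)
            simpa using this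
        have h4 := g3_step_up (p := p) (n := n) (show m < k by omega)
        linarith
      · rw [ind_false hv, zero_mul]
        apply le_of_eq
        apply Finset.sum_eq_zero
        intro x _
        apply ind_false
        intro h
        apply hv
        refine ⟨g3_li_castSucc h.1, fun a b => ?_, fun a ha => ?_⟩
        · have := h.2.1 (Fin.castSucc a) (Fin.castSucc b)
          simpa using this
        · have := h.2.2 (Fin.castSucc a) (by simpa using ha)
          simpa using this
    refine (Finset.sum_le_sum fun v _ => hstep v).trans ?_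
    rw [← Finset.sum_mul]
    refine (mul_le_mul_of_nonneg_right ih' (by positivity)).trans (le_of_eq ?_)
    rw [g3_exp m, show m + 1 - s = (m - s) + 1 by omega, pow_succ ((p : ℝ) ^ n) (m - s),
      pow_succ (1 + eps p n k) m, pow_add (p : ℝ) (m * (m + 1) / 2) (m + 1)]
    field_simp

theorem g3_upper {p : ℕ} [Fact p.Prime] (hp : p ≠ 2) (n k s : ℕ) (hs : s ≤ k) (hk : 4 * k ≤ n)
    (U : Submodule (ZMod p) (Fin n → ZMod p)) (S : Matrix (Fin k) (Fin k) (ZMod p)) :
    (∑ v : Fin k → Fin n → ZMod p, ind (LinearIndependent (ZMod p) v ∧ (∀ a b, dotProduct (v a) (v b) = S a b) ∧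
        ∀ a : Fin k, (a : ℕ) < s → v a ∈ U)) ≤
      (Nat.card U : ℝ) ^ s * (1 + eps p n k) ^ k * ((p : ℝ) ^ n) ^ (k - s) * (p : ℝ) ^ (s * (s + 1) / 2)
        / (p : ℝ) ^ (k * (k + 1) / 2) :=
  g3_upper_aux hp n k s hk U k hs le_rfl S

theorem g3_lower_aux {p : ℕ} [Fact p.Prime] (hp : p ≠ 2) (n k : ℕ) (hk : 4 * k ≤ n)
    (he : eps p n k ≤ 1) (m : ℕ) : m ≤ k →
    ∀ S : Matrix (Fin m) (Fin m) (ZMod p), S.IsSymm →
    (1 - eps p n k) ^ m * ((p : ℝ) ^ n) ^ m / (p : ℝ) ^ (m * (m + 1) / 2) ≤
    (∑ v : Fin m → Fin n → ZMod p, ind (LinearIndependent (ZMod p) v ∧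
        (∀ a b, dotProduct (v a) (v b) = S a b))) := by
  have hp0 : (0 : ℝ) < (p : ℝ) := by exact_mod_cast (Fact.out : p.Prime).pos
  have he' : 0 ≤ 1 - eps p n k := by linarith
  induction m with
  | zero =>
    intro _ S _
    have h1 : (∑ v : Fin 0 → Fin n → ZMod p, ind (LinearIndependent (ZMod p) v ∧
        (∀ a b, dotProduct (v a) (v b) = S a b))) = 1 := by
      rw [Fintype.sum_unique]
      apply ind_true
      exact ⟨linearIndependent_empty_type, fun a => a.elim0⟩
    rw [h1]
    simp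
  | succ m ih =>
    intro hmk S hS
    have ih' := ih (by omega) (S.submatrix Fin.castSucc Fin.castSucc) (hS.submatrix _)
    rw [g3_sum_snoc]
    have hstep : ∀ v : Fin m → Fin n → ZMod p,
        ind (LinearIndependent (ZMod p) v ∧ (∀ a b, dotProduct (v a) (v b) =
          S.submatrix Fin.castSucc Fin.castSucc a b)) *
          ((1 - eps p n k) * ((p : ℝ) ^ n / (p : ℝ) ^ (m + 1))) ≤
        (∑ x : Fin n → ZMod p, ind (LinearIndependent (ZMod p)
            (Fin.snoc (α := fun _ => Fin n → ZMod p) v x) ∧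
          (∀ a b, dotProduct (Fin.snoc (α := fun _ => Fin n → ZMod p) v x a)
            (Fin.snoc (α := fun _ => Fin n → ZMod p) v x b) = S a b))) := by
      intro v
      by_cases hv : LinearIndependent (ZMod p) v ∧ (∀ a b, dotProduct (v a) (v b) =
          S.submatrix Fin.castSucc Fin.castSucc a b)
      · rw [ind_true hv, one_mul]
        have h1 := g1_step hp n m (by omega) v hv.1 (fun a => S (Fin.castSucc a) (Fin.last m))
          (S (Fin.last m) (Fin.last m))
        have h2 := (abs_le.1 h1).1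
        have h3 : ∑ x : Fin n → ZMod p, ind (LinearIndependent (ZMod p)
            (Fin.snoc (α := fun _ => Fin n → ZMod p) v x) ∧
            (∀ a, dotProduct (v a) x = S (Fin.castSucc a) (Fin.last m)) ∧
            dotProduct x x = S (Fin.last m) (Fin.last m)) ≤
          (∑ x : Fin n → ZMod p, ind (LinearIndependent (ZMod p)
            (Fin.snoc (α := fun _ => Fin n → ZMod p) v x) ∧
          (∀ a b, dotProduct (Fin.snoc (α := fun _ => Fin n → ZMod p) v x a)
            (Fin.snoc (α := fun _ => Fin n → ZMod p) v x b) = S a b))) := by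
          refine Finset.sum_le_sum fun x _ => ind_mono fun h => ⟨h.1, fun a b => ?_⟩
          refine Fin.lastCases ?_ (fun a => ?_) a
          · refine Fin.lastCases ?_ (fun b => ?_) b
            · simpa using h.2.2
            · have h5 := h.2.1 b
              rw [dotProduct_comm] at h5
              have h6 : S (Fin.last m) (Fin.castSucc b) = S (Fin.castSucc b) (Fin.last m) :=
                hS.apply _ _
              simpa [h6] using h5
          · refine Fin.lastCases ?_ (fun b => ?_) b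
            · simpa using h.2.1 a
            · simpa using hv.2 a b
        have h4 := g3_step_lo (p := p) (n := n) (show m < k by omega)
        linarith
      · rw [ind_false hv, zero_mul]
        exact Finset.sum_nonneg fun x _ => ind_nonneg _
    refine le_trans ?_ (Finset.sum_le_sum fun v _ => hstep v)
    rw [← Finset.sum_mul]
    refine le_trans (le_of_eq ?_) (mul_le_mul_of_nonneg_right ih' (by positivity))
    rw [g3_exp m, pow_succ ((p : ℝ) ^ n) m,
      pow_succ (1 - eps p n k) m, pow_add (p : ℝ) (m * (m + 1) / 2) (m + 1)]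
    field_simp

theorem g3_lower {p : ℕ} [Fact p.Prime] (hp : p ≠ 2) (n k : ℕ) (hk : 4 * k ≤ n) (he : eps p n k ≤ 1)
    (S : Matrix (Fin k) (Fin k) (ZMod p)) (hS : S.IsSymm) :
    (1 - eps p n k) ^ k * ((p : ℝ) ^ n) ^ k / (p : ℝ) ^ (k * (k + 1) / 2) ≤
      ∑ v : Fin k → Fin n → ZMod p, ind (LinearIndependent (ZMod p) v ∧ (∀ a b, dotProduct (v a) (v b) = S a b)) :=
  g3_lower_aux hp n k hk he k le_rfl S hS

end Pool.H64.IR
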