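import Pool.Agent.H64.IR.Defs

/-! MODULE GS (project MP_a758cf_pr, IR; overview: team-store H64_a758cf.md)
Quadratic Gauss sums over ZMod p, p an odd prime.
gs_one: |sum|^2 = sum_{x,y} e(t(x^2-y^2)+u(x-y)); put x = y+h: = sum_h e(t h^2 + u h) sum_y e(2 t h y) = p (only h=0 survives since
2t /= 0 and stdAddChar is primitive: sums of a nontrivial additive character vanish, AddChar.sum_eq_zero_of_ne_one /
ZMod.isPrimitive_stdAddChar). conj of e(x) is e(-x), norm of e(x) is 1.
gs_vec: the sum factors as a product over the n coordinates (Finset.prod_univ_sum / Fintype.piFinset_univ, AddChar.map_sum_eq_prod).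
-/

set_option autoImplicit false

namespace Pool.H64.IR

open Finset Polynomial

theorem gs_one {p : ℕ} [Fact p.Prime] (hp : p ≠ 2) (t u : ZMod p) (ht : t ≠ 0) :
    ‖∑ x : ZMod p, ZMod.stdAddChar (t * x ^ 2 + u * x)‖ = Real.sqrt p := by
  classical
  have hpr : (ZMod.stdAddChar (N := p)).IsPrimitive := ZMod.isPrimitive_stdAddChar p
  have h2 : (2 : ZMod p) ≠ 0 := by
    intro h
    have h' : ((2 : ℕ) : ZMod p) = 0 := by exact_mod_cast h
    rw [ZMod.natCast_eq_zero_iff] at h'
    have hp2 : 2 ≤ p := (Fact.out : p.Prime).two_le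
    have := Nat.le_of_dvd (by norm_num) h'
    omega
  have key : (∑ x : ZMod p, ZMod.stdAddChar (t * x ^ 2 + u * x)) *
      (starRingEnd ℂ) (∑ x : ZMod p, ZMod.stdAddChar (t * x ^ 2 + u * x)) = (p : ℂ) := by
    rw [map_sum, Finset.sum_mul_sum]
    have h1 : ∀ x y : ZMod p, (ZMod.stdAddChar (t * x ^ 2 + u * x) : ℂ) *
        (starRingEnd ℂ) (ZMod.stdAddChar (t * y ^ 2 + u * y)) =
        ZMod.stdAddChar ((t * x ^ 2 + u * x) - (t * y ^ 2 + u * y)) := by
      intro x y
      rw [← AddChar.map_neg_eq_conj, ← AddChar.map_add_eq_mul, sub_eq_add_neg]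
    simp_rw [h1]
    rw [Finset.sum_comm]
    have h3 : ∀ y : ZMod p, ∑ x : ZMod p,
        (ZMod.stdAddChar ((t * x ^ 2 + u * x) - (t * y ^ 2 + u * y)) : ℂ) =
        ∑ h : ZMod p, ZMod.stdAddChar (t * h ^ 2 + u * h) * ZMod.stdAddChar (y * (2 * t * h)) := by
      intro y
      rw [← Equiv.sum_comp (Equiv.addRight y)]
      refine Finset.sum_congr rfl fun h _ => ?_
      rw [← AddChar.map_add_eq_mul]
      congr 1
      simp only [Equiv.coe_addRight]
      ring
    simp_rw [h3]
    rw [Finset.sum_comm]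
    simp_rw [← Finset.mul_sum, AddChar.sum_mulShift _ hpr]
    rw [Finset.sum_eq_single 0]
    · simp [ZMod.card]
    · intro h _ hh
      have : 2 * t * h ≠ 0 := mul_ne_zero (mul_ne_zero h2 ht) hh
      simp [this]
    · simp
  rw [Complex.mul_conj, Complex.normSq_eq_norm_sq] at key
  have key' : ‖∑ x : ZMod p, (ZMod.stdAddChar (t * x ^ 2 + u * x) : ℂ)‖ ^ 2 = (p : ℝ) := by
    exact_mod_cast key
  rw [← key', Real.sqrt_sq (norm_nonneg _)]

/-- an additive character turns finite sums into products -/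
theorem addChar_sum {A : Type} [AddCommMonoid A] {ι : Type} (ψ : AddChar A ℂ) (s : Finset ι) (f : ι → A) :
    ψ (∑ i ∈ s, f i) = ∏ i ∈ s, ψ (f i) := by
  classical
  induction s using Finset.induction_on with
  | empty => simp
  | insert a s ha ih =>
    rw [Finset.sum_insert ha, Finset.prod_insert ha, AddChar.map_add_eq_mul, ih]

theorem gs_vec {p : ℕ} [Fact p.Prime] (hp : p ≠ 2) (n : ℕ) (t : ZMod p) (u : Fin n → ZMod p) (ht : t ≠ 0) :
    ‖∑ v : Fin n → ZMod p, ZMod.stdAddChar (t * dotProduct v v + dotProduct u v)‖ = Real.sqrt p ^ n := by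
  classical
  have h1 : ∀ v : Fin n → ZMod p, (ZMod.stdAddChar (t * dotProduct v v + dotProduct u v) : ℂ) =
      ∏ i, ZMod.stdAddChar (t * (v i) ^ 2 + u i * v i) := by
    intro v
    rw [← addChar_sum]
    congr 1
    simp only [dotProduct, Finset.mul_sum, ← Finset.sum_add_distrib]
    refine Finset.sum_congr rfl fun i _ => ?_
    ring
  simp_rw [h1]
  have h2 := (Finset.prod_univ_sum (fun _ : Fin n => (Finset.univ : Finset (ZMod p)))
    (fun (i : Fin n) (x : ZMod p) => (ZMod.stdAddChar (t * x ^ 2 + u i * x) : ℂ))).symm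
  rw [Fintype.piFinset_univ] at h2
  rw [h2, norm_prod]
  rw [Finset.prod_congr rfl (fun i _ => gs_one hp t (u i) ht)]
  simp

end Pool.H64.IR
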