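import Pool.Agent.H64.IR.Defs

/-! MODULE HCM1 (project MP_a758cf_pr, IR; overview: team-store H64_a758cf.md)
HC (comp f) = p^(deg f) for monic f. S symmetric with S C symmetric, C = comp f, k = deg f: (S C)_{a,b} = S_{a,b+1} for b+1 < k, and
(S C)_{a,k-1} = - sum_c f_c S_{a,c}. Symmetry of S C for a,b < k-1: S_{a,b+1} = S_{b,a+1} = S_{a+1,b}: S_{ab} = s_{a+b} is Hankel, and the last column says that
s_0, s_1, .., s_{2k-2} satisfies the linear recurrence with characteristic polynomial f. Hence S <-> first row (s_0..s_{k-1}) is a bijection with F^k: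
injective by the recurrence row_{a+1} = row_a C (indeed Cᵀ S = S C means row_{a+1}(S) = (row_a S) C for a+1<k); surjective: given the first row
r, define S_{ab} = (r C^a)_b = r C^a e_b; since C^b e_0 = e_b, S_{ab} = r C^{a+b} e_0 is symmetric, and (S C)_{ab} = r C^{a+b+1} e_0 too.
-/

set_option autoImplicit false

namespace Pool.H64.IR

open Finset Polynomial

private lemma hcm1_key {F : Type} [Field F] {k : ℕ} (C : Matrix (Fin (k + 1)) (Fin (k + 1)) F)
    (hC : ∀ i j : Fin (k + 1), (j : ℕ) + 1 < k + 1 → C i j = if (i : ℕ) = j + 1 then 1 else 0) :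
    ∀ (b : ℕ) (hb : b < k + 1) (u : Fin (k + 1) → F), (Matrix.vecMul u (C ^ b)) 0 = u ⟨b, hb⟩ := by
  intro b
  induction b with
  | zero =>
    intro hb u
    rw [pow_zero, Matrix.vecMul_one]
    rfl
  | succ b ih =>
    intro hb u
    rw [pow_succ', ← Matrix.vecMul_vecMul, ih (by omega)]
    have h1 : Matrix.vecMul u C ⟨b, by omega⟩ = ∑ i, u i * C i ⟨b, by omega⟩ := rfl
    rw [h1, Finset.sum_eq_single (⟨b + 1, hb⟩ : Fin (k + 1))]
    · rw [hC _ _ hb, if_pos rfl, mul_one]
    · intro i _ hi
      rw [hC _ _ hb, if_neg, mul_zero]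
      intro h
      exact hi (Fin.ext h)
    · intro h
      exact absurd (Finset.mem_univ _) h

private lemma hcm1_card {F : Type} [Field F] [Fintype F] {k : ℕ}
    (C : Matrix (Fin (k + 1)) (Fin (k + 1)) F)
    (hC : ∀ i j : Fin (k + 1), (j : ℕ) + 1 < k + 1 → C i j = if (i : ℕ) = j + 1 then 1 else 0) :
    Nat.card {S : Matrix (Fin (k + 1)) (Fin (k + 1)) F // S.IsSymm ∧ (S * C).IsSymm} =
      Fintype.card F ^ (k + 1) := by
  classical
  have key := hcm1_key C hC
  have hbij : Function.Bijective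
      (fun S : {S : Matrix (Fin (k + 1)) (Fin (k + 1)) F // S.IsSymm ∧ (S * C).IsSymm} =>
        fun j : Fin (k + 1) => S.1 0 j) := by
    constructor
    · intro S T hST
      -- rows are determined
      have hrow : ∀ (S : {S : Matrix (Fin (k + 1)) (Fin (k + 1)) F // S.IsSymm ∧ (S * C).IsSymm})
          (a : ℕ) (ha : a + 1 < k + 1),
          (fun b => S.1 ⟨a + 1, ha⟩ b) = Matrix.vecMul (fun b => S.1 ⟨a, by omega⟩ b) C := by
        intro S a ha
        ext b
        have h1 : Matrix.vecMul (fun b => S.1 ⟨a, by omega⟩ b) C b = (S.1 * C) ⟨a, by omega⟩ b := rfl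
        have h2 : (S.1 * C) ⟨a, by omega⟩ b = (S.1 * C) b ⟨a, by omega⟩ := S.2.2.apply _ _
        have h3 : (S.1 * C) b ⟨a, by omega⟩ = S.1 b ⟨a + 1, ha⟩ := by
          rw [Matrix.mul_apply, Finset.sum_eq_single (⟨a + 1, ha⟩ : Fin (k + 1))]
          · rw [hC _ _ ha, if_pos rfl, mul_one]
          · intro i _ hi
            rw [hC _ _ ha, if_neg, mul_zero]
            intro h
            exact hi (Fin.ext h)
          · intro h
            exact absurd (Finset.mem_univ _) h
        rw [h1, h2, h3]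
        exact S.2.1.apply _ _
      have hall : ∀ (a : ℕ) (ha : a < k + 1), (fun b => S.1 ⟨a, ha⟩ b) = fun b => T.1 ⟨a, ha⟩ b := by
        intro a
        induction a with
        | zero => intro ha; exact hST
        | succ a ih =>
          intro ha
          rw [hrow S a ha, hrow T a ha, ih (by omega)]
      apply Subtype.ext
      ext a b
      exact congrFun (hall a.1 a.2) b
    · intro r
      refine ⟨⟨Matrix.of fun a b => Matrix.vecMul r (C ^ ((a : ℕ) + b)) 0, ?_, ?_⟩, ?_⟩
      · ext a b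
        rw [Matrix.transpose_apply, Matrix.of_apply, Matrix.of_apply, add_comm (b : ℕ) (a : ℕ)]
      · have h1 : ∀ a b : Fin (k + 1),
            ((Matrix.of fun a b : Fin (k + 1) => Matrix.vecMul r (C ^ ((a : ℕ) + b)) 0) * C) a b =
              Matrix.vecMul r (C ^ ((a : ℕ) + b + 1)) 0 := by
          intro a b
          have h2 : ∀ c : Fin (k + 1), Matrix.vecMul r (C ^ ((a : ℕ) + c)) 0 =
              Matrix.vecMul r (C ^ (a : ℕ)) c := by
            intro c
            rw [pow_add, ← Matrix.vecMul_vecMul, key c.1 c.2]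
          have h3 : Matrix.vecMul r (C ^ ((a : ℕ) + b + 1)) 0 =
              Matrix.vecMul (Matrix.vecMul r (C ^ (a : ℕ))) C b := by
            rw [show (a : ℕ) + b + 1 = (a : ℕ) + 1 + b by ring, pow_add, ← Matrix.vecMul_vecMul,
              key b.1 b.2, pow_succ, ← Matrix.vecMul_vecMul]
          rw [h3, Matrix.mul_apply]
          refine Finset.sum_congr rfl fun c _ => ?_
          rw [Matrix.of_apply, h2]
        ext a b
        rw [Matrix.transpose_apply, h1, h1, add_comm (a : ℕ) (b : ℕ)]
      · ext j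
        change Matrix.vecMul r (C ^ (((0 : Fin (k + 1)) : ℕ) + j)) 0 = r j
        rw [Fin.val_zero, zero_add, key j.1 j.2]
  rw [Nat.card_congr (Equiv.ofBijective _ hbij), Nat.card_eq_fintype_card, Fintype.card_fun,
    Fintype.card_fin]

private lemma hcm1_gen {F : Type} [Field F] [Fintype F] (k : ℕ) (C : Matrix (Fin k) (Fin k) F)
    (hC : ∀ i j : Fin k, (j : ℕ) + 1 < k → C i j = if (i : ℕ) = j + 1 then 1 else 0) :
    Nat.card {S : Matrix (Fin k) (Fin k) F // S.IsSymm ∧ (S * C).IsSymm} = Fintype.card F ^ k := by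
  cases k with
  | zero =>
    rw [pow_zero, Nat.card_eq_one_iff_unique]
    refine ⟨⟨fun S T => Subtype.ext (Subsingleton.elim _ _)⟩, ⟨⟨0, ?_, ?_⟩⟩⟩
    · exact Subsingleton.elim _ _
    · exact Subsingleton.elim _ _
  | succ k => exact hcm1_card C hC

theorem hcm1 {p : ℕ} [Fact p.Prime] (f : (ZMod p)[X]) (hf : f.Monic) : HC (comp f) = (p : ℝ) ^ f.natDegree := by
  classical
  have h := hcm1_gen f.natDegree (comp f) (by
    intro i j hj
    unfold comp
    rw [Matrix.of_apply, if_neg (by omega)])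
  have h0 : HC (comp f) = ∑ S : Matrix (Fin f.natDegree) (Fin f.natDegree) (ZMod p),
      (if (S.IsSymm ∧ (S * comp f).IsSymm) then (1 : ℝ) else 0) := by
    unfold HC
    refine Finset.sum_congr rfl fun S _ => ?_
    by_cases hS : S.IsSymm ∧ (S * comp f).IsSymm
    · rw [ind_true hS, if_pos hS]
    · rw [ind_false hS, if_neg hS]
  rw [h0, Finset.sum_boole]
  rw [Nat.card_eq_fintype_card, Fintype.card_subtype, ZMod.card] at h
  rw [h]
  push_cast
  rfl

end Pool.H64.IR
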