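import Pool.Agent.H64.IR.Defs

/-! MODULE HCM2 (project MP_a758cf_pr, IR; overview: team-store H64_a758cf.md)
Upper bound for two blocks. S = [S11 S12; S21 S22] symmetric with S C symmetric, C = fromBlocks (comp f) 0 0 (comp g): S11, S22 as in HCM1 (determined
by their first rows: row_{a+1} = row_a C), and S12 (comp g) = (comp f)ᵀ S12, whose rows satisfy row_{a+1}(S12) = row_a(S12) (comp g), so S12 is determined by its first
row (deg g entries). Total number <= p^(deg f) p^(deg g) p^(deg g).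
-/

set_option autoImplicit false

namespace Pool.H64.IR

open Finset Polynomial

/-- first row (or zero if there is none) -/
private def hcm2Row {F : Type} [Field F] {k l : ℕ} (S : Matrix (Fin k) (Fin l) F) : Fin l → F :=
  fun b => if h : 0 < k then S ⟨0, h⟩ b else 0

private lemma hcm2_row_ext {F : Type} [Field F] {k l : ℕ} (C : Matrix (Fin k) (Fin k) F)
    (hC : ∀ i j : Fin k, (j : ℕ) + 1 < k → C i j = if (i : ℕ) = j + 1 then 1 else 0)
    (D : Matrix (Fin l) (Fin l) F) (S T : Matrix (Fin k) (Fin l) F)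
    (hS : S * D = C.transpose * S) (hT : T * D = C.transpose * T)
    (h0 : hcm2Row S = hcm2Row T) : S = T := by
  have hrow : ∀ (S : Matrix (Fin k) (Fin l) F), S * D = C.transpose * S →
      ∀ (a : ℕ) (ha : a + 1 < k), (fun b => S ⟨a + 1, ha⟩ b) = Matrix.vecMul (fun b => S ⟨a, by omega⟩ b) D := by
    intro S hS a ha
    ext b
    have h1 : Matrix.vecMul (fun b => S ⟨a, by omega⟩ b) D b = (S * D) ⟨a, by omega⟩ b := rfl
    rw [h1, hS, Matrix.mul_apply, Finset.sum_eq_single (⟨a + 1, ha⟩ : Fin k)]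
    · rw [Matrix.transpose_apply, hC _ _ ha, if_pos rfl, one_mul]
    · intro i _ hi
      rw [Matrix.transpose_apply, hC _ _ ha, if_neg, zero_mul]
      intro h
      exact hi (Fin.ext h)
    · intro h
      exact absurd (Finset.mem_univ _) h
  have hall : ∀ (a : ℕ) (ha : a < k), (fun b => S ⟨a, ha⟩ b) = fun b => T ⟨a, ha⟩ b := by
    intro a
    induction a with
    | zero =>
      intro ha
      ext b
      have h1 := congrFun h0 b
      unfold hcm2Row at h1
      rw [dif_pos ha, dif_pos ha] at h1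
      exact h1
    | succ a ih =>
      intro ha
      rw [hrow S hS a ha, hrow T hT a ha, ih (by omega)]
  ext a b
  exact congrFun (hall a.1 a.2) b

private lemma hcm2_card {F : Type} [Field F] [Fintype F] {k l : ℕ} (C : Matrix (Fin k) (Fin k) F)
    (hC : ∀ i j : Fin k, (j : ℕ) + 1 < k → C i j = if (i : ℕ) = j + 1 then 1 else 0)
    (D : Matrix (Fin l) (Fin l) F)
    (hD : ∀ i j : Fin l, (j : ℕ) + 1 < l → D i j = if (i : ℕ) = j + 1 then 1 else 0) :
    Nat.card {S : Matrix (Fin k ⊕ Fin l) (Fin k ⊕ Fin l) F // S.IsSymm ∧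
      (S * Matrix.fromBlocks C 0 0 D).IsSymm} ≤ Fintype.card F ^ (k + 2 * l) := by
  classical
  have key : ∀ S : {S : Matrix (Fin k ⊕ Fin l) (Fin k ⊕ Fin l) F // S.IsSymm ∧
      (S * Matrix.fromBlocks C 0 0 D).IsSymm},
      (S.1.toBlocks₁₁ * C = C.transpose * S.1.toBlocks₁₁ ∧
        S.1.toBlocks₁₂ * D = C.transpose * S.1.toBlocks₁₂) ∧
        S.1.toBlocks₂₂ * D = D.transpose * S.1.toBlocks₂₂ := by
    rintro ⟨S, hS1, hS2⟩
    have h1 : S * Matrix.fromBlocks C 0 0 D = (Matrix.fromBlocks C 0 0 D).transpose * S := by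
      have h2 := hS2.eq
      rw [Matrix.transpose_mul, hS1.eq] at h2
      exact h2.symm
    rw [← Matrix.fromBlocks_toBlocks S, Matrix.fromBlocks_transpose, Matrix.fromBlocks_multiply,
      Matrix.fromBlocks_multiply, Matrix.fromBlocks_inj] at h1
    simp only [Matrix.mul_zero, Matrix.transpose_zero, Matrix.zero_mul, add_zero, zero_add] at h1
    exact ⟨⟨h1.1, h1.2.1⟩, h1.2.2.2⟩
  have hinj : Function.Injective
      (fun S : {S : Matrix (Fin k ⊕ Fin l) (Fin k ⊕ Fin l) F // S.IsSymm ∧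
        (S * Matrix.fromBlocks C 0 0 D).IsSymm} =>
        ((hcm2Row S.1.toBlocks₁₁, hcm2Row S.1.toBlocks₁₂, hcm2Row S.1.toBlocks₂₂) :
          (Fin k → F) × (Fin l → F) × (Fin l → F))) := by
    intro S T h
    simp only [Prod.mk.injEq] at h
    obtain ⟨⟨s1, s2⟩, s3⟩ := key S
    obtain ⟨⟨t1, t2⟩, t3⟩ := key T
    have e1 := hcm2_row_ext C hC C _ _ s1 t1 h.1
    have e2 := hcm2_row_ext C hC D _ _ s2 t2 h.2.1
    have e3 := hcm2_row_ext D hD D _ _ s3 t3 h.2.2
    have e4 : S.1.toBlocks₂₁ = T.1.toBlocks₂₁ := by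
      have e5 : ∀ S : {S : Matrix (Fin k ⊕ Fin l) (Fin k ⊕ Fin l) F // S.IsSymm ∧
        (S * Matrix.fromBlocks C 0 0 D).IsSymm}, S.1.toBlocks₂₁ = S.1.toBlocks₁₂.transpose := by
        intro S
        ext i j
        exact S.2.1.apply _ _
      rw [e5, e5, e2]
    apply Subtype.ext
    rw [← Matrix.fromBlocks_toBlocks S.1, ← Matrix.fromBlocks_toBlocks T.1, e1, e2, e3, e4]
  have h1 := Nat.card_le_card_of_injective _ hinj
  refine h1.trans (le_of_eq ?_)
  rw [Nat.card_prod, Nat.card_prod, Nat.card_eq_fintype_card, Nat.card_eq_fintype_card,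
    Fintype.card_fun, Fintype.card_fun, Fintype.card_fin, Fintype.card_fin]
  ring

theorem hcm2 {p : ℕ} [Fact p.Prime] (f g : (ZMod p)[X]) (hf : f.Monic) (hg : g.Monic) :
    HC (Matrix.fromBlocks (comp f) 0 0 (comp g)) ≤ (p : ℝ) ^ (f.natDegree + 2 * g.natDegree) := by
  classical
  have h := hcm2_card (comp f) (by
    intro i j hj
    unfold comp
    rw [Matrix.of_apply, if_neg (by omega)]) (comp g) (by
    intro i j hj
    unfold comp
    rw [Matrix.of_apply, if_neg (by omega)])
  have h0 : HC (Matrix.fromBlocks (comp f) 0 0 (comp g)) =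
      ∑ S : Matrix (Fin f.natDegree ⊕ Fin g.natDegree) (Fin f.natDegree ⊕ Fin g.natDegree) (ZMod p),
      (if (S.IsSymm ∧ (S * Matrix.fromBlocks (comp f) 0 0 (comp g)).IsSymm) then (1 : ℝ) else 0) := by
    unfold HC
    refine Finset.sum_congr rfl fun S _ => ?_
    by_cases hS : S.IsSymm ∧ (S * Matrix.fromBlocks (comp f) 0 0 (comp g)).IsSymm
    · rw [ind_true hS, if_pos hS]
    · rw [ind_false hS, if_neg hS]
  rw [h0, Finset.sum_boole]
  rw [Nat.card_eq_fintype_card, Fintype.card_subtype, ZMod.card] at h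
  exact_mod_cast h

end Pool.H64.IR
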