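import Pool.Agent.H64.IR.REC

/-! MODULE IRC (project MP_a758cf_pr, IR; overview: team-store H64_a758cf.md)
Number of irreducible polynomials. From rec_smo with K = m large (Smo p K m = Mon p m if m <= K, card p^m): a_m = m p^m = sum_{j<=m} L_j p^(m-j), L_j = sum_{d | j} d card(Irr p d);
subtract p a_{m-1}: L_m = m p^m - (m-1) p^m = p^m. So m card (Irr p m) <= p^m and >= p^m - sum_{d | m, d < m} p^d >= p^m - 2 sqrt(p)^m
(d <= m/2, sum_{d <= m/2} p^d <= p^(m/2) p/(p-1) <= 2 sqrt(p)^m, geometric).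
-/

set_option autoImplicit false

namespace Pool.H64.IR

open Finset Polynomial

lemma irc_smo (p K j : ℕ) [Fact p.Prime] (hj : j ≤ K) : (Smo p K j).card = p ^ j := by
  rw [← card_mon p j]
  congr 1
  ext f
  rw [mem_smo, mem_mon]
  constructor
  · rintro ⟨h1, h2, -⟩
    exact ⟨h1, h2⟩
  · rintro ⟨h1, h2⟩
    refine ⟨h1, h2, fun g _ hgf => ?_⟩
    have := Polynomial.natDegree_le_of_dvd hgf h1.ne_zero
    omega

lemma irc_rec (p M : ℕ) [Fact p.Prime] :
    M * p ^ M = ∑ j ∈ Finset.Icc 1 M, (∑ d ∈ Nat.divisors j, d * (Irr p d).card) * p ^ (M - j) := by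
  have h1 := rec_smo p M M
  rw [irc_smo p M M le_rfl] at h1
  rw [h1]
  refine Finset.sum_congr rfl fun j hj => ?_
  rw [Finset.mem_Icc] at hj
  rw [irc_smo p M (M - j) (Nat.sub_le _ _)]
  congr 1
  refine Finset.sum_congr ?_ fun _ _ => rfl
  rw [Finset.filter_eq_self]
  intro d hd
  exact (Nat.divisor_le hd).trans hj.2

theorem irc_sum (p m : ℕ) [Fact p.Prime] (hm : 1 ≤ m) : ∑ d ∈ Nat.divisors m, d * (Irr p d).card = p ^ m := by
  obtain ⟨k, rfl⟩ : ∃ k, m = k + 1 := ⟨m - 1, by omega⟩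
  have h1 := irc_rec p (k + 1)
  have h2 := irc_rec p k
  rw [Finset.sum_Icc_succ_top (by omega), Nat.sub_self, pow_zero, mul_one] at h1
  have h3 : ∑ j ∈ Finset.Icc 1 k, (∑ d ∈ Nat.divisors j, d * (Irr p d).card) * p ^ (k + 1 - j) =
      p * ∑ j ∈ Finset.Icc 1 k, (∑ d ∈ Nat.divisors j, d * (Irr p d).card) * p ^ (k - j) := by
    rw [Finset.mul_sum]
    refine Finset.sum_congr rfl fun j hj => ?_
    rw [Finset.mem_Icc] at hj
    have h4 : k + 1 - j = (k - j) + 1 := by omega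
    rw [h4, pow_succ]
    ring
  rw [h3, ← h2] at h1
  have h5 : (k + 1) * p ^ (k + 1) = p * (k * p ^ k) + p ^ (k + 1) := by
    rw [pow_succ]; ring
  rw [h5] at h1
  omega

theorem irc_upper (p m : ℕ) [Fact p.Prime] : (m : ℝ) * (Irr p m).card ≤ (p : ℝ) ^ m := by
  rcases Nat.eq_zero_or_pos m with h | h
  · subst h; simp
  · have h1 := irc_sum p m h
    have h2 : m * (Irr p m).card ≤ ∑ d ∈ Nat.divisors m, d * (Irr p d).card :=
      Finset.single_le_sum (f := fun d => d * (Irr p d).card) (fun d _ => Nat.zero_le _)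
        (Nat.mem_divisors_self m (by omega))
    rw [h1] at h2
    exact_mod_cast h2

lemma irc_geom (p h : ℕ) (hp : 2 ≤ p) : ∑ d ∈ Finset.range (h + 1), p ^ d ≤ 2 * p ^ h := by
  induction h with
  | zero => simp
  | succ h ih =>
    rw [Finset.sum_range_succ, pow_succ]
    nlinarith [Nat.mul_le_mul_left (p ^ h) hp]

theorem irc_lower (p m : ℕ) [Fact p.Prime] (hm : 1 ≤ m) : (p : ℝ) ^ m - 2 * Real.sqrt p ^ m ≤ (m : ℝ) * (Irr p m).card := by
  have hp : 2 ≤ p := (Fact.out : p.Prime).two_le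
  have h1 := irc_sum p m hm
  rw [← Nat.insert_self_properDivisors (by omega : m ≠ 0), Finset.sum_insert (by
    simp [Nat.mem_properDivisors]), add_comm] at h1
  have h2 : ∑ d ∈ Nat.properDivisors m, d * (Irr p d).card ≤ 2 * p ^ (m / 2) := by
    refine le_trans ?_ (irc_geom p (m / 2) hp)
    have h3 : Nat.properDivisors m ⊆ Finset.range (m / 2 + 1) := by
      intro d hd
      rw [Nat.mem_properDivisors] at hd
      obtain ⟨⟨k, hk⟩, hlt⟩ := hd
      rw [Finset.mem_range]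
      have h4 : 2 ≤ k := by
        by_contra h5
        have h6 : k = 0 ∨ k = 1 := by omega
        rcases h6 with h6 | h6
        · subst h6; omega
        · subst h6; omega
      have h5 : d * 2 ≤ m := by rw [hk]; exact Nat.mul_le_mul_left d h4
      omega
    refine le_trans (Finset.sum_le_sum fun d _ => ?_) (Finset.sum_le_sum_of_subset h3)
    have h4 := irc_upper p d
    exact_mod_cast h4
  have h3 : (p : ℝ) ^ m = (∑ d ∈ Nat.properDivisors m, d * (Irr p d).card : ℕ) +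
      (m : ℝ) * (Irr p m).card := by
    exact_mod_cast h1.symm
  have h4 : ((∑ d ∈ Nat.properDivisors m, d * (Irr p d).card : ℕ) : ℝ) ≤ 2 * (p : ℝ) ^ (m / 2) := by
    exact_mod_cast h2
  have h5 : (p : ℝ) ^ (m / 2) ≤ Real.sqrt p ^ m := by
    have hp0 : (0 : ℝ) ≤ p := Nat.cast_nonneg _
    have h6 : Real.sqrt p ^ (2 * (m / 2)) = (p : ℝ) ^ (m / 2) := by
      rw [pow_mul, Real.sq_sqrt hp0]
    rw [← h6]
    refine pow_le_pow_right₀ ?_ (Nat.mul_div_le m 2)
    rw [Real.one_le_sqrt]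
    exact_mod_cast (by omega : 1 ≤ p)
  rw [h3]
  linarith

end Pool.H64.IR
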