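import Pool.Agent.H64.IR.Defs

/-! MODULE KER (project MP_a758cf_pr, IR; overview: team-store H64_a758cf.md)
For a monic irreducible polynomial g over F = ZMod p and a square matrix A: ker g(A) is a vector space over the field F[X]/(g) (q = p^(deg g) elements), so
kerc g A = q^m; and m >= 1 iff g | charpoly A. (If g | charpoly A: in the field K = AdjoinRoot g the root x is an eigenvalue of A; or: if ker g(A) = 0 then g(A) is
invertible, minpoly A is then coprime to g [otherwise minpoly = g h, h(A) = 0], and the irreducible factors of charpoly and minpoly agree.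
A direct way: det(g(A)) = resultant = 0; or: charpoly has the root x in K, so det(x - A) = 0 over K, so there is v /= 0 in K^n with A v = x v; apply an
F-linear functional of K not vanishing on some coordinate to get z in F^n nonzero with g(A) z = 0. Conversely z /= 0 with g(A) z = 0 : charpoly(A) z = 0, so
gcd(charpoly, g)(A) z = 0, gcd is 1 or g.)
-/

set_option autoImplicit false

namespace Pool.H64.IR

open Finset Polynomial

/-- a finite `F[X]`-module killed by `g` is a vector space over `F[X]/(g)` -/
private theorem ker_card_abs {p : ℕ} [Fact p.Prime] (g : (ZMod p)[X]) (hi : Irreducible g)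
    (M : Type) [AddCommGroup M] [Module (ZMod p)[X] M] [Finite M] :
    ∃ m : ℕ, Nat.card (Submodule.torsionBy (ZMod p)[X] M g) = (p ^ g.natDegree) ^ m := by
  haveI : Fact (Irreducible g) := ⟨hi⟩
  haveI hmax : (Ideal.span {g} : Ideal (ZMod p)[X]).IsMaximal :=
    PrincipalIdealRing.isMaximal_of_irreducible hi
  letI : Field ((ZMod p)[X] ⧸ (Ideal.span {g} : Ideal (ZMod p)[X])) := Ideal.Quotient.field _
  have hcardK : Nat.card ((ZMod p)[X] ⧸ (Ideal.span {g} : Ideal (ZMod p)[X])) = p ^ g.natDegree := by
    have h1 : Module.finrank (ZMod p) ((ZMod p)[X] ⧸ (Ideal.span {g} : Ideal (ZMod p)[X])) =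
      g.natDegree := finrank_quotient_span_eq_natDegree
    have h2 : Module.Finite (ZMod p) ((ZMod p)[X] ⧸ (Ideal.span {g} : Ideal (ZMod p)[X])) := by
      refine Module.finite_of_finrank_pos ?_
      rw [h1]
      exact hi.natDegree_pos
    rw [Module.natCard_eq_pow_finrank (K := ZMod p), h1, Nat.card_zmod]
  refine ⟨Module.finrank ((ZMod p)[X] ⧸ (Ideal.span {g} : Ideal (ZMod p)[X]))
    (Submodule.torsionBy (ZMod p)[X] M g), ?_⟩
  rw [← hcardK]
  haveI : Module.Finite ((ZMod p)[X] ⧸ (Ideal.span {g} : Ideal (ZMod p)[X]))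
    (Submodule.torsionBy (ZMod p)[X] M g) := Module.Finite.of_finite
  exact Module.natCard_eq_pow_finrank

/-- the cardinality of the kernel -/
private theorem ker_card {p : ℕ} [Fact p.Prime] {n : ℕ} (g : (ZMod p)[X]) (hi : Irreducible g)
    (A : Matrix (Fin n) (Fin n) (ZMod p)) :
    ∃ m : ℕ, Nat.card {z : Fin n → ZMod p // (Polynomial.aeval A g).mulVec z = 0} =
      (p ^ g.natDegree) ^ m := by
  classical
  have hfin : Finite (Module.AEval' (Matrix.toLin' A)) := by
    change Finite (Fin n → ZMod p)
    infer_instance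
  obtain ⟨m, hm⟩ := ker_card_abs g hi (Module.AEval' (Matrix.toLin' A))
  refine ⟨m, ?_⟩
  rw [← hm]
  refine Nat.card_congr ?_
  refine (Module.AEval'.of (Matrix.toLin' A)).toEquiv.subtypeEquiv fun z => ?_
  change _ ↔ Module.AEval'.of (Matrix.toLin' A) z ∈ Submodule.torsionBy (ZMod p)[X] _ g
  rw [Submodule.mem_torsionBy_iff]
  have h5 : g • Module.AEval'.of (Matrix.toLin' A) z =
      Module.AEval'.of (Matrix.toLin' A) (aeval (Matrix.toLin' A) g z) :=
    (Module.AEval.of_aeval_smul (R := ZMod p) (M := Fin n → ZMod p) (Matrix.toLin' A) g z).symm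
  rw [h5, LinearEquiv.map_eq_zero_iff]
  have h6 : aeval (Matrix.toLin' A) g = Matrix.toLin' (aeval A g) := by
    change aeval (Matrix.toLinAlgEquiv' A) g = Matrix.toLinAlgEquiv' (aeval A g)
    exact Polynomial.aeval_algHom_apply (Matrix.toLinAlgEquiv' :
      Matrix (Fin n) (Fin n) (ZMod p) ≃ₐ[ZMod p] _).toAlgHom A g
  rw [h6, Matrix.toLin'_apply]

/-- the kernel is non-trivial iff `g ∣ charpoly` -/
private theorem ker_iff {p : ℕ} [Fact p.Prime] {n : ℕ} (g : (ZMod p)[X]) (hi : Irreducible g)
    (A : Matrix (Fin n) (Fin n) (ZMod p)) :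
    (∃ z : Fin n → ZMod p, z ≠ 0 ∧ (Polynomial.aeval A g).mulVec z = 0) ↔ g ∣ A.charpoly := by
  classical
  constructor
  · rintro ⟨z, hz, hgz⟩
    by_contra hnd
    have hcop : IsCoprime g A.charpoly := (hi.coprime_iff_not_dvd).2 hnd
    obtain ⟨a, b, hab⟩ := hcop
    have h1 : aeval A (a * g + b * A.charpoly) = 1 := by rw [hab, map_one]
    rw [map_add, map_mul, map_mul, Matrix.aeval_self_charpoly, mul_zero, add_zero] at h1
    have h2 : (aeval A a * aeval A g).mulVec z = z := by rw [h1, Matrix.one_mulVec]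
    rw [← Matrix.mulVec_mulVec, hgz, Matrix.mulVec_zero] at h2
    exact hz h2.symm
  · intro hd
    haveI : Fact (Irreducible g) := ⟨hi⟩
    let K := AdjoinRoot g
    let α : K := AdjoinRoot.root g
    let B : Matrix (Fin n) (Fin n) K := A.map (algebraMap (ZMod p) K)
    have hα : (B.charpoly).eval α = 0 := by
      obtain ⟨q, hq⟩ := hd
      have h1 : B.charpoly = A.charpoly.map (algebraMap (ZMod p) K) :=
        Matrix.charpoly_map A (algebraMap (ZMod p) K)
      rw [h1, hq, Polynomial.map_mul, eval_mul]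
      have h2 : (g.map (algebraMap (ZMod p) K)).eval α = 0 := by
        rw [Polynomial.eval_map_algebraMap, AdjoinRoot.aeval_eq, AdjoinRoot.mk_self]
      rw [h2, zero_mul]
    rw [Matrix.eval_charpoly] at hα
    obtain ⟨v, hv0, hv⟩ := Matrix.exists_mulVec_eq_zero_iff.2 hα
    rw [Matrix.sub_mulVec, sub_eq_zero] at hv
    have hv' : B.mulVec v = α • v := by
      rw [← hv]
      ext i
      rw [Matrix.scalar_apply, Matrix.mulVec_diagonal]
      rfl
    -- `g(B) v = 0`
    have h3 : (aeval B g).mulVec v = 0 := by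
      have h4 : ∀ f : (ZMod p)[X], (aeval B f).mulVec v = (aeval α f) • v := by
        intro f
        induction f using Polynomial.induction_on' with
        | add f1 f2 h1 h2 =>
          rw [map_add, map_add, Matrix.add_mulVec, h1, h2, add_smul]
        | monomial k c =>
          rw [aeval_monomial, aeval_monomial]
          have h5 : ∀ k : ℕ, (B ^ k).mulVec v = α ^ k • v := by
            intro k
            induction k with
            | zero => simp
            | succ k ih =>
              rw [pow_succ, ← Matrix.mulVec_mulVec, hv', Matrix.mulVec_smul, ih, smul_smul,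
                pow_succ']
          rw [← Matrix.mulVec_mulVec, h5, ← smul_smul]
          rw [Algebra.algebraMap_eq_smul_one, Matrix.smul_mulVec, Matrix.one_mulVec,
            algebraMap_smul]
      rw [h4 g, AdjoinRoot.aeval_eq, AdjoinRoot.mk_self, zero_smul]
    have h4 : (aeval B g).det = 0 := Matrix.exists_mulVec_eq_zero_iff.1 ⟨v, hv0, h3⟩
    have h5 : aeval B g = (aeval A g).map (algebraMap (ZMod p) K) := by
      have h6 := Polynomial.aeval_algHom_apply
        ((Algebra.ofId (ZMod p) K).mapMatrix (m := Fin n)) A g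
      exact h6
    have h6 : (aeval A g).det = 0 := by
      have h7 : algebraMap (ZMod p) K (aeval A g).det = 0 := by
        rw [RingHom.map_det]
        rw [h5] at h4
        exact h4
      exact (map_eq_zero_iff _ (algebraMap (ZMod p) K).injective).1 h7
    obtain ⟨z, hz0, hz⟩ := Matrix.exists_mulVec_eq_zero_iff.2 h6
    exact ⟨z, hz0, hz⟩

theorem ker_pow {p : ℕ} [Fact p.Prime] {n : ℕ} (g : (ZMod p)[X]) (hg : g.Monic) (hi : Irreducible g)
    (A : Matrix (Fin n) (Fin n) (ZMod p)) :
    ∃ m : ℕ, kerc g A = ((p : ℝ) ^ g.natDegree) ^ m ∧ (m = 0 ↔ ¬ g ∣ A.charpoly) := by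
  classical
  obtain ⟨m, hm⟩ := ker_card g hi A
  have hk : kerc g A = (Nat.card {z : Fin n → ZMod p // (Polynomial.aeval A g).mulVec z = 0} : ℝ) := by
    have h0 : kerc g A = ∑ z : Fin n → ZMod p,
        (if (Polynomial.aeval A g).mulVec z = 0 then (1 : ℝ) else 0) := by
      unfold kerc
      refine Finset.sum_congr rfl fun z _ => ?_
      by_cases hz : (Polynomial.aeval A g).mulVec z = 0
      · rw [ind_true hz, if_pos hz]
      · rw [ind_false hz, if_neg hz]
    rw [h0, Finset.sum_boole, Nat.card_eq_fintype_card, Fintype.card_subtype]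
  refine ⟨m, ?_, ?_⟩
  · rw [hk, hm]
    push_cast
    rfl
  · have hp1 : 1 < p ^ g.natDegree := Nat.one_lt_pow hi.natDegree_pos.ne' (Fact.out : p.Prime).one_lt
    rw [← ker_iff g hi A]
    constructor
    · rintro rfl ⟨z, hz, hgz⟩
      rw [pow_zero, Nat.card_eq_one_iff_unique] at hm
      obtain ⟨hss, -⟩ := hm
      have h1 := hss.elim (⟨z, hgz⟩ : {z : Fin n → ZMod p // (Polynomial.aeval A g).mulVec z = 0})
        ⟨0, Matrix.mulVec_zero _⟩
      exact hz (congrArg Subtype.val h1)
    · intro h
      by_contra hm0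
      have h1 : 1 < (p ^ g.natDegree) ^ m := Nat.one_lt_pow hm0 hp1
      rw [← hm] at h1
      have h2 := (Finite.one_lt_card_iff_nontrivial).1 h1
      obtain ⟨z, hz⟩ := exists_ne (⟨0, Matrix.mulVec_zero _⟩ :
        {z : Fin n → ZMod p // (Polynomial.aeval A g).mulVec z = 0})
      exact h ⟨z.1, fun h0 => hz (Subtype.ext h0), z.2⟩

end Pool.H64.IR
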