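import Pool.Agent.H64.IR.IRC

/-! MODULE LBD (project MP_a758cf_pr, IR; overview: team-store H64_a758cf.md)
L = sum_{g in RR p K y} beta g, 1 <= K <= y, p >= 3: |L - log(y/K)| <= 3; and each beta g for g in RR p K k is <= 1/(p^(K+1)-1) <= 3^(-K).
sum over degree j: card(Irr p j)/(p^j-1) <= (1/j) p^j/(p^j-1) <= 1/j + (2/j) p^(-j)... and >= (1/j)(1 - 2 p^(-j/2)). sum_{K<j<=y} 1/j <= log(y/K) and >= log((y+1)/(K+1)) >=
log(y/K) - log 2. Errors: sum_j 2 p^{-j}/j <= 1, sum_j (2/j) 3^{-j/2} = -2 log(1-1/sqrt 3) <= 1.73.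
-/

set_option autoImplicit false

namespace Pool.H64.IR

open Finset Polynomial

lemma lbd_harm_upper (K y : ℕ) (hK : 1 ≤ K) (hy : K ≤ y) :
    ∑ j ∈ Finset.Ioc K y, (1 : ℝ) / j ≤ Real.log y - Real.log K := by
  induction y, hy using Nat.le_induction with
  | base => simp
  | succ y hy ih =>
    rw [Finset.sum_Ioc_succ_top hy]
    have hy0 : (0 : ℝ) < y := by exact_mod_cast (by omega : 0 < y)
    have h1 : 1 / ((y : ℝ) + 1) ≤ Real.log ((y : ℝ) + 1) - Real.log y := by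
      rw [← Real.log_div (by positivity) (by positivity)]
      have h2 := Real.one_sub_inv_le_log_of_pos (show (0 : ℝ) < ((y : ℝ) + 1) / y by positivity)
      refine le_trans (le_of_eq ?_) h2
      field_simp
      ring
    push_cast
    linarith

lemma lbd_harm_lower (K y : ℕ) (hy : K ≤ y) :
    Real.log ((y : ℝ) + 1) - Real.log ((K : ℝ) + 1) ≤ ∑ j ∈ Finset.Ioc K y, (1 : ℝ) / j := by
  induction y, hy using Nat.le_induction with
  | base => simp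
  | succ y hy ih =>
    rw [Finset.sum_Ioc_succ_top hy]
    have h1 : Real.log ((y : ℝ) + 1 + 1) - Real.log ((y : ℝ) + 1) ≤ 1 / ((y : ℝ) + 1) := by
      rw [← Real.log_div (by positivity) (by positivity)]
      have h2 := Real.log_le_sub_one_of_pos
        (show (0 : ℝ) < ((y : ℝ) + 1 + 1) / ((y : ℝ) + 1) by positivity)
      refine h2.trans (le_of_eq ?_)
      field_simp
      ring
    push_cast
    linarith

lemma lbd_geom (c : ℝ) (hc : c ≠ 1) (K y : ℕ) (hy : K ≤ y) :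
    ∑ j ∈ Finset.Ioc K y, c ^ j = (c ^ (K + 1) - c ^ (y + 1)) / (1 - c) := by
  have h1 : 1 - c ≠ 0 := fun h => hc (by linarith)
  induction y, hy using Nat.le_induction with
  | base => simp
  | succ y hy ih =>
    rw [Finset.sum_Ioc_succ_top hy, ih]
    field_simp
    ring

lemma lbd_geom_le (c : ℝ) (h0 : 0 ≤ c) (hc : c < 1) (K y : ℕ) (hy : K ≤ y) :
    ∑ j ∈ Finset.Ioc K y, c ^ j ≤ c ^ (K + 1) / (1 - c) := by
  rw [lbd_geom c hc.ne K y hy]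
  refine div_le_div_of_nonneg_right ?_ (by linarith)
  have : 0 ≤ c ^ (y + 1) := by positivity
  linarith

lemma lbd_sum {p : ℕ} [Fact p.Prime] (K y : ℕ) :
    ∑ g ∈ RR p K y, beta g = ∑ j ∈ Finset.Ioc K y, ((Irr p j).card : ℝ) / ((p : ℝ) ^ j - 1) := by
  rw [sum_rr]
  refine Finset.sum_congr rfl fun j _ => ?_
  rw [Finset.sum_congr rfl (g := fun _ => 1 / ((p : ℝ) ^ j - 1)), Finset.sum_const, nsmul_eq_mul]
  · ring
  · intro f hf
    unfold beta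
    rw [((mem_irr f).1 hf).2.2]

lemma lbd_pow {p : ℕ} (hp : 3 ≤ p) (j : ℕ) : (3 : ℝ) ^ j ≤ (p : ℝ) ^ j :=
  pow_le_pow_left₀ (by norm_num) (by exact_mod_cast hp) j

lemma lbd_term_upper {p : ℕ} [Fact p.Prime] (hp : 3 ≤ p) (j : ℕ) (hj : 1 ≤ j) :
    ((Irr p j).card : ℝ) / ((p : ℝ) ^ j - 1) ≤ 1 / j + 3 / 2 * (1 / 3 : ℝ) ^ j := by
  have hj0 : (0 : ℝ) < j := by exact_mod_cast hj
  have hj1 : (1 : ℝ) ≤ j := by exact_mod_cast hj
  have h1 := irc_upper p j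
  have h2 := lbd_pow hp j
  have h3 : (3 : ℝ) ≤ 3 ^ j := by
    calc (3 : ℝ) = 3 ^ 1 := by norm_num
      _ ≤ 3 ^ j := pow_le_pow_right₀ (by norm_num) hj
  have h4 : (0 : ℝ) < (p : ℝ) ^ j - 1 := by linarith
  rw [div_le_iff₀ h4]
  have h5 : ((Irr p j).card : ℝ) ≤ (p : ℝ) ^ j / j := by
    rw [le_div_iff₀ hj0]; linarith
  refine h5.trans ?_
  have h6 : (1 / 3 : ℝ) ^ j * 3 ^ j = 1 := by
    rw [← mul_pow]; norm_num
  have h7 : (0 : ℝ) < (1 / 3 : ℝ) ^ j := by positivity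
  have h8 : (1 : ℝ) ≤ 3 / 2 * (1 / 3 : ℝ) ^ j * ((p : ℝ) ^ j - 1) := by
    have h9 : (1 / 3 : ℝ) ^ j * (2 / 3 * 3 ^ j) ≤ (1 / 3 : ℝ) ^ j * ((p : ℝ) ^ j - 1) :=
      mul_le_mul_of_nonneg_left (by linarith) h7.le
    nlinarith
  have h10 : 1 / (j : ℝ) ≤ 1 := by rw [div_le_one hj0]; exact hj1
  have h11 : (p : ℝ) ^ j / j = 1 / j * ((p : ℝ) ^ j - 1) + 1 / j := by ring
  rw [h11]
  nlinarith

lemma lbd_term_lower {p : ℕ} [Fact p.Prime] (hp : 3 ≤ p) (j : ℕ) (hj : 1 ≤ j) :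
    1 / (j : ℝ) - 2 / j * (3 / 5 : ℝ) ^ j ≤ ((Irr p j).card : ℝ) / ((p : ℝ) ^ j - 1) := by
  have hj0 : (0 : ℝ) < j := by exact_mod_cast hj
  have h1 := irc_lower p j hj
  have h2 := lbd_pow hp j
  have h3 : (3 : ℝ) ≤ 3 ^ j := by
    calc (3 : ℝ) = 3 ^ 1 := by norm_num
      _ ≤ 3 ^ j := pow_le_pow_right₀ (by norm_num) hj
  have h4 : (0 : ℝ) < (p : ℝ) ^ j - 1 := by linarith
  have hp0 : (0 : ℝ) ≤ p := Nat.cast_nonneg _
  have hp3 : (3 : ℝ) ≤ p := by exact_mod_cast hp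
  have h5 : (5 / 3 : ℝ) ≤ Real.sqrt p := by
    rw [show (5 / 3 : ℝ) = Real.sqrt ((5 / 3) ^ 2) from (Real.sqrt_sq (by norm_num)).symm]
    exact Real.sqrt_le_sqrt (by norm_num; linarith)
  have h6 : (5 / 3 : ℝ) ^ j ≤ Real.sqrt p ^ j := pow_le_pow_left₀ (by norm_num) h5 j
  have h7 : Real.sqrt p ^ j * Real.sqrt p ^ j = (p : ℝ) ^ j := by
    rw [← mul_pow, Real.mul_self_sqrt hp0]
  have h8 : (3 / 5 : ℝ) ^ j * (5 / 3) ^ j = 1 := by
    rw [← mul_pow]; norm_num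
  have h9 : (0 : ℝ) < (3 / 5 : ℝ) ^ j := by positivity
  have h10 : (0 : ℝ) < Real.sqrt p ^ j := by positivity
  -- sqrt p ^ j <= (3/5)^j p^j
  have h11 : Real.sqrt p ^ j ≤ (3 / 5 : ℝ) ^ j * (p : ℝ) ^ j := by
    have h12 : (1 : ℝ) ≤ (3 / 5 : ℝ) ^ j * Real.sqrt p ^ j := by
      rw [← h8]; exact mul_le_mul_of_nonneg_left h6 h9.le
    calc Real.sqrt p ^ j = 1 * Real.sqrt p ^ j := by ring
      _ ≤ ((3 / 5 : ℝ) ^ j * Real.sqrt p ^ j) * Real.sqrt p ^ j :=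
          mul_le_mul_of_nonneg_right h12 h10.le
      _ = (3 / 5 : ℝ) ^ j * (p : ℝ) ^ j := by rw [mul_assoc, h7]
  have h13 : ((Irr p j).card : ℝ) / (p : ℝ) ^ j ≤ ((Irr p j).card : ℝ) / ((p : ℝ) ^ j - 1) :=
    div_le_div_of_nonneg_left (Nat.cast_nonneg _) h4 (by linarith)
  refine le_trans ?_ h13
  rw [le_div_iff₀ (by linarith)]
  have h14 : (1 / (j : ℝ) - 2 / j * (3 / 5 : ℝ) ^ j) * (p : ℝ) ^ j =
      ((p : ℝ) ^ j - 2 * ((3 / 5 : ℝ) ^ j * (p : ℝ) ^ j)) / j := by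
    field_simp
  rw [h14, div_le_iff₀ hj0]
  linarith

theorem lbd {p : ℕ} [Fact p.Prime] (hp : 3 ≤ p) (K y : ℕ) (hK : 1 ≤ K) (hy : K ≤ y) :
    |(∑ g ∈ RR p K y, beta g) - Real.log ((y : ℝ) / K)| ≤ 3 := by
  have hK0 : (0 : ℝ) < K := by exact_mod_cast hK
  have hK1 : (1 : ℝ) ≤ K := by exact_mod_cast hK
  have hy0 : (0 : ℝ) < y := by exact_mod_cast (by omega : 0 < y)
  rw [lbd_sum, Real.log_div (by positivity) (by positivity), abs_le]
  constructor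
  · have h1 : ∑ j ∈ Finset.Ioc K y, (1 / (j : ℝ) - (3 / 5 : ℝ) ^ j) ≤
        ∑ j ∈ Finset.Ioc K y, ((Irr p j).card : ℝ) / ((p : ℝ) ^ j - 1) := by
      refine Finset.sum_le_sum fun j hj => ?_
      rw [Finset.mem_Ioc] at hj
      refine le_trans ?_ (lbd_term_lower hp j (by omega))
      have hj2 : (2 : ℝ) ≤ j := by exact_mod_cast (by omega : 2 ≤ j)
      have h2 : 2 / (j : ℝ) ≤ 1 := by rw [div_le_one (by linarith)]; exact hj2
      have h3 : 2 / (j : ℝ) * (3 / 5 : ℝ) ^ j ≤ 1 * (3 / 5 : ℝ) ^ j :=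
        mul_le_mul_of_nonneg_right h2 (by positivity)
      linarith
    rw [Finset.sum_sub_distrib] at h1
    have h2 := lbd_harm_lower K y hy
    have h3 := lbd_geom_le (3 / 5) (by norm_num) (by norm_num) K y hy
    have h4 : (3 / 5 : ℝ) ^ (K + 1) / (1 - 3 / 5) ≤ 9 / 10 := by
      have : (3 / 5 : ℝ) ^ (K + 1) ≤ (3 / 5) ^ 2 :=
        pow_le_pow_of_le_one (by norm_num) (by norm_num) (by omega)
      rw [div_le_iff₀ (by norm_num)]
      linarith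
    have h5 : Real.log ((K : ℝ) + 1) ≤ Real.log K + 1 := by
      have h6 : Real.log ((K : ℝ) + 1) ≤ Real.log (2 * K) :=
        Real.log_le_log (by positivity) (by linarith)
      rw [Real.log_mul (by norm_num) (by positivity)] at h6
      have h7 := Real.log_le_sub_one_of_pos (show (0 : ℝ) < 2 by norm_num)
      linarith
    have h8 : Real.log y ≤ Real.log ((y : ℝ) + 1) := Real.log_le_log hy0 (by linarith)
    linarith
  · have h1 : ∑ j ∈ Finset.Ioc K y, ((Irr p j).card : ℝ) / ((p : ℝ) ^ j - 1) ≤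
        ∑ j ∈ Finset.Ioc K y, (1 / (j : ℝ) + 3 / 2 * (1 / 3 : ℝ) ^ j) :=
      Finset.sum_le_sum fun j hj => lbd_term_upper hp j (by rw [Finset.mem_Ioc] at hj; omega)
    rw [Finset.sum_add_distrib, ← Finset.mul_sum] at h1
    have h2 := lbd_harm_upper K y hK hy
    have h3 := lbd_geom_le (1 / 3) (by norm_num) (by norm_num) K y hy
    have h4 : (1 / 3 : ℝ) ^ (K + 1) / (1 - 1 / 3) ≤ 1 := by
      have : (1 / 3 : ℝ) ^ (K + 1) ≤ (1 / 3) ^ 1 :=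
        pow_le_pow_of_le_one (by norm_num) (by norm_num) (by omega)
      rw [div_le_iff₀ (by norm_num)]
      linarith
    linarith

theorem beta_le {p : ℕ} [Fact p.Prime] (hp : 3 ≤ p) (K k : ℕ) (g : (ZMod p)[X]) (hg : g ∈ RR p K k) :
    0 < beta g ∧ beta g ≤ 1 / ((p : ℝ) ^ (K + 1) - 1) ∧ beta g ≤ (1 / 3 : ℝ) ^ K := by
  obtain ⟨-, -, h1, -⟩ := (mem_rr g).1 hg
  have hp1 : (1 : ℝ) ≤ p := by exact_mod_cast (by omega : 1 ≤ p)
  have h2 : (p : ℝ) ^ (K + 1) ≤ (p : ℝ) ^ g.natDegree := pow_le_pow_right₀ hp1 h1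
  have h3 := lbd_pow hp (K + 1)
  have h4 : (1 : ℝ) ≤ 3 ^ K := one_le_pow₀ (by norm_num)
  have h5 : (3 : ℝ) ^ (K + 1) = 3 * 3 ^ K := by rw [pow_succ]; ring
  have h6 : (0 : ℝ) < (p : ℝ) ^ (K + 1) - 1 := by linarith
  have h7 : beta g ≤ 1 / ((p : ℝ) ^ (K + 1) - 1) := by
    unfold beta
    exact one_div_le_one_div_of_le h6 (by linarith)
  refine ⟨?_, h7, h7.trans ?_⟩
  · unfold beta
    exact one_div_pos.2 (by linarith)
  · rw [one_div_pow]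
    exact one_div_le_one_div_of_le (by positivity) (by linarith)

theorem lbd0 {p : ℕ} [Fact p.Prime] (hp : 3 ≤ p) (y : ℕ) (hy : 1 ≤ y) :
    (∑ g ∈ RR p 0 y, beta g) ≤ 2 * (1 + Real.log y) := by
  rw [lbd_sum]
  have h1 : ∑ j ∈ Finset.Ioc 0 y, ((Irr p j).card : ℝ) / ((p : ℝ) ^ j - 1) ≤
      ∑ j ∈ Finset.Ioc 0 y, (1 / (j : ℝ) + 3 / 2 * (1 / 3 : ℝ) ^ j) :=
    Finset.sum_le_sum fun j hj => lbd_term_upper hp j (by rw [Finset.mem_Ioc] at hj; omega)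
  rw [Finset.sum_add_distrib, ← Finset.mul_sum] at h1
  have h2 : ∑ j ∈ Finset.Ioc 0 y, 1 / (j : ℝ) ≤ 1 + Real.log y := by
    have h3 : Finset.Ioc 0 y = insert 1 (Finset.Ioc 1 y) := by
      ext j
      simp only [Finset.mem_Ioc, Finset.mem_insert]
      omega
    rw [h3, Finset.sum_insert (by simp)]
    have h4 := lbd_harm_upper 1 y le_rfl hy
    simp only [Nat.cast_one, Real.log_one, sub_zero] at h4
    norm_num
    simpa using h4
  have h3 := lbd_geom_le (1 / 3) (by norm_num) (by norm_num) 0 y (by omega)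
  have h4 : (1 / 3 : ℝ) ^ (0 + 1) / (1 - 1 / 3) = 1 / 2 := by norm_num
  have h5 : 0 ≤ Real.log y := Real.log_nonneg (by exact_mod_cast hy)
  rw [h4] at h3
  linarith

end Pool.H64.IR
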