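import Pool.Agent.H64.IR.Defs

/-! MODULE LGT (project MP_a758cf_pr, IR; overview: team-store H64_a758cf.md)
Light vectors: for every e > 0 there are d > 0 and n0 such that for n >= n0 the number of vectors in F^n (q = card F) with at most d n + 1 nonzero entries
is at most exp(e n). Also: the number of subsets of Fin n of size <= d n is at most exp(e n).
Proof: count <= sum_{j <= dn+1} binom(n,j) q^j <= (x-trick) for 0<x<=1: sum_{j<=m} binom(n,j) q^j <= x^(-m) (1+x q)^n <= exp(m log(1/x) + x q n); choose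
x with x q <= e/4, then d with d log(1/x) <= e/4 and n0 with log(1/x) <= (e/4) n0.
-/

set_option autoImplicit false

namespace Pool.H64.IR

open Finset Polynomial

private lemma lgt_s (q e : ℝ) (hq : 0 ≤ q) (he : 0 < e) : ∃ s : ℝ, 0 < s ∧ q * Real.exp (-s) ≤ e / 4 := by
  refine ⟨max 1 (4 * q / e), lt_of_lt_of_le one_pos (le_max_left _ _), ?_⟩
  set s : ℝ := max 1 (4 * q / e) with hs
  have h1 : s + 1 ≤ Real.exp s := Real.add_one_le_exp s
  have h2 : 4 * q / e ≤ s := le_max_right _ _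
  rw [div_le_iff₀ he] at h2
  rw [Real.exp_neg, ← div_eq_mul_inv, div_le_iff₀ (Real.exp_pos s)]
  nlinarith

private lemma lgt_ind (w m s : ℝ) (hs : 0 < s) : ind (w ≤ m) ≤ Real.exp (s * m) * Real.exp (-s * w) := by
  rw [← Real.exp_add]
  by_cases h : w ≤ m
  · rw [ind_true h]
    refine Real.one_le_exp ?_
    nlinarith
  · rw [ind_false h]
    exact (Real.exp_pos _).le

private lemma lgt_pow (x : ℝ) (hx : 0 ≤ x) (N n : ℕ) (hN : N ≤ n) : (1 + x) ^ N ≤ Real.exp (x * n) := by
  have h1 : 1 + x ≤ Real.exp x := by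
    have := Real.add_one_le_exp x
    linarith
  calc (1 + x) ^ N ≤ (Real.exp x) ^ N := pow_le_pow_left₀ (by linarith) h1 N
    _ = Real.exp (x * N) := by rw [← Real.exp_nat_mul, mul_comm]
    _ ≤ Real.exp (x * n) := by
      refine Real.exp_le_exp.2 ?_
      have : (N : ℝ) ≤ n := by exact_mod_cast hN
      nlinarith

theorem lgt_vec (F : Type) [Field F] [Fintype F] [DecidableEq F] (e : ℝ) (he : 0 < e) :
    ∃ d : ℝ, 0 < d ∧ ∃ n0 : ℕ, ∀ n : ℕ, n0 ≤ n → ∀ (ν : Type) [Fintype ν] [DecidableEq ν], Fintype.card ν ≤ n →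
      (∑ v : ν → F, ind (((univ.filter fun i => v i ≠ 0).card : ℝ) ≤ d * n + 1)) ≤ Real.exp (e * n) := by
  classical
  obtain ⟨s, hs, hse⟩ := lgt_s (Fintype.card F) e (Nat.cast_nonneg _) he
  obtain ⟨n0, hn0⟩ := exists_nat_ge (4 * s / e)
  rw [div_le_iff₀ he] at hn0
  refine ⟨e / (4 * s), by positivity, n0, ?_⟩
  intro n hn ν _ _ hν
  set m : ℝ := e / (4 * s) * n + 1 with hm
  have h1 : (∑ v : ν → F, ind (((univ.filter fun i => v i ≠ 0).card : ℝ) ≤ m)) ≤
      ∑ v : ν → F, Real.exp (s * m) * ∏ i, (if v i ≠ 0 then Real.exp (-s) else 1) := by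
    refine Finset.sum_le_sum fun v _ => ?_
    refine (lgt_ind _ m s hs).trans (le_of_eq ?_)
    congr 1
    rw [Finset.prod_ite, Finset.prod_const, Finset.prod_const, one_pow, mul_one, ← Real.exp_nat_mul,
      mul_comm]
  refine h1.trans ?_
  rw [← Finset.mul_sum]
  have h2 : ∑ v : ν → F, ∏ i, (if v i ≠ 0 then Real.exp (-s) else 1) =
      (∑ y : F, (if y ≠ 0 then Real.exp (-s) else 1)) ^ Fintype.card ν := by
    rw [← Finset.card_univ, ← Finset.prod_const, Finset.prod_univ_sum, Fintype.piFinset_univ]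
  have h3 : ∑ y : F, (if y ≠ 0 then Real.exp (-s) else 1) ≤ 1 + Fintype.card F * Real.exp (-s) := by
    have h4 : ∀ y : F, (if y ≠ 0 then Real.exp (-s) else 1) ≤ Real.exp (-s) + if y = 0 then 1 else 0 := by
      intro y
      have := (Real.exp_pos (-s)).le
      by_cases hy : y = 0
      · rw [if_neg (by simpa using hy), if_pos hy]; linarith
      · rw [if_pos hy, if_neg hy]; linarith
    refine (Finset.sum_le_sum fun y _ => h4 y).trans (le_of_eq ?_)
    rw [Finset.sum_add_distrib, Finset.sum_const, Finset.card_univ, nsmul_eq_mul,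
      Finset.sum_ite_eq' univ (0 : F), if_pos (Finset.mem_univ _)]
    ring
  have h5 : (∑ y : F, (if y ≠ 0 then Real.exp (-s) else 1)) ^ Fintype.card ν ≤
      Real.exp (Fintype.card F * Real.exp (-s) * n) := by
    refine (pow_le_pow_left₀ ?_ h3 _).trans ?_
    · refine Finset.sum_nonneg fun y _ => ?_
      split_ifs
      · exact (Real.exp_pos _).le
      · exact zero_le_one
    · exact lgt_pow _ (by positivity) _ _ hν
  rw [h2]
  refine (mul_le_mul_of_nonneg_left h5 (Real.exp_pos _).le).trans ?_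
  rw [← Real.exp_add]
  refine Real.exp_le_exp.2 ?_
  have hn' : (n0 : ℝ) ≤ n := by exact_mod_cast hn
  have h6 : s * m = e / 4 * n + s := by
    rw [hm]
    field_simp
  rw [h6]
  have hn0' : (0 : ℝ) ≤ n := Nat.cast_nonneg n
  have h7 : (Fintype.card F : ℝ) * Real.exp (-s) * n ≤ e / 4 * n :=
    mul_le_mul_of_nonneg_right hse hn0'
  nlinarith

theorem lgt_set (e : ℝ) (he : 0 < e) :
    ∃ d : ℝ, 0 < d ∧ ∃ n0 : ℕ, ∀ n : ℕ, n0 ≤ n →
      (∑ s : Finset (Fin n), ind ((s.card : ℝ) ≤ d * n)) ≤ Real.exp (e * n) := by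
  classical
  obtain ⟨t, ht, hte⟩ := lgt_s 1 e zero_le_one he
  refine ⟨e / (4 * t), by positivity, 0, ?_⟩
  intro n _
  have h1 : (∑ s : Finset (Fin n), ind ((s.card : ℝ) ≤ e / (4 * t) * n)) ≤
      ∑ s : Finset (Fin n), Real.exp (t * (e / (4 * t) * n)) * ∏ i ∈ s, Real.exp (-t) := by
    refine Finset.sum_le_sum fun s _ => ?_
    refine (lgt_ind _ _ t ht).trans (le_of_eq ?_)
    congr 1
    rw [Finset.prod_const, ← Real.exp_nat_mul, mul_comm]
  refine h1.trans ?_
  rw [← Finset.mul_sum]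
  have h2 : ∑ s : Finset (Fin n), ∏ i ∈ s, Real.exp (-t) = (1 + Real.exp (-t)) ^ n := by
    have h3 := Finset.prod_one_add (s := (univ : Finset (Fin n))) (f := fun _ => Real.exp (-t))
    rw [Finset.prod_const, Finset.card_univ, Fintype.card_fin, Finset.powerset_univ] at h3
    exact h3.symm
  rw [h2]
  refine (mul_le_mul_of_nonneg_left (lgt_pow _ (Real.exp_pos _).le n n le_rfl) (Real.exp_pos _).le).trans ?_
  rw [← Real.exp_add]
  refine Real.exp_le_exp.2 ?_
  have h6 : t * (e / (4 * t) * n) = e / 4 * n := by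
    field_simp
  rw [h6]
  have hn0' : (0 : ℝ) ≤ n := Nat.cast_nonneg n
  rw [one_mul] at hte
  have h7 : Real.exp (-t) * n ≤ e / 4 * n := mul_le_mul_of_nonneg_right hte hn0'
  nlinarith

end Pool.H64.IR
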