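import Pool.Agent.H64.IR.Defs

/-! MODULE WTC (project MP_a758cf_pr, IR; overview: team-store H64_a758cf.md)
Let p_i be distinct odd primes. For a tuple m_i in ZMod p_i, zeta = prod_i e_i(m_i) is a root of unity, and zeta = 1 iff all m_i = 0
(distinct primes: zeta^(prod_{j /= i} p_j) = e_i(unit * m_i)). So |1+zeta|/2 < 1 unless all m_i = 0. There are finitely many tuples, so there is
c0 < 1 with |1+zeta|/2 <= c0 for all nonzero tuples. With c1 = max(c0,1/2)^(1/t), t = card ι (t >= 1; if ι is empty take c1 = 1/2): for each edge e,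
|1+zeta_e|/2 <= prod_i c1^[M_i(e) /= 0] (if some M_i(e) /= 0 the right side is >= c1^t >= c0). Product over the edges gives the claim, since
wt (M i) is the number of edges with M_i(e) /= 0. (The primes being odd is not used.)
-/

set_option autoImplicit false

namespace Pool.H64.IR

open Finset Polynomial

theorem wtc_ne_one {ι : Type} [Fintype ι] (p : ι → ℕ) [∀ i, Fact (p i).Prime] (hinj : Function.Injective p)
    (m : ∀ i, ZMod (p i)) (j : ι) (hj : m j ≠ 0) : ∏ i, (ZMod.stdAddChar (m i) : ℂ) ≠ 1 := by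
  classical
  intro h
  set N : ℕ := ∏ i ∈ univ.erase j, p i with hN
  have h1 : (∏ i, (ZMod.stdAddChar (m i) : ℂ)) ^ N = 1 := by rw [h, one_pow]
  rw [← Finset.prod_pow, ← Finset.mul_prod_erase univ _ (Finset.mem_univ j)] at h1
  have h2 : ∏ i ∈ univ.erase j, (ZMod.stdAddChar (m i) : ℂ) ^ N = 1 := by
    refine Finset.prod_eq_one fun i hi => ?_
    rw [← AddChar.map_nsmul_eq_pow]
    have : (N : ℕ) • m i = 0 := by
      rw [nsmul_eq_mul]
      have : ((N : ℕ) : ZMod (p i)) = 0 := by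
        rw [ZMod.natCast_eq_zero_iff]
        exact Finset.dvd_prod_of_mem _ hi
      rw [this, zero_mul]
    rw [this]
    simp
  rw [h2, mul_one, ← AddChar.map_nsmul_eq_pow] at h1
  have h3 : (ZMod.stdAddChar (0 : ZMod (p j)) : ℂ) = 1 := by simp
  rw [← h3] at h1
  have h4 := ZMod.injective_stdAddChar h1
  rw [nsmul_eq_mul, mul_eq_zero] at h4
  rcases h4 with h4 | h4
  · rw [ZMod.natCast_eq_zero_iff, hN] at h4
    rw [Prime.dvd_finsetProd_iff (Nat.Prime.prime Fact.out)] at h4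
    obtain ⟨i, hi, hd⟩ := h4
    have := (Nat.prime_dvd_prime_iff_eq (Fact.out : (p j).Prime) (Fact.out : (p i).Prime)).1 hd
    exact (Finset.mem_erase.1 hi).1 (hinj this).symm
  · exact hj h4

theorem wtc_norm {ι : Type} [Fintype ι] (p : ι → ℕ) [∀ i, Fact (p i).Prime]
    (m : ∀ i, ZMod (p i)) : ‖∏ i, (ZMod.stdAddChar (m i) : ℂ)‖ = 1 := by
  rw [norm_prod]
  exact Finset.prod_eq_one fun i _ => AddChar.norm_apply _ _

theorem wtc_lt {ι : Type} [Fintype ι] (p : ι → ℕ) [∀ i, Fact (p i).Prime] (hinj : Function.Injective p)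
    (m : ∀ i, ZMod (p i)) (hm : m ≠ 0) : ‖(1 + ∏ i, (ZMod.stdAddChar (m i) : ℂ)) / 2‖ < 1 := by
  obtain ⟨j, hj⟩ : ∃ j, m j ≠ 0 := by
    by_contra hno
    push Not at hno
    exact hm (funext hno)
  set z : ℂ := ∏ i, (ZMod.stdAddChar (m i) : ℂ) with hz
  have h1 : ‖z‖ = 1 := wtc_norm p m
  have h2 : z ≠ 1 := wtc_ne_one p hinj m j hj
  have h3 := parallelogram_law_with_norm ℝ (1 : ℂ) z
  rw [h1, norm_one] at h3
  have h4 : 0 < ‖1 - z‖ := norm_pos_iff.2 (sub_ne_zero.2 (Ne.symm h2))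
  have h5 : ‖1 + z‖ < 2 := by
    nlinarith [norm_nonneg (1 + z)]
  rw [norm_div]
  have : ‖(2 : ℂ)‖ = 2 := by simp
  rw [this]
  linarith

theorem wtc_sup {ι : Type} [Fintype ι] (p : ι → ℕ) [∀ i, Fact (p i).Prime] (hinj : Function.Injective p) :
    ∃ c : ℝ, 0 < c ∧ c < 1 ∧ ∀ m : ∀ i, ZMod (p i), m ≠ 0 →
      ‖(1 + ∏ i, (ZMod.stdAddChar (m i) : ℂ)) / 2‖ ≤ c := by
  classical
  rcases (univ.filter fun m : ∀ i, ZMod (p i) => m ≠ 0).eq_empty_or_nonempty with h | h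
  · refine ⟨1 / 2, by norm_num, by norm_num, fun m hm => ?_⟩
    exfalso
    have : m ∈ (univ.filter fun m : ∀ i, ZMod (p i) => m ≠ 0) := Finset.mem_filter.2 ⟨Finset.mem_univ _, hm⟩
    rw [h] at this
    simp at this
  · obtain ⟨m0, hm0, hmax⟩ := Finset.exists_max_image _
      (fun m : ∀ i, ZMod (p i) => ‖(1 + ∏ i, (ZMod.stdAddChar (m i) : ℂ)) / 2‖) h
    refine ⟨max (1 / 2) ‖(1 + ∏ i, (ZMod.stdAddChar (m0 i) : ℂ)) / 2‖, ?_, ?_, fun m hm => ?_⟩
    · exact lt_of_lt_of_le (by norm_num) (le_max_left _ _)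
    · exact max_lt (by norm_num) (wtc_lt p hinj m0 (Finset.mem_filter.1 hm0).2)
    · exact le_trans (hmax m (Finset.mem_filter.2 ⟨Finset.mem_univ _, hm⟩)) (le_max_right _ _)

theorem wtc {ι : Type} [Fintype ι] (p : ι → ℕ) [∀ i, Fact (p i).Prime] (hinj : Function.Injective p) :
    ∃ c1 : ℝ, 0 < c1 ∧ c1 < 1 ∧ ∀ (n : ℕ) (M : ∀ i, Matrix (Fin n) (Fin n) (ZMod (p i))),
      ‖∏ e : Edge n, ((1 + ∏ i, (ZMod.stdAddChar (M i e.1.1 e.1.2) : ℂ)) / 2)‖ ≤ ∏ i, c1 ^ wt (M i) := by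
  classical
  obtain ⟨c, hc0, hc1, hc⟩ := wtc_sup p hinj
  set t : ℕ := Fintype.card ι with ht
  set c1 : ℝ := 1 - (1 - c) / (t + 1) with hc1'
  have ht1 : (0 : ℝ) < t + 1 := by positivity
  have hx0 : 0 < (1 - c) / (t + 1) := div_pos (by linarith) ht1
  have hx1 : (1 - c) / (t + 1) ≤ 1 - c := by
    rw [div_le_iff₀ ht1]
    have : (0 : ℝ) ≤ t := Nat.cast_nonneg _
    nlinarith
  have h1pos : 0 < c1 := by rw [hc1']; linarith
  have h1lt : c1 < 1 := by rw [hc1']; linarith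
  have hpow : c ≤ c1 ^ t := by
    have h2 := one_add_mul_le_pow (a := -((1 - c) / (t + 1))) (by linarith) t
    have h3 : (1 : ℝ) + t * -((1 - c) / (t + 1)) = 1 - (1 - c) * (t / (t + 1)) := by
      field_simp
      ring
    have h4 : (t : ℝ) / (t + 1) ≤ 1 := by
      rw [div_le_one ht1]; linarith
    have h5 : c1 = 1 + -((1 - c) / (t + 1)) := by rw [hc1']; ring
    rw [h5]
    refine le_trans ?_ h2
    rw [h3]
    nlinarith
  refine ⟨c1, h1pos, h1lt, fun n M => ?_⟩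
  rw [norm_prod]
  have hedge : ∀ e : Edge n, ‖(1 + ∏ i, (ZMod.stdAddChar (M i e.1.1 e.1.2) : ℂ)) / 2‖ ≤
      ∏ i, (if M i e.1.1 e.1.2 ≠ 0 then c1 else 1) := by
    intro e
    by_cases h : (fun i => M i e.1.1 e.1.2 : ∀ i, ZMod (p i)) = 0
    · have h2 : ∀ i, M i e.1.1 e.1.2 = 0 := fun i => congrFun h i
      simp only [h2]
      simp
    · refine (hc _ h).trans (hpow.trans ?_)
      rw [ht, ← Finset.card_univ, ← Finset.prod_const]
      refine Finset.prod_le_prod (fun i _ => h1pos.le) fun i _ => ?_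
      split_ifs
      · exact le_refl _
      · exact h1lt.le
  refine (Finset.prod_le_prod (fun e _ => norm_nonneg _) fun e _ => hedge e).trans (le_of_eq ?_)
  rw [Finset.prod_comm]
  refine Finset.prod_congr rfl fun i _ => ?_
  rw [Finset.prod_ite, Finset.prod_const, Finset.prod_const_one, mul_one]
  rfl

end Pool.H64.IR
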