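import Pool.Agent.H64.IR.FOU
import Pool.Agent.H64.IR.EBX
import Pool.Agent.H64.IR.WTC

/-! MODULE MAIN1 (project MP_a758cf_pr, IR; overview: team-store H64_a758cf.md)
Main Fourier inequality. D_i = p_i^(n k_i)/p_i^(k_i(k_i-1)/2).
Proof. avg prod_i XC (C_i) = sum over families (V_i), V_i of full rank, of avg_b prod_i 1[A V_i = V_i C_i], and
1[A V = V C] = p^(-nk) sum_Y e(trace(Yᵀ(A V - V C))) (sum of additive characters over Matrix (Fin n) (Fin k) (ZMod p)). By tr_adj and ebx,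
avg_b prod_i 1[..] = prod_i p_i^(-n k_i) sum_{(Y_i)} prod_i e_i(-trace(Y_iᵀ V_i C_i)) W(M), M_i = V_i Y_iᵀ + Y_i V_iᵀ,
W(M) = prod_edges (1+prod_i e_i(M_i(e)))/2 (depends on Y only through M; W(0) = 1). Group by M:
= prod_i p_i^(-nk_i) sum_{(M_i)} W(M) prod_i TT V_i C_i M_i. The term M = 0 is prod_i p_i^(-nk_i) p_i^(k_i(k_i-1)/2) ind(sym) (fou_zero), total over V:
prod_i NC (C_i) 0 / D_i. The other terms are bounded by fou_norm and wtc: |W(M)| <= prod_i c1^wt(M_i), so their total is at most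
sum_{M /= 0} prod_i c1^wt(M_i) NC (C_i) (M_i)/D_i = prod_i (sum_M c1^wt(M) NC (C_i) M/D_i) - prod_i NC (C_i) 0/D_i  (wt 0 = 0).
-/

set_option autoImplicit false

namespace Pool.H64.IR

open Finset Polynomial

/-- orthogonality of the trace characters -/
theorem main1_sum {p : ℕ} [Fact p.Prime] {n k : ℕ} (X : Matrix (Fin n) (Fin k) (ZMod p)) :
    ∑ Y : Matrix (Fin n) (Fin k) (ZMod p), (ZMod.stdAddChar (Matrix.trace (Y.transpose * X)) : ℂ) =
      ((((p : ℝ) ^ n) ^ k * ind (X = 0) : ℝ) : ℂ) := by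
  classical
  set f : Matrix (Fin n) (Fin k) (ZMod p) →+ ZMod p :=
    { toFun := fun Y => Matrix.trace (Y.transpose * X)
      map_zero' := by simp
      map_add' := by intro Y Z; simp [Matrix.add_mul] } with hf
  set ψ : AddChar (Matrix (Fin n) (Fin k) (ZMod p)) ℂ := (ZMod.stdAddChar (N := p)).compAddMonoidHom f with hψ
  have h1 : ∀ Y, (ZMod.stdAddChar (Matrix.trace (Y.transpose * X)) : ℂ) = ψ Y := fun Y => rfl
  simp_rw [h1]
  rw [AddChar.sum_eq_ite]
  by_cases hX : X = 0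
  · have h2 : ψ = 0 := by
      ext Y
      rw [← h1, hX]
      simp
    rw [if_pos h2, ind_true hX, mul_one]
    have hc : Fintype.card (Matrix (Fin n) (Fin k) (ZMod p)) = (p ^ n) ^ k := by
      rw [← Nat.card_eq_fintype_card]
      change Nat.card (Fin n → Fin k → ZMod p) = _
      rw [Nat.card_fun, Nat.card_fun, Nat.card_eq_fintype_card, Nat.card_eq_fintype_card,
        Nat.card_eq_fintype_card, ZMod.card, Fintype.card_fin, Fintype.card_fin, ← pow_mul, ← pow_mul,
        mul_comm]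
    rw [hc]
    push_cast
    rfl
  · have h2 : ψ ≠ 0 := by
      intro h
      apply hX
      ext i a
      by_contra hne
      rw [Matrix.zero_apply] at hne
      have h3 : ψ (Matrix.single i a (X i a)⁻¹) = 1 := by rw [h]; rfl
      rw [← h1] at h3
      have h4 : Matrix.trace ((Matrix.single i a (X i a)⁻¹).transpose * X) = 1 := by
        rw [Matrix.transpose_single, Matrix.trace_single_mul]
        simp [hne]
      rw [h4] at h3
      have h5 : (ZMod.stdAddChar (0 : ZMod p) : ℂ) = 1 := by simp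
      rw [← h5] at h3
      have := ZMod.injective_stdAddChar h3
      exact one_ne_zero this
    rw [if_neg h2, ind_false hX]
    simp

theorem main1_ind {p : ℕ} [Fact p.Prime] {n k : ℕ} (A : Matrix (Fin n) (Fin n) (ZMod p))
    (V : Matrix (Fin n) (Fin k) (ZMod p)) (C : Matrix (Fin k) (Fin k) (ZMod p)) :
    ((ind (A * V = V * C) : ℝ) : ℂ) = (((((p : ℝ) ^ n) ^ k)⁻¹ : ℝ) : ℂ) *
      ∑ Y : Matrix (Fin n) (Fin k) (ZMod p),
        ((ZMod.stdAddChar (Matrix.trace (Y.transpose * (A * V))) : ℂ) *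
          ZMod.stdAddChar (- Matrix.trace (Y.transpose * V * C))) := by
  have h1 := main1_sum (A * V - V * C)
  have h2 : ∀ Y : Matrix (Fin n) (Fin k) (ZMod p),
      (ZMod.stdAddChar (Matrix.trace (Y.transpose * (A * V))) : ℂ) *
          ZMod.stdAddChar (- Matrix.trace (Y.transpose * V * C)) =
      ZMod.stdAddChar (Matrix.trace (Y.transpose * (A * V - V * C))) := by
    intro Y
    rw [← AddChar.map_add_eq_mul]
    congr 1
    rw [Matrix.mul_sub, Matrix.trace_sub, Matrix.mul_assoc Y.transpose V C]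
    ring
  simp_rw [h2]
  rw [h1]
  have h3 : (p : ℝ) ≠ 0 := by exact_mod_cast (Fact.out : p.Prime).ne_zero
  rw [← Complex.ofReal_mul]
  congr 1
  have h4 : ind (A * V - V * C = 0) = ind (A * V = V * C) := ind_congr sub_eq_zero
  rw [h4]
  field_simp

theorem main1_prod_ind {ι : Type} [Fintype ι] (P : ι → Prop) : ∏ i, ind (P i) = ind (∀ i, P i) := by
  by_cases h : ∀ i, P i
  · rw [ind_true h]
    exact Finset.prod_eq_one fun i _ => ind_true (h i)
  · rw [ind_false h]
    push Not at h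
    obtain ⟨i, hi⟩ := h
    exact Finset.prod_eq_zero (Finset.mem_univ i) (ind_false hi)

/-- the edge product -/
noncomputable def main1_W {ι : Type} [Fintype ι] (p : ι → ℕ) [∀ i, Fact (p i).Prime] (n : ℕ)
    (M : ∀ i, Matrix (Fin n) (Fin n) (ZMod (p i))) : ℂ :=
  ∏ e : Edge n, ((1 + ∏ i, (ZMod.stdAddChar (M i e.1.1 e.1.2) : ℂ)) / 2)

theorem main1_E {ι : Type} [Fintype ι] (p : ι → ℕ) [∀ i, Fact (p i).Prime] (n : ℕ) (k : ι → ℕ)
    (C : ∀ i, Matrix (Fin (k i)) (Fin (k i)) (ZMod (p i)))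
    (V : ∀ i, Matrix (Fin n) (Fin (k i)) (ZMod (p i))) [DecidableEq ι] :
    ((avg (fun b : Edge n → Bool => ∏ i, ind (adj (ZMod (p i)) b * V i = V i * C i)) : ℝ) : ℂ) =
      (∏ i, (((((p i : ℝ) ^ n) ^ (k i))⁻¹ : ℝ) : ℂ)) *
        ∑ M : ∀ i, Matrix (Fin n) (Fin n) (ZMod (p i)), main1_W p n M * ∏ i, TT (V i) (C i) (M i) := by
  classical
  -- left side
  have hL : ((avg (fun b : Edge n → Bool => ∏ i, ind (adj (ZMod (p i)) b * V i = V i * C i)) : ℝ) : ℂ) =
      (∏ i, (((((p i : ℝ) ^ n) ^ (k i))⁻¹ : ℝ) : ℂ)) *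
        ∑ Y : ∀ i, Matrix (Fin n) (Fin (k i)) (ZMod (p i)),
          (∏ i, (ZMod.stdAddChar (- Matrix.trace ((Y i).transpose * V i * C i)) : ℂ)) *
            main1_W p n (fun i => V i * (Y i).transpose + Y i * (V i).transpose) := by
    unfold avg
    rw [Complex.ofReal_div, Complex.ofReal_sum]
    have h1 : ∀ b : Edge n → Bool,
        (((∏ i, ind (adj (ZMod (p i)) b * V i = V i * C i) : ℝ)) : ℂ) =
        (∏ i, (((((p i : ℝ) ^ n) ^ (k i))⁻¹ : ℝ) : ℂ)) *
        ∑ Y : ∀ i, Matrix (Fin n) (Fin (k i)) (ZMod (p i)),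
          (∏ i, (ZMod.stdAddChar (- Matrix.trace ((Y i).transpose * V i * C i)) : ℂ)) *
            ∏ i, (ZMod.stdAddChar (∑ e : Edge n, if b e then
              (V i * (Y i).transpose + Y i * (V i).transpose) e.1.1 e.1.2 else 0) : ℂ) := by
      intro b
      rw [Complex.ofReal_prod]
      simp_rw [main1_ind]
      rw [Finset.prod_mul_distrib, Fintype.prod_sum]
      congr 1
      refine Finset.sum_congr rfl fun Y _ => ?_
      rw [← Finset.prod_mul_distrib]
      refine Finset.prod_congr rfl fun i _ => ?_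
      rw [tr_adj, mul_comm]
    simp_rw [h1]
    rw [← Finset.mul_sum, mul_div_assoc]
    congr 1
    rw [Finset.sum_comm, Finset.sum_div]
    refine Finset.sum_congr rfl fun Y _ => ?_
    rw [← Finset.mul_sum, mul_div_assoc]
    congr 1
    have := ebx p n (fun i => V i * (Y i).transpose + Y i * (V i).transpose)
    unfold main1_W
    rw [← this]
    simp
  rw [hL]
  congr 1
  -- right side
  have h2 : ∀ M : ∀ i, Matrix (Fin n) (Fin n) (ZMod (p i)), ∏ i, TT (V i) (C i) (M i) =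
      ∑ Y : ∀ i, Matrix (Fin n) (Fin (k i)) (ZMod (p i)),
        (((ind (M = fun i => V i * (Y i).transpose + Y i * (V i).transpose) : ℝ)) : ℂ) *
        ∏ i, (ZMod.stdAddChar (- Matrix.trace ((Y i).transpose * V i * C i)) : ℂ) := by
    intro M
    unfold TT
    rw [Fintype.prod_sum]
    refine Finset.sum_congr rfl fun Y _ => ?_
    rw [Finset.prod_mul_distrib, ← Complex.ofReal_prod, main1_prod_ind]
    congr 2
    refine ind_congr ?_
    rw [funext_iff]
    exact forall_congr' fun i => eq_comm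
  simp_rw [h2, Finset.mul_sum]
  rw [Finset.sum_comm]
  refine Finset.sum_congr rfl fun Y _ => ?_
  rw [Finset.sum_eq_single (fun i => V i * (Y i).transpose + Y i * (V i).transpose)]
  · rw [ind_true rfl]
    push_cast
    ring
  · intro M _ hM
    rw [ind_false hM]
    simp
  · intro h
    exact absurd (Finset.mem_univ _) h

theorem main1 {ι : Type} [Fintype ι] (p : ι → ℕ) [∀ i, Fact (p i).Prime] (hp : ∀ i, p i ≠ 2)
    (hinj : Function.Injective p) :
    ∃ c1 : ℝ, 0 < c1 ∧ c1 < 1 ∧ ∀ (n : ℕ) (k : ι → ℕ) (C : ∀ i, Matrix (Fin (k i)) (Fin (k i)) (ZMod (p i))),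
      |avg (fun b : Edge n → Bool => ∏ i, XC (C i) (adj (ZMod (p i)) b)) -
          ∏ i, (NC (C i) (0 : Matrix (Fin n) (Fin n) (ZMod (p i))) /
            (((p i : ℝ) ^ n) ^ (k i) / (p i : ℝ) ^ (k i * (k i - 1) / 2)))| ≤
        (∏ i, ∑ M : Matrix (Fin n) (Fin n) (ZMod (p i)), c1 ^ wt M * (NC (C i) M /
            (((p i : ℝ) ^ n) ^ (k i) / (p i : ℝ) ^ (k i * (k i - 1) / 2)))) -
          ∏ i, (NC (C i) (0 : Matrix (Fin n) (Fin n) (ZMod (p i))) /
            (((p i : ℝ) ^ n) ^ (k i) / (p i : ℝ) ^ (k i * (k i - 1) / 2))) := by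
  classical
  obtain ⟨c1, h0, h1, hW⟩ := wtc p hinj
  refine ⟨c1, h0, h1, fun n k C => ?_⟩
  have hpos : ∀ i, (0 : ℝ) < (p i : ℝ) := fun i => by exact_mod_cast (Fact.out : (p i).Prime).pos
  set D : ι → ℝ := fun i => (((p i : ℝ) ^ n) ^ (k i) / (p i : ℝ) ^ (k i * (k i - 1) / 2)) with hD
  have hDpos : ∀ i, 0 < D i := fun i => div_pos (pow_pos (pow_pos (hpos i) _) _) (pow_pos (hpos i) _)
  -- the indicator attached to V and M
  set J : (∀ i, Matrix (Fin n) (Fin (k i)) (ZMod (p i))) → (∀ i, Matrix (Fin n) (Fin n) (ZMod (p i))) → ℝ :=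
    fun V M => ∏ i, ind (((V i).transpose * V i * C i).IsSymm ∧
      ∃ Y : Matrix (Fin n) (Fin (k i)) (ZMod (p i)), V i * Y.transpose + Y * (V i).transpose = M i) with hJ
  set FR : (∀ i, Matrix (Fin n) (Fin (k i)) (ZMod (p i))) → ℝ := fun V => ∏ i, ind (FullRank (V i)) with hFR
  set E : (∀ i, Matrix (Fin n) (Fin (k i)) (ZMod (p i))) → ℝ := fun V =>
    avg (fun b : Edge n → Bool => ∏ i, ind (adj (ZMod (p i)) b * V i = V i * C i)) with hE
  have hFR0 : ∀ V, 0 ≤ FR V := fun V => Finset.prod_nonneg fun i _ => ind_nonneg _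
  have hA : avg (fun b : Edge n → Bool => ∏ i, XC (C i) (adj (ZMod (p i)) b)) = ∑ V, FR V * E V := by
    have h2 : ∀ b : Edge n → Bool, ∏ i, XC (C i) (adj (ZMod (p i)) b) =
        ∑ V : ∀ i, Matrix (Fin n) (Fin (k i)) (ZMod (p i)),
          FR V * ∏ i, ind (adj (ZMod (p i)) b * V i = V i * C i) := by
      intro b
      unfold XC
      rw [Fintype.prod_sum]
      refine Finset.sum_congr rfl fun V _ => ?_
      rw [hFR]
      simp only
      rw [← Finset.prod_mul_distrib]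
      exact Finset.prod_congr rfl fun i _ => ind_and _ _
    simp_rw [h2]
    rw [avg_sum]
    exact Finset.sum_congr rfl fun V _ => avg_const_mul _ _
  have hN : ∀ M : ∀ i, Matrix (Fin n) (Fin n) (ZMod (p i)), ∏ i, (NC (C i) (M i) / D i) =
      ∑ V, FR V * (J V M * ∏ i, (D i)⁻¹) := by
    intro M
    rw [Finset.prod_div_distrib, div_eq_mul_inv, Finset.prod_inv_distrib]
    unfold NC
    rw [Fintype.prod_sum, Finset.sum_mul]
    refine Finset.sum_congr rfl fun V _ => ?_
    rw [← mul_assoc, hFR, hJ]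
    simp only
    rw [← Finset.prod_mul_distrib]
    congr 1
    exact Finset.prod_congr rfl fun i _ => ind_and _ _
  -- pointwise bound
  have hB : ∀ V, FR V * |E V - J V 0 * ∏ i, (D i)⁻¹| ≤
      ∑ M ∈ univ.erase (0 : ∀ i, Matrix (Fin n) (Fin n) (ZMod (p i))),
        (∏ i, c1 ^ wt (M i)) * (FR V * (J V M * ∏ i, (D i)⁻¹)) := by
    intro V
    by_cases hV : ∀ i, FullRank (V i)
    swap
    · have : FR V = 0 := by
        rw [hFR]; simp only; rw [main1_prod_ind, ind_false hV]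
      rw [this]
      simp
    have hF1 : FR V = 1 := by
      rw [hFR]; simp only; rw [main1_prod_ind, ind_true hV]
    rw [hF1, one_mul]
    simp_rw [one_mul]
    set q : ℝ := ∏ i, (((p i : ℝ) ^ n) ^ (k i))⁻¹ with hq
    have hq0 : 0 ≤ q := Finset.prod_nonneg fun i _ => by
      have := hpos i; positivity
    have hqD : ∏ i, (D i)⁻¹ = q * ∏ i, (p i : ℝ) ^ (k i * (k i - 1) / 2) := by
      rw [hq, ← Finset.prod_mul_distrib]
      refine Finset.prod_congr rfl fun i _ => ?_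
      rw [hD]
      simp only
      rw [inv_div, div_eq_mul_inv, mul_comm]
    have hEV := main1_E p n k C V
    have hTT0 : ∏ i, TT (V i) (C i) 0 =
        ((J V 0 * ∏ i, (p i : ℝ) ^ (k i * (k i - 1) / 2) : ℝ) : ℂ) := by
      have h3 : ∀ i, TT (V i) (C i) 0 = (((p i : ℝ) ^ (k i * (k i - 1) / 2) *
          ind (((V i).transpose * V i * C i).IsSymm) : ℝ) : ℂ) := fun i => fou_zero (hp i) (V i) (hV i) (C i)
      simp_rw [h3]
      rw [← Complex.ofReal_prod, Finset.prod_mul_distrib, mul_comm]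
      congr 2
      rw [hJ]
      refine Finset.prod_congr rfl fun i _ => ind_congr ?_
      constructor
      · intro h
        exact ⟨h, 0, by simp⟩
      · intro h
        exact h.1
    have hW0 : main1_W p n 0 = 1 := by
      unfold main1_W
      refine Finset.prod_eq_one fun e _ => ?_
      have : ∏ i, (ZMod.stdAddChar ((0 : ∀ i, Matrix (Fin n) (Fin n) (ZMod (p i))) i e.1.1 e.1.2) : ℂ) = 1 := by
        refine Finset.prod_eq_one fun i _ => ?_
        simp
      rw [this]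
      norm_num
    have h4 : ((E V - J V 0 * ∏ i, (D i)⁻¹ : ℝ) : ℂ) = (q : ℂ) *
        ∑ M ∈ univ.erase (0 : ∀ i, Matrix (Fin n) (Fin n) (ZMod (p i))),
          main1_W p n M * ∏ i, TT (V i) (C i) (M i) := by
      rw [Complex.ofReal_sub, hE]
      simp only
      rw [hEV, ← Finset.add_sum_erase _ _ (Finset.mem_univ (0 : ∀ i, Matrix (Fin n) (Fin n) (ZMod (p i)))),
        hW0, one_mul, hqD]
      have h5 : ∏ i, TT (V i) (C i) ((0 : ∀ i, Matrix (Fin n) (Fin n) (ZMod (p i))) i) =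
        ∏ i, TT (V i) (C i) 0 := rfl
      rw [h5, hTT0, hq]
      push_cast
      ring
    have h6 : |E V - J V 0 * ∏ i, (D i)⁻¹| = ‖((E V - J V 0 * ∏ i, (D i)⁻¹ : ℝ) : ℂ)‖ := by
      rw [Complex.norm_real, Real.norm_eq_abs]
    rw [h6, h4, norm_mul, Complex.norm_real, Real.norm_of_nonneg hq0]
    calc q * ‖∑ M ∈ univ.erase (0 : ∀ i, Matrix (Fin n) (Fin n) (ZMod (p i))),
          main1_W p n M * ∏ i, TT (V i) (C i) (M i)‖
        ≤ q * ∑ M ∈ univ.erase (0 : ∀ i, Matrix (Fin n) (Fin n) (ZMod (p i))),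
          ‖main1_W p n M * ∏ i, TT (V i) (C i) (M i)‖ :=
            mul_le_mul_of_nonneg_left (norm_sum_le _ _) hq0
      _ ≤ q * ∑ M ∈ univ.erase (0 : ∀ i, Matrix (Fin n) (Fin n) (ZMod (p i))),
          (∏ i, c1 ^ wt (M i)) * (J V M * ∏ i, (p i : ℝ) ^ (k i * (k i - 1) / 2)) := by
            refine mul_le_mul_of_nonneg_left (Finset.sum_le_sum fun M _ => ?_) hq0
            rw [norm_mul]
            refine mul_le_mul (hW n M) ?_ (norm_nonneg _) (Finset.prod_nonneg fun i _ => pow_nonneg h0.le _)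
            rw [norm_prod, mul_comm, hJ]
            simp only
            rw [← Finset.prod_mul_distrib]
            refine Finset.prod_le_prod (fun i _ => norm_nonneg _) fun i _ => ?_
            exact fou_norm (hp i) (V i) (hV i) (C i) (M i)
      _ = _ := by
            rw [hqD, Finset.mul_sum]
            refine Finset.sum_congr rfl fun M _ => ?_
            ring
  -- assembly
  have h7 : avg (fun b : Edge n → Bool => ∏ i, XC (C i) (adj (ZMod (p i)) b)) -
      ∏ i, (NC (C i) (0 : Matrix (Fin n) (Fin n) (ZMod (p i))) / D i) =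
      ∑ V, FR V * (E V - J V 0 * ∏ i, (D i)⁻¹) := by
    rw [hA]
    have := hN 0
    have h8 : ∏ i, (NC (C i) ((0 : ∀ i, Matrix (Fin n) (Fin n) (ZMod (p i))) i) / D i) =
      ∏ i, (NC (C i) (0 : Matrix (Fin n) (Fin n) (ZMod (p i))) / D i) := rfl
    rw [← h8, this, ← Finset.sum_sub_distrib]
    exact Finset.sum_congr rfl fun V _ => by ring
  have h9 : (∏ i, ∑ M : Matrix (Fin n) (Fin n) (ZMod (p i)), c1 ^ wt M * (NC (C i) M / D i)) -
      ∏ i, (NC (C i) (0 : Matrix (Fin n) (Fin n) (ZMod (p i))) / D i) =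
      ∑ M ∈ univ.erase (0 : ∀ i, Matrix (Fin n) (Fin n) (ZMod (p i))),
        (∏ i, c1 ^ wt (M i)) * ∏ i, (NC (C i) (M i) / D i) := by
    rw [Fintype.prod_sum, ← Finset.add_sum_erase _ _ (Finset.mem_univ (0 : ∀ i, Matrix (Fin n) (Fin n) (ZMod (p i))))]
    have h10 : ∏ i, (c1 ^ wt ((0 : ∀ i, Matrix (Fin n) (Fin n) (ZMod (p i))) i) *
        (NC (C i) ((0 : ∀ i, Matrix (Fin n) (Fin n) (ZMod (p i))) i) / D i)) =
        ∏ i, (NC (C i) (0 : Matrix (Fin n) (Fin n) (ZMod (p i))) / D i) := by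
      refine Finset.prod_congr rfl fun i _ => ?_
      have : wt ((0 : ∀ i, Matrix (Fin n) (Fin n) (ZMod (p i))) i) = 0 := by
        unfold wt
        simp
      rw [this, pow_zero, one_mul]
      rfl
    rw [h10, add_sub_cancel_left]
    refine Finset.sum_congr rfl fun M _ => ?_
    rw [Finset.prod_mul_distrib]
  rw [h7]
  calc |∑ V, FR V * (E V - J V 0 * ∏ i, (D i)⁻¹)|
      ≤ ∑ V, |FR V * (E V - J V 0 * ∏ i, (D i)⁻¹)| := Finset.abs_sum_le_sum_abs _ _
    _ = ∑ V, FR V * |E V - J V 0 * ∏ i, (D i)⁻¹| := by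
        refine Finset.sum_congr rfl fun V _ => ?_
        rw [abs_mul, abs_of_nonneg (hFR0 V)]
    _ ≤ ∑ V, ∑ M ∈ univ.erase (0 : ∀ i, Matrix (Fin n) (Fin n) (ZMod (p i))),
        (∏ i, c1 ^ wt (M i)) * (FR V * (J V M * ∏ i, (D i)⁻¹)) := Finset.sum_le_sum fun V _ => hB V
    _ = ∑ M ∈ univ.erase (0 : ∀ i, Matrix (Fin n) (Fin n) (ZMod (p i))),
        (∏ i, c1 ^ wt (M i)) * ∏ i, (NC (C i) (M i) / D i) := by
        rw [Finset.sum_comm]
        refine Finset.sum_congr rfl fun M _ => ?_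
        rw [← Finset.mul_sum, ← hN]
    _ = _ := h9.symm

end Pool.H64.IR
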