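import Pool.Agent.H64.IR.Defs

/-! MODULE NM1 (project MP_a758cf_pr, IR; overview: team-store H64_a758cf.md)
Linear algebra. M = V Yᵀ + Y Vᵀ (symmetric, V,Y n x k), W = span of the columns of V. Then rank M <= 2 dim (W inf Im M).
Proof: choose a matrix P with range P = ker Vᵀ. Then rank M = rank(Pᵀ M) + dim(ker Pᵀ inf Im M), ker Pᵀ = W by a dimension count, and
rank(Pᵀ M) = rank(M P), M P = V Yᵀ P has its range in W inf Im M.
-/

set_option autoImplicit false

namespace Pool.H64.IR

open Finset Polynomial

private lemma nm1_map_inf {F V W : Type} [Field F] [AddCommGroup V] [Module F V]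
    [Module.Finite F V] [AddCommGroup W] [Module F W] (A : V →ₗ[F] W) (q : Submodule F V) :
    Module.finrank F (q.map A) + Module.finrank F ↥(LinearMap.ker A ⊓ q) = Module.finrank F q := by
  have h := LinearMap.finrank_range_add_finrank_ker (A.domRestrict q)
  rw [LinearMap.range_domRestrict, LinearMap.ker_domRestrict] at h
  rw [← h]
  congr 1
  have h1 : Submodule.comap q.subtype (LinearMap.ker A) =
      Submodule.comap q.subtype (LinearMap.ker A ⊓ q) := by
    ext x
    simp
  rw [h1]
  exact ((Submodule.comapSubtypeEquivOfLe (inf_le_right : LinearMap.ker A ⊓ q ≤ q)).finrank_eq).symm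

theorem nm1 {p : ℕ} [Fact p.Prime] {n : ℕ} {κ : Type} [Fintype κ] [DecidableEq κ]
    (V Y : Matrix (Fin n) κ (ZMod p)) (M : Matrix (Fin n) (Fin n) (ZMod p))
    (hM : V * Y.transpose + Y * V.transpose = M) :
    M.rank ≤ 2 * Module.finrank (ZMod p)
      ↥(Submodule.span (ZMod p) (Set.range fun a : κ => fun i : Fin n => V i a) ⊓ LinearMap.range M.mulVecLin) := by
  classical
  have hW : Submodule.span (ZMod p) (Set.range fun a : κ => fun i : Fin n => V i a) =
      LinearMap.range V.mulVecLin := by
    rw [Matrix.range_mulVecLin]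
    rfl
  rw [hW]
  have hMs : M.transpose = M := by
    rw [← hM, Matrix.transpose_add, Matrix.transpose_mul, Matrix.transpose_mul,
      Matrix.transpose_transpose, Matrix.transpose_transpose, add_comm]
  -- the matrix `P`
  obtain ⟨g, hg⟩ := (LinearMap.ker V.transpose.mulVecLin).subtype.exists_leftInverse_of_injective
    (Submodule.ker_subtype _)
  set P : Matrix (Fin n) (Fin n) (ZMod p) :=
    LinearMap.toMatrix' ((LinearMap.ker V.transpose.mulVecLin).subtype ∘ₗ g) with hP
  have hPlin : P.mulVecLin = (LinearMap.ker V.transpose.mulVecLin).subtype ∘ₗ g := by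
    rw [← Matrix.toLin'_apply', hP, Matrix.toLin'_toMatrix']
  have hPrange : LinearMap.range P.mulVecLin = LinearMap.ker V.transpose.mulVecLin := by
    rw [hPlin]
    apply le_antisymm
    · rintro _ ⟨x, rfl⟩
      exact (g x).2
    · intro x hx
      refine ⟨x, ?_⟩
      have h1 := LinearMap.congr_fun hg ⟨x, hx⟩
      simp only [LinearMap.comp_apply, Submodule.subtype_apply, LinearMap.id_apply] at h1 ⊢
      rw [h1]
  have hVP : V.transpose * P = 0 := by
    have h1 : (V.transpose * P).mulVecLin = 0 := by
      rw [Matrix.mulVecLin_mul]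
      ext x : 1
      refine LinearMap.ext fun y => ?_
      have h2 : P.mulVecLin (LinearMap.single (ZMod p) (fun _ => ZMod p) x y) ∈
          LinearMap.ker V.transpose.mulVecLin := by
        rw [← hPrange]
        exact ⟨_, rfl⟩
      exact h2
    have h2 : Matrix.toLin' (V.transpose * P) = 0 := by rw [Matrix.toLin'_apply', h1]
    exact (LinearEquiv.map_eq_zero_iff _).1 h2
  have hPV : P.transpose * V = 0 := by
    rw [← Matrix.transpose_transpose V, ← Matrix.transpose_mul, hVP, Matrix.transpose_zero]
  -- the kernel of `Pᵀ`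
  have hker : LinearMap.ker P.transpose.mulVecLin = LinearMap.range V.mulVecLin := by
    symm
    apply Submodule.eq_of_le_of_finrank_eq
    · rintro _ ⟨x, rfl⟩
      rw [LinearMap.mem_ker, Matrix.mulVecLin_apply, Matrix.mulVecLin_apply, Matrix.mulVec_mulVec,
        hPV, Matrix.zero_mulVec]
    · have h1 := LinearMap.finrank_range_add_finrank_ker P.transpose.mulVecLin
      have h2 := LinearMap.finrank_range_add_finrank_ker V.transpose.mulVecLin
      have h3 : Module.finrank (ZMod p) (LinearMap.range P.transpose.mulVecLin) =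
          Module.finrank (ZMod p) (LinearMap.range P.mulVecLin) := Matrix.rank_transpose P
      have h4 : Module.finrank (ZMod p) (LinearMap.range V.transpose.mulVecLin) =
          Module.finrank (ZMod p) (LinearMap.range V.mulVecLin) := Matrix.rank_transpose V
      rw [h3, hPrange] at h1
      rw [h4] at h2
      omega
  have e1 := nm1_map_inf P.transpose.mulVecLin (LinearMap.range M.mulVecLin)
  rw [← LinearMap.range_comp, ← Matrix.mulVecLin_mul, hker] at e1
  change (P.transpose * M).rank + _ = M.rank at e1
  have e2 : (P.transpose * M).rank = (M * P).rank := by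
    rw [← Matrix.rank_transpose (M * P), Matrix.transpose_mul, hMs]
  have e3 : (M * P).rank ≤ Module.finrank (ZMod p)
      ↥(LinearMap.range V.mulVecLin ⊓ LinearMap.range M.mulVecLin) := by
    refine Submodule.finrank_mono (le_inf ?_ ?_)
    · have h1 : M * P = V * (Y.transpose * P) := by
        rw [← hM, Matrix.add_mul, Matrix.mul_assoc Y, hVP, Matrix.mul_zero, add_zero, Matrix.mul_assoc]
      rw [h1, Matrix.mulVecLin_mul]
      exact LinearMap.range_comp_le_range _ _
    · rw [Matrix.mulVecLin_mul]
      exact LinearMap.range_comp_le_range _ _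
  omega

end Pool.H64.IR
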