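import Pool.Agent.H64.IR.G3

/-! MODULE NM2 (project MP_a758cf_pr, IR; overview: team-store H64_a758cf.md)
Counting with a subspace. #{V : full rank, (VᵀVC) symmetric, dim(col V inf U) >= s} <= p^(ks) * HC C * (card U)^s * (1+eps)^k *
p^(n(k-s)) p^(s(s+1)/2)/p^(k(k+1)/2).
Proof. If dim (col V inf U) >= s choose s linearly independent vectors in it; they are V u_1..V u_s with u_a in F^k linearly independent
(V injective). So the count is at most sum over Uc : Matrix (Fin k) (Fin s) with independent columns (at most p^(ks)) of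
#{V full rank, sym condition, V Uc has all columns in U}. Extend Uc to an invertible g : Matrix (Fin k) (Fin k) whose first s columns are
those of Uc; V' = V g runs over full rank matrices with first s columns in U and V'ᵀ V' = gᵀ (Vᵀ V) g; sum over S = Vᵀ V in the set
counted by HC C (S symmetric, S C symmetric) and apply g3_upper to gᵀ S g.
-/

set_option autoImplicit false

namespace Pool.H64.IR

open Finset Polynomial

/-- extension of an independent family of vectors of `F^k` to a basis -/
lemma nm2_extend {p : ℕ} [Fact p.Prime] {k s : ℕ} (u : Fin s → Fin k → ZMod p)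
    (hu : LinearIndependent (ZMod p) u) (m : ℕ) (hsm : s ≤ m) : m ≤ k →
    ∃ w : Fin m → Fin k → ZMod p, LinearIndependent (ZMod p) w ∧
      ∀ a : Fin s, w (Fin.castLE hsm a) = u a := by
  induction m, hsm using Nat.le_induction with
  | base => intro _; exact ⟨u, hu, fun a => rfl⟩
  | succ m hsm ih =>
    intro hmk
    obtain ⟨w, hw, hwu⟩ := ih (by omega)
    have hne : Submodule.span (ZMod p) (Set.range w) ≠ ⊤ := by
      intro htop
      have h1 : Module.finrank (ZMod p) (Submodule.span (ZMod p) (Set.range w)) = m := by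
        rw [finrank_span_eq_card hw, Fintype.card_fin]
      rw [htop, finrank_top, Module.finrank_fintype_fun_eq_card, Fintype.card_fin] at h1
      omega
    obtain ⟨x, -, hx⟩ := SetLike.exists_of_lt (lt_top_iff_ne_top.2 hne)
    refine ⟨Fin.snoc (α := fun _ => Fin k → ZMod p) w x, linearIndependent_finSnoc.2 ⟨hw, hx⟩,
      fun a => ?_⟩
    have h2 : Fin.castLE (Nat.le_succ_of_le hsm) a = Fin.castSucc (Fin.castLE hsm a) := rfl
    rw [h2, Fin.snoc_castSucc]
    exact hwu a

lemma nm2_fullRank {p : ℕ} [Fact p.Prime] {n k : ℕ} (V : Matrix (Fin n) (Fin k) (ZMod p)) :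
    FullRank V ↔ Function.Injective V.mulVecLin := by
  unfold FullRank
  have h1 : (fun a : Fin k => fun i : Fin n => V i a) = V.col := rfl
  rw [h1, ← Matrix.mulVec_injective_iff]
  rfl

lemma nm2_col {p : ℕ} [Fact p.Prime] {n k : ℕ} (V : Matrix (Fin n) (Fin k) (ZMod p))
    (g : Matrix (Fin k) (Fin k) (ZMod p)) (a : Fin k) :
    (fun i => (V * g) i a) = V.mulVecLin (fun j => g j a) := by
  funext i
  rw [Matrix.mulVecLin_apply]
  rfl

/-- change of variables -/
lemma nm2_sum_mul {p : ℕ} [Fact p.Prime] {n k : ℕ} (g : Matrix (Fin k) (Fin k) (ZMod p))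
    (hg : IsUnit g) (f : Matrix (Fin n) (Fin k) (ZMod p) → ℝ) :
    ∑ V : Matrix (Fin n) (Fin k) (ZMod p), f (V * g) = ∑ V, f V := by
  have hdet : IsUnit g.det := (Matrix.isUnit_iff_isUnit_det g).1 hg
  let e : Matrix (Fin n) (Fin k) (ZMod p) ≃ Matrix (Fin n) (Fin k) (ZMod p) :=
    { toFun := fun V => V * g
      invFun := fun V => V * g⁻¹
      left_inv := fun V => by
        show V * g * g⁻¹ = V
        rw [Matrix.mul_assoc, Matrix.mul_nonsing_inv _ hdet, Matrix.mul_one]
      right_inv := fun V => by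
        show V * g⁻¹ * g = V
        rw [Matrix.mul_assoc, Matrix.nonsing_inv_mul _ hdet, Matrix.mul_one] }
  exact e.sum_comp f

/-- transposition of the variables -/
lemma nm2_sum_transpose {p : ℕ} [Fact p.Prime] {n k : ℕ}
    (f : (Fin k → Fin n → ZMod p) → ℝ) :
    ∑ V : Matrix (Fin n) (Fin k) (ZMod p), f (fun a i => V i a) = ∑ v, f v := by
  let e : Matrix (Fin n) (Fin k) (ZMod p) ≃ (Fin k → Fin n → ZMod p) :=
    { toFun := fun V a i => V i a
      invFun := fun v => Matrix.of fun i a => v a i
      left_inv := fun V => rfl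
      right_inv := fun v => rfl }
  exact e.sum_comp f

/-- the count for one family `u` -/
lemma nm2_one {p : ℕ} [Fact p.Prime] (hp : p ≠ 2) (n k s : ℕ) (hs : s ≤ k) (hk : 4 * k ≤ n)
    (U : Submodule (ZMod p) (Fin n → ZMod p)) (C : Matrix (Fin k) (Fin k) (ZMod p))
    (u : Fin s → Fin k → ZMod p) (hu : LinearIndependent (ZMod p) u) :
    (∑ V : Matrix (Fin n) (Fin k) (ZMod p), ind (FullRank V ∧ (V.transpose * V * C).IsSymm ∧
        ∀ a, V.mulVecLin (u a) ∈ U)) ≤
      HC C * ((Nat.card U : ℝ) ^ s * (1 + eps p n k) ^ k * ((p : ℝ) ^ n) ^ (k - s)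
        * (p : ℝ) ^ (s * (s + 1) / 2) / (p : ℝ) ^ (k * (k + 1) / 2)) := by
  classical
  obtain ⟨w, hw, hwu⟩ := nm2_extend u hu k hs le_rfl
  obtain ⟨g, hgdef⟩ : ∃ g : Matrix (Fin k) (Fin k) (ZMod p), ∀ i j, g i j = w j i :=
    ⟨Matrix.of fun i j => w j i, fun _ _ => rfl⟩
  have hgcol : ∀ j, (fun i => g i j) = w j := fun j => funext fun i => hgdef i j
  have hg : IsUnit g := by
    rw [← Matrix.linearIndependent_cols_iff_isUnit]
    have : g.col = w := by
      funext j
      exact hgcol j
    rw [this]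
    exact hw
  -- sum over the Gram matrices
  have h1 : ∀ V : Matrix (Fin n) (Fin k) (ZMod p),
      ind (FullRank V ∧ (V.transpose * V * C).IsSymm ∧ ∀ a, V.mulVecLin (u a) ∈ U) ≤
        ∑ S : Matrix (Fin k) (Fin k) (ZMod p), ind (S.IsSymm ∧ (S * C).IsSymm) *
          ind (FullRank (V * g) ∧ ((V * g).transpose * (V * g) = g.transpose * S * g) ∧
            ∀ a : Fin k, (a : ℕ) < s → (fun i => (V * g) i a) ∈ U) := by
    intro V
    by_cases hV : FullRank V ∧ (V.transpose * V * C).IsSymm ∧ ∀ a, V.mulVecLin (u a) ∈ U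
    · obtain ⟨hV1, hV2, hV3⟩ := hV
      refine le_trans ?_ (Finset.single_le_sum (f := fun S : Matrix (Fin k) (Fin k) (ZMod p) =>
        ind (S.IsSymm ∧ (S * C).IsSymm) *
          ind (FullRank (V * g) ∧ ((V * g).transpose * (V * g) = g.transpose * S * g) ∧
            ∀ a : Fin k, (a : ℕ) < s → (fun i => (V * g) i a) ∈ U))
        (fun S _ => mul_nonneg (ind_nonneg _) (ind_nonneg _)) (Finset.mem_univ (V.transpose * V)))
      have e1 : ind ((V.transpose * V).IsSymm ∧ (V.transpose * V * C).IsSymm) = 1 := by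
        apply ind_true
        refine ⟨?_, hV2⟩
        unfold Matrix.IsSymm
        rw [Matrix.transpose_mul, Matrix.transpose_transpose]
      have e2 : ind (FullRank (V * g) ∧
          ((V * g).transpose * (V * g) = g.transpose * (V.transpose * V) * g) ∧
            ∀ a : Fin k, (a : ℕ) < s → (fun i => (V * g) i a) ∈ U) = 1 := by
        apply ind_true
        refine ⟨?_, ?_, ?_⟩
        · rw [nm2_fullRank, Matrix.mulVecLin_mul]
          have h2 : Function.Injective g.mulVecLin := by
            have := (Matrix.mulVec_injective_iff_isUnit (A := g)).2 hg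
            exact this
          exact ((nm2_fullRank V).1 hV1).comp h2
        · rw [Matrix.transpose_mul]
          simp only [Matrix.mul_assoc]
        · intro a ha
          rw [nm2_col, hgcol]
          have h2 := hwu ⟨a, ha⟩
          have h3 : Fin.castLE hs ⟨(a : ℕ), ha⟩ = a := rfl
          rw [h3] at h2
          rw [h2]
          exact hV3 _
      rw [ind_true ⟨hV1, hV2, hV3⟩, e1, e2, one_mul]
    · rw [ind_false hV]
      exact Finset.sum_nonneg fun S _ => mul_nonneg (ind_nonneg _) (ind_nonneg _)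
  refine (Finset.sum_le_sum fun V _ => h1 V).trans ?_
  rw [Finset.sum_comm]
  unfold HC
  rw [Finset.sum_mul]
  refine Finset.sum_le_sum fun S _ => ?_
  rw [← Finset.mul_sum]
  apply mul_le_mul_of_nonneg_left _ (ind_nonneg _)
  rw [nm2_sum_mul g hg (fun V => ind (FullRank V ∧ (V.transpose * V = g.transpose * S * g) ∧
            ∀ a : Fin k, (a : ℕ) < s → (fun i => V i a) ∈ U))]
  refine le_trans (le_of_eq ?_) (g3_upper hp n k s hs hk U (g.transpose * S * g))
  rw [← nm2_sum_transpose]
  refine Finset.sum_congr rfl fun V _ => ind_congr ?_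
  refine and_congr Iff.rfl (and_congr ?_ Iff.rfl)
  constructor
  · intro h a b
    rw [← h]
    rfl
  · intro h
    ext a b
    exact h a b

theorem nm2 {p : ℕ} [Fact p.Prime] (hp : p ≠ 2) (n k s : ℕ) (hs : s ≤ k) (hk : 4 * k ≤ n)
    (U : Submodule (ZMod p) (Fin n → ZMod p)) (C : Matrix (Fin k) (Fin k) (ZMod p)) :
    (∑ V : Matrix (Fin n) (Fin k) (ZMod p), ind (FullRank V ∧ (V.transpose * V * C).IsSymm ∧
        s ≤ Module.finrank (ZMod p)
          ↥(Submodule.span (ZMod p) (Set.range fun a : Fin k => fun i : Fin n => V i a) ⊓ U))) ≤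
      (p : ℝ) ^ (k * s) * HC C * ((Nat.card U : ℝ) ^ s * (1 + eps p n k) ^ k * ((p : ℝ) ^ n) ^ (k - s)
        * (p : ℝ) ^ (s * (s + 1) / 2) / (p : ℝ) ^ (k * (k + 1) / 2)) := by
  classical
  have he := eps_nonneg p n k
  have hHC : 0 ≤ HC C := Finset.sum_nonneg fun _ _ => ind_nonneg _
  -- choice of the vectors
  have h1 : ∀ V : Matrix (Fin n) (Fin k) (ZMod p),
      ind (FullRank V ∧ (V.transpose * V * C).IsSymm ∧ s ≤ Module.finrank (ZMod p)
          ↥(Submodule.span (ZMod p) (Set.range fun a : Fin k => fun i : Fin n => V i a) ⊓ U)) ≤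
        ∑ u : Fin s → Fin k → ZMod p, ind (LinearIndependent (ZMod p) u) *
          ind (FullRank V ∧ (V.transpose * V * C).IsSymm ∧ ∀ a, V.mulVecLin (u a) ∈ U) := by
    intro V
    by_cases hV : FullRank V ∧ (V.transpose * V * C).IsSymm ∧ s ≤ Module.finrank (ZMod p)
          ↥(Submodule.span (ZMod p) (Set.range fun a : Fin k => fun i : Fin n => V i a) ⊓ U)
    · obtain ⟨hV1, hV2, hV3⟩ := hV
      obtain ⟨x, hx⟩ := exists_linearIndependent_of_le_finrank hV3
      have hrange : Submodule.span (ZMod p) (Set.range fun a : Fin k => fun i : Fin n => V i a) =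
          LinearMap.range V.mulVecLin := (Matrix.range_mulVecLin V).symm
      have h2 : ∀ a, ∃ y : Fin k → ZMod p, V.mulVecLin y = (x a : Fin n → ZMod p) := by
        intro a
        have h3 : (x a : Fin n → ZMod p) ∈
          Submodule.span (ZMod p) (Set.range fun a : Fin k => fun i : Fin n => V i a) := (x a).2.1
        have h4 := hrange.le h3
        exact h4
      choose u hu using h2
      have hx' : LinearIndependent (ZMod p) (fun a => (x a : Fin n → ZMod p)) :=
        hx.map' (Submodule.subtype _) (Submodule.ker_subtype _)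
      have hu' : LinearIndependent (ZMod p) u := by
        apply LinearIndependent.of_comp V.mulVecLin
        have h3 : (V.mulVecLin ∘ u) = fun a => (x a : Fin n → ZMod p) := funext hu
        rw [h3]
        exact hx'
      refine le_trans ?_ (Finset.single_le_sum (f := fun u : Fin s → Fin k → ZMod p =>
        ind (LinearIndependent (ZMod p) u) *
          ind (FullRank V ∧ (V.transpose * V * C).IsSymm ∧ ∀ a, V.mulVecLin (u a) ∈ U))
        (fun u _ => mul_nonneg (ind_nonneg _) (ind_nonneg _)) (Finset.mem_univ u))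
      have e1 : ind (FullRank V ∧ (V.transpose * V * C).IsSymm ∧ ∀ a, V.mulVecLin (u a) ∈ U) = 1 := by
        apply ind_true
        refine ⟨hV1, hV2, fun a => ?_⟩
        rw [hu a]
        exact (x a).2.2
      rw [ind_true ⟨hV1, hV2, hV3⟩, ind_true hu', e1, one_mul]
    · rw [ind_false hV]
      exact Finset.sum_nonneg fun u _ => mul_nonneg (ind_nonneg _) (ind_nonneg _)
  refine (Finset.sum_le_sum fun V _ => h1 V).trans ?_
  rw [Finset.sum_comm]
  have h2 : ∀ u : Fin s → Fin k → ZMod p,
      (∑ V : Matrix (Fin n) (Fin k) (ZMod p), ind (LinearIndependent (ZMod p) u) *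
          ind (FullRank V ∧ (V.transpose * V * C).IsSymm ∧ ∀ a, V.mulVecLin (u a) ∈ U)) ≤
      HC C * ((Nat.card U : ℝ) ^ s * (1 + eps p n k) ^ k * ((p : ℝ) ^ n) ^ (k - s)
        * (p : ℝ) ^ (s * (s + 1) / 2) / (p : ℝ) ^ (k * (k + 1) / 2)) := by
    intro u
    rw [← Finset.mul_sum]
    by_cases hu : LinearIndependent (ZMod p) u
    · rw [ind_true hu, one_mul]
      exact nm2_one hp n k s hs hk U C u hu
    · rw [ind_false hu, zero_mul]
      exact mul_nonneg hHC (by positivity)
  refine (Finset.sum_le_sum fun u _ => h2 u).trans (le_of_eq ?_)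
  rw [Finset.sum_const, Finset.card_univ, Fintype.card_fun, Fintype.card_fun, ZMod.card,
    Fintype.card_fin, Fintype.card_fin, nsmul_eq_mul, ← pow_mul]
  push_cast
  ring

end Pool.H64.IR
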