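import Pool.Agent.H64.IR.NM1
import Pool.Agent.H64.IR.NM2

/-! MODULE NM3 (project MP_a758cf_pr, IR; overview: team-store H64_a758cf.md)
Bounds for NC C M.
nc_zero_lower / nc_zero_upper: M = 0 (Y = 0 is allowed): sum over S in the set of HC C of the number of full rank V with VᵀV = S;
g3_lower, g3_upper with s = 0 (columns of V as a tuple of vectors: Matrix (Fin n) (Fin k) is equivalent to Fin k -> Fin n -> F by transposing).
nc_symm: if M is not symmetric then NC C M = 0.  nc_big: if 2 k < rank M then NC C M = 0 (nm1: rank M <= 2 dim (col V inf ..) <= 2k).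
nc_le: r = rank M >= 1, s = (r+1)/2 <= k. By nm1 dim(col V inf Im M) >= s, apply nm2 with U = range of M (card U = p^r), and
k s + r s + s(s+1)/2 <= 4 k s because r <= 2 s, s <= k; p^(n(k-s)) = p^(nk)/p^(ns).
-/

set_option autoImplicit false

namespace Pool.H64.IR

open Finset Polynomial

/-- number of independent tuples with given Gram matrix -/
noncomputable def nm3N {p : ℕ} [Fact p.Prime] (n k : ℕ) (S : Matrix (Fin k) (Fin k) (ZMod p)) : ℝ :=
  ∑ v : Fin k → Fin n → ZMod p, ind (LinearIndependent (ZMod p) v ∧ (∀ a b, dotProduct (v a) (v b) = S a b))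

theorem nm3_gram {p : ℕ} [Fact p.Prime] {n k : ℕ} (V : Matrix (Fin n) (Fin k) (ZMod p)) (a b : Fin k) :
    (V.transpose * V) a b = dotProduct (fun i => V i a) (fun i => V i b) := by
  simp [Matrix.mul_apply, dotProduct]

theorem nm3_transp {p : ℕ} [Fact p.Prime] (n k : ℕ) (S : Matrix (Fin k) (Fin k) (ZMod p)) :
    ∑ V : Matrix (Fin n) (Fin k) (ZMod p), ind (FullRank V ∧ V.transpose * V = S) = nm3N n k S := by
  unfold nm3N
  let e : Matrix (Fin n) (Fin k) (ZMod p) ≃ (Fin k → Fin n → ZMod p) :=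
    ⟨fun V a i => V i a, fun v => Matrix.of fun i a => v a i, fun V => rfl, fun v => rfl⟩
  refine Fintype.sum_equiv e _ _ fun V => ind_congr ?_
  refine and_congr Iff.rfl ?_
  constructor
  · rintro h a b
    rw [← h, nm3_gram]
    rfl
  · intro h
    ext a b
    rw [nm3_gram]
    exact h a b

theorem nm3_key {p : ℕ} [Fact p.Prime] {n k : ℕ} (C : Matrix (Fin k) (Fin k) (ZMod p)) :
    NC C (0 : Matrix (Fin n) (Fin n) (ZMod p)) =
      ∑ S : Matrix (Fin k) (Fin k) (ZMod p), ind (S.IsSymm ∧ (S * C).IsSymm) * nm3N n k S := by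
  classical
  have h1 : ∀ V : Matrix (Fin n) (Fin k) (ZMod p),
      ind (FullRank V ∧ (V.transpose * V * C).IsSymm ∧
        ∃ Y : Matrix (Fin n) (Fin k) (ZMod p), V * Y.transpose + Y * V.transpose = 0) =
      ∑ S : Matrix (Fin k) (Fin k) (ZMod p), ind (S.IsSymm ∧ (S * C).IsSymm) *
        ind (FullRank V ∧ V.transpose * V = S) := by
    intro V
    rw [Finset.sum_eq_single (V.transpose * V)]
    · rw [← ind_and]
      apply ind_congr
      constructor
      · rintro ⟨h1, h2, _⟩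
        refine ⟨⟨?_, h2⟩, h1, rfl⟩
        unfold Matrix.IsSymm
        rw [Matrix.transpose_mul, Matrix.transpose_transpose]
      · rintro ⟨⟨_, h2⟩, h1, _⟩
        exact ⟨h1, h2, 0, by simp⟩
    · intro S _ hS
      rw [ind_false (P := FullRank V ∧ V.transpose * V = S) (fun h => hS h.2.symm), mul_zero]
    · intro h
      exact absurd (Finset.mem_univ _) h
  unfold NC
  simp_rw [h1]
  rw [Finset.sum_comm]
  refine Finset.sum_congr rfl fun S _ => ?_
  rw [← Finset.mul_sum, nm3_transp]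

theorem nc_zero_lower {p : ℕ} [Fact p.Prime] (hp : p ≠ 2) (n k : ℕ) (hk : 4 * k ≤ n) (he : eps p n k ≤ 1)
    (C : Matrix (Fin k) (Fin k) (ZMod p)) :
    (1 - eps p n k) ^ k * HC C * (((p : ℝ) ^ n) ^ k / (p : ℝ) ^ (k * (k + 1) / 2)) ≤
      NC C (0 : Matrix (Fin n) (Fin n) (ZMod p)) := by
  rw [nm3_key]
  have h0 : (1 - eps p n k) ^ k * HC C * (((p : ℝ) ^ n) ^ k / (p : ℝ) ^ (k * (k + 1) / 2)) =
      ∑ S : Matrix (Fin k) (Fin k) (ZMod p), ind (S.IsSymm ∧ (S * C).IsSymm) *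
        ((1 - eps p n k) ^ k * ((p : ℝ) ^ n) ^ k / (p : ℝ) ^ (k * (k + 1) / 2)) := by
    rw [← Finset.sum_mul]
    unfold HC
    ring
  rw [h0]
  refine Finset.sum_le_sum fun S _ => ?_
  by_cases h : S.IsSymm ∧ (S * C).IsSymm
  · exact mul_le_mul_of_nonneg_left (g3_lower hp n k hk he S h.1) (ind_nonneg _)
  · rw [ind_false h, zero_mul, zero_mul]

theorem nc_zero_upper {p : ℕ} [Fact p.Prime] (hp : p ≠ 2) (n k : ℕ) (hk : 4 * k ≤ n)
    (C : Matrix (Fin k) (Fin k) (ZMod p)) :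
    NC C (0 : Matrix (Fin n) (Fin n) (ZMod p)) ≤
      (1 + eps p n k) ^ k * HC C * (((p : ℝ) ^ n) ^ k / (p : ℝ) ^ (k * (k + 1) / 2)) := by
  rw [nm3_key]
  have h0 : (1 + eps p n k) ^ k * HC C * (((p : ℝ) ^ n) ^ k / (p : ℝ) ^ (k * (k + 1) / 2)) =
      ∑ S : Matrix (Fin k) (Fin k) (ZMod p), ind (S.IsSymm ∧ (S * C).IsSymm) *
        ((1 + eps p n k) ^ k * ((p : ℝ) ^ n) ^ k / (p : ℝ) ^ (k * (k + 1) / 2)) := by
    rw [← Finset.sum_mul]
    unfold HC
    ring
  rw [h0]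
  refine Finset.sum_le_sum fun S _ => ?_
  refine mul_le_mul_of_nonneg_left ?_ (ind_nonneg _)
  have h1 := g3_upper hp n k 0 (Nat.zero_le k) hk ⊥ S
  have h2 : nm3N n k S = ∑ v : Fin k → Fin n → ZMod p, ind (LinearIndependent (ZMod p) v ∧
      (∀ a b, dotProduct (v a) (v b) = S a b) ∧ ∀ a : Fin k, (a : ℕ) < 0 →
        v a ∈ (⊥ : Submodule (ZMod p) (Fin n → ZMod p))) := by
    unfold nm3N
    refine Finset.sum_congr rfl fun v _ => ind_congr ?_
    constructor
    · rintro ⟨h1, h2⟩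
      exact ⟨h1, h2, fun a ha => absurd ha (Nat.not_lt_zero _)⟩
    · rintro ⟨h1, h2, _⟩
      exact ⟨h1, h2⟩
  rw [h2]
  refine h1.trans (le_of_eq ?_)
  simp

theorem nc_symm {p : ℕ} [Fact p.Prime] {n k : ℕ} (C : Matrix (Fin k) (Fin k) (ZMod p))
    (M : Matrix (Fin n) (Fin n) (ZMod p)) (hM : ¬ M.IsSymm) : NC C M = 0 := by
  unfold NC
  refine Finset.sum_eq_zero fun V _ => ind_false ?_
  rintro ⟨_, _, Y, hY⟩
  apply hM
  rw [← hY]
  unfold Matrix.IsSymm
  rw [Matrix.transpose_add, Matrix.transpose_mul, Matrix.transpose_mul, Matrix.transpose_transpose,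
    Matrix.transpose_transpose, add_comm]

theorem nc_big {p : ℕ} [Fact p.Prime] {n k : ℕ} (C : Matrix (Fin k) (Fin k) (ZMod p))
    (M : Matrix (Fin n) (Fin n) (ZMod p)) (hM : 2 * k < M.rank) : NC C M = 0 := by
  unfold NC
  refine Finset.sum_eq_zero fun V _ => ind_false ?_
  rintro ⟨_, _, Y, hY⟩
  have h1 := nm1 V Y M hY
  have h2 : Module.finrank (ZMod p)
      ↥(Submodule.span (ZMod p) (Set.range fun a : Fin k => fun i : Fin n => V i a) ⊓
        LinearMap.range M.mulVecLin) ≤ k := by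
    refine (Submodule.finrank_mono inf_le_left).trans ?_
    have h3 := finrank_range_le_card (R := ZMod p) (fun a : Fin k => fun i : Fin n => V i a)
    rwa [Fintype.card_fin] at h3
  omega

theorem nc_le {p : ℕ} [Fact p.Prime] (hp : p ≠ 2) (n k : ℕ) (hk : 4 * k ≤ n)
    (C : Matrix (Fin k) (Fin k) (ZMod p)) (M : Matrix (Fin n) (Fin n) (ZMod p)) (hM : 1 ≤ M.rank) (hM2 : M.rank ≤ 2 * k) :
    NC C M ≤ (1 + eps p n k) ^ k * HC C * (((p : ℝ) ^ n) ^ k / (p : ℝ) ^ (k * (k + 1) / 2))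
      * ((p : ℝ) ^ (4 * k * ((M.rank + 1) / 2)) / ((p : ℝ) ^ n) ^ ((M.rank + 1) / 2)) := by
  obtain ⟨s, hs⟩ : ∃ s, s = (M.rank + 1) / 2 := ⟨_, rfl⟩
  rw [← hs]
  have hsk : s ≤ k := by omega
  have hrs : M.rank ≤ 2 * s := by omega
  have hp1 : (1 : ℝ) ≤ p := by exact_mod_cast (Fact.out : p.Prime).one_le
  have hp0 : (0 : ℝ) < p := by linarith
  have h1 := nm2 hp n k s hsk hk (LinearMap.range M.mulVecLin) C
  have h2 : NC C M ≤ ∑ V : Matrix (Fin n) (Fin k) (ZMod p), ind (FullRank V ∧ (V.transpose * V * C).IsSymm ∧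
        s ≤ Module.finrank (ZMod p)
          ↥(Submodule.span (ZMod p) (Set.range fun a : Fin k => fun i : Fin n => V i a) ⊓
            LinearMap.range M.mulVecLin)) := by
    unfold NC
    refine Finset.sum_le_sum fun V _ => ind_mono ?_
    rintro ⟨h3, h4, Y, hY⟩
    refine ⟨h3, h4, ?_⟩
    have h5 := nm1 V Y M hY
    omega
  refine (h2.trans h1).trans ?_
  have hcard : (Nat.card (LinearMap.range M.mulVecLin) : ℝ) = (p : ℝ) ^ M.rank := by
    have h3 : Nat.card (LinearMap.range M.mulVecLin) = p ^ M.rank := by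
      rw [Nat.card_eq_fintype_card, Module.card_eq_pow_finrank (K := ZMod p), ZMod.card]
      rfl
    rw [h3]; push_cast; rfl
  rw [hcard]
  have he : k * s + M.rank * s + s * (s + 1) / 2 ≤ 4 * k * s := by
    have h3 : M.rank * s ≤ 2 * s * s := Nat.mul_le_mul_right s hrs
    have h4 : s * s ≤ k * s := Nat.mul_le_mul_right s hsk
    have h5 : s * (s + 1) / 2 ≤ s * s := by
      apply Nat.div_le_of_le_mul
      rcases Nat.eq_zero_or_pos s with h | h
      · subst h; simp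
      · nlinarith
    nlinarith
  have hpow : (p : ℝ) ^ (k * s) * ((p : ℝ) ^ M.rank) ^ s * (p : ℝ) ^ (s * (s + 1) / 2) ≤
      (p : ℝ) ^ (4 * k * s) := by
    rw [← pow_mul, ← pow_add, ← pow_add]
    exact pow_le_pow_right₀ hp1 he
  have hpn : 0 < (p : ℝ) ^ n := by positivity
  have hsplit : ((p : ℝ) ^ n) ^ (k - s) = ((p : ℝ) ^ n) ^ k / ((p : ℝ) ^ n) ^ s := by
    rw [eq_div_iff (by positivity), ← pow_add, Nat.sub_add_cancel hsk]
  rw [hsplit]
  have hHC : 0 ≤ HC C := Finset.sum_nonneg fun S _ => ind_nonneg _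
  have hE : 0 ≤ (1 + eps p n k) ^ k := by
    have := eps_nonneg p n k
    positivity
  have hfac : 0 ≤ (1 + eps p n k) ^ k * HC C * (((p : ℝ) ^ n) ^ k / (p : ℝ) ^ (k * (k + 1) / 2)) /
      ((p : ℝ) ^ n) ^ s := by positivity
  calc (p : ℝ) ^ (k * s) * HC C * (((p : ℝ) ^ M.rank) ^ s * (1 + eps p n k) ^ k *
          (((p : ℝ) ^ n) ^ k / ((p : ℝ) ^ n) ^ s) * (p : ℝ) ^ (s * (s + 1) / 2) /
            (p : ℝ) ^ (k * (k + 1) / 2))
      = ((1 + eps p n k) ^ k * HC C * (((p : ℝ) ^ n) ^ k / (p : ℝ) ^ (k * (k + 1) / 2)) /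
          ((p : ℝ) ^ n) ^ s) *
        ((p : ℝ) ^ (k * s) * ((p : ℝ) ^ M.rank) ^ s * (p : ℝ) ^ (s * (s + 1) / 2)) := by ring
    _ ≤ ((1 + eps p n k) ^ k * HC C * (((p : ℝ) ^ n) ^ k / (p : ℝ) ^ (k * (k + 1) / 2)) /
          ((p : ℝ) ^ n) ^ s) * (p : ℝ) ^ (4 * k * s) := mul_le_mul_of_nonneg_left hpow hfac
    _ = _ := by ring

end Pool.H64.IR
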