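import Pool.Agent.H64.IR.Defs

/-! MODULE PAR (project MP_a758cf_pr, IR; overview: team-store H64_a758cf.md)
Parameters as functions of k: pK = floor(k^(1/100)), pY = floor(k^(9/10)), pL = log(pY/pK), pM = floor(4/3 pL), pJ' = floor(pL/6), pJ = 2 ceil(10 log k). Elementary asymptotics
(all statements are for k >= some k0). pL ~ 0.89 log k.
-/

set_option autoImplicit false

namespace Pool.H64.IR

open Finset Polynomial

noncomputable def pK (k : ℕ) : ℕ := ⌊(k : ℝ) ^ (1 / 100 : ℝ)⌋₊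
noncomputable def pY (k : ℕ) : ℕ := ⌊(k : ℝ) ^ (9 / 10 : ℝ)⌋₊
noncomputable def pL (k : ℕ) : ℝ := Real.log ((pY k : ℝ) / pK k)
noncomputable def pM (k : ℕ) : ℕ := ⌊4 / 3 * pL k⌋₊
noncomputable def pJ1 (k : ℕ) : ℕ := ⌊pL k / 6⌋₊
noncomputable def pJ (k : ℕ) : ℕ := 2 * ⌈10 * Real.log k⌉₊

open Filter Topology in
theorem par_log_le (a b s : ℝ) (hs : 0 < s) :
    ∀ᶠ x : ℝ in atTop, a * Real.log x + b ≤ x ^ s := by
  have h1 : (fun x : ℝ => a * Real.log x) =o[atTop] fun x => x ^ s :=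
    (isLittleO_log_rpow_atTop hs).const_mul_left a
  have h2 : (fun _ : ℝ => b) =o[atTop] fun x : ℝ => x ^ s := by
    refine Asymptotics.isLittleO_const_left.2 (Or.inr ?_)
    exact tendsto_norm_atTop_atTop.comp (tendsto_rpow_atTop hs)
  have h3 := (h1.add h2).bound one_pos
  filter_upwards [h3, eventually_gt_atTop (0 : ℝ)] with x hx hx0
  rw [one_mul, Real.norm_eq_abs, Real.norm_eq_abs, abs_of_pos (Real.rpow_pos_of_pos hx0 s)] at hx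
  exact (le_abs_self _).trans hx

theorem par_floor (y : ℝ) (hy : 2 ≤ y) : y / 2 ≤ (⌊y⌋₊ : ℝ) ∧ (⌊y⌋₊ : ℝ) ≤ y := by
  constructor
  · have := Nat.lt_floor_add_one y
    linarith
  · exact Nat.floor_le (by linarith)

open Filter Topology in
theorem par_ev : ∀ᶠ x : ℝ in atTop, 1 ≤ x ∧ 2 ≤ x ^ (1 / 100 : ℝ) ∧ 2 ≤ x ^ (9 / 10 : ℝ) ∧
    2 ≤ x ^ (1 / 10 : ℝ) ∧ 2 ≤ x ^ (97 / 100 : ℝ) ∧ 20 * Real.log x + 2 ≤ x ^ (1 / 10 : ℝ) ∧
    200 ≤ Real.log x := by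
  filter_upwards [eventually_ge_atTop (1 : ℝ), par_log_le 0 2 (1 / 100) (by norm_num),
    par_log_le 0 2 (9 / 10) (by norm_num), par_log_le 0 2 (1 / 10) (by norm_num),
    par_log_le 0 2 (97 / 100) (by norm_num), par_log_le 20 2 (1 / 10) (by norm_num),
    Real.tendsto_log_atTop.eventually (eventually_ge_atTop 200)] with x h0 h1 h2 h3 h4 h5 h6
  rw [zero_mul, zero_add] at h1 h2 h3 h4
  exact ⟨h0, h1, h2, h3, h4, h5, h6⟩

theorem par_basic : ∃ k0 : ℕ, ∀ k : ℕ, k0 ≤ k →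
    1 ≤ pK k ∧ pK k ≤ pY k ∧ pY k + (pK k) ^ 3 ≤ k ∧ pJ1 k ≤ pM k ∧ Even (pJ k) ∧ pJ k * pY k ≤ k ∧ 1 ≤ pL k ∧
      88 / 100 * Real.log k ≤ pL k ∧ pL k ≤ 90 / 100 * Real.log k ∧ (pK k : ℝ) ^ 3 + pK k ≤ k := by
  have hev : ∀ᶠ k : ℕ in Filter.atTop, 1 ≤ (k : ℝ) ∧ 2 ≤ (k : ℝ) ^ (1 / 100 : ℝ) ∧
      2 ≤ (k : ℝ) ^ (9 / 10 : ℝ) ∧
      2 ≤ (k : ℝ) ^ (1 / 10 : ℝ) ∧ 2 ≤ (k : ℝ) ^ (97 / 100 : ℝ) ∧
      20 * Real.log k + 2 ≤ (k : ℝ) ^ (1 / 10 : ℝ) ∧ 200 ≤ Real.log k :=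
    tendsto_natCast_atTop_atTop.eventually par_ev
  obtain ⟨k0, hk0⟩ := Filter.eventually_atTop.1 hev
  refine ⟨k0, fun k hk => ?_⟩
  obtain ⟨h0, h1, h2, h3, h4, h5, h6⟩ := hk0 k hk
  set x : ℝ := (k : ℝ) with hx
  have hx0 : 0 < x := by linarith
  obtain ⟨hK1, hK2⟩ := par_floor _ h1
  obtain ⟨hY1, hY2⟩ := par_floor _ h2
  have eK : (pK k : ℝ) = (⌊x ^ (1 / 100 : ℝ)⌋₊ : ℝ) := rfl
  have eY : (pY k : ℝ) = (⌊x ^ (9 / 10 : ℝ)⌋₊ : ℝ) := rfl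
  rw [← eK] at hK1 hK2
  rw [← eY] at hY1 hY2
  have hKpos : (1 : ℝ) ≤ pK k := by linarith
  have hYpos : (1 : ℝ) ≤ pY k := by linarith
  have hK3 : (pK k : ℝ) ^ 3 ≤ x ^ (3 / 100 : ℝ) := by
    calc (pK k : ℝ) ^ 3 ≤ (x ^ (1 / 100 : ℝ)) ^ 3 := pow_le_pow_left₀ (by linarith) hK2 3
      _ = x ^ (3 / 100 : ℝ) := by
        rw [← Real.rpow_natCast, ← Real.rpow_mul hx0.le]
        norm_num
  have hx3 : x ^ (3 / 100 : ℝ) ≤ x / 2 := by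
    have h7 : x ^ (3 / 100 : ℝ) * x ^ (97 / 100 : ℝ) = x := by
      rw [← Real.rpow_add hx0]
      norm_num
    have h8 : 0 < x ^ (3 / 100 : ℝ) := Real.rpow_pos_of_pos hx0 _
    nlinarith
  have hx9 : x ^ (9 / 10 : ℝ) * x ^ (1 / 10 : ℝ) = x := by
    rw [← Real.rpow_add hx0]
    norm_num
  have h9pos : 0 < x ^ (9 / 10 : ℝ) := Real.rpow_pos_of_pos hx0 _
  have hx9' : x ^ (9 / 10 : ℝ) ≤ x / 2 := by nlinarith
  have hx1 : x ^ (1 / 100 : ℝ) ≤ x ^ (3 / 100 : ℝ) :=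
    Real.rpow_le_rpow_of_exponent_le h0 (by norm_num)
  have hKY : pK k ≤ pY k := by
    refine Nat.floor_le_floor ?_
    exact Real.rpow_le_rpow_of_exponent_le h0 (by norm_num)
  have hlog2 : Real.log 2 ≤ 1 := by
    have := Real.log_two_lt_d9
    linarith
  have hlog89 : Real.log (x ^ (89 / 100 : ℝ)) = 89 / 100 * Real.log x := Real.log_rpow hx0 _
  have h89 : x ^ (89 / 100 : ℝ) * x ^ (1 / 100 : ℝ) = x ^ (9 / 10 : ℝ) := by
    rw [← Real.rpow_add hx0]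
    norm_num
  have h89pos : 0 < x ^ (89 / 100 : ℝ) := Real.rpow_pos_of_pos hx0 _
  have h1pos : 0 < x ^ (1 / 100 : ℝ) := Real.rpow_pos_of_pos hx0 _
  have hLlow : 88 / 100 * Real.log x ≤ pL k := by
    have h7 : x ^ (89 / 100 : ℝ) / 2 ≤ (pY k : ℝ) / pK k := by
      rw [div_le_div_iff₀ (by norm_num) (by linarith)]
      calc x ^ (89 / 100 : ℝ) * (pK k : ℝ) ≤ x ^ (89 / 100 : ℝ) * x ^ (1 / 100 : ℝ) :=
            mul_le_mul_of_nonneg_left hK2 h89pos.le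
        _ = x ^ (9 / 10 : ℝ) := h89
        _ ≤ (pY k : ℝ) * 2 := by linarith
    have h8 := Real.log_le_log (by positivity) h7
    rw [Real.log_div h89pos.ne' (by norm_num), hlog89] at h8
    unfold pL
    linarith
  have hLup : pL k ≤ 90 / 100 * Real.log x := by
    have h7 : (pY k : ℝ) / pK k ≤ x ^ (89 / 100 : ℝ) * 2 := by
      rw [div_le_iff₀ (by linarith)]
      calc (pY k : ℝ) ≤ x ^ (9 / 10 : ℝ) := hY2
        _ = x ^ (89 / 100 : ℝ) * x ^ (1 / 100 : ℝ) := h89.symm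
        _ ≤ x ^ (89 / 100 : ℝ) * (2 * pK k) := mul_le_mul_of_nonneg_left (by linarith) h89pos.le
        _ = _ := by ring
    have h8 := Real.log_le_log (div_pos (by linarith) (by linarith)) h7
    rw [Real.log_mul h89pos.ne' (by norm_num), hlog89] at h8
    unfold pL
    linarith
  have hL1 : 1 ≤ pL k := by linarith
  refine ⟨by exact_mod_cast hKpos, hKY, ?_, ?_, ?_, ?_, hL1, hLlow, hLup, ?_⟩
  · have h7 : (pY k : ℝ) + (pK k : ℝ) ^ 3 ≤ k := by linarith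
    exact_mod_cast h7
  · refine Nat.floor_le_floor ?_
    linarith
  · exact even_two_mul _
  · have h7 : ((⌈10 * Real.log k⌉₊ : ℕ) : ℝ) < 10 * Real.log k + 1 :=
      Nat.ceil_lt_add_one (by linarith)
    have h8 : (pJ k : ℝ) ≤ 20 * Real.log x + 2 := by
      unfold pJ
      push_cast
      linarith
    have h9 : (pJ k : ℝ) * pY k ≤ x := by
      calc (pJ k : ℝ) * pY k ≤ x ^ (1 / 10 : ℝ) * x ^ (9 / 10 : ℝ) :=
            mul_le_mul (h8.trans h5) hY2 (by linarith) (by positivity)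
        _ = x := by rw [mul_comm]; exact hx9
    have h10 : ((pJ k * pY k : ℕ) : ℝ) ≤ ((k : ℕ) : ℝ) := by
      rw [Nat.cast_mul]
      exact h9
    exact Nat.cast_le.1 h10
  · linarith

open Filter Topology in
theorem par_decay (c : ℝ) : ∃ k0 : ℕ, ∀ k : ℕ, k0 ≤ k →
    (1 / 3 : ℝ) ^ (pK k) ≤ (k : ℝ) ^ (-c) ∧ Real.exp (-(pK k : ℝ)) ≤ (k : ℝ) ^ (-c) := by
  have hev : ∀ᶠ x : ℝ in atTop, 1 ≤ x ∧ 2 ≤ x ^ (1 / 100 : ℝ) ∧ 2 * c * Real.log x ≤ x ^ (1 / 100 : ℝ) := by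
    filter_upwards [par_ev, par_log_le (2 * c) 0 (1 / 100) (by norm_num)] with x h1 h2
    exact ⟨h1.1, h1.2.1, by linarith⟩
  obtain ⟨k0, hk0⟩ := eventually_atTop.1 (tendsto_natCast_atTop_atTop.eventually hev)
  refine ⟨k0, fun k hk => ?_⟩
  obtain ⟨h0, h1, h2⟩ := hk0 k hk
  obtain ⟨hK1, hK2⟩ := par_floor _ h1
  have eK : (pK k : ℝ) = (⌊(k : ℝ) ^ (1 / 100 : ℝ)⌋₊ : ℝ) := rfl
  rw [← eK] at hK1
  have hk0' : (0 : ℝ) < k := by linarith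
  have hexp : Real.exp (-(pK k : ℝ)) ≤ (k : ℝ) ^ (-c) := by
    rw [Real.rpow_def_of_pos hk0']
    apply Real.exp_le_exp.2
    linarith
  refine ⟨?_, hexp⟩
  refine le_trans ?_ hexp
  have h3 : Real.exp (-(pK k : ℝ)) = (Real.exp (-1)) ^ (pK k) := by
    rw [← Real.exp_nat_mul]
    congr 1
    ring
  rw [h3]
  refine pow_le_pow_left₀ (by norm_num) ?_ _
  rw [Real.exp_neg, one_div]
  refine inv_anti₀ (Real.exp_pos _) ?_
  have := Real.exp_one_lt_d9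
  linarith

open Filter Topology in
theorem par_tendsto (K0 : ℕ) : ∃ k0 : ℕ, ∀ k : ℕ, k0 ≤ k → K0 ≤ pK k := by
  have hev : ∀ᶠ x : ℝ in atTop, (K0 : ℝ) ≤ x ^ (1 / 100 : ℝ) := by
    filter_upwards [par_log_le 0 K0 (1 / 100) (by norm_num)] with x h1
    rw [zero_mul, zero_add] at h1
    exact h1
  obtain ⟨k0, hk0⟩ := eventually_atTop.1 (tendsto_natCast_atTop_atTop.eventually hev)
  refine ⟨k0, fun k hk => ?_⟩
  exact Nat.le_floor (hk0 k hk)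

end Pool.H64.IR
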