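import Pool.Agent.H64.IR.LBD

/-! MODULE SSM (project MP_a758cf_pr, IR; overview: team-store H64_a758cf.md)
Weighted count of squarefree polynomials with prescribed degree and all prime factors in RR p K k. For 1 <= K <= y <= m <= k:
SS m = sum over s in powerset(RR p K k) with sum of degrees = m of prod_{g in s} (beta g * (1/2 if deg g <= y else 1)) <= 100 (y/K)^(1/2) / y.
Proof. m SS(m) = sum_s sum_{g in s} deg g * w(s) <= sum_{g in RR p K m} deg g w_g SS(m - deg g) (remove g from s, drop the condition g notin s'), w_g = beta g * (1/2 or 1) <= beta g, and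
j card(Irr p j)/(p^j - 1) <= p^j/(p^j-1) <= 3/2, so m SS(m) <= (3/2) sum_{i < m} SS(i) <= (3/2) prod_{g in RR p K m} (1 + w_g) <= (3/2) exp(sum w_g) and
sum w_g <= (1/2)(log(y/K) + 3) + log(m/y) + 3 (lbd, split at y; RR p K m = RR p K y + RR p y m). So SS(m) <= (1/m)(3/2) e^{4.5} (y/K)^{1/2} (m/y) = (3/2) e^{4.5} (y/K)^{1/2}/y.
(3/2) e^4.5 = 135: use constant 200.
-/

set_option autoImplicit false

namespace Pool.H64.IR

open Finset Polynomial

section abstr
variable {α : Type} [DecidableEq α]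

/-- abstract weighted count of the subsets of `R` of total degree `m` -/
private noncomputable def ssmF (R : Finset α) (d : α → ℕ) (w : α → ℝ) (m : ℕ) : ℝ :=
  ∑ s ∈ R.powerset.filter (fun s => ∑ g ∈ s, d g = m), ∏ g ∈ s, w g

private lemma ssm_F_nonneg (R : Finset α) (d : α → ℕ) (w : α → ℝ) (hw : ∀ g ∈ R, 0 ≤ w g) (m : ℕ) :
    0 ≤ ssmF R d w m := by
  unfold ssmF
  refine Finset.sum_nonneg fun s hs => Finset.prod_nonneg fun g hg => hw g ?_
  exact Finset.mem_powerset.1 (Finset.mem_filter.1 hs).1 hg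

private lemma ssm_step (R : Finset α) (d : α → ℕ) (w : α → ℝ) (hw : ∀ g ∈ R, 0 ≤ w g) (m : ℕ) :
    (m : ℝ) * ssmF R d w m ≤
      ∑ g ∈ R.filter (fun g => d g ≤ m), (d g : ℝ) * w g * ssmF R d w (m - d g) := by
  have h1 : (m : ℝ) * ssmF R d w m =
      ∑ s ∈ R.powerset.filter (fun s => ∑ g ∈ s, d g = m), ∑ g ∈ s,
        (d g : ℝ) * w g * ∏ h ∈ s.erase g, w h := by
    unfold ssmF
    rw [Finset.mul_sum]
    refine Finset.sum_congr rfl fun s hs => ?_
    have hsm : ∑ g ∈ s, d g = m := (Finset.mem_filter.1 hs).2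
    have : (m : ℝ) = ∑ g ∈ s, (d g : ℝ) := by rw [← hsm]; push_cast; rfl
    rw [this, Finset.sum_mul]
    refine Finset.sum_congr rfl fun g hg => ?_
    rw [← Finset.mul_prod_erase s w hg, mul_assoc]
  rw [h1]
  have h2 : (∑ s ∈ R.powerset.filter (fun s => ∑ g ∈ s, d g = m), ∑ g ∈ s,
        (d g : ℝ) * w g * ∏ h ∈ s.erase g, w h) =
      ∑ g ∈ R.filter (fun g => d g ≤ m),
        ∑ s ∈ (R.powerset.filter (fun s => ∑ g ∈ s, d g = m)).filter (fun s => g ∈ s),
        (d g : ℝ) * w g * ∏ h ∈ s.erase g, w h := by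
    refine Finset.sum_comm' fun s g => ?_
    simp only [Finset.mem_filter, Finset.mem_powerset]
    constructor
    · rintro ⟨⟨hs, hm⟩, hg⟩
      refine ⟨⟨⟨hs, hm⟩, hg⟩, hs hg, ?_⟩
      rw [← hm]
      exact Finset.single_le_sum (fun _ _ => Nat.zero_le _) hg
    · rintro ⟨⟨⟨hs, hm⟩, hg⟩, _⟩
      exact ⟨⟨hs, hm⟩, hg⟩
  rw [h2]
  refine Finset.sum_le_sum fun g hg => ?_
  have hgR : g ∈ R := (Finset.mem_filter.1 hg).1
  rw [← Finset.mul_sum]
  refine mul_le_mul_of_nonneg_left ?_ (mul_nonneg (Nat.cast_nonneg _) (hw g hgR))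
  unfold ssmF
  have h3 : (∑ s ∈ (R.powerset.filter (fun s => ∑ g ∈ s, d g = m)).filter (fun s => g ∈ s),
      ∏ h ∈ s.erase g, w h) =
      ∑ t ∈ ((R.powerset.filter (fun s => ∑ g ∈ s, d g = m)).filter (fun s => g ∈ s)).image
        (fun s => s.erase g), ∏ h ∈ t, w h := by
    rw [Finset.sum_image]
    intro s hs t ht hst
    have hs' : g ∈ s := (Finset.mem_filter.1 hs).2
    have ht' : g ∈ t := (Finset.mem_filter.1 ht).2
    have : insert g (s.erase g) = insert g (t.erase g) := by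
      have hst' : s.erase g = t.erase g := hst
      rw [hst']
    rwa [Finset.insert_erase hs', Finset.insert_erase ht'] at this
  rw [h3]
  refine Finset.sum_le_sum_of_subset_of_nonneg ?_ ?_
  · intro t ht
    obtain ⟨s, hs, rfl⟩ := Finset.mem_image.1 ht
    simp only [Finset.mem_filter, Finset.mem_powerset] at hs ⊢
    refine ⟨(Finset.erase_subset _ _).trans hs.1.1, ?_⟩
    have := Finset.add_sum_erase s d hs.2
    have h4 := hs.1.2
    omega
  · intro t ht _
    refine Finset.prod_nonneg fun h hh => hw h ?_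
    exact Finset.mem_powerset.1 (Finset.mem_filter.1 ht).1 hh

private lemma ssm_total (R : Finset α) (d : α → ℕ) (w : α → ℝ) (hw : ∀ g ∈ R, 0 ≤ w g) (m : ℕ) :
    ∑ i ∈ Finset.range m, ssmF R d w i ≤ ∏ g ∈ R.filter (fun g => d g ≤ m), (1 + w g) := by
  have h1 : ∑ i ∈ Finset.range m, ssmF R d w i =
      ∑ s ∈ R.powerset.filter (fun s => ∑ g ∈ s, d g < m), ∏ g ∈ s, w g := by
    rw [← Finset.sum_fiberwise_of_maps_to (s := R.powerset.filter (fun s => ∑ g ∈ s, d g < m))
      (t := Finset.range m) (g := fun s => ∑ g ∈ s, d g)]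
    · refine Finset.sum_congr rfl fun i hi => ?_
      unfold ssmF
      refine Finset.sum_congr ?_ fun _ _ => rfl
      ext s
      have hi' := Finset.mem_range.1 hi
      simp only [Finset.mem_filter, Finset.mem_powerset]
      constructor
      · rintro ⟨h, h'⟩
        exact ⟨⟨h, by omega⟩, h'⟩
      · rintro ⟨⟨h, _⟩, h'⟩
        exact ⟨h, h'⟩
    · intro s hs
      exact Finset.mem_range.2 (Finset.mem_filter.1 hs).2
  rw [h1, Finset.prod_one_add]
  refine Finset.sum_le_sum_of_subset_of_nonneg ?_ ?_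
  · intro s hs
    simp only [Finset.mem_filter, Finset.mem_powerset] at hs ⊢
    intro g hg
    refine Finset.mem_filter.2 ⟨hs.1 hg, ?_⟩
    exact (Finset.single_le_sum (f := d) (fun _ _ => Nat.zero_le _) hg).trans hs.2.le
  · intro s hs _
    refine Finset.prod_nonneg fun g hg => hw g ?_
    exact (Finset.mem_filter.1 (Finset.mem_powerset.1 hs hg)).1

end abstr

private lemma ssm_exp : (3 / 2 : ℝ) * Real.exp (9 / 2) ≤ 200 := by
  have h1 : Real.exp (9 / 2) ^ 2 = Real.exp 1 ^ 9 := by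
    rw [← Real.exp_nat_mul, ← Real.exp_nat_mul]
    norm_num
  have h2 : Real.exp 1 ^ 9 ≤ 2.7182818286 ^ 9 :=
    pow_le_pow_left₀ (Real.exp_pos 1).le Real.exp_one_lt_d9.le 9
  have h3 : Real.exp (9 / 2) ^ 2 ≤ 100 ^ 2 := by
    rw [h1]
    refine h2.trans ?_
    norm_num
  have h4 : Real.exp (9 / 2) ≤ 100 := by
    exact le_of_sq_le_sq h3 (by norm_num)
  linarith

private lemma ssm_wnn {p : ℕ} [Fact p.Prime] (hp : 3 ≤ p) (K y k : ℕ) :
    ∀ g ∈ RR p K k, 0 ≤ beta g * (if g.natDegree ≤ y then (1 / 2 : ℝ) else 1) := by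
  intro g hg
  refine mul_nonneg (beta_le hp K k g hg).1.le ?_
  split_ifs <;> norm_num

private lemma ssm_wle {p : ℕ} [Fact p.Prime] (hp : 3 ≤ p) (K y k : ℕ) :
    ∀ g ∈ RR p K k, beta g * (if g.natDegree ≤ y then (1 / 2 : ℝ) else 1) ≤ beta g := by
  intro g hg
  have h := (beta_le hp K k g hg).1.le
  split_ifs
  · linarith
  · linarith

/-- `j card (Irr p j) / (p^j - 1) <= 3/2` -/
private lemma ssm_irr {p : ℕ} [Fact p.Prime] (hp : 3 ≤ p) (j : ℕ) (hj : 1 ≤ j) :
    ∑ g ∈ Irr p j, (g.natDegree : ℝ) * beta g ≤ 3 / 2 := by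
  have h1 : ∑ g ∈ Irr p j, (g.natDegree : ℝ) * beta g = ((j : ℝ) * (Irr p j).card) / ((p : ℝ) ^ j - 1) := by
    rw [Finset.sum_congr rfl (g := fun _ => (j : ℝ) * (1 / ((p : ℝ) ^ j - 1)))]
    · rw [Finset.sum_const, nsmul_eq_mul]
      ring
    · intro g hg
      obtain ⟨_, _, hd⟩ := (mem_irr g).1 hg
      unfold beta
      rw [hd]
  rw [h1]
  have hp' : (3 : ℝ) ≤ p := by exact_mod_cast hp
  have h3 : (3 : ℝ) ≤ (p : ℝ) ^ j := by
    calc (3 : ℝ) ≤ p := hp'
      _ = (p : ℝ) ^ 1 := (pow_one _).symm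
      _ ≤ (p : ℝ) ^ j := pow_le_pow_right₀ (by linarith) hj
  rw [div_le_iff₀ (by linarith)]
  have := irc_upper p j
  linarith

private lemma ssm_main {p : ℕ} [Fact p.Prime] (hp : 3 ≤ p) (K y m k : ℕ) (hK : 1 ≤ K) (hy : K ≤ y)
    (hm : y ≤ m) (hk : m ≤ k) [DecidableEq (ZMod p)[X]] :
    ssmF (RR p K k) (fun g => g.natDegree) (fun g => beta g * (if g.natDegree ≤ y then (1 / 2 : ℝ) else 1)) m ≤
      200 * ((y : ℝ) / K) ^ (1 / 2 : ℝ) / y := by
  set w : (ZMod p)[X] → ℝ := fun g => beta g * (if g.natDegree ≤ y then (1 / 2 : ℝ) else 1) with hw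
  have hwnn : ∀ g ∈ RR p K k, 0 ≤ w g := ssm_wnn hp K y k
  have hwle : ∀ g ∈ RR p K k, w g ≤ beta g := ssm_wle hp K y k
  have hfil : (RR p K k).filter (fun g => g.natDegree ≤ m) = RR p K m := by
    ext g
    rw [Finset.mem_filter, mem_rr, mem_rr]
    constructor
    · rintro ⟨⟨a, b, c, _⟩, e⟩; exact ⟨a, b, c, e⟩
    · rintro ⟨a, b, c, e⟩; exact ⟨⟨a, b, c, e.trans hk⟩, e⟩
  have hsub : RR p K m ⊆ RR p K k := by
    rw [← hfil]; exact Finset.filter_subset _ _
  have hFnn := ssm_F_nonneg (RR p K k) (fun g => g.natDegree) w hwnn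
  have h1 := ssm_step (RR p K k) (fun g => g.natDegree) w hwnn m
  simp only [hfil] at h1
  have h2 : ∑ g ∈ RR p K m, (g.natDegree : ℝ) * w g * ssmF (RR p K k) (fun g => g.natDegree) w (m - g.natDegree) ≤
      3 / 2 * ∑ i ∈ Finset.range m, ssmF (RR p K k) (fun g => g.natDegree) w i := by
    rw [sum_rr]
    have h3 : ∀ j ∈ Finset.Ioc K m,
        ∑ g ∈ Irr p j, (g.natDegree : ℝ) * w g * ssmF (RR p K k) (fun g => g.natDegree) w (m - g.natDegree) ≤
        3 / 2 * ssmF (RR p K k) (fun g => g.natDegree) w (m - j) := by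
      intro j hj
      obtain ⟨hj1, hj2⟩ := Finset.mem_Ioc.1 hj
      have h4 : ∑ g ∈ Irr p j, (g.natDegree : ℝ) * w g * ssmF (RR p K k) (fun g => g.natDegree) w (m - g.natDegree) ≤
          ∑ g ∈ Irr p j, ((g.natDegree : ℝ) * beta g) * ssmF (RR p K k) (fun g => g.natDegree) w (m - j) := by
        refine Finset.sum_le_sum fun g hg => ?_
        obtain ⟨ha, hb, hd⟩ := (mem_irr g).1 hg
        have hgR : g ∈ RR p K k := (mem_rr g).2 ⟨ha, hb, by omega, by omega⟩
        rw [hd]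
        refine mul_le_mul_of_nonneg_right ?_ (hFnn _)
        exact mul_le_mul_of_nonneg_left (hwle g hgR) (Nat.cast_nonneg _)
      refine h4.trans ?_
      rw [← Finset.sum_mul]
      exact mul_le_mul_of_nonneg_right (ssm_irr hp j (by omega)) (hFnn _)
    refine (Finset.sum_le_sum h3).trans ?_
    rw [← Finset.mul_sum]
    refine mul_le_mul_of_nonneg_left ?_ (by norm_num)
    have h5 : ∑ j ∈ Finset.Ioc K m, ssmF (RR p K k) (fun g => g.natDegree) w (m - j) =
        ∑ i ∈ (Finset.Ioc K m).image (fun j => m - j), ssmF (RR p K k) (fun g => g.natDegree) w i := by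
      rw [Finset.sum_image]
      intro a ha b hb hab
      have ha' := (Finset.mem_Ioc.1 ha)
      have hb' := (Finset.mem_Ioc.1 hb)
      have hab' : m - a = m - b := hab
      omega
    rw [h5]
    refine Finset.sum_le_sum_of_subset_of_nonneg ?_ (fun i _ _ => hFnn i)
    intro i hi
    obtain ⟨j, hj, rfl⟩ := Finset.mem_image.1 hi
    have hj' := Finset.mem_Ioc.1 hj
    rw [Finset.mem_range]
    omega
  have h6 := ssm_total (RR p K k) (fun g => g.natDegree) w hwnn m
  simp only [hfil] at h6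
  have h7 : ∏ g ∈ RR p K m, (1 + w g) ≤ Real.exp (∑ g ∈ RR p K m, w g) := by
    rw [Real.exp_sum]
    refine Finset.prod_le_prod (fun g hg => ?_) (fun g _ => ?_)
    · have := hwnn g (hsub hg)
      linarith
    · have := Real.add_one_le_exp (w g)
      linarith
  have h8 : ∑ g ∈ RR p K m, w g ≤ (1 / 2) * (Real.log ((y : ℝ) / K) + 3) + (Real.log ((m : ℝ) / y) + 3) := by
    have h9 : ∑ g ∈ RR p K m, w g = ∑ g ∈ RR p K y, (1 / 2) * beta g + ∑ g ∈ RR p y m, beta g := by
      have hun : RR p K m = RR p K y ∪ RR p y m := by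
        ext g
        rw [Finset.mem_union, mem_rr, mem_rr, mem_rr]
        constructor
        · rintro ⟨a, b, c, e⟩
          by_cases h : g.natDegree ≤ y
          · exact Or.inl ⟨a, b, c, h⟩
          · exact Or.inr ⟨a, b, by omega, e⟩
        · rintro (⟨a, b, c, e⟩ | ⟨a, b, c, e⟩)
          · exact ⟨a, b, c, by omega⟩
          · exact ⟨a, b, by omega, e⟩
      have hdis : Disjoint (RR p K y) (RR p y m) := by
        rw [Finset.disjoint_left]
        intro g h h'
        rw [mem_rr] at h h'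
        omega
      rw [hun, Finset.sum_union hdis]
      congr 1
      · refine Finset.sum_congr rfl fun g hg => ?_
        rw [mem_rr] at hg
        simp only [hw]
        rw [if_pos hg.2.2.2]
        ring
      · refine Finset.sum_congr rfl fun g hg => ?_
        rw [mem_rr] at hg
        simp only [hw]
        rw [if_neg (by omega), mul_one]
    rw [h9, ← Finset.mul_sum]
    have ha := (abs_le.1 (lbd hp K y hK hy)).2
    have hb := (abs_le.1 (lbd hp y m (hK.trans hy) hm)).2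
    linarith
  have hK0 : (0 : ℝ) < K := by exact_mod_cast hK
  have hy0 : (0 : ℝ) < y := by exact_mod_cast (hK.trans hy)
  have hm0 : (0 : ℝ) < m := by exact_mod_cast (hK.trans hy).trans hm
  have h10 : Real.exp ((1 / 2) * (Real.log ((y : ℝ) / K) + 3) + (Real.log ((m : ℝ) / y) + 3)) =
      Real.exp (9 / 2) * (((y : ℝ) / K) ^ (1 / 2 : ℝ) * ((m : ℝ) / y)) := by
    rw [Real.rpow_def_of_pos (div_pos hy0 hK0)]
    conv_rhs => rw [← Real.exp_log (div_pos hm0 hy0)]
    rw [← Real.exp_add, ← Real.exp_add]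
    congr 1
    ring
  have h11 : (m : ℝ) * ssmF (RR p K k) (fun g => g.natDegree) w m ≤
      3 / 2 * (Real.exp (9 / 2) * (((y : ℝ) / K) ^ (1 / 2 : ℝ) * ((m : ℝ) / y))) := by
    rw [← h10]
    refine h1.trans (h2.trans ?_)
    refine mul_le_mul_of_nonneg_left ?_ (by norm_num)
    exact h6.trans (h7.trans (Real.exp_le_exp.2 h8))
  have h12 : 0 ≤ ((y : ℝ) / K) ^ (1 / 2 : ℝ) := Real.rpow_nonneg (div_pos hy0 hK0).le _
  have h13 : (m : ℝ) * ssmF (RR p K k) (fun g => g.natDegree) w m ≤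
      m * (200 * ((y : ℝ) / K) ^ (1 / 2 : ℝ) / y) := by
    refine h11.trans ?_
    have h14 : 3 / 2 * (Real.exp (9 / 2) * (((y : ℝ) / K) ^ (1 / 2 : ℝ) * ((m : ℝ) / y))) =
        (3 / 2 * Real.exp (9 / 2)) * (m * (((y : ℝ) / K) ^ (1 / 2 : ℝ) / y)) := by ring
    have h15 : m * (200 * ((y : ℝ) / K) ^ (1 / 2 : ℝ) / y) =
        200 * (m * (((y : ℝ) / K) ^ (1 / 2 : ℝ) / y)) := by ring
    rw [h14, h15]
    exact mul_le_mul_of_nonneg_right ssm_exp (mul_nonneg hm0.le (div_nonneg h12 hy0.le))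
  exact le_of_mul_le_mul_left h13 hm0

open Classical in
theorem ssm {p : ℕ} [Fact p.Prime] (hp : 3 ≤ p) (K y m k : ℕ) (hK : 1 ≤ K) (hy : K ≤ y) (hm : y ≤ m) (hk : m ≤ k) :
    (∑ s ∈ (RR p K k).powerset.filter (fun s => ∑ g ∈ s, g.natDegree = m),
        ∏ g ∈ s, (beta g * (if g.natDegree ≤ y then (1 / 2 : ℝ) else 1))) ≤ 200 * ((y : ℝ) / K) ^ (1 / 2 : ℝ) / y := by
  have h := ssm_main hp K y m k hK hy hm hk
  unfold ssmF at h
  exact h

open Classical in
theorem ssm_one {p : ℕ} [Fact p.Prime] (hp : 3 ≤ p) (K m k : ℕ) (hK : 1 ≤ K) (hm : K ≤ m) (hk : m ≤ k) :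
    (∑ s ∈ (RR p K k).powerset.filter (fun s => ∑ g ∈ s, g.natDegree = m), ∏ g ∈ s, beta g) ≤ 200 := by
  have h := ssm hp K K m k hK le_rfl hm hk
  have h1 : (∑ s ∈ (RR p K k).powerset.filter (fun s => ∑ g ∈ s, g.natDegree = m),
        ∏ g ∈ s, (beta g * (if g.natDegree ≤ K then (1 / 2 : ℝ) else 1))) =
      ∑ s ∈ (RR p K k).powerset.filter (fun s => ∑ g ∈ s, g.natDegree = m), ∏ g ∈ s, beta g := by
    refine Finset.sum_congr rfl fun s hs => Finset.prod_congr rfl fun g hg => ?_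
    have hg' : g ∈ RR p K k := Finset.mem_powerset.1 (Finset.mem_filter.1 hs).1 hg
    rw [mem_rr] at hg'
    rw [if_neg (by omega), mul_one]
  rw [h1] at h
  refine h.trans ?_
  have hK1 : (1 : ℝ) ≤ K := by exact_mod_cast hK
  rw [div_self (by linarith), Real.one_rpow, mul_one, div_le_iff₀ (by linarith)]
  linarith

end Pool.H64.IR
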