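import Pool.Agent.H64.IR.DET
import Pool.Agent.H64.IR.PAR
import Pool.Agent.H64.IR.SSM

/-! MODULE NUM1 (project MP_a758cf_pr, IR; overview: team-store H64_a758cf.md)
PhiF at beta. K,y,D=K^3,M,J the parameters. For s in FF: card s <= k and all beta g <= 3^(-K).
inner sum with u = -1/2 (x_g = beta g/2): bnf_even_upper <= prod_{g in Q \ s}(1 - beta g/2) + (L/2)^(J+1)/(J+1)! , L = sum_Q beta <= pL + 3;
prod <= exp(-(1/2) sum_{Q \ s} beta) <= exp(-L/2 + (1/2) k 3^(-K)) <= 2 exp(-L/2) <= 2 e^{3/2} (y/K)^(-1/2); the tail is <= (e L/(2(J+1)))^(J+1) <= k^(-20).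
sum over s in FF of beta_s 2^(-card(s inf Q)) <= sum_{m=k-D}^{k} ssm <= (D+1) 200 (y/K)^(1/2)/y.
So PhiF <= 2^M (D+1) 200 (y/K)^(1/2)/y * (10 (y/K)^(-1/2) + k^(-20)) <= 4000 (D+1) 2^M / y <= 4000 (K^3+1) (y/K)^(0.9242)/y and K^3 <= k^0.03, (y/K)^0.9242/y <= K^(-0.92) y^(-0.0757)
-> exponent 0.03 - 0.0092 - 0.068 < -0.04. (log 2 * 4/3 = 0.92420.)
Absolute version u = 1/2: inner sum <= prod(1+beta/2) <= exp(L/2) <= k, sum over s of beta_s <= (D+1) 200 (ssm_one): total <= k^5.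
-/

set_option autoImplicit false

namespace Pool.H64.IR

open Finset Polynomial

theorem num1_ff_sum {p : ℕ} [Fact p.Prime] (K k D : ℕ) (w : Finset (ZMod p)[X] → ℝ)
    (hw : ∀ s ∈ (RR p K k).powerset, 0 ≤ w s) (B : ℝ) (hB : 0 ≤ B)
    (h : ∀ m, k ≤ m + D → m ≤ k →
      ∑ s ∈ (RR p K k).powerset.filter (fun s => ∑ g ∈ s, g.natDegree = m), w s ≤ B) :
    ∑ s ∈ FF p K k D, w s ≤ ((D : ℝ) + 1) * B := by
  have hmaps : ∀ s ∈ FF p K k D, (∑ g ∈ s, g.natDegree) ∈ Finset.Icc (k - D) k := by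
    intro s hs
    unfold FF at hs
    rw [mem_filter] at hs
    rw [mem_Icc]
    omega
  rw [← Finset.sum_fiberwise_of_maps_to hmaps]
  have h1 : ∀ m ∈ Finset.Icc (k - D) k, ∑ s ∈ (FF p K k D).filter (fun s => ∑ g ∈ s, g.natDegree = m), w s ≤ B := by
    intro m hm
    rw [mem_Icc] at hm
    refine le_trans ?_ (h m (by omega) hm.2)
    refine Finset.sum_le_sum_of_subset_of_nonneg ?_ ?_
    · intro s hs
      rw [mem_filter] at hs ⊢
      refine ⟨?_, hs.2⟩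
      have := hs.1
      unfold FF at this
      exact (mem_filter.1 this).1
    · intro s hs _
      exact hw s (mem_filter.1 hs).1
  refine (Finset.sum_le_sum h1).trans ?_
  rw [Finset.sum_const, nsmul_eq_mul]
  refine mul_le_mul_of_nonneg_right ?_ hB
  rw [Nat.card_Icc]
  have : k + 1 - (k - D) ≤ D + 1 := by omega
  exact_mod_cast this

/-- elements of `s ∈ FF` : cardinality at most `k` -/
theorem num1_card {p : ℕ} [Fact p.Prime] {K k D : ℕ} {s : Finset (ZMod p)[X]} (hs : s ∈ FF p K k D) :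
    s ⊆ RR p K k ∧ s.card ≤ k := by
  unfold FF at hs
  rw [mem_filter, mem_powerset] at hs
  refine ⟨hs.1, ?_⟩
  have h1 : s.card ≤ ∑ g ∈ s, g.natDegree := by
    rw [Finset.card_eq_sum_ones]
    refine Finset.sum_le_sum ?_
    intro g hg
    have := (mem_rr g).1 (hs.1 hg)
    omega
  omega

theorem num1_prod_le {α : Type} (s : Finset α) (x : α → ℝ) (hx : ∀ a ∈ s, 0 ≤ x a ∧ x a ≤ 1) :
    ∏ a ∈ s, (1 - x a) ≤ Real.exp (-∑ a ∈ s, x a) := by
  rw [← Finset.sum_neg_distrib, Real.exp_sum]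
  refine Finset.prod_le_prod (fun a ha => by linarith [(hx a ha).2]) ?_
  intro a _
  have := Real.add_one_le_exp (-x a)
  linarith

theorem num1_prod_le' {α : Type} (s : Finset α) (x : α → ℝ) (hx : ∀ a ∈ s, 0 ≤ x a) :
    ∏ a ∈ s, (1 + x a) ≤ Real.exp (∑ a ∈ s, x a) := by
  rw [Real.exp_sum]
  refine Finset.prod_le_prod (fun a ha => by linarith [hx a ha]) ?_
  intro a _
  have := Real.add_one_le_exp (x a)
  linarith

theorem num1_tail {x : ℝ} (hx : 0 ≤ x) (N : ℕ) : x ^ N / (Nat.factorial N) ≤ Real.exp (3 * x - N) := by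
  have h1 := Real.pow_div_factorial_le_exp (Real.exp 1 * x) (by positivity) N
  have h2 : Real.exp 1 * x ≤ 3 * x := by
    have := Real.exp_one_lt_d9
    nlinarith
  have h3 : (Real.exp 1 * x) ^ N / (Nat.factorial N) = Real.exp N * (x ^ N / (Nat.factorial N)) := by
    rw [mul_pow, mul_div_assoc]
    congr 1
    rw [← Real.exp_nat_mul, mul_one]
  rw [h3] at h1
  rw [sub_eq_add_neg, Real.exp_add, Real.exp_neg]
  rw [← div_eq_mul_inv, le_div_iff₀ (Real.exp_pos _), mul_comm]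
  exact h1.trans (Real.exp_le_exp.2 h2)

theorem num1_beta {p : ℕ} [Fact p.Prime] (hp : 3 ≤ p) {K k : ℕ} {g : (ZMod p)[X]} (hg : g ∈ RR p K k) :
    0 ≤ beta g ∧ beta g ≤ 1 := by
  obtain ⟨h1, _, h3⟩ := beta_le hp K k g hg
  refine ⟨h1.le, h3.trans ?_⟩
  exact pow_le_one₀ (by norm_num) (by norm_num)

open Classical in
theorem num1_sums {p : ℕ} [Fact p.Prime] (hp : 3 ≤ p) (K y k : ℕ) (hK : 1 ≤ K) (hy : K ≤ y)
    (hk : (k : ℝ) * (1 / 3) ^ K ≤ 1) (s : Finset (ZMod p)[X]) (hs : s ⊆ RR p K k) (hc : s.card ≤ k) :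
    Real.log ((y : ℝ) / K) - 4 ≤ ∑ g ∈ (RR p K y) \ s, beta g ∧
      ∑ g ∈ (RR p K y) \ s, beta g ≤ Real.log ((y : ℝ) / K) + 3 := by
  have h0 := abs_le.1 (lbd hp K y hK hy)
  have h1 : ∑ g ∈ (RR p K y) ∩ s, beta g + ∑ g ∈ (RR p K y) \ s, beta g = ∑ g ∈ RR p K y, beta g :=
    Finset.sum_inter_add_sum_sdiff _ _ _
  have h2 : 0 ≤ ∑ g ∈ (RR p K y) ∩ s, beta g :=
    Finset.sum_nonneg (fun g hg => (num1_beta hp (mem_inter.1 hg).1).1)
  have h3 : ∑ g ∈ (RR p K y) ∩ s, beta g ≤ 1 := by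
    calc ∑ g ∈ (RR p K y) ∩ s, beta g ≤ ∑ g ∈ s, beta g :=
          Finset.sum_le_sum_of_subset_of_nonneg inter_subset_right
            (fun g hg _ => (num1_beta hp (hs hg)).1)
      _ ≤ ∑ _g ∈ s, (1 / 3 : ℝ) ^ K := Finset.sum_le_sum (fun g hg => (beta_le hp K k g (hs hg)).2.2)
      _ = s.card * (1 / 3 : ℝ) ^ K := by rw [Finset.sum_const, nsmul_eq_mul]
      _ ≤ k * (1 / 3 : ℝ) ^ K := mul_le_mul_of_nonneg_right (by exact_mod_cast hc) (by positivity)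
      _ ≤ 1 := hk
  constructor <;> linarith [h0.1, h0.2]

open Classical in
theorem num1_inner {p : ℕ} [Fact p.Prime] (hp : 3 ≤ p) (K y k J : ℕ) (hK : 1 ≤ K) (hy : K ≤ y)
    (hJ : Even J) (hk : (k : ℝ) * (1 / 3) ^ K ≤ 1) (s : Finset (ZMod p)[X]) (hs : s ⊆ RR p K k)
    (hc : s.card ≤ k) :
    ∑ G ∈ ((RR p K y) \ s).powerset.filter (fun G => G.card ≤ J), (-1 / 2 : ℝ) ^ G.card * ∏ g ∈ G, beta g ≤
      Real.exp (-((Real.log ((y : ℝ) / K) - 4) / 2)) +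
        Real.exp (3 * ((Real.log ((y : ℝ) / K) + 3) / 2) - (J + 1)) := by
  obtain ⟨h1, h2⟩ := num1_sums hp K y k hK hy hk s hs hc
  have hx : ∀ g ∈ (RR p K y) \ s, 0 ≤ beta g / 2 ∧ beta g / 2 ≤ 1 := by
    intro g hg
    have := num1_beta hp (mem_sdiff.1 hg).1
    constructor <;> linarith [this.1, this.2]
  have e1 : ∑ G ∈ ((RR p K y) \ s).powerset.filter (fun G => G.card ≤ J), (-1 / 2 : ℝ) ^ G.card * ∏ g ∈ G, beta g
      = ∑ G ∈ ((RR p K y) \ s).powerset.filter (fun G => G.card ≤ J), (-1 : ℝ) ^ G.card * ∏ g ∈ G, (beta g / 2) := by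
    refine Finset.sum_congr rfl (fun G _ => ?_)
    rw [Finset.prod_div_distrib, Finset.prod_const, div_pow]
    ring
  have e2 : ∑ g ∈ (RR p K y) \ s, beta g / 2 = (∑ g ∈ (RR p K y) \ s, beta g) / 2 := by
    rw [Finset.sum_div]
  rw [e1]
  refine (bnf_even_upper _ _ hx J hJ).trans ?_
  refine add_le_add ?_ ?_
  · refine (num1_prod_le _ _ hx).trans (Real.exp_le_exp.2 ?_)
    rw [e2]
    linarith
  · refine (num1_tail (Finset.sum_nonneg (fun g hg => (hx g hg).1)) (J + 1)).trans (Real.exp_le_exp.2 ?_)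
    rw [e2]
    push_cast
    linarith

open Classical in
theorem num1_inner_abs {p : ℕ} [Fact p.Prime] (hp : 3 ≤ p) (K y k J : ℕ) (hK : 1 ≤ K) (hy : K ≤ y)
    (hk : (k : ℝ) * (1 / 3) ^ K ≤ 1) (s : Finset (ZMod p)[X]) (hs : s ⊆ RR p K k)
    (hc : s.card ≤ k) :
    0 ≤ ∑ G ∈ ((RR p K y) \ s).powerset.filter (fun G => G.card ≤ J), (1 / 2 : ℝ) ^ G.card * ∏ g ∈ G, beta g ∧
    ∑ G ∈ ((RR p K y) \ s).powerset.filter (fun G => G.card ≤ J), (1 / 2 : ℝ) ^ G.card * ∏ g ∈ G, beta g ≤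
      Real.exp ((Real.log ((y : ℝ) / K) + 3) / 2) := by
  obtain ⟨h1, h2⟩ := num1_sums hp K y k hK hy hk s hs hc
  have hx : ∀ g ∈ (RR p K y) \ s, 0 ≤ beta g / 2 := by
    intro g hg
    have := num1_beta hp (mem_sdiff.1 hg).1
    linarith [this.1]
  have e0 : ∀ G : Finset (ZMod p)[X], (1 / 2 : ℝ) ^ G.card * ∏ g ∈ G, beta g = ∏ g ∈ G, (beta g / 2) := by
    intro G
    rw [Finset.prod_div_distrib, Finset.prod_const, div_pow]
    ring
  have hn : ∀ G ∈ ((RR p K y) \ s).powerset, 0 ≤ ∏ g ∈ G, (beta g / 2) := by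
    intro G hG
    exact Finset.prod_nonneg (fun g hg => hx g ((mem_powerset.1 hG) hg))
  simp only [e0]
  constructor
  · exact Finset.sum_nonneg (fun G hG => hn G (mem_filter.1 hG).1)
  · refine (Finset.sum_le_sum_of_subset_of_nonneg (filter_subset _ _) (fun G hG _ => hn G hG)).trans ?_
    have e3 : ∑ G ∈ ((RR p K y) \ s).powerset, ∏ g ∈ G, (beta g / 2) = ∏ g ∈ (RR p K y) \ s, (1 + beta g / 2) := by
      rw [Finset.prod_one_add]
    rw [e3]
    refine (num1_prod_le' _ _ hx).trans (Real.exp_le_exp.2 ?_)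
    rw [← Finset.sum_div]
    linarith

open Classical in
theorem num1_w {p : ℕ} [Fact p.Prime] (s : Finset (ZMod p)[X]) (y : ℕ) :
    ∏ g ∈ s, (beta g * (if g.natDegree ≤ y then (1 / 2 : ℝ) else 1)) =
      (1 / 2 : ℝ) ^ (s.filter fun g => g.natDegree ≤ y).card * ∏ g ∈ s, beta g := by
  rw [Finset.prod_mul_distrib, Finset.prod_ite, Finset.prod_const, Finset.prod_const_one]
  ring

theorem num1_phi_bound {p : ℕ} [Fact p.Prime] (hp : 3 ≤ p) (K y k D M J : ℕ) (hK : 1 ≤ K) (hy : K ≤ y)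
    (hyk : y + D ≤ k) (hJ : Even J) (hk : (k : ℝ) * (1 / 3) ^ K ≤ 1) (I : ℝ) (hI0 : 0 ≤ I)
    (hI : Real.exp (-((Real.log ((y : ℝ) / K) - 4) / 2)) +
        Real.exp (3 * ((Real.log ((y : ℝ) / K) + 3) / 2) - (J + 1)) ≤ I) :
    PhiF p K y k D M J (-1 / 2) beta ≤
      (((D : ℝ) + 1) * (200 * ((y : ℝ) / K) ^ (1 / 2 : ℝ) / y)) * (2 ^ M * I) := by
  classical
  have hw : ∀ s ∈ (RR p K k).powerset,
      0 ≤ ∏ g ∈ s, (beta g * (if g.natDegree ≤ y then (1 / 2 : ℝ) else 1)) := by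
    intro s hs
    refine Finset.prod_nonneg (fun g hg => mul_nonneg (num1_beta hp ((mem_powerset.1 hs) hg)).1 ?_)
    split_ifs <;> norm_num
  have h1 : PhiF p K y k D M J (-1 / 2) beta ≤ ∑ s ∈ FF p K k D,
      (∏ g ∈ s, (beta g * (if g.natDegree ≤ y then (1 / 2 : ℝ) else 1))) * (2 ^ M * I) := by
    unfold PhiF
    refine Finset.sum_le_sum (fun s hs => ?_)
    obtain ⟨hs1, hs2⟩ := num1_card hs
    have h2 := (num1_inner hp K y k J hK hy hJ hk s hs1 hs2).trans hI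
    have h3 : (1 / 2 : ℝ) ^ (s.filter fun g => g.natDegree ≤ y).card * 2 ^ M * ∏ g ∈ s, beta g =
        (∏ g ∈ s, (beta g * (if g.natDegree ≤ y then (1 / 2 : ℝ) else 1))) * 2 ^ M := by
      rw [num1_w]; ring
    rw [← mul_assoc]
    calc _ = (∏ g ∈ s, (beta g * (if g.natDegree ≤ y then (1 / 2 : ℝ) else 1))) * 2 ^ M *
          ∑ G ∈ ((RR p K y) \ s).powerset.filter (fun G => G.card ≤ J), (-1 / 2 : ℝ) ^ G.card * ∏ g ∈ G, beta g := by
            rw [← h3]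
      _ ≤ _ := mul_le_mul_of_nonneg_left h2 (mul_nonneg (hw s (mem_powerset.2 hs1)) (by positivity))
  refine h1.trans ?_
  rw [← Finset.sum_mul]
  refine mul_le_mul_of_nonneg_right ?_ (by positivity)
  refine num1_ff_sum K k D _ hw _ (by positivity) ?_
  intro m hm1 hm2
  exact ssm hp K y m k hK hy (by omega) hm2

theorem num1_phi_abs_bound {p : ℕ} [Fact p.Prime] (hp : 3 ≤ p) (K y k D M J : ℕ) (hK : 1 ≤ K) (hy : K ≤ y)
    (hyk : y + D ≤ k) (hk : (k : ℝ) * (1 / 3) ^ K ≤ 1) (I : ℝ)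
    (hI : Real.exp ((Real.log ((y : ℝ) / K) + 3) / 2) ≤ I) :
    PhiF p K y k D M J (1 / 2) beta ≤ (((D : ℝ) + 1) * 200) * (2 ^ M * I) := by
  classical
  have hI0 : 0 ≤ I := (Real.exp_pos _).le.trans hI
  have hw : ∀ s ∈ (RR p K k).powerset, 0 ≤ ∏ g ∈ s, beta g := by
    intro s hs
    exact Finset.prod_nonneg (fun g hg => (num1_beta hp ((mem_powerset.1 hs) hg)).1)
  have h1 : PhiF p K y k D M J (1 / 2) beta ≤ ∑ s ∈ FF p K k D, (∏ g ∈ s, beta g) * (2 ^ M * I) := by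
    unfold PhiF
    refine Finset.sum_le_sum (fun s hs => ?_)
    obtain ⟨hs1, hs2⟩ := num1_card hs
    obtain ⟨h20, h2⟩ := num1_inner_abs hp K y k J hK hy hk s hs1 hs2
    have h4 := hw s (mem_powerset.2 hs1)
    have h5 : (1 / 2 : ℝ) ^ (s.filter fun g => g.natDegree ≤ y).card ≤ 1 :=
      pow_le_one₀ (by norm_num) (by norm_num)
    calc _ ≤ (1 * 2 ^ M * ∏ g ∈ s, beta g) *
          ∑ G ∈ ((RR p K y) \ s).powerset.filter (fun G => G.card ≤ J), (1 / 2 : ℝ) ^ G.card * ∏ g ∈ G, beta g := by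
            refine mul_le_mul_of_nonneg_right ?_ h20
            gcongr
      _ ≤ (1 * 2 ^ M * ∏ g ∈ s, beta g) * I :=
            mul_le_mul_of_nonneg_left (h2.trans hI) (by positivity)
      _ = _ := by ring
  refine h1.trans ?_
  rw [← Finset.sum_mul]
  refine mul_le_mul_of_nonneg_right ?_ (by positivity)
  refine num1_ff_sum K k D _ hw _ (by norm_num) ?_
  intro m hm1 hm2
  exact ssm_one hp K m k hK (by omega) hm2

/-- common facts on the parameters -/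
theorem num1_par : ∃ k0 : ℕ, ∀ k : ℕ, k0 ≤ k →
    1 ≤ pK k ∧ pK k ≤ pY k ∧ pY k + (pK k) ^ 3 ≤ k ∧ Even (pJ k) ∧ (k : ℝ) * (1 / 3) ^ (pK k) ≤ 1 ∧
      500 ≤ Real.log k ∧ 1 ≤ pL k ∧
      88 / 100 * Real.log k ≤ pL k ∧ pL k ≤ 90 / 100 * Real.log k ∧ (pK k : ℝ) ^ 3 + pK k ≤ k ∧
      20 * Real.log k ≤ pJ k ∧ (2 : ℝ) ^ (pM k) ≤ Real.exp (9242 / 10000 * pL k) ∧
      (pK k : ℝ) ≤ Real.exp (Real.log k / 100) := by
  obtain ⟨k1, h1⟩ := par_basic
  obtain ⟨k2, h2⟩ := par_decay 1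
  refine ⟨max (max k1 k2) ⌈Real.exp 500⌉₊, ?_⟩
  intro k hk
  obtain ⟨hk12, hk3⟩ := max_le_iff.1 hk
  obtain ⟨hk1, hk2⟩ := max_le_iff.1 hk12
  obtain ⟨a1, a2, a3, a4, a5, a6, a7, a8, a9, a10⟩ := h1 k hk1
  have b1 := (h2 k hk2).1
  have hke : Real.exp 500 ≤ k := (Nat.le_ceil _).trans (by exact_mod_cast hk3)
  have hk0 : (0 : ℝ) < k := (Real.exp_pos _).trans_le hke
  have hlog : 500 ≤ Real.log k := by
    rw [Real.le_log_iff_exp_le hk0]; exact hke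
  refine ⟨a1, a2, a3, a5, ?_, hlog, a7, a8, a9, a10, ?_, ?_, ?_⟩
  · rw [Real.rpow_neg_one] at b1
    calc (k : ℝ) * (1 / 3) ^ (pK k) ≤ k * (k : ℝ)⁻¹ := mul_le_mul_of_nonneg_left b1 hk0.le
      _ = 1 := mul_inv_cancel₀ hk0.ne'
  · unfold pJ
    push_cast
    have := Nat.le_ceil (10 * Real.log k)
    linarith
  · have c1 : (pM k : ℝ) ≤ 4 / 3 * pL k := Nat.floor_le (by linarith)
    have c2 := Real.log_two_lt_d9
    have c3 : (0 : ℝ) < Real.log 2 := Real.log_pos (by norm_num)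
    calc (2 : ℝ) ^ (pM k) = Real.exp (Real.log 2 * pM k) := by
          rw [Real.exp_mul, Real.exp_log (by norm_num), Real.rpow_natCast]
      _ ≤ Real.exp (9242 / 10000 * pL k) := by
          refine Real.exp_le_exp.2 ?_
          calc Real.log 2 * pM k ≤ Real.log 2 * (4 / 3 * pL k) := mul_le_mul_of_nonneg_left c1 c3.le
            _ ≤ 9242 / 10000 * pL k := by nlinarith
  · have c1 : (pK k : ℝ) ≤ (k : ℝ) ^ (1 / 100 : ℝ) := Nat.floor_le (by positivity)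
    refine c1.trans ?_
    rw [Real.rpow_def_of_pos hk0]
    refine Real.exp_le_exp.2 ?_
    linarith

theorem num_phi : ∃ k0 : ℕ, ∀ k : ℕ, k0 ≤ k → ∀ (p : ℕ) [Fact p.Prime], 3 ≤ p →
    PhiF p (pK k) (pY k) k ((pK k) ^ 3) (pM k) (pJ k) (-1 / 2) beta ≤ (k : ℝ) ^ (-(1 / 40) : ℝ) := by
  obtain ⟨k0, h0⟩ := num1_par
  refine ⟨k0, fun k hk p _ hp => ?_⟩
  obtain ⟨h1, h2, h3, h4, h5, h6, h7, h8, h9, h10, h11, h12, h13⟩ := h0 k hk
  have hk0 : (0 : ℝ) < k := by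
    rcases Nat.eq_zero_or_pos k with h | h
    · rw [h] at h6; norm_num at h6
    · exact_mod_cast h
  have hKpos : (0 : ℝ) < pK k := by exact_mod_cast h1
  have hYpos : (0 : ℝ) < pY k := by
    have : 0 < pY k := lt_of_lt_of_le h1 h2
    exact_mod_cast this
  have hL : Real.log ((pY k : ℝ) / pK k) = pL k := rfl
  set ℓ := pL k with hℓ
  set a := Real.log k with ha
  have hI : Real.exp (-((Real.log ((pY k : ℝ) / pK k) - 4) / 2)) +
        Real.exp (3 * ((Real.log ((pY k : ℝ) / pK k) + 3) / 2) - (pJ k + 1)) ≤ 16 * Real.exp (-ℓ / 2) := by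
    rw [hL]
    have e1 : Real.exp (-((ℓ - 4) / 2)) = Real.exp 2 * Real.exp (-ℓ / 2) := by
      rw [← Real.exp_add]; congr 1; ring
    have e2 : Real.exp (3 * ((ℓ + 3) / 2) - (pJ k + 1)) ≤ Real.exp 2 * Real.exp (-ℓ / 2) := by
      rw [← Real.exp_add]
      refine Real.exp_le_exp.2 ?_
      linarith
    have e3 : Real.exp 2 ≤ 8 := by
      have h := Real.exp_one_lt_d9
      have : Real.exp 2 = Real.exp 1 * Real.exp 1 := by rw [← Real.exp_add]; norm_num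
      rw [this]
      nlinarith [Real.exp_pos 1]
    have e4 := Real.exp_pos (-ℓ / 2)
    rw [e1]
    nlinarith
  refine (num1_phi_bound hp (pK k) (pY k) k ((pK k) ^ 3) (pM k) (pJ k) h1 h2 h3 h4 h5
    (16 * Real.exp (-ℓ / 2)) (by positivity) hI).trans ?_
  have f1 : ((pY k : ℝ) / pK k) ^ (1 / 2 : ℝ) = Real.exp (ℓ / 2) := by
    rw [Real.rpow_def_of_pos (by positivity), hL]
    congr 1; ring
  have f2 : (pY k : ℝ) = pK k * Real.exp ℓ := by
    rw [← hL, Real.exp_log (by positivity)]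
    field_simp
  have f3 : (((pK k) ^ 3 : ℕ) : ℝ) + 1 ≤ 2 * (pK k : ℝ) ^ 3 := by
    push_cast
    have : (1 : ℝ) ≤ (pK k : ℝ) ^ 3 := one_le_pow₀ (by exact_mod_cast h1)
    linarith
  have f4 : (200 * ((pY k : ℝ) / pK k) ^ (1 / 2 : ℝ) / pY k) = 200 * Real.exp (-ℓ / 2) / pK k := by
    rw [f1, f2]
    have : Real.exp (-ℓ / 2) * Real.exp ℓ = Real.exp (ℓ / 2) := by
      rw [← Real.exp_add]; congr 1; ring
    rw [← this]
    field_simp
  rw [f4]
  have f5 : (pK k : ℝ) ^ 2 ≤ Real.exp (a / 50) := by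
    calc (pK k : ℝ) ^ 2 ≤ (Real.exp (a / 100)) ^ 2 := pow_le_pow_left₀ hKpos.le h13 2
      _ = Real.exp (a / 50) := by rw [← Real.exp_nat_mul]; congr 1; push_cast; ring
  have f6 : (6400 : ℝ) ≤ Real.exp (10 : ℝ) := by
    have h := Real.exp_one_gt_d9
    have e : Real.exp (10 : ℝ) = (Real.exp 1) ^ 10 := by rw [← Real.exp_nat_mul]; norm_num
    rw [e]
    calc (6400 : ℝ) ≤ (2.7 : ℝ) ^ 10 := by norm_num
      _ ≤ (Real.exp 1) ^ 10 := pow_le_pow_left₀ (by norm_num) (by linarith) 10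
  calc (((((pK k) ^ 3 : ℕ) : ℝ) + 1) * (200 * Real.exp (-ℓ / 2) / pK k)) * (2 ^ (pM k) * (16 * Real.exp (-ℓ / 2)))
      ≤ ((2 * (pK k : ℝ) ^ 3) * (200 * Real.exp (-ℓ / 2) / pK k)) *
        (Real.exp (9242 / 10000 * ℓ) * (16 * Real.exp (-ℓ / 2))) := by
        gcongr
    _ = 6400 * (pK k : ℝ) ^ 2 * (Real.exp (9242 / 10000 * ℓ) * (Real.exp (-ℓ / 2) * Real.exp (-ℓ / 2))) := by
        field_simp
        ring
    _ = 6400 * (pK k : ℝ) ^ 2 * Real.exp (-(758 / 10000) * ℓ) := by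
        rw [← Real.exp_add, ← Real.exp_add]
        congr 2
        ring
    _ ≤ Real.exp 10 * Real.exp (a / 50) * Real.exp (-(758 / 10000) * ℓ) := by
        gcongr
    _ = Real.exp (10 + a / 50 + -(758 / 10000) * ℓ) := by
        rw [Real.exp_add, Real.exp_add]
    _ ≤ Real.exp (-(1 / 40) * a) := by
        refine Real.exp_le_exp.2 ?_
        linarith
    _ = (k : ℝ) ^ (-(1 / 40) : ℝ) := by
        rw [Real.rpow_def_of_pos hk0]
        congr 1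
        ring

theorem num_phi_abs : ∃ k0 : ℕ, ∀ k : ℕ, k0 ≤ k → ∀ (p : ℕ) [Fact p.Prime], 3 ≤ p →
    PhiF p (pK k) (pY k) k ((pK k) ^ 3) (pM k) (pJ k) (1 / 2) beta ≤ (k : ℝ) ^ (5 : ℝ) := by
  obtain ⟨k0, h0⟩ := num1_par
  refine ⟨k0, fun k hk p _ hp => ?_⟩
  obtain ⟨h1, h2, h3, h4, h5, h6, h7, h8, h9, h10, h11, h12, h13⟩ := h0 k hk
  have hk0 : (0 : ℝ) < k := by
    rcases Nat.eq_zero_or_pos k with h | h
    · rw [h] at h6; norm_num at h6
    · exact_mod_cast h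
  have hL : Real.log ((pY k : ℝ) / pK k) = pL k := rfl
  set ℓ := pL k with hℓ
  set a := Real.log k with ha
  have hka : (k : ℝ) = Real.exp a := by rw [ha, Real.exp_log hk0]
  have hI : Real.exp ((Real.log ((pY k : ℝ) / pK k) + 3) / 2) ≤ k := by
    rw [hL, hka]
    refine Real.exp_le_exp.2 ?_
    linarith
  refine (num1_phi_abs_bound hp (pK k) (pY k) k ((pK k) ^ 3) (pM k) (pJ k) h1 h2 h3 h5 k hI).trans ?_
  have hK1 : (1 : ℝ) ≤ pK k := by exact_mod_cast h1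
  have g1 : (((pK k) ^ 3 : ℕ) : ℝ) + 1 ≤ k := by
    push_cast
    linarith
  have g2 : (2 : ℝ) ^ (pM k) ≤ k := by
    refine h12.trans ?_
    rw [hka]
    refine Real.exp_le_exp.2 ?_
    linarith
  have g3 : (200 : ℝ) ≤ k := by
    rw [hka]
    have := Real.add_one_le_exp a
    linarith
  have hk1 : (1 : ℝ) ≤ k := by linarith
  calc ((((pK k) ^ 3 : ℕ) : ℝ) + 1) * 200 * (2 ^ (pM k) * k) ≤ (k * k) * (k * k) := by
        gcongr
    _ = (k : ℝ) ^ 4 * 1 := by ring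
    _ ≤ (k : ℝ) ^ 4 * k := by gcongr
    _ = (k : ℝ) ^ (5 : ℝ) := by
        rw [show (5 : ℝ) = ((5 : ℕ) : ℝ) by norm_num, Real.rpow_natCast]
        ring

end Pool.H64.IR
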