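import Pool.Agent.H64.IR.DET
import Pool.Agent.H64.IR.PAR
import Pool.Agent.H64.IR.LBD

/-! MODULE NUM2 (project MP_a758cf_pr, IR; overview: team-store H64_a758cf.md)
OmF at beta: <= (esymm_le) L^J'/J'! / binom(M,J') <= (L/(M-J'+1))^J' (binom(M,J') J'! >= (M-J'+1)^J'), L <= l + 3 (lbd), l = pL k, M - J' + 1 >= 7/6 l,
J' >= l/6 - 1: <= ((6/7)(1+3/l))^J' <= (6/7)^(l/6-1) (1+3/l)^(l/6) <= (7/6) e^(1/2) exp(-(1/6) log(7/6) l), (1/6) log(7/6) = 0.02569, l >= 0.88 log k: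
exponent -0.0226; for k large <= k^(-1/50)/2. (For J' <= l/6; the base (6/7)(1+3/l) is < 1 for l > 18.)
-/

set_option autoImplicit false

namespace Pool.H64.IR

open Finset Polynomial

theorem num2_om_le {p : ℕ} [Fact p.Prime] (K y M J' : ℕ) (hJ : J' ≤ M) (L : ℝ)
    (hb : ∀ g ∈ RR p K y, 0 ≤ beta g) (hL : ∑ g ∈ RR p K y, beta g ≤ L) :
    OmF p K y M J' beta ≤ (L / ((M : ℝ) + 1 - J')) ^ J' := by
  classical
  unfold OmF
  have h1 := esymm_le (RR p K y) beta hb J'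
  have hS : 0 ≤ ∑ g ∈ RR p K y, beta g := Finset.sum_nonneg hb
  have h2 : (∑ g ∈ RR p K y, beta g) ^ J' ≤ L ^ J' := pow_le_pow_left₀ hS hL J'
  have hL0 : 0 ≤ L := hS.trans hL
  have hf : (0 : ℝ) < (Nat.factorial J' : ℝ) := by exact_mod_cast Nat.factorial_pos J'
  have hc : (0 : ℝ) < (Nat.choose M J' : ℝ) := by exact_mod_cast Nat.choose_pos hJ
  have hd0 : (0 : ℝ) < (M : ℝ) + 1 - J' := by
    have : (J' : ℝ) ≤ M := by exact_mod_cast hJ
    linarith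
  have hcast : (((M + 1 - J' : ℕ)) : ℝ) = (M : ℝ) + 1 - J' := by
    rw [Nat.cast_sub (by omega)]; push_cast; ring
  have h3 : ((M : ℝ) + 1 - J') ^ J' ≤ (Nat.factorial J' : ℝ) * (Nat.choose M J' : ℝ) := by
    have h4 := Nat.pow_sub_le_descFactorial M J'
    rw [Nat.descFactorial_eq_factorial_mul_choose] at h4
    rw [← hcast]
    exact_mod_cast h4
  calc (∑ G ∈ (RR p K y).powersetCard J', ∏ g ∈ G, beta g) / (Nat.choose M J' : ℝ)
      ≤ (L ^ J' / (Nat.factorial J' : ℝ)) / (Nat.choose M J' : ℝ) := by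
        refine div_le_div_of_nonneg_right (h1.trans ?_) hc.le
        exact div_le_div_of_nonneg_right h2 hf.le
    _ = L ^ J' / ((Nat.factorial J' : ℝ) * (Nat.choose M J' : ℝ)) := by rw [div_div]
    _ ≤ L ^ J' / ((M : ℝ) + 1 - J') ^ J' :=
        div_le_div_of_nonneg_left (pow_nonneg hL0 _) (pow_pos hd0 _) h3
    _ = _ := by rw [div_pow]

theorem num2_exp (l : ℝ) (hl : 21 ≤ l) (M J' : ℕ) (hM : 4 / 3 * l < (M : ℝ) + 1)
    (hJ1 : (J' : ℝ) ≤ l / 6) (hJ2 : l / 6 < (J' : ℝ) + 1) :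
    ((l + 3) / ((M : ℝ) + 1 - J')) ^ J' ≤ Real.exp (1 - l / 42) := by
  have hl0 : 0 < l := by linarith
  have hd : 7 / 6 * l ≤ (M : ℝ) + 1 - J' := by linarith
  have hr0 : 0 ≤ (l + 3) / ((M : ℝ) + 1 - J') := by
    apply div_nonneg (by linarith)
    linarith
  have hr1 : (l + 3) / ((M : ℝ) + 1 - J') ≤ (6 / 7) * (1 + 3 / l) := by
    have h1 : (l + 3) / ((M : ℝ) + 1 - J') ≤ (l + 3) / (7 / 6 * l) :=
      div_le_div_of_nonneg_left (by linarith) (by positivity) hd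
    refine h1.trans (le_of_eq ?_)
    field_simp
  have hr2 : (6 / 7) * (1 + 3 / l) ≤ Real.exp (-(1 / 7) + 3 / l) := by
    rw [Real.exp_add]
    have h2 : (6 / 7 : ℝ) ≤ Real.exp (-(1 / 7)) := by
      have := Real.add_one_le_exp (-(1 / 7) : ℝ)
      linarith
    have h3 : 1 + 3 / l ≤ Real.exp (3 / l) := by
      have := Real.add_one_le_exp (3 / l)
      linarith
    exact mul_le_mul h2 h3 (by positivity) (Real.exp_pos _).le
  have h4 : ((l + 3) / ((M : ℝ) + 1 - J')) ^ J' ≤ Real.exp (-(1 / 7) + 3 / l) ^ J' :=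
    pow_le_pow_left₀ hr0 (hr1.trans hr2) J'
  refine h4.trans ?_
  rw [← Real.exp_nat_mul]
  apply Real.exp_le_exp.2
  have h5 : 3 / l ≤ 1 / 7 := by
    rw [div_le_div_iff₀ hl0 (by norm_num)]
    linarith
  have h6 : (J' : ℝ) * (-(1 / 7) + 3 / l) ≤ (l / 6 - 1) * (-(1 / 7) + 3 / l) :=
    mul_le_mul_of_nonpos_right (by linarith) (by linarith)
  refine h6.trans ?_
  have h7 : l * (3 / l) = 3 := by field_simp
  have h8 : 0 ≤ 3 / l := by positivity
  nlinarith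

theorem num_om : ∃ k0 : ℕ, ∀ k : ℕ, k0 ≤ k → ∀ (p : ℕ) [Fact p.Prime], 3 ≤ p →
    OmF p (pK k) (pY k) (pM k) (pJ1 k) beta ≤ (k : ℝ) ^ (-(1 / 50) : ℝ) / 2 := by
  obtain ⟨k0, hk0⟩ := par_basic
  have hlog : ∀ᶠ k : ℕ in Filter.atTop, 2200 ≤ Real.log (k : ℝ) :=
    (Real.tendsto_log_atTop.comp tendsto_natCast_atTop_atTop).eventually
      (Filter.eventually_ge_atTop 2200)
  obtain ⟨k1, hk1⟩ := Filter.eventually_atTop.1 hlog
  refine ⟨max k0 (max k1 1), fun k hk p hp hp3 => ?_⟩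
  obtain ⟨h1, h2, h3, h4, h5, h6, h7, h8, h9, h10⟩ := hk0 k ((le_max_left _ _).trans hk)
  have hT := hk1 k ((le_max_left _ _).trans ((le_max_right _ _).trans hk))
  have hkpos : (0 : ℝ) < k := by
    exact_mod_cast (lt_of_lt_of_le one_pos ((le_max_right _ _).trans ((le_max_right _ _).trans hk)))
  have hb : ∀ g ∈ RR p (pK k) (pY k), 0 ≤ beta g := fun g hg => (beta_le hp3 _ _ g hg).1.le
  have hL : ∑ g ∈ RR p (pK k) (pY k), beta g ≤ pL k + 3 := by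
    have h := (abs_le.1 (lbd hp3 (pK k) (pY k) h1 h2)).2
    unfold pL
    linarith
  have hl : 21 ≤ pL k := by nlinarith
  have hom := num2_om_le (pK k) (pY k) (pM k) (pJ1 k) h4 (pL k + 3) hb hL
  refine hom.trans ?_
  have hM : 4 / 3 * pL k < (pM k : ℝ) + 1 := Nat.lt_floor_add_one _
  have hJ1 : (pJ1 k : ℝ) ≤ pL k / 6 := Nat.floor_le (by linarith)
  have hJ2 : pL k / 6 < (pJ1 k : ℝ) + 1 := Nat.lt_floor_add_one _
  refine (num2_exp (pL k) hl (pM k) (pJ1 k) hM hJ1 hJ2).trans ?_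
  have h11 : 1 - pL k / 42 ≤ -(1 / 50) * Real.log k + (-1) := by linarith
  refine (Real.exp_le_exp.2 h11).trans ?_
  rw [Real.exp_add, Real.rpow_def_of_pos hkpos, mul_comm (Real.log (k : ℝ))]
  have h12 : Real.exp (-1) ≤ 1 / 2 := by
    rw [Real.exp_neg, inv_le_comm₀ (Real.exp_pos _) (by norm_num)]
    have := Real.add_one_le_exp (1 : ℝ)
    linarith
  have h13 := Real.exp_pos (-(1 / 50) * Real.log k)
  calc Real.exp (-(1 / 50) * Real.log k) * Real.exp (-1)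
      ≤ Real.exp (-(1 / 50) * Real.log k) * (1 / 2) := mul_le_mul_of_nonneg_left h12 h13.le
    _ = _ := by ring

end Pool.H64.IR
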