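import Pool.Agent.H64.IR.SG5
import Pool.Agent.H64.IR.LGT

/-! MODULE SG6 (project MP_a758cf_pr, IR; overview: team-store H64_a758cf.md)
Lemma Sigma (weighted number of symmetric matrices of low rank). q = card F, kp = 1+(q-1)c1, so 1 < kp < q.
Choose tau > 0 with kp = q^(1-3 tau) or any tau with kp <= q^(1-3tau) (tau = (1 - log_q kp)/3). All further losses must be <= q^(tau n r).
Parameters: e = small (e <= tau log q/16), d from lgt_vec(e), eta <= 1 from lgt_set(e) and eta <= tau/16; theta <= 1 small, see (a).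
heavy(M) = {i : number of nonzero off-diagonal entries of row i > d n}.
(a) card heavy >= eta n (more precisely > eta n): wt M >= (eta n)(d n)/2 (each off-diagonal nonzero pair is counted in at most two rows), number of symmetric M of
rank r <= n^r q^(n r) (rk2); total <= n^r q^(nr) c1^(eta d n^2/2) <= 1/2 q^((1-tau) n r/2) as soon as r <= theta n with theta log q * 2 <= eta d log(1/c1)/4 and
n large.  (b) card heavy <= eta n: sum over H = heavy(M) (at most exp(e n) <= exp(e n r) sets, lgt_set) of sg5 with g = exp(e n):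
<= exp(e n r) (r+1)^3 n^(3r) exp(e n r) q^((1-3tau) n r/2) q^(2 eta n r) <= 1/2 q^((1-tau) n r/2) for n large (r <= n).
-/

set_option autoImplicit false

namespace Pool.H64.IR

open Finset Polynomial

lemma sg6_wt {n : ℕ} {F : Type} [Zero F] [DecidableEq F] (M : Matrix (Fin n) (Fin n) F)
    (hM : M.IsSymm) (S : Finset (Fin n)) :
    ∑ i ∈ S, (univ.filter fun j => j ≠ i ∧ M i j ≠ 0).card ≤ 2 * wt M := by
  have h1 : ∑ i ∈ S, (univ.filter fun j => j ≠ i ∧ M i j ≠ 0).card ≤
      ((univ : Finset (Fin n × Fin n)).filter fun x => x.2 ≠ x.1 ∧ M x.1 x.2 ≠ 0).card := by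
    rw [← Finset.card_sigma]
    refine Finset.card_le_card_of_injOn (fun x => (x.1, x.2)) ?_ ?_
    · intro x hx
      rw [Finset.mem_coe, Finset.mem_sigma, Finset.mem_filter] at hx
      exact Finset.mem_coe.2 (Finset.mem_filter.2 ⟨Finset.mem_univ _, hx.2.2⟩)
    · rintro ⟨a, b⟩ _ ⟨c, d⟩ _ h
      simpa using h
  have h2 : ((univ : Finset (Fin n × Fin n)).filter fun x => x.2 ≠ x.1 ∧ M x.1 x.2 ≠ 0) ⊆
      ((univ.filter fun e : Edge n => M e.1.1 e.1.2 ≠ 0).image fun e => (e.1.1, e.1.2)) ∪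
      ((univ.filter fun e : Edge n => M e.1.1 e.1.2 ≠ 0).image fun e => (e.1.2, e.1.1)) := by
    rintro ⟨i, j⟩ hx
    rw [Finset.mem_filter] at hx
    obtain ⟨-, hne, hM0⟩ := hx
    rw [Finset.mem_union, Finset.mem_image, Finset.mem_image]
    rcases lt_or_gt_of_ne hne with h | h
    · right
      refine ⟨⟨(j, i), h⟩, Finset.mem_filter.2 ⟨Finset.mem_univ _, ?_⟩, rfl⟩
      show M j i ≠ 0
      have h3 : M j i = M i j := hM.apply i j
      rw [h3]
      exact hM0
    · left
      exact ⟨⟨(i, j), h⟩, Finset.mem_filter.2 ⟨Finset.mem_univ _, hM0⟩, rfl⟩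
  have h3 := Finset.card_le_card h2
  have h4 := Finset.card_union_le
    ((univ.filter fun e : Edge n => M e.1.1 e.1.2 ≠ 0).image fun e => (e.1.1, e.1.2))
    ((univ.filter fun e : Edge n => M e.1.1 e.1.2 ≠ 0).image fun e => (e.1.2, e.1.1))
  have h5 : ((univ.filter fun e : Edge n => M e.1.1 e.1.2 ≠ 0).image
      fun e => (e.1.1, e.1.2)).card ≤ wt M := Finset.card_image_le
  have h6 : ((univ.filter fun e : Edge n => M e.1.1 e.1.2 ≠ 0).image
      fun e => (e.1.2, e.1.1)).card ≤ wt M := Finset.card_image_le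
  omega

lemma sg6_heavy {n : ℕ} {F : Type} [Zero F] [DecidableEq F] (M : Matrix (Fin n) (Fin n) F)
    (hM : M.IsSymm) (c1 d eta : ℝ) (h0 : 0 < c1) (h1 : c1 < 1) (hd : 0 < d) (heta : 0 < eta)
    (S : Finset (Fin n))
    (hS : ∀ i ∈ S, d * n ≤ ((univ.filter fun j => j ≠ i ∧ M i j ≠ 0).card : ℝ))
    (hc : eta * n ≤ (S.card : ℝ)) :
    c1 ^ wt M ≤ Real.exp (-(4 * (-Real.log c1 * eta * d / 8) * (n : ℝ) ^ 2)) := by
  have h2 : (S.card : ℝ) * (d * n) ≤ 2 * (wt M : ℝ) := by
    have h3 : ((∑ i ∈ S, (univ.filter fun j => j ≠ i ∧ M i j ≠ 0).card : ℕ) : ℝ) ≤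
        ((2 * wt M : ℕ) : ℝ) := by exact_mod_cast sg6_wt M hM S
    push_cast at h3
    refine le_trans ?_ h3
    rw [← nsmul_eq_mul, ← Finset.sum_const]
    exact Finset.sum_le_sum hS
  have h4 : eta * n * (d * n) ≤ (S.card : ℝ) * (d * n) :=
    mul_le_mul_of_nonneg_right hc (by positivity)
  have hlog : Real.log c1 < 0 := Real.log_neg h0 h1
  have h5 : c1 ^ wt M = Real.exp ((wt M : ℝ) * Real.log c1) := by
    rw [Real.exp_nat_mul, Real.exp_log h0]
  rw [h5]
  refine Real.exp_le_exp.2 ?_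
  have h6 : eta * n * (d * n) / 2 ≤ (wt M : ℝ) := by linarith
  have h7 := mul_le_mul_of_nonpos_right h6 hlog.le
  refine h7.trans (le_of_eq ?_)
  ring

lemma sg6_log (a b : ℝ) (ha : 0 < a) : ∃ N : ℕ, ∀ n : ℕ, N ≤ n → b + Real.log n ≤ a * n := by
  refine ⟨max 1 ⌈2 * (b - 1 + Real.log (2 / a)) / a⌉₊, fun n hn => ?_⟩
  have h1 : 1 ≤ n := (le_max_left _ _).trans hn
  have hn0 : (0 : ℝ) < n := by exact_mod_cast h1
  have h2 : 2 * (b - 1 + Real.log (2 / a)) / a ≤ n :=
    (Nat.le_ceil _).trans (by exact_mod_cast (le_max_right _ _).trans hn)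
  rw [div_le_iff₀ ha] at h2
  have h3 : Real.log n = Real.log (a * n / 2) + Real.log (2 / a) := by
    rw [← Real.log_mul (by positivity) (by positivity)]
    congr 1
    field_simp
  have h4 := Real.log_le_sub_one_of_pos (show (0 : ℝ) < a * n / 2 by positivity)
  linarith

/-- a natural power as an exponential -/
lemma sg6_pow {x : ℝ} (hx : 0 < x) (k : ℕ) : x ^ k = Real.exp (k * Real.log x) := by
  rw [Real.exp_nat_mul, Real.exp_log hx]

lemma sg6_bound_a {n r : ℕ} {q K theta tau : ℝ} (hn : 1 ≤ n) (hr : 1 ≤ r) (hq : 1 < q)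
    (hK : 0 < K) (htau : tau < 1) (hth : 0 < theta) (hth1 : theta ≤ 1)
    (hthK : theta * Real.log q ≤ K) (hrn : (r : ℝ) ≤ theta * n)
    (hlog : Real.log 2 + Real.log n ≤ K * n) :
    (n : ℝ) ^ r * (q ^ n) ^ r * Real.exp (-(4 * K * (n : ℝ) ^ 2)) ≤
      Real.exp ((1 - tau) * n * r / 2 * Real.log q) / 2 := by
  have hn0 : (0 : ℝ) < n := by exact_mod_cast hn
  have hn1 : (1 : ℝ) ≤ n := by exact_mod_cast hn
  have hr1 : (1 : ℝ) ≤ r := by exact_mod_cast hr
  have hLq : 0 < Real.log q := Real.log_pos hq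
  have hlogn : 0 ≤ Real.log n := Real.log_nonneg hn1
  have hlog2 : 0 < Real.log 2 := Real.log_pos (by norm_num)
  rw [sg6_pow hn0, ← pow_mul, sg6_pow (by linarith : 0 < q)]
  have h2 : Real.exp ((1 - tau) * n * r / 2 * Real.log q) / 2 =
      Real.exp ((1 - tau) * n * r / 2 * Real.log q - Real.log 2) := by
    rw [Real.exp_sub, Real.exp_log (by norm_num)]
  rw [h2, ← Real.exp_add, ← Real.exp_add]
  refine Real.exp_le_exp.2 ?_
  push_cast
  have hrn' : (r : ℝ) ≤ n := hrn.trans (by nlinarith)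
  have a1 : (r : ℝ) * Real.log n ≤ K * n ^ 2 - Real.log 2 := by
    have b1 : (r : ℝ) * (Real.log 2 + Real.log n) ≤ n * (K * n) := by
      refine mul_le_mul hrn' hlog (by positivity) hn0.le
    have b2 : 1 * Real.log 2 ≤ r * Real.log 2 := mul_le_mul_of_nonneg_right hr1 hlog2.le
    nlinarith
  have a2 : (n : ℝ) * r * Real.log q ≤ K * n ^ 2 := by
    have b1 : (r : ℝ) * (n * Real.log q) ≤ theta * n * (n * Real.log q) :=
      mul_le_mul_of_nonneg_right hrn (by positivity)
    have b2 : theta * Real.log q * n ^ 2 ≤ K * n ^ 2 :=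
      mul_le_mul_of_nonneg_right hthK (by positivity)
    nlinarith
  have a3 : 0 ≤ (1 - tau) * n * r / 2 * Real.log q := by
    have : 0 ≤ 1 - tau := by linarith
    positivity
  have a4 : 0 ≤ K * (n : ℝ) ^ 2 := by positivity
  linarith

lemma sg6_bound_b {n r h : ℕ} {q kp e eta tau : ℝ} (hn : 1 ≤ n) (hr : 1 ≤ r) (hq : 1 < q)
    (hkp : 1 < kp) (hkq : Real.log kp = (1 - 3 * tau) * Real.log q) (hh : (h : ℝ) ≤ eta * n)
    (he : e = tau * Real.log q / 8) (heta : eta ≤ tau / 8) (he0 : 0 < e)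
    (hlog : 4 + 3 * Real.log n ≤ tau * Real.log q / 2 * n) :
    Real.exp (e * n) * (((r : ℝ) + 1) ^ 3 * ((n : ℝ) ^ r * (Real.exp (e * n)) ^ r) * (n : ℝ) ^ r *
        (kp ^ ((n : ℝ) * r / 2)) * q ^ (r * h) * ((n : ℝ) ^ r * q ^ (r * h))) ≤
      Real.exp ((1 - tau) * n * r / 2 * Real.log q) / 2 := by
  have hn0 : (0 : ℝ) < n := by exact_mod_cast hn
  have hr1 : (1 : ℝ) ≤ r := by exact_mod_cast hr
  have hLq : 0 < Real.log q := Real.log_pos hq
  have hq0 : 0 < q := by linarith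
  have hr10 : (0 : ℝ) < (r : ℝ) + 1 := by linarith
  have h2 : Real.exp ((1 - tau) * n * r / 2 * Real.log q) / 2 =
      Real.exp ((1 - tau) * n * r / 2 * Real.log q - Real.log 2) := by
    rw [Real.exp_sub, Real.exp_log (by norm_num)]
  rw [h2, sg6_pow hn0, sg6_pow hr10, sg6_pow hq0, Real.rpow_def_of_pos (by linarith : 0 < kp),
    ← Real.exp_nat_mul]
  simp only [← Real.exp_add]
  refine Real.exp_le_exp.2 ?_
  push_cast
  rw [hkq]
  have a1 : Real.log ((r : ℝ) + 1) ≤ r := by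
    have := Real.log_le_sub_one_of_pos hr10
    linarith
  have a2 : Real.log 2 ≤ 1 := by
    have := Real.log_le_sub_one_of_pos (show (0 : ℝ) < 2 by norm_num)
    linarith
  have a3 : (r : ℝ) * h * Real.log q ≤ r * (eta * n) * Real.log q := by
    have : (r : ℝ) * h ≤ r * (eta * n) := mul_le_mul_of_nonneg_left hh (by positivity)
    exact mul_le_mul_of_nonneg_right this hLq.le
  have a4 : (r : ℝ) * (eta * n) * Real.log q ≤ r * (tau / 8 * n) * Real.log q := by
    have b1 : eta * (n : ℝ) ≤ tau / 8 * n := mul_le_mul_of_nonneg_right heta hn0.le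
    have : (r : ℝ) * (eta * n) ≤ r * (tau / 8 * n) := mul_le_mul_of_nonneg_left b1 (by positivity)
    exact mul_le_mul_of_nonneg_right this hLq.le
  have a5 : (r : ℝ) * (4 + 3 * Real.log n) ≤ r * (tau * Real.log q / 2 * n) :=
    mul_le_mul_of_nonneg_left hlog (by positivity)
  have a6 : e * n ≤ r * (e * n) := le_mul_of_one_le_left (by positivity) hr1
  have a7 : (r : ℝ) * (e * n) = r * (tau * Real.log q / 8 * n) := by rw [he]
  nlinarith

theorem sigma {F : Type} [Field F] [Fintype F] [DecidableEq F] (c1 : ℝ) (h0 : 0 < c1) (h1 : c1 < 1) :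
    ∃ tau : ℝ, 0 < tau ∧ tau < 1 ∧ ∃ theta : ℝ, 0 < theta ∧ ∃ n0 : ℕ, ∀ n r : ℕ, n0 ≤ n → 1 ≤ r → (r : ℝ) ≤ theta * n →
      (∑ M : Matrix (Fin n) (Fin n) F, ind (M.IsSymm ∧ M.rank = r) * c1 ^ wt M) ≤
        (Fintype.card F : ℝ) ^ ((1 - tau) * n * r / 2) := by
  have hq : (1 : ℝ) < Fintype.card F := by exact_mod_cast Fintype.one_lt_card
  obtain ⟨q, hqdef⟩ : ∃ q : ℝ, q = Fintype.card F := ⟨_, rfl⟩
  rw [← hqdef] at hq
  have hkp1 : 1 < 1 + (q - 1) * c1 := by
    have : 0 < (q - 1) * c1 := mul_pos (by linarith) h0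
    linarith
  have hkpq : 1 + (q - 1) * c1 < q := by
    have : (q - 1) * c1 < (q - 1) * 1 := mul_lt_mul_of_pos_left h1 (by linarith)
    linarith
  have hLq : 0 < Real.log q := Real.log_pos hq
  have hLk : 0 < Real.log (1 + (q - 1) * c1) := Real.log_pos hkp1
  have hLkq : Real.log (1 + (q - 1) * c1) < Real.log q := Real.log_lt_log (by linarith) hkpq
  obtain ⟨tau, htau⟩ : ∃ tau : ℝ, tau = (1 - Real.log (1 + (q - 1) * c1) / Real.log q) / 3 :=
    ⟨_, rfl⟩
  have hkt : Real.log (1 + (q - 1) * c1) = (1 - 3 * tau) * Real.log q := by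
    rw [htau]
    field_simp
    ring
  have htau0 : 0 < tau := by
    rw [htau]
    have : Real.log (1 + (q - 1) * c1) / Real.log q < 1 := by
      rw [div_lt_one hLq]; exact hLkq
    linarith
  have htau1 : tau < 1 := by
    rw [htau]
    have : 0 < Real.log (1 + (q - 1) * c1) / Real.log q := by positivity
    linarith
  obtain ⟨e, he⟩ : ∃ e : ℝ, e = tau * Real.log q / 8 := ⟨_, rfl⟩
  have he0 : 0 < e := by rw [he]; positivity
  obtain ⟨d, hd, n1, hvec⟩ := lgt_vec F e he0
  obtain ⟨eta', heta', n2, hset⟩ := lgt_set e he0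
  obtain ⟨eta, heta, heta1, heta2⟩ : ∃ eta : ℝ, 0 < eta ∧ eta ≤ eta' ∧ eta ≤ tau / 8 :=
    ⟨min eta' (tau / 8), lt_min heta' (by positivity), min_le_left _ _, min_le_right _ _⟩
  have hlogc : Real.log c1 < 0 := Real.log_neg h0 h1
  obtain ⟨K, hK⟩ : ∃ K : ℝ, K = -Real.log c1 * eta * d / 8 := ⟨_, rfl⟩
  have hK0 : 0 < K := by
    rw [hK]
    have : 0 < -Real.log c1 := by linarith
    positivity
  obtain ⟨theta, hth, hth1, hth2⟩ : ∃ theta : ℝ, 0 < theta ∧ theta ≤ 1 ∧ theta * Real.log q ≤ K := by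
    refine ⟨min 1 (K / Real.log q), lt_min one_pos (by positivity), min_le_left _ _, ?_⟩
    rw [← le_div_iff₀ hLq]
    exact min_le_right _ _
  obtain ⟨n3, hn3⟩ := sg6_log K (Real.log 2) hK0
  obtain ⟨n4, hn4⟩ := sg6_log (tau * Real.log q / 6) (4 / 3) (by positivity)
  refine ⟨tau, htau0, htau1, theta, hth, max (max n1 n2) (max n3 n4), ?_⟩
  intro n r hn hr hrn
  have m1 : n1 ≤ n := ((le_max_left _ _).trans (le_max_left _ _)).trans hn
  have m2 : n2 ≤ n := ((le_max_right _ _).trans (le_max_left _ _)).trans hn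
  have m3 := hn3 n (((le_max_left _ _).trans (le_max_right _ _)).trans hn)
  have m4 := hn4 n (((le_max_right _ _).trans (le_max_right _ _)).trans hn)
  have hn1 : 1 ≤ n := by
    rcases Nat.eq_zero_or_pos n with h | h
    · subst h
      have : (1 : ℝ) ≤ r := by exact_mod_cast hr
      norm_num at hrn
      linarith
    · exact h
  -- pointwise bound
  have hpt : ∀ M : Matrix (Fin n) (Fin n) F, ind (M.IsSymm ∧ M.rank = r) * c1 ^ wt M ≤
      ind (M.IsSymm ∧ M.rank = r ∧ ∀ i, M i ∈ (univ : Finset (Fin n → F))) *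
        Real.exp (-(4 * K * (n : ℝ) ^ 2)) +
      ∑ H : Finset (Fin n), ind ((H.card : ℝ) ≤ eta * n) *
        (ind (M.IsSymm ∧ M.rank = r ∧
          ∀ i, i ∉ H → ((univ.filter fun j => j ≠ i ∧ M i j ≠ 0).card : ℝ) ≤ d * n) *
          c1 ^ wt M) := by
    intro M
    have hpos : ∀ H : Finset (Fin n), 0 ≤ ind ((H.card : ℝ) ≤ eta * n) *
        (ind (M.IsSymm ∧ M.rank = r ∧
          ∀ i, i ∉ H → ((univ.filter fun j => j ≠ i ∧ M i j ≠ 0).card : ℝ) ≤ d * n) *
          c1 ^ wt M) := fun H =>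
      mul_nonneg (ind_nonneg _) (mul_nonneg (ind_nonneg _) (by positivity))
    by_cases hM : M.IsSymm ∧ M.rank = r
    · rw [ind_true hM, one_mul]
      set S : Finset (Fin n) := univ.filter
        (fun i => ¬ (((univ.filter fun j => j ≠ i ∧ M i j ≠ 0).card : ℝ) ≤ d * n)) with hS
      by_cases hc : (S.card : ℝ) ≤ eta * n
      · have h2 : c1 ^ wt M ≤ ∑ H : Finset (Fin n), ind ((H.card : ℝ) ≤ eta * n) *
            (ind (M.IsSymm ∧ M.rank = r ∧
              ∀ i, i ∉ H → ((univ.filter fun j => j ≠ i ∧ M i j ≠ 0).card : ℝ) ≤ d * n) *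
              c1 ^ wt M) := by
          refine le_trans (le_of_eq ?_) (Finset.single_le_sum (fun H _ => hpos H)
            (Finset.mem_univ S))
          rw [ind_true hc, ind_true, one_mul, one_mul]
          refine ⟨hM.1, hM.2, fun i hi => ?_⟩
          by_contra h3
          exact hi (Finset.mem_filter.2 ⟨Finset.mem_univ _, h3⟩)
        have h3 : 0 ≤ ind (M.IsSymm ∧ M.rank = r ∧ ∀ i, M i ∈ (univ : Finset (Fin n → F))) *
            Real.exp (-(4 * K * (n : ℝ) ^ 2)) := mul_nonneg (ind_nonneg _) (Real.exp_pos _).le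
        linarith
      · have h2 : c1 ^ wt M ≤ Real.exp (-(4 * K * (n : ℝ) ^ 2)) := by
          rw [hK]
          refine sg6_heavy M hM.1 c1 d eta h0 h1 hd heta S (fun i hi => ?_) (not_le.1 hc).le
          exact (not_le.1 (Finset.mem_filter.1 hi).2).le
        rw [ind_true (⟨hM.1, hM.2, fun i => Finset.mem_univ _⟩ :
          M.IsSymm ∧ M.rank = r ∧ ∀ i, M i ∈ (univ : Finset (Fin n → F))), one_mul]
        have h3 := Finset.sum_nonneg (s := (univ : Finset (Finset (Fin n)))) (fun H _ => hpos H)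
        linarith
    · rw [ind_false hM, zero_mul]
      exact add_nonneg (mul_nonneg (ind_nonneg _) (Real.exp_pos _).le)
        (Finset.sum_nonneg fun H _ => hpos H)
  have hsum := Finset.sum_le_sum (s := (univ : Finset (Matrix (Fin n) (Fin n) F)))
    (fun M _ => hpt M)
  rw [Finset.sum_add_distrib, ← Finset.sum_mul, Finset.sum_comm] at hsum
  refine hsum.trans ?_
  have hR : q ^ ((1 - tau) * n * r / 2) = Real.exp ((1 - tau) * n * r / 2 * Real.log q) := by
    rw [Real.rpow_def_of_pos (by linarith)]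
    congr 1
    ring
  rw [← hqdef, hR]
  -- part (a)
  have hA : (∑ M : Matrix (Fin n) (Fin n) F,
      ind (M.IsSymm ∧ M.rank = r ∧ ∀ i, M i ∈ (univ : Finset (Fin n → F)))) *
        Real.exp (-(4 * K * (n : ℝ) ^ 2)) ≤
      Real.exp ((1 - tau) * n * r / 2 * Real.log q) / 2 := by
    have h2 := rk2 (F := F) (ν := Fin n) univ r
    rw [Fintype.card_fin, Finset.card_univ, Fintype.card_fun, Fintype.card_fin] at h2
    push_cast at h2
    rw [← hqdef] at h2
    exact (mul_le_mul_of_nonneg_right h2 (Real.exp_pos _).le).trans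
      (sg6_bound_a hn1 hr hq hK0 htau1 hth hth1 hth2 hrn m3)
  -- part (b)
  have hB : ∑ H : Finset (Fin n), ∑ M : Matrix (Fin n) (Fin n) F,
      ind ((H.card : ℝ) ≤ eta * n) *
        (ind (M.IsSymm ∧ M.rank = r ∧
          ∀ i, i ∉ H → ((univ.filter fun j => j ≠ i ∧ M i j ≠ 0).card : ℝ) ≤ d * n) *
          c1 ^ wt M) ≤
      Real.exp ((1 - tau) * n * r / 2 * Real.log q) / 2 := by
    have h2 : ∀ H : Finset (Fin n), ∑ M : Matrix (Fin n) (Fin n) F,
      ind ((H.card : ℝ) ≤ eta * n) *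
        (ind (M.IsSymm ∧ M.rank = r ∧
          ∀ i, i ∉ H → ((univ.filter fun j => j ≠ i ∧ M i j ≠ 0).card : ℝ) ≤ d * n) *
          c1 ^ wt M) ≤ ind ((H.card : ℝ) ≤ eta * n) *
        ((Real.exp ((1 - tau) * n * r / 2 * Real.log q) / 2) / Real.exp (e * n)) := by
      intro H
      rw [← Finset.mul_sum]
      by_cases hH : (H.card : ℝ) ≤ eta * n
      · refine mul_le_mul_of_nonneg_left ?_ (ind_nonneg _)
        have hg1 : 1 ≤ Real.exp (e * n) := Real.one_le_exp (by positivity)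
        have hcardν : Fintype.card {i : Fin n // i ∉ H} ≤ n := by
          refine (Fintype.card_subtype_le _).trans ?_
          rw [Fintype.card_fin]
        have h3 := sg5 (F := F) n r hr c1 d (Real.exp (e * n)) h0 h1 H hg1
          (hvec n m1 {i : Fin n // i ∉ H} hcardν)
        rw [← hqdef] at h3
        refine h3.trans ?_
        rw [le_div_iff₀ (Real.exp_pos _), mul_comm]
        refine sg6_bound_b hn1 hr hq hkp1 hkt hH he heta2 he0 ?_
        linarith
      · rw [ind_false hH, zero_mul, zero_mul]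
    refine (Finset.sum_le_sum fun H _ => h2 H).trans ?_
    rw [← Finset.sum_mul]
    have h3 : ∑ H : Finset (Fin n), ind ((H.card : ℝ) ≤ eta * n) ≤ Real.exp (e * n) := by
      refine le_trans (Finset.sum_le_sum fun H _ => ?_) (hset n m2)
      refine ind_mono fun h => h.trans ?_
      exact mul_le_mul_of_nonneg_right heta1 (Nat.cast_nonneg _)
    have h4 : 0 ≤ Real.exp ((1 - tau) * n * r / 2 * Real.log q) / 2 / Real.exp (e * n) := by
      positivity
    refine (mul_le_mul_of_nonneg_right h3 h4).trans (le_of_eq ?_)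
    field_simp
  linarith

end Pool.H64.IR
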