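import Pool.Agent.H64.IR.NM3
import Pool.Agent.H64.IR.SG6

/-! MODULE ONE (project MP_a758cf_pr, IR; overview: team-store H64_a758cf.md)
One prime. D = p^(nk)/p^(k(k-1)/2), note (p^(nk)/p^(k(k+1)/2))/D = p^(-k).
(ii) lower bound: nc_zero_lower, (1-eps)^k >= 1 - k eps, k eps = 2 k sqrt(p)^n p^k/p^n <= exp(-c n) when k <= theta n, theta small.
(i): split M = 0 (nc_zero_upper) and M /= 0: symmetric, rank r in [1,2k] (else NC = 0), NC C M/D <= (1+eps)^k HC C p^(-k) p^(4 k s)/p^(n s), s = (r+1)/2 >= r/2, so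
p^(4ks - ns) <= p^(-(n-4k) r/2); sum over M of rank r by sigma (F = ZMod p, theta smaller): <= (1+eps)^k HC C p^(-k) p^((1-tau) n r/2 - (n-4k) r/2) =
(1+eps)^k HC C p^(-k) p^(-(tau n - 4k) r/2) <= (1+eps)^k HC C p^(-k) p^(-tau n r/4) for 8 k <= tau n; geometric sum over r.
-/

set_option autoImplicit false

namespace Pool.H64.IR

open Finset Polynomial

private lemma one_grow (a b : ℝ) (ha : 0 ≤ a) (hb : 0 < b) :
    ∃ n0 : ℕ, ∀ n : ℕ, n0 ≤ n → a * ((n : ℝ) + 1) ≤ Real.exp (b * n) := by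
  obtain ⟨N, hN⟩ := exists_nat_ge (4 * a / b ^ 2)
  refine ⟨N + 1, fun n hn => ?_⟩
  have h1 : (1 : ℝ) ≤ n := by exact_mod_cast (by omega : 1 ≤ n)
  have h2 : (N : ℝ) ≤ n := by exact_mod_cast (by omega : N ≤ n)
  have h3 : 4 * a ≤ n * b ^ 2 := by
    have := hN.trans h2
    rwa [div_le_iff₀ (by positivity)] at this
  have h4 := Real.quadratic_le_exp_of_nonneg (x := b * n) (by positivity)
  have h5 : a * ((n : ℝ) + 1) ≤ (b * n) ^ 2 / 2 := by
    have h7 : a * ((n : ℝ) + 1) ≤ a * (2 * n) :=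
      mul_le_mul_of_nonneg_left (by linarith) ha
    have h6 : 4 * a * n ≤ n * b ^ 2 * n := mul_le_mul_of_nonneg_right h3 (by linarith)
    have h8 : n * b ^ 2 * n = (b * n) ^ 2 := by ring
    linarith
  have : 0 ≤ b * n := by positivity
  linarith

private lemma one_pow (p m : ℕ) (hp : 1 < p) :
    (p : ℝ) ^ m = Real.exp (Real.log p * m) := by
  have hp0 : (0 : ℝ) < p := by exact_mod_cast (by omega : 0 < p)
  rw [mul_comm, Real.exp_nat_mul, Real.exp_log hp0]

private lemma one_eps (p n k : ℕ) (hp : 1 < p) :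
    eps p n k = 2 * Real.exp (Real.log p * (k - n / 2)) := by
  unfold eps
  have hp0 : (0 : ℝ) < p := by exact_mod_cast (by omega : 0 < p)
  have h1 : Real.sqrt p ^ n = Real.exp (Real.log p * (n / 2)) := by
    have h : Real.sqrt p = Real.exp (Real.log p / 2) := by
      rw [Real.sqrt_eq_rpow, Real.rpow_def_of_pos hp0]
      ring_nf
    rw [h, ← Real.exp_nat_mul]
    ring_nf
  rw [h1, one_pow p k hp, one_pow p n hp, mul_assoc, ← Real.exp_add, mul_div_assoc, ← Real.exp_sub]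
  congr 2
  ring

private lemma one_small (p : ℕ) (hp : 1 < p) :
    ∃ n0 : ℕ, ∀ n k : ℕ, n0 ≤ n → (k : ℝ) ≤ 1 / 8 * n →
      4 * k ≤ n ∧ ((k : ℝ) + 1) * eps p n k ≤ Real.exp (-(Real.log p / 4) * n) := by
  have hL : 0 < Real.log p := Real.log_pos (by exact_mod_cast hp)
  obtain ⟨n0, h0⟩ := one_grow 2 (Real.log p / 8) (by norm_num) (by positivity)
  refine ⟨n0, fun n k hn hk => ⟨?_, ?_⟩⟩
  · have : ((4 * k : ℕ) : ℝ) ≤ n := by
      push_cast
      have : (0 : ℝ) ≤ n := Nat.cast_nonneg n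
      linarith
    exact_mod_cast this
  · have hn0 : (0 : ℝ) ≤ n := Nat.cast_nonneg n
    have hk0 : (0 : ℝ) ≤ k := Nat.cast_nonneg k
    rw [one_eps p n k hp]
    have h1 : Real.exp (Real.log p * (k - n / 2)) ≤ Real.exp (-(3 / 8 * Real.log p * n)) := by
      apply Real.exp_le_exp.2
      have : (k : ℝ) - n / 2 ≤ -(3 / 8) * n := by linarith
      have := mul_le_mul_of_nonneg_left this hL.le
      linarith
    calc ((k : ℝ) + 1) * (2 * Real.exp (Real.log p * (k - n / 2)))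
        ≤ ((n : ℝ) + 1) * (2 * Real.exp (-(3 / 8 * Real.log p * n))) := by
          apply mul_le_mul
          · linarith
          · linarith
          · positivity
          · positivity
      _ = (2 * ((n : ℝ) + 1)) * Real.exp (-(3 / 8 * Real.log p * n)) := by ring
      _ ≤ Real.exp (Real.log p / 8 * n) * Real.exp (-(3 / 8 * Real.log p * n)) :=
          mul_le_mul_of_nonneg_right (h0 n hn) (Real.exp_pos _).le
      _ = Real.exp (-(Real.log p / 4) * n) := by
          rw [← Real.exp_add]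
          congr 1
          ring

private lemma one_HC_nonneg {p : ℕ} [Fact p.Prime] {k : ℕ} (C : Matrix (Fin k) (Fin k) (ZMod p)) :
    0 ≤ HC C := Finset.sum_nonneg fun _ _ => ind_nonneg _

private lemma one_D (p n k : ℕ) (hp : 1 < p) :
    (((p : ℝ) ^ n) ^ k / (p : ℝ) ^ (k * (k + 1) / 2)) =
      (((p : ℝ) ^ n) ^ k / (p : ℝ) ^ (k * (k - 1) / 2)) * (1 / (p : ℝ) ^ k) := by
  have hp0 : (0 : ℝ) < p := by exact_mod_cast (by omega : 0 < p)
  have h : k * (k + 1) / 2 = k * (k - 1) / 2 + k := by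
    have := Nat.triangle_succ k
    rw [Nat.add_sub_cancel] at this
    rw [mul_comm k (k + 1)]
    exact this
  rw [h, pow_add]
  field_simp

theorem one_lower {p : ℕ} [Fact p.Prime] (hp : p ≠ 2) :
    ∃ theta : ℝ, 0 < theta ∧ ∃ c : ℝ, 0 < c ∧ ∃ n0 : ℕ, ∀ n k : ℕ, n0 ≤ n → (k : ℝ) ≤ theta * n →
      ∀ C : Matrix (Fin k) (Fin k) (ZMod p),
      (1 - Real.exp (-c * n)) * (HC C / (p : ℝ) ^ k) ≤
        NC C (0 : Matrix (Fin n) (Fin n) (ZMod p)) / (((p : ℝ) ^ n) ^ k / (p : ℝ) ^ (k * (k - 1) / 2)) := by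
  have hp1 : 1 < p := (Fact.out : p.Prime).one_lt
  have hp0 : (0 : ℝ) < p := by exact_mod_cast (by omega : 0 < p)
  have hL : 0 < Real.log p := Real.log_pos (by exact_mod_cast hp1)
  obtain ⟨n0, h0⟩ := one_small p hp1
  refine ⟨1 / 8, by norm_num, Real.log p / 4, by positivity, n0, fun n k hn hk C => ?_⟩
  obtain ⟨h4, hs⟩ := h0 n k hn hk
  have he0 := eps_nonneg p n k
  have hk0 : (0 : ℝ) ≤ k := Nat.cast_nonneg k
  have hexp1 : Real.exp (-(Real.log p / 4) * n) ≤ 1 := by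
    rw [Real.exp_le_one_iff]
    have : 0 ≤ Real.log p / 4 * n := by positivity
    linarith
  have hke : (k : ℝ) * eps p n k ≤ Real.exp (-(Real.log p / 4) * n) := by nlinarith
  have he1 : eps p n k ≤ 1 := by nlinarith
  have hD : 0 < (((p : ℝ) ^ n) ^ k / (p : ℝ) ^ (k * (k - 1) / 2)) := by positivity
  have hH := one_HC_nonneg C
  have h := nc_zero_lower hp n k h4 he1 C
  rw [le_div_iff₀ hD]
  refine le_trans ?_ h
  rw [one_D p n k hp1]
  have hb : 1 - Real.exp (-(Real.log p / 4) * n) ≤ (1 - eps p n k) ^ k := by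
    have := one_add_mul_le_pow (a := -eps p n k) (by linarith) k
    rw [← sub_eq_add_neg] at this
    linarith
  have h1 : (1 - Real.exp (-(Real.log p / 4) * n)) * (HC C / (p : ℝ) ^ k) *
      (((p : ℝ) ^ n) ^ k / (p : ℝ) ^ (k * (k - 1) / 2)) =
      (1 - Real.exp (-(Real.log p / 4) * n)) * (HC C *
      ((((p : ℝ) ^ n) ^ k / (p : ℝ) ^ (k * (k - 1) / 2)) * (1 / (p : ℝ) ^ k))) := by ring
  rw [h1, mul_assoc ((1 - eps p n k) ^ k)]
  exact mul_le_mul_of_nonneg_right hb (by positivity)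

private lemma one_wt_zero (n p : ℕ) [Fact p.Prime] :
    wt (0 : Matrix (Fin n) (Fin n) (ZMod p)) = 0 := by
  unfold wt
  rw [Finset.card_eq_zero, Finset.filter_eq_empty_iff]
  intro e _ h
  exact h rfl

private lemma one_rank {p n : ℕ} [Fact p.Prime] (M : Matrix (Fin n) (Fin n) (ZMod p))
    (h : M.rank = 0) : M = 0 := by
  unfold Matrix.rank at h
  rw [Submodule.finrank_eq_zero, LinearMap.range_eq_bot] at h
  apply Matrix.toLin'.injective
  rw [Matrix.toLin'_apply', h, map_zero]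

/-- the pointwise bound -/
private lemma one_point {p : ℕ} [Fact p.Prime] (hp : p ≠ 2) (c1 : ℝ) (h0 : 0 < c1)
    (n k : ℕ) (hk : 4 * k ≤ n) (C : Matrix (Fin k) (Fin k) (ZMod p))
    (M : Matrix (Fin n) (Fin n) (ZMod p)) :
    c1 ^ wt M * (NC C M / (((p : ℝ) ^ n) ^ k / (p : ℝ) ^ (k * (k - 1) / 2))) ≤
      (1 + eps p n k) ^ k * (HC C / (p : ℝ) ^ k) *
        (ind (M = 0) + ∑ r ∈ Finset.Icc 1 (2 * k), (ind (M.IsSymm ∧ M.rank = r) * c1 ^ wt M) *
          ((p : ℝ) ^ (4 * k * ((r + 1) / 2)) / ((p : ℝ) ^ n) ^ ((r + 1) / 2))) := by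
  have hp1 : 1 < p := (Fact.out : p.Prime).one_lt
  have hp0 : (0 : ℝ) < p := by exact_mod_cast (by omega : 0 < p)
  have hH := one_HC_nonneg C
  have he0 := eps_nonneg p n k
  have hD : 0 < (((p : ℝ) ^ n) ^ k / (p : ℝ) ^ (k * (k - 1) / 2)) := by positivity
  have hterm : ∀ r ∈ Finset.Icc 1 (2 * k), 0 ≤ (ind (M.IsSymm ∧ M.rank = r) * c1 ^ wt M) *
      ((p : ℝ) ^ (4 * k * ((r + 1) / 2)) / ((p : ℝ) ^ n) ^ ((r + 1) / 2)) := by
    intro r _
    have := ind_nonneg (M.IsSymm ∧ M.rank = r)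
    positivity
  have hR0 : 0 ≤ (1 + eps p n k) ^ k * (HC C / (p : ℝ) ^ k) *
        (ind (M = 0) + ∑ r ∈ Finset.Icc 1 (2 * k), (ind (M.IsSymm ∧ M.rank = r) * c1 ^ wt M) *
          ((p : ℝ) ^ (4 * k * ((r + 1) / 2)) / ((p : ℝ) ^ n) ^ ((r + 1) / 2))) := by
    have h1 := ind_nonneg (M = 0)
    have h2 := Finset.sum_nonneg hterm
    have h3 : 0 ≤ 1 + eps p n k := by linarith
    positivity
  by_cases hM0 : M = 0
  · have h := nc_zero_upper hp n k hk C
    have h1 : NC C M / (((p : ℝ) ^ n) ^ k / (p : ℝ) ^ (k * (k - 1) / 2)) ≤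
        (1 + eps p n k) ^ k * (HC C / (p : ℝ) ^ k) := by
      rw [div_le_iff₀ hD, hM0]
      refine h.trans (le_of_eq ?_)
      rw [one_D p n k hp1]
      ring
    have h2 : c1 ^ wt M = 1 := by rw [hM0, one_wt_zero, pow_zero]
    refine (le_of_eq (by rw [h2, one_mul])).trans (h1.trans ?_)
    rw [ind_true hM0]
    have h3 := Finset.sum_nonneg hterm
    have h4 : 0 ≤ (1 + eps p n k) ^ k * (HC C / (p : ℝ) ^ k) := by
      have h3 : 0 ≤ 1 + eps p n k := by linarith
      positivity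
    calc (1 + eps p n k) ^ k * (HC C / (p : ℝ) ^ k)
        = (1 + eps p n k) ^ k * (HC C / (p : ℝ) ^ k) * 1 := (mul_one _).symm
      _ ≤ _ := mul_le_mul_of_nonneg_left (by linarith) h4
  by_cases hsymm : M.IsSymm
  swap
  · rw [nc_symm C M hsymm, zero_div, mul_zero]
    exact hR0
  by_cases hbig : 2 * k < M.rank
  · rw [nc_big C M hbig, zero_div, mul_zero]
    exact hR0
  have hr1 : 1 ≤ M.rank := by
    rw [Nat.one_le_iff_ne_zero]
    intro h
    exact hM0 (one_rank M h)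
  have h := nc_le hp n k hk C M hr1 (by omega)
  have h1 : NC C M / (((p : ℝ) ^ n) ^ k / (p : ℝ) ^ (k * (k - 1) / 2)) ≤
      (1 + eps p n k) ^ k * (HC C / (p : ℝ) ^ k) *
        ((p : ℝ) ^ (4 * k * ((M.rank + 1) / 2)) / ((p : ℝ) ^ n) ^ ((M.rank + 1) / 2)) := by
    rw [div_le_iff₀ hD]
    refine h.trans (le_of_eq ?_)
    rw [one_D p n k hp1]
    ring
  have hc : 0 < c1 ^ wt M := pow_pos h0 _
  have h2 : (ind (M.IsSymm ∧ M.rank = M.rank) * c1 ^ wt M) *
      ((p : ℝ) ^ (4 * k * ((M.rank + 1) / 2)) / ((p : ℝ) ^ n) ^ ((M.rank + 1) / 2)) ≤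
      ∑ r ∈ Finset.Icc 1 (2 * k), (ind (M.IsSymm ∧ M.rank = r) * c1 ^ wt M) *
          ((p : ℝ) ^ (4 * k * ((r + 1) / 2)) / ((p : ℝ) ^ n) ^ ((r + 1) / 2)) :=
    Finset.single_le_sum (f := fun r => (ind (M.IsSymm ∧ M.rank = r) * c1 ^ wt M) *
          ((p : ℝ) ^ (4 * k * ((r + 1) / 2)) / ((p : ℝ) ^ n) ^ ((r + 1) / 2))) hterm
      (Finset.mem_Icc.2 ⟨hr1, by omega⟩)
  rw [ind_true ⟨hsymm, rfl⟩, one_mul] at h2
  have h4 : 0 ≤ (1 + eps p n k) ^ k * (HC C / (p : ℝ) ^ k) := by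
    have h3 : 0 ≤ 1 + eps p n k := by linarith
    positivity
  calc c1 ^ wt M * (NC C M / (((p : ℝ) ^ n) ^ k / (p : ℝ) ^ (k * (k - 1) / 2)))
      ≤ c1 ^ wt M * ((1 + eps p n k) ^ k * (HC C / (p : ℝ) ^ k) *
        ((p : ℝ) ^ (4 * k * ((M.rank + 1) / 2)) / ((p : ℝ) ^ n) ^ ((M.rank + 1) / 2))) :=
        mul_le_mul_of_nonneg_left h1 hc.le
    _ = (1 + eps p n k) ^ k * (HC C / (p : ℝ) ^ k) * (c1 ^ wt M *
        ((p : ℝ) ^ (4 * k * ((M.rank + 1) / 2)) / ((p : ℝ) ^ n) ^ ((M.rank + 1) / 2))) := by ring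
    _ ≤ (1 + eps p n k) ^ k * (HC C / (p : ℝ) ^ k) * (ind (M = 0) +
        ∑ r ∈ Finset.Icc 1 (2 * k), (ind (M.IsSymm ∧ M.rank = r) * c1 ^ wt M) *
          ((p : ℝ) ^ (4 * k * ((r + 1) / 2)) / ((p : ℝ) ^ n) ^ ((r + 1) / 2))) := by
        refine mul_le_mul_of_nonneg_left ?_ h4
        have := ind_nonneg (M = 0)
        linarith

private lemma one_exp_le (x : ℝ) (h0 : 0 ≤ x) (h1 : x ≤ 1 / 2) : Real.exp x ≤ 1 + 2 * x := by
  have h2 := Real.add_one_le_exp (-x)
  have h3 : Real.exp x * Real.exp (-x) = 1 := by rw [← Real.exp_add]; simp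
  have h4 := Real.exp_pos x
  nlinarith

theorem one_upper {p : ℕ} [Fact p.Prime] (hp : p ≠ 2) (c1 : ℝ) (h0 : 0 < c1) (h1 : c1 < 1) :
    ∃ theta : ℝ, 0 < theta ∧ ∃ c : ℝ, 0 < c ∧ ∃ n0 : ℕ, ∀ n k : ℕ, n0 ≤ n → (k : ℝ) ≤ theta * n →
      ∀ C : Matrix (Fin k) (Fin k) (ZMod p),
      (∑ M : Matrix (Fin n) (Fin n) (ZMod p), c1 ^ wt M * (NC C M / (((p : ℝ) ^ n) ^ k / (p : ℝ) ^ (k * (k - 1) / 2)))) ≤
        (1 + Real.exp (-c * n)) * (HC C / (p : ℝ) ^ k) := by
  classical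
  have hp1 : 1 < p := (Fact.out : p.Prime).one_lt
  have hp0 : (0 : ℝ) < p := by exact_mod_cast (by omega : 0 < p)
  have hL : 0 < Real.log p := Real.log_pos (by exact_mod_cast hp1)
  obtain ⟨tau, ht0, ht1, th, hth, n1, hsig⟩ := sigma (F := ZMod p) c1 h0 h1
  obtain ⟨n2, hsmall⟩ := one_small p hp1
  obtain ⟨n3, hg3⟩ := one_grow 1 (Real.log p * tau / 8) (by norm_num) (by positivity)
  obtain ⟨n4, hg4⟩ := one_grow 5 (Real.log p * tau / 16) (by norm_num) (by positivity)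
  obtain ⟨n5, hg5⟩ := one_grow 2 (Real.log p / 4) (by norm_num) (by positivity)
  refine ⟨min (th / 2) (min (tau / 8) (1 / 8)), by positivity, Real.log p * tau / 16, by positivity,
    max (max n1 n2) (max n3 (max n4 n5)), fun n k hn hk C => ?_⟩
  have hn1 : n1 ≤ n := le_trans (le_trans (le_max_left _ _) (le_max_left _ _)) hn
  have hn2 : n2 ≤ n := le_trans (le_trans (le_max_right _ _) (le_max_left _ _)) hn
  have hn3 : n3 ≤ n := le_trans (le_trans (le_max_left _ _) (le_max_right _ _)) hn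
  have hn4 : n4 ≤ n := le_trans (le_trans (le_trans (le_max_left _ _) (le_max_right _ _)) (le_max_right _ _)) hn
  have hn5 : n5 ≤ n := le_trans (le_trans (le_trans (le_max_right _ _) (le_max_right _ _)) (le_max_right _ _)) hn
  have hnn : (0 : ℝ) ≤ n := Nat.cast_nonneg n
  have hkk : (0 : ℝ) ≤ k := Nat.cast_nonneg k
  have hk1 : (k : ℝ) ≤ th / 2 * n := hk.trans (mul_le_mul_of_nonneg_right (min_le_left _ _) hnn)
  have hk2 : (k : ℝ) ≤ tau / 8 * n :=
    hk.trans (mul_le_mul_of_nonneg_right ((min_le_right _ _).trans (min_le_left _ _)) hnn)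
  have hk3 : (k : ℝ) ≤ 1 / 8 * n :=
    hk.trans (mul_le_mul_of_nonneg_right ((min_le_right _ _).trans (min_le_right _ _)) hnn)
  obtain ⟨h4k, hs⟩ := hsmall n k hn2 hk3
  have he0 := eps_nonneg p n k
  have hH := one_HC_nonneg C
  have hA0 : 0 ≤ (1 + eps p n k) ^ k * (HC C / (p : ℝ) ^ k) := by
    have h3 : 0 ≤ 1 + eps p n k := by linarith
    positivity
  -- sum of the pointwise bounds
  have hsum : (∑ M : Matrix (Fin n) (Fin n) (ZMod p), c1 ^ wt M *
      (NC C M / (((p : ℝ) ^ n) ^ k / (p : ℝ) ^ (k * (k - 1) / 2)))) ≤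
      (1 + eps p n k) ^ k * (HC C / (p : ℝ) ^ k) *
        (1 + ∑ r ∈ Finset.Icc 1 (2 * k), (∑ M : Matrix (Fin n) (Fin n) (ZMod p),
          ind (M.IsSymm ∧ M.rank = r) * c1 ^ wt M) *
          ((p : ℝ) ^ (4 * k * ((r + 1) / 2)) / ((p : ℝ) ^ n) ^ ((r + 1) / 2))) := by
    refine (Finset.sum_le_sum fun M _ => one_point hp c1 h0 n k h4k C M).trans (le_of_eq ?_)
    rw [← Finset.mul_sum, Finset.sum_add_distrib, Finset.sum_comm]
    congr 2
    · have : ∀ M : Matrix (Fin n) (Fin n) (ZMod p), ind (M = 0) = if M = 0 then 1 else 0 := by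
        intro M
        by_cases h : M = 0
        · rw [ind_true h, if_pos h]
        · rw [ind_false h, if_neg h]
      rw [Finset.sum_congr rfl fun M _ => this M, Finset.sum_ite_eq' Finset.univ 0,
        if_pos (Finset.mem_univ _)]
    · refine Finset.sum_congr rfl fun r _ => ?_
      rw [Finset.sum_mul]
  -- the terms
  have hr : ∀ r ∈ Finset.Icc 1 (2 * k), (∑ M : Matrix (Fin n) (Fin n) (ZMod p),
      ind (M.IsSymm ∧ M.rank = r) * c1 ^ wt M) *
      ((p : ℝ) ^ (4 * k * ((r + 1) / 2)) / ((p : ℝ) ^ n) ^ ((r + 1) / 2)) ≤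
      Real.exp (-(Real.log p * tau / 4) * n) := by
    intro r hr
    rw [Finset.mem_Icc] at hr
    have hr1 : (1 : ℝ) ≤ r := by exact_mod_cast hr.1
    have hr2 : (r : ℝ) ≤ 2 * k := by exact_mod_cast hr.2
    have h := hsig n r hn1 hr.1 (by linarith)
    rw [ZMod.card] at h
    have hs2 : (r : ℝ) / 2 ≤ ((r + 1) / 2 : ℕ) := by
      have : r ≤ 2 * ((r + 1) / 2) := by omega
      have : (r : ℝ) ≤ 2 * ((r + 1) / 2 : ℕ) := by exact_mod_cast this
      linarith
    have hfrac : ((p : ℝ) ^ (4 * k * ((r + 1) / 2)) / ((p : ℝ) ^ n) ^ ((r + 1) / 2)) ≤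
        Real.exp (Real.log p * ((4 * k - n) * (r / 2))) := by
      rw [one_pow p _ hp1, ← pow_mul, one_pow p (n * _) hp1, ← Real.exp_sub]
      apply Real.exp_le_exp.2
      rw [← mul_sub]
      refine mul_le_mul_of_nonneg_left ?_ hL.le
      push_cast
      have h5 : (4 * (k : ℝ) - n) ≤ 0 := by
        have : ((4 * k : ℕ) : ℝ) ≤ n := by exact_mod_cast h4k
        push_cast at this
        linarith
      have h6 := mul_le_mul_of_nonpos_left hs2 h5
      linarith
    calc _ ≤ (p : ℝ) ^ ((1 - tau) * n * r / 2) * Real.exp (Real.log p * ((4 * k - n) * (r / 2))) :=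
          mul_le_mul h hfrac (by positivity) (by positivity)
      _ = Real.exp (Real.log p * ((4 * k - tau * n) * r / 2)) := by
          rw [Real.rpow_def_of_pos hp0, ← Real.exp_add]
          congr 1
          ring
      _ ≤ Real.exp (-(Real.log p * tau / 4) * n) := by
          apply Real.exp_le_exp.2
          have h7 : (4 * (k : ℝ) - tau * n) * r / 2 ≤ -(tau / 4 * n) := by
            have h8 : 4 * (k : ℝ) - tau * n ≤ -(tau / 2 * n) := by linarith
            have h9 : 0 ≤ tau / 2 * n := by positivity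
            nlinarith
          have := mul_le_mul_of_nonneg_left h7 hL.le
          linarith
  have hsumr : ∑ r ∈ Finset.Icc 1 (2 * k), (∑ M : Matrix (Fin n) (Fin n) (ZMod p),
      ind (M.IsSymm ∧ M.rank = r) * c1 ^ wt M) *
      ((p : ℝ) ^ (4 * k * ((r + 1) / 2)) / ((p : ℝ) ^ n) ^ ((r + 1) / 2)) ≤
      Real.exp (-(Real.log p * tau / 8) * n) := by
    refine (Finset.sum_le_sum hr).trans ?_
    rw [Finset.sum_const, Nat.card_Icc, Nat.add_sub_cancel, nsmul_eq_mul]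
    push_cast
    have h2k : 2 * (k : ℝ) ≤ 1 * ((n : ℝ) + 1) := by linarith
    calc 2 * (k : ℝ) * Real.exp (-(Real.log p * tau / 4) * n)
        ≤ Real.exp (Real.log p * tau / 8 * n) * Real.exp (-(Real.log p * tau / 4) * n) :=
          mul_le_mul_of_nonneg_right (h2k.trans (hg3 n hn3)) (Real.exp_pos _).le
      _ = Real.exp (-(Real.log p * tau / 8) * n) := by
          rw [← Real.exp_add]
          congr 1
          ring
  -- (1+eps)^k
  have ha : Real.exp (-(Real.log p / 4) * n) ≤ 1 / 2 := by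
    have h2 := hg5 n hn5
    have h3 : Real.exp (-(Real.log p / 4) * n) * Real.exp (Real.log p / 4 * n) = 1 := by
      rw [← Real.exp_add]
      have : -(Real.log p / 4) * n + Real.log p / 4 * n = 0 := by ring
      rw [this, Real.exp_zero]
    have h4 := Real.exp_pos (-(Real.log p / 4) * n)
    have h5 : 2 ≤ Real.exp (Real.log p / 4 * n) := by linarith
    nlinarith
  have hpow : (1 + eps p n k) ^ k ≤ 1 + 2 * Real.exp (-(Real.log p / 4) * n) := by
    have hke : (k : ℝ) * eps p n k ≤ Real.exp (-(Real.log p / 4) * n) := by nlinarith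
    have hke0 : 0 ≤ (k : ℝ) * eps p n k := by positivity
    have h2 : (1 + eps p n k) ^ k ≤ Real.exp (k * eps p n k) := by
      rw [Real.exp_nat_mul]
      refine pow_le_pow_left₀ (by linarith) ?_ k
      have := Real.add_one_le_exp (eps p n k)
      linarith
    have h3 := one_exp_le (k * eps p n k) hke0 (hke.trans ha)
    linarith
  have hab : Real.exp (-(Real.log p / 4) * n) ≤ Real.exp (-(Real.log p * tau / 8) * n) := by
    apply Real.exp_le_exp.2
    refine mul_le_mul_of_nonneg_right ?_ hnn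
    nlinarith
  have hb1 : Real.exp (-(Real.log p * tau / 8) * n) ≤ 1 := by
    rw [Real.exp_le_one_iff]
    have : 0 ≤ Real.log p * tau / 8 * n := by positivity
    linarith
  have hb5 : 5 * Real.exp (-(Real.log p * tau / 8) * n) ≤ Real.exp (-(Real.log p * tau / 16) * n) := by
    have h2 : 5 ≤ Real.exp (Real.log p * tau / 16 * n) := by
      have := hg4 n hn4
      linarith
    calc 5 * Real.exp (-(Real.log p * tau / 8) * n)
        ≤ Real.exp (Real.log p * tau / 16 * n) * Real.exp (-(Real.log p * tau / 8) * n) :=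
          mul_le_mul_of_nonneg_right h2 (Real.exp_pos _).le
      _ = Real.exp (-(Real.log p * tau / 16) * n) := by
          rw [← Real.exp_add]
          congr 1
          ring
  have hHp : 0 ≤ HC C / (p : ℝ) ^ k := by positivity
  have ha0 := Real.exp_pos (-(Real.log p / 4) * n)
  have hb0 := Real.exp_pos (-(Real.log p * tau / 8) * n)
  calc _ ≤ _ := hsum
    _ ≤ (1 + eps p n k) ^ k * (HC C / (p : ℝ) ^ k) * (1 + Real.exp (-(Real.log p * tau / 8) * n)) :=
        mul_le_mul_of_nonneg_left (by linarith) hA0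
    _ ≤ (1 + 2 * Real.exp (-(Real.log p / 4) * n)) * (HC C / (p : ℝ) ^ k) *
        (1 + Real.exp (-(Real.log p * tau / 8) * n)) := by
        refine mul_le_mul_of_nonneg_right ?_ (by linarith)
        exact mul_le_mul_of_nonneg_right hpow hHp
    _ = ((1 + 2 * Real.exp (-(Real.log p / 4) * n)) *
        (1 + Real.exp (-(Real.log p * tau / 8) * n))) * (HC C / (p : ℝ) ^ k) := by ring
    _ ≤ (1 + Real.exp (-(Real.log p * tau / 16) * n)) * (HC C / (p : ℝ) ^ k) := by
        refine mul_le_mul_of_nonneg_right ?_ hHp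
        nlinarith

end Pool.H64.IR
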