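import Pool.Agent.H64.IR.Defs

/-! MODULE POL (project MP_a758cf_pr, IR; overview: team-store H64_a758cf.md)
Finite sets of polynomials over ZMod p. Mon p m: monic of degree m (p^m of them). Irr p m: the irreducible ones. Smo p K m: those all of whose monic irreducible factors have
degree <= K. RR p K k: monic irreducibles g with K < deg g <= k.
-/

set_option autoImplicit false

namespace Pool.H64.IR

open Finset Polynomial

/-- monic polynomials of degree m over ZMod p -/
noncomputable def Mon (p m : ℕ) [Fact p.Prime] : Finset (ZMod p)[X] :=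
  (Finset.univ : Finset (Fin m → ZMod p)).image (fun c => X ^ m + ∑ i : Fin m, C (c i) * X ^ (i : ℕ))

private theorem pol_deg {p m : ℕ} [Fact p.Prime] (c : Fin m → ZMod p) :
    (∑ i : Fin m, C (c i) * X ^ (i : ℕ) : (ZMod p)[X]).degree < (m : WithBot ℕ) := by
  exact Polynomial.degree_sum_fin_lt c

private theorem pol_coeff {p m : ℕ} [Fact p.Prime] (c : Fin m → ZMod p) (j : Fin m) :
    (X ^ m + ∑ i : Fin m, C (c i) * X ^ (i : ℕ) : (ZMod p)[X]).coeff j = c j := by
  rw [Polynomial.coeff_add, Polynomial.finsetSum_coeff, Polynomial.coeff_X_pow,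
    if_neg (Nat.ne_of_lt j.2), zero_add]
  simp only [Polynomial.coeff_C_mul, Polynomial.coeff_X_pow]
  rw [Finset.sum_eq_single j]
  · simp
  · intro b _ hb
    rw [if_neg (fun h => hb (Fin.ext h.symm)), mul_zero]
  · intro h; exact absurd (Finset.mem_univ _) h

theorem mem_mon {p m : ℕ} [Fact p.Prime] (f : (ZMod p)[X]) : f ∈ Mon p m ↔ f.Monic ∧ f.natDegree = m := by
  unfold Mon
  simp only [Finset.mem_image, Finset.mem_univ, true_and]
  constructor
  · rintro ⟨c, rfl⟩
    have hd := pol_deg c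
    refine ⟨Polynomial.monic_X_pow_add hd, ?_⟩
    rw [Polynomial.natDegree_add_eq_left_of_degree_lt (by rw [Polynomial.degree_X_pow]; exact hd),
      Polynomial.natDegree_X_pow]
  · rintro ⟨hm, hd⟩
    refine ⟨fun i => f.coeff i, ?_⟩
    conv_rhs => rw [hm.as_sum, hd]
    rw [Finset.sum_range (fun i => C (f.coeff i) * X ^ i)]

theorem card_mon (p m : ℕ) [Fact p.Prime] : (Mon p m).card = p ^ m := by
  unfold Mon
  rw [Finset.card_image_of_injective]
  · rw [Finset.card_univ, Fintype.card_fun, ZMod.card, Fintype.card_fin]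
  · intro c d h
    funext j
    have h2 := congrArg (fun q : (ZMod p)[X] => q.coeff j) h
    simp only at h2
    rw [pol_coeff, pol_coeff] at h2
    exact h2

open Classical in
/-- monic irreducible polynomials of degree m -/
noncomputable def Irr (p m : ℕ) [Fact p.Prime] : Finset (ZMod p)[X] := (Mon p m).filter fun f => Irreducible f

theorem mem_irr {p m : ℕ} [Fact p.Prime] (f : (ZMod p)[X]) : f ∈ Irr p m ↔ f.Monic ∧ Irreducible f ∧ f.natDegree = m := by
  classical
  unfold Irr
  rw [Finset.mem_filter, mem_mon]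
  tauto

open Classical in
/-- monic polynomials of degree m all of whose irreducible factors have degree at most K -/
noncomputable def Smo (p K m : ℕ) [Fact p.Prime] : Finset (ZMod p)[X] :=
  (Mon p m).filter fun f => ∀ g : (ZMod p)[X], Irreducible g → g ∣ f → g.natDegree ≤ K

theorem mem_smo {p K m : ℕ} [Fact p.Prime] (f : (ZMod p)[X]) :
    f ∈ Smo p K m ↔ f.Monic ∧ f.natDegree = m ∧ ∀ g : (ZMod p)[X], Irreducible g → g ∣ f → g.natDegree ≤ K := by
  classical
  unfold Smo
  rw [Finset.mem_filter, mem_mon]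
  tauto

/-- monic irreducible polynomials with K < degree <= k -/
noncomputable def RR (p K k : ℕ) [Fact p.Prime] : Finset (ZMod p)[X] := (Finset.Ioc K k).biUnion fun m => Irr p m

theorem mem_rr {p K k : ℕ} [Fact p.Prime] (f : (ZMod p)[X]) :
    f ∈ RR p K k ↔ f.Monic ∧ Irreducible f ∧ K < f.natDegree ∧ f.natDegree ≤ k := by
  unfold RR
  simp only [Finset.mem_biUnion, Finset.mem_Ioc, mem_irr]
  constructor
  · rintro ⟨a, ⟨h1, h2⟩, h3, h4, h5⟩
    subst h5
    exact ⟨h3, h4, h1, h2⟩
  · rintro ⟨h1, h2, h3, h4⟩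
    exact ⟨f.natDegree, ⟨h3, h4⟩, h1, h2, rfl⟩

theorem sum_rr {p K k : ℕ} [Fact p.Prime] (φ : (ZMod p)[X] → ℝ) :
    ∑ f ∈ RR p K k, φ f = ∑ m ∈ Finset.Ioc K k, ∑ f ∈ Irr p m, φ f := by
  unfold RR
  rw [Finset.sum_biUnion]
  intro a _ b _ hab
  rw [Function.onFun, Finset.disjoint_left]
  intro f hf hg
  rw [mem_irr] at hf hg
  exact hab (hf.2.2.symm.trans hg.2.2)

end Pool.H64.IR
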