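import Pool.Agent.H64.IR.IRC

/-! MODULE SMC (project MP_a758cf_pr, IR; overview: team-store H64_a758cf.md)
Smooth polynomials: card (Smo p K m) <= exp(11) p^m exp(-m/K), K >= 1... With sigma_m = card(Smo p K m)/p^m, rec_smo gives m sigma_m = sum_j l_j sigma_{m-j}, l_j = L_j/p^j with
l_j <= 1 (irc_sum) and, for j > K, l_j <= p^(-j) sum_{d <= K} p^d <= 2 p^(K-j). Induction: claim sigma_i <= A e^{-i/K}, A = exp(11). If m <= e(K+3) + ... small the bound holds because
sigma_m <= 1 <= A e^{-m/K} when m <= 11 K (note e (K+3) <= 11 K for K >= 1: 4e = 10.87..). If m > 11 K >= e (K+3): m sigma_m <= A e^{-m/K} (sum_{j<=K} e^{j/K} + sum_{j>K} 2 p^(K-j) e^{j/K})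
<= A e^{-m/K} (K e + 2 e sum_{i>=1} p^{-i} e^{i/K}); for K = 1 the last sum may be large when p = 3 (e/3 = 0.906, sum 9.6), so assume K >= 2: sum_{i>=1} (e^{1/2}/3)^i = 0.55/0.45 = 1.22, total
<= e (K + 2.5) <= 11 K <= m. Done.
-/

set_option autoImplicit false

namespace Pool.H64.IR

open Finset Polynomial

private theorem smc_L (p K j : ℕ) [Fact p.Prime] (hj : 1 ≤ j) :
    ((∑ d ∈ (Nat.divisors j).filter (· ≤ K), d * (Irr p d).card : ℕ) : ℝ) ≤ (p : ℝ) ^ j := by
  have h1 : ∑ d ∈ (Nat.divisors j).filter (· ≤ K), d * (Irr p d).card ≤ p ^ j := by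
    rw [← irc_sum p j hj]
    exact Finset.sum_le_sum_of_subset (Finset.filter_subset _ _)
  exact_mod_cast h1

private theorem smc_geo (p : ℝ) (hp : 3 ≤ p) (K : ℕ) : ∑ d ∈ Finset.range (K + 1), p ^ d ≤ 2 * p ^ K := by
  induction K with
  | zero => simp
  | succ K ih =>
    rw [Finset.sum_range_succ]
    have h : 0 < p ^ K := by positivity
    rw [pow_succ p K]
    nlinarith

private theorem smc_L2 (p K j : ℕ) [Fact p.Prime] (hp : 3 ≤ p) :
    ((∑ d ∈ (Nat.divisors j).filter (· ≤ K), d * (Irr p d).card : ℕ) : ℝ) ≤ 2 * (p : ℝ) ^ K := by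
  refine le_trans ?_ (smc_geo (p : ℝ) (by exact_mod_cast hp) K)
  push_cast
  calc ∑ d ∈ (Nat.divisors j).filter (· ≤ K), ((d : ℝ) * ((Irr p d).card : ℝ))
      ≤ ∑ d ∈ (Nat.divisors j).filter (· ≤ K), (p : ℝ) ^ d := Finset.sum_le_sum fun d _ => irc_upper p d
    _ ≤ ∑ d ∈ Finset.range (K + 1), (p : ℝ) ^ d := by
        refine Finset.sum_le_sum_of_subset_of_nonneg ?_ (fun _ _ _ => by positivity)
        intro d hd
        rw [Finset.mem_filter] at hd
        rw [Finset.mem_range]
        have := hd.2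
        omega

private theorem smc_geo2 (t : ℕ) : ∑ i ∈ Finset.range t, (2 / 3 : ℝ) ^ (i + 1) ≤ 2 := by
  have h : ∀ t : ℕ, ∑ i ∈ Finset.range t, (2 / 3 : ℝ) ^ (i + 1) = 2 - 2 * (2 / 3) ^ t := by
    intro t
    induction t with
    | zero => simp
    | succ t ih => rw [Finset.sum_range_succ, ih, pow_succ]; ring
  rw [h]
  have : 0 < (2 / 3 : ℝ) ^ t := by positivity
  linarith

private theorem smc_key (L a b c d e : ℝ) (hb : b ≠ 0) : L * (a * c * (d * e)) = a * (c * b) * d * (L / b * e) := by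
  field_simp

theorem smc (p K m : ℕ) [Fact p.Prime] (hp : 3 ≤ p) (hK : 2 ≤ K) :
    ((Smo p K m).card : ℝ) ≤ Real.exp 11 * (p : ℝ) ^ m * Real.exp (-(m : ℝ) / K) := by
  have hp0 : (0 : ℝ) < p := by positivity
  have hp3 : (3 : ℝ) ≤ p := by exact_mod_cast hp
  have hK0 : (0 : ℝ) < K := by positivity
  have hK2 : (2 : ℝ) ≤ K := by exact_mod_cast hK
  induction m using Nat.strong_induction_on with
  | _ m ih =>
  by_cases hm : m ≤ 11 * K
  · have h1 : ((Smo p K m).card : ℝ) ≤ (p : ℝ) ^ m := by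
      have h2 : (Smo p K m).card ≤ p ^ m := by
        rw [← card_mon p m]
        refine Finset.card_le_card ?_
        intro f hf
        rw [mem_smo] at hf
        rw [mem_mon]
        exact ⟨hf.1, hf.2.1⟩
      exact_mod_cast h2
    refine h1.trans ?_
    have h3 : Real.exp 11 * (p : ℝ) ^ m * Real.exp (-(m : ℝ) / K) = (p : ℝ) ^ m * Real.exp (11 + -(m : ℝ) / K) := by
      rw [Real.exp_add]; ring
    rw [h3]
    have h4 : (1 : ℝ) ≤ Real.exp (11 + -(m : ℝ) / K) := by
      rw [← Real.exp_zero]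
      apply Real.exp_le_exp.2
      have h5 : (m : ℝ) ≤ 11 * K := by exact_mod_cast hm
      have h6 : (m : ℝ) / K ≤ 11 := by rw [div_le_iff₀ hK0]; exact h5
      have h7 : -(m : ℝ) / K = -((m : ℝ) / K) := by ring
      rw [h7]; linarith
    exact le_mul_of_one_le_right (by positivity) h4
  · push Not at hm
    obtain ⟨t, rfl⟩ : ∃ t, m = K + t := ⟨m - K, by omega⟩
    set M := K + t with hM
    have hrec := rec_smo p K M
    have hrec2 : (M : ℝ) * ((Smo p K M).card : ℝ) =
        ∑ j ∈ Finset.Icc 1 M, ((∑ d ∈ (Nat.divisors j).filter (· ≤ K), d * (Irr p d).card : ℕ) : ℝ) * ((Smo p K (M - j)).card : ℝ) := by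
      have := congrArg (fun x : ℕ => (x : ℝ)) hrec
      simp only [Nat.cast_mul, Nat.cast_sum] at this
      simpa only [Nat.cast_mul, Nat.cast_sum] using this
    -- bound each term
    set A : ℝ := Real.exp 11 * (p : ℝ) ^ M * Real.exp (-(M : ℝ) / K) with hA
    have hA0 : 0 < A := by rw [hA]; positivity
    set l : ℕ → ℝ := fun j => ((∑ d ∈ (Nat.divisors j).filter (· ≤ K), d * (Irr p d).card : ℕ) : ℝ) / (p : ℝ) ^ j * Real.exp ((j : ℝ) / K) with hl
    have hterm : ∀ j ∈ Finset.Icc 1 M, ((∑ d ∈ (Nat.divisors j).filter (· ≤ K), d * (Irr p d).card : ℕ) : ℝ) * ((Smo p K (M - j)).card : ℝ) ≤ A * l j := by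
      intro j hj
      rw [Finset.mem_Icc] at hj
      have h1 := ih (M - j) (by omega)
      refine (mul_le_mul_of_nonneg_left h1 (Nat.cast_nonneg _)).trans (le_of_eq ?_)
      have h2 : (p : ℝ) ^ M = (p : ℝ) ^ (M - j) * (p : ℝ) ^ j := by rw [← pow_add]; congr 1; omega
      have h3 : Real.exp (-((M - j : ℕ) : ℝ) / K) = Real.exp (-(M : ℝ) / K) * Real.exp ((j : ℝ) / K) := by
        rw [← Real.exp_add]
        congr 1
        rw [Nat.cast_sub hj.2]
        ring
      rw [hA, hl, h2, h3]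
      have h4 : (p : ℝ) ^ j ≠ 0 := by positivity
      exact smc_key _ _ _ _ _ _ h4
    have hl1 : ∀ i ∈ Finset.range K, l (i + 1) ≤ Real.exp 1 := by
      intro i hi
      rw [Finset.mem_range] at hi
      rw [hl]
      simp only
      have h1 : ((∑ d ∈ (Nat.divisors (i + 1)).filter (· ≤ K), d * (Irr p d).card : ℕ) : ℝ) / (p : ℝ) ^ (i + 1) ≤ 1 := by
        rw [div_le_one (by positivity)]
        exact smc_L p K (i + 1) (by omega)
      have h2 : Real.exp (((i + 1 : ℕ) : ℝ) / K) ≤ Real.exp 1 := by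
        apply Real.exp_le_exp.2
        rw [div_le_one hK0]
        exact_mod_cast hi
      calc _ ≤ 1 * Real.exp 1 := mul_le_mul h1 h2 (Real.exp_pos _).le zero_le_one
        _ = Real.exp 1 := one_mul _
    have hl2 : ∀ i ∈ Finset.range t, l (K + i + 1) ≤ 2 * Real.exp 1 * (2 / 3) ^ (i + 1) := by
      intro i _
      rw [hl]
      simp only
      have h1 := smc_L2 p K (K + i + 1) hp
      have h2 : ((∑ d ∈ (Nat.divisors (K + i + 1)).filter (· ≤ K), d * (Irr p d).card : ℕ) : ℝ) / (p : ℝ) ^ (K + i + 1) ≤ 2 / 3 ^ (i + 1) := by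
        rw [div_le_div_iff₀ (by positivity) (by positivity)]
        have h3 : (p : ℝ) ^ (K + i + 1) = (p : ℝ) ^ K * (p : ℝ) ^ (i + 1) := by rw [← pow_add]; congr 1
        rw [h3]
        have h4 : (3 : ℝ) ^ (i + 1) ≤ (p : ℝ) ^ (i + 1) := pow_le_pow_left₀ (by norm_num) hp3 _
        calc _ ≤ (2 * (p : ℝ) ^ K) * (p : ℝ) ^ (i + 1) := mul_le_mul h1 h4 (by positivity) (by positivity)
          _ = _ := by ring
      have h5 : Real.exp (((K + i + 1 : ℕ) : ℝ) / K) ≤ Real.exp 1 * 2 ^ (i + 1) := by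
        have h6 : ((K + i + 1 : ℕ) : ℝ) / K = 1 + ((i + 1 : ℕ) : ℝ) * (1 / K) := by
          push_cast; field_simp; ring
        rw [h6, Real.exp_add, Real.exp_nat_mul]
        refine mul_le_mul_of_nonneg_left ?_ (Real.exp_pos _).le
        refine pow_le_pow_left₀ (Real.exp_pos _).le ?_ _
        have h7 : Real.exp (1 / K) ≤ Real.exp (1 / 2) := by
          apply Real.exp_le_exp.2
          exact one_div_le_one_div_of_le (by norm_num) hK2
        refine h7.trans ?_
        have h8 : Real.exp (1 / 2) ^ 2 = Real.exp 1 := by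
          rw [← Real.exp_nat_mul]; norm_num
        have h9 : Real.exp 1 < 2.7182818286 := Real.exp_one_lt_d9
        nlinarith [Real.exp_pos (1 / 2)]
      calc _ ≤ 2 / 3 ^ (i + 1) * (Real.exp 1 * 2 ^ (i + 1)) := mul_le_mul h2 h5 (Real.exp_pos _).le (by positivity)
        _ = _ := by rw [div_pow]; ring
    have hsum : ∑ j ∈ Finset.Icc 1 M, l j ≤ (K + 4) * Real.exp 1 := by
      have h1 : ∑ j ∈ Finset.Icc 1 M, l j = ∑ i ∈ Finset.range M, l (i + 1) := by
        rw [Finset.sum_bij (fun j _ => j - 1)]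
        · intro a ha
          rw [Finset.mem_Icc] at ha
          rw [Finset.mem_range]; omega
        · intro a ha b hb hab
          rw [Finset.mem_Icc] at ha hb
          omega
        · intro b hb
          rw [Finset.mem_range] at hb
          exact ⟨b + 1, by rw [Finset.mem_Icc]; omega, by simp⟩
        · intro a ha
          rw [Finset.mem_Icc] at ha
          congr 1
          omega
      rw [h1, hM, Finset.sum_range_add]
      have h2 : ∑ i ∈ Finset.range K, l (i + 1) ≤ K * Real.exp 1 := by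
        refine (Finset.sum_le_sum hl1).trans ?_
        rw [Finset.sum_const, Finset.card_range, nsmul_eq_mul]
      have h3 : ∑ i ∈ Finset.range t, l (K + i + 1) ≤ 4 * Real.exp 1 := by
        refine (Finset.sum_le_sum hl2).trans ?_
        rw [← Finset.mul_sum]
        have h4 := smc_geo2 t
        nlinarith [Real.exp_pos 1]
      linarith
    have hfin : (M : ℝ) * ((Smo p K M).card : ℝ) ≤ A * M := by
      rw [hrec2]
      refine (Finset.sum_le_sum hterm).trans ?_
      rw [← Finset.mul_sum]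
      refine mul_le_mul_of_nonneg_left (hsum.trans ?_) hA0.le
      have h1 : (11 : ℝ) * K < M := by exact_mod_cast hm
      have h9 : Real.exp 1 < 2.7182818286 := Real.exp_one_lt_d9
      nlinarith
    have hM0 : (0 : ℝ) < M := by
      have : 0 < M := by omega
      exact_mod_cast this
    rw [mul_comm A] at hfin
    exact le_of_mul_le_mul_left hfin hM0

end Pool.H64.IR
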