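import Pool.Agent.H64.IR.UNI
import Pool.Agent.H64.IR.CMP1
import Pool.Agent.H64.IR.HCM1

/-! MODULE X1U (project MP_a758cf_pr, IR; overview: team-store H64_a758cf.md)
Single prime: avg X1 f (adj b) <= 2 for every monic f of degree <= theta n (uni with one prime, cmp1, hcm1).
-/

set_option autoImplicit false

namespace Pool.H64.IR

open Finset Polynomial

theorem x1_avg {p : ℕ} [Fact p.Prime] (hp : p ≠ 2) :
    ∃ theta : ℝ, 0 < theta ∧ ∃ n0 : ℕ, ∀ n : ℕ, n0 ≤ n → ∀ f : (ZMod p)[X], f.Monic → (f.natDegree : ℝ) ≤ theta * n →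
      avg (fun b : Edge n → Bool => X1 f (adj (ZMod p) b)) ≤ 2 := by
  obtain ⟨theta, hth, c, hc, n0, h⟩ := uni_gen (ι := Unit) (fun _ => p) (fun _ => hp)
    (fun a b _ => Subsingleton.elim a b)
  refine ⟨theta, hth, n0, fun n hn f hf hdeg => ?_⟩
  have h1 := h n hn (fun _ => Fin f.natDegree) (fun _ => by rw [Fintype.card_fin]; exact hdeg)
    (fun _ => comp f)
  have hp0 : (0 : ℝ) < (p : ℝ) ^ f.natDegree :=
    pow_pos (by exact_mod_cast (Fact.out : p.Prime).pos) _
  simp only [Finset.univ_unique, Finset.prod_singleton, cmp1 f hf, hcm1 f hf, Fintype.card_fin,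
    div_self hp0.ne', mul_one] at h1
  have h2 : Real.exp (-c * n) ≤ 1 := by
    rw [Real.exp_le_one_iff]
    have : (0 : ℝ) ≤ n := Nat.cast_nonneg n
    nlinarith
  have h3 := (abs_le.1 h1).2
  linarith

end Pool.H64.IR
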