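import Pool.Agent.H64.IR.SM1
import Pool.Agent.H64.IR.SMC
import Pool.Agent.H64.IR.X1U

/-! MODULE SM2 (project MP_a758cf_pr, IR; overview: team-store H64_a758cf.md)
Probability that charpoly mod p has a K-smooth divisor of degree >= D := K^3: Markov with sm1, x1_avg:
<= 2 sum_{m <= D+K} card(Smo p K m)/p^D. Terms m <= D/2: <= 2 (D+1) p^(D/2)/p^D (card Smo <= p^m). Terms D/2 < m <= D+K: <= 2 p^K exp(11) exp(-D/(2K)) each (smc) =
2 exp(11) exp(K log p - K^2/2). For K >= K0(p) everything is <= exp(-K).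
-/

set_option autoImplicit false

namespace Pool.H64.IR

open Finset Polynomial

private theorem sm2_x1_nonneg {p : ℕ} [Fact p.Prime] {n : ℕ} (f : (ZMod p)[X]) (A : Matrix (Fin n) (Fin n) (ZMod p)) :
    0 ≤ X1 f A := by
  unfold X1
  exact Finset.sum_nonneg fun _ _ => ind_nonneg _

private theorem sm2_num (p K : ℕ) (hp : 3 ≤ p) (hK : p + 15 ≤ K) :
    ((K ^ 3 + K + 1 : ℕ) : ℝ) * (2 * (Real.exp 11 * ((p : ℝ) * Real.exp (-1 / (K : ℝ))) ^ (K ^ 3 + K))) / (p : ℝ) ^ (K ^ 3)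
      ≤ Real.exp (-(K : ℝ)) := by
  have hp0 : (0 : ℝ) < p := by positivity
  have hK0 : (0 : ℝ) < K := by
    have : 0 < K := by omega
    exact_mod_cast this
  have hpK : (p : ℝ) + 15 ≤ K := by exact_mod_cast hK
  have h1 : ((p : ℝ) * Real.exp (-1 / (K : ℝ))) ^ (K ^ 3 + K) = (p : ℝ) ^ (K ^ 3) * (p : ℝ) ^ K * Real.exp (-((K : ℝ) ^ 2 + 1)) := by
    rw [mul_pow, ← Real.exp_nat_mul, pow_add]
    congr 2
    push_cast
    field_simp
  rw [h1]
  have h2 : (p : ℝ) ^ K ≤ Real.exp (p * K) := by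
    have h3 : (p : ℝ) ≤ Real.exp p := (le_of_lt (lt_add_one _)).trans (Real.add_one_le_exp _)
    calc (p : ℝ) ^ K ≤ (Real.exp p) ^ K := pow_le_pow_left₀ hp0.le h3 K
      _ = Real.exp (p * K) := by rw [← Real.exp_nat_mul]; ring_nf
  have h4 : ((K ^ 3 + K + 1 : ℕ) : ℝ) ≤ Real.exp (3 * K) := by
    have h5 : (K : ℝ) + 1 ≤ Real.exp K := Real.add_one_le_exp _
    calc ((K ^ 3 + K + 1 : ℕ) : ℝ) ≤ ((K : ℝ) + 1) ^ 3 := by push_cast; nlinarith [sq_nonneg (K : ℝ)]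
      _ ≤ (Real.exp K) ^ 3 := pow_le_pow_left₀ (by positivity) h5 3
      _ = Real.exp (3 * K) := by rw [← Real.exp_nat_mul]; norm_num
  have h6 : (2 : ℝ) ≤ Real.exp 1 := by
    have := Real.add_one_le_exp (1 : ℝ); linarith
  calc ((K ^ 3 + K + 1 : ℕ) : ℝ) * (2 * (Real.exp 11 * ((p : ℝ) ^ (K ^ 3) * (p : ℝ) ^ K * Real.exp (-((K : ℝ) ^ 2 + 1))))) / (p : ℝ) ^ (K ^ 3)
      = ((K ^ 3 + K + 1 : ℕ) : ℝ) * (2 * (Real.exp 11 * ((p : ℝ) ^ K * Real.exp (-((K : ℝ) ^ 2 + 1))))) := by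
        have h7 : (p : ℝ) ^ (K ^ 3) ≠ 0 := by positivity
        rw [div_eq_iff h7]; ring
    _ ≤ Real.exp (3 * K) * (Real.exp 1 * (Real.exp 11 * (Real.exp (p * K) * Real.exp (-((K : ℝ) ^ 2 + 1))))) := by
        gcongr
    _ = Real.exp (3 * K + (1 + (11 + (p * K + (-((K : ℝ) ^ 2 + 1)))))) := by
        rw [Real.exp_add, Real.exp_add, Real.exp_add, Real.exp_add]
    _ ≤ Real.exp (-(K : ℝ)) := by
        apply Real.exp_le_exp.2
        nlinarith [mul_le_mul_of_nonneg_left hpK hK0.le]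

theorem sm2 {p : ℕ} [Fact p.Prime] (hp : p ≠ 2) :
    ∃ theta : ℝ, 0 < theta ∧ ∃ n0 K0 : ℕ, ∀ n K : ℕ, n0 ≤ n → K0 ≤ K → ((K : ℝ) ^ 3 + K ≤ theta * n) →
      pr (fun b : Edge n → Bool => ∃ S : (ZMod p)[X], S.Monic ∧ (∀ g : (ZMod p)[X], Irreducible g → g ∣ S → g.natDegree ≤ K) ∧
        K ^ 3 ≤ S.natDegree ∧ S ∣ (adj (ZMod p) b).charpoly) ≤ Real.exp (-(K : ℝ)) := by
  obtain ⟨θ, hθ, n0, h⟩ := x1_avg (p := p) hp
  refine ⟨θ, hθ, n0, p + 15, ?_⟩
  intro n K hn hK hKn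
  have hp3 : 3 ≤ p := by
    have h1 : p.Prime := Fact.out
    have := h1.two_le
    omega
  have hp0 : (0 : ℝ) < p := by positivity
  have hK0 : (0 : ℝ) < K := by
    have : 0 < K := by omega
    exact_mod_cast this
  have hK1 : (1 : ℝ) ≤ K := by
    have : 1 ≤ K := by omega
    exact_mod_cast this
  refine (pr_markov _ (fun b : Edge n → Bool => ∑ m ∈ Finset.range (K ^ 3 + K + 1), ∑ f ∈ Smo p K m, X1 f (adj (ZMod p) b))
    (fun b => Finset.sum_nonneg fun m _ => Finset.sum_nonneg fun f _ => sm2_x1_nonneg f _)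
    ((p : ℝ) ^ (K ^ 3)) (by positivity) ?_).trans ?_
  · rintro b ⟨S, hS, hSK, hSD, hSd⟩
    exact sm1 (adj (ZMod p) b) K (K ^ 3) S hS hSK hSD hSd
  refine le_trans ?_ (sm2_num p K hp3 hK)
  refine div_le_div_of_nonneg_right ?_ (by positivity)
  have h1 : avg (fun b : Edge n → Bool => ∑ m ∈ Finset.range (K ^ 3 + K + 1), ∑ f ∈ Smo p K m, X1 f (adj (ZMod p) b)) =
      ∑ m ∈ Finset.range (K ^ 3 + K + 1), ∑ f ∈ Smo p K m, avg (fun b : Edge n → Bool => X1 f (adj (ZMod p) b)) := by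
    rw [avg_sum (Finset.range (K ^ 3 + K + 1)) (fun m (b : Edge n → Bool) => ∑ f ∈ Smo p K m, X1 f (adj (ZMod p) b))]
    refine Finset.sum_congr rfl fun m _ => ?_
    exact avg_sum (Smo p K m) (fun f (b : Edge n → Bool) => X1 f (adj (ZMod p) b))
  rw [h1]
  have hr : (1 : ℝ) ≤ (p : ℝ) * Real.exp (-1 / (K : ℝ)) := by
    have h2 : Real.exp (-1) ≤ Real.exp (-1 / (K : ℝ)) := by
      apply Real.exp_le_exp.2
      rw [le_div_iff₀ hK0]; linarith
    have h3 : Real.exp (-1) * Real.exp 1 = 1 := by rw [← Real.exp_add]; norm_num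
    have h4 : Real.exp 1 < 2.7182818286 := Real.exp_one_lt_d9
    have h5 : (3 : ℝ) ≤ p := by exact_mod_cast hp3
    have h6 : 0 < Real.exp (-1) := Real.exp_pos _
    calc (1 : ℝ) = Real.exp 1 * Real.exp (-1) := by rw [mul_comm]; exact h3.symm
      _ ≤ p * Real.exp (-1 / (K : ℝ)) := mul_le_mul (by linarith) h2 h6.le hp0.le
  have hterm : ∀ m ∈ Finset.range (K ^ 3 + K + 1), ∑ f ∈ Smo p K m, avg (fun b : Edge n → Bool => X1 f (adj (ZMod p) b)) ≤
      2 * (Real.exp 11 * ((p : ℝ) * Real.exp (-1 / (K : ℝ))) ^ (K ^ 3 + K)) := by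
    intro m hm
    rw [Finset.mem_range] at hm
    have h2 : ∀ f ∈ Smo p K m, avg (fun b : Edge n → Bool => X1 f (adj (ZMod p) b)) ≤ 2 := by
      intro f hf
      rw [mem_smo] at hf
      refine h n hn f hf.1 ?_
      rw [hf.2.1]
      refine le_trans ?_ hKn
      have : m ≤ K ^ 3 + K := by omega
      exact_mod_cast this
    refine (Finset.sum_le_sum h2).trans ?_
    rw [Finset.sum_const, nsmul_eq_mul, mul_comm]
    refine mul_le_mul_of_nonneg_left ?_ (by norm_num)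
    refine (smc p K m hp3 (by omega)).trans ?_
    have h3 : (p : ℝ) ^ m * Real.exp (-(m : ℝ) / K) = ((p : ℝ) * Real.exp (-1 / (K : ℝ))) ^ m := by
      rw [mul_pow, ← Real.exp_nat_mul]
      congr 2
      ring
    rw [mul_assoc, h3]
    refine mul_le_mul_of_nonneg_left ?_ (Real.exp_pos _).le
    exact pow_le_pow_right₀ hr (by omega)
  refine (Finset.sum_le_sum hterm).trans ?_
  rw [Finset.sum_const, Finset.card_range, nsmul_eq_mul]

end Pool.H64.IR
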