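import Pool.Agent.H64.IR.X1U
import Pool.Agent.H64.IR.PRM1

/-! MODULE SQF (project MP_a758cf_pr, IR; overview: team-store H64_a758cf.md)
Square factors are rare: pr(g^2 | charpoly) <= 8/q^2, q = p^(deg g), 2 deg g <= theta n.
Deterministic: if g^2 | charpoly A then kerc g A >= q^2 or X1 (g^2) A >= q^2 - q. [If g(A) kills every vector killed by a power of g, then the g-primary
component, of dimension >= 2 deg g, is ker g(A), so kerc g A = p^dim >= q^2. Otherwise there is z with annihilator g^e, e >= 2, so z' = g^(e-2)(A) z has annihilator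
g^2, and h(A) z' has annihilator g^2 for all h of degree < 2 deg g not divisible by g: q^2 - q different vectors.]
Dimension of the g-primary component: it is deg g times the multiplicity of g in charpoly; it is enough to show: g^2 | charpoly and ker g(A)^n = ker g(A) imply
p^(2 deg g) <= kerc g A (e.g. via charpoly of the restriction to ker g(A)^n and to the range).
Then Markov: pr <= avg (kerc g - 1)/(q^2-1) + avg X1(g^2)/(q^2-q) <= 2/(q^2-1) + 2/(q^2-q) <= 8/q^2 (q >= 2... q >= 3), kerc g - 1 = X1 g.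
-/

set_option autoImplicit false

namespace Pool.H64.IR

open Finset Polynomial

open Module.Basis in
theorem sqf_charpoly {R V : Type*} [Field R] [AddCommGroup V] [Module R V] [Module.Finite R V]
    (W : Submodule R V) (e : V →ₗ[R] V) (he : W ≤ W.comap e) :
    e.charpoly = (e.restrict he).charpoly * (W.mapQ W e he).charpoly := by
  let m := Module.Free.ChooseBasisIndex R W
  let bW : Module.Basis m R W := Module.Free.chooseBasis R W
  let n := Module.Free.ChooseBasisIndex R (V ⧸ W)
  let bQ : Module.Basis n R (V ⧸ W) := Module.Free.chooseBasis R (V ⧸ W)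
  let b := sumQuot bW bQ
  let A : Matrix m m R := LinearMap.toMatrix bW bW (e.restrict he)
  let B : Matrix m n R := Matrix.of fun i l ↦
    ((sumQuot bW bQ).repr (e ((sumQuot bW bQ) (Sum.inr l)))) (Sum.inl i)
  let D : Matrix n n R := LinearMap.toMatrix bQ bQ (W.mapQ W e he)
  suffices LinearMap.toMatrix b b e = Matrix.fromBlocks A B 0 D by
    rw [← LinearMap.charpoly_toMatrix e b, this, ← LinearMap.charpoly_toMatrix _ bW,
      ← LinearMap.charpoly_toMatrix _ bQ, Matrix.charpoly_fromBlocks_zero₂₁]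
  ext u v
  cases u with
  | inl i =>
    cases v with
    | inl k =>
      simp only [b, sumQuot_inl, Matrix.fromBlocks_apply₁₁, A, LinearMap.toMatrix_apply]
      apply sumQuot_repr_inl_of_mem
    | inr l => simp [b, LinearMap.toMatrix_apply, Matrix.fromBlocks_apply₁₂, B]
  | inr j =>
    cases v with
    | inl k =>
      suffices W.mkQ (e (bW k)) = 0 by simp [LinearMap.toMatrix_apply, b, this]
      rw [← LinearMap.mem_ker, Submodule.ker_mkQ]
      exact he (Submodule.coe_mem (bW k))
    | inr l =>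
      simp only [LinearMap.toMatrix_apply, sumQuot_repr_inr,
        Matrix.fromBlocks_apply₂₂, b, D]
      rw [← sumQuot_inr bW bQ l, W.mapQ_apply]
      simp

theorem sqf_mapQ {R V : Type*} [Field R] [AddCommGroup V] [Module R V]
    (W : Submodule R V) (e : V →ₗ[R] V) (he : W ≤ W.comap e) (g : R[X]) (v : V) :
    (aeval (W.mapQ W e he) g) (W.mkQ v) = W.mkQ (aeval e g v) := by
  induction g using Polynomial.induction_on' with
  | add a b ha hb => simp only [map_add, LinearMap.add_apply, ha, hb]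
  | monomial n a =>
    have hn : ∀ v : V, ((W.mapQ W e he) ^ n) (W.mkQ v) = W.mkQ ((e ^ n) v) := by
      induction n with
      | zero => intro v; rfl
      | succ n ih =>
        intro v
        rw [pow_succ, pow_succ, Module.End.mul_apply, Module.End.mul_apply]
        have h1 : (W.mapQ W e he) (W.mkQ v) = W.mkQ (e v) := rfl
        rw [h1, ih]
    rw [aeval_monomial, aeval_monomial, Module.End.mul_apply, Module.End.mul_apply, hn,
      Module.algebraMap_end_apply, Module.algebraMap_end_apply, map_smul]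

theorem sqf_sum_card {n p : ℕ} [Fact p.Prime] (P : (Fin n → ZMod p) → Prop) :
    ∑ z : Fin n → ZMod p, ind (P z) = (Nat.card {z // P z} : ℝ) := by
  classical
  unfold ind
  rw [Finset.sum_boole, Nat.card_eq_fintype_card, Fintype.card_subtype]

section act
variable {p : ℕ} [Fact p.Prime] {n : ℕ} (A : Matrix (Fin n) (Fin n) (ZMod p))

theorem sqf_act_mul (a b : (ZMod p)[X]) (z : Fin n → ZMod p) :
    (aeval A (a * b)).mulVec z = (aeval A a).mulVec ((aeval A b).mulVec z) := by
  rw [map_mul, Matrix.mulVec_mulVec]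

theorem sqf_ann {g : (ZMod p)[X]} (hi : Irreducible g) {z : Fin n → ZMod p}
    (h1 : (aeval A (g ^ 2)).mulVec z = 0) (h2 : (aeval A g).mulVec z ≠ 0) : IsAnn A z (g ^ 2) := by
  have key : ∀ u : (ZMod p)[X], ¬ g ∣ u → (aeval A (u * g)).mulVec z ≠ 0 := by
    intro u hu h3
    obtain ⟨a, b, hab⟩ := (hi.coprime_iff_not_dvd).2 hu
    apply h2
    have h4 : g = a * g ^ 2 + b * (u * g) := by
      calc g = (a * g + b * u) * g := by rw [hab, one_mul]
        _ = _ := by ring
    rw [h4, map_add, Matrix.add_mulVec, sqf_act_mul, h1, sqf_act_mul A b, h3]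
    simp
  intro h
  constructor
  · intro hh
    by_cases hg : g ∣ h
    · obtain ⟨h', rfl⟩ := hg
      by_cases hg' : g ∣ h'
      · obtain ⟨h'', rfl⟩ := hg'
        exact ⟨h'', by ring⟩
      · exact absurd (by rw [mul_comm]; exact hh) (key h' hg')
    · exfalso
      apply key h hg
      rw [mul_comm, sqf_act_mul, hh, Matrix.mulVec_zero]
  · rintro ⟨h', rfl⟩
    rw [mul_comm, sqf_act_mul, h1, Matrix.mulVec_zero]

theorem sqf_ann_mul {g : (ZMod p)[X]} (hi : Irreducible g) {z : Fin n → ZMod p}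
    (h1 : IsAnn A z (g ^ 2)) {c : (ZMod p)[X]} (hc : ¬ g ∣ c) :
    IsAnn A ((aeval A c).mulVec z) (g ^ 2) := by
  intro h
  rw [← sqf_act_mul, h1]
  have h2 : IsCoprime (g ^ 2) c := ((hi.coprime_iff_not_dvd).2 hc).pow_left
  exact ⟨fun h3 => h2.dvd_of_dvd_mul_right h3, fun h3 => h3.mul_right c⟩

end act

/-- polynomials of degree less than `m` -/
noncomputable def sqfD (p m : ℕ) [Fact p.Prime] : Finset (ZMod p)[X] :=
  (Finset.univ : Finset (Fin m → ZMod p)).image
    (fun c => (((degreeLTEquiv (ZMod p) m).symm c : degreeLT (ZMod p) m) : (ZMod p)[X]))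

theorem sqfD_mem {p m : ℕ} [Fact p.Prime] (f : (ZMod p)[X]) : f ∈ sqfD p m ↔ f.degree < m := by
  unfold sqfD
  rw [Finset.mem_image]
  constructor
  · rintro ⟨c, _, rfl⟩
    exact mem_degreeLT.1 ((degreeLTEquiv (ZMod p) m).symm c).2
  · intro h
    refine ⟨degreeLTEquiv (ZMod p) m ⟨f, mem_degreeLT.2 h⟩, Finset.mem_univ _, ?_⟩
    rw [LinearEquiv.symm_apply_apply]

theorem sqfD_card (p m : ℕ) [Fact p.Prime] : (sqfD p m).card = p ^ m := by
  unfold sqfD
  rw [Finset.card_image_of_injective]
  · simp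
  · exact Subtype.val_injective.comp (LinearEquiv.injective _)

theorem sqf_count {p : ℕ} [Fact p.Prime] {n : ℕ} (A : Matrix (Fin n) (Fin n) (ZMod p))
    {g : (ZMod p)[X]} (hg : g.Monic) (hi : Irreducible g) {z : Fin n → ZMod p}
    (h1 : IsAnn A z (g ^ 2)) :
    ((p : ℝ) ^ g.natDegree) ^ 2 - (p : ℝ) ^ g.natDegree ≤ X1 (g ^ 2) A := by
  classical
  set d := g.natDegree with hd
  have hdg : g.degree = d := degree_eq_natDegree hg.ne_zero
  have hg2 : (g ^ 2).degree = ((2 * d : ℕ) : WithBot ℕ) := by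
    rw [degree_eq_natDegree (pow_ne_zero 2 hg.ne_zero), hg.natDegree_pow]
  set S := (sqfD p (2 * d)).filter (fun c => ¬ g ∣ c) with hS
  have hcard : p ^ (2 * d) ≤ S.card + p ^ d := by
    have h2 : (sqfD p (2 * d)).card = ((sqfD p (2 * d)).filter (fun c => g ∣ c)).card + S.card := by
      rw [hS, Finset.card_filter_add_card_filter_not]
    have h3 : ((sqfD p (2 * d)).filter (fun c => g ∣ c)).card ≤ p ^ d := by
      rw [← sqfD_card p d]
      refine (Finset.card_le_card (t := (sqfD p d).image (fun c => g * c)) ?_).trans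
        Finset.card_image_le
      intro f hf
      rw [Finset.mem_filter, sqfD_mem] at hf
      obtain ⟨hf1, c, rfl⟩ := hf
      rw [Finset.mem_image]
      refine ⟨c, ?_, rfl⟩
      rw [sqfD_mem]
      rcases eq_or_ne c 0 with h0 | h0
      · rw [h0, degree_zero]; exact WithBot.bot_lt_coe _
      · rw [degree_mul, hdg, degree_eq_natDegree h0] at hf1
        rw [degree_eq_natDegree h0]
        have h4 : d + c.natDegree < 2 * d := by exact_mod_cast hf1
        have h5 : c.natDegree < d := by omega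
        exact_mod_cast h5
    rw [sqfD_card] at h2
    omega
  have hX : (S.card : ℝ) ≤ X1 (g ^ 2) A := by
    unfold X1 ind
    rw [Finset.sum_boole]
    have h2 : S.card = (S.image (fun c => (aeval A c).mulVec z)).card := by
      rw [Finset.card_image_of_injOn]
      intro c hc c' hc' hcc
      rw [hS, Finset.coe_filter] at hc hc'
      have hc1 := (sqfD_mem c).1 hc.1
      have hc2 := (sqfD_mem c').1 hc'.1
      have h3 : (aeval A (c - c')).mulVec z = 0 := by
        rw [map_sub, Matrix.sub_mulVec, sub_eq_zero]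
        exact hcc
      have h4 := (h1 _).1 h3
      have h5 : (c - c').degree < (g ^ 2).degree := by
        rw [hg2]
        exact (degree_sub_le _ _).trans_lt (max_lt hc1 hc2)
      exact sub_eq_zero.1 (eq_zero_of_dvd_of_degree_lt h4 h5)
    rw [h2]
    norm_cast
    refine Finset.card_le_card ?_
    intro y hy
    rw [Finset.mem_image] at hy
    obtain ⟨c, hc, rfl⟩ := hy
    rw [hS, Finset.mem_filter] at hc
    rw [Finset.mem_filter]
    exact ⟨Finset.mem_univ _, sqf_ann_mul A hi h1 hc.2⟩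
  have h6 : ((p : ℝ) ^ d) ^ 2 ≤ S.card + (p : ℝ) ^ d := by
    rw [← pow_mul, mul_comm d 2]
    exact_mod_cast hcard
  linarith

theorem sqf_dim {p : ℕ} [Fact p.Prime] {n : ℕ} (A : Matrix (Fin n) (Fin n) (ZMod p))
    {g : (ZMod p)[X]} (hg : g.Monic) (hi : Irreducible g) (h : g ^ 2 ∣ A.charpoly)
    (hk : ∀ z : Fin n → ZMod p, (aeval A (g ^ 2)).mulVec z = 0 → (aeval A g).mulVec z = 0) :
    ((p : ℝ) ^ g.natDegree) ^ 2 ≤ kerc g A := by
  classical
  set φ : (Fin n → ZMod p) →ₗ[ZMod p] (Fin n → ZMod p) := Matrix.toLinAlgEquiv' A with hφ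
  have hφc : φ.charpoly = A.charpoly := by
    rw [hφ]
    exact Matrix.charpoly_toLin' A
  have hae : ∀ f : (ZMod p)[X], ∀ z, aeval φ f z = (aeval A f).mulVec z := by
    intro f z
    have h1 : aeval φ f = Matrix.toLinAlgEquiv' (aeval A f) := by
      rw [hφ]
      exact aeval_algHom_apply (Matrix.toLinAlgEquiv' : Matrix (Fin n) (Fin n) (ZMod p) ≃ₐ[ZMod p] _).toAlgHom A f
    rw [h1]
    rfl
  set U : Submodule (ZMod p) (Fin n → ZMod p) := LinearMap.ker (aeval φ g) with hU
  have hUφ : U ≤ U.comap φ := by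
    intro v hv
    rw [Submodule.mem_comap, hU, LinearMap.mem_ker]
    rw [hU, LinearMap.mem_ker] at hv
    have h1 : aeval φ g * φ = φ * aeval φ g := by
      have h2 : aeval φ (g * X) = aeval φ (X * g) := by rw [mul_comm]
      rwa [map_mul, map_mul, aeval_X] at h2
    have h3 : (aeval φ g * φ) v = (φ * aeval φ g) v := by rw [h1]
    rw [Module.End.mul_apply, Module.End.mul_apply, hv, map_zero] at h3
    exact h3
  have hchar := sqf_charpoly U φ hUφ
  -- `g` does not divide the characteristic polynomial of the quotient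
  have hQ : ¬ g ∣ (U.mapQ U φ hUφ).charpoly := by
    intro hdiv
    set ψ := U.mapQ U φ hUφ with hψ
    set bQ := Module.finBasis (ZMod p) ((Fin n → ZMod p) ⧸ U) with hbQ
    set D := LinearMap.toMatrix bQ bQ ψ with hD
    have hDc : D.charpoly = ψ.charpoly := LinearMap.charpoly_toMatrix ψ bQ
    obtain ⟨m, hm1, hm2⟩ := ker_pow g hg hi D
    have hm0 : m ≠ 0 := fun h0 => (hm2.1 h0) (by rw [hDc]; exact hdiv)
    have hq : (1 : ℝ) < (p : ℝ) ^ g.natDegree := by
      refine one_lt_pow₀ ?_ hi.natDegree_pos.ne'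
      exact_mod_cast (Fact.out : p.Prime).one_lt
    have hk1 : (1 : ℝ) < kerc g D := by
      rw [hm1]
      exact one_lt_pow₀ hq hm0
    have hex : ∃ w, w ≠ 0 ∧ (aeval D g).mulVec w = 0 := by
      by_contra hne
      push Not at hne
      have h3 : kerc g D ≤ 1 := by
        unfold kerc
        calc ∑ z : Fin _ → ZMod p, ind ((aeval D g).mulVec z = 0) ≤
            ∑ z : Fin _ → ZMod p, (if z = 0 then (1 : ℝ) else 0) := by
              refine Finset.sum_le_sum fun z _ => ?_
              by_cases hz : z = 0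
              · rw [if_pos hz]; exact ind_le_one _
              · rw [if_neg hz, ind_false (hne z hz)]
          _ = 1 := by simp
      linarith
    obtain ⟨w, hw0, hw⟩ := hex
    have hDg : aeval D g = LinearMap.toMatrix bQ bQ (aeval ψ g) := by
      have := aeval_algHom_apply (LinearMap.toMatrixAlgEquiv bQ).toAlgHom ψ g
      exact this
    set y := bQ.equivFun.symm w with hy
    have hy0 : y ≠ 0 := by
      rw [hy]
      intro h0
      exact hw0 ((LinearEquiv.map_eq_zero_iff _).1 h0)
    have hgy : aeval ψ g y = 0 := by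
      have h4 := LinearMap.toMatrix_mulVec_repr bQ bQ (aeval ψ g) y
      have h5 : (bQ.repr y : Fin _ → ZMod p) = w := by
        have := bQ.equivFun.apply_symm_apply w
        rw [← hy] at this
        exact this
      rw [h5, ← hDg, hw] at h4
      have h6 : bQ.repr (aeval ψ g y) = 0 := by
        ext i
        exact (congrFun h4 i).symm
      exact bQ.repr.map_eq_zero_iff.1 h6
    obtain ⟨v, hv⟩ := U.mkQ_surjective y
    have h7 : U.mkQ (aeval φ g v) = 0 := by
      rw [← sqf_mapQ U φ hUφ g v, ← hψ, hv]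
      exact hgy
    have h8 : aeval φ g v ∈ U := by
      rwa [← LinearMap.mem_ker, Submodule.ker_mkQ] at h7
    have h9 : (aeval A (g ^ 2)).mulVec v = 0 := by
      rw [pow_two, sqf_act_mul, ← hae g v, ← hae g]
      exact h8
    have h10 := hk v h9
    have h11 : v ∈ U := by
      rw [hU, LinearMap.mem_ker, hae]
      exact h10
    apply hy0
    rw [← hv, ← LinearMap.mem_ker, Submodule.ker_mkQ]
    exact h11
  have hdvd : g ^ 2 ∣ (φ.restrict hUφ).charpoly := by
    rw [← hφc, hchar] at h
    have h2 : IsCoprime (g ^ 2) (U.mapQ U φ hUφ).charpoly :=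
      ((hi.coprime_iff_not_dvd).2 hQ).pow_left
    exact h2.dvd_of_dvd_mul_right h
  have hdeg : 2 * g.natDegree ≤ Module.finrank (ZMod p) U := by
    have h1 := natDegree_le_of_dvd hdvd (LinearMap.charpoly_monic _).ne_zero
    rwa [hg.natDegree_pow, LinearMap.charpoly_natDegree] at h1
  have hcard : kerc g A = (p : ℝ) ^ Module.finrank (ZMod p) U := by
    unfold kerc
    rw [sqf_sum_card]
    have h1 : Nat.card {z // (aeval A g).mulVec z = 0} = Nat.card U := by
      refine Nat.card_congr (Equiv.subtypeEquivRight fun z => ?_)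
      rw [hU, LinearMap.mem_ker, hae]
    rw [h1, Module.natCard_eq_pow_finrank (K := ZMod p), Nat.card_zmod]
    push_cast
    rfl
  rw [hcard, ← pow_mul, mul_comm]
  exact pow_le_pow_right₀ (by exact_mod_cast (Fact.out : p.Prime).one_lt.le) hdeg

theorem sqf_det {p : ℕ} [Fact p.Prime] {n : ℕ} (g : (ZMod p)[X]) (hg : g.Monic) (hi : Irreducible g)
    (A : Matrix (Fin n) (Fin n) (ZMod p)) (h : g ^ 2 ∣ A.charpoly) :
    ((p : ℝ) ^ g.natDegree) ^ 2 ≤ kerc g A ∨ ((p : ℝ) ^ g.natDegree) ^ 2 - (p : ℝ) ^ g.natDegree ≤ X1 (g ^ 2) A := by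
  by_cases hk : ∀ z : Fin n → ZMod p, (aeval A (g ^ 2)).mulVec z = 0 → (aeval A g).mulVec z = 0
  · exact Or.inl (sqf_dim A hg hi h hk)
  · push Not at hk
    obtain ⟨z, hz1, hz2⟩ := hk
    exact Or.inr (sqf_count A hg hi (sqf_ann A hi hz1 hz2))

theorem sqf_pr {p : ℕ} [Fact p.Prime] (hp : p ≠ 2) :
    ∃ theta : ℝ, 0 < theta ∧ ∃ n0 : ℕ, ∀ n : ℕ, n0 ≤ n → ∀ g : (ZMod p)[X], g.Monic → Irreducible g → (g.natDegree : ℝ) ≤ theta * n →
      pr (fun b : Edge n → Bool => g ^ 2 ∣ (adj (ZMod p) b).charpoly) ≤ 8 / ((p : ℝ) ^ g.natDegree) ^ 2 := by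
  obtain ⟨th, hth, n0, hx⟩ := x1_avg (p := p) hp
  refine ⟨th / 2, by positivity, n0, fun n hn g hg hi hdeg => ?_⟩
  set q : ℝ := (p : ℝ) ^ g.natDegree with hq
  have hp3 : (3 : ℝ) ≤ p := by
    have h1 := (Fact.out : p.Prime).two_le
    have h2 : 3 ≤ p := by omega
    exact_mod_cast h2
  have hq3 : 3 ≤ q := by
    rw [hq]
    calc (3 : ℝ) ≤ p := hp3
      _ = (p : ℝ) ^ 1 := (pow_one _).symm
      _ ≤ (p : ℝ) ^ g.natDegree := pow_le_pow_right₀ (by linarith) hi.natDegree_pos
  have h1 := hx n hn g hg (hdeg.trans (by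
    have : (0 : ℝ) ≤ n := Nat.cast_nonneg n
    nlinarith))
  have h2 := hx n hn (g ^ 2) (hg.pow 2) (by
    rw [hg.natDegree_pow]
    push_cast
    linarith)
  have hsub : ∀ b : Edge n → Bool, g ^ 2 ∣ (adj (ZMod p) b).charpoly →
      (q ^ 2 - 1 ≤ X1 g (adj (ZMod p) b) ∨ q ^ 2 - q ≤ X1 (g ^ 2) (adj (ZMod p) b)) := by
    intro b hb
    rcases sqf_det g hg hi _ hb with h | h
    · left
      have h3 := x1_prod ({g} : Finset (ZMod p)[X]) (fun f hf => by
        rw [Finset.mem_singleton] at hf; subst hf; exact ⟨hg, hi⟩) (adj (ZMod p) b)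
      rw [Finset.prod_singleton, Finset.prod_singleton] at h3
      rw [h3]
      linarith
    · right; exact h
  have hX0 : ∀ (f : (ZMod p)[X]) (A : Matrix (Fin n) (Fin n) (ZMod p)), 0 ≤ X1 f A :=
    fun f A => Finset.sum_nonneg fun z _ => ind_nonneg _
  have h4 : pr (fun b : Edge n → Bool => g ^ 2 ∣ (adj (ZMod p) b).charpoly) ≤
      2 / (q ^ 2 - 1) + 2 / (q ^ 2 - q) := by
    refine (pr_mono hsub).trans ((pr_or_le _ _).trans (add_le_add ?_ ?_))
    · refine (pr_markov _ (fun b => X1 g (adj (ZMod p) b)) (fun b => hX0 _ _) (q ^ 2 - 1)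
        (by nlinarith) (fun b hb => hb)).trans ?_
      exact div_le_div_of_nonneg_right h1 (by nlinarith)
    · refine (pr_markov _ (fun b => X1 (g ^ 2) (adj (ZMod p) b)) (fun b => hX0 _ _) (q ^ 2 - q)
        (by nlinarith) (fun b hb => hb)).trans ?_
      exact div_le_div_of_nonneg_right h2 (by nlinarith)
  refine h4.trans ?_
  have h5 : 2 / (q ^ 2 - 1) ≤ 4 / q ^ 2 := by
    rw [div_le_div_iff₀ (by nlinarith) (by positivity)]
    nlinarith
  have h6 : 2 / (q ^ 2 - q) ≤ 4 / q ^ 2 := by
    rw [div_le_div_iff₀ (by nlinarith) (by positivity)]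
    nlinarith
  have h7 : 4 / q ^ 2 + 4 / q ^ 2 = 8 / q ^ 2 := by ring
  linarith

end Pool.H64.IR
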