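import Pool.Agent.H64.IR.EXPU
import Pool.Agent.H64.IR.NUM1
import Pool.Agent.H64.IR.NUM2
import Pool.Agent.H64.IR.SM2
import Pool.Agent.H64.IR.SQF

/-! MODULE PRT1 (project MP_a758cf_pr, IR; overview: team-store H64_a758cf.md)
Part I. Let ι be a finite family of at least 250 distinct odd primes. For D0 <= k <= theta n: pr(for all i, charpoly mod p_i has a monic divisor of degree k) <= 1/k^2.
Proof. ind(for all i HasDeg) <= sum_i [ind BadS + ind(square factor)] + prod_i U_i, U_i = PhiF + OmF >= 0 at BB (det_sieve; if no bad event occurs each indicator is <= U_i).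
pr BadS <= exp(-pK k) (sm2, D = K^3, K^3+K <= k <= theta n); pr(square factor) <= sum_{g in RR p K k} 8/q^2 <= 8 sum_{j>K} p^(-j) <= 12 * 3^(-K) (sqf_pr, sum_rr, irc_upper).
U_i is a linear combination as in expu: index type {pairs (s,G)} + {G}, sets s ∪ G (disjoint) of total degree <= k + J y <= 2k; sum of beta over such a set <= 2k * 3^(-K) (each g has degree >= 1).
So avg prod U_i <= prod (k^(-1/40) + k^(-1/50)/2) + eta prod (k^5 + 1), eta = 4 card ι k 3^(-K) + exp(-cn). First product <= k^(-250/50) = k^(-5); the second term is <= k^(-5) by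
par_decay and exp(-cn) <= exp(-c k/theta). Everything <= 1/k^2 for k large.
-/

set_option autoImplicit false

namespace Pool.H64.IR

open Finset Polynomial

section prt1

variable {p : ℕ} [Fact p.Prime]

open Classical in
noncomputable def prt1T1 (p K y k D J : ℕ) [Fact p.Prime] :
    Finset ((_ : Finset (ZMod p)[X]) × Finset (ZMod p)[X]) :=
  (FF p K k D).sigma fun s => ((RR p K y) \ s).powerset.filter fun G => G.card ≤ J

noncomputable def prt1T2 (p K y J' : ℕ) [Fact p.Prime] : Finset (Finset (ZMod p)[X]) :=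
  (RR p K y).powersetCard J'

open Classical in
noncomputable def prt1c1 (p y M : ℕ) [Fact p.Prime] (u : ℝ)
    (t : (_ : Finset (ZMod p)[X]) × Finset (ZMod p)[X]) : ℝ :=
  ((1 / 2 : ℝ) ^ (t.1.filter fun g => g.natDegree ≤ y).card * 2 ^ M) * u ^ t.2.card

open Classical in
noncomputable def prt1H1 (p : ℕ) [Fact p.Prime]
    (t : (_ : Finset (ZMod p)[X]) × Finset (ZMod p)[X]) : Finset (ZMod p)[X] := t.1 ∪ t.2

/-- index type of the linear combination -/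
abbrev prt1Tau (p K y k D J J' : ℕ) [Fact p.Prime] : Type :=
  ↥(prt1T1 p K y k D J) ⊕ ↥(prt1T2 p K y J')

noncomputable def prt1co (p K y k D M J J' : ℕ) [Fact p.Prime] (u : ℝ) :
    prt1Tau p K y k D J J' → ℝ
  | Sum.inl t => prt1c1 p y M u t
  | Sum.inr _ => 1 / (Nat.choose M J' : ℝ)

noncomputable def prt1H (p K y k D J J' : ℕ) [Fact p.Prime] :
    prt1Tau p K y k D J J' → Finset (ZMod p)[X]
  | Sum.inl t => prt1H1 p t
  | Sum.inr G => G

theorem prt1_expand (K y k D M J J' : ℕ) (u : ℝ) (x : (ZMod p)[X] → ℝ) :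
    PhiF p K y k D M J u x + OmF p K y M J' x =
      ∑ t : prt1Tau p K y k D J J', prt1co p K y k D M J J' u t * ∏ g ∈ prt1H p K y k D J J' t, x g := by
  classical
  rw [Fintype.sum_sum_type]
  congr 1
  · change _ = ∑ t : ↥(prt1T1 p K y k D J), prt1c1 p y M u t * ∏ g ∈ prt1H1 p t, x g
    rw [Finset.sum_coe_sort (prt1T1 p K y k D J) (fun t => prt1c1 p y M u t * ∏ g ∈ prt1H1 p t, x g)]
    unfold prt1T1 PhiF
    rw [Finset.sum_sigma]
    refine Finset.sum_congr rfl fun s _ => ?_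
    rw [Finset.mul_sum]
    refine Finset.sum_congr rfl fun G hG => ?_
    have hd : Disjoint s G := by
      rw [Finset.mem_filter, Finset.mem_powerset] at hG
      rw [Finset.disjoint_left]
      intro a ha hb
      exact (Finset.mem_sdiff.1 (hG.1 hb)).2 ha
    unfold prt1H1 prt1c1
    rw [Finset.prod_union hd]
    ring
  · change _ = ∑ G : ↥(prt1T2 p K y J'), 1 / (Nat.choose M J' : ℝ) * ∏ g ∈ (G : Finset (ZMod p)[X]), x g
    rw [Finset.sum_coe_sort (prt1T2 p K y J') (fun G => 1 / (Nat.choose M J' : ℝ) * ∏ g ∈ G, x g),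
      ← Finset.mul_sum]
    unfold OmF prt1T2
    rw [div_eq_mul_one_div, mul_comm]

theorem prt1_co_abs (K y k D M J J' : ℕ) (t : prt1Tau p K y k D J J') :
    |prt1co p K y k D M J J' (-1 / 2) t| = prt1co p K y k D M J J' (1 / 2) t := by
  rcases t with t | G
  · change |prt1c1 p y M (-1 / 2) t| = prt1c1 p y M (1 / 2) t
    unfold prt1c1
    rw [abs_mul, abs_mul, abs_pow, abs_pow, abs_pow]
    norm_num
  · change |1 / (Nat.choose M J' : ℝ)| = 1 / (Nat.choose M J' : ℝ)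
    exact abs_of_nonneg (by positivity)

theorem prt1_H_mem (K y k D J J' : ℕ) (hyk : y ≤ k) (t : prt1Tau p K y k D J J') (g : (ZMod p)[X])
    (hg : g ∈ prt1H p K y k D J J' t) : g ∈ RR p K k := by
  classical
  have hmono : ∀ g, g ∈ RR p K y → g ∈ RR p K k := by
    intro g hg
    rw [mem_rr] at hg ⊢
    exact ⟨hg.1, hg.2.1, hg.2.2.1, hg.2.2.2.trans hyk⟩
  rcases t with ⟨⟨s, G⟩, ht⟩ | ⟨G, hG⟩
  · change g ∈ s ∪ G at hg
    unfold prt1T1 at ht
    rw [Finset.mem_sigma, Finset.mem_filter, Finset.mem_powerset] at ht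
    rcases Finset.mem_union.1 hg with h | h
    · have h1 := ht.1
      unfold FF at h1
      rw [Finset.mem_filter, Finset.mem_powerset] at h1
      exact h1.1 h
    · exact hmono g (Finset.mem_sdiff.1 (ht.2.1 h)).1
  · change g ∈ G at hg
    unfold prt1T2 at hG
    rw [Finset.mem_powersetCard] at hG
    exact hmono g (hG.1 hg)

theorem prt1_H_deg (K y k D J J' : ℕ) (hJJ : J' ≤ J) (hJy : J * y ≤ k)
    (t : prt1Tau p K y k D J J') :
    ∑ g ∈ prt1H p K y k D J J' t, g.natDegree ≤ 2 * k := by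
  classical
  have hG : ∀ G : Finset (ZMod p)[X], G ⊆ RR p K y → G.card ≤ J →
      ∑ g ∈ G, g.natDegree ≤ k := by
    intro G hG hc
    calc ∑ g ∈ G, g.natDegree ≤ ∑ _g ∈ G, y := by
          refine Finset.sum_le_sum fun g hg => ?_
          exact ((mem_rr g).1 (hG hg)).2.2.2
      _ = G.card * y := by rw [Finset.sum_const, smul_eq_mul]
      _ ≤ J * y := Nat.mul_le_mul_right y hc
      _ ≤ k := hJy
  rcases t with ⟨⟨s, G⟩, ht⟩ | ⟨G, hG'⟩
  · change ∑ g ∈ s ∪ G, g.natDegree ≤ 2 * k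
    unfold prt1T1 at ht
    rw [Finset.mem_sigma, Finset.mem_filter, Finset.mem_powerset] at ht
    have h1 := ht.1
    unfold FF at h1
    rw [Finset.mem_filter] at h1
    have h2 := hG G (fun g hg => (Finset.mem_sdiff.1 (ht.2.1 hg)).1) ht.2.2
    have h3 : ∑ g ∈ s ∪ G, g.natDegree ≤ ∑ g ∈ s, g.natDegree + ∑ g ∈ G, g.natDegree := by
      rw [← Finset.sum_union_inter]
      exact Nat.le_add_right _ _
    have h4 : ∑ g ∈ s, g.natDegree ≤ k := h1.2.2
    omega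
  · change ∑ g ∈ G, g.natDegree ≤ 2 * k
    unfold prt1T2 at hG'
    rw [Finset.mem_powersetCard] at hG'
    have := hG G hG'.1 (by omega)
    omega

theorem prt1_beta_le (hp : 3 ≤ p) (K : ℕ) (g : (ZMod p)[X]) (hg : K < g.natDegree) :
    0 ≤ beta g ∧ beta g ≤ (1 / 3 : ℝ) ^ K ∧ beta g ≤ 1 := by
  unfold beta
  have hp' : (3 : ℝ) ≤ p := by exact_mod_cast hp
  have h1 : (3 : ℝ) ^ (K + 1) ≤ (p : ℝ) ^ g.natDegree :=
    calc (3 : ℝ) ^ (K + 1) ≤ (p : ℝ) ^ (K + 1) := pow_le_pow_left₀ (by norm_num) hp' _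
      _ ≤ (p : ℝ) ^ g.natDegree := pow_le_pow_right₀ (by linarith) (by omega)
  have h2 : (1 : ℝ) ≤ 3 ^ K := one_le_pow₀ (by norm_num)
  rw [pow_succ] at h1
  have h3 : (3 : ℝ) ^ K ≤ (p : ℝ) ^ g.natDegree - 1 := by linarith
  have h4 : (0 : ℝ) < (p : ℝ) ^ g.natDegree - 1 := by linarith
  refine ⟨by positivity, ?_, ?_⟩
  · rw [one_div_pow]
    exact one_div_le_one_div_of_le (by positivity) h3
  · rw [div_le_one h4]
    linarith

theorem prt1_beta_sum (hp : 3 ≤ p) (K k : ℕ) (H : Finset (ZMod p)[X])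
    (h1 : ∀ g ∈ H, K < g.natDegree) (h2 : ∑ g ∈ H, g.natDegree ≤ 2 * k) :
    ∑ g ∈ H, beta g ≤ 2 * k * (1 / 3 : ℝ) ^ K := by
  have h3 : H.card ≤ 2 * k := by
    calc H.card = ∑ _g ∈ H, 1 := by simp
      _ ≤ ∑ g ∈ H, g.natDegree := Finset.sum_le_sum fun g hg => by
          have := h1 g hg
          omega
      _ ≤ 2 * k := h2
  calc ∑ g ∈ H, beta g ≤ ∑ _g ∈ H, (1 / 3 : ℝ) ^ K :=
        Finset.sum_le_sum fun g hg => (prt1_beta_le hp K g (h1 g hg)).2.1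
    _ = H.card * (1 / 3 : ℝ) ^ K := by rw [Finset.sum_const, nsmul_eq_mul]
    _ ≤ 2 * k * (1 / 3 : ℝ) ^ K := by
        refine mul_le_mul_of_nonneg_right ?_ (by positivity)
        exact_mod_cast h3

theorem prt1_phi_nonneg (K y k D M J : ℕ) (hJ : Even J) (x : (ZMod p)[X] → ℝ)
    (hx : ∀ g ∈ RR p K k, 0 ≤ x g) (hx' : ∀ g ∈ RR p K y, 0 ≤ x g ∧ x g ≤ 1) :
    0 ≤ PhiF p K y k D M J (-1 / 2) x := by
  classical
  unfold PhiF
  refine Finset.sum_nonneg fun s hs => ?_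
  unfold FF at hs
  rw [Finset.mem_filter, Finset.mem_powerset] at hs
  refine mul_nonneg (mul_nonneg (by positivity) (Finset.prod_nonneg fun g hg => hx g (hs.1 hg))) ?_
  have h1 := bnf_even_lower ((RR p K y) \ s) (fun g => x g / 2) (fun g hg => by
    have := hx' g (Finset.mem_sdiff.1 hg).1
    constructor <;> linarith) J hJ
  have h2 : 0 ≤ ∏ a ∈ (RR p K y) \ s, (1 - x a / 2) := by
    refine Finset.prod_nonneg fun g hg => ?_
    have := hx' g (Finset.mem_sdiff.1 hg).1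
    linarith
  refine (h2.trans h1).trans (le_of_eq ?_)
  refine Finset.sum_congr rfl fun G _ => ?_
  have h3 : ∏ a ∈ G, x a / 2 = (1 / 2 : ℝ) ^ G.card * ∏ a ∈ G, x a := by
    rw [Finset.prod_div_distrib, Finset.prod_const]
    rw [one_div_pow]
    ring
  rw [h3, ← mul_assoc, ← mul_pow]
  norm_num

theorem prt1_om_nonneg (K y M J' : ℕ) (x : (ZMod p)[X] → ℝ) (hx : ∀ g ∈ RR p K y, 0 ≤ x g) :
    0 ≤ OmF p K y M J' x := by
  classical
  unfold OmF
  refine div_nonneg (Finset.sum_nonneg fun G hG => ?_) (Nat.cast_nonneg _)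
  rw [Finset.mem_powersetCard] at hG
  exact Finset.prod_nonneg fun g hg => hx g (hG.1 hg)

theorem prt1_sq_sum (hp : 3 ≤ p) (K k : ℕ) :
    ∑ g ∈ RR p K k, 8 / ((p : ℝ) ^ g.natDegree) ^ 2 ≤ 4 * (1 / 3 : ℝ) ^ K := by
  have hp' : (3 : ℝ) ≤ p := by exact_mod_cast hp
  rw [sum_rr (fun g => 8 / ((p : ℝ) ^ g.natDegree) ^ 2)]
  have h1 : ∀ m ∈ Finset.Ioc K k, ∑ f ∈ Irr p m, 8 / ((p : ℝ) ^ f.natDegree) ^ 2 ≤
      8 * (1 / 3 : ℝ) ^ m := by
    intro m hm
    rw [Finset.mem_Ioc] at hm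
    have h2 : ∑ f ∈ Irr p m, 8 / ((p : ℝ) ^ f.natDegree) ^ 2 =
        ∑ _f ∈ Irr p m, 8 / ((p : ℝ) ^ m) ^ 2 := by
      refine Finset.sum_congr rfl fun f hf => ?_
      rw [((mem_irr f).1 hf).2.2]
    rw [h2, Finset.sum_const, nsmul_eq_mul]
    have h3 := irc_upper p m
    have hm1 : (1 : ℝ) ≤ m := by
      have : 1 ≤ m := by omega
      exact_mod_cast this
    have hpm : (0 : ℝ) < (p : ℝ) ^ m := by positivity
    have h4 : ((Irr p m).card : ℝ) ≤ (p : ℝ) ^ m := by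
      have h5 : (0 : ℝ) ≤ (Irr p m).card := Nat.cast_nonneg _
      nlinarith
    calc ((Irr p m).card : ℝ) * (8 / ((p : ℝ) ^ m) ^ 2) ≤ (p : ℝ) ^ m * (8 / ((p : ℝ) ^ m) ^ 2) :=
          mul_le_mul_of_nonneg_right h4 (by positivity)
      _ = 8 * (1 / (p : ℝ) ^ m) := by
          field_simp
      _ ≤ 8 * (1 / 3 : ℝ) ^ m := by
          rw [one_div_pow]
          refine mul_le_mul_of_nonneg_left ?_ (by norm_num)
          exact one_div_le_one_div_of_le (by positivity) (pow_le_pow_left₀ (by norm_num) hp' m)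
  refine (Finset.sum_le_sum h1).trans ?_
  rw [← Finset.mul_sum]
  have h6 : ∑ m ∈ Finset.Ioc K k, (1 / 3 : ℝ) ^ m ≤ (1 / 3 : ℝ) ^ K / 2 := by
    rcases le_total k K with h | h
    · rw [Finset.Ioc_eq_empty_of_le h, Finset.sum_empty]
      positivity
    · have h7 : ∀ j : ℕ, ∑ m ∈ Finset.Ioc K (K + j), (1 / 3 : ℝ) ^ m =
          ((1 / 3 : ℝ) ^ K - (1 / 3 : ℝ) ^ (K + j)) / 2 := by
        intro j
        induction j with
        | zero => simp
        | succ j ih =>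
          rw [← add_assoc, Finset.sum_Ioc_succ_top (by omega), ih, pow_succ]
          ring
      have h8 := h7 (k - K)
      rw [Nat.add_sub_cancel' h] at h8
      rw [h8]
      have : (0 : ℝ) ≤ (1 / 3 : ℝ) ^ k := by positivity
      linarith
  linarith

end prt1

/-- a finite family of positive reals has a positive lower bound -/
theorem prt1_min {ι : Type} [Fintype ι] (f : ι → ℝ) (hf : ∀ i, 0 < f i) (c : ℝ) (hc : 0 < c) :
    ∃ θ : ℝ, 0 < θ ∧ θ ≤ c ∧ ∀ i, θ ≤ f i := by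
  classical
  have key : ∀ s : Finset ι, ∃ θ : ℝ, 0 < θ ∧ θ ≤ c ∧ ∀ i ∈ s, θ ≤ f i := by
    intro s
    induction s using Finset.induction_on with
    | empty => exact ⟨c, hc, le_refl _, by simp⟩
    | insert a s _ ih =>
      obtain ⟨θ, h1, h2, h3⟩ := ih
      refine ⟨min θ (f a), lt_min h1 (hf a), (min_le_left _ _).trans h2, ?_⟩
      intro i hi
      rcases Finset.mem_insert.1 hi with rfl | hi
      · exact min_le_right _ _
      · exact (min_le_left _ _).trans (h3 i hi)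
  obtain ⟨θ, h1, h2, h3⟩ := key Finset.univ
  exact ⟨θ, h1, h2, fun i => h3 i (Finset.mem_univ i)⟩

theorem prt1_max {ι : Type} [Fintype ι] (f : ι → ℕ) (c : ℕ) :
    ∃ m : ℕ, c ≤ m ∧ ∀ i, f i ≤ m :=
  ⟨c + ∑ i, f i, Nat.le_add_right _ _, fun i =>
    (Finset.single_le_sum (fun j _ => Nat.zero_le (f j)) (Finset.mem_univ i)).trans
      (Nat.le_add_left _ _)⟩

theorem prt1_det {ι : Type} [Fintype ι] (P B S : ι → Prop) (U : ι → ℝ)
    (h : ∀ i, ind (P i) ≤ ind (B i) + ind (S i) + U i) (hU : ∀ i, 0 ≤ U i) :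
    ind (∀ i, P i) ≤ ∑ i, (ind (B i) + ind (S i)) + ∏ i, U i := by
  have hprod : 0 ≤ ∏ i, U i := Finset.prod_nonneg fun i _ => hU i
  by_cases hbad : ∃ i, B i ∨ S i
  · obtain ⟨i, hi⟩ := hbad
    have h1 : (1 : ℝ) ≤ ind (B i) + ind (S i) := by
      rcases hi with hi | hi
      · rw [ind_true hi]
        linarith [ind_nonneg (S i)]
      · rw [ind_true hi]
        linarith [ind_nonneg (B i)]
    have h2 : ind (B i) + ind (S i) ≤ ∑ i, (ind (B i) + ind (S i)) :=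
      Finset.single_le_sum (f := fun i => ind (B i) + ind (S i))
        (fun j _ => add_nonneg (ind_nonneg _) (ind_nonneg _)) (Finset.mem_univ i)
    linarith [ind_le_one (∀ i, P i)]
  · have h0 : ∀ i, ind (P i) ≤ U i := by
      intro i
      have hB : ¬ B i := fun hb => hbad ⟨i, Or.inl hb⟩
      have hS : ¬ S i := fun hs => hbad ⟨i, Or.inr hs⟩
      have := h i
      rw [ind_false hB, ind_false hS] at this
      linarith
    have hs : 0 ≤ ∑ i, (ind (B i) + ind (S i)) :=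
      Finset.sum_nonneg fun j _ => add_nonneg (ind_nonneg _) (ind_nonneg _)
    by_cases hall : ∀ i, P i
    · rw [ind_true hall]
      have h3 : (1 : ℝ) ≤ ∏ i, U i := by
        calc (1 : ℝ) = ∏ _i : ι, (1 : ℝ) := by simp
          _ ≤ ∏ i, U i := Finset.prod_le_prod (fun _ _ => zero_le_one) fun i _ => by
              have := h0 i
              rwa [ind_true (hall i)] at this
      linarith
    · rw [ind_false hall]
      linarith

theorem prt1_exp (c θ : ℝ) (hc : 0 < c) (hθ : 0 < θ) (m : ℕ) :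
    ∃ k0 : ℕ, ∀ k : ℕ, k0 ≤ k → Real.exp (-(c / θ) * k) ≤ ((k : ℝ) ^ m)⁻¹ := by
  have hcθ : 0 < c / θ := by positivity
  have h1 := Real.tendsto_pow_mul_exp_neg_atTop_nhds_zero m
  have h2 : Filter.Tendsto (fun k : ℕ => (c / θ) * (k : ℝ)) Filter.atTop Filter.atTop :=
    Filter.Tendsto.const_mul_atTop hcθ tendsto_natCast_atTop_atTop
  have h3 := h1.comp h2
  have h4 : ∀ᶠ k : ℕ in Filter.atTop, (c / θ * (k : ℝ)) ^ m * Real.exp (-(c / θ * (k : ℝ))) <
      (c / θ) ^ m := (tendsto_order.1 h3).2 _ (by positivity)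
  have h5 := h4.and (Filter.eventually_ge_atTop 1)
  obtain ⟨k0, hk0⟩ := Filter.eventually_atTop.1 h5
  refine ⟨k0, fun k hk => ?_⟩
  obtain ⟨h6, h7⟩ := hk0 k hk
  have hk' : (0 : ℝ) < k := by exact_mod_cast h7
  rw [mul_pow, mul_assoc] at h6
  have h8 : (k : ℝ) ^ m * Real.exp (-(c / θ * (k : ℝ))) < 1 := by
    have hpos : (0 : ℝ) < (c / θ) ^ m := by positivity
    by_contra hcon
    push Not at hcon
    have := mul_le_mul_of_nonneg_left hcon hpos.le
    linarith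
  rw [neg_mul, le_inv_comm₀ (Real.exp_pos _) (by positivity)]
  rw [← one_div, le_div_iff₀ (Real.exp_pos _)]
  exact h8.le

theorem prt1_half : ∃ k0 : ℕ, ∀ k : ℕ, k0 ≤ k →
    (k : ℝ) ^ (-(1 / 40) : ℝ) ≤ (k : ℝ) ^ (-(1 / 50) : ℝ) / 2 := by
  have h1 : Filter.Tendsto (fun k : ℕ => (k : ℝ) ^ (1 / 200 : ℝ)) Filter.atTop Filter.atTop :=
    (tendsto_rpow_atTop (by norm_num)).comp tendsto_natCast_atTop_atTop
  obtain ⟨k0, hk0⟩ := Filter.eventually_atTop.1
    ((h1.eventually_ge_atTop 2).and (Filter.eventually_ge_atTop 1))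
  refine ⟨k0, fun k hk => ?_⟩
  obtain ⟨h2, h3⟩ := hk0 k hk
  have hk' : (0 : ℝ) < k := by exact_mod_cast h3
  have h4 : (k : ℝ) ^ (-(1 / 50) : ℝ) = (k : ℝ) ^ (-(1 / 40) : ℝ) * (k : ℝ) ^ (1 / 200 : ℝ) := by
    rw [← Real.rpow_add hk']
    norm_num
  rw [h4]
  have h5 : (0 : ℝ) ≤ (k : ℝ) ^ (-(1 / 40) : ℝ) := by positivity
  nlinarith

theorem part1 {ι : Type} [Fintype ι] [DecidableEq ι] (hc : 250 ≤ Fintype.card ι) (p : ι → ℕ) [∀ i, Fact (p i).Prime]
    (hp : ∀ i, p i ≠ 2) (hinj : Function.Injective p) :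
    ∃ theta : ℝ, 0 < theta ∧ ∃ D0 n0 : ℕ, ∀ n k : ℕ, n0 ≤ n → D0 ≤ k → (k : ℝ) ≤ theta * n →
      pr (fun b : Edge n → Bool => ∀ i, HasDeg k (adj (ZMod (p i)) b)) ≤ 1 / (k : ℝ) ^ 2 := by
  classical
  have hp3 : ∀ i, 3 ≤ p i := fun i => by
    have h1 := (Fact.out : (p i).Prime).two_le
    have h2 := hp i
    omega
  set N := Fintype.card ι with hN
  obtain ⟨θe, hθe, c, hc0, ne, hexp⟩ := expu p hp hinj
  choose θs hθs ns Ks hsm using fun i => sm2 (p := p i) (hp i)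
  choose θq hθq nq hsq using fun i => sqf_pr (p := p i) (hp i)
  obtain ⟨θ1, hθ1, hθ1e, hθ1s⟩ := prt1_min θs hθs (θe / 2) (by positivity)
  obtain ⟨θ, hθ, hθθ1, hθq'⟩ := prt1_min θq hθq θ1 hθ1
  obtain ⟨n1, hn1e, hn1s⟩ := prt1_max ns ne
  obtain ⟨n0, hn0, hnq⟩ := prt1_max nq n1
  obtain ⟨K1, -, hK1⟩ := prt1_max Ks 1
  obtain ⟨ka, hka⟩ := par_basic
  obtain ⟨kb, hkb⟩ := par_decay ((5 * N + 5 : ℕ) : ℝ)
  obtain ⟨kc, hkc⟩ := par_tendsto K1
  obtain ⟨kd, hkd⟩ := num_phi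
  obtain ⟨ke, hke⟩ := num_phi_abs
  obtain ⟨kf, hkf⟩ := num_om
  obtain ⟨kg, hkg⟩ := prt1_exp c θ hc0 hθ (5 * N + 5)
  obtain ⟨kh, hkh⟩ := prt1_half
  refine ⟨θ, hθ, ka + kb + kc + kd + ke + kf + kg + kh + (5 * N + 1 + (4 * N + 1) * 2 ^ N) + 1, n0,
    fun n k hn hk hkn => ?_⟩
  have hk1 : 1 ≤ k := by omega
  have hkB : 5 * N + 1 + (4 * N + 1) * 2 ^ N ≤ k := by
    have h0 : 0 ≤ ka + kb + kc + kd + ke + kf + kg + kh := Nat.zero_le _
    omega
  obtain ⟨hb1, hb2, hb3, hb4, hb5, hb6, hb7, hb8, hb9, hb10⟩ := hka k (by omega)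
  obtain ⟨hd1, hd2⟩ := hkb k (by omega)
  have hK := hkc k (by omega)
  have hx1 : (1 : ℝ) ≤ (k : ℝ) := by exact_mod_cast hk1
  have hx0 : (0 : ℝ) < (k : ℝ) := by linarith
  rw [Real.rpow_neg hx0.le, Real.rpow_natCast] at hd1 hd2
  set K := pK k with hKdef
  set y := pY k with hydef
  set M := pM k with hMdef
  set J := pJ k with hJdef
  set J' := pJ1 k with hJ'def
  have hyk : y ≤ k := by omega
  have hJJ : J' ≤ J := by
    have hlog : 0 ≤ Real.log k := Real.log_nonneg hx1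
    have h1 : (J' : ℝ) ≤ pL k / 6 := by
      rw [hJ'def]
      unfold pJ1
      exact Nat.floor_le (by linarith)
    have h2 : 20 * Real.log k ≤ (J : ℝ) := by
      rw [hJdef]
      unfold pJ
      push_cast
      have := Nat.le_ceil (10 * Real.log k)
      linarith
    have h3 : (J' : ℝ) ≤ J := by linarith
    exact_mod_cast h3
  have hkn1 : (k : ℝ) ≤ θ1 * n := hkn.trans (mul_le_mul_of_nonneg_right hθθ1 (Nat.cast_nonneg _))
  -- the functionals
  let U : ∀ i, ((ZMod (p i))[X] → ℝ) → ℝ := fun i x =>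
    PhiF (p i) K y k (K ^ 3) M J (-1 / 2) x + OmF (p i) K y M J' x
  have hBB : ∀ (i : ι) (A : Matrix (Fin n) (Fin n) (ZMod (p i))) (g : (ZMod (p i))[X]),
      0 ≤ BB g A := fun i A g => ind_nonneg _
  have hUnn : ∀ i (A : Matrix (Fin n) (Fin n) (ZMod (p i))), 0 ≤ U i (fun g => BB g A) := by
    intro i A
    exact add_nonneg (phi_nonneg K y k (K ^ 3) M J hb5 A)
      (prt1_om_nonneg K y M J' _ fun g _ => hBB i A g)
  have hdet : ∀ b : Edge n → Bool, ind (∀ i, HasDeg k (adj (ZMod (p i)) b)) ≤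
      ∑ i, (ind (BadS K (K ^ 3) (adj (ZMod (p i)) b)) +
        ind (∃ g ∈ RR (p i) K k, g ^ 2 ∣ (adj (ZMod (p i)) b).charpoly)) +
      ∏ i, U i (fun g => BB g (adj (ZMod (p i)) b)) := by
    intro b
    exact prt1_det _ _ _ _ (fun i => det_sieve K y k (K ^ 3) M J J' hb2 hyk hb5 hb4 _)
      fun i => hUnn i _
  have hstep : pr (fun b : Edge n → Bool => ∀ i, HasDeg k (adj (ZMod (p i)) b)) ≤
      ∑ i, (pr (fun b : Edge n → Bool => BadS K (K ^ 3) (adj (ZMod (p i)) b)) +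
        pr (fun b : Edge n → Bool => ∃ g ∈ RR (p i) K k,
          g ^ 2 ∣ (adj (ZMod (p i)) b).charpoly)) +
      avg (fun b : Edge n → Bool => ∏ i, U i (fun g => BB g (adj (ZMod (p i)) b))) := by
    refine (avg_mono hdet).trans (le_of_eq ?_)
    rw [avg_add, avg_sum]
    congr 1
    refine Finset.sum_congr rfl fun i _ => ?_
    rw [avg_add]
    rfl
  have hX : (0 : ℝ) < ((k : ℝ) ^ (5 * N + 5))⁻¹ := by positivity
  -- first bad event
  have hbad : ∀ i, pr (fun b : Edge n → Bool => BadS K (K ^ 3) (adj (ZMod (p i)) b)) ≤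
      ((k : ℝ) ^ (5 * N + 5))⁻¹ := by
    intro i
    have h1 := hsm i n K (by have := hn1s i; omega) ((hK1 i).trans hK)
      (hb10.trans (hkn1.trans (mul_le_mul_of_nonneg_right (hθ1s i) (Nat.cast_nonneg _))))
    exact h1.trans hd2
  -- second bad event
  have hsqr : ∀ i, pr (fun b : Edge n → Bool => ∃ g ∈ RR (p i) K k,
      g ^ 2 ∣ (adj (ZMod (p i)) b).charpoly) ≤ 4 * ((k : ℝ) ^ (5 * N + 5))⁻¹ := by
    intro i
    refine (pr_exists_le _ _).trans ?_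
    have h1 : ∀ g ∈ RR (p i) K k, pr (fun b : Edge n → Bool => g ^ 2 ∣ (adj (ZMod (p i)) b).charpoly) ≤
        8 / ((p i : ℝ) ^ g.natDegree) ^ 2 := by
      intro g hg
      rw [mem_rr] at hg
      refine hsq i n (by have := hnq i; omega) g hg.1 hg.2.1 ?_
      have h2 : (g.natDegree : ℝ) ≤ k := by exact_mod_cast hg.2.2.2
      exact h2.trans (hkn.trans (mul_le_mul_of_nonneg_right (hθq' i) (Nat.cast_nonneg _)))
    refine (Finset.sum_le_sum h1).trans ((prt1_sq_sum (hp3 i) K k).trans ?_)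
    linarith
  -- the main term
  set eta : ℝ := 4 * N * k * (1 / 3 : ℝ) ^ K + Real.exp (-c * n) with heta
  have hmem : ∀ (i : ι) (t : prt1Tau (p i) K y k (K ^ 3) J J') (g : (ZMod (p i))[X]),
      g ∈ prt1H (p i) K y k (K ^ 3) J J' t → g ∈ RR (p i) K k :=
    fun i t g hg => prt1_H_mem K y k (K ^ 3) J J' hyk t g hg
  have hbet : ∀ i, ∀ g ∈ RR (p i) K k, 0 ≤ beta g ∧ beta g ≤ (1 / 3 : ℝ) ^ K ∧ beta g ≤ 1 :=
    fun i g hg => prt1_beta_le (hp3 i) K g ((mem_rr g).1 hg).2.2.1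
  have hmain := hexp n (by omega) (fun i => prt1Tau (p i) K y k (K ^ 3) J J')
    (fun i => prt1co (p i) K y k (K ^ 3) M J J' (-1 / 2))
    (fun i => prt1H (p i) K y k (K ^ 3) J J') eta
    (fun i t g hg => by
      have := (mem_rr g).1 (hmem i t g hg)
      exact ⟨this.1, this.2.1⟩)
    (fun i t => by
      have h1 := prt1_H_deg K y k (K ^ 3) J J' hJJ hb6 t
      have h2 : ((∑ g ∈ prt1H (p i) K y k (K ^ 3) J J' t, g.natDegree : ℕ) : ℝ) ≤ 2 * k := by
        exact_mod_cast h1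
      have h3 : θ1 * n ≤ θe / 2 * n := mul_le_mul_of_nonneg_right hθ1e (Nat.cast_nonneg _)
      linarith)
    (fun t => by
      have h1 : ∑ i, ∑ g ∈ prt1H (p i) K y k (K ^ 3) J J' (t i), beta g ≤
          ∑ _i : ι, 2 * k * (1 / 3 : ℝ) ^ K := by
        refine Finset.sum_le_sum fun i _ => ?_
        exact prt1_beta_sum (hp3 i) K k _ (fun g hg => ((mem_rr g).1 (hmem i (t i) g hg)).2.2.1)
          (prt1_H_deg K y k (K ^ 3) J J' hJJ hb6 (t i))
      rw [Finset.sum_const, Finset.card_univ, nsmul_eq_mul, ← hN] at h1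
      rw [heta]
      linarith)
  simp_rw [prt1_co_abs, ← prt1_expand] at hmain
  have hUb : ∀ i, 0 ≤ U i beta ∧ U i beta ≤ (k : ℝ) ^ (-(1 / 50) : ℝ) := by
    intro i
    have hRR : ∀ g ∈ RR (p i) K y, g ∈ RR (p i) K k := by
      intro g hg
      rw [mem_rr] at hg ⊢
      exact ⟨hg.1, hg.2.1, hg.2.2.1, hg.2.2.2.trans hyk⟩
    refine ⟨add_nonneg (prt1_phi_nonneg K y k (K ^ 3) M J hb5 _ (fun g hg => (hbet i g hg).1)
      fun g hg => ⟨(hbet i g (hRR g hg)).1, (hbet i g (hRR g hg)).2.2⟩)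
      (prt1_om_nonneg K y M J' _ fun g hg => (hbet i g (hRR g hg)).1), ?_⟩
    have h1 := hkd k (by omega) (p i) (hp3 i)
    have h2 := hkf k (by omega) (p i) (hp3 i)
    have h3 := hkh k (by omega)
    change PhiF (p i) K y k (K ^ 3) M J (-1 / 2) beta + OmF (p i) K y M J' beta ≤ _
    linarith
  have hVb : ∀ i, 0 ≤ PhiF (p i) K y k (K ^ 3) M J (1 / 2) beta + OmF (p i) K y M J' beta ∧
      PhiF (p i) K y k (K ^ 3) M J (1 / 2) beta + OmF (p i) K y M J' beta ≤ 2 * (k : ℝ) ^ 5 := by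
    intro i
    refine ⟨?_, ?_⟩
    · rw [prt1_expand]
      refine Finset.sum_nonneg fun t _ => ?_
      rw [← prt1_co_abs]
      exact mul_nonneg (abs_nonneg _) (Finset.prod_nonneg fun g hg => (hbet i g (hmem i t g hg)).1)
    · have h1 := hke k (by omega) (p i) (hp3 i)
      have h2 := hkf k (by omega) (p i) (hp3 i)
      have h3 : (k : ℝ) ^ (5 : ℝ) = (k : ℝ) ^ 5 := by
        rw [← Real.rpow_natCast]
        norm_num
      rw [h3] at h1
      have h4 : (k : ℝ) ^ (-(1 / 50) : ℝ) ≤ 1 :=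
        Real.rpow_le_one_of_one_le_of_nonpos hx1 (by norm_num)
      have h5 : (1 : ℝ) ≤ (k : ℝ) ^ 5 := one_le_pow₀ hx1
      linarith
  have hprodU : ∏ i, U i beta ≤ ((k : ℝ) ^ 5)⁻¹ := by
    have h1 : ∏ i, U i beta ≤ ∏ _i : ι, (k : ℝ) ^ (-(1 / 50) : ℝ) :=
      Finset.prod_le_prod (fun i _ => (hUb i).1) fun i _ => (hUb i).2
    refine h1.trans ?_
    rw [Finset.prod_const, Finset.card_univ, ← hN]
    have h4 : (k : ℝ) ^ (-(1 / 50) : ℝ) ≤ 1 :=
      Real.rpow_le_one_of_one_le_of_nonpos hx1 (by norm_num)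
    have h5 : (0 : ℝ) ≤ (k : ℝ) ^ (-(1 / 50) : ℝ) := by positivity
    refine (pow_le_pow_of_le_one h5 h4 hc).trans (le_of_eq ?_)
    rw [← Real.rpow_natCast, ← Real.rpow_mul hx0.le, ← Real.rpow_natCast, ← Real.rpow_neg hx0.le]
    norm_num
  have hprodV : ∏ i, (PhiF (p i) K y k (K ^ 3) M J (1 / 2) beta + OmF (p i) K y M J' beta) ≤
      2 ^ N * (k : ℝ) ^ (5 * N) := by
    have h1 : ∏ i, (PhiF (p i) K y k (K ^ 3) M J (1 / 2) beta + OmF (p i) K y M J' beta) ≤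
        ∏ _i : ι, 2 * (k : ℝ) ^ 5 :=
      Finset.prod_le_prod (fun i _ => (hVb i).1) fun i _ => (hVb i).2
    refine h1.trans (le_of_eq ?_)
    rw [Finset.prod_const, Finset.card_univ, ← hN, mul_pow, ← pow_mul]
  have hetab : eta ≤ (4 * N + 1) * k * ((k : ℝ) ^ (5 * N + 5))⁻¹ := by
    have h1 : Real.exp (-c * n) ≤ ((k : ℝ) ^ (5 * N + 5))⁻¹ := by
      refine le_trans ?_ (hkg k (by omega))
      rw [Real.exp_le_exp]
      have h2 : (k : ℝ) / θ ≤ n := by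
        rw [div_le_iff₀ hθ]
        linarith
      have h3 : c / θ * k = c * (k / θ) := by ring
      rw [neg_mul, neg_mul, h3]
      have := mul_le_mul_of_nonneg_left h2 hc0.le
      linarith
    rw [heta]
    have h4 : (4 * N * k * (1 / 3 : ℝ) ^ K) ≤ 4 * N * k * ((k : ℝ) ^ (5 * N + 5))⁻¹ :=
      mul_le_mul_of_nonneg_left hd1 (by positivity)
    have h5 : ((k : ℝ) ^ (5 * N + 5))⁻¹ ≤ k * ((k : ℝ) ^ (5 * N + 5))⁻¹ := by
      nlinarith
    have h6 : (4 * (N : ℝ) + 1) * k * ((k : ℝ) ^ (5 * N + 5))⁻¹ =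
        4 * N * k * ((k : ℝ) ^ (5 * N + 5))⁻¹ + k * ((k : ℝ) ^ (5 * N + 5))⁻¹ := by ring
    rw [h6]
    linarith
  have heta0 : 0 ≤ eta := by positivity
  have hV0 : 0 ≤ ∏ i, (PhiF (p i) K y k (K ^ 3) M J (1 / 2) beta + OmF (p i) K y M J' beta) :=
    Finset.prod_nonneg fun i _ => (hVb i).1
  have herr : eta * ∏ i, (PhiF (p i) K y k (K ^ 3) M J (1 / 2) beta + OmF (p i) K y M J' beta) ≤
      (4 * N + 1) * 2 ^ N * ((k : ℝ) ^ 4)⁻¹ := by
    calc eta * ∏ i, (PhiF (p i) K y k (K ^ 3) M J (1 / 2) beta + OmF (p i) K y M J' beta)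
        ≤ ((4 * N + 1) * k * ((k : ℝ) ^ (5 * N + 5))⁻¹) * (2 ^ N * (k : ℝ) ^ (5 * N)) :=
          mul_le_mul hetab hprodV hV0 (by positivity)
      _ = (4 * N + 1) * 2 ^ N * ((k : ℝ) ^ 4)⁻¹ := by
          have h1 : (k : ℝ) ^ (5 * N + 5) = (k : ℝ) ^ (5 * N) * (k * (k : ℝ) ^ 4) := by ring
          rw [h1]
          have h2 : (k : ℝ) ^ (5 * N) ≠ 0 := by positivity
          field_simp
  have havg : avg (fun b : Edge n → Bool => ∏ i, U i (fun g => BB g (adj (ZMod (p i)) b))) ≤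
      ∏ i, U i beta +
      eta * ∏ i, (PhiF (p i) K y k (K ^ 3) M J (1 / 2) beta + OmF (p i) K y M J' beta) := by
    have h1 := (abs_le.1 hmain).2
    have h2 : avg (fun b : Edge n → Bool => ∏ i, U i (fun g => BB g (adj (ZMod (p i)) b))) -
        ∏ i, U i beta ≤
        eta * ∏ i, (PhiF (p i) K y k (K ^ 3) M J (1 / 2) beta + OmF (p i) K y M J' beta) := h1
    linarith
  have hsumbad : ∑ i, (pr (fun b : Edge n → Bool => BadS K (K ^ 3) (adj (ZMod (p i)) b)) +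
        pr (fun b : Edge n → Bool => ∃ g ∈ RR (p i) K k,
          g ^ 2 ∣ (adj (ZMod (p i)) b).charpoly)) ≤ 5 * N * ((k : ℝ) ^ (5 * N + 5))⁻¹ := by
    have h1 : ∑ i, (pr (fun b : Edge n → Bool => BadS K (K ^ 3) (adj (ZMod (p i)) b)) +
        pr (fun b : Edge n → Bool => ∃ g ∈ RR (p i) K k,
          g ^ 2 ∣ (adj (ZMod (p i)) b).charpoly)) ≤
        ∑ _i : ι, 5 * ((k : ℝ) ^ (5 * N + 5))⁻¹ := by
      refine Finset.sum_le_sum fun i _ => ?_
      have h1 := hbad i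
      have h2 := hsqr i
      linarith
    rw [Finset.sum_const, Finset.card_univ, ← hN, nsmul_eq_mul] at h1
    linarith
  have hpow1 : ((k : ℝ) ^ (5 * N + 5))⁻¹ ≤ ((k : ℝ) ^ 4)⁻¹ :=
    inv_anti₀ (by positivity) (pow_le_pow_right₀ hx1 (by omega))
  have hpow2 : ((k : ℝ) ^ 5)⁻¹ ≤ ((k : ℝ) ^ 4)⁻¹ :=
    inv_anti₀ (by positivity) (pow_le_pow_right₀ hx1 (by norm_num))
  have htot : pr (fun b : Edge n → Bool => ∀ i, HasDeg k (adj (ZMod (p i)) b)) ≤
      (5 * N + 1 + (4 * N + 1) * 2 ^ N) * ((k : ℝ) ^ 4)⁻¹ := by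
    have h1 : 5 * (N : ℝ) * ((k : ℝ) ^ (5 * N + 5))⁻¹ ≤ 5 * N * ((k : ℝ) ^ 4)⁻¹ :=
      mul_le_mul_of_nonneg_left hpow1 (by positivity)
    have h2 : (5 * (N : ℝ) + 1 + (4 * N + 1) * 2 ^ N) * ((k : ℝ) ^ 4)⁻¹ =
        5 * N * ((k : ℝ) ^ 4)⁻¹ + ((k : ℝ) ^ 4)⁻¹ + (4 * N + 1) * 2 ^ N * ((k : ℝ) ^ 4)⁻¹ := by
      ring
    rw [h2]
    linarith
  refine htot.trans ?_
  have hkB' : (5 * (N : ℝ) + 1 + (4 * N + 1) * 2 ^ N) ≤ k := by exact_mod_cast hkB
  have h3 : (k : ℝ) * ((k : ℝ) ^ 4)⁻¹ = ((k : ℝ) ^ 3)⁻¹ := by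
    field_simp
  calc (5 * (N : ℝ) + 1 + (4 * N + 1) * 2 ^ N) * ((k : ℝ) ^ 4)⁻¹ ≤ k * ((k : ℝ) ^ 4)⁻¹ :=
        mul_le_mul_of_nonneg_right hkB' (by positivity)
    _ = ((k : ℝ) ^ 3)⁻¹ := h3
    _ ≤ ((k : ℝ) ^ 2)⁻¹ := inv_anti₀ (by positivity) (pow_le_pow_right₀ hx1 (by norm_num))
    _ = 1 / (k : ℝ) ^ 2 := (one_div _).symm

end Pool.H64.IR
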