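import Pool.Agent.H64.IR.EXPU
import Pool.Agent.H64.IR.DET
import Pool.Agent.H64.IR.LBD

/-! MODULE PRT2 (project MP_a758cf_pr, IR; overview: team-store H64_a758cf.md)
Part II (bounded degree k >= 1). For J odd put G2 x = sum over G subset RR p 0 k with 1 <= card G <= J of (-1)^(card G + 1) prod_{g in G} x g = 1 - T_J.
p2_det: if charpoly has a divisor of degree k >= 1 it has an irreducible factor of degree <= k, so prod_{g in RR p 0 k}(1 - BB g) = 0 >= T_J (bnf_odd_upper), G2 >= 1; always G2 >= 0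
because T_J <= prod (1-BB) <= 1.
p2_num: uniformly in p >= 3: Lam = 2(1+log k) >= sum beta (lbd0), beta <= 1/2; G2 beta <= 1 - prod(1-beta) + Lam^(J+1)/(J+1)! <= 1 - exp(-2 Lam) + Lam^(J+1)/(J+1)! (bnf_odd_lower,
1-x >= exp(-2x) on [0,1/2]) <= 1 - c with c = exp(-2 Lam)/2 for a suitable odd J = J(k); sum over G of prod beta <= exp(Lam) = B.
part2: t with (1-c)^t <= eps/3; t distinct primes >= P0, P0 so large that 2 t J/(P0-1) B^t <= eps/3 (each beta g <= 1/(p-1)); expu: avg prod G2(BB) <= (1-c)^t + (2 t J/(P0-1) + exp(-cn)) B^t <= eps for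
n large (total degree <= J k <= theta n). G2 beta may be negative? it is >= 0 since T_J <= prod(1-beta) <= 1.
-/

set_option autoImplicit false

namespace Pool.H64.IR

open Finset Polynomial

open Classical in
noncomputable def G2F (p k J : ℕ) [Fact p.Prime] (x : (ZMod p)[X] → ℝ) : ℝ :=
  ∑ G ∈ (RR p 0 k).powerset.filter (fun G => 1 ≤ G.card ∧ G.card ≤ J), (-1 : ℝ) ^ (G.card + 1) * ∏ g ∈ G, x g

open Classical in
noncomputable def PRT2_T (p k J : ℕ) [Fact p.Prime] (x : (ZMod p)[X] → ℝ) : ℝ :=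
  ∑ G ∈ (RR p 0 k).powerset.filter (fun G => G.card ≤ J), (-1 : ℝ) ^ G.card * ∏ g ∈ G, x g

theorem PRT2_eq (p k J : ℕ) [Fact p.Prime] (x : (ZMod p)[X] → ℝ) :
    G2F p k J x = 1 - PRT2_T p k J x := by
  classical
  unfold G2F PRT2_T
  have h1 : (RR p 0 k).powerset.filter (fun G => G.card ≤ J) =
      insert ∅ ((RR p 0 k).powerset.filter (fun G => 1 ≤ G.card ∧ G.card ≤ J)) := by
    ext G
    simp only [Finset.mem_filter, Finset.mem_powerset, Finset.mem_insert]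
    constructor
    · rintro ⟨h2, h3⟩
      rcases Finset.eq_empty_or_nonempty G with h4 | h4
      · exact Or.inl h4
      · exact Or.inr ⟨h2, Finset.card_pos.2 h4, h3⟩
    · rintro (rfl | ⟨h2, -, h3⟩)
      · exact ⟨Finset.empty_subset _, by simp⟩
      · exact ⟨h2, h3⟩
  have h2 : (∅ : Finset (ZMod p)[X]) ∉
      (RR p 0 k).powerset.filter (fun G => 1 ≤ G.card ∧ G.card ≤ J) := by
    simp
  rw [h1, Finset.sum_insert h2]
  simp only [Finset.card_empty, pow_zero, Finset.prod_empty, mul_one]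
  have h3 : ∀ G : Finset (ZMod p)[X], (-1 : ℝ) ^ (G.card + 1) * ∏ g ∈ G, x g =
      -((-1 : ℝ) ^ G.card * ∏ g ∈ G, x g) := by
    intro G
    rw [pow_succ]
    ring
  rw [Finset.sum_congr rfl (fun G _ => h3 G), Finset.sum_neg_distrib]
  ring

theorem PRT2_T_le (p k J : ℕ) [Fact p.Prime] (hJ : Odd J) (x : (ZMod p)[X] → ℝ)
    (hx : ∀ g ∈ RR p 0 k, 0 ≤ x g ∧ x g ≤ 1) :
    PRT2_T p k J x ≤ ∏ g ∈ RR p 0 k, (1 - x g) := by
  classical
  exact bnf_odd_upper (RR p 0 k) x hx J hJ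

theorem PRT2_prod_le_one (p k : ℕ) [Fact p.Prime] (x : (ZMod p)[X] → ℝ)
    (hx : ∀ g ∈ RR p 0 k, 0 ≤ x g ∧ x g ≤ 1) :
    ∏ g ∈ RR p 0 k, (1 - x g) ≤ 1 := by
  refine Finset.prod_le_one (fun g hg => ?_) (fun g hg => ?_)
  · linarith [(hx g hg).2]
  · linarith [(hx g hg).1]

theorem PRT2_nonneg (p k J : ℕ) [Fact p.Prime] (hJ : Odd J) (x : (ZMod p)[X] → ℝ)
    (hx : ∀ g ∈ RR p 0 k, 0 ≤ x g ∧ x g ≤ 1) : 0 ≤ G2F p k J x := by
  rw [PRT2_eq]
  linarith [PRT2_T_le p k J hJ x hx, PRT2_prod_le_one p k x hx]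

theorem PRT2_BB {p n : ℕ} [Fact p.Prime] (A : Matrix (Fin n) (Fin n) (ZMod p)) (g : (ZMod p)[X]) :
    0 ≤ BB g A ∧ BB g A ≤ 1 := ⟨ind_nonneg _, ind_le_one _⟩

theorem p2_det {p n : ℕ} [Fact p.Prime] (k J : ℕ) (hk : 1 ≤ k) (hJ : Odd J) (A : Matrix (Fin n) (Fin n) (ZMod p)) :
    ind (HasDeg k A) ≤ G2F p k J (fun g => BB g A) := by
  by_cases h : HasDeg k A
  · rw [ind_true h, PRT2_eq]
    obtain ⟨f, hf1, hf2, hf3⟩ := h
    have hfu : ¬ IsUnit f := by
      intro hu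
      have h1 := Polynomial.natDegree_eq_zero_of_isUnit hu
      omega
    obtain ⟨g, hg2, hg1, hg3⟩ := Polynomial.exists_monic_irreducible_factor f hfu
    have hgk : g ∈ RR p 0 k := by
      rw [mem_rr]
      refine ⟨hg2, hg1, hg1.natDegree_pos, ?_⟩
      rw [← hf2]
      exact Polynomial.natDegree_le_of_dvd hg3 hf1.ne_zero
    have hBB : BB g A = 1 := ind_true (hg3.trans hf3)
    have h1 : ∏ g ∈ RR p 0 k, (1 - BB g A) = 0 :=
      Finset.prod_eq_zero hgk (by rw [hBB, sub_self])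
    have h2 := PRT2_T_le p k J hJ (fun g => BB g A) (fun g _ => PRT2_BB A g)
    rw [h1] at h2
    linarith
  · rw [ind_false h]
    exact PRT2_nonneg p k J hJ _ (fun g _ => PRT2_BB A g)

theorem PRT2_exp (x : ℝ) (h0 : 0 ≤ x) (h1 : x ≤ 1 / 2) : Real.exp (-2 * x) ≤ 1 - x := by
  have h2 : Real.exp (-2 * x) ≤ 1 / (1 + 2 * x) := by
    rw [show -2 * x = -(2 * x) by ring, Real.exp_neg, one_div]
    refine inv_anti₀ (by positivity) ?_
    have := Real.add_one_le_exp (2 * x)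
    linarith
  have h3 : 1 / (1 + 2 * x) ≤ 1 - x := by
    rw [div_le_iff₀ (by positivity)]
    nlinarith
  exact h2.trans h3

theorem PRT2_beta (p k : ℕ) [Fact p.Prime] (hp : 3 ≤ p) (g : (ZMod p)[X]) (hg : g ∈ RR p 0 k) :
    0 < beta g ∧ beta g ≤ 1 / ((p : ℝ) - 1) ∧ beta g ≤ 1 / 2 := by
  obtain ⟨h1, h2, -⟩ := beta_le hp 0 k g hg
  rw [zero_add, pow_one] at h2
  refine ⟨h1, h2, h2.trans ?_⟩
  have h3 : (3 : ℝ) ≤ p := by exact_mod_cast hp
  rw [div_le_div_iff₀ (by linarith) (by norm_num)]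
  linarith

theorem p2_num (k : ℕ) (hk : 1 ≤ k) : ∃ J : ℕ, Odd J ∧ ∃ c : ℝ, 0 < c ∧ c < 1 ∧ ∃ B : ℝ, 1 ≤ B ∧ ∀ (p : ℕ) [Fact p.Prime], 3 ≤ p →
    0 ≤ G2F p k J beta ∧ G2F p k J beta ≤ 1 - c ∧
      (∑ G ∈ (RR p 0 k).powerset, ∏ g ∈ G, beta g) ≤ B := by
  set Lam : ℝ := 2 * (1 + Real.log k) with hLam
  have hk1 : (1 : ℝ) ≤ k := by exact_mod_cast hk
  have hLam0 : 0 ≤ Lam := by
    have := Real.log_nonneg hk1
    rw [hLam]
    positivity
  set c : ℝ := Real.exp (-2 * Lam) / 2 with hc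
  have hexp1 : Real.exp (-2 * Lam) ≤ 1 := by
    rw [Real.exp_le_one_iff]
    linarith
  have hc0 : 0 < c := by positivity
  have hc1 : c < 1 := by
    rw [hc]
    linarith
  have hlim := FloorSemiring.tendsto_pow_div_factorial_atTop Lam
  have hev := (hlim.eventually (gt_mem_nhds hc0)).exists_forall_of_atTop
  obtain ⟨N, hN⟩ := hev
  refine ⟨2 * N + 1, ⟨N, rfl⟩, c, hc0, hc1, Real.exp Lam, Real.one_le_exp hLam0, ?_⟩
  intro p hpp hp
  have hsum : ∑ g ∈ RR p 0 k, beta g ≤ Lam := lbd0 hp k hk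
  have hb : ∀ g ∈ RR p 0 k, 0 ≤ beta g ∧ beta g ≤ 1 := fun g hg => by
    obtain ⟨h1, -, h2⟩ := PRT2_beta p k hp g hg
    exact ⟨h1.le, by linarith⟩
  have hJ : Odd (2 * N + 1) := ⟨N, rfl⟩
  have hsum0 : 0 ≤ ∑ g ∈ RR p 0 k, beta g := Finset.sum_nonneg (fun g hg => (hb g hg).1)
  refine ⟨PRT2_nonneg p k _ hJ _ hb, ?_, ?_⟩
  · rw [PRT2_eq]
    have h1 : ∏ g ∈ RR p 0 k, (1 - beta g) -
        (∑ g ∈ RR p 0 k, beta g) ^ (2 * N + 1 + 1) / (Nat.factorial (2 * N + 1 + 1)) ≤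
        PRT2_T p k (2 * N + 1) beta := by
      classical
      exact bnf_odd_lower (RR p 0 k) beta hb _ hJ
    have h2 : Real.exp (-2 * Lam) ≤ ∏ g ∈ RR p 0 k, (1 - beta g) := by
      calc Real.exp (-2 * Lam) ≤ Real.exp (-2 * ∑ g ∈ RR p 0 k, beta g) :=
            Real.exp_le_exp.2 (by linarith)
        _ = ∏ g ∈ RR p 0 k, Real.exp (-2 * beta g) := by
            rw [Finset.mul_sum, Real.exp_sum]
        _ ≤ ∏ g ∈ RR p 0 k, (1 - beta g) := by
            refine Finset.prod_le_prod (fun g _ => (Real.exp_pos _).le) (fun g hg => ?_)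
            obtain ⟨h3, -, h4⟩ := PRT2_beta p k hp g hg
            exact PRT2_exp _ h3.le h4
    have h5 : (∑ g ∈ RR p 0 k, beta g) ^ (2 * N + 1 + 1) / (Nat.factorial (2 * N + 1 + 1) : ℝ) ≤
        c := by
      refine le_trans ?_ (hN (2 * N + 1 + 1) (by omega)).le
      refine div_le_div_of_nonneg_right ?_ (Nat.cast_nonneg _)
      exact pow_le_pow_left₀ hsum0 hsum _
    have h6 : Real.exp (-2 * Lam) = 2 * c := by rw [hc]; ring
    linarith
  · rw [← Finset.prod_one_add]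
    calc ∏ g ∈ RR p 0 k, (1 + beta g) ≤ ∏ g ∈ RR p 0 k, Real.exp (beta g) := by
          refine Finset.prod_le_prod (fun g hg => by linarith [(hb g hg).1]) (fun g _ => ?_)
          have := Real.add_one_le_exp (beta g)
          linarith
      _ = Real.exp (∑ g ∈ RR p 0 k, beta g) := (Real.exp_sum _ _).symm
      _ ≤ Real.exp Lam := Real.exp_le_exp.2 hsum

theorem PRT2_ind_forall {ι : Type} [Fintype ι] (P : ι → Prop) :
    ind (∀ i, P i) ≤ ∏ i, ind (P i) := by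
  by_cases h : ∀ i, P i
  · rw [ind_true h, Finset.prod_congr rfl (fun i _ => ind_true (h i)), Finset.prod_const_one]
  · rw [ind_false h]
    exact Finset.prod_nonneg (fun i _ => ind_nonneg _)

theorem PRT2_primes (t P0 : ℕ) : ∃ p : Fin t → ℕ, Function.Injective p ∧
    ∀ i, (p i).Prime ∧ P0 ≤ p i := by
  refine ⟨fun i => Nat.nth Nat.Prime (P0 + i), ?_, ?_⟩
  · intro i j hij
    have h1 := (Nat.nth_strictMono Nat.infinite_setOfPred_prime).injective hij
    exact Fin.ext (by omega)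
  · intro i
    refine ⟨Nat.prime_nth_prime _, ?_⟩
    have h1 := (Nat.nth_strictMono Nat.infinite_setOfPred_prime).le_apply (x := P0 + (i : ℕ))
    exact (Nat.le_add_right _ _).trans h1

theorem part2 (k : ℕ) (hk : 1 ≤ k) (e : ℝ) (he : 0 < e) :
    ∃ (t : ℕ) (p : Fin t → ℕ) (_ : ∀ i, Fact (p i).Prime), ∃ n0 : ℕ, ∀ n : ℕ, n0 ≤ n →
      pr (fun b : Edge n → Bool => ∀ i, HasDeg k (adj (ZMod (p i)) b)) ≤ e := by
  classical
  obtain ⟨J, hJ, c, hc0, hc1, B, hB, hnum⟩ := p2_num k hk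
  obtain ⟨t, ht⟩ : ∃ t : ℕ, (1 - c) ^ t ≤ e / 3 := by
    obtain ⟨t, ht⟩ := exists_pow_lt_of_lt_one (show 0 < e / 3 by positivity)
      (show 1 - c < 1 by linarith)
    exact ⟨t, ht.le⟩
  have hBt : 0 < B ^ t := by positivity
  set W : ℝ := 2 * t * J * B ^ t with hW
  have hW0 : 0 ≤ W := by positivity
  obtain ⟨P0, hP0⟩ := exists_nat_ge (3 * W / e + 3)
  obtain ⟨p, hinj, hp⟩ := PRT2_primes t P0
  have hfact : ∀ i, Fact (p i).Prime := fun i => ⟨(hp i).1⟩
  have hP03 : (3 : ℝ) ≤ P0 := by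
    have : 0 ≤ 3 * W / e := by positivity
    linarith
  have hp3 : ∀ i, 3 ≤ p i := fun i => by
    have h1 : (3 : ℕ) ≤ P0 := by exact_mod_cast hP03
    exact h1.trans (hp i).2
  obtain ⟨theta, hth, c', hc', n0, hexpu⟩ := expu p (fun i => by have := hp3 i; omega) hinj
  -- thresholds
  obtain ⟨n1, hn1⟩ := exists_nat_ge ((J * k : ℝ) / theta)
  obtain ⟨n2, hn2⟩ : ∃ n2 : ℕ, ∀ n : ℕ, n2 ≤ n → Real.exp (-c' * n) * B ^ t ≤ e / 3 := by
    have h1 : Filter.Tendsto (fun n : ℕ => Real.exp (-c' * n) * B ^ t) Filter.atTop (nhds 0) := by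
      have h2 : Filter.Tendsto (fun n : ℕ => -c' * (n : ℝ)) Filter.atTop Filter.atBot :=
        Filter.Tendsto.const_mul_atTop_of_neg (by linarith) tendsto_natCast_atTop_atTop
      have h3 := (Real.tendsto_exp_atBot.comp h2).mul_const (B ^ t)
      rwa [zero_mul] at h3
    obtain ⟨N, hN⟩ := (h1.eventually (gt_mem_nhds (show 0 < e / 3 by positivity))).exists_forall_of_atTop
    exact ⟨N, fun n hn => (hN n hn).le⟩
  refine ⟨t, p, hfact, max n0 (max n1 n2), ?_⟩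
  intro n hn
  have hn0 : n0 ≤ n := (le_max_left _ _).trans hn
  have hn1' : n1 ≤ n := ((le_max_left _ _).trans (le_max_right _ _)).trans hn
  have hn2' : n2 ≤ n := ((le_max_right _ _).trans (le_max_right _ _)).trans hn
  have hJk : ((J * k : ℕ) : ℝ) ≤ theta * n := by
    push_cast
    have h1 : (n1 : ℝ) ≤ n := by exact_mod_cast hn1'
    have h2 := hn1.trans h1
    rw [div_le_iff₀ hth] at h2
    linarith
  let τ : Fin t → Type := fun i =>
    {G : Finset (ZMod (p i))[X] // G ∈ (RR (p i) 0 k).powerset.filter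
      (fun G => 1 ≤ G.card ∧ G.card ≤ J)}
  let instF : ∀ i, Fintype (τ i) := fun i => Finset.fintypeCoeSort _
  let co : ∀ i, τ i → ℝ := fun i G => (-1 : ℝ) ^ (G.1.card + 1)
  let H : ∀ i, τ i → Finset (ZMod (p i))[X] := fun i G => G.1
  have hmem : ∀ i (G : τ i), G.1 ⊆ RR (p i) 0 k ∧ G.1.card ≤ J := by
    intro i G
    have h1 := G.2
    rw [Finset.mem_filter, Finset.mem_powerset] at h1
    exact ⟨h1.1, h1.2.2⟩
  have hP01 : (0 : ℝ) < (P0 : ℝ) - 1 := by linarith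
  have hbeta : ∀ i (G : τ i), ∀ g ∈ G.1, 0 ≤ beta g ∧ beta g ≤ 1 / ((P0 : ℝ) - 1) := by
    intro i G g hg
    obtain ⟨h1, h2, -⟩ := PRT2_beta (p i) k (hp3 i) g ((hmem i G).1 hg)
    refine ⟨h1.le, h2.trans ?_⟩
    have h3 : (P0 : ℝ) ≤ p i := by exact_mod_cast (hp i).2
    exact one_div_le_one_div_of_le hP01 (by linarith)
  have key := hexpu n hn0 τ co H (2 * t * J / ((P0 : ℝ) - 1) + Real.exp (-c' * n))
    (fun i G g hg => by
      have h1 := (mem_rr g).1 ((hmem i G).1 hg)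
      exact ⟨h1.1, h1.2.1⟩)
    (fun i G => by
      refine le_trans ?_ hJk
      have h1 : ∑ g ∈ H i G, g.natDegree ≤ J * k := by
        calc ∑ g ∈ H i G, g.natDegree ≤ ∑ _g ∈ H i G, k :=
              Finset.sum_le_sum (fun g hg => ((mem_rr g).1 ((hmem i G).1 hg)).2.2.2)
          _ = (H i G).card * k := by rw [Finset.sum_const, smul_eq_mul]
          _ ≤ J * k := Nat.mul_le_mul_right _ (hmem i G).2
      exact_mod_cast h1)
    (fun G => by
      have h1 : ∑ i, ∑ g ∈ H i (G i), beta g ≤ t * (J * (1 / ((P0 : ℝ) - 1))) := by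
        calc ∑ i, ∑ g ∈ H i (G i), beta g ≤ ∑ _i : Fin t, (J * (1 / ((P0 : ℝ) - 1))) := by
              refine Finset.sum_le_sum (fun i _ => ?_)
              calc ∑ g ∈ H i (G i), beta g ≤ ∑ _g ∈ H i (G i), 1 / ((P0 : ℝ) - 1) :=
                    Finset.sum_le_sum (fun g hg => (hbeta i (G i) g hg).2)
                _ = (H i (G i)).card * (1 / ((P0 : ℝ) - 1)) := by
                    rw [Finset.sum_const, nsmul_eq_mul]
                _ ≤ J * (1 / ((P0 : ℝ) - 1)) := by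
                    refine mul_le_mul_of_nonneg_right ?_ (by positivity)
                    exact_mod_cast (hmem i (G i)).2
          _ = t * (J * (1 / ((P0 : ℝ) - 1))) := by
              rw [Finset.sum_const, Finset.card_univ, Fintype.card_fin, nsmul_eq_mul]
      have h2 : 2 * (t * (J * (1 / ((P0 : ℝ) - 1)))) = 2 * t * J / ((P0 : ℝ) - 1) := by
        ring
      linarith)
  -- identify the sums
  have hG2 : ∀ i (x : (ZMod (p i))[X] → ℝ), ∑ G : τ i, co i G * ∏ g ∈ H i G, x g =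
      G2F (p i) k J x := by
    intro i x
    unfold G2F
    exact Finset.sum_coe_sort ((RR (p i) 0 k).powerset.filter
      (fun G => 1 ≤ G.card ∧ G.card ≤ J)) (fun G => (-1 : ℝ) ^ (G.card + 1) * ∏ g ∈ G, x g)
  have habs : ∀ i, ∑ G : τ i, |co i G| * ∏ g ∈ H i G, beta g ≤ B := by
    intro i
    have h1 : ∀ G : τ i, |co i G| * ∏ g ∈ H i G, beta g = ∏ g ∈ G.1, beta g := by
      intro G
      show |(-1 : ℝ) ^ (G.1.card + 1)| * ∏ g ∈ G.1, beta g = _
      rw [abs_pow, abs_neg, abs_one, one_pow, one_mul]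
    rw [Finset.sum_congr rfl (fun G _ => h1 G)]
    have h2 := Finset.sum_coe_sort ((RR (p i) 0 k).powerset.filter
      (fun G => 1 ≤ G.card ∧ G.card ≤ J)) (fun G => ∏ g ∈ G, beta g)
    refine le_trans (le_of_eq h2) ?_
    refine le_trans ?_ (hnum (p i) (hp3 i)).2.2
    refine Finset.sum_le_sum_of_subset_of_nonneg (Finset.filter_subset _ _) (fun G hG _ => ?_)
    rw [Finset.mem_powerset] at hG
    exact Finset.prod_nonneg (fun g hg => (PRT2_beta (p i) k (hp3 i) g (hG hg)).1.le)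
  have habs0 : ∀ i, 0 ≤ ∑ G : τ i, |co i G| * ∏ g ∈ H i G, beta g := by
    intro i
    refine Finset.sum_nonneg (fun G _ => mul_nonneg (abs_nonneg _) ?_)
    exact Finset.prod_nonneg (fun g hg => (hbeta i G g hg).1)
  have h1 : pr (fun b : Edge n → Bool => ∀ i, HasDeg k (adj (ZMod (p i)) b)) ≤
      avg (fun b : Edge n → Bool => ∏ i, ∑ G : τ i, co i G *
        ∏ g ∈ H i G, BB g (adj (ZMod (p i)) b)) := by
    refine avg_mono (fun b => ?_)
    refine (PRT2_ind_forall _).trans ?_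
    refine Finset.prod_le_prod (fun i _ => ind_nonneg _) (fun i _ => ?_)
    rw [hG2 i]
    exact p2_det k J hk hJ _
  have h2 : ∏ i, ∑ G : τ i, co i G * ∏ g ∈ H i G, beta g ≤ (1 - c) ^ t := by
    calc ∏ i, ∑ G : τ i, co i G * ∏ g ∈ H i G, beta g ≤ ∏ _i : Fin t, (1 - c) := by
          refine Finset.prod_le_prod (fun i _ => ?_) (fun i _ => ?_)
          · rw [hG2 i]; exact (hnum (p i) (hp3 i)).1
          · rw [hG2 i]; exact (hnum (p i) (hp3 i)).2.1
      _ = (1 - c) ^ t := by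
          rw [Finset.prod_const, Finset.card_univ, Fintype.card_fin]
  have h3 : ∏ i, ∑ G : τ i, |co i G| * ∏ g ∈ H i G, beta g ≤ B ^ t := by
    calc ∏ i, ∑ G : τ i, |co i G| * ∏ g ∈ H i G, beta g ≤ ∏ _i : Fin t, B :=
          Finset.prod_le_prod (fun i _ => habs0 i) (fun i _ => habs i)
      _ = B ^ t := by
          rw [Finset.prod_const, Finset.card_univ, Fintype.card_fin]
  have heta0 : 0 ≤ 2 * t * J / ((P0 : ℝ) - 1) + Real.exp (-c' * n) := by
    have := Real.exp_pos (-c' * n)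
    have h5 : 0 ≤ 2 * t * J / ((P0 : ℝ) - 1) := by positivity
    linarith
  have h4 : (2 * t * J / ((P0 : ℝ) - 1) + Real.exp (-c' * n)) * B ^ t ≤ e / 3 + e / 3 := by
    rw [add_mul]
    refine add_le_add ?_ (hn2 n hn2')
    have h5 : 2 * t * J / ((P0 : ℝ) - 1) * B ^ t = W / ((P0 : ℝ) - 1) := by
      rw [hW]
      ring
    rw [h5, div_le_iff₀ hP01]
    have h6 : 3 * W / e ≤ (P0 : ℝ) - 1 := by linarith
    rw [div_le_iff₀ he] at h6
    nlinarith
  have h5 := (abs_le.1 key).2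
  have h6 := mul_le_mul_of_nonneg_left h3 heta0
  linarith

end Pool.H64.IR
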