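import Pool.Agent.H64.IR.POL

/-! MODULE REC (project MP_a758cf_pr, IR; overview: team-store H64_a758cf.md)
Counting identity. For K (take K >= m for all polynomials): m * card (Smo p K m) = sum over j = 1..m of L_j * card (Smo p K (m-j)),
L_j = sum_{d | j, d <= K} d * card (Irr p d).
Proof: sum over f in Smo of deg f = sum over f of sum over (g irreducible, e >= 1, g^e | f) deg g; the pairs (f, g^e) with g^e | f correspond to (g, e, f' = f/g^e), f' in
Smo p K (m - e deg g). Group by j = e deg g, d = deg g.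
-/

set_option autoImplicit false

namespace Pool.H64.IR

open Finset Polynomial

open UniqueFactorizationMonoid in
/-- the degree of a monic polynomial as a sum over prime powers dividing it -/
lemma rec_deg (p m : ℕ) [Fact p.Prime] (f : (ZMod p)[X]) (hf : f.Monic) (hm : f.natDegree = m) :
    m = ∑ d ∈ Finset.Ioc 0 m, ∑ g ∈ Irr p d, ∑ e ∈ Finset.Icc 1 m,
      (open Classical in if g ^ e ∣ f then d else 0) := by
  classical
  have hf0 : f ≠ 0 := hf.ne_zero
  -- inner sums
  have h1 : ∀ d ∈ Finset.Ioc 0 m, ∀ g ∈ Irr p d, ∑ e ∈ Finset.Icc 1 m, (if g ^ e ∣ f then d else 0) =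
      (normalizedFactors f).count g * g.natDegree := by
    intro d hd g hg
    obtain ⟨hg1, hg2, hg3⟩ := (mem_irr g).1 hg
    have h2 : ∀ e : ℕ, g ^ e ∣ f ↔ e ≤ (normalizedFactors f).count g := by
      intro e
      rw [pow_dvd_iff_le_emultiplicity, emultiplicity_eq_count_normalizedFactors hg2 hf0,
        hg1.normalize_eq_self, Nat.cast_le]
    have h3 : (normalizedFactors f).count g ≤ m := by
      have h4 : g ^ (normalizedFactors f).count g ∣ f := (h2 _).2 le_rfl
      have h5 := Polynomial.natDegree_le_of_dvd h4 hf0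
      rw [Polynomial.natDegree_pow, hm, hg3] at h5
      have h6 : 0 < d := (Finset.mem_Ioc.1 hd).1
      nlinarith
    rw [← Finset.sum_filter, Finset.sum_const, smul_eq_mul, hg3]
    congr 1
    have h7 : (Finset.Icc 1 m).filter (fun e => g ^ e ∣ f) =
        Finset.Icc 1 ((normalizedFactors f).count g) := by
      ext e
      rw [Finset.mem_filter, Finset.mem_Icc, Finset.mem_Icc, h2]
      omega
    rw [h7, Nat.card_Icc]
    omega
  have h2 : ∑ d ∈ Finset.Ioc 0 m, ∑ g ∈ Irr p d, ∑ e ∈ Finset.Icc 1 m,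
      (if g ^ e ∣ f then d else 0) =
      ∑ d ∈ Finset.Ioc 0 m, ∑ g ∈ Irr p d, (normalizedFactors f).count g * g.natDegree :=
    Finset.sum_congr rfl fun d hd => Finset.sum_congr rfl fun g hg => h1 d hd g hg
  rw [h2, ← Finset.sum_biUnion]
  · have h3 : (normalizedFactors f).toFinset ⊆ (Finset.Ioc 0 m).biUnion (fun d => Irr p d) := by
      intro g hg
      rw [Multiset.mem_toFinset, Polynomial.mem_normalizedFactors_iff hf0] at hg
      rw [Finset.mem_biUnion]
      refine ⟨g.natDegree, ?_, (mem_irr g).2 ⟨hg.2.1, hg.1, rfl⟩⟩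
      rw [Finset.mem_Ioc]
      refine ⟨hg.1.natDegree_pos, ?_⟩
      rw [← hm]
      exact Polynomial.natDegree_le_of_dvd hg.2.2 hf0
    rw [← Finset.sum_subset h3]
    · have h4 : f.natDegree = ((normalizedFactors f).map natDegree).sum := by
        rw [← Polynomial.natDegree_multiset_prod _ (zero_notMem_normalizedFactors f)]
        have h5 := Polynomial.leadingCoeff_mul_prod_normalizedFactors f
        rw [hf.leadingCoeff, map_one, one_mul] at h5
        rw [h5]
      rw [← hm]
      conv_lhs => rw [h4]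
      rw [Finset.sum_multiset_map_count]
      exact Finset.sum_congr rfl fun g _ => by rw [smul_eq_mul]
    · intro g _ hg
      rw [Multiset.mem_toFinset] at hg
      rw [Multiset.count_eq_zero_of_notMem hg, zero_mul]
  · intro d _ d' _ hdd
    rw [Function.onFun, Finset.disjoint_left]
    intro g hg hg'
    exact hdd (((mem_irr g).1 hg).2.2.symm.trans ((mem_irr g).1 hg').2.2)

/-- number of multiples of `g ^ e` among the smooth polynomials -/
lemma rec_count (p K m d e : ℕ) [Fact p.Prime] (g : (ZMod p)[X]) (hg : g ∈ Irr p d) (he : 1 ≤ e) :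
    ((open Classical in (Smo p K m).filter fun f => g ^ e ∣ f).card) =
      if e * d ≤ m ∧ d ≤ K then (Smo p K (m - e * d)).card else 0 := by
  classical
  obtain ⟨hg1, hg2, hg3⟩ := (mem_irr g).1 hg
  have hge : (g ^ e).Monic := hg1.pow e
  have hged : (g ^ e).natDegree = e * d := by rw [Polynomial.natDegree_pow, hg3]
  split_ifs with h
  · symm
    refine Finset.card_bij' (fun f _ => g ^ e * f) (fun f _ => f /ₘ g ^ e) ?_ ?_ ?_ ?_
    · intro f hf
      obtain ⟨hf1, hf2, hf3⟩ := (mem_smo f).1 hf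
      rw [Finset.mem_filter, mem_smo]
      refine ⟨⟨hge.mul hf1, ?_, ?_⟩, Dvd.intro _ rfl⟩
      · rw [hge.natDegree_mul hf1, hged, hf2]
        omega
      · intro q hq hqf
        rcases (hq.prime.dvd_mul).1 hqf with h1 | h1
        · have h2 : q ∣ g := hq.prime.dvd_of_dvd_pow h1
          have h3 := Polynomial.natDegree_le_of_dvd h2 hg2.ne_zero
          omega
        · exact hf3 q hq h1
    · intro f hf
      rw [Finset.mem_filter] at hf
      obtain ⟨hf1, hf2, hf3⟩ := (mem_smo f).1 hf.1
      obtain ⟨f', rfl⟩ := hf.2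
      have h1 : g ^ e * f' /ₘ g ^ e = f' := Polynomial.mul_divByMonic_cancel_left _ hge
      rw [h1]
      have h2 : f'.Monic := hge.of_mul_monic_left hf1
      rw [mem_smo]
      refine ⟨h2, ?_, fun q hq hqf => hf3 q hq (hqf.trans (Dvd.intro_left _ rfl))⟩
      rw [hge.natDegree_mul h2, hged] at hf2
      omega
    · intro f _
      exact Polynomial.mul_divByMonic_cancel_left _ hge
    · intro f hf
      rw [Finset.mem_filter] at hf
      obtain ⟨f', rfl⟩ := hf.2
      have h1 : g ^ e * f' /ₘ g ^ e = f' := Polynomial.mul_divByMonic_cancel_left _ hge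
      show g ^ e * (g ^ e * f' /ₘ g ^ e) = g ^ e * f'
      rw [h1]
  · rw [Finset.card_eq_zero, Finset.filter_eq_empty_iff]
    intro f hf hdvd
    obtain ⟨hf1, hf2, hf3⟩ := (mem_smo f).1 hf
    refine h ⟨?_, ?_⟩
    · rw [← hged, ← hf2]
      exact Polynomial.natDegree_le_of_dvd hdvd hf1.ne_zero
    · rw [← hg3]
      exact hf3 g hg2 ((dvd_pow_self g (by omega)).trans hdvd)

theorem rec_smo (p K m : ℕ) [Fact p.Prime] :
    m * (Smo p K m).card =
      ∑ j ∈ Finset.Icc 1 m, (∑ d ∈ (Nat.divisors j).filter (· ≤ K), d * (Irr p d).card) * (Smo p K (m - j)).card := by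
  classical
  have h1 : m * (Smo p K m).card = ∑ f ∈ Smo p K m, ∑ d ∈ Finset.Ioc 0 m, ∑ g ∈ Irr p d,
      ∑ e ∈ Finset.Icc 1 m, (if g ^ e ∣ f then d else 0) := by
    rw [mul_comm, ← smul_eq_mul, ← Finset.sum_const]
    refine Finset.sum_congr rfl fun f hf => ?_
    obtain ⟨hf1, hf2, -⟩ := (mem_smo f).1 hf
    exact rec_deg p m f hf1 hf2
  have h2 : ∑ f ∈ Smo p K m, ∑ d ∈ Finset.Ioc 0 m, ∑ g ∈ Irr p d,
      ∑ e ∈ Finset.Icc 1 m, (if g ^ e ∣ f then d else 0) =
      ∑ d ∈ Finset.Ioc 0 m, ∑ g ∈ Irr p d, ∑ e ∈ Finset.Icc 1 m,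
        (if e * d ≤ m ∧ d ≤ K then (Smo p K (m - e * d)).card else 0) * d := by
    rw [Finset.sum_comm]
    refine Finset.sum_congr rfl fun d _ => ?_
    rw [Finset.sum_comm]
    refine Finset.sum_congr rfl fun g hg => ?_
    rw [Finset.sum_comm]
    refine Finset.sum_congr rfl fun e he => ?_
    rw [← Finset.sum_filter, Finset.sum_const, smul_eq_mul,
      rec_count p K m d e g hg (Finset.mem_Icc.1 he).1]
  have h3 : ∀ d ∈ Finset.Ioc 0 m, ∑ g ∈ Irr p d, ∑ e ∈ Finset.Icc 1 m,
        (if e * d ≤ m ∧ d ≤ K then (Smo p K (m - e * d)).card else 0) * d =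
      ∑ j ∈ Finset.Icc 1 m, if d ∣ j ∧ d ≤ K then d * (Irr p d).card * (Smo p K (m - j)).card
        else 0 := by
    intro d hd
    have hd0 : 0 < d := (Finset.mem_Ioc.1 hd).1
    rw [Finset.sum_const, smul_eq_mul]
    by_cases hdK : d ≤ K
    · simp only [hdK, and_true]
      rw [← Finset.sum_filter]
      have h4 : ∑ e ∈ Finset.Icc 1 m, (if e * d ≤ m then (Smo p K (m - e * d)).card else 0) * d =
          ∑ j ∈ (Finset.Icc 1 m).filter (fun j => d ∣ j), (Smo p K (m - j)).card * d := by
        have h5 : ∑ e ∈ Finset.Icc 1 m, (if e * d ≤ m then (Smo p K (m - e * d)).card else 0) * d =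
            ∑ e ∈ (Finset.Icc 1 m).filter (fun e => e * d ≤ m), (Smo p K (m - e * d)).card * d := by
          rw [Finset.sum_filter]
          refine Finset.sum_congr rfl fun e _ => ?_
          split_ifs
          · rfl
          · rw [zero_mul]
        rw [h5]
        refine Finset.sum_nbij' (fun e => e * d) (fun j => j / d) ?_ ?_ ?_ ?_ ?_
        · intro e he
          rw [Finset.mem_filter, Finset.mem_Icc] at he
          rw [Finset.mem_filter, Finset.mem_Icc]
          refine ⟨⟨Nat.mul_pos he.1.1 hd0, he.2⟩, Dvd.intro_left _ rfl⟩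
        · intro j hj
          rw [Finset.mem_filter, Finset.mem_Icc] at hj
          rw [Finset.mem_filter, Finset.mem_Icc, Nat.div_mul_cancel hj.2]
          refine ⟨⟨Nat.div_pos (Nat.le_of_dvd hj.1.1 hj.2) hd0, (Nat.div_le_self _ _).trans hj.1.2⟩,
            hj.1.2⟩
        · intro e _
          exact Nat.mul_div_cancel _ hd0
        · intro j hj
          rw [Finset.mem_filter] at hj
          exact Nat.div_mul_cancel hj.2
        · intro e _; rfl
      rw [h4, Finset.mul_sum]
      exact Finset.sum_congr rfl fun j _ => by ring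
    · simp only [hdK, and_false, if_false, zero_mul, Finset.sum_const_zero, mul_zero]
  rw [h1, h2, Finset.sum_congr rfl h3, Finset.sum_comm]
  refine Finset.sum_congr rfl fun j hj => ?_
  rw [Finset.mem_Icc] at hj
  rw [← Finset.sum_filter, Finset.sum_mul]
  have h4 : (Finset.Ioc 0 m).filter (fun d => d ∣ j ∧ d ≤ K) =
      (Nat.divisors j).filter (· ≤ K) := by
    ext d
    rw [Finset.mem_filter, Finset.mem_filter, Finset.mem_Ioc, Nat.mem_divisors]
    constructor
    · rintro ⟨-, h5, h6⟩
      exact ⟨⟨h5, by omega⟩, h6⟩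
    · rintro ⟨⟨h5, -⟩, h6⟩
      have h7 := Nat.le_of_dvd (by omega) h5
      have h8 := Nat.pos_of_dvd_of_pos h5 (by omega)
      exact ⟨⟨h8, by omega⟩, h5, h6⟩
  rw [h4]

end Pool.H64.IR
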