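import Pool.Agent.H64.IR.UNI
import Pool.Agent.H64.IR.CMP2
import Pool.Agent.H64.IR.HCM1
import Pool.Agent.H64.IR.HCM2
import Pool.Agent.H64.IR.ZBM

/-! MODULE REE (project MP_a758cf_pr, IR; overview: team-store H64_a758cf.md)
The key estimate (RE). For families s_i of finite sets of monic irreducible polynomials over ZMod p_i with total degree <= theta n:
| avg prod_i prod_{g in s_i} BB g (adj b) - prod_i prod_{g in s_i} beta g | <= (2 sum_i sum_{g in s_i} beta g + e^{-cn}) prod prod beta.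
Proof. (1) uni_gen/uni with C_i = comp (prod s_i) (size = sum of degrees): XC = X1 (prod s_i) = prod (kerc - 1) (cmp1, x1_prod), HC/p^k = 1 (hcm1), so dividing by
prod (q_g - 1): avg prod prod ZZ g = (1 +- e^{-cn}) prod prod beta.
(2) for i0, g0 in s_i0: uni_gen with the i0 block replaced by fromBlocks (comp (prod s_i0)) 0 0 (comp g0) (size <= 2 theta n): by cmp2, hcm2
avg [prod prod ZZ * (kerc g0 - q0)] <= (1 + e^{-cn}) q0 prod prod beta   (HC/p^(k+d) <= p^d = q0).
(3) telescoping: 0 <= prod ZZ - prod BB <= sum_{i0,g0} (ZZ g0 - BB g0) prod_{others} ZZ <= sum prod_{all} ZZ (kerc g0 - q0)/(q0(q0-1)) (0 <= BB <= ZZ, BB <= 1; lemma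
prod z - prod b <= sum_a (z_a - b_a) prod_{others} z). Average: <= 2 sum beta g0 * prod beta (1+e^{-cn} <= 2).
-/

set_option autoImplicit false

namespace Pool.H64.IR

open Finset Polynomial

/-- `XC` is invariant under reindexing. -/
lemma ree_xc_reindex {n : ℕ} {κ κ' : Type} [Fintype κ] [DecidableEq κ] [Fintype κ'] [DecidableEq κ']
    {p : ℕ} [Fact p.Prime] (e : κ ≃ κ') (C : Matrix κ κ (ZMod p)) (A : Matrix (Fin n) (Fin n) (ZMod p)) :
    XC (C.submatrix e.symm e.symm) A = XC C A := by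
  unfold XC
  refine Fintype.sum_equiv (Matrix.reindex (Equiv.refl (Fin n)) e.symm) _ _ (fun V => ?_)
  apply ind_congr
  have h1 : FullRank (Matrix.reindex (Equiv.refl (Fin n)) e.symm V) ↔ FullRank V := by
    unfold FullRank
    have := linearIndependent_equiv (R := ZMod p) e (f := fun a : κ' => fun i : Fin n => V i a)
    rw [← this]
    rfl
  rw [h1]
  refine and_congr Iff.rfl ?_
  have h2 : V = (Matrix.reindex (Equiv.refl (Fin n)) e.symm V).submatrix id e.symm := by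
    ext i j; simp
  set W := Matrix.reindex (Equiv.refl (Fin n)) e.symm V with hW
  rw [h2]
  have h3 : A * W.submatrix id e.symm = (A * W).submatrix id e.symm := by
    ext i j; simp [Matrix.mul_apply]
  have h4 : W.submatrix id e.symm * C.submatrix e.symm e.symm = (W * C).submatrix id e.symm := by
    rw [← Matrix.submatrix_mul_equiv W C id e.symm e.symm]
  rw [h3, h4]
  constructor
  · intro h
    ext i j
    have := congrFun (congrFun h i) (e j)
    simpa using this
  · intro h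
    rw [h]

/-- `HC` is invariant under reindexing. -/
lemma ree_hc_reindex {κ κ' : Type} [Fintype κ] [DecidableEq κ] [Fintype κ'] [DecidableEq κ']
    {p : ℕ} [Fact p.Prime] (e : κ ≃ κ') (C : Matrix κ κ (ZMod p)) :
    HC (C.submatrix e.symm e.symm) = HC C := by
  unfold HC
  refine Fintype.sum_equiv (Matrix.reindex e.symm e.symm) _ _ (fun S => ?_)
  apply ind_congr
  have h2 : S = (Matrix.reindex e.symm e.symm S).submatrix e.symm e.symm := by
    ext i j; simp
  set W := Matrix.reindex e.symm e.symm S with hW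
  rw [h2]
  have hs : ∀ M : Matrix κ κ (ZMod p), (M.submatrix e.symm e.symm).IsSymm ↔ M.IsSymm := by
    intro M
    constructor
    · intro h
      ext i j
      have := congrFun (congrFun h (e i)) (e j)
      simpa [Matrix.IsSymm, Matrix.transpose] using this
    · intro h
      exact h.submatrix _
  rw [Matrix.submatrix_mul_equiv W C e.symm e.symm e.symm, hs, hs]

/-- telescoping inequality -/
lemma ree_tel {α : Type} [DecidableEq α] (T : Finset α) (z b : α → ℝ) (h0 : ∀ a ∈ T, 0 ≤ b a)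
    (h1 : ∀ a ∈ T, b a ≤ z a) :
    (∏ a ∈ T, z a) - ∏ a ∈ T, b a ≤ ∑ a ∈ T, (z a - b a) * ∏ x ∈ T.erase a, z x := by
  induction T using Finset.induction_on with
  | empty => simp
  | insert a T ha ih =>
    have h0' : ∀ x ∈ T, 0 ≤ b x := fun x hx => h0 x (Finset.mem_insert_of_mem hx)
    have h1' : ∀ x ∈ T, b x ≤ z x := fun x hx => h1 x (Finset.mem_insert_of_mem hx)
    have hb : 0 ≤ b a := h0 a (Finset.mem_insert_self _ _)
    have hz : b a ≤ z a := h1 a (Finset.mem_insert_self _ _)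
    have IH := ih h0' h1'
    rw [Finset.prod_insert ha, Finset.prod_insert ha, Finset.sum_insert ha, Finset.erase_insert ha]
    have hsum : ∑ x ∈ T, (z x - b x) * ∏ y ∈ (insert a T).erase x, z y =
        z a * ∑ x ∈ T, (z x - b x) * ∏ y ∈ T.erase x, z y := by
      rw [Finset.mul_sum]
      refine Finset.sum_congr rfl (fun x hx => ?_)
      have hne : a ≠ x := fun h => ha (h ▸ hx)
      rw [Finset.erase_insert_of_ne hne, Finset.prod_insert (fun h => ha (Finset.mem_of_mem_erase h))]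
      ring
    rw [hsum]
    have hS : 0 ≤ ∑ x ∈ T, (z x - b x) * ∏ y ∈ T.erase x, z y := by
      refine Finset.sum_nonneg (fun x hx => mul_nonneg (sub_nonneg.2 (h1' x hx)) ?_)
      exact Finset.prod_nonneg (fun y hy => le_trans (h0' y (Finset.mem_of_mem_erase hy)) (h1' y (Finset.mem_of_mem_erase hy)))
    have hBZ : ∏ x ∈ T, b x ≤ ∏ x ∈ T, z x := Finset.prod_le_prod h0' h1'
    have h5 : b a * ((∏ x ∈ T, z x) - ∏ x ∈ T, b x) ≤ z a * ∑ x ∈ T, (z x - b x) * ∏ y ∈ T.erase x, z y :=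
      mul_le_mul hz IH (sub_nonneg.2 hBZ) (le_trans hb hz)
    nlinarith [h5]

section aux

variable {p : ℕ} [Fact p.Prime]

/-- `q = p ^ deg g > 1` -/
lemma ree_q (g : (ZMod p)[X]) (hi : Irreducible g) : (1 : ℝ) < (p : ℝ) ^ g.natDegree := by
  have hp : (1 : ℝ) < p := by exact_mod_cast (Fact.out : p.Prime).one_lt
  exact one_lt_pow₀ hp (hi.natDegree_pos).ne'

lemma ree_beta_pos (g : (ZMod p)[X]) (hi : Irreducible g) : 0 < beta g := by
  unfold beta
  exact div_pos one_pos (sub_pos.2 (ree_q g hi))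

lemma ree_kerc (g : (ZMod p)[X]) (hi : Irreducible g) {n : ℕ} (A : Matrix (Fin n) (Fin n) (ZMod p)) :
    kerc g A - 1 = ZZ g A * ((p : ℝ) ^ g.natDegree - 1) := by
  unfold ZZ
  rw [div_mul_cancel₀]
  exact (sub_pos.2 (ree_q g hi)).ne'

/-- the product over a finite set in terms of `ZZ` -/
lemma ree_x1 (s : Finset (ZMod p)[X]) (hs : ∀ g ∈ s, g.Monic ∧ Irreducible g) {n : ℕ}
    (A : Matrix (Fin n) (Fin n) (ZMod p)) :
    X1 (∏ g ∈ s, g) A = (∏ g ∈ s, ZZ g A) * ∏ g ∈ s, ((p : ℝ) ^ g.natDegree - 1) := by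
  rw [x1_prod s hs A, ← Finset.prod_mul_distrib]
  exact Finset.prod_congr rfl (fun g hg => ree_kerc g (hs g hg).2 A)

lemma ree_monic (s : Finset (ZMod p)[X]) (hs : ∀ g ∈ s, g.Monic ∧ Irreducible g) : (∏ g ∈ s, g).Monic :=
  Polynomial.monic_prod_of_monic _ _ (fun g hg => (hs g hg).1)

lemma ree_deg (s : Finset (ZMod p)[X]) (hs : ∀ g ∈ s, g.Monic ∧ Irreducible g) :
    (∏ g ∈ s, g).natDegree = ∑ g ∈ s, g.natDegree :=
  Polynomial.natDegree_prod_of_monic _ _ (fun g hg => (hs g hg).1)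

/-- the block matrix used for the second moment -/
lemma ree_one_xc {n : ℕ} (f : (ZMod p)[X]) (A : Matrix (Fin n) (Fin n) (ZMod p)) :
    XC (Matrix.fromBlocks (comp f) 0 0 (comp (1 : (ZMod p)[X]))) A = XC (comp f) A := by
  have : IsEmpty (Fin (1 : (ZMod p)[X]).natDegree) := by rw [Polynomial.natDegree_one]; infer_instance
  rw [← ree_xc_reindex (Equiv.sumEmpty (Fin f.natDegree) (Fin (1 : (ZMod p)[X]).natDegree))
    (Matrix.fromBlocks (comp f) 0 0 (comp (1 : (ZMod p)[X]))) A]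
  congr 1

lemma ree_one_hc (f : (ZMod p)[X]) :
    HC (Matrix.fromBlocks (comp f) 0 0 (comp (1 : (ZMod p)[X]))) = HC (comp f) := by
  have : IsEmpty (Fin (1 : (ZMod p)[X]).natDegree) := by rw [Polynomial.natDegree_one]; infer_instance
  rw [← ree_hc_reindex (Equiv.sumEmpty (Fin f.natDegree) (Fin (1 : (ZMod p)[X]).natDegree))
    (Matrix.fromBlocks (comp f) 0 0 (comp (1 : (ZMod p)[X])))]
  congr 1

end aux

theorem ree {ι : Type} [Fintype ι] (p : ι → ℕ) [∀ i, Fact (p i).Prime] (hp : ∀ i, p i ≠ 2) (hinj : Function.Injective p) :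
    ∃ theta : ℝ, 0 < theta ∧ ∃ c : ℝ, 0 < c ∧ ∃ n0 : ℕ, ∀ n : ℕ, n0 ≤ n →
      ∀ s : ∀ i, Finset (ZMod (p i))[X], (∀ i, ∀ g ∈ s i, g.Monic ∧ Irreducible g) →
      (∀ i, ((∑ g ∈ s i, g.natDegree : ℕ) : ℝ) ≤ theta * n) →
      |avg (fun b : Edge n → Bool => ∏ i, ∏ g ∈ s i, BB g (adj (ZMod (p i)) b)) - ∏ i, ∏ g ∈ s i, beta g| ≤
        (2 * (∑ i, ∑ g ∈ s i, beta g) + Real.exp (-c * n)) * ∏ i, ∏ g ∈ s i, beta g := by
  classical
  obtain ⟨θ, hθ, c, hc, n0, H⟩ := uni_gen p hp hinj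
  refine ⟨θ / 2, by positivity, c, hc, n0, ?_⟩
  intro n hn s hs hdeg
  set E := Real.exp (-c * n) with hE
  have hE0 : 0 < E := Real.exp_pos _
  have hE1 : E ≤ 1 := by
    rw [hE]
    apply Real.exp_le_one_iff.2
    have : (0 : ℝ) ≤ n := Nat.cast_nonneg n
    nlinarith
  have hθn : 0 ≤ θ * n := by positivity
  have hf : ∀ i, (∏ g ∈ s i, g).Monic := fun i => ree_monic (s i) (hs i)
  have hfd : ∀ i, (∏ g ∈ s i, g).natDegree = ∑ g ∈ s i, g.natDegree := fun i => ree_deg (s i) (hs i)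
  have hq1 : ∀ i, ∀ g ∈ s i, (0 : ℝ) < (p i : ℝ) ^ g.natDegree - 1 := fun i g hg => sub_pos.2 (ree_q g (hs i g hg).2)
  set Q : ℝ := ∏ i, ∏ g ∈ s i, ((p i : ℝ) ^ g.natDegree - 1) with hQdef
  have hQ : 0 < Q := Finset.prod_pos (fun i _ => Finset.prod_pos (fun g hg => hq1 i g hg))
  set Bt : ℝ := ∏ i, ∏ g ∈ s i, beta g with hBt
  have hBtQ : Bt * Q = 1 := by
    rw [hBt, hQdef, ← Finset.prod_mul_distrib]
    refine Finset.prod_eq_one (fun i _ => ?_)
    rw [← Finset.prod_mul_distrib]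
    refine Finset.prod_eq_one (fun g hg => ?_)
    unfold beta
    exact div_mul_cancel₀ _ (hq1 i g hg).ne'
  have hBt0 : 0 < Bt := Finset.prod_pos (fun i _ => Finset.prod_pos (fun g hg => ree_beta_pos g (hs i g hg).2))
  have hHC1 : ∀ i, HC (comp (∏ g ∈ s i, g)) / (p i : ℝ) ^ (∏ g ∈ s i, g).natDegree = 1 := by
    intro i
    rw [hcm1 _ (hf i)]
    apply div_self
    have : (0 : ℝ) < p i := by exact_mod_cast (Fact.out : (p i).Prime).pos
    positivity
  set P : (Edge n → Bool) → ℝ := fun b => ∏ i, ∏ g ∈ s i, ZZ g (adj (ZMod (p i)) b) with hP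
  -- step 1
  have s1 : |avg P - Bt| ≤ E * Bt := by
    have h := H n hn (fun i => Fin (∏ g ∈ s i, g).natDegree) (by
      intro i
      rw [Fintype.card_fin, hfd i]
      refine (hdeg i).trans ?_
      linarith) (fun i => comp (∏ g ∈ s i, g))
    simp only [Fintype.card_fin, hHC1, Finset.prod_const_one] at h
    have e1 : (fun b : Edge n → Bool => ∏ i, XC (comp (∏ g ∈ s i, g)) (adj (ZMod (p i)) b)) = fun b => P b * Q := by
      funext b
      rw [hP, hQdef, ← Finset.prod_mul_distrib]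
      refine Finset.prod_congr rfl (fun i _ => ?_)
      rw [cmp1 _ (hf i), ree_x1 (s i) (hs i)]
    rw [e1, avg_mul_const] at h
    have e2 : avg P - Bt = (avg P * Q - 1) * Bt := by
      have : (avg P * Q - 1) * Bt = avg P * (Bt * Q) - Bt := by ring
      rw [this, hBtQ, mul_one]
    rw [e2, abs_mul, abs_of_pos hBt0]
    exact mul_le_mul_of_nonneg_right (by rw [mul_one] at h; exact h) hBt0.le
  -- step 2
  have s2 : ∀ i0 : ι, ∀ g0 ∈ s i0,
      avg (fun b : Edge n → Bool => P b * (kerc g0 (adj (ZMod (p i0)) b) - (p i0 : ℝ) ^ g0.natDegree)) ≤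
        2 * (p i0 : ℝ) ^ g0.natDegree * Bt := by
    intro i0 g0 hg0
    have hg0m := hs i0 g0 hg0
    have hq0 : (0 : ℝ) < (p i0 : ℝ) ^ g0.natDegree := by
      have := ree_q g0 hg0m.2
      linarith
    set h : ∀ i, (ZMod (p i))[X] := Function.update (fun i => (1 : (ZMod (p i))[X])) i0 g0 with hh
    have hh0 : h i0 = g0 := by rw [hh]; exact Function.update_self _ _ _
    have hh1 : ∀ i, i ≠ i0 → h i = 1 := by
      intro i hi
      rw [hh, Function.update_of_ne hi]
    have hmain := H n hn (fun i => Fin (∏ g ∈ s i, g).natDegree ⊕ Fin (h i).natDegree) (by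
      intro i
      have hle : (h i).natDegree ≤ ∑ g ∈ s i, g.natDegree := by
        by_cases hi : i = i0
        · subst hi
          rw [hh0]
          exact Finset.single_le_sum (f := fun g : (ZMod (p i))[X] => g.natDegree) (fun g _ => Nat.zero_le _) hg0
        · rw [hh1 i hi, Polynomial.natDegree_one]
          exact Nat.zero_le _
      rw [Fintype.card_sum, Fintype.card_fin, Fintype.card_fin, hfd i]
      have h2 := hdeg i
      have h3 : ((h i).natDegree : ℝ) ≤ ((∑ g ∈ s i, g.natDegree : ℕ) : ℝ) := by exact_mod_cast hle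
      rw [Nat.cast_add]
      linarith) (fun i => Matrix.fromBlocks (comp (∏ g ∈ s i, g)) 0 0 (comp (h i)))
    -- the main term
    have hHC : ∏ i, (HC (Matrix.fromBlocks (comp (∏ g ∈ s i, g)) 0 0 (comp (h i))) /
        (p i : ℝ) ^ Fintype.card (Fin (∏ g ∈ s i, g).natDegree ⊕ Fin (h i).natDegree)) ≤ (p i0 : ℝ) ^ g0.natDegree := by
      rw [← Finset.mul_prod_erase _ _ (Finset.mem_univ i0)]
      have e1 : ∏ i ∈ Finset.univ.erase i0, (HC (Matrix.fromBlocks (comp (∏ g ∈ s i, g)) 0 0 (comp (h i))) /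
        (p i : ℝ) ^ Fintype.card (Fin (∏ g ∈ s i, g).natDegree ⊕ Fin (h i).natDegree)) = 1 := by
        refine Finset.prod_eq_one (fun i hi => ?_)
        rw [hh1 i (Finset.ne_of_mem_erase hi), ree_one_hc, Fintype.card_sum, Fintype.card_fin, Fintype.card_fin,
          Polynomial.natDegree_one, add_zero]
        exact hHC1 i
      rw [e1, mul_one, hh0, Fintype.card_sum, Fintype.card_fin, Fintype.card_fin]
      have hpp : (0 : ℝ) < p i0 := by exact_mod_cast (Fact.out : (p i0).Prime).pos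
      rw [div_le_iff₀ (by positivity)]
      refine (hcm2 _ _ (hf i0) hg0m.1).trans (le_of_eq ?_)
      rw [← pow_add]
      congr 1
      ring
    have hXC : (fun b : Edge n → Bool => ∏ i, XC (Matrix.fromBlocks (comp (∏ g ∈ s i, g)) 0 0 (comp (h i))) (adj (ZMod (p i)) b)) =
        fun b => (P b * (kerc g0 (adj (ZMod (p i0)) b) - (p i0 : ℝ) ^ g0.natDegree)) * Q := by
      funext b
      have e1 : ∏ i, XC (Matrix.fromBlocks (comp (∏ g ∈ s i, g)) 0 0 (comp (h i))) (adj (ZMod (p i)) b) =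
          (∏ i, X1 (∏ g ∈ s i, g) (adj (ZMod (p i)) b)) * (kerc g0 (adj (ZMod (p i0)) b) - (p i0 : ℝ) ^ g0.natDegree) := by
        rw [← Finset.mul_prod_erase _ _ (Finset.mem_univ i0), ← Finset.mul_prod_erase _ (fun i => X1 (∏ g ∈ s i, g) (adj (ZMod (p i)) b)) (Finset.mem_univ i0)]
        rw [hh0, cmp2 (s i0) (hs i0) g0 hg0]
        have e2 : ∏ i ∈ Finset.univ.erase i0, XC (Matrix.fromBlocks (comp (∏ g ∈ s i, g)) 0 0 (comp (h i))) (adj (ZMod (p i)) b) =
            ∏ i ∈ Finset.univ.erase i0, X1 (∏ g ∈ s i, g) (adj (ZMod (p i)) b) := by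
          refine Finset.prod_congr rfl (fun i hi => ?_)
          rw [hh1 i (Finset.ne_of_mem_erase hi), ree_one_xc, cmp1 _ (hf i)]
        rw [e2]
        ring
      have e3 : ∏ i, X1 (∏ g ∈ s i, g) (adj (ZMod (p i)) b) = P b * Q := by
        rw [hP, hQdef, ← Finset.prod_mul_distrib]
        refine Finset.prod_congr rfl (fun i _ => ?_)
        rw [ree_x1 (s i) (hs i)]
      rw [e1, e3]
      ring
    rw [hXC, avg_mul_const] at hmain
    set M := ∏ i, (HC (Matrix.fromBlocks (comp (∏ g ∈ s i, g)) 0 0 (comp (h i))) /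
        (p i : ℝ) ^ Fintype.card (Fin (∏ g ∈ s i, g).natDegree ⊕ Fin (h i).natDegree)) with hM
    have hM0 : 0 ≤ M := by
      have : 0 ≤ E * M := le_trans (abs_nonneg _) hmain
      exact nonneg_of_mul_nonneg_right this hE0
    have h5 := (abs_le.1 hmain).2
    have h6 : avg (fun b : Edge n → Bool => P b * (kerc g0 (adj (ZMod (p i0)) b) - (p i0 : ℝ) ^ g0.natDegree)) * Q ≤
        2 * (p i0 : ℝ) ^ g0.natDegree := by nlinarith
    calc avg (fun b : Edge n → Bool => P b * (kerc g0 (adj (ZMod (p i0)) b) - (p i0 : ℝ) ^ g0.natDegree))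
        = (avg (fun b : Edge n → Bool => P b * (kerc g0 (adj (ZMod (p i0)) b) - (p i0 : ℝ) ^ g0.natDegree)) * Q) * Bt := by
          rw [mul_assoc, mul_comm Q Bt, hBtQ, mul_one]
      _ ≤ 2 * (p i0 : ℝ) ^ g0.natDegree * Bt := mul_le_mul_of_nonneg_right h6 hBt0.le
  -- step 3
  set T : Finset (Σ i, (ZMod (p i))[X]) := Finset.univ.sigma s with hT
  have hTmem : ∀ a ∈ T, a.2 ∈ s a.1 := fun a ha => (Finset.mem_sigma.1 ha).2
  have s3 : ∀ b : Edge n → Bool, P b - ∏ i, ∏ g ∈ s i, BB g (adj (ZMod (p i)) b) ≤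
      ∑ a ∈ T, (P b * (kerc a.2 (adj (ZMod (p a.1)) b) - (p a.1 : ℝ) ^ a.2.natDegree)) *
        (1 / ((p a.1 : ℝ) ^ a.2.natDegree * ((p a.1 : ℝ) ^ a.2.natDegree - 1))) := by
    intro b
    have hz : P b = ∏ a ∈ T, ZZ a.2 (adj (ZMod (p a.1)) b) := by
      rw [hP, hT, Finset.prod_sigma]
    have hbb : ∏ i, ∏ g ∈ s i, BB g (adj (ZMod (p i)) b) = ∏ a ∈ T, BB a.2 (adj (ZMod (p a.1)) b) := by
      rw [hT, Finset.prod_sigma]
    rw [hbb]
    have htel := ree_tel T (fun a => ZZ a.2 (adj (ZMod (p a.1)) b)) (fun a => BB a.2 (adj (ZMod (p a.1)) b))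
      (fun a _ => ind_nonneg _) (fun a ha => bb_le_zz a.2 (hs a.1 a.2 (hTmem a ha)).1 (hs a.1 a.2 (hTmem a ha)).2 _)
    rw [← hz] at htel
    refine htel.trans (Finset.sum_le_sum (fun a ha => ?_))
    have ham := hs a.1 a.2 (hTmem a ha)
    have hrest : 0 ≤ ∏ x ∈ T.erase a, ZZ x.2 (adj (ZMod (p x.1)) b) :=
      Finset.prod_nonneg (fun x hx => by
        have hxm := hs x.1 x.2 (hTmem x (Finset.mem_of_mem_erase hx))
        exact zz_nonneg x.2 hxm.1 hxm.2 _)
    refine (mul_le_mul_of_nonneg_right (zz_sub_bb a.2 ham.1 ham.2 (adj (ZMod (p a.1)) b)) hrest).trans (le_of_eq ?_)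
    rw [hz, ← Finset.mul_prod_erase _ _ ha]
    ring
  have s4 : 0 ≤ avg P - avg (fun b : Edge n → Bool => ∏ i, ∏ g ∈ s i, BB g (adj (ZMod (p i)) b)) := by
    refine sub_nonneg.2 (avg_mono (fun b => ?_))
    refine Finset.prod_le_prod (fun i _ => Finset.prod_nonneg (fun g _ => ind_nonneg _)) (fun i _ => ?_)
    refine Finset.prod_le_prod (fun g _ => ind_nonneg _) (fun g hg => ?_)
    exact bb_le_zz g (hs i g hg).1 (hs i g hg).2 _
  have s5 : avg P - avg (fun b : Edge n → Bool => ∏ i, ∏ g ∈ s i, BB g (adj (ZMod (p i)) b)) ≤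
      2 * (∑ i, ∑ g ∈ s i, beta g) * Bt := by
    rw [← avg_sub]
    refine (avg_mono s3).trans ?_
    rw [avg_sum]
    have e1 : 2 * (∑ i, ∑ g ∈ s i, beta g) * Bt = ∑ a ∈ T, 2 * beta a.2 * Bt := by
      rw [hT, Finset.sum_sigma, Finset.mul_sum, Finset.sum_mul]
      refine Finset.sum_congr rfl (fun i _ => ?_)
      rw [Finset.mul_sum, Finset.sum_mul]
    rw [e1]
    refine Finset.sum_le_sum (fun a ha => ?_)
    rw [avg_mul_const]
    have hq := hq1 a.1 a.2 (hTmem a ha)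
    have hq' : (0 : ℝ) < (p a.1 : ℝ) ^ a.2.natDegree := by linarith
    refine (mul_le_mul_of_nonneg_right (s2 a.1 a.2 (hTmem a ha)) (by positivity)).trans (le_of_eq ?_)
    unfold beta
    field_simp
  rw [abs_le] at s1 ⊢
  obtain ⟨s1a, s1b⟩ := s1
  have hS : 0 ≤ ∑ i, ∑ g ∈ s i, beta g :=
    Finset.sum_nonneg (fun i _ => Finset.sum_nonneg (fun g hg => (ree_beta_pos g (hs i g hg).2).le))
  have hS2 : 0 ≤ (∑ i, ∑ g ∈ s i, beta g) * Bt := mul_nonneg hS hBt0.le
  constructor <;> nlinarith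

end Pool.H64.IR
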