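import Pool.Agent.H64.IR.Defs

/-! MODULE RK1 (project MP_a758cf_pr, IR; overview: team-store H64_a758cf.md)
Block rank inequality: rank M >= rank (rows in L) + rank (columns in L) - rank (M_LL); for symmetric M the first two are equal.
Proof: for linear maps a (restriction to coordinates in L, surjective), f = M, c (extension by zero): Frobenius inequality
rank(a f c) + rank f >= rank(a f) + rank(f c). [Proof of Frobenius: on the space range f / range (f c) the map induced by a surjects onto
range(a f)/range(a f c), so rank(a f) - rank(a f c) <= rank f - rank(f c).] And M_{L,all} and M_{all,L} are transposes of each other, rank_transpose.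
-/

set_option autoImplicit false

namespace Pool.H64.IR

open Finset Polynomial

private lemma rk1_map_inf {F V W : Type} [Field F] [AddCommGroup V] [Module F V]
    [Module.Finite F V] [AddCommGroup W] [Module F W] (A : V →ₗ[F] W) (q : Submodule F V) :
    Module.finrank F (q.map A) + Module.finrank F ↥(LinearMap.ker A ⊓ q) = Module.finrank F q := by
  have h := LinearMap.finrank_range_add_finrank_ker (A.domRestrict q)
  rw [LinearMap.range_domRestrict, LinearMap.ker_domRestrict] at h
  rw [← h]
  congr 1
  have h1 : Submodule.comap q.subtype (LinearMap.ker A) =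
      Submodule.comap q.subtype (LinearMap.ker A ⊓ q) := by
    ext x
    simp
  rw [h1]
  exact ((Submodule.comapSubtypeEquivOfLe (inf_le_right : LinearMap.ker A ⊓ q ≤ q)).finrank_eq).symm

theorem rk1 {F : Type} [Field F] {ν : Type} [Fintype ν] [DecidableEq ν] (M : Matrix ν ν F) (hM : M.IsSymm)
    (L : ν → Prop) [DecidablePred L] :
    2 * (M.submatrix (fun i : {i // L i} => i.1) id).rank ≤
      M.rank + (M.submatrix (fun i : {i // L i} => i.1) (fun i : {i // L i} => i.1)).rank := by
  classical
  set a : Matrix {i // L i} ν F := (1 : Matrix ν ν F).submatrix (fun i : {i // L i} => i.1) id with ha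
  have h1 : M.submatrix (fun i : {i // L i} => i.1) id = a * M := by
    rw [ha]
    ext i j
    simp [Matrix.mul_apply, Matrix.one_apply]
  have h2 : M.submatrix (fun i : {i // L i} => i.1) (fun i : {i // L i} => i.1) =
      a * (M * a.transpose) := by
    rw [ha]
    ext i j
    simp [Matrix.mul_apply, Matrix.one_apply]
  have h3 : (M * a.transpose).rank = (a * M).rank := by
    rw [← Matrix.rank_transpose (a * M), Matrix.transpose_mul, hM.eq]
  have e1 := rk1_map_inf a.mulVecLin (LinearMap.range M.mulVecLin)
  have e2 := rk1_map_inf a.mulVecLin (LinearMap.range (M * a.transpose).mulVecLin)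
  rw [← LinearMap.range_comp, ← Matrix.mulVecLin_mul] at e1 e2
  have hle : LinearMap.range (M * a.transpose).mulVecLin ≤ LinearMap.range M.mulVecLin := by
    rw [Matrix.mulVecLin_mul]
    exact LinearMap.range_comp_le_range _ _
  have e3 : Module.finrank F ↥(LinearMap.ker a.mulVecLin ⊓ LinearMap.range (M * a.transpose).mulVecLin) ≤
      Module.finrank F ↥(LinearMap.ker a.mulVecLin ⊓ LinearMap.range M.mulVecLin) :=
    Submodule.finrank_mono (inf_le_inf_left _ hle)
  rw [h1, h2]
  change (a * M).rank + _ = M.rank at e1
  change (a * (M * a.transpose)).rank + _ = (M * a.transpose).rank at e2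
  rw [h3] at e2
  omega

end Pool.H64.IR
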