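import Pool.Agent.H64.IR.Defs

/-! MODULE RK2 (project MP_a758cf_pr, IR; overview: team-store H64_a758cf.md)
Counting symmetric matrices of rank r all of whose rows lie in a set R.
Claim: for each symmetric M of rank r there is B (r rows, i.e. an injective function Fin r -> ν, or a finset of size r) such that the rows in B form a basis of the row space; then
M is determined by B and the rows in B: M_BB is nonsingular (M has rank r, rows B span the row space, by symmetry columns B span the column space,
so rank M_BB = r), each row is M_i = sum_{b in B} x_b M_b and x is determined by M_iB = x M_BB where M_iB = (M_Bi)ᵀ is known.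
So M |-> (B, rows in B) is injective on the set and the number is at most (card ν)^r (card R)^r  (r = 0: only M = 0, both sides fine).
-/

set_option autoImplicit false

namespace Pool.H64.IR

open Finset Polynomial

/-- `r` rows spanning the row space -/
lemma rk2_basis {F : Type} [Field F] {ν : Type} [Fintype ν] (M : Matrix ν ν F) {r : ℕ}
    (hr : M.rank = r) : ∃ B : Fin r → ν, ∀ i, M i ∈ Submodule.span F (Set.range fun a => M (B a)) := by
  subst hr
  rw [Matrix.rank_eq_finrank_span_row]
  obtain ⟨f, hf1, hf2, -⟩ := Submodule.exists_fun_fin_finrank_span_eq F (Set.range M.row)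
  choose B hB using hf1
  refine ⟨B, fun i => ?_⟩
  have h1 : (fun a => M (B a)) = f := funext fun a => hB a
  rw [h1, hf2]
  exact Submodule.subset_span ⟨i, rfl⟩

lemma rk2_zero {F : Type} [Field F] {ν : Type} [Fintype ν] {r : ℕ} (M : Matrix ν ν F)
    (hM : M.IsSymm) (B : Fin r → ν)
    (hB : ∀ i, M i ∈ Submodule.span F (Set.range fun a => M (B a))) (w : ν → F)
    (hw : w ∈ Submodule.span F (Set.range fun a => M (B a))) (h0 : ∀ b, w (B b) = 0) : w = 0 := by
  rw [Submodule.mem_span_range_iff_exists_fun] at hw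
  obtain ⟨c, rfl⟩ := hw
  ext i
  have h1 := hB i
  rw [Submodule.mem_span_range_iff_exists_fun] at h1
  obtain ⟨d, hd⟩ := h1
  have h2 : (∑ a, c a • M (B a)) i = ∑ a, c a * M i (B a) := by
    rw [Finset.sum_apply]
    refine Finset.sum_congr rfl fun a _ => ?_
    rw [Pi.smul_apply, smul_eq_mul, hM.apply i (B a)]
  have h3 : ∀ a, M i (B a) = ∑ b, d b * M (B b) (B a) := by
    intro a
    rw [← hd, Finset.sum_apply]
    rfl
  have h4 : ∀ b, ∑ a, c a * M (B b) (B a) = 0 := by
    intro b
    have h5 := h0 b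
    rw [Finset.sum_apply] at h5
    rw [← h5]
    refine Finset.sum_congr rfl fun a _ => ?_
    rw [Pi.smul_apply, smul_eq_mul, hM.apply (B b) (B a)]
  rw [h2]
  have h5 : ∑ a, c a * M i (B a) = ∑ b, d b * ∑ a, c a * M (B b) (B a) := by
    have h6 : ∀ a, c a * M i (B a) = ∑ b, d b * (c a * M (B b) (B a)) := by
      intro a
      rw [h3 a, Finset.mul_sum]
      exact Finset.sum_congr rfl fun b _ => by ring
    rw [Finset.sum_congr rfl fun a _ => h6 a, Finset.sum_comm]
    exact Finset.sum_congr rfl fun b _ => by rw [Finset.mul_sum]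
  rw [h5]
  simp [h4]

lemma rk2_inj {F : Type} [Field F] {ν : Type} [Fintype ν] {r : ℕ} (M M' : Matrix ν ν F)
    (hM : M.IsSymm) (hM' : M'.IsSymm) (B : Fin r → ν)
    (hB : ∀ i, M i ∈ Submodule.span F (Set.range fun a => M (B a)))
    (hB' : ∀ i, M' i ∈ Submodule.span F (Set.range fun a => M' (B a)))
    (h : ∀ a, M (B a) = M' (B a)) : M = M' := by
  have h1 : (fun a => M' (B a)) = fun a => M (B a) := funext fun a => (h a).symm
  have h2 : ∀ i, M i - M' i = 0 := by
    intro i
    refine rk2_zero M hM B hB _ (Submodule.sub_mem _ (hB i) ?_) fun b => ?_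
    · rw [← h1]; exact hB' i
    · rw [Pi.sub_apply, ← hM.apply i (B b), ← hM'.apply i (B b), h b, sub_self]
  ext i j
  exact congrFun (sub_eq_zero.1 (h2 i)) j

theorem rk2 {F : Type} [Field F] [Fintype F] [DecidableEq F] {ν : Type} [Fintype ν] [DecidableEq ν] (R : Finset (ν → F)) (r : ℕ) :
    (∑ M : Matrix ν ν F, ind (M.IsSymm ∧ M.rank = r ∧ ∀ i, M i ∈ R)) ≤ (Fintype.card ν : ℝ) ^ r * (R.card : ℝ) ^ r := by
  classical
  set S : Finset (Matrix ν ν F) := univ.filter fun M => M.IsSymm ∧ M.rank = r ∧ ∀ i, M i ∈ R with hS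
  have h1 : (∑ M : Matrix ν ν F, ind (M.IsSymm ∧ M.rank = r ∧ ∀ i, M i ∈ R)) = (S.card : ℝ) := by
    rw [hS, Finset.card_filter, Nat.cast_sum]
    refine Finset.sum_congr rfl fun M _ => ?_
    by_cases h : M.IsSymm ∧ M.rank = r ∧ ∀ i, M i ∈ R
    · rw [ind_true h, if_pos h, Nat.cast_one]
    · rw [ind_false h, if_neg h, Nat.cast_zero]
  rw [h1]
  rcases isEmpty_or_nonempty (Fin r → ν) with hE | hE
  · have hS0 : S = ∅ := by
      rw [hS, Finset.filter_eq_empty_iff]
      rintro M - ⟨-, hM, -⟩
      obtain ⟨B, -⟩ := rk2_basis M hM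
      exact hE.elim B
    rw [hS0, Finset.card_empty, Nat.cast_zero]
    positivity
  have h2 : ∀ M : Matrix ν ν F, ∃ B : Fin r → ν, M.rank = r →
      ∀ i, M i ∈ Submodule.span F (Set.range fun a => M (B a)) := by
    intro M
    by_cases h : M.rank = r
    · obtain ⟨B, hB⟩ := rk2_basis M h
      exact ⟨B, fun _ => hB⟩
    · exact ⟨hE.some, fun h' => absurd h' h⟩
  choose B hB using h2
  have h3 : S.card ≤ ((Fintype.piFinset fun _ : Fin r => (univ : Finset ν)) ×ˢ
      (Fintype.piFinset fun _ : Fin r => R)).card := by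
    refine Finset.card_le_card_of_injOn (fun M => (B M, fun a => M (B M a))) ?_ ?_
    · intro M hM
      rw [Finset.mem_coe, hS, Finset.mem_filter] at hM
      rw [Finset.mem_coe, Finset.mem_product, Fintype.mem_piFinset, Fintype.mem_piFinset]
      exact ⟨fun _ => Finset.mem_univ _, fun a => hM.2.2.2 _⟩
    · intro M hM M' hM' h
      rw [Finset.mem_coe, hS, Finset.mem_filter] at hM hM'
      have h4 : B M = B M' := congrArg Prod.fst h
      have h5 : (fun a => M (B M a)) = fun a => M' (B M' a) := congrArg Prod.snd h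
      have h6 := hB M hM.2.2.1
      have h7 := hB M' hM'.2.2.1
      rw [← h4] at h5 h7
      exact rk2_inj M M' hM.2.1 hM'.2.1 (B M) h6 h7 fun a => congrFun h5 a
  have h4 : (S.card : ℝ) ≤ ((((Fintype.piFinset fun _ : Fin r => (univ : Finset ν)) ×ˢ
      (Fintype.piFinset fun _ : Fin r => R)).card : ℕ) : ℝ) := by exact_mod_cast h3
  refine h4.trans (le_of_eq ?_)
  rw [Finset.card_product, Fintype.card_piFinset_const, Fintype.card_piFinset_const,
    Finset.card_univ]
  push_cast
  ring

end Pool.H64.IR
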