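import Pool.Agent.H64.IR.RK1
import Pool.Agent.H64.IR.RK2
import Pool.Agent.H64.IR.COLS

/-! MODULE SG5 (project MP_a758cf_pr, IR; overview: team-store H64_a758cf.md)
Case (b) of the low-rank sum for a fixed set H of rows (complement L = {i // i notin H}), d real, all rows i in L are light: at most d n nonzero
off-diagonal entries (so at most d n + 1 nonzero entries). g = number of light vectors, any real bound g >= 1 for the number of vectors in F^L with
at most d n + 1 nonzero entries. kp = 1 + (q-1) c1 (>= 1). Let h = card H.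
Claim: sum over symmetric M of rank r, light outside H, of c1^(wt M) <= (r+1)^3 (n^r g^r) n^r kp^(n r/2) q^(r h) (n^r q^(r h)), written with
kp^(n * r / 2) as a real power.
Proof: M <-> (P,Q,S) = (M_LL, M_LH, M_HH), S symmetric (block decomposition). c1^(wt M) <= c1^(nnz Q) because the L x H entries are distinct unordered pairs. Let
r2 = rank P, a = rank(fromCols P Q) - r2, so r2 + 2a <= r by rk1. P: at most n^r2 g^r2 (rk2 with ν = L, R = light vectors). Q: cols_count
<= n^a (kp^(card L))^a (q^(r2+a))^h <= n^r kp^(n r/2) q^(r h). S: rank S <= r (submatrix), symmetric; number <= sum_{r' <= r} n^r' (q^h)^r' <=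
(r+1) n^r q^(r h) (rk2 with R = all). Number of pairs (r2,a) is at most (r+1)^2. All bounds are monotone (n >= 1 since r >= 1).
-/

set_option autoImplicit false
set_option linter.unusedSectionVars false

namespace Pool.H64.IR

open Finset Polynomial

section sg5aux

variable {F : Type} [Field F] [Fintype F] [DecidableEq F]

/-- the rank of a submatrix (arbitrary row and column maps) is at most the rank -/
theorem sg5_rank_sub {m n m' n' : Type} [Fintype m] [Fintype n] [Fintype m'] [Fintype n']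
    [DecidableEq m] [DecidableEq n] (A : Matrix m n F) (f : m' → m) (g : n' → n) :
    (A.submatrix f g).rank ≤ A.rank := by
  have h : A.submatrix f g =
      (1 : Matrix m m F).submatrix f id * A * (1 : Matrix n n F).submatrix id g := by
    ext i j
    simp [Matrix.mul_apply, Matrix.submatrix_apply, Matrix.one_apply]
  rw [h]
  exact (Matrix.rank_mul_le_left _ _).trans (Matrix.rank_mul_le_right _ _)

variable {n : ℕ} (H : Finset (Fin n))

/-- the blocks -/
def sg5P (M : Matrix (Fin n) (Fin n) F) : Matrix {i : Fin n // i ∉ H} {i : Fin n // i ∉ H} F :=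
  M.submatrix (fun i => i.1) (fun i => i.1)

def sg5Q (M : Matrix (Fin n) (Fin n) F) : Matrix {i : Fin n // i ∉ H} {i : Fin n // i ∈ H} F :=
  M.submatrix (fun i => i.1) (fun i => i.1)

def sg5S (M : Matrix (Fin n) (Fin n) F) : Matrix {i : Fin n // i ∈ H} {i : Fin n // i ∈ H} F :=
  M.submatrix (fun i => i.1) (fun i => i.1)

theorem sg5_inj {M N : Matrix (Fin n) (Fin n) F} (hM : M.IsSymm) (hN : N.IsSymm)
    (hP : sg5P H M = sg5P H N) (hQ : sg5Q H M = sg5Q H N) (hS : sg5S H M = sg5S H N) : M = N := by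
  ext i j
  by_cases hi : i ∈ H
  · by_cases hj : j ∈ H
    · exact congrFun (congrFun hS ⟨i, hi⟩) ⟨j, hj⟩
    · rw [← hM.apply i j, ← hN.apply i j]
      exact congrFun (congrFun hQ ⟨j, hj⟩) ⟨i, hi⟩
  · by_cases hj : j ∈ H
    · exact congrFun (congrFun hQ ⟨i, hi⟩) ⟨j, hj⟩
    · exact congrFun (congrFun hP ⟨i, hi⟩) ⟨j, hj⟩

/-- the number of nonzero entries of `Q` is at most `wt M` -/
theorem sg5_wt {M : Matrix (Fin n) (Fin n) F} (hM : M.IsSymm) :
    (univ.filter fun x : {i : Fin n // i ∉ H} × {i : Fin n // i ∈ H} => sg5Q H M x.1 x.2 ≠ 0).card ≤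
      wt M := by
  unfold wt
  have hne : ∀ x : {i : Fin n // i ∉ H} × {i : Fin n // i ∈ H}, x.1.1 ≠ x.2.1 := by
    intro x h
    exact x.1.2 (h ▸ x.2.2)
  let φ : {i : Fin n // i ∉ H} × {i : Fin n // i ∈ H} → Edge n := fun x =>
    if h : x.1.1 < x.2.1 then ⟨(x.1.1, x.2.1), h⟩
    else ⟨(x.2.1, x.1.1), lt_of_le_of_ne (not_lt.1 h) (hne x).symm⟩
  refine Finset.card_le_card_of_injOn φ ?_ ?_
  · intro x hx
    rw [Finset.mem_coe, Finset.mem_filter] at hx
    rw [Finset.mem_coe, Finset.mem_filter]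
    refine ⟨mem_univ _, ?_⟩
    have hx' : M x.1.1 x.2.1 ≠ 0 := hx.2
    by_cases h : x.1.1 < x.2.1
    · simp only [φ, dif_pos h]
      exact hx'
    · simp only [φ, dif_neg h]
      rw [hM.apply]
      exact hx'
  · intro x hx y hy hxy
    by_cases h : x.1.1 < x.2.1
    · by_cases h' : y.1.1 < y.2.1
      · simp only [φ, dif_pos h, dif_pos h', Subtype.mk.injEq, Prod.mk.injEq] at hxy
        exact Prod.ext (Subtype.ext hxy.1) (Subtype.ext hxy.2)
      · simp only [φ, dif_pos h, dif_neg h', Subtype.mk.injEq, Prod.mk.injEq] at hxy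
        exact absurd (hxy.1 ▸ y.2.2) x.1.2
    · by_cases h' : y.1.1 < y.2.1
      · simp only [φ, dif_neg h, dif_pos h', Subtype.mk.injEq, Prod.mk.injEq] at hxy
        exact absurd (hxy.1 ▸ x.2.2) y.1.2
      · simp only [φ, dif_neg h, dif_neg h', Subtype.mk.injEq, Prod.mk.injEq] at hxy
        exact Prod.ext (Subtype.ext hxy.2) (Subtype.ext hxy.1)

/-- the block rank inequality -/
theorem sg5_rank {M : Matrix (Fin n) (Fin n) F} (hM : M.IsSymm) :
    2 * (Matrix.fromCols (sg5P H M) (sg5Q H M)).rank ≤ M.rank + (sg5P H M).rank := by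
  have h1 := rk1 M hM (fun i => i ∉ H)
  have h2 : (Matrix.fromCols (sg5P H M) (sg5Q H M)).rank ≤
      (M.submatrix (fun i : {i // i ∉ H} => i.1) id).rank := by
    have h3 : Matrix.fromCols (sg5P H M) (sg5Q H M) =
        (M.submatrix (fun i : {i // i ∉ H} => i.1) id).submatrix id
          (Sum.elim (fun i : {i // i ∉ H} => i.1) (fun i : {i // i ∈ H} => i.1)) := by
      ext i j
      rcases j with j | j <;> rfl
    rw [h3]
    exact sg5_rank_sub _ _ _
  have h4 : (sg5P H M).rank =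
      (M.submatrix (fun i : {i // i ∉ H} => i.1) (fun i : {i // i ∉ H} => i.1)).rank := rfl
  rw [h4]
  refine le_trans (Nat.mul_le_mul_left 2 h2) h1

theorem sg5_rankP {M : Matrix (Fin n) (Fin n) F} :
    (sg5P H M).rank ≤ (Matrix.fromCols (sg5P H M) (sg5Q H M)).rank := by
  have h3 : sg5P H M = (Matrix.fromCols (sg5P H M) (sg5Q H M)).submatrix id Sum.inl := by
    ext i j
    rfl
  conv_lhs => rw [h3]
  exact sg5_rank_sub _ _ _

/-- the light vectors -/
noncomputable def sg5R (d : ℝ) : Finset ({i : Fin n // i ∉ H} → F) :=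
  univ.filter fun v => ((univ.filter fun i => v i ≠ 0).card : ℝ) ≤ d * n + 1

theorem sg5_light {M : Matrix (Fin n) (Fin n) F} (d : ℝ)
    (h : ∀ i, i ∉ H → ((univ.filter fun j => j ≠ i ∧ M i j ≠ 0).card : ℝ) ≤ d * n)
    (i : {i : Fin n // i ∉ H}) : sg5P H M i ∈ sg5R (F := F) H d := by
  unfold sg5R
  rw [Finset.mem_filter]
  refine ⟨mem_univ _, ?_⟩
  have h1 := h i.1 i.2
  have h2 : (univ.filter fun j : {i : Fin n // i ∉ H} => sg5P H M i j ≠ 0).card ≤
      (univ.filter fun j => j ≠ i.1 ∧ M i.1 j ≠ 0).card + 1 := by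
    have h3 : ((univ.filter fun j : {i : Fin n // i ∉ H} => sg5P H M i j ≠ 0).map
        (Function.Embedding.subtype _)) ⊆
        insert i.1 (univ.filter fun j => j ≠ i.1 ∧ M i.1 j ≠ 0) := by
      intro j hj
      rw [Finset.mem_map] at hj
      obtain ⟨k, hk, rfl⟩ := hj
      rw [Finset.mem_filter] at hk
      rw [Finset.mem_insert, Finset.mem_filter]
      by_cases hki : k.1 = i.1
      · left
        exact hki
      · right
        exact ⟨mem_univ _, hki, hk.2⟩
    have h4 := Finset.card_le_card h3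
    rw [Finset.card_map] at h4
    exact h4.trans (Finset.card_insert_le _ _)
  have h5 : ((univ.filter fun j : {i : Fin n // i ∉ H} => sg5P H M i j ≠ 0).card : ℝ) ≤
      ((univ.filter fun j => j ≠ i.1 ∧ M i.1 j ≠ 0).card : ℝ) + 1 := by exact_mod_cast h2
  linarith

/-- the three factors -/
noncomputable def sg5FP (d : ℝ) (r2 : ℕ)
    (P : Matrix {i : Fin n // i ∉ H} {i : Fin n // i ∉ H} F) : ℝ :=
  ind (P.IsSymm ∧ P.rank = r2 ∧ ∀ i, P i ∈ sg5R (F := F) H d)

noncomputable def sg5FQ (c1 : ℝ) (a : ℕ)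
    (P : Matrix {i : Fin n // i ∉ H} {i : Fin n // i ∉ H} F)
    (Q : Matrix {i : Fin n // i ∉ H} {i : Fin n // i ∈ H} F) : ℝ :=
  ind ((Matrix.fromCols P Q).rank = P.rank + a) *
    c1 ^ (univ.filter fun x : {i : Fin n // i ∉ H} × {i : Fin n // i ∈ H} => Q x.1 x.2 ≠ 0).card

noncomputable def sg5FS (r : ℕ) (S : Matrix {i : Fin n // i ∈ H} {i : Fin n // i ∈ H} F) : ℝ :=
  ∑ r' ∈ range (r + 1), ind (S.IsSymm ∧ S.rank = r' ∧ ∀ i, S i ∈ (univ : Finset _))

noncomputable def sg5G (c1 d : ℝ) (r : ℕ)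
    (t : Matrix {i : Fin n // i ∉ H} {i : Fin n // i ∉ H} F ×
      Matrix {i : Fin n // i ∉ H} {i : Fin n // i ∈ H} F ×
      Matrix {i : Fin n // i ∈ H} {i : Fin n // i ∈ H} F) : ℝ :=
  ∑ x ∈ (range (r + 1) ×ˢ range (r + 1)).filter (fun x => x.1 + 2 * x.2 ≤ r),
    sg5FP H d x.1 t.1 * (sg5FQ H c1 x.2 t.1 t.2.1 * sg5FS H r t.2.2)

theorem sg5_FS_nonneg (r : ℕ) (S : Matrix {i : Fin n // i ∈ H} {i : Fin n // i ∈ H} F) :
    0 ≤ sg5FS H r S := Finset.sum_nonneg fun _ _ => ind_nonneg _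

theorem sg5_FQ_nonneg (c1 : ℝ) (h0 : 0 < c1) (a : ℕ)
    (P : Matrix {i : Fin n // i ∉ H} {i : Fin n // i ∉ H} F)
    (Q : Matrix {i : Fin n // i ∉ H} {i : Fin n // i ∈ H} F) : 0 ≤ sg5FQ H c1 a P Q :=
  mul_nonneg (ind_nonneg _) (pow_nonneg h0.le _)

theorem sg5_G_nonneg (c1 d : ℝ) (h0 : 0 < c1) (r : ℕ) (t) : 0 ≤ sg5G (F := F) H c1 d r t :=
  Finset.sum_nonneg fun _ _ => mul_nonneg (ind_nonneg _)
    (mul_nonneg (sg5_FQ_nonneg H c1 h0 _ _ _) (sg5_FS_nonneg H _ _))

/-- pointwise bound -/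
theorem sg5_point (c1 d : ℝ) (h0 : 0 < c1) (h1 : c1 < 1) (r : ℕ)
    {M : Matrix (Fin n) (Fin n) F} (hM : M.IsSymm) (hr : M.rank = r)
    (h : ∀ i, i ∉ H → ((univ.filter fun j => j ≠ i ∧ M i j ≠ 0).card : ℝ) ≤ d * n) :
    c1 ^ wt M ≤ sg5G H c1 d r (sg5P H M, sg5Q H M, sg5S H M) := by
  have hrk := sg5_rank H hM
  have hrP := sg5_rankP (F := F) H (M := M)
  rw [hr] at hrk
  obtain ⟨a, ha⟩ : ∃ a, (Matrix.fromCols (sg5P H M) (sg5Q H M)).rank = (sg5P H M).rank + a :=
    ⟨_, (Nat.add_sub_of_le hrP).symm⟩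
  have hra : (sg5P H M).rank + 2 * a ≤ r := by omega
  have hmem : ((sg5P H M).rank, a) ∈
      (range (r + 1) ×ˢ range (r + 1)).filter (fun x => x.1 + 2 * x.2 ≤ r) := by
    rw [Finset.mem_filter, Finset.mem_product, Finset.mem_range, Finset.mem_range]
    refine ⟨⟨?_, ?_⟩, hra⟩
    · show (sg5P H M).rank < r + 1
      omega
    · show a < r + 1
      omega
  unfold sg5G
  refine le_trans ?_ (Finset.single_le_sum (f := fun x : ℕ × ℕ =>
    sg5FP H d x.1 (sg5P H M) * (sg5FQ H c1 x.2 (sg5P H M) (sg5Q H M) * sg5FS H r (sg5S H M)))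
    (fun _ _ => mul_nonneg (ind_nonneg _)
    (mul_nonneg (sg5_FQ_nonneg H c1 h0 _ _ _) (sg5_FS_nonneg H _ _))) hmem)
  have hFP : sg5FP H d (sg5P H M).rank (sg5P H M) = 1 := by
    refine ind_true ⟨?_, rfl, fun i => sg5_light H d h i⟩
    ext i j
    exact hM.apply _ _
  have hFS : 1 ≤ sg5FS H r (sg5S H M) := by
    unfold sg5FS
    have hSr : (sg5S H M).rank ≤ r := by
      rw [← hr]
      exact sg5_rank_sub _ _ _
    have hmem' : (sg5S H M).rank ∈ range (r + 1) := Finset.mem_range.2 (by omega)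
    refine le_trans ?_ (Finset.single_le_sum (f := fun r' =>
      ind ((sg5S H M).IsSymm ∧ (sg5S H M).rank = r' ∧ ∀ i, sg5S H M i ∈ (univ : Finset _)))
      (fun _ _ => ind_nonneg _) hmem')
    refine le_of_eq (ind_true ⟨?_, rfl, fun i => mem_univ _⟩).symm
    ext i j
    exact hM.apply _ _
  have hFQ : c1 ^ wt M ≤ sg5FQ H c1 a (sg5P H M) (sg5Q H M) := by
    unfold sg5FQ
    rw [ind_true ha, one_mul]
    exact pow_le_pow_of_le_one h0.le h1.le (sg5_wt H hM)
  show c1 ^ wt M ≤ sg5FP H d (sg5P H M).rank (sg5P H M) *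
    (sg5FQ H c1 a (sg5P H M) (sg5Q H M) * sg5FS H r (sg5S H M))
  rw [hFP, one_mul]
  calc c1 ^ wt M ≤ sg5FQ H c1 a (sg5P H M) (sg5Q H M) := hFQ
    _ = sg5FQ H c1 a (sg5P H M) (sg5Q H M) * 1 := (mul_one _).symm
    _ ≤ _ := mul_le_mul_of_nonneg_left hFS (sg5_FQ_nonneg H c1 h0 _ _ _)

/-- from matrices to triples of blocks -/
theorem sg5_sum (c1 d : ℝ) (h0 : 0 < c1) (h1 : c1 < 1) (r : ℕ) :
    (∑ M : Matrix (Fin n) (Fin n) F, ind (M.IsSymm ∧ M.rank = r ∧
        ∀ i, i ∉ H → ((univ.filter fun j => j ≠ i ∧ M i j ≠ 0).card : ℝ) ≤ d * n) * c1 ^ wt M) ≤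
      ∑ t, sg5G (F := F) H c1 d r t := by
  classical
  let cond : Matrix (Fin n) (Fin n) F → Prop := fun M => M.IsSymm ∧ M.rank = r ∧
        ∀ i, i ∉ H → ((univ.filter fun j => j ≠ i ∧ M i j ≠ 0).card : ℝ) ≤ d * n
  let Φ : Matrix (Fin n) (Fin n) F → Matrix {i : Fin n // i ∉ H} {i : Fin n // i ∉ H} F ×
      Matrix {i : Fin n // i ∉ H} {i : Fin n // i ∈ H} F ×
      Matrix {i : Fin n // i ∈ H} {i : Fin n // i ∈ H} F := fun M => (sg5P H M, sg5Q H M, sg5S H M)
  have hΦ : Set.InjOn Φ (univ.filter cond : Finset (Matrix (Fin n) (Fin n) F)) := by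
    intro M hM N hN hMN
    rw [Finset.mem_coe, Finset.mem_filter] at hM hN
    have e1 : sg5P H M = sg5P H N := congrArg Prod.fst hMN
    have e2 : sg5Q H M = sg5Q H N := congrArg (fun t => t.2.1) hMN
    have e3 : sg5S H M = sg5S H N := congrArg (fun t => t.2.2) hMN
    exact sg5_inj H hM.2.1 hN.2.1 e1 e2 e3
  calc (∑ M : Matrix (Fin n) (Fin n) F, ind (cond M) * c1 ^ wt M)
      = ∑ M ∈ univ.filter cond, c1 ^ wt M := by
        rw [Finset.sum_filter]
        refine Finset.sum_congr rfl fun M _ => ?_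
        by_cases hM : cond M
        · rw [ind_true hM, one_mul, if_pos hM]
        · rw [ind_false hM, zero_mul, if_neg hM]
    _ ≤ ∑ M ∈ univ.filter cond, sg5G H c1 d r (Φ M) := by
        refine Finset.sum_le_sum fun M hM => ?_
        rw [Finset.mem_filter] at hM
        exact sg5_point H c1 d h0 h1 r hM.2.1 hM.2.2.1 hM.2.2.2
    _ = ∑ t ∈ (univ.filter cond).image Φ, sg5G H c1 d r t := (Finset.sum_image hΦ).symm
    _ ≤ ∑ t, sg5G (F := F) H c1 d r t :=
        Finset.sum_le_sum_of_subset_of_nonneg (Finset.subset_univ _)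
          (fun t _ _ => sg5_G_nonneg H c1 d h0 r t)

/-- the sum over `P` -/
theorem sg5_sumP (d g : ℝ) (hg1 : 1 ≤ g) (hn : 1 ≤ n) (r r2 : ℕ) (hr2 : r2 ≤ r)
    (hg : ∑ v : {i : Fin n // i ∉ H} → F,
      ind (((univ.filter fun i => v i ≠ 0).card : ℝ) ≤ d * n + 1) ≤ g) :
    (∑ P : Matrix {i : Fin n // i ∉ H} {i : Fin n // i ∉ H} F, sg5FP H d r2 P) ≤
      (n : ℝ) ^ r * g ^ r := by
  have h1 := rk2 (F := F) (ν := {i : Fin n // i ∉ H}) (sg5R H d) r2
  have hcard : ((Fintype.card {i : Fin n // i ∉ H} : ℕ) : ℝ) ≤ n := by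
    have : Fintype.card {i : Fin n // i ∉ H} ≤ n := by
      have := Fintype.card_subtype_le (fun i : Fin n => i ∉ H)
      rwa [Fintype.card_fin] at this
    exact_mod_cast this
  have hR : ((sg5R (F := F) H d).card : ℝ) ≤ g := by
    refine le_trans (le_of_eq ?_) hg
    unfold sg5R ind
    classical
    rw [Finset.card_filter]
    push_cast
    refine Finset.sum_congr rfl fun v _ => ?_
    split_ifs <;> rfl
  have hn' : (1 : ℝ) ≤ n := by exact_mod_cast hn
  refine h1.trans (mul_le_mul ?_ ?_ (pow_nonneg (Nat.cast_nonneg _) _)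
    (pow_nonneg (by linarith) _))
  · exact (pow_le_pow_left₀ (Nat.cast_nonneg _) hcard _).trans (pow_le_pow_right₀ hn' hr2)
  · exact (pow_le_pow_left₀ (Nat.cast_nonneg _) hR _).trans (pow_le_pow_right₀ hg1 hr2)

/-- the sum over `S` -/
theorem sg5_sumS (hn : 1 ≤ n) (r : ℕ) :
    (∑ S : Matrix {i : Fin n // i ∈ H} {i : Fin n // i ∈ H} F, sg5FS H r S) ≤
      ((r : ℝ) + 1) * ((n : ℝ) ^ r * (Fintype.card F : ℝ) ^ (r * H.card)) := by
  unfold sg5FS
  rw [Finset.sum_comm]
  have hn' : (1 : ℝ) ≤ n := by exact_mod_cast hn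
  have hcH : Fintype.card {i : Fin n // i ∈ H} = H.card := Fintype.card_coe H
  have hHn : ((H.card : ℕ) : ℝ) ≤ n := by
    have := Finset.card_le_univ H
    rw [Fintype.card_fin] at this
    exact_mod_cast this
  have hF1 : (1 : ℝ) ≤ Fintype.card F := by
    exact_mod_cast Fintype.card_pos (α := F)
  have hterm : ∀ r' ∈ range (r + 1), (∑ S : Matrix {i : Fin n // i ∈ H} {i : Fin n // i ∈ H} F,
      ind (S.IsSymm ∧ S.rank = r' ∧ ∀ i, S i ∈ (univ : Finset _))) ≤
      (n : ℝ) ^ r * (Fintype.card F : ℝ) ^ (r * H.card) := by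
    intro r' hr'
    rw [Finset.mem_range] at hr'
    have h1 := rk2 (F := F) (ν := {i : Fin n // i ∈ H}) univ r'
    refine h1.trans ?_
    rw [Finset.card_univ, Fintype.card_fun, hcH]
    refine mul_le_mul ?_ ?_ (pow_nonneg (Nat.cast_nonneg _) _) (pow_nonneg (by linarith) _)
    · exact (pow_le_pow_left₀ (Nat.cast_nonneg _) hHn _).trans (pow_le_pow_right₀ hn' (by omega))
    · push_cast
      rw [← pow_mul, mul_comm r H.card]
      exact pow_le_pow_right₀ hF1 (Nat.mul_le_mul_left _ (by omega))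
  refine (Finset.sum_le_sum hterm).trans ?_
  rw [Finset.sum_const, Finset.card_range, nsmul_eq_mul]
  push_cast
  exact le_refl _

/-- the sum over `Q` -/
theorem sg5_sumQ (c1 : ℝ) (h0 : 0 < c1) (h1 : c1 < 1) (hn : 1 ≤ n) (r r2 a : ℕ)
    (hra : r2 + 2 * a ≤ r)
    (P : Matrix {i : Fin n // i ∉ H} {i : Fin n // i ∉ H} F) (hP : P.rank = r2) :
    (∑ Q : Matrix {i : Fin n // i ∉ H} {i : Fin n // i ∈ H} F, sg5FQ H c1 a P Q) ≤
      (n : ℝ) ^ r * ((1 + ((Fintype.card F : ℝ) - 1) * c1) ^ ((n : ℝ) * r / 2)) *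
        (Fintype.card F : ℝ) ^ (r * H.card) := by
  have h2 := cols_count (F := F) (L := {i : Fin n // i ∉ H}) (H := {i : Fin n // i ∈ H})
    c1 h0 h1 P a
  have hn' : (1 : ℝ) ≤ n := by exact_mod_cast hn
  have hcH : Fintype.card {i : Fin n // i ∈ H} = H.card := Fintype.card_coe H
  have hHn : ((H.card : ℕ) : ℝ) ≤ n := by
    have := Finset.card_le_univ H
    rw [Fintype.card_fin] at this
    exact_mod_cast this
  have hcard : Fintype.card {i : Fin n // i ∉ H} ≤ n := by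
    have := Fintype.card_subtype_le (fun i : Fin n => i ∉ H)
    rwa [Fintype.card_fin] at this
  have hF1 : (1 : ℝ) ≤ Fintype.card F := by
    exact_mod_cast Fintype.card_pos (α := F)
  have hk1 : 1 ≤ 1 + ((Fintype.card F : ℝ) - 1) * c1 := by
    have : 0 ≤ ((Fintype.card F : ℝ) - 1) * c1 := mul_nonneg (by linarith) h0.le
    linarith
  refine h2.trans ?_
  rw [hcH, hP]
  refine mul_le_mul (mul_le_mul ?_ ?_ ?_ ?_) ?_ ?_ ?_
  · exact (pow_le_pow_left₀ (Nat.cast_nonneg _) hHn _).trans (pow_le_pow_right₀ hn' (by omega))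
  · rw [← pow_mul, ← Real.rpow_natCast]
    refine Real.rpow_le_rpow_of_exponent_le hk1 ?_
    have h3 : ((Fintype.card {i : Fin n // i ∉ H} : ℕ) : ℝ) ≤ n := by exact_mod_cast hcard
    have h4 : (2 : ℝ) * a ≤ r := by
      have : 2 * a ≤ r := by omega
      exact_mod_cast this
    push_cast
    have h5 : ((Fintype.card {i : Fin n // i ∉ H} : ℕ) : ℝ) * (a : ℝ) ≤ n * a :=
      mul_le_mul_of_nonneg_right h3 (Nat.cast_nonneg _)
    have h6 : (n : ℝ) * a ≤ n * r / 2 := by
      have : (n : ℝ) * (2 * a) ≤ n * r := mul_le_mul_of_nonneg_left h4 (Nat.cast_nonneg _)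
      linarith
    linarith
  · exact pow_nonneg (pow_nonneg (by linarith) _) _
  · exact pow_nonneg (by linarith) _
  · rw [← pow_mul]
    refine pow_le_pow_right₀ hF1 (Nat.mul_le_mul_right _ (by omega))
  · exact pow_nonneg (pow_nonneg (by linarith) _) _
  · exact mul_nonneg (pow_nonneg (by linarith) _) (Real.rpow_nonneg (by linarith) _)

end sg5aux

theorem sg5 {F : Type} [Field F] [Fintype F] [DecidableEq F] (n r : ℕ) (hr : 1 ≤ r) (c1 d g : ℝ) (h0 : 0 < c1) (h1 : c1 < 1)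
    (H : Finset (Fin n)) (hg1 : 1 ≤ g)
    (hg : ∑ v : {i : Fin n // i ∉ H} → F, ind (((univ.filter fun i => v i ≠ 0).card : ℝ) ≤ d * n + 1) ≤ g) :
    (∑ M : Matrix (Fin n) (Fin n) F, ind (M.IsSymm ∧ M.rank = r ∧
        ∀ i, i ∉ H → ((univ.filter fun j => j ≠ i ∧ M i j ≠ 0).card : ℝ) ≤ d * n) * c1 ^ wt M) ≤
      ((r : ℝ) + 1) ^ 3 * ((n : ℝ) ^ r * g ^ r) * (n : ℝ) ^ r *
        ((1 + ((Fintype.card F : ℝ) - 1) * c1) ^ ((n : ℝ) * r / 2)) *
        (Fintype.card F : ℝ) ^ (r * H.card) * ((n : ℝ) ^ r * (Fintype.card F : ℝ) ^ (r * H.card)) := by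
  have hF1 : (1 : ℝ) ≤ Fintype.card F := by
    exact_mod_cast Fintype.card_pos (α := F)
  have hk1 : 1 ≤ 1 + ((Fintype.card F : ℝ) - 1) * c1 := by
    have : 0 ≤ ((Fintype.card F : ℝ) - 1) * c1 := mul_nonneg (by linarith) h0.le
    linarith
  rcases Nat.eq_zero_or_pos n with hn | hn
  · -- no matrix of positive rank
    have hzero : (∑ M : Matrix (Fin n) (Fin n) F, ind (M.IsSymm ∧ M.rank = r ∧
        ∀ i, i ∉ H → ((univ.filter fun j => j ≠ i ∧ M i j ≠ 0).card : ℝ) ≤ d * n) * c1 ^ wt M) = 0 := by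
      refine Finset.sum_eq_zero fun M _ => ?_
      rw [ind_false, zero_mul]
      rintro ⟨-, h, -⟩
      have := Matrix.rank_le_width M
      omega
    rw [hzero]
    refine mul_nonneg (mul_nonneg (mul_nonneg (mul_nonneg (mul_nonneg ?_ ?_) ?_) ?_) ?_) ?_
    · positivity
    · exact mul_nonneg (by positivity) (pow_nonneg (by linarith) _)
    · positivity
    · exact Real.rpow_nonneg (by linarith) _
    · positivity
    · positivity
  · refine (sg5_sum H c1 d h0 h1 r).trans ?_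
    set A : ℝ := (n : ℝ) ^ r * g ^ r with hA
    set B : ℝ := (n : ℝ) ^ r * ((1 + ((Fintype.card F : ℝ) - 1) * c1) ^ ((n : ℝ) * r / 2)) *
        (Fintype.card F : ℝ) ^ (r * H.card) with hB
    set D : ℝ := (n : ℝ) ^ r * (Fintype.card F : ℝ) ^ (r * H.card) with hD
    have hA0 : 0 ≤ A := mul_nonneg (by positivity) (pow_nonneg (by linarith) _)
    have hB0 : 0 ≤ B := mul_nonneg (mul_nonneg (by positivity) (Real.rpow_nonneg (by linarith) _))
      (by positivity)
    have hD0 : 0 ≤ D := by positivity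
    have hS := sg5_sumS (F := F) H hn r
    have hS0 : 0 ≤ ∑ S : Matrix {i : Fin n // i ∈ H} {i : Fin n // i ∈ H} F, sg5FS H r S :=
      Finset.sum_nonneg fun S _ => sg5_FS_nonneg H r S
    have hterm : ∀ x ∈ (range (r + 1) ×ˢ range (r + 1)).filter (fun x => x.1 + 2 * x.2 ≤ r),
        (∑ t : Matrix {i : Fin n // i ∉ H} {i : Fin n // i ∉ H} F ×
          Matrix {i : Fin n // i ∉ H} {i : Fin n // i ∈ H} F ×
          Matrix {i : Fin n // i ∈ H} {i : Fin n // i ∈ H} F,
          sg5FP H d x.1 t.1 * (sg5FQ H c1 x.2 t.1 t.2.1 * sg5FS H r t.2.2)) ≤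
        A * (B * (((r : ℝ) + 1) * D)) := by
      intro x hx
      rw [Finset.mem_filter] at hx
      rw [Fintype.sum_prod_type]
      have hinner : ∀ P : Matrix {i : Fin n // i ∉ H} {i : Fin n // i ∉ H} F,
          (∑ t : Matrix {i : Fin n // i ∉ H} {i : Fin n // i ∈ H} F ×
            Matrix {i : Fin n // i ∈ H} {i : Fin n // i ∈ H} F,
            sg5FP H d x.1 P * (sg5FQ H c1 x.2 P t.1 * sg5FS H r t.2)) ≤
          sg5FP H d x.1 P * (B * (((r : ℝ) + 1) * D)) := by
        intro P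
        rw [← Finset.mul_sum, Fintype.sum_prod_type]
        have h2 : (∑ Q : Matrix {i : Fin n // i ∉ H} {i : Fin n // i ∈ H} F,
            ∑ S : Matrix {i : Fin n // i ∈ H} {i : Fin n // i ∈ H} F,
              sg5FQ H c1 x.2 P Q * sg5FS H r S) =
            (∑ Q : Matrix {i : Fin n // i ∉ H} {i : Fin n // i ∈ H} F, sg5FQ H c1 x.2 P Q) *
              ∑ S : Matrix {i : Fin n // i ∈ H} {i : Fin n // i ∈ H} F, sg5FS H r S := by
          rw [Finset.sum_mul_sum]
        rw [h2]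
        by_cases hP : P.IsSymm ∧ P.rank = x.1 ∧ ∀ i, P i ∈ sg5R (F := F) H d
        · refine mul_le_mul_of_nonneg_left ?_ (ind_nonneg _)
          exact mul_le_mul (sg5_sumQ H c1 h0 h1 hn r x.1 x.2 hx.2 P hP.2.1) hS hS0 hB0
        · have : sg5FP H d x.1 P = 0 := ind_false hP
          rw [this, zero_mul, zero_mul]
      refine (Finset.sum_le_sum fun P _ => hinner P).trans ?_
      rw [← Finset.sum_mul]
      refine mul_le_mul_of_nonneg_right ?_ ?_
      · exact sg5_sumP H d g hg1 hn r x.1 (by omega) hg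
      · exact mul_nonneg hB0 (mul_nonneg (by positivity) hD0)
    unfold sg5G
    rw [Finset.sum_comm]
    refine (Finset.sum_le_sum hterm).trans ?_
    rw [Finset.sum_const, nsmul_eq_mul]
    have hcardle : (((range (r + 1) ×ˢ range (r + 1)).filter
        (fun x => x.1 + 2 * x.2 ≤ r)).card : ℝ) ≤ ((r : ℝ) + 1) ^ 2 := by
      have h3 := Finset.card_filter_le (range (r + 1) ×ˢ range (r + 1))
        (fun x => x.1 + 2 * x.2 ≤ r)
      rw [Finset.card_product, Finset.card_range] at h3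
      have h4 : (((range (r + 1) ×ˢ range (r + 1)).filter
        (fun x => x.1 + 2 * x.2 ≤ r)).card : ℝ) ≤ (((r + 1) * (r + 1) : ℕ) : ℝ) := by
        exact_mod_cast h3
      refine h4.trans (le_of_eq ?_)
      push_cast
      ring
    refine (mul_le_mul_of_nonneg_right hcardle
      (mul_nonneg hA0 (mul_nonneg hB0 (mul_nonneg (by positivity) hD0)))).trans (le_of_eq ?_)
    rw [hB]
    ring

end Pool.H64.IR
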