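import Pool.Agent.H64.IR.POL

/-! MODULE SM1 (project MP_a758cf_pr, IR; overview: team-store H64_a758cf.md)
Deterministic. If S | charpoly A, S monic, all irreducible factors of S of degree <= K, deg S >= D then p^D <= sum_{m <= D+K} sum_{f in Smo p K m} X1 f A.
Proof. There is an A-invariant subspace U of F^n with D <= dim U <= D + K, all of whose vectors are killed by polynomials with all irreducible factors of degree <= K.
[W = {z : killed by S^n (A)}: dim W >= deg S >= D. Take an A-invariant subspace U0 of W of maximal dimension among those of dimension < D... If W has dimension < D contradiction; let U0 be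
an A-invariant subspace of W with dim U0 < D maximal (0 is one); as dim W >= D there is w in W \ U0 such that the annihilator of w modulo U0 is an irreducible polynomial g | S, deg g <= K
(take any w in W \ U0, its annihilator modulo U0 divides S^n, multiply w by a cofactor); U = U0 + F[A] w has dimension dim U0 + deg g <= D - 1 + K and >= D by maximality (it is
an invariant subspace of W bigger than U0).] Every z in U has a monic annihilator f_z (generator) dividing S^n, so K-smooth, of degree <= dim U <= D + K. So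
p^D <= card U <= sum over m <= D+K, f in Smo p K m of X1 f A (z = 0 has f = 1, m = 0).
dim W >= deg S: charpoly(A) = charpoly(A|W) charpoly(A on F^n/W) and S is coprime to the second.
-/

set_option autoImplicit false

namespace Pool.H64.IR

open Finset Polynomial

section gen
variable {F V : Type} [Field F] [AddCommGroup V] [Module F V] [FiniteDimensional F V]

open Module.Basis in
private lemma sm1_charpoly_mul (W : Submodule F V) (e : V →ₗ[F] V) (he : W ≤ W.comap e) :
    e.charpoly = (e.restrict he).charpoly * (W.mapQ W e he).charpoly := by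
  let m := Module.Free.ChooseBasisIndex F W
  let bW : Module.Basis m F W := Module.Free.chooseBasis F W
  let n := Module.Free.ChooseBasisIndex F (V ⧸ W)
  let bQ : Module.Basis n F (V ⧸ W) := Module.Free.chooseBasis F (V ⧸ W)
  let b := sumQuot bW bQ
  let A : Matrix m m F := LinearMap.toMatrix bW bW (e.restrict he)
  let B : Matrix m n F := Matrix.of fun i l ↦
    ((sumQuot bW bQ).repr (e ((sumQuot bW bQ) (Sum.inr l)))) (Sum.inl i)
  let D : Matrix n n F := LinearMap.toMatrix bQ bQ (W.mapQ W e he)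
  suffices LinearMap.toMatrix b b e = Matrix.fromBlocks A B 0 D by
    rw [← LinearMap.charpoly_toMatrix e b, this, ← LinearMap.charpoly_toMatrix (e.restrict he) bW,
      ← LinearMap.charpoly_toMatrix (W.mapQ W e he) bQ, Matrix.charpoly_fromBlocks_zero₂₁]
  ext u v
  cases u with
  | inl i =>
    cases v with
    | inl k =>
      simp only [b, sumQuot_inl, Matrix.fromBlocks_apply₁₁, A, LinearMap.toMatrix_apply]
      apply sumQuot_repr_inl_of_mem
    | inr l => simp [b, LinearMap.toMatrix_apply, Matrix.fromBlocks_apply₁₂, B]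
  | inr j =>
    cases v with
    | inl k =>
      suffices W.mkQ (e (bW k)) = 0 by simp [LinearMap.toMatrix_apply, b, this]
      rw [← LinearMap.mem_ker, Submodule.ker_mkQ]
      exact he (Submodule.coe_mem (bW k))
    | inr l =>
      simp only [LinearMap.toMatrix_apply, sumQuot_repr_inr,
        Matrix.fromBlocks_apply₂₂, b, D]
      rw [← sumQuot_inr bW bQ l, W.mapQ_apply]
      simp

private lemma sm1_root (h : V →ₗ[F] V) (g : F[X]) (hg : Irreducible g) (hd : g ∣ h.charpoly) :
    ∃ w : V, w ≠ 0 ∧ aeval h g w = 0 := by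
  classical
  have : Fact (Irreducible g) := ⟨hg⟩
  let b := Module.finBasis F V
  let M := LinearMap.toMatrix b b h
  let ι := AdjoinRoot.of g
  have h1 : (M.map ι).charpoly.IsRoot (AdjoinRoot.root g) := by
    have h2 : (M.map ι).charpoly = M.charpoly.map ι := by
      exact Matrix.charpoly_map M ι
    rw [h2]
    have h3 : M.charpoly = h.charpoly := LinearMap.charpoly_toMatrix h b
    rw [h3]
    obtain ⟨c, hc⟩ := hd
    rw [hc, Polynomial.map_mul]
    exact (AdjoinRoot.isRoot_root g).dvd (dvd_mul_right _ _)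
  have h4 : Module.End.HasEigenvalue (Matrix.toLin' (M.map ι)) (AdjoinRoot.root g) := by
    rw [Module.End.hasEigenvalue_iff_isRoot_charpoly, Matrix.charpoly_toLin']
    exact h1
  obtain ⟨v, hv⟩ := h4.exists_hasEigenvector
  have h5 := Module.End.aeval_apply_of_hasEigenvector (f := Matrix.toLin' (M.map ι))
    (p := g.map ι) hv
  have h6 : (g.map ι).eval (AdjoinRoot.root g) = 0 := AdjoinRoot.isRoot_root g
  rw [h6, zero_smul] at h5
  have h7 : aeval (Matrix.toLin' (M.map ι)) (g.map ι) = Matrix.toLin' ((aeval M g).map ι) := by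
    have h8 : aeval (Matrix.toLinAlgEquiv' (M.map ι)) (g.map ι) =
        Matrix.toLinAlgEquiv' (aeval (M.map ι) (g.map ι)) := by
      exact Polynomial.aeval_algHom_apply (Matrix.toLinAlgEquiv' : _ ≃ₐ[_] _).toAlgHom _ _
    have h9 : (ι.mapMatrix (aeval M g)) = aeval (M.map ι) (g.map ι) := by
      refine Polynomial.map_aeval_eq_aeval_map (ψ := ι.mapMatrix) (φ := ι) ?_ g M
      ext x i j
      by_cases hij : i = j
      · subst hij
        simp [Matrix.algebraMap_eq_diagonal]
      · simp [Matrix.algebraMap_eq_diagonal, hij]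
    rw [← h9] at h8
    exact h8
  rw [h7] at h5
  have h10 : ((aeval M g).map ι).det = 0 := by
    rw [← Matrix.exists_mulVec_eq_zero_iff]
    exact ⟨v, hv.2, h5⟩
  have h11 : ι (aeval M g).det = 0 := by
    rw [RingHom.map_det]
    exact h10
  have h12 : (aeval M g).det = 0 := by
    exact (map_eq_zero ι).1 h11
  have h13 : (aeval h g).det = 0 := by
    rw [← LinearMap.det_toMatrix b]
    have h14 : LinearMap.toMatrix b b (aeval h g) = aeval M g := by
      have h15 := Polynomial.aeval_algHom_apply (LinearMap.toMatrixAlgEquiv b : _ ≃ₐ[_] _).toAlgHom h g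
      exact h15.symm
    rw [h14]
    exact h12
  have h16 : ¬ Function.Injective (aeval h g) := by
    intro hinj
    have := LinearMap.ker_eq_bot.2 hinj
    have h17 := (LinearMap.isUnit_iff_ker_eq_bot (aeval h g)).2 this
    have h18 := (LinearMap.isUnit_det _ h17)
    rw [h13] at h18
    exact not_isUnit_zero h18
  rw [← LinearMap.ker_eq_bot] at h16
  obtain ⟨w, hw, hw0⟩ := (Submodule.ne_bot_iff _).1 h16
  exact ⟨w, hw0, hw⟩

private lemma sm1_aeval_mul (f : V →ₗ[F] V) (a b : F[X]) (z : V) :
    aeval f (a * b) z = aeval f a (aeval f b z) := by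
  rw [map_mul]; rfl

private lemma sm1_pow_le (f : V →ₗ[F] V) (S : F[X]) (z : V) {N N' : ℕ} (h : N ≤ N')
    (hz : aeval f (S ^ N) z = 0) : aeval f (S ^ N') z = 0 := by
  obtain ⟨c, rfl⟩ := Nat.exists_eq_add_of_le h
  rw [pow_add, mul_comm, sm1_aeval_mul, hz, map_zero]

/-- vectors killed by a power of `S` -/
private def sm1W (f : V →ₗ[F] V) (S : F[X]) : Submodule F V where
  carrier := {z | ∃ N, aeval f (S ^ N) z = 0}
  add_mem' := by
    rintro a b ⟨N, hN⟩ ⟨N', hN'⟩
    refine ⟨max N N', ?_⟩
    rw [map_add, sm1_pow_le f S a (le_max_left _ _) hN, sm1_pow_le f S b (le_max_right _ _) hN', add_zero]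
  zero_mem' := ⟨0, by rw [map_zero]⟩
  smul_mem' := by
    rintro c a ⟨N, hN⟩
    exact ⟨N, by rw [map_smul, hN, smul_zero]⟩

private lemma sm1_mem_W (f : V →ₗ[F] V) (S : F[X]) (z : V) : z ∈ sm1W f S ↔ ∃ N, aeval f (S ^ N) z = 0 := Iff.rfl

private lemma sm1_W_inv (f : V →ₗ[F] V) (S h : F[X]) (z : V) (hz : z ∈ sm1W f S) : aeval f h z ∈ sm1W f S := by
  obtain ⟨N, hN⟩ := hz
  refine ⟨N, ?_⟩
  rw [← sm1_aeval_mul, mul_comm, sm1_aeval_mul, hN, map_zero]

private lemma sm1_aeval_mem (f : V →ₗ[F] V) (U : Submodule F V) (hU : U ≤ U.comap f) (h : F[X]) (z : V)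
    (hz : z ∈ U) : aeval f h z ∈ U := by
  induction h using Polynomial.induction_on' with
  | add a b ha hb => rw [map_add]; exact U.add_mem ha hb
  | monomial n a =>
    rw [aeval_monomial]
    show (algebraMap F (Module.End F V) a) ((f ^ n) z) ∈ U
    have h1 : ∀ m : ℕ, (f ^ m) z ∈ U := by
      intro m
      induction m with
      | zero => exact hz
      | succ m ih =>
        rw [pow_succ']
        exact hU ih
    have h2 : (algebraMap F (Module.End F V) a) ((f ^ n) z) = a • ((f ^ n) z) := by
      rw [Module.algebraMap_end_apply]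
    rw [h2]
    exact U.smul_mem a (h1 n)

private lemma sm1_aeval_restrict (f : V →ₗ[F] V) (U : Submodule F V) (hU : U ≤ U.comap f) (h : F[X]) (z : U) :
    ((aeval (f.restrict hU) h z : U) : V) = aeval f h (z : V) := by
  induction h using Polynomial.induction_on' with
  | add a b ha hb => rw [map_add, map_add, LinearMap.add_apply, LinearMap.add_apply, Submodule.coe_add, ha, hb]
  | monomial n a =>
    rw [aeval_monomial, aeval_monomial]
    have h1 : ∀ m : ℕ, (((f.restrict hU) ^ m) z : V) = (f ^ m) (z : V) := by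
      intro m
      induction m with
      | zero => rfl
      | succ m ih =>
        rw [pow_succ', pow_succ']
        show f (((f.restrict hU) ^ m) z : V) = f ((f ^ m) (z : V))
        rw [ih]
    show (((algebraMap F (Module.End F U) a) (((f.restrict hU) ^ n) z) : U) : V) =
      (algebraMap F (Module.End F V) a) ((f ^ n) z)
    rw [Module.algebraMap_end_apply, Module.algebraMap_end_apply, Submodule.coe_smul, h1]

private lemma sm1_aeval_mapQ (f : V →ₗ[F] V) (U : Submodule F V) (hU : U ≤ U.comap f) (h : F[X]) (z : V) :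
    aeval (U.mapQ U f hU) h (U.mkQ z) = U.mkQ (aeval f h z) := by
  induction h using Polynomial.induction_on' with
  | add a b ha hb => rw [map_add, map_add, LinearMap.add_apply, LinearMap.add_apply, map_add, ha, hb]
  | monomial n a =>
    rw [aeval_monomial, aeval_monomial]
    have h1 : ∀ m : ℕ, ((U.mapQ U f hU) ^ m) (U.mkQ z) = U.mkQ ((f ^ m) z) := by
      intro m
      induction m with
      | zero => rfl
      | succ m ih =>
        rw [pow_succ', pow_succ']
        show (U.mapQ U f hU) (((U.mapQ U f hU) ^ m) (U.mkQ z)) = U.mkQ (f ((f ^ m) z))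
        rw [ih]
        rfl
    show (algebraMap F (Module.End F (V ⧸ U)) a) (((U.mapQ U f hU) ^ n) (U.mkQ z)) =
      U.mkQ ((algebraMap F (Module.End F V) a) ((f ^ n) z))
    rw [Module.algebraMap_end_apply, Module.algebraMap_end_apply, map_smul, h1]

/-- one extension step -/
private lemma sm1_extend (f : V →ₗ[F] V) (S : F[X]) (hS : S.Monic) (K : ℕ)
    (hK : ∀ g : F[X], Irreducible g → g ∣ S → g.natDegree ≤ K) (hdvd : S ∣ f.charpoly)
    (U : Submodule F V) (hU : U ≤ U.comap f) (hUW : U ≤ sm1W f S)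
    (hlt : Module.finrank F U < S.natDegree) :
    ∃ U' : Submodule F V, U' ≤ U'.comap f ∧ U' ≤ sm1W f S ∧ Module.finrank F U < Module.finrank F U' ∧
      Module.finrank F U' ≤ Module.finrank F U + K := by
  classical
  -- the irreducible factor
  obtain ⟨g, hg, hgS, hgq⟩ : ∃ g : F[X], Irreducible g ∧ g ∣ S ∧ g ∣ (U.mapQ U f hU).charpoly := by
    by_contra hcon
    push Not at hcon
    have hcop : IsCoprime S (U.mapQ U f hU).charpoly := by
      rw [← EuclideanDomain.gcd_isUnit_iff]
      by_contra hnu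
      have hne : EuclideanDomain.gcd S (U.mapQ U f hU).charpoly ≠ 0 := by
        intro h0
        rw [EuclideanDomain.gcd_eq_zero_iff] at h0
        exact hS.ne_zero h0.1
      obtain ⟨g, hg, hgd⟩ := WfDvdMonoid.exists_irreducible_factor hnu hne
      exact hcon g hg (hgd.trans (EuclideanDomain.gcd_dvd_left _ _)) (hgd.trans (EuclideanDomain.gcd_dvd_right _ _))
    rw [sm1_charpoly_mul U f hU] at hdvd
    have h1 : S ∣ (f.restrict hU).charpoly := hcop.dvd_of_dvd_mul_right hdvd
    have h2 := Polynomial.natDegree_le_of_dvd h1 (LinearMap.charpoly_monic _).ne_zero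
    rw [LinearMap.charpoly_natDegree] at h2
    omega
  obtain ⟨wq, hwq0, hwq⟩ := sm1_root _ g hg hgq
  obtain ⟨w, rfl⟩ := U.mkQ_surjective wq
  have hwU : w ∉ U := by
    intro h
    exact hwq0 ((Submodule.Quotient.mk_eq_zero U).2 h)
  have hgw : aeval f g w ∈ U := by
    rw [sm1_aeval_mapQ] at hwq
    exact (Submodule.Quotient.mk_eq_zero U).1 hwq
  have hg0 : g ≠ 0 := hg.ne_zero
  -- the cyclic span
  let Z : Submodule F V := Submodule.span F (Set.range fun i : Fin g.natDegree => (f ^ (i : ℕ)) w)
  have hZmem : ∀ q : F[X], q.natDegree < g.natDegree → aeval f q w ∈ Z := by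
    intro q hq
    rw [Polynomial.aeval_eq_sum_range' hq, LinearMap.sum_apply]
    refine Submodule.sum_mem _ fun i hi => ?_
    rw [LinearMap.smul_apply]
    refine Submodule.smul_mem _ _ (Submodule.subset_span ?_)
    exact ⟨⟨i, Finset.mem_range.1 hi⟩, rfl⟩
  have hgdeg : 0 < g.natDegree := hg.natDegree_pos
  have hall : ∀ q : F[X], aeval f q w ∈ U ⊔ Z := by
    intro q
    have h1 : q = g * (q / g) + q % g := (EuclideanDomain.div_add_mod q g).symm
    rw [h1, map_add, LinearMap.add_apply]
    refine Submodule.add_mem _ ?_ ?_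
    · rw [mul_comm, sm1_aeval_mul]
      exact Submodule.mem_sup_left (sm1_aeval_mem f U hU _ _ hgw)
    · refine Submodule.mem_sup_right (hZmem _ ?_)
      exact Polynomial.natDegree_mod_lt q hgdeg.ne'
  have hwZ : w ∈ Z := by
    have h1 := hZmem 1 (by rwa [natDegree_one])
    rwa [map_one] at h1
  refine ⟨U ⊔ Z, ?_, ?_, ?_, ?_⟩
  · intro z hz
    rw [Submodule.mem_comap]
    obtain ⟨u, hu, y, hy, rfl⟩ := Submodule.mem_sup.1 hz
    rw [map_add]
    have hfu : f u ∈ U := hU hu
    refine (U ⊔ Z).add_mem (Submodule.mem_sup_left hfu) ?_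
    have hy' : y ∈ Submodule.span F (Set.range fun i : Fin g.natDegree => (f ^ (i : ℕ)) w) := hy
    refine Submodule.span_induction (p := fun y _ => f y ∈ U ⊔ Z) ?_ ?_ ?_ ?_ hy'
    · rintro _ ⟨i, rfl⟩
      have h1 : f ((f ^ (i : ℕ)) w) = aeval f (X ^ ((i : ℕ) + 1) : F[X]) w := by
        rw [map_pow, aeval_X, pow_succ']
        rfl
      show f ((f ^ (i : ℕ)) w) ∈ U ⊔ Z
      rw [h1]
      exact hall _
    · rw [map_zero]; exact Submodule.zero_mem _
    · intro a b _ _ ha hb
      rw [map_add]; exact Submodule.add_mem _ ha hb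
    · intro c a _ ha
      rw [map_smul]; exact Submodule.smul_mem _ _ ha
  · refine sup_le hUW ?_
    have hwW : w ∈ sm1W f S := by
      obtain ⟨c, hc⟩ := hgS
      have h1 : aeval f S w ∈ U := by
        rw [hc, mul_comm, sm1_aeval_mul]
        exact sm1_aeval_mem f U hU _ _ hgw
      obtain ⟨N, hN⟩ := hUW h1
      exact ⟨N + 1, by rw [pow_succ, sm1_aeval_mul, hN]⟩
    refine Submodule.span_le.2 ?_
    rintro _ ⟨i, rfl⟩
    have h1 := sm1_W_inv f S (X ^ (i : ℕ)) w hwW
    rw [map_pow, aeval_X] at h1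
    exact h1
  · refine Submodule.finrank_lt_finrank_of_lt (lt_of_le_of_ne le_sup_left ?_)
    intro h
    exact hwU (h ▸ Submodule.mem_sup_right hwZ)
  · refine (Submodule.finrank_add_le_finrank_add_finrank U Z).trans ?_
    have h1 : Module.finrank F Z ≤ g.natDegree := by
      have h2 := finrank_range_le_card (R := F) (fun i : Fin g.natDegree => (f ^ (i : ℕ)) w)
      rw [Fintype.card_fin] at h2
      exact h2
    have h3 := hK g hg hgS
    omega

private lemma sm1_exists (f : V →ₗ[F] V) (S : F[X]) (hS : S.Monic) (K : ℕ)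
    (hK : ∀ g : F[X], Irreducible g → g ∣ S → g.natDegree ≤ K) (hdvd : S ∣ f.charpoly)
    (D : ℕ) (hD : D ≤ S.natDegree) :
    ∃ U : Submodule F V, U ≤ U.comap f ∧ U ≤ sm1W f S ∧ D ≤ Module.finrank F U ∧
      Module.finrank F U ≤ D + K := by
  induction D with
  | zero => exact ⟨⊥, bot_le, bot_le, Nat.zero_le _, by simp⟩
  | succ D ih =>
    obtain ⟨U, h1, h2, h3, h4⟩ := ih (by omega)
    by_cases h : D + 1 ≤ Module.finrank F U
    · exact ⟨U, h1, h2, h, by omega⟩
    · obtain ⟨U', a, b, c, d⟩ := sm1_extend f S hS K hK hdvd U h1 h2 (by omega)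
      exact ⟨U', a, b, by omega, by omega⟩

/-- the annihilator of a vector of `U` -/
private lemma sm1_ann (f : V →ₗ[F] V) (S : F[X]) (K : ℕ)
    (hK : ∀ g : F[X], Irreducible g → g ∣ S → g.natDegree ≤ K)
    (U : Submodule F V) (hU : U ≤ U.comap f) (hUW : U ≤ sm1W f S) (z : V) (hz : z ∈ U) :
    ∃ q : F[X], q.Monic ∧ q.natDegree ≤ Module.finrank F U ∧
      (∀ g : F[X], Irreducible g → g ∣ q → g.natDegree ≤ K) ∧
      ∀ g : F[X], aeval f g z = 0 ↔ q ∣ g := by
  classical
  let I : Ideal F[X] :=
    { carrier := {g | aeval f g z = 0}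
      add_mem' := by
        intro a b ha hb
        show aeval f (a + b) z = 0
        rw [map_add, LinearMap.add_apply, show aeval f a z = 0 from ha, show aeval f b z = 0 from hb, add_zero]
      zero_mem' := by
        show aeval f 0 z = 0
        rw [map_zero]; rfl
      smul_mem' := by
        intro c a ha
        show aeval f (c * a) z = 0
        rw [sm1_aeval_mul, show aeval f a z = 0 from ha, map_zero] }
  have hI : ∀ g, g ∈ I ↔ aeval f g z = 0 := fun g => Iff.rfl
  obtain ⟨q0, hq0⟩ := (IsPrincipalIdealRing.principal I).principal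
  have hq0' : ∀ g, aeval f g z = 0 ↔ q0 ∣ g := by
    intro g
    rw [← hI, hq0]
    exact Ideal.mem_span_singleton
  have hc : aeval f (f.restrict hU).charpoly z = 0 := by
    have h1 := sm1_aeval_restrict f U hU (f.restrict hU).charpoly ⟨z, hz⟩
    rw [LinearMap.aeval_self_charpoly] at h1
    exact h1.symm
  have hq0d := (hq0' _).1 hc
  have hq0n : q0 ≠ 0 := by
    intro h
    rw [h, zero_dvd_iff] at hq0d
    exact (LinearMap.charpoly_monic (f.restrict hU)).ne_zero hq0d
  refine ⟨normalize q0, Polynomial.monic_normalize hq0n, ?_, ?_, ?_⟩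
  · have h1 : normalize q0 ∣ (f.restrict hU).charpoly := (normalize_dvd_iff).2 hq0d
    have h2 := Polynomial.natDegree_le_of_dvd h1 (LinearMap.charpoly_monic _).ne_zero
    rwa [LinearMap.charpoly_natDegree] at h2
  · intro g hg hgd
    rw [dvd_normalize_iff] at hgd
    obtain ⟨N, hN⟩ := hUW hz
    have h1 : q0 ∣ S ^ N := (hq0' _).1 hN
    exact hK g hg (hg.prime.dvd_of_dvd_pow (hgd.trans h1))
  · intro g
    rw [hq0' g, normalize_dvd_iff]

end gen



theorem sm1 {p : ℕ} [Fact p.Prime] {n : ℕ} (A : Matrix (Fin n) (Fin n) (ZMod p)) (K D : ℕ) (S : (ZMod p)[X]) (hS : S.Monic)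
    (hK : ∀ g : (ZMod p)[X], Irreducible g → g ∣ S → g.natDegree ≤ K) (hD : D ≤ S.natDegree) (hdvd : S ∣ A.charpoly) :
    (p : ℝ) ^ D ≤ ∑ m ∈ Finset.range (D + K + 1), ∑ f ∈ Smo p K m, X1 f A := by
  classical
  have hp : p.Prime := Fact.out
  have hcp : (Matrix.toLin' A).charpoly = A.charpoly := Matrix.charpoly_toLin' A
  obtain ⟨U, hU, hUW, hU1, hU2⟩ := sm1_exists (Matrix.toLin' A) S hS K hK (hcp ▸ hdvd) D hD
  have hev : ∀ (g : (ZMod p)[X]) (z : Fin n → ZMod p),
      aeval (Matrix.toLin' A) g z = (aeval A g).mulVec z := by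
    intro g z
    have h1 : aeval (Matrix.toLinAlgEquiv' A) g = Matrix.toLinAlgEquiv' (aeval A g) :=
      Polynomial.aeval_algHom_apply (Matrix.toLinAlgEquiv' : _ ≃ₐ[_] _).toAlgHom A g
    exact congrArg (fun L : (Fin n → ZMod p) →ₗ[ZMod p] (Fin n → ZMod p) => L z) h1
  have hcard : (p : ℝ) ^ D ≤ ∑ z : Fin n → ZMod p, ind (z ∈ U) := by
    have h1 : ∑ z : Fin n → ZMod p, ind (z ∈ U) = (Fintype.card U : ℝ) := by
      unfold ind
      rw [Finset.sum_boole, Fintype.card_subtype]
    rw [h1, Module.card_eq_pow_finrank (K := ZMod p) (V := U), ZMod.card]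
    push_cast
    exact pow_le_pow_right₀ (by exact_mod_cast hp.one_lt.le) hU1
  refine hcard.trans ?_
  have h2 : ∑ m ∈ Finset.range (D + K + 1), ∑ f ∈ Smo p K m, X1 f A =
      ∑ z : Fin n → ZMod p, ∑ m ∈ Finset.range (D + K + 1), ∑ f ∈ Smo p K m, ind (IsAnn A z f) := by
    unfold X1
    rw [Finset.sum_comm]
    refine Finset.sum_congr rfl fun m _ => ?_
    rw [Finset.sum_comm]
  rw [h2]
  refine Finset.sum_le_sum fun z _ => ?_
  by_cases hz : z ∈ U
  · obtain ⟨q, hq1, hq2, hq3, hq4⟩ := sm1_ann (Matrix.toLin' A) S K hK U hU hUW z hz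
    have hann : IsAnn A z q := by
      intro g
      rw [← hev, hq4 g]
    have hqm : q ∈ Smo p K q.natDegree := (mem_smo q).2 ⟨hq1, rfl, hq3⟩
    rw [ind_true hz]
    calc (1 : ℝ) = ind (IsAnn A z q) := (ind_true hann).symm
      _ ≤ ∑ f ∈ Smo p K q.natDegree, ind (IsAnn A z f) :=
        Finset.single_le_sum (f := fun f => ind (IsAnn A z f)) (fun f _ => ind_nonneg _) hqm
      _ ≤ _ := Finset.single_le_sum (f := fun m => ∑ f ∈ Smo p K m, ind (IsAnn A z f))
        (fun m _ => Finset.sum_nonneg fun f _ => ind_nonneg _) (Finset.mem_range.2 (by omega))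
  · rw [ind_false hz]
    exact Finset.sum_nonneg fun m _ => Finset.sum_nonneg fun f _ => ind_nonneg _

end Pool.H64.IR
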