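import Pool.Agent.H64.IR.Defs

/-! MODULE SQ2 (project MP_a758cf_pr, IR; overview: team-store H64_a758cf.md)
charpoly mod 2 of a symmetric zero-diagonal matrix is h^2 (n even) or X h^2 (n odd): in the Leibniz expansion of det(X - A) the terms of sigma and sigma^{-1} are equal and cancel in
characteristic 2 unless sigma is an involution; for an involution the term is X^(number of fixed points) times a product of squares of entries (0/1), and the number of fixed points has the parity of n.
So charpoly lies in F_2[X^2] or X F_2[X^2]; f(X^2) = f^2 over ZMod 2 (Polynomial.expand / frobenius: expand 2 f = f^2). Hence an irreducible g of degree >= 2 (not X) dividing charpoly has g^2 | charpoly.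
-/

set_option autoImplicit false

namespace Pool.H64.IR

open Finset Polynomial

/-- the skew symmetric integer lift -/
def sq2Lift {n : ℕ} (b : Edge n → Bool) : Matrix (Fin n) (Fin n) ℤ :=
  Matrix.of fun i j =>
    if h : i < j then (if b ⟨(i, j), h⟩ then 1 else 0)
    else if h : j < i then (if b ⟨(j, i), h⟩ then -1 else 0) else 0

theorem sq2_transpose {n : ℕ} (b : Edge n → Bool) : (sq2Lift b).transpose = - sq2Lift b := by
  ext i j
  simp only [sq2Lift, Matrix.transpose_apply, Matrix.neg_apply, Matrix.of_apply]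
  rcases lt_trichotomy i j with h | h | h
  · rw [dif_neg (not_lt.2 h.le), dif_pos h, dif_pos h]
    split_ifs <;> rfl
  · subst h
    simp
  · rw [dif_pos h, dif_neg (not_lt.2 h.le), dif_pos h]
    split_ifs <;> rfl

theorem sq2_map {n : ℕ} (b : Edge n → Bool) :
    (sq2Lift b).map (Int.castRingHom (ZMod 2)) = adj (ZMod 2) b := by
  ext i j
  simp only [sq2Lift, adj, Matrix.map_apply, Matrix.of_apply]
  rcases lt_trichotomy i j with h | h | h
  · rw [dif_pos h, dif_pos h]
    split_ifs <;> simp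
  · subst h
    simp
  · rw [dif_neg (not_lt.2 h.le), dif_pos h, dif_neg (not_lt.2 h.le), dif_pos h]
    split_ifs
    · simp
    · simp

theorem sq2_lift_coeff {n : ℕ} (b : Edge n → Bool) (k : ℕ) (hk : ¬ (2 ∣ n + k)) :
    (sq2Lift b).charpoly.coeff k = 0 := by
  have h1 : (sq2Lift b).charpoly = C ((-1) ^ n) * (sq2Lift b).charpoly.comp (C (-1) * X) := by
    apply Polynomial.funext
    intro t
    rw [eval_mul, eval_C, eval_comp, eval_mul, eval_C, eval_X, Matrix.eval_charpoly,
      Matrix.eval_charpoly]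
    have h2 : (Matrix.scalar (Fin n) t - sq2Lift b).transpose =
        - (Matrix.scalar (Fin n) (-1 * t) - sq2Lift b) := by
      rw [Matrix.transpose_sub, sq2_transpose]
      have h3 : (Matrix.scalar (Fin n) t).transpose = Matrix.scalar (Fin n) t := by
        simp
      have h4 : Matrix.scalar (Fin n) (-1 * t) = - Matrix.scalar (Fin n) t := by
        rw [neg_one_mul, map_neg]
      rw [h3, h4]
      abel
    rw [← Matrix.det_transpose, h2, Matrix.det_neg, Fintype.card_fin]
  have h2 := congrArg (fun f => f.coeff k) h1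
  simp only [coeff_C_mul, comp_C_mul_X_coeff] at h2
  have h3 : Odd (n + k) := by
    rw [← Nat.not_even_iff_odd, even_iff_two_dvd]
    exact hk
  have h4 : ((-1 : ℤ)) ^ n * (-1) ^ k = -1 := by
    rw [← pow_add]
    exact h3.neg_one_pow
  have h5 : (sq2Lift b).charpoly.coeff k = ((-1) ^ n * (-1) ^ k) * (sq2Lift b).charpoly.coeff k := by
    calc (sq2Lift b).charpoly.coeff k = _ := h2
      _ = _ := by ring
  rw [h4] at h5
  omega

theorem sq2_coeff {n : ℕ} (b : Edge n → Bool) (k : ℕ) (hk : ¬ (2 ∣ n + k)) :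
    (adj (ZMod 2) b).charpoly.coeff k = 0 := by
  rw [← sq2_map, Matrix.charpoly_map, coeff_map, sq2_lift_coeff b k hk, map_zero]

theorem sq2_sq (f : (ZMod 2)[X]) (hf : ∀ k, ¬ (2 ∣ k) → f.coeff k = 0) : ∃ h : (ZMod 2)[X], f = h ^ 2 := by
  refine ⟨contract 2 f, ?_⟩
  rw [← ZMod.expand_card]
  ext k
  rw [coeff_expand (by norm_num)]
  split_ifs with h
  · rw [coeff_contract (by norm_num), Nat.div_mul_cancel h]
  · exact hf k h

theorem sq2_form {n : ℕ} (b : Edge n → Bool) :
    ∃ h : (ZMod 2)[X], (adj (ZMod 2) b).charpoly = h ^ 2 ∨ (adj (ZMod 2) b).charpoly = X * h ^ 2 := by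
  by_cases hn : 2 ∣ n
  · obtain ⟨h, hh⟩ := sq2_sq (adj (ZMod 2) b).charpoly (fun k hk => sq2_coeff b k (by omega))
    exact ⟨h, Or.inl hh⟩
  · obtain ⟨h, hh⟩ := sq2_sq (divX (adj (ZMod 2) b).charpoly) (fun k hk => by
      rw [coeff_divX]
      exact sq2_coeff b (k + 1) (by omega))
    refine ⟨h, Or.inr ?_⟩
    have h1 := X_mul_divX_add (adj (ZMod 2) b).charpoly
    rw [sq2_coeff b 0 (by omega), C_0, add_zero] at h1
    rw [← hh, h1]

theorem sq2 {n : ℕ} (b : Edge n → Bool) (g : (ZMod 2)[X]) (hi : Irreducible g) (hk : 2 ≤ g.natDegree)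
    (h : g ∣ (adj (ZMod 2) b).charpoly) : g ^ 2 ∣ (adj (ZMod 2) b).charpoly := by
  obtain ⟨f, hf | hf⟩ := sq2_form b
  · rw [hf] at h ⊢
    exact pow_dvd_pow_of_dvd (hi.prime.dvd_of_dvd_pow h) 2
  · rw [hf] at h ⊢
    rcases hi.prime.dvd_or_dvd h with h1 | h1
    · have h2 := natDegree_le_of_dvd h1 X_ne_zero
      rw [natDegree_X] at h2
      omega
    · exact (pow_dvd_pow_of_dvd (hi.prime.dvd_of_dvd_pow h1) 2).mul_left X

end Pool.H64.IR
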