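import Pool.Agent.H64.IR.PRT1
import Pool.Agent.H64.IR.PRT2
import Pool.Agent.H64.IR.BRG

/-! MODULE TAB (project MP_a758cf_pr, IR; overview: team-store H64_a758cf.md)
T-A in bits form. theta, D0 from part1 applied to the first 250 odd primes (Nat.nth Nat.Prime (i+1), i : Fin 250). Given e > 0 choose D1 >= D0 with sum_{k >= D1} 1/k^2 <= e/2
(e.g. <= 1/(D1-1)), and for 1 <= k < D1 use part2 with e/(2 D1). Union bound over k (pr_exists_le), red gives HasDeg k modulo all primes.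
-/

set_option autoImplicit false

namespace Pool.H64.IR

open Finset Polynomial

lemma TAB_tail (D1 N : ℕ) (hD : 2 ≤ D1) : ∑ k ∈ Finset.Ico D1 (D1 + N), (1 : ℝ) / (k : ℝ) ^ 2 ≤ 1 / ((D1 : ℝ) - 1) := by
  have hD' : (2 : ℝ) ≤ D1 := by exact_mod_cast hD
  have key : ∑ k ∈ Finset.Ico D1 (D1 + N), (1 : ℝ) / (k : ℝ) ^ 2 ≤ 1 / ((D1 : ℝ) - 1) - 1 / ((D1 + N : ℝ) - 1) := by
    induction N with
    | zero => simp
    | succ N ih =>
      rw [← add_assoc, Finset.sum_Ico_succ_top (by omega)]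
      have h1 : (1 : ℝ) / ((D1 + N : ℕ) : ℝ) ^ 2 ≤ 1 / ((D1 + N : ℝ) - 1) - 1 / ((D1 + (N + 1 : ℕ) : ℝ) - 1) := by
        push_cast
        have h2 : (0 : ℝ) ≤ N := Nat.cast_nonneg N
        set x : ℝ := (D1 : ℝ) + N with hx
        have hx2 : 2 ≤ x := by linarith
        have h3 : (D1 : ℝ) + (N + 1) - 1 = x := by rw [hx]; ring
        rw [h3, div_sub_div _ _ (by linarith) (by linarith), div_le_div_iff₀ (by positivity) (by nlinarith)]
        nlinarith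
      push_cast at h1 ⊢
      push_cast at ih
      linarith
  refine key.trans ?_
  have h2 : (0 : ℝ) ≤ N := Nat.cast_nonneg N
  have : (0 : ℝ) ≤ 1 / ((D1 + N : ℝ) - 1) := by
    apply div_nonneg zero_le_one; linarith
  linarith

theorem ta_bits : ∃ theta : ℝ, 0 < theta ∧ ∀ e : ℝ, 0 < e → ∃ n0 : ℕ, ∀ n : ℕ, n0 ≤ n →
    pr (fun b : Edge n → Bool => ∃ g : ℚ[X], g ∣ (adj ℚ b).charpoly ∧ 1 ≤ g.natDegree ∧ (g.natDegree : ℝ) ≤ theta * n) ≤ e := by
  classical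
  -- the first 250 odd primes
  let p : Fin 250 → ℕ := fun i => Nat.nth Nat.Prime (i + 1)
  haveI hpf : ∀ i, Fact (p i).Prime := fun i => ⟨Nat.prime_nth_prime _⟩
  have hinj : Function.Injective p := by
    intro i j hij
    have h1 := (Nat.nth_strictMono Nat.infinite_setOf_prime).injective hij
    exact Fin.ext (by omega)
  have hp2 : ∀ i, p i ≠ 2 := by
    intro i h
    have h0 : Nat.nth Nat.Prime 0 = 2 := Nat.nth_prime_zero_eq_two
    have h1 : Nat.nth Nat.Prime (i + 1) = Nat.nth Nat.Prime 0 := by rw [h0]; exact h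
    have h2 := (Nat.nth_strictMono Nat.infinite_setOf_prime).injective h1
    omega
  obtain ⟨theta, hth, D0, n0, h1⟩ := part1 (by simp) p hp2 hinj
  refine ⟨theta, hth, fun e he => ?_⟩
  -- threshold D1
  obtain ⟨D1', hD1'⟩ := exists_nat_ge (2 / e + 1)
  set D1 : ℕ := max D0 (max D1' 2) with hD1
  have hD1a : D0 ≤ D1 := le_max_left _ _
  have hD1b : D1' ≤ D1 := (le_max_left _ _).trans (le_max_right _ _)
  have hD1c : 2 ≤ D1 := (le_max_right _ _).trans (le_max_right _ _)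
  have hD1r : (2 : ℝ) ≤ D1 := by exact_mod_cast hD1c
  have hD1e : 1 / ((D1 : ℝ) - 1) ≤ e / 2 := by
    have h2 : (D1' : ℝ) ≤ D1 := by exact_mod_cast hD1b
    rw [div_le_div_iff₀ (by linarith) (by norm_num)]
    have h3 : 2 / e ≤ (D1 : ℝ) - 1 := by linarith
    rw [div_le_iff₀ he] at h3
    linarith
  have he1 : 0 < e / (2 * D1) := by positivity
  -- small degrees
  have hsmall : ∀ k : ℕ, 1 ≤ k → ∃ nk : ℕ, ∀ n : ℕ, nk ≤ n →
      pr (fun b : Edge n → Bool => ∃ g : ℚ[X], g ∣ (adj ℚ b).charpoly ∧ g.natDegree = k) ≤ e / (2 * D1) := by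
    intro k hk
    obtain ⟨t, q, hq, nk, hnk⟩ := part2 k hk (e / (2 * D1)) he1
    refine ⟨nk, fun n hn => (pr_mono ?_).trans (hnk n hn)⟩
    rintro b ⟨g, hg, hgk⟩ i
    obtain ⟨f, hf1, hf2, hf3⟩ := red b g hg (q i)
    exact ⟨f, hf1, hf2.trans hgk, hf3⟩
  choose! nk hnk using hsmall
  refine ⟨max n0 ((Finset.range D1).sup nk), fun n hn => ?_⟩
  have hn0 : n0 ≤ n := (le_max_left _ _).trans hn
  have hnk' : ∀ k, k < D1 → nk k ≤ n := fun k hk =>
    (Finset.le_sup (f := nk) (Finset.mem_range.2 hk)).trans ((le_max_right _ _).trans hn)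
  -- large degrees
  have hlarge : ∀ k : ℕ, D1 ≤ k →
      pr (fun b : Edge n → Bool => (∃ g : ℚ[X], g ∣ (adj ℚ b).charpoly ∧ g.natDegree = k) ∧ (k : ℝ) ≤ theta * n) ≤ 1 / (k : ℝ) ^ 2 := by
    intro k hk
    by_cases hkt : (k : ℝ) ≤ theta * n
    · refine (pr_mono ?_).trans (h1 n k hn0 (hD1a.trans hk) hkt)
      rintro b ⟨⟨g, hg, hgk⟩, -⟩ i
      obtain ⟨f, hf1, hf2, hf3⟩ := red b g hg (p i)
      exact ⟨f, hf1, hf2.trans hgk, hf3⟩
    · have : pr (fun b : Edge n → Bool => (∃ g : ℚ[X], g ∣ (adj ℚ b).charpoly ∧ g.natDegree = k) ∧ (k : ℝ) ≤ theta * n) = 0 := by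
        unfold pr avg
        rw [Finset.sum_eq_zero, zero_div]
        intro b _
        exact ind_false (fun h => hkt h.2)
      rw [this]; positivity
  -- degrees are at most n
  have hsplit : ∀ b : Edge n → Bool,
      (∃ g : ℚ[X], g ∣ (adj ℚ b).charpoly ∧ 1 ≤ g.natDegree ∧ (g.natDegree : ℝ) ≤ theta * n) →
      (∃ k ∈ Finset.Ico 1 D1, ∃ g : ℚ[X], g ∣ (adj ℚ b).charpoly ∧ g.natDegree = k) ∨
      (∃ k ∈ Finset.Ico D1 (D1 + n), (∃ g : ℚ[X], g ∣ (adj ℚ b).charpoly ∧ g.natDegree = k) ∧ (k : ℝ) ≤ theta * n) := by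
    rintro b ⟨g, hg, hg1, hg2⟩
    by_cases hk : g.natDegree < D1
    · exact Or.inl ⟨g.natDegree, Finset.mem_Ico.2 ⟨hg1, hk⟩, g, hg, rfl⟩
    · refine Or.inr ⟨g.natDegree, Finset.mem_Ico.2 ⟨not_lt.1 hk, ?_⟩, ⟨g, hg, rfl⟩, hg2⟩
      have h3 : g.natDegree ≤ (adj ℚ b).charpoly.natDegree :=
        Polynomial.natDegree_le_of_dvd hg (Matrix.charpoly_monic _).ne_zero
      rw [Matrix.charpoly_natDegree_eq_dim, Fintype.card_fin] at h3
      omega
  refine (pr_mono hsplit).trans ((pr_or_le _ _).trans ?_)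
  have hA : pr (fun b : Edge n → Bool => ∃ k ∈ Finset.Ico 1 D1, ∃ g : ℚ[X], g ∣ (adj ℚ b).charpoly ∧ g.natDegree = k) ≤ e / 2 := by
    refine (pr_exists_le _ _).trans ?_
    calc ∑ k ∈ Finset.Ico 1 D1, pr (fun b : Edge n → Bool => ∃ g : ℚ[X], g ∣ (adj ℚ b).charpoly ∧ g.natDegree = k)
        ≤ ∑ _k ∈ Finset.Ico 1 D1, e / (2 * D1) := by
          refine Finset.sum_le_sum fun k hk => ?_
          obtain ⟨hk1, hk2⟩ := Finset.mem_Ico.1 hk
          exact hnk k hk1 n (hnk' k hk2)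
      _ = (D1 - 1 : ℕ) * (e / (2 * D1)) := by rw [Finset.sum_const, Nat.card_Ico, nsmul_eq_mul]
      _ ≤ (D1 : ℝ) * (e / (2 * D1)) := by
          refine mul_le_mul_of_nonneg_right ?_ he1.le
          exact_mod_cast Nat.sub_le D1 1
      _ = e / 2 := by field_simp
  have hB : pr (fun b : Edge n → Bool => ∃ k ∈ Finset.Ico D1 (D1 + n), (∃ g : ℚ[X], g ∣ (adj ℚ b).charpoly ∧ g.natDegree = k) ∧ (k : ℝ) ≤ theta * n) ≤ e / 2 := by
    refine (pr_exists_le _ _).trans ?_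
    refine (Finset.sum_le_sum fun k hk => hlarge k (Finset.mem_Ico.1 hk).1).trans ?_
    exact (TAB_tail D1 n hD1c).trans hD1e
  linarith

end Pool.H64.IR
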