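import Pool.Agent.H64.IR.MAIN1
import Pool.Agent.H64.IR.ONE

/-! MODULE UNI (project MP_a758cf_pr, IR; overview: team-store H64_a758cf.md)
Universality. uni: from main1, one_upper, one_lower (for each i, minimum of theta's and c's over the finite ι): with N_i = NC(C_i) 0/D_i, S_i the sum over M,
H_i = HC/p^k >= 0: (1-e^{-cn}) H_i <= N_i <= S_i <= (1+e^{-cn}) H_i, avg <= prod S_i and avg >= 2 prod N_i - prod S_i; (1+x)^t - 1 <= e^{-c' n} etc.
uni_gen: arbitrary finite index types κ_i with card κ_i <= theta n, by reindexing with κ_i ≃ Fin (card κ_i): XC and HC are invariant under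
Matrix.reindex (sum over V reindexed on columns).
-/

set_option autoImplicit false

namespace Pool.H64.IR

open Finset Polynomial

theorem uni_min {ι : Type} [Fintype ι] (f : ι → ℝ) (hf : ∀ i, 0 < f i) :
    ∃ m : ℝ, 0 < m ∧ ∀ i, m ≤ f i := by
  by_cases h : Nonempty ι
  · obtain ⟨i0, h0⟩ := Finite.exists_min f
    exact ⟨f i0, hf i0, h0⟩
  · exact ⟨1, one_pos, fun i => absurd ⟨i⟩ h⟩

theorem uni_pow_le (e : ℝ) (h0 : 0 ≤ e) (h1 : e ≤ 1) (t : ℕ) :
    (1 + e) ^ t ≤ 1 + ((2 : ℝ) ^ t - 1) * e := by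
  induction t with
  | zero => simp
  | succ t ih =>
    have h2 : (1 : ℝ) ≤ 2 ^ t := one_le_pow₀ (by norm_num)
    have h3 : 0 ≤ ((2 : ℝ) ^ t - 1) * e := mul_nonneg (by linarith) h0
    have h4 : ((2 : ℝ) ^ t - 1) * e * e ≤ ((2 : ℝ) ^ t - 1) * e := by
      calc ((2 : ℝ) ^ t - 1) * e * e ≤ ((2 : ℝ) ^ t - 1) * e * 1 := mul_le_mul_of_nonneg_left h1 h3
        _ = _ := mul_one _
    calc (1 + e) ^ (t + 1) = (1 + e) ^ t * (1 + e) := pow_succ _ _
      _ ≤ (1 + ((2 : ℝ) ^ t - 1) * e) * (1 + e) := mul_le_mul_of_nonneg_right ih (by linarith)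
      _ ≤ 1 + ((2 : ℝ) ^ (t + 1) - 1) * e := by
        rw [pow_succ]
        nlinarith

theorem uni_le_pow (e : ℝ) (h1 : e ≤ 1) (t : ℕ) : 1 - t * e ≤ (1 - e) ^ t := by
  have := one_add_mul_le_pow (a := -e) (by linarith) t
  calc 1 - t * e = 1 + t * -e := by ring
    _ ≤ (1 + -e) ^ t := this
    _ = (1 - e) ^ t := by ring

/-- the elementary part: products of numbers close to `H i` -/
theorem uni_prod {ι : Type} [Fintype ι] (N S H : ι → ℝ) (X e : ℝ) (h0 : 0 ≤ e) (h1 : e ≤ 1)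
    (hH : ∀ i, 0 ≤ H i) (hN : ∀ i, (1 - e) * H i ≤ N i) (hNS : ∀ i, N i ≤ S i)
    (hS : ∀ i, S i ≤ (1 + e) * H i)
    (hX : |X - ∏ i, N i| ≤ ∏ i, S i - ∏ i, N i) :
    |X - ∏ i, H i| ≤ (2 * Fintype.card ι + (2 : ℝ) ^ Fintype.card ι) * e * ∏ i, H i := by
  set t := Fintype.card ι with ht
  have hP : 0 ≤ ∏ i, H i := Finset.prod_nonneg fun i _ => hH i
  have hN0 : ∀ i, 0 ≤ N i := fun i =>
    le_trans (mul_nonneg (by linarith) (hH i)) (hN i)
  have hSP : ∏ i, S i ≤ (1 + e) ^ t * ∏ i, H i := by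
    calc ∏ i, S i ≤ ∏ i, ((1 + e) * H i) :=
          Finset.prod_le_prod (fun i _ => (hN0 i).trans (hNS i)) (fun i _ => hS i)
      _ = (1 + e) ^ t * ∏ i, H i := by
          rw [Finset.prod_mul_distrib, Finset.prod_const, Finset.card_univ]
  have hNP : (1 - e) ^ t * ∏ i, H i ≤ ∏ i, N i := by
    calc (1 - e) ^ t * ∏ i, H i = ∏ i, ((1 - e) * H i) := by
          rw [Finset.prod_mul_distrib, Finset.prod_const, Finset.card_univ]
      _ ≤ ∏ i, N i :=
          Finset.prod_le_prod (fun i _ => mul_nonneg (by linarith) (hH i)) (fun i _ => hN i)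
  have h2 := abs_le.1 hX
  have h3 := mul_le_mul_of_nonneg_right (uni_pow_le e h0 h1 t) hP
  have h4 := mul_le_mul_of_nonneg_right (uni_le_pow e h1 t) hP
  have h5 : 0 ≤ (2 * (t : ℝ)) * e * ∏ i, H i :=
    mul_nonneg (mul_nonneg (by positivity) h0) hP
  have h6 : 0 ≤ e * ∏ i, H i := mul_nonneg h0 hP
  rw [abs_le]
  constructor
  · nlinarith
  · nlinarith

theorem uni_NC_nonneg {n : ℕ} {κ : Type} [Fintype κ] [DecidableEq κ] {p : ℕ} [Fact p.Prime]
    (C : Matrix κ κ (ZMod p)) (M : Matrix (Fin n) (Fin n) (ZMod p)) : 0 ≤ NC C M :=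
  Finset.sum_nonneg fun _ _ => ind_nonneg _

theorem uni_HC_nonneg {κ : Type} [Fintype κ] [DecidableEq κ] {p : ℕ} [Fact p.Prime]
    (C : Matrix κ κ (ZMod p)) : 0 ≤ HC C :=
  Finset.sum_nonneg fun _ _ => ind_nonneg _

theorem uni {ι : Type} [Fintype ι] (p : ι → ℕ) [∀ i, Fact (p i).Prime] (hp : ∀ i, p i ≠ 2) (hinj : Function.Injective p) :
    ∃ theta : ℝ, 0 < theta ∧ ∃ c : ℝ, 0 < c ∧ ∃ n0 : ℕ, ∀ n : ℕ, n0 ≤ n → ∀ k : ι → ℕ, (∀ i, (k i : ℝ) ≤ theta * n) →
      ∀ C : ∀ i, Matrix (Fin (k i)) (Fin (k i)) (ZMod (p i)),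
      |avg (fun b : Edge n → Bool => ∏ i, XC (C i) (adj (ZMod (p i)) b)) - ∏ i, (HC (C i) / (p i : ℝ) ^ (k i))| ≤
        Real.exp (-c * n) * ∏ i, (HC (C i) / (p i : ℝ) ^ (k i)) := by
  obtain ⟨c1, hc0, hc1, hmain⟩ := main1 p hp hinj
  choose thU hthU cU hcU n0U hU using fun i => one_upper (p := p i) (hp i) c1 hc0 hc1
  choose thL hthL cL hcL n0L hL using fun i => one_lower (p := p i) (hp i)
  obtain ⟨th1, hth1, hth1'⟩ := uni_min thU hthU
  obtain ⟨th2, hth2, hth2'⟩ := uni_min thL hthL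
  obtain ⟨d1, hd1, hd1'⟩ := uni_min cU hcU
  obtain ⟨d2, hd2, hd2'⟩ := uni_min cL hcL
  set d := min d1 d2 with hd
  have hd0 : 0 < d := lt_min hd1 hd2
  set K : ℝ := 2 * Fintype.card ι + (2 : ℝ) ^ Fintype.card ι with hK
  have hK0 : 0 ≤ K := by positivity
  obtain ⟨n1, hn1⟩ := exists_nat_ge (2 * K / d)
  refine ⟨min th1 th2, lt_min hth1 hth2, d / 2, by positivity,
    max (max (univ.sup n0U) (univ.sup n0L)) n1, ?_⟩
  intro n hn k hk C
  have hnU : ∀ i, n0U i ≤ n := fun i =>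
    le_trans (Finset.le_sup (f := n0U) (mem_univ i))
      (le_trans (le_trans (le_max_left _ _) (le_max_left _ _)) hn)
  have hnL : ∀ i, n0L i ≤ n := fun i =>
    le_trans (Finset.le_sup (f := n0L) (mem_univ i))
      (le_trans (le_trans (le_max_right _ _) (le_max_left _ _)) hn)
  have hn1' : n1 ≤ n := le_trans (le_max_right _ _) hn
  have hnn : (0 : ℝ) ≤ n := Nat.cast_nonneg _
  set e : ℝ := Real.exp (-d * n) with he
  have he0 : 0 ≤ e := (Real.exp_pos _).le
  have he1 : e ≤ 1 := by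
    rw [he]
    exact Real.exp_le_one_iff.2 (by nlinarith)
  have hD : ∀ i, 0 < ((p i : ℝ) ^ n) ^ (k i) / (p i : ℝ) ^ (k i * (k i - 1) / 2) := by
    intro i
    have : (0 : ℝ) < p i := by exact_mod_cast (Fact.out : (p i).Prime).pos
    positivity
  have hH : ∀ i, 0 ≤ HC (C i) / (p i : ℝ) ^ (k i) := fun i =>
    div_nonneg (uni_HC_nonneg _) (by positivity)
  have hkU : ∀ i, (k i : ℝ) ≤ thU i * n := fun i =>
    (hk i).trans (mul_le_mul_of_nonneg_right ((min_le_left _ _).trans (hth1' i)) hnn)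
  have hkL : ∀ i, (k i : ℝ) ≤ thL i * n := fun i =>
    (hk i).trans (mul_le_mul_of_nonneg_right ((min_le_right _ _).trans (hth2' i)) hnn)
  have heU : ∀ i, Real.exp (-cU i * n) ≤ e := by
    intro i
    rw [he]
    apply Real.exp_le_exp.2
    have : d ≤ cU i := (min_le_left _ _).trans (hd1' i)
    nlinarith
  have heL : ∀ i, Real.exp (-cL i * n) ≤ e := by
    intro i
    rw [he]
    apply Real.exp_le_exp.2
    have : d ≤ cL i := (min_le_right _ _).trans (hd2' i)
    nlinarith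
  have key := uni_prod
    (fun i => NC (C i) (0 : Matrix (Fin n) (Fin n) (ZMod (p i))) /
      (((p i : ℝ) ^ n) ^ (k i) / (p i : ℝ) ^ (k i * (k i - 1) / 2)))
    (fun i => ∑ M : Matrix (Fin n) (Fin n) (ZMod (p i)), c1 ^ wt M * (NC (C i) M /
      (((p i : ℝ) ^ n) ^ (k i) / (p i : ℝ) ^ (k i * (k i - 1) / 2))))
    (fun i => HC (C i) / (p i : ℝ) ^ (k i))
    (avg (fun b : Edge n → Bool => ∏ i, XC (C i) (adj (ZMod (p i)) b))) e he0 he1 hH
    (fun i => by
      refine le_trans ?_ (hL i n (k i) (hnL i) (hkL i) (C i))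
      exact mul_le_mul_of_nonneg_right (by linarith [heL i]) (hH i))
    (fun i => by
      have h1 : ∀ M ∈ (univ : Finset (Matrix (Fin n) (Fin n) (ZMod (p i)))),
          0 ≤ c1 ^ wt M * (NC (C i) M /
            (((p i : ℝ) ^ n) ^ (k i) / (p i : ℝ) ^ (k i * (k i - 1) / 2))) := fun M _ =>
        mul_nonneg (pow_nonneg hc0.le _) (div_nonneg (uni_NC_nonneg _ _) (hD i).le)
      refine le_trans (le_of_eq ?_) (Finset.single_le_sum h1
        (mem_univ (0 : Matrix (Fin n) (Fin n) (ZMod (p i)))))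
      have h2 : wt (0 : Matrix (Fin n) (Fin n) (ZMod (p i))) = 0 := by
        unfold wt
        simp
      rw [h2, pow_zero, one_mul])
    (fun i => by
      refine le_trans (hU i n (k i) (hnU i) (hkU i) (C i)) ?_
      exact mul_le_mul_of_nonneg_right (by linarith [heU i]) (hH i))
    (hmain n k C)
  refine key.trans ?_
  refine mul_le_mul_of_nonneg_right ?_ (Finset.prod_nonneg fun i _ => hH i)
  have h7 : K ≤ Real.exp (d / 2 * n) := by
    have h8 : K ≤ d / 2 * n := by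
      have h9 : 2 * K / d ≤ n := hn1.trans (by exact_mod_cast hn1')
      rw [div_le_iff₀ hd0] at h9
      linarith
    exact h8.trans (le_trans (by linarith) (Real.add_one_le_exp (d / 2 * n)))
  calc K * e ≤ Real.exp (d / 2 * n) * e := mul_le_mul_of_nonneg_right h7 he0
    _ = Real.exp (-(d / 2) * n) := by
      rw [he, ← Real.exp_add]
      congr 1
      ring

theorem uni_XC_reindex {n : ℕ} {κ κ' : Type} [Fintype κ] [DecidableEq κ] [Fintype κ']
    [DecidableEq κ'] {p : ℕ} [Fact p.Prime] (e : κ ≃ κ') (C : Matrix κ κ (ZMod p))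
    (A : Matrix (Fin n) (Fin n) (ZMod p)) : XC (Matrix.reindex e e C) A = XC C A := by
  unfold XC
  symm
  refine Fintype.sum_equiv (Matrix.reindex (Equiv.refl (Fin n)) e) _ _ fun V => ind_congr ?_
  refine and_congr ?_ ?_
  · unfold FullRank
    have h := linearIndependent_equiv (R := ZMod p) e.symm
      (f := fun a : κ => fun i : Fin n => V i a)
    exact h.symm
  · have h1 : A * (Matrix.reindex (Equiv.refl (Fin n)) e V) =
        Matrix.reindex (Equiv.refl (Fin n)) e (A * V) := by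
      ext i j
      simp [Matrix.mul_apply]
    have h2 : (Matrix.reindex (Equiv.refl (Fin n)) e V) * (Matrix.reindex e e C) =
        Matrix.reindex (Equiv.refl (Fin n)) e (V * C) := by
      simp only [Matrix.reindex_apply, Matrix.submatrix_mul_equiv]
    rw [h1, h2]
    exact (Matrix.reindex (Equiv.refl (Fin n)) e).injective.eq_iff.symm

theorem uni_symm_reindex {κ κ' : Type} {F : Type} (e : κ ≃ κ') (S : Matrix κ κ F) :
    (Matrix.reindex e e S).IsSymm ↔ S.IsSymm := by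
  constructor
  · intro h
    ext i j
    have := h.apply (e i) (e j)
    simpa using this
  · intro h
    ext i j
    have := h.apply (e.symm i) (e.symm j)
    simpa using this

theorem uni_HC_reindex {κ κ' : Type} [Fintype κ] [DecidableEq κ] [Fintype κ']
    [DecidableEq κ'] {p : ℕ} [Fact p.Prime] (e : κ ≃ κ') (C : Matrix κ κ (ZMod p)) :
    HC (Matrix.reindex e e C) = HC C := by
  unfold HC
  symm
  refine Fintype.sum_equiv (Matrix.reindex e e) _ _ fun S => ind_congr ?_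
  have h2 : (Matrix.reindex e e S) * (Matrix.reindex e e C) = Matrix.reindex e e (S * C) := by
    simp only [Matrix.reindex_apply, Matrix.submatrix_mul_equiv]
  rw [h2, uni_symm_reindex, uni_symm_reindex]

theorem uni_gen {ι : Type} [Fintype ι] (p : ι → ℕ) [∀ i, Fact (p i).Prime] (hp : ∀ i, p i ≠ 2) (hinj : Function.Injective p) :
    ∃ theta : ℝ, 0 < theta ∧ ∃ c : ℝ, 0 < c ∧ ∃ n0 : ℕ, ∀ n : ℕ, n0 ≤ n → ∀ (κ : ι → Type) [∀ i, Fintype (κ i)] [∀ i, DecidableEq (κ i)],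
      (∀ i, (Fintype.card (κ i) : ℝ) ≤ theta * n) →
      ∀ C : ∀ i, Matrix (κ i) (κ i) (ZMod (p i)),
      |avg (fun b : Edge n → Bool => ∏ i, XC (C i) (adj (ZMod (p i)) b)) - ∏ i, (HC (C i) / (p i : ℝ) ^ Fintype.card (κ i))| ≤
        Real.exp (-c * n) * ∏ i, (HC (C i) / (p i : ℝ) ^ Fintype.card (κ i)) := by
  obtain ⟨theta, hth, c, hc, n0, h⟩ := uni p hp hinj
  refine ⟨theta, hth, c, hc, n0, ?_⟩
  intro n hn κ _ _ hk C
  have h1 := h n hn (fun i => Fintype.card (κ i)) hk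
    (fun i => Matrix.reindex (Fintype.equivFin (κ i)) (Fintype.equivFin (κ i)) (C i))
  simp only [uni_XC_reindex, uni_HC_reindex] at h1
  exact h1

end Pool.H64.IR
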